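import Pool.Agent.VANn.RA

/-!
Derivatives along rotations; nonflatness of analytic functions on the sphere; compactness.
-/

namespace Pool.Agent.VANn

open MeasureTheory Set Pool.Agent.MP_6cbfb8_an Filter Topology
open scoped ENNReal Real

variable {n : ℕ}

/-- Smooth near the sphere. -/
def Sm (f : E n → ℝ) : Prop := ∀ x ∈ S n, ContDiffAt ℝ ((⊤ : ℕ∞) : WithTop ℕ∞) f x

/-- The derivative along the rotation in the plane of `q`. -/
noncomputable def dR (q : E n × E n) (f : E n → ℝ) (x : E n) : ℝ := fderiv ℝ f x (gen q x)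

lemma dR_eq (q : E n × E n) (f : E n → ℝ) (x : E n) :
    dR q f x = inner ℝ q.1 x * fderiv ℝ f x q.2 - inner ℝ q.2 x * fderiv ℝ f x q.1 := by
  unfold dR gen
  rw [map_sub, map_smul, map_smul, smul_eq_mul, smul_eq_mul]

lemma Sm.dR {f : E n → ℝ} (hf : Sm f) (q : E n × E n) : Sm (dR q f) := by
  intro x hx
  have h1 : ContDiffAt ℝ ((⊤ : ℕ∞) : WithTop ℕ∞) (fderiv ℝ f) x :=
    (hf x hx).fderiv_right (m := ((⊤ : ℕ∞) : WithTop ℕ∞)) (by
      exact_mod_cast (le_refl (⊤ : ℕ∞)))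
  have h2 : ContDiffAt ℝ ((⊤ : ℕ∞) : WithTop ℕ∞) (gen q) x := by
    have : ContDiff ℝ ((⊤ : ℕ∞) : WithTop ℕ∞) (gen q) := by
      unfold gen
      exact ((contDiff_const.inner ℝ contDiff_id).smul contDiff_const).sub
        ((contDiff_const.inner ℝ contDiff_id).smul contDiff_const)
    exact this.contDiffAt
  exact h1.clm_apply h2

lemma Sm.iter {f : E n → ℝ} (hf : Sm f) (q : E n × E n) (j : ℕ) : Sm ((VANn.dR q)^[j] f) := by
  induction j with
  | zero => exact hf
  | succ j ih =>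
    rw [Function.iterate_succ_apply']
    exact ih.dR q

lemma Sm.continuousOn {f : E n → ℝ} (hf : Sm f) : ContinuousOn f (S n) :=
  fun x hx => (hf x hx).continuousAt.continuousWithinAt

lemma Sm.of_analytic {f : E n → ℝ} (hf : AnalyticOnNhd ℝ f (S n)) : Sm f :=
  fun x hx => (hf x hx).contDiffAt

/-- the chain rule along the orbit -/
lemma Sm.hasDerivAt {f : E n → ℝ} (hf : Sm f) {q : E n × E n} (hq : ON q) {x : E n} (hx : x ∈ S n)
    (j : ℕ) (t : ℝ) :
    HasDerivAt (fun t => (VANn.dR q)^[j] f (rot q t x)) ((VANn.dR q)^[j + 1] f (rot q t x)) t := by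
  have h1 : ContDiffAt ℝ ((⊤ : ℕ∞) : WithTop ℕ∞) ((VANn.dR q)^[j] f) (rot q t x) :=
    (hf.iter q j) _ (rot_mem hq t hx)
  have h2 : DifferentiableAt ℝ ((VANn.dR q)^[j] f) (rot q t x) :=
    h1.differentiableAt (by simp)
  have h3 := h2.hasFDerivAt.comp_hasDerivAt t (hasDerivAt_rot hq t x)
  rw [Function.iterate_succ_apply']
  exact h3

/-- a real analytic function of one variable with vanishing derivatives at a point is constant -/
lemma analytic_const {g : ℝ → ℝ} (hg : AnalyticOnNhd ℝ g univ)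
    (h : ∀ j, 1 ≤ j → iteratedDeriv j g 0 = 0) (t : ℝ) : g t = g 0 := by
  have h1 : AnalyticAt ℝ (fun t => g t - g 0) 0 := (hg 0 (mem_univ _)).sub analyticAt_const
  have h2 : analyticOrderAt (fun t => g t - g 0) 0 = ⊤ := by
    rw [ENat.eq_top_iff_forall_ge]
    intro n
    rw [natCast_le_analyticOrderAt_iff_iteratedDeriv_eq_zero h1]
    intro i _
    rcases Nat.eq_zero_or_pos i with rfl | hi
    · simp
    · rw [iteratedDeriv_fun_sub (hg 0 (mem_univ _)).contDiffAt contDiffAt_const, h i hi,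
        iteratedDeriv_const]
      simp [hi.ne']
  rw [analyticOrderAt_eq_top] at h2
  have h3 : AnalyticOnNhd ℝ (fun t => g t - g 0) univ := hg.sub analyticOnNhd_const
  have h4 := h3.eq_of_eventuallyEq (g := fun _ => (0:ℝ)) analyticOnNhd_const h2
  have h5 := congrFun h4 t
  exact sub_eq_zero.1 h5

/-- the analytic function along the orbit -/
lemma analytic_orbit {f : E n → ℝ} (hf : AnalyticOnNhd ℝ f (S n)) {q : E n × E n} (hq : ON q)
    {x : E n} (hx : x ∈ S n) : AnalyticOnNhd ℝ (fun t => f (rot q t x)) univ := by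
  intro t _
  have h1 : AnalyticAt ℝ (fun t => rot q t x) t := by
    have := (contDiff_rot q x ⊤).contDiffAt (x := t)
    exact this.analyticAt
  exact AnalyticAt.fun_comp (g := f) (f := fun t => rot q t x) (x := t)
    (hf _ (rot_mem hq t hx)) h1

lemma iteratedDeriv_chain {h : ℕ → ℝ → ℝ} (hd : ∀ j t, HasDerivAt (h j) (h (j + 1) t) t) (j : ℕ) :
    iteratedDeriv j (h 0) = h j := by
  induction j with
  | zero => exact iteratedDeriv_zero
  | succ j ih =>
    rw [iteratedDeriv_succ, ih]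
    funext t
    exact (hd j t).deriv

variable {ι : Type} [Fintype ι]

/-- the derivative of order `j` of the combination -/
noncomputable def cmb (f : ι → E n → ℝ) (q : E n × E n) (j : ℕ) (a : ι → ℝ) (x : E n) : ℝ :=
  ∑ i, a i * (VANn.dR q)^[j] (f i) x

lemma cmb_smul (f : ι → E n → ℝ) (q : E n × E n) (j : ℕ) (r : ℝ) (a : ι → ℝ) (x : E n) :
    cmb f q j (r • a) x = r * cmb f q j a x := by
  unfold cmb
  rw [Finset.mul_sum]
  refine Finset.sum_congr rfl fun i _ => ?_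
  rw [Pi.smul_apply, smul_eq_mul, mul_assoc]

lemma hasDerivAt_cmb {f : ι → E n → ℝ} (hf : ∀ i, Sm (f i)) {q : E n × E n} (hq : ON q)
    (a : ι → ℝ) {x : E n} (hx : x ∈ S n) (j : ℕ) (t : ℝ) :
    HasDerivAt (fun t => cmb f q j a (rot q t x)) (cmb f q (j + 1) a (rot q t x)) t := by
  unfold cmb
  refine HasDerivAt.fun_sum fun i _ => ?_
  exact ((hf i).hasDerivAt hq hx j t).const_mul (a i)

/-- nonflatness -/
theorem nonflat (hn : 2 ≤ n) {f : ι → E n → ℝ} (hf : ∀ i, AnalyticOnNhd ℝ (f i) (S n)) (a : ι → ℝ)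
    {x : E n} (hx : x ∈ S n) (h : ∀ q, ON q → ∀ j, 1 ≤ j → cmb f q j a x = 0)
    {y : E n} (hy : y ∈ S n) : ∑ i, a i * f i y = ∑ i, a i * f i x := by
  obtain ⟨q, hq, s, hs⟩ := exists_rot hn hx hy
  have hsm : ∀ i, Sm (f i) := fun i => Sm.of_analytic (hf i)
  have h1 : AnalyticOnNhd ℝ (fun t => cmb f q 0 a (rot q t x)) univ := by
    unfold cmb
    refine Finset.analyticOnNhd_fun_sum _ fun i _ => ?_
    exact analyticOnNhd_const.mul (analytic_orbit (hf i) hq hx)
  have h2 := analytic_const h1 (fun j hj => by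
    have h3 := iteratedDeriv_chain (h := fun j t => cmb f q j a (rot q t x))
      (fun j t => hasDerivAt_cmb hsm hq a hx j t) j
    rw [h3]
    simp only
    rw [rot_zero]
    exact h q hq j hj) s
  simp only [rot_zero, hs] at h2
  exact h2

/-- continuity -/
lemma continuous_cmb {f : ι → E n → ℝ} (hf : ∀ i, Sm (f i)) (q : E n × E n) (j : ℕ) :
    Continuous fun p : (ι → ℝ) × S n => cmb f q j p.1 p.2 := by
  unfold cmb
  refine continuous_finsetSum _ fun i _ => ?_
  have h1 : Continuous fun x : S n => (VANn.dR q)^[j] (f i) x :=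
    continuousOn_iff_continuous_domRestrict.1 ((hf i).iter q j).continuousOn
  exact ((continuous_apply i).comp continuous_fst).mul (h1.comp continuous_snd)

/-- compactness: for a family such that at every point some derivative of order in `J` does not
vanish, there are finitely many rotations and orders which suffice, uniformly. -/
theorem compactness {f : ι → E n → ℝ} (hf : ∀ i, Sm (f i)) (J : Set ℕ)
    (h : ∀ a : ι → ℝ, ‖a‖ = 1 → ∀ x ∈ S n, ∃ q, ON q ∧ ∃ j ∈ J, cmb f q j a x ≠ 0) :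
    ∃ (Q : Finset ((E n × E n) × ℕ)) (c δ : ℝ), (∀ p ∈ Q, ON p.1 ∧ p.2 ∈ J) ∧ 0 < c ∧ 0 < δ ∧
      ∀ (a : ι → ℝ), ∀ x ∈ S n, a ≠ 0 → ∃ p ∈ Q, ∀ y ∈ S n, dist y x < δ →
        c * ‖a‖ ≤ |cmb f p.1 p.2 a y| := by
  classical
  let K := (Metric.sphere (0 : ι → ℝ) 1) × S n
  let I := {p : (E n × E n) × ℕ // ON p.1 ∧ p.2 ∈ J} × ℕ
  let U : I → Set K := fun p => {z | 1 / ((p.2 : ℝ) + 1) < |cmb f p.1.1.1 p.1.1.2 z.1 z.2|}
  have hcont : ∀ p : (E n × E n) × ℕ, Continuous fun z : K => cmb f p.1 p.2 z.1 z.2 := by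
    intro p
    have h1 := continuous_cmb hf p.1 p.2
    exact h1.comp ((continuous_subtype_val.comp continuous_fst).prodMk continuous_snd)
  have hU : ∀ p, IsOpen (U p) := fun p => isOpen_lt continuous_const (hcont p.1.1).abs
  have hcov : (univ : Set K) ⊆ ⋃ p, U p := by
    rintro ⟨a, x⟩ _
    have ha : ‖(a : ι → ℝ)‖ = 1 := mem_sphere_zero_iff_norm.1 a.2
    obtain ⟨q, hq, j, hj, hne⟩ := h a ha x x.2
    obtain ⟨k0, hk0⟩ := exists_nat_one_div_lt (abs_pos.2 hne)
    rw [mem_iUnion]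
    exact ⟨(⟨(q, j), hq, hj⟩, k0), hk0⟩
  obtain ⟨t, ht⟩ := isCompact_univ.elim_finite_subcover U hU hcov
  obtain ⟨δ, hδ, hL⟩ := lebesgue_number_lemma_of_metric (s := (univ : Set K))
    (c := fun p : t => U p.1) isCompact_univ (fun p => hU p.1) (by
      intro z hz
      have := ht hz
      simp only [mem_iUnion] at this ⊢
      obtain ⟨p, hp, hz⟩ := this
      exact ⟨⟨p, hp⟩, hz⟩)
  -- the constants
  obtain ⟨N, hN⟩ : ∃ N : ℕ, ∀ p ∈ t, p.2 ≤ N := by
    refine ⟨t.sup (fun p => p.2), fun p hp => Finset.le_sup (f := fun p : I => p.2) hp⟩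
  refine ⟨t.image fun p => p.1.1, 1 / ((N : ℝ) + 1), δ, ?_, by positivity, hδ, ?_⟩
  · intro p hp
    rw [Finset.mem_image] at hp
    obtain ⟨r, _, rfl⟩ := hp
    exact r.1.2
  · intro a x hx ha
    have hn : 0 < ‖a‖ := norm_pos_iff.2 ha
    have ha1 : ‖a‖⁻¹ • a ∈ Metric.sphere (0 : ι → ℝ) 1 := by
      rw [mem_sphere_zero_iff_norm, norm_smul, norm_inv, norm_norm, inv_mul_cancel₀ hn.ne']
    obtain ⟨p, hp⟩ := hL (⟨‖a‖⁻¹ • a, ha1⟩, ⟨x, hx⟩) (mem_univ _)
    refine ⟨p.1.1.1, Finset.mem_image_of_mem _ p.2, fun y hy hyx => ?_⟩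
    have h1 : ((⟨‖a‖⁻¹ • a, ha1⟩, ⟨y, hy⟩) : K) ∈ Metric.ball ((⟨‖a‖⁻¹ • a, ha1⟩, ⟨x, hx⟩) : K) δ := by
      rw [Metric.mem_ball, Prod.dist_eq]
      refine max_lt ?_ ?_
      · rw [dist_self]; exact hδ
      · exact hyx
    have h2 := hp h1
    have h3 : 1 / ((p.1.2 : ℝ) + 1) < |cmb f p.1.1.1.1 p.1.1.1.2 (‖a‖⁻¹ • a) y| := h2
    rw [cmb_smul, abs_mul, abs_of_pos (inv_pos.2 hn), inv_mul_eq_div, lt_div_iff₀ hn] at h3
    refine le_trans ?_ h3.le
    apply mul_le_mul_of_nonneg_right _ hn.le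
    apply one_div_le_one_div_of_le (by positivity)
    have := hN p.1 p.2
    have : (p.1.2 : ℝ) ≤ N := by exact_mod_cast this
    linarith

end Pool.Agent.VANn
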