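import Pool.Agent.VANn.NDefs
import Pool.Agent.VANn.RB

/-!
A smooth function on the sphere is flat at a point if and only if all its derivatives along rotations
vanish at the point; analytic families have no flat points.
-/

namespace Pool.Agent.VANn

open MeasureTheory Set Filter Topology Asymptotics Pool.Agent.MP_6cbfb8_an
open Pool.Agent.VAN (fam)
open scoped Real

variable {n : ℕ}

/-- extension of a function which is smooth near the sphere -/
theorem extend (f : E n → ℝ)
    (hf : ∀ x ∈ S n, ContDiffAt ℝ ((⊤ : ℕ∞) : WithTop ℕ∞) f x) :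
    ∃ F : E n → ℝ, ContDiff ℝ ((⊤ : ℕ∞) : WithTop ℕ∞) F ∧ HasCompactSupport F ∧
      ∀ x ∈ S n, F x = f x := by
  let χ : ContDiffBump (1 : ℝ) := ⟨1 / 4, 1 / 2, by norm_num, by norm_num⟩
  have hχ0 : ∀ t : ℝ, 1 / 2 ≤ |t - 1| → χ t = 0 := fun t ht =>
    χ.zero_of_le_dist (by rw [Real.dist_eq]; exact ht)
  refine ⟨fun x => χ (‖x‖ ^ 2) * f (‖x‖⁻¹ • x), ?_, ?_, ?_⟩
  · rw [contDiff_iff_contDiffAt]
    intro x
    by_cases hx : x = 0
    · subst hx
      have h1 : (fun x : E n => χ (‖x‖ ^ 2) * f (‖x‖⁻¹ • x)) =ᶠ[nhds 0] fun _ => 0 := by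
        filter_upwards [Metric.ball_mem_nhds (0 : E n) (by norm_num : (0:ℝ) < 1 / 2)] with y hy
        rw [mem_ball_zero_iff] at hy
        have h2 : χ (‖y‖ ^ 2) = 0 := hχ0 _ (by
          have h3 : ‖y‖ ^ 2 ≤ 1 / 2 := by nlinarith [norm_nonneg y]
          rw [abs_of_nonpos (by linarith)]
          linarith)
        rw [h2, zero_mul]
      exact contDiffAt_const.congr_of_eventuallyEq h1
    · have hn : ‖x‖ ≠ 0 := norm_ne_zero_iff.2 hx
      have hx1 : ‖x‖⁻¹ • x ∈ S n := by
        rw [mem_sphere_zero_iff_norm, norm_smul, norm_inv, norm_norm, inv_mul_cancel₀ hn]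
      have h1 : ContDiffAt ℝ ((⊤ : ℕ∞) : WithTop ℕ∞) (fun x : E n => ‖x‖) x := contDiffAt_norm ℝ hx
      have h2 : ContDiffAt ℝ ((⊤ : ℕ∞) : WithTop ℕ∞) (fun x : E n => ‖x‖⁻¹ • x) x :=
        (h1.inv hn).smul contDiffAt_id
      refine ContDiffAt.mul ?_ ?_
      · exact χ.contDiff.contDiffAt.comp x (h1.pow 2)
      · exact ContDiffAt.comp (g := f) (f := fun x : E n => ‖x‖⁻¹ • x) x (hf _ hx1) h2
  · refine HasCompactSupport.intro (isCompact_closedBall (0 : E n) 2) fun x hx => ?_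
    rw [Metric.mem_closedBall, dist_zero_right, not_le] at hx
    have h2 : χ (‖x‖ ^ 2) = 0 := hχ0 _ (by
      have h3 : 2 ≤ ‖x‖ ^ 2 := by nlinarith [norm_nonneg x]
      rw [abs_of_nonneg (by linarith)]
      linarith)
    rw [h2, zero_mul]
  · intro x hx
    rw [mem_sphere_zero_iff_norm] at hx
    show χ (‖x‖ ^ 2) * f (‖x‖⁻¹ • x) = f x
    rw [hx, one_pow, inv_one, one_smul, χ.one_of_mem_closedBall (by simp; norm_num [χ]), one_mul]


/-- Taylor's formula for a chain of derivatives. -/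
theorem taylor_chain (k : ℕ) : ∀ (h : ℕ → ℝ → ℝ), (∀ j t, HasDerivAt (h j) (h (j + 1) t) t) →
    ∀ {M T : ℝ}, 0 ≤ M → (∀ t, |t| ≤ T → |h (k + 1) t| ≤ M) → (∀ j, 1 ≤ j → h j 0 = 0) →
    ∀ t, |t| ≤ T → |h 0 t - h 0 0| ≤ M * |t| ^ (k + 1) := by
  -- the mean value inequality
  have mvt : ∀ (u u' : ℝ → ℝ), (∀ t, HasDerivAt u (u' t) t) → ∀ (B t : ℝ),
      (∀ s, |s| ≤ |t| → |u' s| ≤ B) → |u t - u 0| ≤ B * |t| := by
    intro u u' hu B t hB
    have h := Convex.norm_image_sub_le_of_norm_hasDerivWithin_le (𝕜 := ℝ) (f := u) (f' := u')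
      (s := Icc (-|t|) |t|) (x := 0) (y := t) (C := B) (fun r _ => (hu r).hasDerivWithinAt)
      (fun r hr => hB r (abs_le.2 hr)) (convex_Icc _ _)
      ⟨by simp, abs_nonneg t⟩ ⟨neg_abs_le t, le_abs_self t⟩
    simpa using h
  induction k with
  | zero =>
    intro h hd M T hM hb _ t ht
    have := mvt (h 0) (h 1) (hd 0) M t fun s hs => hb s (hs.trans ht)
    simpa using this
  | succ k ih =>
    intro h hd M T hM hb h0 t ht
    have h1 := ih (fun j => h (j + 1)) (fun j t => hd (j + 1) t) hM hb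
      (fun j hj => h0 (j + 1) (by omega))
    have h2 := mvt (h 0) (h 1) (hd 0) (M * |t| ^ (k + 1)) t fun s hs => by
      have h3 := h1 s (hs.trans ht)
      simp only [zero_add] at h3
      rw [h0 1 le_rfl, sub_zero] at h3
      exact h3.trans (mul_le_mul_of_nonneg_left (pow_le_pow_left₀ (abs_nonneg s) hs _) hM)
    rw [pow_succ _ (k + 1), ← mul_assoc]
    exact h2

/-- Two nearby points of the sphere lie on a common orbit, with control on the angle. -/
theorem exists_rot_le (hn2 : 2 ≤ n) {x y : E n} (hx : ‖x‖ = 1) (hy : ‖y‖ = 1) (hxy : ‖y - x‖ < 1) :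
    ∃ q : E n × E n, ON q ∧ ∃ s : ℝ, rot q s x = y ∧ |s| ≤ 2 * ‖y - x‖ := by
  by_cases hyx : y = x
  · subst hyx
    obtain ⟨q, hq, _⟩ := exists_rot hn2 (x := y) (y := y) (by simpa using hx) (by simpa using hx)
    exact ⟨q, hq, 0, rot_zero _ _, by simp⟩
  set c : ℝ := inner ℝ x y with hc
  have hcn : ‖y - x‖ ^ 2 = 2 - 2 * c := by
    rw [norm_sub_sq_real, hx, hy, real_inner_comm x y, ← hc]
    ring
  have hc0 : 0 < c := by nlinarith [norm_nonneg (y - x)]
  have hc1 : c < 1 := by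
    have : 0 < ‖y - x‖ := norm_pos_iff.2 (sub_ne_zero.2 hyx)
    nlinarith
  set z : E n := y - c • x with hz
  have hzx : inner ℝ x z = 0 := by
    rw [hz, inner_sub_right, real_inner_smul_right, real_inner_self_eq_norm_sq, hx]
    ring
  have hzz : ‖z‖ ^ 2 = 1 - c ^ 2 := by
    rw [← real_inner_self_eq_norm_sq, hz]
    simp only [inner_sub_left, inner_sub_right, real_inner_smul_left, real_inner_smul_right]
    rw [real_inner_self_eq_norm_sq, real_inner_self_eq_norm_sq, hx, hy, real_inner_comm x y, ← hc]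
    ring
  have hn : 0 < ‖z‖ := by
    rw [norm_pos_iff]
    intro h
    rw [h, norm_zero] at hzz
    nlinarith
  set f : E n := ‖z‖⁻¹ • z with hf
  have hf1 : ‖f‖ = 1 := norm_smul_inv_norm (norm_pos_iff.1 hn)
  have hf2 : inner ℝ x f = 0 := by rw [hf, real_inner_smul_right, hzx, mul_zero]
  refine ⟨(x, f), ⟨hx, hf1, hf2⟩, Real.arccos c, ?_, ?_⟩
  · unfold rot
    simp only
    rw [real_inner_self_eq_norm_sq, hx, real_inner_comm, hf2, Real.cos_arccos (by linarith) hc1.le,
      Real.sin_arccos, ← hzz, Real.sqrt_sq hn.le, hf, smul_smul, hz]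
    have : ‖z‖ * ‖z‖⁻¹ = 1 := mul_inv_cancel₀ hn.ne'
    simp only [one_pow, mul_one, mul_zero, sub_zero, add_zero]
    rw [this]
    module
  · have h1 := Real.cos_le_one_sub_mul_cos_sq (x := Real.arccos c) (by
      rw [abs_of_nonneg (Real.arccos_nonneg c)]
      exact Real.arccos_le_pi c)
    rw [Real.cos_arccos (by linarith) hc1.le] at h1
    have hpi := Real.pi_pos
    have hpi4 : π < 4 := by
      have := Real.pi_lt_d2
      linarith
    have h2 : Real.arccos c ^ 2 ≤ π ^ 2 * (1 - c) / 2 := by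
      have : 2 / π ^ 2 * Real.arccos c ^ 2 ≤ 1 - c := by linarith
      rw [div_mul_eq_mul_div, div_le_iff₀ (by positivity)] at this
      linarith
    rw [abs_of_nonneg (Real.arccos_nonneg c)]
    refine le_of_sq_le_sq ?_ (by positivity)
    have h3 : (2 * ‖y - x‖) ^ 2 = 8 * (1 - c) := by
      rw [mul_pow, hcn]
      ring
    rw [h3]
    have h4 : π ^ 2 ≤ 16 := by nlinarith
    nlinarith

theorem isCompact_ON : IsCompact {q : E n × E n | ON q} := by
  refine Metric.isCompact_of_isClosed_isBounded ?_ ?_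
  · unfold ON
    refine IsClosed.inter (isClosed_eq (by fun_prop) continuous_const)
      (IsClosed.inter (isClosed_eq (by fun_prop) continuous_const)
        (isClosed_eq (by fun_prop) continuous_const))
  · refine (Metric.isBounded_closedBall (x := (0 : E n × E n)) (r := 1)).subset ?_
    intro q hq
    rw [mem_closedBall_zero_iff, Prod.norm_def]
    exact max_le hq.1.le hq.2.1.le

theorem flat_of_dR (hn2 : 2 ≤ n) {f : E n → ℝ}
    (hf : ∀ x ∈ Metric.sphere (0 : E n) 1, ContDiffAt ℝ ((⊤ : ℕ∞) : WithTop ℕ∞) f x) {x : E n}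
    (hx : ‖x‖ = 1) (h : ∀ q, ON q → ∀ k, 1 ≤ k → (dR q)^[k] f x = 0) : Flat f x := by
  obtain ⟨F, hF, _, hFe⟩ := extend f hf
  have hxS : x ∈ S n := by simpa using hx
  set G : (E n × E n) × ℝ → ℝ := fun w => F (rot w.1 w.2 x) with hG
  have hGs : ContDiff ℝ ((⊤ : ℕ∞) : WithTop ℕ∞) G := by
    refine hF.comp ?_
    unfold rot
    have h1 : ContDiff ℝ ((⊤ : ℕ∞) : WithTop ℕ∞) fun w : (E n × E n) × ℝ => w.1.1 :=
      contDiff_fst.comp contDiff_fst
    have h2 : ContDiff ℝ ((⊤ : ℕ∞) : WithTop ℕ∞) fun w : (E n × E n) × ℝ => w.1.2 :=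
      contDiff_snd.comp contDiff_fst
    have hc : ContDiff ℝ ((⊤ : ℕ∞) : WithTop ℕ∞) fun w : (E n × E n) × ℝ => Real.cos w.2 :=
      Real.contDiff_cos.comp contDiff_snd
    have hs : ContDiff ℝ ((⊤ : ℕ∞) : WithTop ℕ∞) fun w : (E n × E n) × ℝ => Real.sin w.2 :=
      Real.contDiff_sin.comp contDiff_snd
    have i1 := h1.inner ℝ (contDiff_const (c := x))
    have i2 := h2.inner ℝ (contDiff_const (c := x))
    exact (contDiff_const.add ((((hc.sub contDiff_const).mul i1).sub (hs.mul i2)).smul h1)).add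
      (((hs.mul i1).add ((hc.sub contDiff_const).mul i2)).smul h2)
  set D : ((E n × E n) × ℝ → ℝ) → ((E n × E n) × ℝ → ℝ) := fun g w => fderiv ℝ g w (0, 1) with hD
  have hDs : ∀ j, ContDiff ℝ ((⊤ : ℕ∞) : WithTop ℕ∞) (D^[j] G) := by
    intro j
    induction j with
    | zero => exact hGs
    | succ j ih =>
      rw [Function.iterate_succ_apply']
      have h1 : ContDiff ℝ ((⊤ : ℕ∞) : WithTop ℕ∞) (fderiv ℝ (D^[j] G)) :=
        ih.fderiv_right (m := ((⊤ : ℕ∞) : WithTop ℕ∞)) (by exact_mod_cast (le_refl (⊤ : ℕ∞)))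
      exact h1.clm_apply contDiff_const
  have hDd : ∀ (q : E n × E n) (j : ℕ) (t : ℝ),
      HasDerivAt (fun t => (D^[j] G) (q, t)) ((D^[j + 1] G) (q, t)) t := by
    intro q j t
    have h1 : DifferentiableAt ℝ (D^[j] G) (q, t) := (hDs j).contDiffAt.differentiableAt (by simp)
    have h2 : HasDerivAt (fun t : ℝ => ((q, t) : (E n × E n) × ℝ)) (0, 1) t :=
      (hasDerivAt_const t q).prodMk (hasDerivAt_id t)
    have h3 := h1.hasFDerivAt.comp_hasDerivAt t h2
    rw [Function.iterate_succ_apply']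
    exact h3
  have heq : ∀ q, ON q → ∀ j t, (D^[j] G) (q, t) = (dR q)^[j] f (rot q t x) := by
    intro q hq j t
    have e1 := iteratedDeriv_chain (h := fun j t => (D^[j] G) (q, t)) (hDd q) j
    have e2 := iteratedDeriv_chain (h := fun j t => (dR q)^[j] f (rot q t x))
      (fun j t => Sm.hasDerivAt hf hq hxS j t) j
    have e0 : (fun t => (D^[0] G) (q, t)) = fun t => (dR q)^[0] f (rot q t x) := by
      funext t
      exact hFe _ (rot_mem hq t hxS)
    rw [e0] at e1
    exact congrFun (e1.symm.trans e2) t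
  intro k
  obtain ⟨M, hM⟩ := (isCompact_ON.prod (isCompact_Icc (a := (-2 : ℝ)) (b := 2))).exists_bound_of_continuousOn
    (hDs (k + 1)).continuous.continuousOn
  have hM0 : 0 ≤ M := by
    obtain ⟨q, hq, _⟩ := exists_rot hn2 hxS hxS
    exact (norm_nonneg _).trans (hM (q, 0) ⟨hq, by constructor <;> norm_num⟩)
  refine IsBigO.of_bound (M * 2 ^ (k + 1)) ?_
  have hball : Metric.ball x 1 ∈ 𝓝[Metric.sphere 0 1] x :=
    mem_nhdsWithin_of_mem_nhds (Metric.ball_mem_nhds x one_pos)
  filter_upwards [hball, self_mem_nhdsWithin] with y hy1 hy2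
  have hy : ‖y‖ = 1 := by simpa using hy2
  have hyx : ‖y - x‖ < 1 := by rwa [Metric.mem_ball, dist_eq_norm] at hy1
  obtain ⟨q, hq, s, hs, hs2⟩ := exists_rot_le hn2 hx hy hyx
  have h2 := taylor_chain k (fun j t => (D^[j] G) (q, t)) (hDd q) (M := M) (T := 2) hM0
    (fun t ht => hM (q, t) ⟨hq, abs_le.1 ht⟩)
    (fun j hj => by
      rw [heq q hq j 0, rot_zero]
      exact h q hq j hj) s (by linarith)
  simp only [heq q hq, Function.iterate_zero, id_eq, hs, rot_zero] at h2
  rw [Real.norm_eq_abs, norm_pow, norm_norm]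
  refine h2.trans ?_
  have h3 : |s| ^ (k + 1) ≤ (2 * ‖y - x‖) ^ (k + 1) := pow_le_pow_left₀ (abs_nonneg s) hs2 _
  calc M * |s| ^ (k + 1) ≤ M * (2 * ‖y - x‖) ^ (k + 1) := mul_le_mul_of_nonneg_left h3 hM0
    _ = M * 2 ^ (k + 1) * ‖y - x‖ ^ k * ‖y - x‖ := by rw [mul_pow, pow_succ ‖y - x‖]; ring
    _ ≤ M * 2 ^ (k + 1) * ‖y - x‖ ^ k * 1 :=
        mul_le_mul_of_nonneg_left hyx.le (by positivity)
    _ = M * 2 ^ (k + 1) * ‖y - x‖ ^ k := mul_one _

/-- An analytic function of one variable which is flat at `0` is constant. -/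
theorem analytic_flat_const {g : ℝ → ℝ} (hg : AnalyticOnNhd ℝ g univ)
    (h : ∀ k : ℕ, (fun t => g t - g 0) =O[𝓝 0] fun t => |t| ^ k) (t : ℝ) : g t = g 0 := by
  have h1 : AnalyticAt ℝ (fun t => g t - g 0) 0 := (hg 0 (mem_univ _)).sub analyticAt_const
  have h2 : analyticOrderAt (fun t => g t - g 0) 0 = ⊤ := by
    by_contra hne
    obtain ⟨u, hu, hu0, he⟩ := h1.analyticOrderAt_ne_top.1 hne
    set n := analyticOrderNatAt (fun t => g t - g 0) 0
    have h3 : (fun t : ℝ => t ^ n * u t) =O[𝓝[≠] 0] fun t : ℝ => |t| ^ (n + 1) := by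
      refine (((h (n + 1)).congr' ?_ EventuallyEq.rfl)).mono nhdsWithin_le_nhds
      filter_upwards [he] with t ht
      rw [ht, sub_zero, smul_eq_mul]
    have h4 : u =O[𝓝[≠] 0] fun t : ℝ => t := by
      obtain ⟨C, hC⟩ := h3.bound
      refine IsBigO.of_bound C ?_
      filter_upwards [hC, self_mem_nhdsWithin] with t ht ht0
      have ht1 : 0 < |t| := abs_pos.2 ht0
      have ht2 : 0 < |t| ^ n := pow_pos ht1 n
      rw [norm_mul, norm_pow, Real.norm_eq_abs, Real.norm_eq_abs, Real.norm_eq_abs, abs_pow,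
        abs_abs] at ht
      rw [Real.norm_eq_abs, Real.norm_eq_abs]
      refine le_of_mul_le_mul_left ?_ ht2
      rw [pow_succ] at ht
      linarith
    have h5 : Tendsto u (𝓝[≠] 0) (𝓝 0) :=
      h4.trans_tendsto (tendsto_id.mono_left nhdsWithin_le_nhds)
    have h6 : Tendsto u (𝓝[≠] 0) (𝓝 (u 0)) := hu.continuousAt.mono_left nhdsWithin_le_nhds
    exact hu0 (tendsto_nhds_unique h6 h5)
  rw [analyticOrderAt_eq_top] at h2
  have h3 : AnalyticOnNhd ℝ (fun t => g t - g 0) univ := hg.sub analyticOnNhd_const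
  have h4 := h3.eq_of_eventuallyEq (g := fun _ => (0:ℝ)) analyticOnNhd_const h2
  exact sub_eq_zero.1 (congrFun h4 t)

/-- Analytic families have no flat points. -/
theorem nonflat_of_analytic (hn2 : 2 ≤ n) {d : ℕ} (φ : Fin d → E n → ℝ)
    (ha : ∀ j, AnalyticOnNhd ℝ (φ j) (Metric.sphere 0 1)) : Nonflat φ := by
  refine ⟨fun j x hx => (ha j x hx).contDiffAt, fun a ζ x hx hflat y hy => ?_⟩
  have hxS : x ∈ S n := by simpa using hx
  have hyS : y ∈ S n := by simpa using hy
  have hf : AnalyticOnNhd ℝ (fun y => fam φ a y + inner ℝ y ζ) (S n) := by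
    unfold fam
    refine AnalyticOnNhd.add ?_ ?_
    · exact Finset.analyticOnNhd_fun_sum _ fun i _ => analyticOnNhd_const.mul (ha i)
    · intro z _
      have h1 : (fun y : E n => inner ℝ y ζ) = fun y => innerSL ℝ ζ y := by
        funext y
        rw [innerSL_apply_apply, real_inner_comm]
      rw [h1]
      exact (innerSL ℝ ζ).analyticAt z
  obtain ⟨q, hq, s, hs⟩ := exists_rot hn2 hxS hyS
  have hg := analytic_orbit hf hq hxS
  have h0 := analytic_flat_const hg (fun k => by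
    obtain ⟨C, hC⟩ := (hflat k).bound
    have hcont : Tendsto (fun t : ℝ => rot q t x) (𝓝 0) (𝓝[Metric.sphere 0 1] x) := by
      rw [tendsto_nhdsWithin_iff]
      refine ⟨?_, Eventually.of_forall fun t => rot_mem hq t hxS⟩
      have h1 : Continuous fun t : ℝ => rot q t x := (contDiff_rot q x 0).continuous
      simpa [rot_zero] using h1.tendsto 0
    have h2 := hcont.eventually hC
    refine IsBigO.of_bound (|C| * 2 ^ k) ?_
    filter_upwards [h2] with t ht
    rw [rot_zero]
    refine ht.trans ?_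
    have h3 : ‖rot q t x - x‖ ≤ 2 * |t| := by
      have := dist_rot_le hq hxS t 0
      rwa [rot_zero, dist_eq_norm, sub_zero] at this
    rw [norm_pow, norm_norm, norm_pow, Real.norm_eq_abs, abs_abs, mul_assoc, ← mul_pow]
    exact (mul_le_mul_of_nonneg_right (le_abs_self C) (by positivity)).trans
      (mul_le_mul_of_nonneg_left (pow_le_pow_left₀ (norm_nonneg _) h3 k) (abs_nonneg C))) s
  simp only [rot_zero, hs] at h0
  exact h0

/-- The derivatives of a flat function of one variable vanish. -/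
theorem flat_chain {h : ℕ → ℝ → ℝ} (hd : ∀ j t, HasDerivAt (h j) (h (j + 1) t) t)
    (hflat : ∀ k : ℕ, (fun t => h 0 t - h 0 0) =O[𝓝 0] fun t => |t| ^ k) :
    ∀ j, 1 ≤ j → h j 0 = 0 := by
  intro j
  induction j using Nat.strong_induction_on with
  | _ j ih =>
    intro hj
    have hcd : ContDiff ℝ j (h 0) := by
      refine contDiff_of_differentiable_iteratedDeriv fun m _ => ?_
      rw [iteratedDeriv_chain hd m]
      exact fun t => (hd m t).differentiableAt
    have h1 := taylor_isLittleO_univ (x₀ := 0) hcd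
    have h2 : ∀ t, taylorWithinEval (h 0) j univ 0 t =
        h 0 0 + ((j.factorial : ℝ)⁻¹ * h j 0) * t ^ j := by
      intro t
      rw [taylor_within_apply, Finset.sum_range_succ]
      have h3 : ∀ k, iteratedDerivWithin k (h 0) univ 0 = h k 0 := fun k => by
        rw [iteratedDerivWithin_univ, iteratedDeriv_chain hd k]
      simp_rw [h3]
      obtain ⟨i, rfl⟩ : ∃ i, j = i + 1 := ⟨j - 1, by omega⟩
      rw [Finset.sum_range_succ']
      rw [Finset.sum_eq_zero (fun k hk => by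
        rw [ih (k + 1) (by have := Finset.mem_range.1 hk; omega) (by omega), smul_zero])]
      simp only [Nat.factorial_zero, Nat.cast_one, inv_one, pow_zero, mul_one, one_smul, zero_add,
        sub_zero, smul_eq_mul]
      ring
    have h4 : (fun t : ℝ => ((j.factorial : ℝ)⁻¹ * h j 0) * t ^ j) =o[𝓝 0] fun t : ℝ => t ^ j := by
      have h5 : (fun t => h 0 t - h 0 0) =o[𝓝 0] fun t : ℝ => t ^ j := by
        refine (hflat (j + 1)).trans_isLittleO ?_
        have h6 : (fun t : ℝ => t * t ^ j) =o[𝓝 0] fun t : ℝ => 1 * t ^ j :=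
          (isLittleO_one_iff ℝ |>.2 tendsto_id).mul_isBigO (isBigO_refl _ _)
        simp only [one_mul] at h6
        refine IsLittleO.congr_left (f₁ := fun t : ℝ => |t * t ^ j|) h6.abs_left fun t => ?_
        rw [abs_mul, abs_pow, pow_succ, mul_comm]
      have h7 := h5.sub (by simpa using h1)
      refine h7.congr_left fun t => ?_
      rw [h2 t]
      ring
    by_contra hne
    have hc : (j.factorial : ℝ)⁻¹ * h j 0 ≠ 0 :=
      mul_ne_zero (inv_ne_zero (by exact_mod_cast j.factorial_ne_zero)) hne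
    rw [isLittleO_const_mul_left_iff hc] at h4
    refine isLittleO_irrefl ?_ h4
    have h8 : ∀ᶠ t : ℝ in 𝓝[≠] 0, t ^ j ≠ 0 := by
      filter_upwards [self_mem_nhdsWithin] with t ht
      exact pow_ne_zero _ ht
    exact h8.frequently.filter_mono nhdsWithin_le_nhds

/-- A flat function is flat along the orbits. -/
theorem Flat.orbit {f : E n → ℝ} {x : E n} (hx : ‖x‖ = 1) (hflat : Flat f x) {q : E n × E n}
    (hq : ON q) (k : ℕ) : (fun t : ℝ => f (rot q t x) - f x) =O[𝓝 0] fun t : ℝ => |t| ^ k := by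
  have hxS : x ∈ S n := by simpa using hx
  obtain ⟨C, hC⟩ := (hflat k).bound
  have hcont : Tendsto (fun t : ℝ => rot q t x) (𝓝 0) (𝓝[Metric.sphere 0 1] x) := by
    rw [tendsto_nhdsWithin_iff]
    refine ⟨?_, Eventually.of_forall fun t => rot_mem hq t hxS⟩
    have h1 : Continuous fun t : ℝ => rot q t x := (contDiff_rot q x 0).continuous
    simpa [rot_zero] using h1.tendsto 0
  have h2 := hcont.eventually hC
  refine IsBigO.of_bound (|C| * 2 ^ k) ?_
  filter_upwards [h2] with t ht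
  refine ht.trans ?_
  have h3 : ‖rot q t x - x‖ ≤ 2 * |t| := by
    have := dist_rot_le hq hxS t 0
    rwa [rot_zero, dist_eq_norm, sub_zero] at this
  rw [norm_pow, norm_norm, norm_pow, Real.norm_eq_abs, abs_abs, mul_assoc, ← mul_pow]
  exact (mul_le_mul_of_nonneg_right (le_abs_self C) (by positivity)).trans
    (mul_le_mul_of_nonneg_left (pow_le_pow_left₀ (norm_nonneg _) h3 k) (abs_nonneg C))

/-- The derivatives along rotations vanish at a flat point. -/
theorem dR_of_flat {f : E n → ℝ}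
    (hf : ∀ x ∈ Metric.sphere (0 : E n) 1, ContDiffAt ℝ ((⊤ : ℕ∞) : WithTop ℕ∞) f x) {x : E n}
    (hx : ‖x‖ = 1) (hflat : Flat f x) (q : E n × E n) (hq : ON q) (k : ℕ) (hk : 1 ≤ k) :
    (dR q)^[k] f x = 0 := by
  have hxS : x ∈ S n := by simpa using hx
  have h := flat_chain (h := fun j t => (dR q)^[j] f (rot q t x))
    (fun j t => Sm.hasDerivAt hf hq hxS j t) (fun k => by
      simpa [rot_zero] using hflat.orbit hx hq k) k hk
  simpa [rot_zero] using h

end Pool.Agent.VANn
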