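import Pool.Agent.VANn.RC
import Pool.Agent.PPH.B1a

/-!
Smooth families without flat points on the unit sphere of `R^n`: decay of the Fourier transform and
sublevel sets.
-/

namespace Pool.Agent.VANn

open MeasureTheory Set Pool.Agent.MP_6cbfb8_an Filter Topology Pool.Agent.VAN
open scoped ENNReal Real

variable {n : ℕ} {ι : Type} [Fintype ι]

/-- one patch -/
theorem sub_patch {f : ι → E n → ℝ} (hf : ∀ i, Sm (f i)) {q : E n × E n} (hq : ON q) (k : ℕ)
    (x0 : E n) {δ : ℝ} (hδ : 0 < δ) : ∃ C : ℝ, 0 ≤ C ∧ ∀ (a : ι → ℝ) (lam e : ℝ), 0 < lam → 0 < e →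
      (∀ y ∈ S n, dist y x0 < δ → lam ≤ |cmb f q (k + 1) a y|) →
      (sm n) {x : S n | dist (x : E n) x0 < δ / 2 ∧ |cmb f q 0 a x| ≤ e} ≤
        ENNReal.ofReal (C * (e / lam) ^ (1 / ((k + 1 : ℕ):ℝ))) := by
  obtain ⟨K, hK, hsub⟩ := PPH.b1a_pos k
  set T : ℝ := δ / 4 with hT
  have hT0 : 0 < T := by positivity
  set σ : ℝ := (sm n).real univ with hσ
  have hσ0 : 0 ≤ σ := measureReal_nonneg
  refine ⟨K * σ / T, by positivity, ?_⟩
  intro a lam e hlam he h
  have hcc : Continuous fun x : S n => cmb f q 0 a x :=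
    (continuous_cmb hf q 0).comp (continuous_const.prodMk continuous_id)
  set G : Set (S n) := {x : S n | dist (x : E n) x0 < δ / 2 ∧ |cmb f q 0 a x| ≤ e} with hG
  have hGm : MeasurableSet G := by
    refine MeasurableSet.inter ?_ ?_
    · exact (isOpen_lt (continuous_subtype_val.dist continuous_const) continuous_const).measurableSet
    · exact (isClosed_le hcc.abs continuous_const).measurableSet
  set B : ℝ := K * (e / lam) ^ (1 / ((k + 1 : ℕ):ℝ)) with hB
  have hB0 : 0 ≤ B := by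
    have := Real.rpow_nonneg (div_pos he hlam).le (1 / ((k + 1 : ℕ):ℝ))
    positivity
  have hinner : ∀ x : S n, ∫⁻ t in Icc 0 T, G.indicator (fun _ => (1:ℝ≥0∞)) (rotS hq t x) ≤
      ENNReal.ofReal B := by
    intro x
    have hcr : Continuous fun t => rotS hq t x :=
      (continuous_rotS hq).comp (continuous_id.prodMk continuous_const)
    have hpre : MeasurableSet ((fun t => rotS hq t x) ⁻¹' G) := hcr.measurable hGm
    have e1 : ∫⁻ t in Icc 0 T, G.indicator (fun _ => (1:ℝ≥0∞)) (rotS hq t x) =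
        volume (((fun t => rotS hq t x) ⁻¹' G) ∩ Icc 0 T) := by
      have : (fun t => G.indicator (fun _ => (1:ℝ≥0∞)) (rotS hq t x)) =
          ((fun t => rotS hq t x) ⁻¹' G).indicator (fun _ => (1:ℝ≥0∞)) := by
        funext t
        rfl
      rw [this, lintegral_indicator hpre, setLIntegral_one, Measure.restrict_apply hpre]
    rw [e1]
    by_cases hex : ∃ t0 ∈ Icc 0 T, rotS hq t0 x ∈ G
    · obtain ⟨t0, ht0, hmem⟩ := hex
      have hclose : ∀ t ∈ Icc 0 T, dist (rot q t x) x0 < δ := by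
        intro t ht
        have h3 := dist_rot_le hq x.2 t t0
        have h4 : dist (rot q t0 x) x0 < δ / 2 := hmem.1
        have h5 : |t - t0| ≤ T := by
          rw [abs_le]
          constructor
          · linarith [ht.1, ht0.2]
          · linarith [ht.2, ht0.1]
        calc dist (rot q t x) x0 ≤ dist (rot q t x) (rot q t0 x) + dist (rot q t0 x) x0 :=
              dist_triangle _ _ _
          _ < 2 * |t - t0| + δ / 2 := by linarith
          _ ≤ δ := by rw [hT] at h5; linarith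
      have h6 := hsub (Icc 0 T) ordConnected_Icc (fun j t => cmb f q j a (rot q t x))
        (fun j _ t _ => hasDerivAt_cmb hf hq a x.2 j t) e lam he hlam
        (fun t ht => h _ (rot_mem hq t x.2) (hclose t ht))
      refine (measure_mono ?_).trans h6
      rintro t ⟨ht, ht'⟩
      exact ⟨ht', ht.2⟩
    · push Not at hex
      have : ((fun t => rotS hq t x) ⁻¹' G) ∩ Icc 0 T = ∅ := by
        ext t
        simp only [mem_inter_iff, mem_preimage, mem_empty_iff_false, iff_false, not_and]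
        intro h1 h2
        exact hex t h2 h1
      rw [this, measure_empty]
      exact zero_le
  have havg := lintegral_avg hq T (G.indicator fun _ => (1:ℝ≥0∞)) (measurable_const.indicator hGm)
  rw [lintegral_indicator hGm, setLIntegral_one] at havg
  have h1 : ENNReal.ofReal T * sm n G ≤ ENNReal.ofReal B * sm n univ := by
    rw [havg]
    refine (lintegral_mono hinner).trans ?_
    rw [lintegral_const]
  have h2 : T * (sm n).real G ≤ B * σ := by
    have h3 := ENNReal.toReal_mono (ENNReal.mul_ne_top ENNReal.ofReal_ne_top (measure_ne_top _ _)) h1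
    rw [ENNReal.toReal_mul, ENNReal.toReal_mul, ENNReal.toReal_ofReal hT0.le,
      ENNReal.toReal_ofReal hB0] at h3
    exact h3
  rw [← ofReal_measureReal]
  apply ENNReal.ofReal_le_ofReal
  have h3 : (sm n).real G ≤ B * σ / T := by
    rw [le_div_iff₀ hT0]
    linarith
  refine h3.trans (le_of_eq ?_)
  rw [hB]
  ring

/-- linearity of the iterated derivatives, near the sphere -/
lemma iter_sum_ev {f : ι → E n → ℝ} (hf : ∀ i, Sm (f i)) (q : E n × E n) (a : ι → ℝ) (k : ℕ)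
    {x : E n} (hx : x ∈ S n) :
    (dR q)^[k] (fun y => ∑ i, a i * f i y) =ᶠ[𝓝 x] fun y => ∑ i, a i * (dR q)^[k] (f i) y := by
  induction k with
  | zero => exact EventuallyEq.rfl
  | succ k ih =>
    have h1 := ih.fderiv (𝕜 := ℝ)
    have h2 : ∀ᶠ y in 𝓝 x, ∀ i, ContDiffAt ℝ 1 ((dR q)^[k] (f i)) y := by
      rw [eventually_all]
      intro i
      exact (((hf i).iter q k x hx).of_le (by simp)).eventually (by simp)
    filter_upwards [h1, h2] with y hy1 hy2
    rw [Function.iterate_succ_apply']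
    show fderiv ℝ ((dR q)^[k] (fun y => ∑ i, a i * f i y)) y (gen q y) = _
    rw [hy1]
    have h3 : fderiv ℝ (fun y => ∑ i, a i * (dR q)^[k] (f i) y) y =
        ∑ i, a i • fderiv ℝ ((dR q)^[k] (f i)) y := by
      have h4 : HasFDerivAt (fun y => ∑ i, a i * (dR q)^[k] (f i) y)
          (∑ i, a i • fderiv ℝ ((dR q)^[k] (f i)) y) y := by
        refine HasFDerivAt.fun_sum fun i _ => ?_
        exact ((hy2 i).differentiableAt (by simp)).hasFDerivAt.const_mul (a i)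
      exact h4.fderiv
    have h5 := congrArg (fun L : E n →L[ℝ] ℝ => L (gen q y)) h3
    simp only [sum_apply, smul_apply, smul_eq_mul] at h5
    refine h5.trans ?_
    refine Finset.sum_congr rfl fun i _ => ?_
    rw [Function.iterate_succ_apply']
    rfl

lemma iter_sum {f : ι → E n → ℝ} (hf : ∀ i, Sm (f i)) (q : E n × E n) (a : ι → ℝ) (k : ℕ)
    {x : E n} (hx : x ∈ S n) :
    (dR q)^[k] (fun y => ∑ i, a i * f i y) x = cmb f q k a x :=
  (iter_sum_ev hf q a k hx).self_of_nhds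

/-- the decay, with a small perturbation -/
theorem decay_core_nf {f : ι → E n → ℝ} (hsm : ∀ i, Sm (f i))
    (hnf : ∀ a : ι → ℝ, ‖a‖ = 1 → ∀ x ∈ S n, ∃ q, ON q ∧ ∃ j ∈ {j : ℕ | 1 ≤ j}, cmb f q j a x ≠ 0) :
    ∃ (m : ℕ) (Q : Finset ((E n × E n) × ℕ)) (ε C : ℝ), 1 ≤ m ∧ 0 < ε ∧ 0 ≤ C ∧
      (∀ p ∈ Q, ON p.1) ∧
      ∀ (a : ι → ℝ) (g : E n → ℝ), Sm g →
        (∀ p ∈ Q, ∀ y ∈ S n, |(dR p.1)^[p.2] g y| ≤ ε * ‖a‖) →
        (∀ p ∈ Q, ∀ y ∈ S n, |(dR p.1)^[2] g y| ≤ ‖a‖) →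
        ‖∫ x : S n, Complex.exp (((∑ i, a i * f i x + g x : ℝ) : ℂ) * Complex.I) ∂(sm n)‖ ≤
          C * (1 + ‖a‖) ^ (-(1 / (m : ℝ))) := by
  classical
  obtain ⟨Q, c, δ, hQ, hc, hδ, hcomp⟩ := compactness hsm {j | 1 ≤ j} hnf
  obtain ⟨NN, x, χ, hx, hχ, hsupp, hsum⟩ := partition (half_pos hδ)
  -- the constants of the patches
  have hpatch : ∀ (i : Fin NN) (p : Q), ∃ C : ℝ, 0 ≤ C ∧ ∀ (H : ℕ → E n → ℝ) (lam K2 : ℝ),
      Chain p.1.1 H → ContinuousOn (H 0) (S n) →
      0 < lam → 0 ≤ K2 → (∀ y ∈ S n, dist y (x i) < δ → lam ≤ |H p.1.2 y|) →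
      (∀ y ∈ S n, |H 2 y| ≤ K2 * lam) →
      ‖∫ z : S n, (χ i z : ℂ) * Complex.exp (H 0 z * Complex.I) ∂(sm n)‖ ≤
        C * (1 + K2) * lam ^ (-(1 / (p.1.2:ℝ))) := fun i p =>
    patch (hQ p.1 p.2).1 (hQ p.1 p.2).2 (x i) hδ (hχ i) (hsupp i)
  choose CP hCP hCP' using hpatch
  have hM : ∀ p : Q, ∃ M : ℝ, 0 ≤ M ∧ ∀ (a : ι → ℝ), ∀ x ∈ S n, |cmb f p.1.1 2 a x| ≤ M * ‖a‖ :=
    fun p => cmb_le hsm p.1.1 2
  choose M hM hM' using hM
  set MM : ℝ := ∑ p, M p with hMM
  have hMM0 : 0 ≤ MM := Finset.sum_nonneg fun p _ => hM p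
  set K2 : ℝ := (MM + 1) / (c / 2) with hK2
  have hK20 : 0 ≤ K2 := by positivity
  set m : ℕ := Q.sup (fun p => p.2) + 1 with hm
  have hpm : ∀ p : Q, p.1.2 ≤ m := fun p =>
    (Finset.le_sup (f := fun p : (E n × E n) × ℕ => p.2) p.2).trans (Nat.le_succ _)
  set σ : ℝ := (sm n).real univ with hσ
  have hσ0 : 0 ≤ σ := measureReal_nonneg
  set C1 : ℝ := ∑ i : Fin NN, ∑ p : Q, CP i p * (1 + K2) * (c / 2) ^ (-(1 / (p.1.2:ℝ))) with hC1
  have hterm : ∀ (i : Fin NN) (p : Q), 0 ≤ CP i p * (1 + K2) * (c / 2) ^ (-(1 / (p.1.2:ℝ))) := by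
    intro i p
    have h1 := hCP i p
    have h2 : 0 ≤ (c / 2) ^ (-(1 / (p.1.2:ℝ))) := Real.rpow_nonneg (by positivity) _
    positivity
  have hC10 : 0 ≤ C1 := Finset.sum_nonneg fun i _ => Finset.sum_nonneg fun p _ => hterm i p
  have hm1 : (1:ℝ) ≤ m := by
    rw [hm]
    push_cast
    have : (0:ℝ) ≤ ((Q.sup (fun p => p.2) : ℕ) : ℝ) := Nat.cast_nonneg _
    linarith
  refine ⟨m, Q, c / 2, 2 * (σ + C1), by omega, by positivity, by positivity,
    fun p hp => (hQ p hp).1, ?_⟩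
  intro a g hg hg1 hg2
  have hwc : ContinuousOn (fun y => ∑ i, a i * f i y + g y) (S n) := by
    refine ContinuousOn.add ?_ hg.continuousOn
    exact continuousOn_finsetSum _ fun i _ => continuousOn_const.mul (hsm i).continuousOn
  have hwc' := measurable_of_contOn hwc
  have htriv : ‖∫ x : S n, Complex.exp (((∑ i, a i * f i x + g x : ℝ) : ℂ) * Complex.I) ∂(sm n)‖ ≤
      σ := by
    refine (norm_integral_le_of_norm_le_const (C := 1) (Eventually.of_forall fun x => ?_)).trans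
      (le_of_eq (one_mul _))
    rw [Complex.norm_exp_ofReal_mul_I]
  have hna := norm_nonneg a
  have hmpos : (0:ℝ) < 1 / (m:ℝ) := by positivity
  have hm1' : 1 / (m:ℝ) ≤ 1 := by
    rw [div_le_one (by linarith)]
    exact hm1
  rcases le_or_gt ‖a‖ 1 with ha | ha
  · refine htriv.trans ?_
    have h1 : (1 / 2 : ℝ) ≤ (1 + ‖a‖) ^ (-(1 / (m : ℝ))) := by
      have h2 : (2:ℝ) ^ (-(1:ℝ)) ≤ (2:ℝ) ^ (-(1 / (m : ℝ))) :=
        Real.rpow_le_rpow_of_exponent_le (by norm_num) (by linarith)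
      have h3 : (2:ℝ) ^ (-(1 / (m : ℝ))) ≤ (1 + ‖a‖) ^ (-(1 / (m : ℝ))) :=
        Real.rpow_le_rpow_of_nonpos (by positivity) (by linarith) (by linarith)
      rw [Real.rpow_neg_one] at h2
      linarith
    nlinarith
  · -- the main case
    have ha0 : a ≠ 0 := by
      rintro rfl
      rw [norm_zero] at ha
      linarith
    set lam : ℝ := c / 2 * ‖a‖ with hlam
    have hlam0 : 0 < lam := by positivity
    have hpt : ∀ i : Fin NN, ‖∫ z : S n, (χ i z : ℂ) *
        Complex.exp (((∑ i, a i * f i z + g z : ℝ) : ℂ) * Complex.I) ∂(sm n)‖ ≤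
        (∑ p : Q, CP i p * (1 + K2) * (c / 2) ^ (-(1 / (p.1.2:ℝ)))) *
          ‖a‖ ^ (-(1 / (m : ℝ))) := by
      intro i
      obtain ⟨p, hp, hp'⟩ := hcomp a (x i) (hx i) ha0
      set P : Q := ⟨p, hp⟩ with hP
      have hchain : Chain p.1 (fun j y => cmb f p.1 j a y + (dR p.1)^[j] g y) := by
        intro y hy j t
        exact (hasDerivAt_cmb hsm (hQ p hp).1 a hy j t).add (hg.hasDerivAt (hQ p hp).1 hy j t)
      have h1 := hCP' i P (fun j y => cmb f p.1 j a y + (dR p.1)^[j] g y) lam K2 hchain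
        (by exact hwc) hlam0 hK20
        (fun y hy hyx => by
          have h2 := hp' y hy hyx
          have h3 := hg1 p hp y hy
          have h4 : |cmb f p.1 p.2 a y| ≤ |cmb f p.1 p.2 a y + (dR p.1)^[p.2] g y| +
              |(dR p.1)^[p.2] g y| := by
            have := abs_sub (cmb f p.1 p.2 a y + (dR p.1)^[p.2] g y) ((dR p.1)^[p.2] g y)
            rwa [add_sub_cancel_right] at this
          have h5 : c * ‖a‖ = lam + c / 2 * ‖a‖ := by rw [hlam]; ring
          show lam ≤ |cmb f p.1 p.2 a y + (dR p.1)^[p.2] g y|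
          linarith)
        (fun y hy => by
          have h2 := hM' P a y hy
          have h3 := hg2 p hp y hy
          have h4 : M P ≤ MM := Finset.single_le_sum (f := M) (fun p _ => hM p) (Finset.mem_univ P)
          have h5 : K2 * lam = (MM + 1) * ‖a‖ := by
            rw [hK2, hlam]
            field_simp
          rw [h5]
          refine (abs_add_le _ _).trans ?_
          have h6 : M P * ‖a‖ ≤ MM * ‖a‖ := mul_le_mul_of_nonneg_right h4 hna
          have h7 : |cmb f p.1 2 a y| ≤ M P * ‖a‖ := h2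
          linarith)
      refine (le_of_eq ?_).trans (h1.trans ?_)
      · rfl
      · have h2 : lam ^ (-(1 / (p.2 : ℝ))) ≤ (c / 2) ^ (-(1 / (p.2:ℝ))) * ‖a‖ ^ (-(1 / (m : ℝ))) := by
          rw [hlam, Real.mul_rpow (by positivity) hna]
          apply mul_le_mul_of_nonneg_left _ (Real.rpow_nonneg (by positivity) _)
          apply Real.rpow_le_rpow_of_exponent_le ha.le
          have h3 : (1:ℝ) ≤ p.2 := by exact_mod_cast (hQ p hp).2
          have h4 : (p.2 : ℝ) ≤ m := by exact_mod_cast hpm P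
          have h5 : 1 / (m:ℝ) ≤ 1 / (p.2 : ℝ) := one_div_le_one_div_of_le (by linarith) h4
          linarith
        calc CP i P * (1 + K2) * lam ^ (-(1 / ((P.1.2 : ℕ) : ℝ)))
            ≤ CP i P * (1 + K2) * ((c / 2) ^ (-(1 / (p.2:ℝ))) * ‖a‖ ^ (-(1 / (m : ℝ)))) := by
              apply mul_le_mul_of_nonneg_left h2
              have := hCP i P
              positivity
          _ = (CP i P * (1 + K2) * (c / 2) ^ (-(1 / ((P.1.2 : ℕ):ℝ)))) * ‖a‖ ^ (-(1 / (m : ℝ))) := by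
              ring
          _ ≤ _ := by
              apply mul_le_mul_of_nonneg_right _ (Real.rpow_nonneg hna _)
              exact Finset.single_le_sum (f := fun p : Q =>
                CP i p * (1 + K2) * (c / 2) ^ (-(1 / (p.1.2:ℝ)))) (fun p _ => hterm i p)
                (Finset.mem_univ P)
    have hsplit : ∫ z : S n, Complex.exp (((∑ i, a i * f i z + g z : ℝ) : ℂ) * Complex.I) ∂(sm n) =
        ∑ i : Fin NN, ∫ z : S n, (χ i z : ℂ) *
          Complex.exp (((∑ i, a i * f i z + g z : ℝ) : ℂ) * Complex.I) ∂(sm n) := by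
      rw [← integral_finsetSum]
      · refine integral_congr_ae (Eventually.of_forall fun z => ?_)
        simp only
        rw [← Finset.sum_mul, ← Complex.ofReal_sum, hsum z z.2, Complex.ofReal_one, one_mul]
      · intro i _
        obtain ⟨B, hB, hB'⟩ := bdd_on (hχ i).continuousOn
        have h3 := measurable_of_contOn (hχ i).continuousOn
        refine Integrable.of_bound (Continuous.aestronglyMeasurable ?_) B
          (Eventually.of_forall fun z => ?_)
        · exact (Complex.continuous_ofReal.comp h3).mul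
            (Complex.continuous_exp.comp ((Complex.continuous_ofReal.comp hwc').mul
              continuous_const))
        · rw [norm_mul, Complex.norm_exp_ofReal_mul_I, mul_one, Complex.norm_real]
          exact hB' z z.2
    rw [hsplit]
    have h8 : ‖∑ i : Fin NN, ∫ z : S n, (χ i z : ℂ) *
          Complex.exp (((∑ i, a i * f i z + g z : ℝ) : ℂ) * Complex.I) ∂(sm n)‖ ≤
        C1 * ‖a‖ ^ (-(1 / (m : ℝ))) := by
      refine (norm_sum_le _ _).trans ?_
      rw [hC1, Finset.sum_mul]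
      exact Finset.sum_le_sum fun i _ => hpt i
    refine h8.trans ?_
    have h9 : ‖a‖ ^ (-(1 / (m : ℝ))) ≤ 2 * (1 + ‖a‖) ^ (-(1 / (m : ℝ))) := by
      have h10 : ((1 + ‖a‖) / 2) ^ (1 / (m:ℝ)) ≤ ‖a‖ ^ (1 / (m:ℝ)) :=
        Real.rpow_le_rpow (by positivity) (by linarith) hmpos.le
      have h11 : (1 + ‖a‖) ^ (1 / (m:ℝ)) ≤ 2 * ((1 + ‖a‖) / 2) ^ (1 / (m:ℝ)) := by
        have h12 : (1 + ‖a‖) = 2 * ((1 + ‖a‖) / 2) := by ring
        have h13 : (1 + ‖a‖) ^ (1 / (m:ℝ)) = 2 ^ (1 / (m:ℝ)) * ((1 + ‖a‖) / 2) ^ (1 / (m:ℝ)) := by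
          rw [← Real.mul_rpow (by norm_num) (by positivity), ← h12]
        rw [h13]
        apply mul_le_mul_of_nonneg_right _ (Real.rpow_nonneg (by positivity) _)
        calc (2:ℝ) ^ (1 / (m:ℝ)) ≤ 2 ^ (1:ℝ) :=
              Real.rpow_le_rpow_of_exponent_le (by norm_num) hm1'
          _ = 2 := Real.rpow_one 2
      have h14 : 0 < (1 + ‖a‖) ^ (1 / (m:ℝ)) := Real.rpow_pos_of_pos (by positivity) _
      have h15 : 0 < ‖a‖ ^ (1 / (m:ℝ)) := Real.rpow_pos_of_pos (by linarith) _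
      rw [Real.rpow_neg hna, Real.rpow_neg (by positivity), ← one_div, ← one_div,
        mul_one_div, div_le_div_iff₀ h15 h14]
      linarith
    have h16 : 0 ≤ (1 + ‖a‖) ^ (-(1 / (m : ℝ))) := Real.rpow_nonneg (by positivity) _
    calc C1 * ‖a‖ ^ (-(1 / (m : ℝ))) ≤ C1 * (2 * (1 + ‖a‖) ^ (-(1 / (m : ℝ)))) :=
          mul_le_mul_of_nonneg_left h9 hC10
      _ ≤ 2 * (σ + C1) * (1 + ‖a‖) ^ (-(1 / (m : ℝ))) := by nlinarith

/-- the decay -/
theorem decay_nf {f : ι → E n → ℝ} (hsm : ∀ i, Sm (f i))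
    (hnf : ∀ a : ι → ℝ, ‖a‖ = 1 → ∀ x ∈ S n, ∃ q, ON q ∧ ∃ j ∈ {j : ℕ | 1 ≤ j}, cmb f q j a x ≠ 0) :
    ∃ (m : ℕ) (C : ℝ), 1 ≤ m ∧ 0 ≤ C ∧ ∀ a : ι → ℝ,
      ‖∫ x : S n, Complex.exp (((∑ i, a i * f i x : ℝ) : ℂ) * Complex.I) ∂(sm n)‖ ≤
        C * (1 + ‖a‖) ^ (-(1 / (m : ℝ))) := by
  obtain ⟨m, Q, ε, C, hm, hε, hC, _, h⟩ := decay_core_nf hsm hnf
  refine ⟨m, C, hm, hC, fun a => ?_⟩
  have h1 := h a (fun _ => 0) (fun x _ => contDiffAt_const)
    (fun p _ y _ => by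
      rw [iter_zero, abs_zero]
      positivity)
    (fun p _ y _ => by
      rw [iter_zero, abs_zero]
      positivity)
  simpa using h1

/-- sublevel sets, positive levels -/
theorem sublevel_pos_nf {f : ι → E n → ℝ} (hsm : ∀ i, Sm (f i))
    (hnf : ∀ a : ι → ℝ, ‖a‖ = 1 → ∀ x ∈ S n, ∃ q, ON q ∧ ∃ j ∈ (univ : Set ℕ), cmb f q j a x ≠ 0) :
    ∃ K κ : ℝ, 0 ≤ K ∧ 0 < κ ∧ ∀ a : ι → ℝ, ‖a‖ = 1 → ∀ e : ℝ, 0 < e →
      sm n {x : S n | |∑ i, a i * f i x| ≤ e} ≤ ENNReal.ofReal (K * e ^ κ) := by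
  classical
  obtain ⟨Q, c, δ, hQ, hc, hδ, hcomp⟩ := compactness hsm univ hnf
  obtain ⟨NN, x, χ, hx, _, hsupp, hsum⟩ := partition (half_pos hδ)
  have hpatch : ∀ (i : Fin NN) (p : Q), ∃ C : ℝ, 0 ≤ C ∧ ∀ (a : ι → ℝ) (lam e : ℝ), 0 < lam →
      0 < e → ∀ k, p.1.2 = k + 1 → (∀ y ∈ S n, dist y (x i) < δ → lam ≤ |cmb f p.1.1 (k + 1) a y|) →
      (sm n) {z : S n | dist (z : E n) (x i) < δ / 2 ∧ |cmb f p.1.1 0 a z| ≤ e} ≤
        ENNReal.ofReal (C * (e / lam) ^ (1 / ((k + 1 : ℕ):ℝ))) := by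
    intro i p
    obtain ⟨C, hC, h⟩ := sub_patch hsm (hQ p.1 p.2).1 (p.1.2 - 1) (x i) hδ
    refine ⟨C, hC, fun a lam e hl he k hk => ?_⟩
    have h1 := h a lam e hl he
    have h2 : p.1.2 - 1 = k := by omega
    rw [h2] at h1
    exact h1
  choose CP hCP hCP' using hpatch
  set m : ℕ := Q.sup (fun p => p.2) + 1 with hm
  have hpm : ∀ p : Q, p.1.2 ≤ m := fun p =>
    (Finset.le_sup (f := fun p : (E n × E n) × ℕ => p.2) p.2).trans (Nat.le_succ _)
  set σ : ℝ := (sm n).real univ with hσ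
  have hσ0 : 0 ≤ σ := measureReal_nonneg
  have hm1 : (1:ℝ) ≤ m := by
    rw [hm]
    push_cast
    have : (0:ℝ) ≤ ((Q.sup (fun p => p.2) : ℕ) : ℝ) := Nat.cast_nonneg _
    linarith
  have hm0 : (0:ℝ) < m := by linarith
  set κ : ℝ := 1 / (m:ℝ) with hκ
  have hκ0 : 0 < κ := by positivity
  have hκ1 : κ ≤ 1 := by
    rw [hκ, div_le_one hm0]
    exact hm1
  set c1 : ℝ := min c 1 with hc1
  have hc10 : 0 < c1 := lt_min hc one_pos
  have hterm : ∀ (i : Fin NN) (p : Q), 0 ≤ CP i p * (1 / c1) := by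
    intro i p
    have h1 := hCP i p
    positivity
  set C1 : ℝ := ∑ i : Fin NN, ∑ p : Q, CP i p * (1 / c1) with hC1
  have hC10 : 0 ≤ C1 := Finset.sum_nonneg fun i _ => Finset.sum_nonneg fun p _ => hterm i p
  refine ⟨σ / c1 + C1, κ, by positivity, hκ0, ?_⟩
  intro a ha e he
  have ha0 : a ≠ 0 := by
    rintro rfl
    rw [norm_zero] at ha
    exact zero_ne_one ha
  have heκ : 0 < e ^ κ := Real.rpow_pos_of_pos he _
  rcases le_or_gt c1 e with hce | hce
  · have h1 : sm n {x : S n | |∑ i, a i * f i x| ≤ e} ≤ ENNReal.ofReal σ := by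
      rw [hσ, ofReal_measureReal]
      exact measure_mono (subset_univ _)
    refine h1.trans (ENNReal.ofReal_le_ofReal ?_)
    have h2 : c1 ≤ e ^ κ := by
      have h3 : c1 ≤ c1 ^ κ := by
        have h4 := Real.rpow_le_rpow_of_exponent_ge hc10 (min_le_right _ _) hκ1
        rwa [Real.rpow_one] at h4
      exact h3.trans (Real.rpow_le_rpow hc10.le hce hκ0.le)
    have h3 : σ ≤ σ / c1 * e ^ κ := by
      rw [div_mul_eq_mul_div, le_div_iff₀ hc10]
      exact mul_le_mul_of_nonneg_left h2 hσ0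
    have h4 : 0 ≤ C1 * e ^ κ := by positivity
    linarith [add_mul (σ / c1) C1 (e ^ κ)]
  · have he1 : e ≤ 1 := (hce.trans_le (min_le_right _ _)).le
    have hec : e < c := hce.trans_le (min_le_left _ _)
    have hpt : ∀ i : Fin NN, sm n {z : S n | dist (z : E n) (x i) < δ / 2 ∧
        |∑ j, a j * f j z| ≤ e} ≤ ENNReal.ofReal ((∑ p : Q, CP i p * (1 / c1)) * e ^ κ) := by
      intro i
      obtain ⟨p, hp, hp'⟩ := hcomp a (x i) (hx i) ha0
      rw [ha, mul_one] at hp'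
      rcases Nat.eq_zero_or_pos p.2 with h0 | h0
      · have h1 : {z : S n | dist (z : E n) (x i) < δ / 2 ∧ |∑ j, a j * f j z| ≤ e} = ∅ := by
          ext z
          simp only [mem_ofPred_eq, mem_empty_iff_false, iff_false, not_and, not_le]
          intro hz
          have h2 := hp' z z.2 (by linarith)
          rw [h0] at h2
          exact hec.trans_le h2
        rw [h1, measure_empty]
        exact zero_le
      · obtain ⟨k, hk⟩ : ∃ k, p.2 = k + 1 := ⟨p.2 - 1, by omega⟩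
        have h1 := hCP' i ⟨p, hp⟩ a c e hc he k hk (by
          intro y hy hyx
          have h2 := hp' y hy hyx
          rw [hk] at h2
          exact h2)
        refine h1.trans (ENNReal.ofReal_le_ofReal ?_)
        have hk1 : (1:ℝ) ≤ ((k + 1 : ℕ):ℝ) := by
          push_cast
          have : (0:ℝ) ≤ k := Nat.cast_nonneg k
          linarith
        have hkm : ((k + 1 : ℕ):ℝ) ≤ m := by
          have := hpm ⟨p, hp⟩
          rw [← hk]
          exact_mod_cast this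
        have hexp : (0:ℝ) < 1 / ((k + 1 : ℕ):ℝ) := by positivity
        have hexp1 : 1 / ((k + 1 : ℕ):ℝ) ≤ 1 := by
          rw [div_le_one (by linarith)]
          exact hk1
        have h2 : (e / c) ^ (1 / ((k + 1 : ℕ):ℝ)) ≤ 1 / c1 * e ^ κ := by
          have h3 : (e / c) ≤ (1 / c1) * e := by
            rw [div_eq_mul_one_div, mul_comm]
            apply mul_le_mul_of_nonneg_right _ he.le
            exact one_div_le_one_div_of_le hc10 (min_le_left _ _)
          have h4 : (e / c) ^ (1 / ((k + 1 : ℕ):ℝ)) ≤ ((1 / c1) * e) ^ (1 / ((k + 1 : ℕ):ℝ)) :=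
            Real.rpow_le_rpow (by positivity) h3 hexp.le
          rw [Real.mul_rpow (by positivity) he.le] at h4
          refine h4.trans ?_
          have h5 : (1 / c1) ^ (1 / ((k + 1 : ℕ):ℝ)) ≤ 1 / c1 := by
            have h6 : (1:ℝ) ≤ 1 / c1 := by
              rw [le_div_iff₀ hc10, one_mul]
              exact min_le_right _ _
            have h7 := Real.rpow_le_rpow_of_exponent_le h6 hexp1
            rwa [Real.rpow_one] at h7
          have h6 : e ^ (1 / ((k + 1 : ℕ):ℝ)) ≤ e ^ κ := by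
            apply Real.rpow_le_rpow_of_exponent_ge he he1
            rw [hκ]
            exact one_div_le_one_div_of_le (by linarith) hkm
          exact mul_le_mul h5 h6 (Real.rpow_nonneg he.le _) (by positivity)
        calc CP i ⟨p, hp⟩ * (e / c) ^ (1 / ((k + 1 : ℕ):ℝ)) ≤ CP i ⟨p, hp⟩ * (1 / c1 * e ^ κ) :=
              mul_le_mul_of_nonneg_left h2 (hCP _ _)
          _ = (CP i ⟨p, hp⟩ * (1 / c1)) * e ^ κ := by ring
          _ ≤ _ := by
              apply mul_le_mul_of_nonneg_right _ heκ.le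
              exact Finset.single_le_sum (f := fun p : Q => CP i p * (1 / c1))
                (fun p _ => hterm i p) (Finset.mem_univ _)
    have hcov : {z : S n | |∑ j, a j * f j z| ≤ e} ⊆
        ⋃ i : Fin NN, {z : S n | dist (z : E n) (x i) < δ / 2 ∧ |∑ j, a j * f j z| ≤ e} := by
      intro z hz
      have h1 := hsum z z.2
      obtain ⟨i, _, hi⟩ := Finset.exists_ne_zero_of_sum_ne_zero (by rw [h1]; exact one_ne_zero)
      rw [mem_iUnion]
      exact ⟨i, hsupp i z hi, hz⟩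
    calc sm n {z : S n | |∑ j, a j * f j z| ≤ e}
        ≤ ∑ i : Fin NN, sm n {z : S n | dist (z : E n) (x i) < δ / 2 ∧ |∑ j, a j * f j z| ≤ e} :=
          (measure_mono hcov).trans (measure_iUnion_fintype_le _ _)
      _ ≤ ∑ i : Fin NN, ENNReal.ofReal ((∑ p : Q, CP i p * (1 / c1)) * e ^ κ) :=
          Finset.sum_le_sum fun i _ => hpt i
      _ = ENNReal.ofReal (C1 * e ^ κ) := by
          rw [← ENNReal.ofReal_sum_of_nonneg, hC1, Finset.sum_mul]
          intro i _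
          have := Finset.sum_nonneg fun (p : Q) (_ : p ∈ Finset.univ) => hterm i p
          positivity
      _ ≤ ENNReal.ofReal ((σ / c1 + C1) * e ^ κ) := by
          apply ENNReal.ofReal_le_ofReal
          apply mul_le_mul_of_nonneg_right _ heκ.le
          have : 0 ≤ σ / c1 := by positivity
          linarith

/-- the decay of the Fourier transform for smooth nonflat families -/
theorem decay_extn_nf {d : ℕ} (φ : Fin d → E n → ℝ)
    (hs : ∀ j, ∀ x ∈ Metric.sphere (0 : E n) 1, ContDiffAt ℝ ((⊤ : ℕ∞) : WithTop ℕ∞) (φ j) x)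
    (hnf : ∀ (a : Fin d → ℝ) (ζ : E n), (a ≠ 0 ∨ ζ ≠ 0) → ∀ x : E n, ‖x‖ = 1 →
      ∃ q, ON q ∧ ∃ k, 1 ≤ k ∧ (dR q)^[k] (fun y => fam φ a y + inner ℝ y ζ) x ≠ 0) :
    ∃ K κ : ℝ, 0 ≤ K ∧ 0 < κ ∧ ∀ (c : Fin d → ℝ) (ξ : E n),
      ‖extn (fun x => Complex.exp (((fam φ c x : ℝ) : ℂ) * Complex.I)) ξ‖ ≤
        K * ((1 + ‖c‖) + ‖ξ‖) ^ (-κ) := by
  let f : Fin d ⊕ Fin n → E n → ℝ := Sum.elim φ (fun i x => x i)
  have hf : ∀ i, Sm (f i) := by
    rintro (j | i)
    · exact hs j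
    · intro x _
      exact (EuclideanSpace.proj i : E n →L[ℝ] ℝ).contDiff.contDiffAt
  have hin : ∀ (x ζ : E n), inner ℝ x ζ = ∑ i, ζ i * x i := by
    intro x ζ
    rw [PiLp.inner_apply]
    refine Finset.sum_congr rfl fun i _ => ?_
    simp
  have hnf' : ∀ a : Fin d ⊕ Fin n → ℝ, ‖a‖ = 1 → ∀ x ∈ S n, ∃ q, ON q ∧
      ∃ j ∈ {j : ℕ | 1 ≤ j}, cmb f q j a x ≠ 0 := by
    intro a ha x hx
    have h1 : (fun j => a (Sum.inl j)) ≠ 0 ∨
        (WithLp.toLp 2 fun i => a (Sum.inr i) : E n) ≠ 0 := by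
      by_contra hcon
      push Not at hcon
      have h2 : a = 0 := by
        funext i
        rcases i with j | i
        · exact congrFun hcon.1 j
        · have := congrArg (fun z : E n => z i) hcon.2
          simpa using this
      rw [h2, norm_zero] at ha
      exact zero_ne_one ha
    obtain ⟨q, hq, k, hk, hne⟩ := hnf _ _ h1 x (by simpa using hx)
    refine ⟨q, hq, k, hk, ?_⟩
    rw [← iter_sum hf q a k hx]
    have h2 : (fun y => ∑ i, a i * f i y) = fun y => fam φ (fun j => a (Sum.inl j)) y +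
        inner ℝ y (WithLp.toLp 2 fun i => a (Sum.inr i) : E n) := by
      funext y
      rw [Fintype.sum_sum_type, hin]
      rfl
    rw [h2]
    exact hne
  obtain ⟨m, C, hm, hC, h⟩ := decay_nf hf hnf'
  have hm' : (0:ℝ) < m := by exact_mod_cast hm
  have hm1 : (1:ℝ) ≤ m := by exact_mod_cast hm
  refine ⟨((n:ℝ) + 1) * C, 1 / (m:ℝ), by positivity, by positivity, fun c ξ => ?_⟩
  set a : Fin d ⊕ Fin n → ℝ := Sum.elim c (fun i => -(2 * π * ξ i)) with hadef
  have h1 := h a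
  have h2 : extn (fun x => Complex.exp (((fam φ c x : ℝ) : ℂ) * Complex.I)) ξ =
      ∫ x : S n, Complex.exp (((∑ i, a i * f i x : ℝ) : ℂ) * Complex.I) ∂(sm n) := by
    unfold extn
    refine integral_congr_ae (Eventually.of_forall fun x => ?_)
    simp only
    rw [← Complex.exp_add, ← add_mul, ← Complex.ofReal_add]
    congr 3
    rw [Fintype.sum_sum_type, hin]
    simp only [hadef, f, Sum.elim_inl, Sum.elim_inr, fam]
    rw [Finset.mul_sum, ← Finset.sum_neg_distrib]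
    congr 1
    refine Finset.sum_congr rfl fun i _ => ?_
    ring
  rw [h2]
  refine h1.trans ?_
  have hna := norm_nonneg a
  have hnc := norm_nonneg c
  have hnx := norm_nonneg ξ
  have h3 : ‖c‖ ≤ ‖a‖ := by
    rw [pi_norm_le_iff_of_nonneg hna]
    intro j
    exact norm_le_pi_norm a (Sum.inl j)
  have h4 : ‖ξ‖ ≤ n * ‖a‖ := by
    have h5 : ∀ i, |ξ i| ≤ ‖a‖ := by
      intro i
      have h6 := norm_le_pi_norm a (Sum.inr i)
      have h7 : ‖a (Sum.inr i)‖ = 2 * π * |ξ i| := by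
        rw [hadef, Sum.elim_inr, Real.norm_eq_abs, abs_neg, abs_mul, abs_of_pos (by positivity)]
      rw [h7] at h6
      have h8 : 1 * |ξ i| ≤ 2 * π * |ξ i| :=
        mul_le_mul_of_nonneg_right (by linarith [Real.pi_gt_three]) (abs_nonneg _)
      linarith
    have h6 : ‖ξ‖ ≤ ∑ i : Fin n, |ξ i| := by
      have e1 : ξ = ∑ i : Fin n, EuclideanSpace.single i (ξ i) := by
        ext j
        simp
      conv_lhs => rw [e1]
      refine (norm_sum_le _ _).trans (le_of_eq ?_)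
      refine Finset.sum_congr rfl fun i _ => ?_
      simp
    refine h6.trans ((Finset.sum_le_sum fun i _ => h5 i).trans (le_of_eq ?_))
    simp
  have hn1 : (1:ℝ) ≤ (n:ℝ) + 1 := by
    have : (0:ℝ) ≤ n := Nat.cast_nonneg n
    linarith
  have hn0 : (0:ℝ) < (n:ℝ) + 1 := by linarith
  have hbase : ((1 + ‖c‖) + ‖ξ‖) / ((n:ℝ) + 1) ≤ 1 + ‖a‖ := by
    rw [div_le_iff₀ hn0]
    have : (0:ℝ) ≤ n := Nat.cast_nonneg n
    nlinarith
  have hpos : 0 < (1 + ‖c‖) + ‖ξ‖ := by positivity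
  have h5 : (1 + ‖a‖) ^ (-(1 / (m:ℝ))) ≤
      (((1 + ‖c‖) + ‖ξ‖) / ((n:ℝ) + 1)) ^ (-(1 / (m:ℝ))) :=
    Real.rpow_le_rpow_of_nonpos (by positivity) hbase (by
      have : 0 < 1 / (m:ℝ) := by positivity
      linarith)
  have h6 : (((1 + ‖c‖) + ‖ξ‖) / ((n:ℝ) + 1)) ^ (-(1 / (m:ℝ))) ≤
      ((n:ℝ) + 1) * ((1 + ‖c‖) + ‖ξ‖) ^ (-(1 / (m:ℝ))) := by
    rw [Real.div_rpow hpos.le hn0.le, Real.rpow_neg hn0.le, div_inv_eq_mul, mul_comm]
    apply mul_le_mul_of_nonneg_right _ (Real.rpow_nonneg hpos.le _)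
    calc ((n:ℝ) + 1) ^ (1 / (m:ℝ)) ≤ ((n:ℝ) + 1) ^ (1:ℝ) :=
          Real.rpow_le_rpow_of_exponent_le hn1 (by
            rw [div_le_one hm']
            exact hm1)
      _ = (n:ℝ) + 1 := Real.rpow_one _
  calc C * (1 + ‖a‖) ^ (-(1 / (m:ℝ))) ≤
        C * (((n:ℝ) + 1) * ((1 + ‖c‖) + ‖ξ‖) ^ (-(1 / (m:ℝ)))) :=
        mul_le_mul_of_nonneg_left (h5.trans h6) hC
    _ = ((n:ℝ) + 1) * C * ((1 + ‖c‖) + ‖ξ‖) ^ (-(1 / (m:ℝ))) := by ring

/-- sublevel sets for smooth nonflat families -/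
theorem sublevel_nf {d : ℕ} (φ : Fin d → E n → ℝ)
    (hs : ∀ j, ∀ x ∈ Metric.sphere (0 : E n) 1, ContDiffAt ℝ ((⊤ : ℕ∞) : WithTop ℕ∞) (φ j) x)
    (hnf : ∀ a : Fin d → ℝ, a ≠ 0 → ∀ x : E n, ‖x‖ = 1 →
      ∃ q, ON q ∧ ∃ k, (dR q)^[k] (fam φ a) x ≠ 0) :
    ∃ K κ : ℝ, 0 ≤ K ∧ 0 < κ ∧ ∀ c : Fin d → ℝ, ‖c‖ = 1 → ∀ δ : ℝ, 0 ≤ δ →
      sm n {x : S n | |fam φ c x| ≤ δ} ≤ ENNReal.ofReal (K * δ ^ κ) := by
  obtain ⟨K, κ, hK, hκ, h⟩ := sublevel_pos_nf (f := φ) hs (by
    intro a ha x hx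
    have ha0 : a ≠ 0 := by
      rintro rfl
      rw [norm_zero] at ha
      exact zero_ne_one ha
    obtain ⟨q, hq, k, hne⟩ := hnf a ha0 x (by simpa using hx)
    refine ⟨q, hq, k, mem_univ _, ?_⟩
    rw [← iter_sum hs q a k hx]
    exact hne)
  refine ⟨K, κ, hK, hκ, fun c hc δ hδ => ?_⟩
  have hcont : Continuous (fun e : ℝ => ENNReal.ofReal (K * e ^ κ)) :=
    ENNReal.continuous_ofReal.comp (continuous_const.mul
      (continuous_id.rpow_const fun x => Or.inr hκ.le))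
  have ht : Tendsto (fun e : ℝ => ENNReal.ofReal (K * e ^ κ)) (nhdsWithin δ (Ioi δ))
      (nhds (ENNReal.ofReal (K * δ ^ κ))) := (hcont.tendsto δ).mono_left nhdsWithin_le_nhds
  refine ge_of_tendsto ht ?_
  filter_upwards [self_mem_nhdsWithin] with e he
  refine le_trans (measure_mono ?_) (h c hc e (lt_of_le_of_lt hδ he))
  intro x hx
  have h1 : |fam φ c x| ≤ δ := hx
  show |∑ i, c i * φ i x| ≤ e
  exact h1.trans (le_of_lt he)

end Pool.Agent.VANn
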