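import Pool.Agent.VAN.BVdecay
import Pool.Agent.GNP.Defs3

/-!
Transfer of pointwise decay to densities with an amplitude of bounded variation, on the unit sphere
of `R^n`, `n = j + 2`.
-/

namespace Pool.Agent.VANn

open MeasureTheory Set Pool.Agent.MP_6cbfb8_an Pool.Agent.GNP Pool.Agent.VAN
open scoped ENNReal Real RealInnerProductSpace

/-! ### Approximation in the mean -/

lemma bv_dyadic (m : ℕ) : ∃ C : ℝ, 0 < C ∧ ∀ t : ℝ, ∃ k : ℕ, t ≤ 2 ^ k ∧
    Real.exp (-(t ^ 2 / 2)) ≤ C * ((1 / 2) ^ m) ^ k := by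
  classical
  refine ⟨(4 : ℝ) ^ m * m.factorial, by positivity, fun t => ?_⟩
  have hC1 : (1 : ℝ) ≤ (4 : ℝ) ^ m * m.factorial := by
    have h1 : (1 : ℝ) ≤ 4 ^ m := one_le_pow₀ (by norm_num)
    have h2 : (1 : ℝ) ≤ m.factorial := by exact_mod_cast m.factorial_pos
    exact one_le_mul_of_one_le_of_one_le h1 h2
  have hex : ∃ k : ℕ, t ≤ 2 ^ k := by
    obtain ⟨k, hk⟩ := pow_unbounded_of_one_lt t (one_lt_two : (1:ℝ) < 2)
    exact ⟨k, hk.le⟩
  refine ⟨Nat.find hex, Nat.find_spec hex, ?_⟩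
  rcases Nat.eq_zero_or_pos (Nat.find hex) with h0 | h0
  · rw [h0, pow_zero, mul_one]
    have : Real.exp (-(t ^ 2 / 2)) ≤ 1 := by
      rw [Real.exp_le_one_iff]
      nlinarith [sq_nonneg t]
    linarith
  · obtain ⟨k, hk⟩ : ∃ k, Nat.find hex = k + 1 := ⟨Nat.find hex - 1, by omega⟩
    have h1 : 2 ^ k < t := by
      have := Nat.find_min hex (m := k) (by omega)
      exact not_le.1 this
    rw [hk]
    have h2 : (1:ℝ) ≤ 2 ^ k := one_le_pow₀ (by norm_num)
    have ht0 : 0 < t := by linarith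
    have h3 : (t ^ 2 / 2) ^ m / m.factorial ≤ Real.exp (t ^ 2 / 2) :=
      Real.pow_div_factorial_le_exp (t ^ 2 / 2) (by positivity) m
    have h4 : ((2:ℝ) ^ k / 2) ^ m ≤ (t ^ 2 / 2) ^ m := by
      refine pow_le_pow_left₀ (by positivity) ?_ m
      have : (2:ℝ) ^ k ≤ t ^ 2 := by nlinarith
      linarith
    have h5 : 0 < ((2:ℝ) ^ k / 2) ^ m / m.factorial := by positivity
    have h6 : ((2:ℝ) ^ k / 2) ^ m / m.factorial ≤ Real.exp (t ^ 2 / 2) := by
      refine le_trans ?_ h3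
      gcongr
    rw [Real.exp_neg]
    calc (Real.exp (t ^ 2 / 2))⁻¹ ≤ (((2:ℝ) ^ k / 2) ^ m / m.factorial)⁻¹ := by gcongr
      _ = 4 ^ m * m.factorial * ((1 / 2) ^ m) ^ (k + 1) := by
        have e1 : ((1 / 2 : ℝ) ^ m) ^ (k + 1) = ((2:ℝ) ^ m)⁻¹ * (((2:ℝ) ^ k) ^ m)⁻¹ := by
          rw [← pow_mul, one_div, inv_pow, ← mul_inv, ← pow_mul, ← pow_add]
          congr 2
          ring
        have e2 : (4:ℝ) ^ m = 2 ^ m * 2 ^ m := by
          rw [← mul_pow]
          norm_num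
        rw [e1, e2, div_pow]
        field_simp

lemma bv_double (j : ℕ) : ∃ C : ℝ, 0 < C ∧ ∀ (s V : ℝ), s ≤ 1 → 0 ≤ V → ∀ (a : E (j + 2) → ℂ),
    Measurable a → BVn (j + 2) s V a → ∀ r : ℝ, 1 ≤ r →
    ∫⁻ x : S (j + 2), (∫⁻ y : S (j + 2), ENNReal.ofReal (ker r (x : E (j + 2)) (y : E (j + 2))) * ‖a x - a y‖ₑ ∂(sm (j + 2)))
      ∂(sm (j + 2)) ≤ ENNReal.ofReal (C * V * r ^ (-(((j : ℝ) + 1 + s) / 2))) := by
  obtain ⟨C0, hC0, hdy⟩ := bv_dyadic (j + 3)
  refine ⟨C0 * 2, by positivity, fun s V hs1 hV a ha hB r hr => ?_⟩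
  have hr0 : 0 < r := by linarith
  have hsr : 0 < Real.sqrt r := Real.sqrt_pos.2 hr0
  set ρ : ℕ → ℝ := fun k => 2 ^ k / Real.sqrt r with hρ
  set c : ℕ → ℝ := fun k => C0 * ((1 / 2) ^ (j + 3)) ^ k with hc
  set I : ℕ → S (j + 2) × S (j + 2) → ℝ≥0∞ := fun k q =>
    ({q : S (j + 2) × S (j + 2) | dist q.2 q.1 ≤ ρ k}).indicator (fun q => ‖a q.1 - a q.2‖ₑ) q with hI
  have hIm : ∀ k, Measurable (I k) := by
    intro k
    have h1 : Measurable fun q : S (j + 2) × S (j + 2) => ‖a (q.1 : E (j + 2)) - a (q.2 : E (j + 2))‖ₑ :=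
      ((ha.comp (measurable_subtype_coe.comp measurable_fst)).sub
        (ha.comp (measurable_subtype_coe.comp measurable_snd))).enorm
    refine h1.indicator ?_
    exact measurableSet_le (by fun_prop) measurable_const
  have hpt : ∀ x y : S (j + 2), ENNReal.ofReal (ker r (x : E (j + 2)) (y : E (j + 2))) * ‖a x - a y‖ₑ ≤
      ∑' k, ENNReal.ofReal (c k) * I k (x, y) := by
    intro x y
    obtain ⟨k, hk, hk2⟩ := hdy (Real.sqrt r * ‖(x : E (j + 2)) - y‖)
    refine le_trans ?_ (ENNReal.le_tsum k)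
    have h1 : dist y x ≤ ρ k := by
      rw [hρ]
      simp only
      rw [le_div_iff₀ hsr, mul_comm, dist_comm, Subtype.dist_eq, dist_eq_norm]
      exact hk
    have h2 : I k (x, y) = ‖a x - a y‖ₑ := by
      rw [hI]
      simp only
      rw [indicator_of_mem]
      exact h1
    rw [h2]
    gcongr
    refine le_trans (le_of_eq ?_) hk2
    unfold ker
    congr 1
    rw [mul_pow, Real.sq_sqrt hr0.le]
    ring
  calc ∫⁻ x : S (j + 2), (∫⁻ y : S (j + 2), ENNReal.ofReal (ker r (x : E (j + 2)) (y : E (j + 2))) * ‖a x - a y‖ₑ ∂(sm (j + 2)))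
        ∂(sm (j + 2))
      ≤ ∫⁻ x : S (j + 2), (∫⁻ y : S (j + 2), ∑' k, ENNReal.ofReal (c k) * I k (x, y) ∂(sm (j + 2))) ∂(sm (j + 2)) :=
        lintegral_mono fun x => lintegral_mono fun y => hpt x y
    _ = ∫⁻ x : S (j + 2), ∑' k, ENNReal.ofReal (c k) * ∫⁻ y : S (j + 2), I k (x, y) ∂(sm (j + 2)) ∂(sm (j + 2)) := by
        refine lintegral_congr fun x => ?_
        rw [lintegral_tsum]
        · refine tsum_congr fun k => ?_
          rw [lintegral_const_mul' _ _ ENNReal.ofReal_ne_top]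
        · intro k
          exact (((hIm k).comp (measurable_const.prodMk measurable_id)).const_mul _).aemeasurable
    _ = ∑' k, ENNReal.ofReal (c k) * ∫⁻ x : S (j + 2), ∫⁻ y : S (j + 2), I k (x, y) ∂(sm (j + 2)) ∂(sm (j + 2)) := by
        rw [lintegral_tsum]
        · refine tsum_congr fun k => ?_
          rw [lintegral_const_mul' _ _ ENNReal.ofReal_ne_top]
        · intro k
          exact (((hIm k).lintegral_prod_right').const_mul _).aemeasurable
    _ ≤ ∑' k : ℕ, ENNReal.ofReal (C0 * V * r ^ (-(((j : ℝ) + 1 + s) / 2)) * (1 / 2) ^ k) := by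
        refine ENNReal.tsum_le_tsum fun k => ?_
        have h1 : ∫⁻ x : S (j + 2), ∫⁻ y : S (j + 2), I k (x, y) ∂(sm (j + 2)) ∂(sm (j + 2)) ≤
            ENNReal.ofReal (V * ρ k ^ ((j : ℝ) + 1 + s)) := by
          have hB' := hB (ρ k) (by rw [hρ]; positivity)
          have ex : (((j + 2 : ℕ) : ℝ) - 1 + s) = (j : ℝ) + 1 + s := by
            push_cast
            ring
          rw [ex] at hB'
          refine le_trans (le_of_eq ?_) hB'
          refine lintegral_congr fun x => ?_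
          rw [← lintegral_indicator Metric.isClosed_closedBall.measurableSet]
          refine lintegral_congr fun y => ?_
          rw [hI]
          simp only [indicator, mem_ofPred_eq, Metric.mem_closedBall]
        refine (mul_le_mul_right h1 _).trans ?_
        rw [← ENNReal.ofReal_mul (by rw [hc]; positivity)]
        refine ENNReal.ofReal_le_ofReal ?_
        rw [hρ, hc]
        simp only
        have h2 : (2 ^ k / Real.sqrt r) ^ ((j : ℝ) + 1 + s) ≤
            (2 ^ (j + 2)) ^ k * r ^ (-(((j : ℝ) + 1 + s) / 2)) := by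
          rw [Real.div_rpow (by positivity) hsr.le, Real.sqrt_eq_rpow, ← Real.rpow_mul hr0.le,
            div_eq_mul_inv, ← Real.rpow_neg hr0.le]
          have e1 : -(1 / 2 * ((j : ℝ) + 1 + s)) = -(((j : ℝ) + 1 + s) / 2) := by ring
          rw [e1]
          refine mul_le_mul_of_nonneg_right ?_ (by positivity)
          calc ((2:ℝ) ^ k) ^ ((j : ℝ) + 1 + s) ≤ ((2:ℝ) ^ k) ^ (((j + 2 : ℕ) : ℝ)) := by
                refine Real.rpow_le_rpow_of_exponent_le (one_le_pow₀ (by norm_num)) ?_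
                push_cast
                linarith
            _ = (2 ^ (j + 2)) ^ k := by
                rw [Real.rpow_natCast, ← pow_mul, ← pow_mul, mul_comm]
        calc C0 * ((1 / 2) ^ (j + 3)) ^ k * (V * (2 ^ k / Real.sqrt r) ^ ((j : ℝ) + 1 + s))
            ≤ C0 * ((1 / 2) ^ (j + 3)) ^ k *
              (V * ((2 ^ (j + 2)) ^ k * r ^ (-(((j : ℝ) + 1 + s) / 2)))) := by gcongr
          _ = C0 * V * r ^ (-(((j : ℝ) + 1 + s) / 2)) *
              (((1 / 2) ^ (j + 3)) ^ k * (2 ^ (j + 2)) ^ k) := by ring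
          _ = _ := by
              rw [← mul_pow]
              congr 2
              rw [pow_succ (1 / 2 : ℝ) (j + 2), mul_right_comm, ← mul_pow]
              norm_num
    _ = ENNReal.ofReal (C0 * 2 * V * r ^ (-(((j : ℝ) + 1 + s) / 2))) := by
        have hr2 : 0 ≤ r ^ (-(((j : ℝ) + 1 + s) / 2)) := by positivity
        rw [← ENNReal.ofReal_tsum_of_nonneg (fun k => by positivity)
          ((summable_geometric_two).mul_left _), tsum_mul_left, tsum_geometric_two]
        congr 1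
        ring


lemma bv_sub_moll_le {j : ℕ} {r : ℝ} (a : E (j + 2) → ℂ) (ha : Measurable a) (hb : ∀ x, ‖a x‖ ≤ 1) (x : E (j + 2)) :
    ‖a x - moll r a x‖ₑ ≤
      (ENNReal.ofReal (kerMass r x))⁻¹ *
        ∫⁻ y : S (j + 2), ENNReal.ofReal (ker r x (y : E (j + 2))) * ‖a x - a y‖ₑ ∂(sm (j + 2)) := by
  have hpos : 0 < kerMass r x := kerMass_pos (j := j) r x
  have haS : Measurable (fun y : S (j + 2) => a (y : E (j + 2))) := ha.comp measurable_subtype_coe
  have hkS : Measurable (fun y : S (j + 2) => ker r x (y : E (j + 2))) := (ker_continuous r x).measurable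
  have hint : Integrable (fun y : S (j + 2) => ((ker r x (y : E (j + 2)) : ℝ) : ℂ) * a y) (sm (j + 2)) := by
    refine (ker_integrable r x).mono' ((Complex.measurable_ofReal.comp hkS).mul haS).aestronglyMeasurable ?_
    refine Filter.Eventually.of_forall fun y => ?_
    rw [norm_mul, Complex.norm_real, Real.norm_of_nonneg (ker_pos r x y).le]
    exact mul_le_of_le_one_right (ker_pos r x y).le (hb _)
  have hint2 : Integrable (fun y : S (j + 2) => ((ker r x (y : E (j + 2)) : ℝ) : ℂ) * a x) (sm (j + 2)) :=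
    (ker_integrable r x).ofReal.mul_const (a x)
  have h1 : a x - moll r a x =
      (∫ y : S (j + 2), ((ker r x (y : E (j + 2)) : ℝ) : ℂ) * (a x - a y) ∂(sm (j + 2))) /
        ((kerMass r x : ℝ) : ℂ) := by
    unfold moll
    have hne : ((kerMass r x : ℝ) : ℂ) ≠ 0 := by exact_mod_cast hpos.ne'
    rw [eq_div_iff hne, sub_mul, div_mul_cancel₀ _ hne]
    simp only [mul_sub]
    rw [integral_sub hint2 hint, integral_mul_const]
    congr 1
    rw [mul_comm]
    congr 1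
    unfold kerMass
    exact integral_ofReal.symm
  have h2 : ‖a x - moll r a x‖ₑ = ‖∫ y : S (j + 2), ((ker r x (y : E (j + 2)) : ℝ) : ℂ) * (a x - a y) ∂(sm (j + 2))‖ₑ
      / ENNReal.ofReal (kerMass r x) := by
    rw [h1, ← ofReal_norm, ← ofReal_norm, norm_div, Complex.norm_real, Real.norm_of_nonneg hpos.le,
      ENNReal.ofReal_div_of_pos hpos]
  have h3 : ‖∫ y : S (j + 2), ((ker r x (y : E (j + 2)) : ℝ) : ℂ) * (a x - a y) ∂(sm (j + 2))‖ₑ ≤
      ∫⁻ y : S (j + 2), ENNReal.ofReal (ker r x (y : E (j + 2))) * ‖a x - a y‖ₑ ∂(sm (j + 2)) := by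
    refine (enorm_integral_le_lintegral_enorm _).trans (le_of_eq ?_)
    refine lintegral_congr fun y => ?_
    rw [enorm_mul]
    congr 1
    rw [← ofReal_norm, Complex.norm_real, Real.norm_of_nonneg (ker_pos r x y).le]
  rw [h2, ENNReal.div_eq_inv_mul]
  gcongr

/-- Mean distance of `a` to its mollification. -/
theorem bv_L1 (j : ℕ) : ∃ C : ℝ, 0 < C ∧ ∀ (s V : ℝ), s ≤ 1 → 0 ≤ V → ∀ a : E (j + 2) → ℂ, Measurable a →
    (∀ x, ‖a x‖ ≤ 1) → BVn (j + 2) s V a → ∀ r : ℝ, 1 ≤ r →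
    ∫⁻ x : S (j + 2), ‖a x - moll r a x‖ₑ ∂(sm (j + 2)) ≤ ENNReal.ofReal (C * V * r ^ (-(s / 2))) := by
  obtain ⟨c, hc, hmass⟩ := kerMass_ge j
  obtain ⟨C0, hC0, hdb⟩ := bv_double j
  refine ⟨C0 / c, by positivity, fun s V hs hV a ha hb hB r hr => ?_⟩
  have hr0 : 0 < r := by linarith
  have hm : ∀ x : S (j + 2), (ENNReal.ofReal (kerMass r (x : E (j + 2))))⁻¹ ≤
      ENNReal.ofReal (r ^ (((j : ℝ) + 1) / 2) / c) := by
    intro x
    have h1 := hmass r hr x
    have h2 : (kerMass r (x : E (j + 2)))⁻¹ ≤ r ^ (((j : ℝ) + 1) / 2) / c := by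
      calc (kerMass r (x : E (j + 2)))⁻¹ ≤ (c * r ^ (-(((j : ℝ) + 1) / 2)))⁻¹ := by gcongr
        _ = _ := by
          rw [Real.rpow_neg hr0.le]
          field_simp
    rw [← ENNReal.ofReal_inv_of_pos (kerMass_pos (j := j) r (x : E (j + 2)))]
    exact ENNReal.ofReal_le_ofReal h2
  calc ∫⁻ x : S (j + 2), ‖a x - moll r a x‖ₑ ∂(sm (j + 2))
      ≤ ∫⁻ x : S (j + 2), ENNReal.ofReal (r ^ (((j : ℝ) + 1) / 2) / c) * (∫⁻ y : S (j + 2),
          ENNReal.ofReal (ker r (x : E (j + 2)) (y : E (j + 2))) * ‖a x - a y‖ₑ ∂(sm (j + 2)))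
          ∂(sm (j + 2)) := by
        refine lintegral_mono fun x => (bv_sub_moll_le a ha hb (x : E (j + 2))).trans ?_
        gcongr
        exact hm x
    _ = ENNReal.ofReal (r ^ (((j : ℝ) + 1) / 2) / c) * ∫⁻ x : S (j + 2), (∫⁻ y : S (j + 2),
          ENNReal.ofReal (ker r (x : E (j + 2)) (y : E (j + 2))) * ‖a x - a y‖ₑ ∂(sm (j + 2)))
          ∂(sm (j + 2)) :=
        lintegral_const_mul' _ _ ENNReal.ofReal_ne_top
    _ ≤ ENNReal.ofReal (r ^ (((j : ℝ) + 1) / 2) / c) *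
          ENNReal.ofReal (C0 * V * r ^ (-(((j : ℝ) + 1 + s) / 2))) := by
        gcongr
        exact hdb s V hs hV a ha hB r hr
    _ = _ := by
        rw [← ENNReal.ofReal_mul (by positivity)]
        congr 1
        have e2 : r ^ (-(s / 2)) = r ^ (((j : ℝ) + 1) / 2) * r ^ (-(((j : ℝ) + 1 + s) / 2)) := by
          rw [← Real.rpow_add hr0]
          congr 1
          ring
        rw [e2]
        ring

/-- The mollified amplitude preserves decay. -/
theorem bv_moll_decay (j : ℕ) : ∃ C : ℝ, 0 < C ∧ ∀ (a h : E (j + 2) → ℂ), Measurable a → Measurable h →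
    (∀ x, ‖a x‖ ≤ 1) → (∀ x, ‖h x‖ ≤ 1) → ∀ A δ Λ : ℝ, 0 ≤ A → 0 ≤ δ → δ ≤ 1 → 1 ≤ Λ →
    (∀ ξ, ‖extn h ξ‖ ≤ A * (Λ + ‖ξ‖) ^ (-δ)) → ∀ r : ℝ, 1 ≤ r → ∀ ξ,
    ‖extn (fun x => moll r a x * h x) ξ‖ ≤
      C * A * r ^ (((j : ℝ) + 2) / 2) * (Λ + ‖ξ‖) ^ (-δ) := by
  obtain ⟨c, hc, hmass⟩ := kerMass_ge j
  set σ : ℝ := (sm (j + 2)).real univ with hσ
  refine ⟨(1 / c) * (σ + 1) * 2 ^ (((j + 2 : ℕ) : ℝ) / 2 + 1), by positivity, ?_⟩
  intro a h ha hm hab hb A δ Λ hA hδ hδ1 hΛ hd r hr ξ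
  have hr0 : 0 < r := by linarith
  have hξ : 0 < Λ + ‖ξ‖ := by positivity
  -- the mass is the same everywhere
  obtain ⟨x0⟩ : Nonempty (S (j + 2)) := by
    refine ⟨⟨EuclideanSpace.single 0 1, ?_⟩⟩
    simp
  set m : ℝ := kerMass r (x0 : E (j + 2)) with hmdef
  have hm0 : 0 < m := kerMass_pos (j := j) r (x0 : E (j + 2))
  have hmr : m⁻¹ ≤ r ^ (((j : ℝ) + 1) / 2) / c := by
    have h1 := hmass r hr x0
    calc m⁻¹ ≤ (c * r ^ (-(((j : ℝ) + 1) / 2)))⁻¹ := by gcongr
      _ = _ := by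
        rw [Real.rpow_neg hr0.le]
        field_simp
  set hh : S (j + 2) → E (j + 2) → ℂ := fun y x => ((ker r x (y : E (j + 2)) : ℝ) : ℂ) * (a y * h x) with hhdef
  have hker1 : ∀ x y : E (j + 2), ‖((ker r x y : ℝ) : ℂ)‖ ≤ 1 := by
    intro x y
    rw [Complex.norm_real, Real.norm_of_nonneg (ker_pos r x y).le]
    unfold ker
    rw [Real.exp_le_one_iff]
    have : 0 ≤ r / 2 * ‖x - y‖ ^ 2 := by positivity
    linarith
  have e1 : extn (fun x => moll r a x * h x) ξ =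
      ((m⁻¹ : ℝ) : ℂ) * extn (mix (sm (j + 2)) (fun _ => LinearIsometryEquiv.refl ℝ (E (j + 2)))
        (fun _ => 0) hh) ξ := by
    unfold extn
    rw [← integral_const_mul]
    refine integral_congr_ae (Filter.Eventually.of_forall fun x => ?_)
    simp only
    rw [← mul_assoc]
    congr 1
    unfold moll mix
    have e2 : kerMass r (x : E (j + 2)) = m := kerMass_eq r x x0
    rw [e2]
    simp only [inner_zero_right, mul_zero, Complex.ofReal_zero, zero_mul, Complex.exp_zero,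
      one_mul, LinearIsometryEquiv.coe_refl, id, hhdef]
    have e3 : ∀ y : S (j + 2), ((ker r (x : E (j + 2)) (y : E (j + 2)) : ℝ) : ℂ) * (a y * h x) =
        ((ker r (x : E (j + 2)) (y : E (j + 2)) : ℝ) : ℂ) * a y * h x := fun y => by ring
    simp only [e3]
    rw [integral_mul_const]
    push_cast
    ring
  have hmh : Measurable (Function.uncurry hh) := by
    rw [hhdef]
    refine Measurable.mul ?_ (Measurable.mul ?_ (hm.comp measurable_snd))
    · have h1 : Continuous fun q : S (j + 2) × E (j + 2) => ker r q.2 (q.1 : E (j + 2)) := by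
        unfold ker
        fun_prop
      exact Complex.measurable_ofReal.comp h1.measurable
    · exact ha.comp (measurable_subtype_coe.comp measurable_fst)
  have hbh : ∀ w x, ‖hh w x‖ ≤ 1 := by
    intro w x
    rw [hhdef]
    simp only
    rw [norm_mul, norm_mul]
    exact mul_le_one₀ (hker1 _ _) (by positivity) (mul_le_one₀ (hab _) (norm_nonneg _) (hb _))
  have e4 : ∀ y : S (j + 2), extn (hh y) ξ = a y * extn (fun x => ((ker r x (y : E (j + 2)) : ℝ) : ℂ) * h x) ξ := by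
    intro y
    unfold extn
    rw [← integral_const_mul]
    refine integral_congr_ae (Filter.Eventually.of_forall fun x => ?_)
    simp only [hhdef]
    ring
  rw [e1, extn_mix (sm (j + 2)) (fun _ => LinearIsometryEquiv.refl ℝ (E (j + 2))) (fun _ => 0) hh
    (by simpa using measurable_snd) measurable_const hmh hbh ξ]
  simp only [sub_zero, LinearIsometryEquiv.coe_refl, id]
  rw [norm_mul, Complex.norm_real, Real.norm_of_nonneg (inv_nonneg.2 hm0.le)]
  have h5 : ‖∫ y : S (j + 2), extn (hh y) ξ ∂(sm (j + 2))‖ ≤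
      (2 ^ (((j + 2 : ℕ) : ℝ) / 2 + 1) * A * Real.sqrt r * (Λ + ‖ξ‖) ^ (-δ)) * (sm (j + 2)).real univ := by
    refine norm_integral_le_of_norm_le_const (Filter.Eventually.of_forall fun y => ?_)
    rw [e4 y, norm_mul]
    calc ‖a y‖ * ‖extn (fun x => ((ker r x (y : E (j + 2)) : ℝ) : ℂ) * h x) ξ‖
        ≤ 1 * ‖extn (fun x => ((ker r x (y : E (j + 2)) : ℝ) : ℂ) * h x) ξ‖ := by
          gcongr
          exact hab _
      _ ≤ _ := by
          rw [one_mul]
          exact bv_ker_decay h hm hb hA hδ hδ1 hΛ hd hr (y : E (j + 2)) ξ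
  have e5 : r ^ (((j : ℝ) + 2) / 2) = r ^ (((j : ℝ) + 1) / 2) * Real.sqrt r := by
    rw [Real.sqrt_eq_rpow, ← Real.rpow_add hr0]
    congr 1
    ring
  have hs0 : 0 ≤ σ := by positivity
  calc m⁻¹ * ‖∫ y : S (j + 2), extn (hh y) ξ ∂(sm (j + 2))‖
      ≤ (r ^ (((j : ℝ) + 1) / 2) / c) * ((2 ^ (((j + 2 : ℕ) : ℝ) / 2 + 1) * A * Real.sqrt r * (Λ + ‖ξ‖) ^ (-δ)) * (σ + 1)) := by
        refine mul_le_mul hmr (h5.trans ?_) (norm_nonneg _) (by positivity)
        gcongr
        linarith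
    _ = _ := by
        rw [e5]
        ring

/-- TRANSFER OF DECAY. A density with decay, multiplied by an amplitude of bounded variation (of
order `s ≤ 1`), has decay. -/
theorem bv_decay (j : ℕ) : ∃ C : ℝ, 0 < C ∧ ∀ (a h : E (j + 2) → ℂ), Measurable a → Measurable h →
    (∀ x, ‖a x‖ ≤ 1) → (∀ x, ‖h x‖ ≤ 1) → ∀ s V A δ Λ : ℝ, 0 ≤ s → s ≤ 1 → 1 ≤ V →
    BVn (j + 2) s V a → 1 ≤ A → 0 ≤ δ → δ ≤ 1 → 1 ≤ Λ →
    (∀ ξ, ‖extn h ξ‖ ≤ A * (Λ + ‖ξ‖) ^ (-δ)) → ∀ ξ,
    ‖extn (fun x => a x * h x) ξ‖ ≤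
      C * A * V * (Λ + ‖ξ‖) ^ (-(δ * s / (2 * ((j : ℝ) + 2)))) := by
  obtain ⟨C1, hC1, H1⟩ := bv_L1 j
  obtain ⟨C2, hC2, H2⟩ := bv_moll_decay j
  refine ⟨C1 + C2, by positivity, ?_⟩
  intro a h ha hm hab hb s V A δ Λ hs hs1 hV hB hA hδ hδ1 hΛ hd ξ
  have hX : 1 ≤ Λ + ‖ξ‖ := by linarith [norm_nonneg ξ]
  have hX0 : 0 < Λ + ‖ξ‖ := by linarith
  set X : ℝ := Λ + ‖ξ‖ with hXdef
  have hj2 : (0:ℝ) < (j : ℝ) + 2 := by positivity
  set r : ℝ := X ^ (δ / ((j : ℝ) + 2)) with hrdef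
  have hr : 1 ≤ r := Real.one_le_rpow hX (by positivity)
  have hr0 : 0 < r := by linarith
  have hmm : Measurable (moll r a) := by
    have h1 := measurable_moll (j := j) r (fun _ => a) (ha.comp measurable_snd)
    exact h1.comp (f := fun x : E (j + 2) => ((0:ℝ), x)) (by fun_prop)
  have hmb : ∀ x, ‖moll r a x‖ ≤ 1 := norm_moll_le (j := j) r a ha hab
  have hexp : Measurable fun x : S (j + 2) =>
      Complex.exp (((-(2 * π * inner ℝ (x : E (j + 2)) ξ) : ℝ) : ℂ) * Complex.I) := by fun_prop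
  have i1 : Integrable (fun x : S (j + 2) => ((a x - moll r a x) * h x) *
      Complex.exp (((-(2 * π * inner ℝ (x : E (j + 2)) ξ) : ℝ) : ℂ) * Complex.I)) (sm (j + 2)) := by
    refine Integrable.of_bound (((((ha.sub hmm).mul hm).comp measurable_subtype_coe).mul
      hexp).aestronglyMeasurable) 2 (Filter.Eventually.of_forall fun x => ?_)
    rw [norm_mul, norm_phase, mul_one, norm_mul]
    calc ‖a x - moll r a x‖ * ‖h x‖ ≤ (1 + 1) * 1 := by
          gcongr
          · exact (norm_sub_le _ _).trans (add_le_add (hab _) (hmb _))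
          · exact hb _
      _ = 2 := by norm_num
  have i2 : Integrable (fun x : S (j + 2) => (moll r a x * h x) *
      Complex.exp (((-(2 * π * inner ℝ (x : E (j + 2)) ξ) : ℝ) : ℂ) * Complex.I)) (sm (j + 2)) := by
    refine Integrable.of_bound ((((hmm.mul hm).comp measurable_subtype_coe).mul
      hexp).aestronglyMeasurable) 1 (Filter.Eventually.of_forall fun x => ?_)
    rw [norm_mul, norm_phase, mul_one, norm_mul]
    exact mul_le_one₀ (hmb _) (norm_nonneg _) (hb _)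
  have e1 : extn (fun x => a x * h x) ξ = extn (fun x => (a x - moll r a x) * h x) ξ +
      extn (fun x => moll r a x * h x) ξ := by
    unfold extn
    rw [← integral_add i1 i2]
    refine integral_congr_ae (Filter.Eventually.of_forall fun x => ?_)
    simp only
    ring
  have h1 : ‖extn (fun x => (a x - moll r a x) * h x) ξ‖ ≤ C1 * V * r ^ (-(s / 2)) := by
    have h2 : ‖extn (fun x => (a x - moll r a x) * h x) ξ‖ₑ ≤
        ENNReal.ofReal (C1 * V * r ^ (-(s / 2))) := by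
      unfold extn
      refine (enorm_integral_le_lintegral_enorm _).trans ?_
      refine le_trans (lintegral_mono fun x => ?_) (H1 s V hs1 (by linarith) a ha hab hB r hr)
      rw [enorm_mul, enorm_phase, mul_one, enorm_mul]
      calc ‖a x - moll r a x‖ₑ * ‖h x‖ₑ ≤ ‖a x - moll r a x‖ₑ * 1 := by
            gcongr
            rw [← ofReal_norm, ← ENNReal.ofReal_one]
            exact ENNReal.ofReal_le_ofReal (hb _)
        _ = _ := mul_one _
    rw [← ofReal_norm] at h2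
    exact (ENNReal.ofReal_le_ofReal_iff (by positivity)).1 h2
  have h3 := H2 a h ha hm hab hb A δ Λ (by linarith) hδ hδ1 hΛ hd r hr ξ
  have e2 : r ^ (-(s / 2)) = X ^ (-(δ * s / (2 * ((j : ℝ) + 2)))) := by
    rw [hrdef, ← Real.rpow_mul hX0.le]
    congr 1
    field_simp
  have e3 : r ^ (((j : ℝ) + 2) / 2) * X ^ (-δ) = X ^ (-(δ / 2)) := by
    rw [hrdef, ← Real.rpow_mul hX0.le, ← Real.rpow_add hX0]
    congr 1
    field_simp
    ring
  have h4 : X ^ (-(δ / 2)) ≤ X ^ (-(δ * s / (2 * ((j : ℝ) + 2)))) := by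
    refine Real.rpow_le_rpow_of_exponent_le hX ?_
    have h5 : δ * s / (2 * ((j : ℝ) + 2)) ≤ δ / 2 := by
      rw [div_le_div_iff₀ (by positivity) (by norm_num)]
      have h6 : δ * s ≤ δ * 1 := by gcongr
      have h7 : (0:ℝ) ≤ j := Nat.cast_nonneg j
      nlinarith
    linarith
  rw [e1]
  refine (norm_add_le _ _).trans ?_
  have hXp : 0 < X ^ (-(δ * s / (2 * ((j : ℝ) + 2)))) := Real.rpow_pos_of_pos hX0 _
  calc ‖extn (fun x => (a x - moll r a x) * h x) ξ‖ + ‖extn (fun x => moll r a x * h x) ξ‖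
      ≤ C1 * V * X ^ (-(δ * s / (2 * ((j : ℝ) + 2)))) + C2 * A * X ^ (-(δ * s / (2 * ((j : ℝ) + 2)))) := by
        refine add_le_add (h1.trans (le_of_eq (by rw [e2]))) (h3.trans ?_)
        rw [mul_assoc, e3]
        gcongr
    _ ≤ C1 * A * V * X ^ (-(δ * s / (2 * ((j : ℝ) + 2)))) + C2 * A * V * X ^ (-(δ * s / (2 * ((j : ℝ) + 2)))) := by
        have g1 : C1 * V ≤ C1 * A * V := by
          have : C1 * V * 1 ≤ C1 * V * A := by gcongr
          linarith
        have g2 : C2 * A ≤ C2 * A * V := by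
          have : C2 * A * 1 ≤ C2 * A * V := by gcongr
          linarith
        gcongr
    _ = _ := by ring

end Pool.Agent.VANn
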