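import Pool.Agent.VANn.HSR
import Pool.Agent.GNP.HSW

/-!
Nonflat families with amplitudes with an `L²`-modulus of continuity of order larger than
`(n-1)/(2n)`, in the full conjectured range of exponents.
-/

namespace Pool.Agent.VANn

open MeasureTheory Set Pool.Agent.MP_6cbfb8_an Pool.Agent.VAN Pool.Agent.GNP
open scoped ENNReal Real

theorem lossHS_all {m : ℕ} (hm : 2 ≤ m) {s : ℝ} (hs0 : (m : ℝ) / (m + 1) < s) (hs1 : s ≤ 1)
    (V : ℝ) : LossHS m s V :=
  fun N p ε hp hε B => sphere_hs_fam m hm N p ε s V hp hε hs0 hs1 B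

/-- Superpositions in `R^(m+1)`, all orders larger than `m/(m+1)`, all constants `V`. -/
theorem res_hs {m : ℕ} (hm : 2 ≤ m) {s : ℝ} (hs : (m : ℝ) / (m + 1) < s) (V : ℝ) {d : ℕ}
    {φ : Fin d → E (m + 1) → ℝ} (hφ : Nonflat φ) (N : ℕ) (p : ℝ)
    (hp : 2 * ((m : ℝ) + 1) / m < p) :
    ∃ C : ℝ≥0∞, C ≠ ∞ ∧
      ∀ (W : Type) (_ : MeasurableSpace W) (ν : Measure W) (_ : IsFiniteMeasure ν)
        (R : W → (E (m + 1) ≃ₗᵢ[ℝ] E (m + 1))) (η : W → E (m + 1)) (w : W → E (m + 1) → ℂ)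
        (a : W → Fin d → ℝ) (b : W → Fin N → Fin d → ℝ),
        (Measurable fun q : W × E (m + 1) => R q.1 q.2) → Measurable η →
        (Measurable fun q : W × E (m + 1) => w q.1 q.2) → (∀ t x, ‖w t x‖ ≤ 1) →
        (∀ t, BN2 (m + 1) s V (w t)) → Measurable a → Measurable b →
        ∫⁻ ξ, ‖extn (mix ν R η fun t x => w t x * famc φ (a t) (b t) x) ξ‖ₑ ^ p ≤
          C * ν univ ^ p := by
  have h0 : (0 : ℝ) < (m : ℝ) / (m + 1) := by
    have : (0 : ℝ) < m := by exact_mod_cast (by omega : 0 < m)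
    positivity
  have h1 : (m : ℝ) / (m + 1) < 1 := by
    rw [div_lt_one (by positivity)]
    linarith
  have hs' : (m : ℝ) / (m + 1) < min s 1 := lt_min hs h1
  obtain ⟨K, hK, hmono⟩ := hs_mono (m + 1) (by omega)
  have hV : 0 ≤ max V 0 := le_max_right _ _
  obtain ⟨C, hC, h⟩ := res_mixH hm (s := min s 1) (V := max V 0 + K) (h0.trans hs')
    ((min_le_right _ _).trans (by norm_num)) (by positivity)
    (lossHS_all hm hs' (min_le_right _ _) _) hφ N p hp
  refine ⟨C, hC, fun W mW ν hν R η w a b hR hη hw hw1 hwV ha hb =>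
    h W mW ν hν R η w a b hR hη hw hw1 (fun t => ?_) ha hb⟩
  refine hmono s (min s 1) (max V 0) (w t) hV (h0.trans hs').le (min_le_left _ _) (hw1 t)
    fun r hr => (hwV t r hr).trans (ENNReal.ofReal_le_ofReal ?_)
  exact mul_le_mul_of_nonneg_right (le_max_left _ _) (by positivity)

/-- Functions of bounded variation, bounded by `1`, have an `L²`-modulus of continuity of order
`1/2`. -/
theorem bn2_of_bvn {n : ℕ} {V : ℝ} {w : E n → ℂ} (hw : ∀ x, ‖w x‖ ≤ 1) (h : BVn n 1 V w) :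
    BN2 n 1 (2 * V) w := by
  intro r hr
  have h1 : ∀ x y : S n, ‖w x - w y‖ₑ ^ 2 ≤ 2 * ‖w x - w y‖ₑ := by
    intro x y
    have h2 : ‖w x - w y‖ₑ ≤ 2 := by
      have h3 : ‖w x - w y‖ ≤ 2 := (norm_sub_le _ _).trans (by linarith [hw x, hw y])
      rw [← ofReal_norm]
      exact (ENNReal.ofReal_le_ofReal h3).trans (by norm_num)
    rw [sq]
    gcongr
  calc ∫⁻ x : S n, (∫⁻ y in Metric.closedBall x r, ‖w x - w y‖ₑ ^ 2 ∂(sm n)) ∂(sm n)
      ≤ ∫⁻ x : S n, (∫⁻ y in Metric.closedBall x r, 2 * ‖w x - w y‖ₑ ∂(sm n)) ∂(sm n) :=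
        lintegral_mono fun x => lintegral_mono fun y => h1 x y
    _ = 2 * ∫⁻ x : S n, (∫⁻ y in Metric.closedBall x r, ‖w x - w y‖ₑ ∂(sm n)) ∂(sm n) := by
        rw [← lintegral_const_mul' _ _ (by norm_num)]
        exact lintegral_congr fun x => lintegral_const_mul' _ _ (by norm_num)
    _ ≤ 2 * ENNReal.ofReal (V * r ^ ((n : ℝ) - 1 + 1)) := by
        gcongr
        exact h r hr
    _ = ENNReal.ofReal (2 * V * r ^ ((n : ℝ) - 1 + 1)) := by
        rw [mul_assoc, ENNReal.ofReal_mul (p := 2) (by norm_num), ENNReal.ofReal_ofNat]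

end Pool.Agent.VANn
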