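import Pool.Agent.VANn.DMPT

/-!
Stein's restriction conjecture in `R^n`: five forms, the fifth is a statement about phases which are smooth
off one point.
-/

set_option autoImplicit false

namespace Pool.Agent.VANn.DM

open MeasureTheory Set Filter Topology Pool.Agent.MP_6cbfb8_an
open scoped ENNReal Real
open Pool.Agent.GNP.TM (PhsF)

lemma cov_point {n : ℕ} (e : E n) : Pool.Agent.GNP.TM.Cov 1 0 ({e} : Set (E n)) := by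
  intro r hr _
  refine ⟨{e}, by simp, ?_⟩
  simp [hr]

/-- From the whole conjecture to phases which are continuous off one point. -/
theorem stein_point (n : ℕ) (hn : 2 ≤ n) {p : ℝ}
    (h : ∀ g : E n → ℂ, Measurable g → (∀ x, ‖g x‖ ≤ 1) → ∫⁻ ξ, ‖extn g ξ‖ₑ ^ p < ∞)
    (e : E n) (ψ : E n → ℝ) (hψ : ∀ x, ‖x‖ = 1 → x ≠ e → ContinuousAt ψ x) :
    ∫⁻ ξ, ‖extn (fun x => Complex.exp (((ψ x : ℝ) : ℂ) * Complex.I)) ξ‖ₑ ^ p < ∞ := by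
  have hn' : (2:ℝ) ≤ n := by exact_mod_cast hn
  obtain ⟨g, hg, hb, he⟩ := exists_meas n hn (κ := 0) (by linarith) (cov_point e) (ψ := ψ)
    fun x hx hxs => hψ x hx (by simpa using hxs)
  rw [he]
  exact h g hg hb

/-- **Stein's conjecture in `R^n` and one singular point**: it is enough to consider the phases which are
smooth off the point `e` with `|D^j ψ(x)| ≤ B_j |x - e|^(-A j)` (for one `e`). -/
theorem stein_of_point (n : ℕ) (hn : 2 ≤ n) (e : E n) (he : ‖e‖ = 1)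
    (h : ∀ p : ℝ, 2 * (n : ℝ) / (n - 1) < p → ∀ (A : ℕ) (B : ℕ → ℝ) (ψ : E n → ℝ),
      (∀ x, ‖x‖ = 1 → x ≠ e → ContDiffAt ℝ ((⊤ : ℕ∞) : WithTop ℕ∞) ψ x ∧
        ∀ j, ‖iteratedFDeriv ℝ j ψ x‖ ≤ B j / ‖x - e‖ ^ (A * j)) →
      ∫⁻ ξ, ‖extn (fun x => Complex.exp (((ψ x : ℝ) : ℂ) * Complex.I)) ξ‖ₑ ^ p < ∞) :
    ∀ p : ℝ, 2 * (n : ℝ) / (n - 1) < p → ∀ g : E n → ℂ, Measurable g → (∀ x, ‖g x‖ ≤ 1) →
      ∫⁻ ξ, ‖extn g ξ‖ₑ ^ p < ∞ := by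
  obtain ⟨κ, V, B, Sig, ψ, A, B', _, _, _, _, _, _, _, _, _, h10, h11⟩ := dim_pt n hn e he
  refine h11 fun p hp => h p hp A B' ψ fun x _ hxe => ?_
  obtain ⟨h1, h2⟩ := h10 x hxe
  refine ⟨h1, fun j => ?_⟩
  rw [← dist_eq_norm]
  exact h2 j

/-- Derivatives of polynomial growth at a point, in the words of `PhsF`. -/
lemma phsF_point {n : ℕ} {e : E n} {A : ℕ} {B : ℕ → ℝ} {ψ : E n → ℝ}
    (h : ∀ x, ‖x‖ = 1 → x ≠ e → ContDiffAt ℝ ((⊤ : ℕ∞) : WithTop ℕ∞) ψ x ∧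
      ∀ j, ‖iteratedFDeriv ℝ j ψ x‖ ≤ B j / ‖x - e‖ ^ (A * j)) (k : ℕ) :
    PhsF k (A * k) (∑ j ∈ Finset.range (k + 1), |B j|) {e} ψ := by
  intro x hx r hr hr1 hd
  have hre : r ≤ ‖x - e‖ := by
    by_contra hlt
    push Not at hlt
    refine Set.disjoint_left.1 hd (?_ : e ∈ Metric.ball x r) rfl
    rw [mem_ball_iff_norm, norm_sub_rev]
    exact hlt
  have hxe : x ≠ e := by
    rintro rfl
    rw [sub_self, norm_zero] at hre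
    linarith
  obtain ⟨h1, h2⟩ := h x hx hxe
  refine ⟨h1, fun j hj hjk => (h2 j).trans ?_⟩
  have h3 : |B j| ≤ ∑ j ∈ Finset.range (k + 1), |B j| :=
    Finset.single_le_sum (f := fun j => |B j|) (fun i _ => abs_nonneg _)
      (Finset.mem_range.2 (by omega))
  have h4 : r ^ (A * k + j) ≤ ‖x - e‖ ^ (A * j) := by
    calc r ^ (A * k + j) ≤ r ^ (A * j) := by
          refine pow_le_pow_of_le_one hr.le hr1 ?_
          have : A * j ≤ A * k := Nat.mul_le_mul_left _ hjk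
          omega
      _ ≤ ‖x - e‖ ^ (A * j) := pow_le_pow_left₀ hr.le hre _
  have h5 : 0 < r ^ (A * k + j) := by positivity
  calc B j / ‖x - e‖ ^ (A * j) ≤ |B j| / ‖x - e‖ ^ (A * j) :=
        div_le_div_of_nonneg_right (le_abs_self _) (by positivity)
    _ ≤ |B j| / r ^ (A * k + j) := div_le_div_of_nonneg_left (abs_nonneg _) h5 h4
    _ ≤ _ := div_le_div_of_nonneg_right h3 h5.le

/-- **Stein's conjecture in `R^n`**: five forms (qualitative; uniform; phases which are smooth off sets of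
dimension `κ < n - 1`; phases which are smooth off one point; smooth phases). -/
theorem stein_five (n : ℕ) (hn : 2 ≤ n) : List.TFAE [
    ∀ p : ℝ, 2 * (n : ℝ) / (n - 1) < p → ∀ g : E n → ℂ, Measurable g → (∀ x, ‖g x‖ ≤ 1) →
      ∫⁻ ξ, ‖extn g ξ‖ₑ ^ p < ∞,
    ∀ p : ℝ, 2 * (n : ℝ) / (n - 1) < p → ∃ C : ℝ≥0∞, C ≠ ∞ ∧ ∀ g : E n → ℂ, Measurable g →
      (∀ x, ‖g x‖ ≤ 1) → ∫⁻ ξ, ‖extn g ξ‖ₑ ^ p ≤ C,
    ∀ p κ : ℝ, 2 * (n : ℝ) / (n - 1) < p → 0 ≤ κ → κ < n - 1 →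
      ∀ (A : ℕ) (V : ℝ) (Sig : Set (E n)) (ψ : E n → ℝ),
      Pool.Agent.GNP.TM.Cov V κ Sig → (∀ k, ∃ lam : ℝ, PhsF k A lam Sig ψ) →
      ∫⁻ ξ, ‖extn (fun x => Complex.exp (((ψ x : ℝ) : ℂ) * Complex.I)) ξ‖ₑ ^ p < ∞,
    ∀ p : ℝ, 2 * (n : ℝ) / (n - 1) < p → ∀ (e : E n) (A : ℕ) (B : ℕ → ℝ) (ψ : E n → ℝ),
      (∀ x, ‖x‖ = 1 → x ≠ e → ContDiffAt ℝ ((⊤ : ℕ∞) : WithTop ℕ∞) ψ x ∧
        ∀ j, ‖iteratedFDeriv ℝ j ψ x‖ ≤ B j / ‖x - e‖ ^ (A * j)) →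
      ∫⁻ ξ, ‖extn (fun x => Complex.exp (((ψ x : ℝ) : ℂ) * Complex.I)) ξ‖ₑ ^ p < ∞,
    ∀ p : ℝ, 2 * (n : ℝ) / (n - 1) < p → ∀ φ : E n → ℝ,
      (∀ x ∈ Metric.sphere (0 : E n) 1, ContDiffAt ℝ ((⊤ : ℕ∞) : WithTop ℕ∞) φ x) →
      ∃ C : ℝ≥0∞, C ≠ ∞ ∧ ∀ c : ℝ,
        ∫⁻ ξ, ‖extn (fun x => Complex.exp (((c * φ x : ℝ) : ℂ) * Complex.I)) ξ‖ₑ ^ p ≤ C] := by
  have h4 := stein_four n hn
  have he : ‖(EuclideanSpace.single (⟨0, by omega⟩ : Fin n) (1 : ℝ))‖ = 1 := by simp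
  tfae_have 1 ↔ 2 := h4.out 0 1
  tfae_have 1 ↔ 3 := h4.out 0 2
  tfae_have 1 ↔ 5 := h4.out 0 3
  tfae_have 1 → 4 := fun h p hp e A B ψ hψ =>
    stein_point n hn (h p hp) e ψ fun x hx hxe => (hψ x hx hxe).1.continuousAt
  tfae_have 4 → 1 := fun h => stein_of_point n hn _ he fun p hp A B ψ hψ => h p hp _ A B ψ hψ
  tfae_finish

/-- **Order of the quantifiers**: Stein's conjecture in `R^n` is the estimate for the phases with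
`|D^j ψ(x)| ≤ C_j |x - e|^(-A_j)`. (For `A_j = A + j` see `GNP.TM.tame_all` with `κ = 0`.) -/
theorem stein_point_iff (n : ℕ) (hn : 2 ≤ n) :
    (∀ p : ℝ, 2 * (n : ℝ) / (n - 1) < p → ∀ g : E n → ℂ, Measurable g → (∀ x, ‖g x‖ ≤ 1) →
      ∫⁻ ξ, ‖extn g ξ‖ₑ ^ p < ∞) ↔
    ∀ p : ℝ, 2 * (n : ℝ) / (n - 1) < p → ∀ (e : E n) (ψ : E n → ℝ),
      (∀ k, ∃ (A : ℕ) (lam : ℝ), PhsF k A lam {e} ψ) →
      ∫⁻ ξ, ‖extn (fun x => Complex.exp (((ψ x : ℝ) : ℂ) * Complex.I)) ξ‖ₑ ^ p < ∞ := by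
  have he : ‖(EuclideanSpace.single (⟨0, by omega⟩ : Fin n) (1 : ℝ))‖ = 1 := by simp
  refine ⟨fun h p hp e ψ hψ => stein_point n hn (h p hp) e ψ fun x hx hxe => ?_,
    fun h => stein_of_point n hn _ he fun p hp A B ψ hψ => h p hp _ ψ fun k =>
      ⟨A * k, _, phsF_point hψ k⟩⟩
  obtain ⟨A, lam, h1⟩ := hψ 0
  have hd : 0 < ‖x - e‖ := norm_pos_iff.2 (sub_ne_zero.2 hxe)
  refine (h1 x hx (min ‖x - e‖ 1) (lt_min hd one_pos) (min_le_right _ _) ?_).1.continuousAt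
  rw [Set.disjoint_left]
  intro y hy hye
  rw [mem_singleton_iff.1 hye, mem_ball_iff_norm, norm_sub_rev] at hy
  exact absurd (hy.trans_le (min_le_left _ _)) (lt_irrefl _)

/-- **One density**: for every point `e` of the sphere there is one bounded real `ψ`, smooth off `e`, with
derivatives of polynomial growth at `e`, for which the estimates are the whole conjecture. -/
theorem one_density (n : ℕ) (hn : 2 ≤ n) (e : E n) (he : ‖e‖ = 1) :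
    ∃ (A : ℕ) (B : ℕ → ℝ) (ψ : E n → ℝ),
      (∀ x, x ≠ e → ContDiffAt ℝ ((⊤ : ℕ∞) : WithTop ℕ∞) ψ x ∧
        ∀ j, ‖iteratedFDeriv ℝ j ψ x‖ ≤ B j / ‖x - e‖ ^ (A * j)) ∧
      ((∀ p : ℝ, 2 * (n : ℝ) / (n - 1) < p →
          ∫⁻ ξ, ‖extn (fun x => Complex.exp (((ψ x : ℝ) : ℂ) * Complex.I)) ξ‖ₑ ^ p < ∞) ↔
        ∀ p : ℝ, 2 * (n : ℝ) / (n - 1) < p → ∀ g : E n → ℂ, Measurable g → (∀ x, ‖g x‖ ≤ 1) →
          ∫⁻ ξ, ‖extn g ξ‖ₑ ^ p < ∞) := by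
  obtain ⟨κ, V, B, Sig, ψ, A, B', _, _, _, _, _, _, _, _, _, h10, h11⟩ := dim_pt n hn e he
  refine ⟨A, B', ψ, fun x hxe => ?_, h11, fun h p hp => stein_point n hn (h p hp) e ψ
    fun x _ hxe => (h10 x hxe).1.continuousAt⟩
  obtain ⟨h1, h2⟩ := h10 x hxe
  refine ⟨h1, fun j => ?_⟩
  rw [← dist_eq_norm]
  exact h2 j

end Pool.Agent.VANn.DM
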