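import Pool.Agent.VANn.LUA
import Pool.Agent.GNP.SP5
import Pool.Agent.GNP.FTn

/-!
The estimate with an arbitrarily small loss for one smooth phase on the unit sphere of `R^n`, for every
`n ≥ 3`, in the full range.
-/

namespace Pool.Agent.VANn

open Pool.Agent.GNP

theorem oneLoss_all (m : ℕ) (hm : 2 ≤ m) : OneLoss (m + 1) (2 * ((m : ℝ) + 1) / m) :=
  fun p ε hp hε B => sphere5 m hm (ft m) p ε hp hε B

end Pool.Agent.VANn
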