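import Pool.Agent.VANn.LSA
import Pool.Agent.GNP.NB5
import Pool.Agent.GNP.FTn

/-!
The estimate with an arbitrarily small loss for smooth phases and amplitudes of bounded variation in
charts, in all dimensions, in the full range.
-/

namespace Pool.Agent.VANn

open Pool.Agent.GNP

theorem coreA_all (m : ℕ) (hm : 2 ≤ m) : CoreA m :=
  fun p ε hp hε => coreW5 m hm (ft m) p ε hp hε

end Pool.Agent.VANn
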