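import Pool.Agent.VANn.DIMB2

/-!
A bad density gives a bad smooth phase with polynomial bounds.
-/

set_option autoImplicit false

namespace Pool.Agent.VANn.DMB

open MeasureTheory Set Filter Topology Pool.Agent.MP_6cbfb8_an
open scoped ENNReal Real ContDiff

variable {n : ℕ}

/-- The exponential. -/
noncomputable def ex (ξ x : E n) : ℂ :=
  Complex.exp (((-(2 * π * inner ℝ x ξ) : ℝ) : ℂ) * Complex.I)

lemma norm_ex (ξ x : E n) : ‖ex ξ x‖ = 1 := Complex.norm_exp_ofReal_mul_I _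

lemma ex_cont (ξ : E n) : Continuous fun x => ex ξ x := by
  unfold ex
  fun_prop

lemma ex_lip (ξ x y : E n) : ‖ex ξ x - ex ξ y‖ ≤ 2 * π * ‖ξ‖ * ‖x - y‖ := by
  refine (Pool.Agent.VAN.AN.norm_phase_sub_le _ _).trans ?_
  rw [show -(2 * π * inner ℝ x ξ) - -(2 * π * inner ℝ y ξ) = -(2 * π * inner ℝ (x - y) ξ) by
    rw [inner_sub_left]; ring, abs_neg, abs_mul, abs_of_pos (by positivity)]
  have h1 := abs_real_inner_le_norm (x - y) ξ
  calc 2 * π * |inner ℝ (x - y) ξ| ≤ 2 * π * (‖x - y‖ * ‖ξ‖) := by gcongr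
    _ = 2 * π * ‖ξ‖ * ‖x - y‖ := by ring

/-- The transforms of a density and of its regularization. -/
theorem reg_error {w Z ρ : ℝ} (hZ : 0 < Z)
    (h1 : ∀ x : E n, ‖x‖ = 1 → ∫ y : S n, ker w Z (inner ℝ x (y : E n)) ∂(sm n) = 1)
    (h2 : ∀ x y : E n, ‖x‖ = 1 → ‖y‖ = 1 → ker w Z (inner ℝ x y) ≠ 0 → ‖x - y‖ ≤ 2 * ρ)
    {g : E n → ℂ} (hg : Measurable g) (hb : ∀ x, ‖g x‖ ≤ 1) (ξ : E n) :
    ‖extn g ξ - extn (reg w Z g) ξ‖ ≤ 4 * π * ‖ξ‖ * ρ * (sm n).real univ := by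
  have hk0 := fun s => ker_nonneg w hZ s
  have hkc : Continuous fun q : S n × S n => ker w Z (inner ℝ (q.1 : E n) (q.2 : E n)) :=
    (ker_contDiff w Z).continuous.comp (by fun_prop)
  obtain ⟨M, hM⟩ : ∃ M : ℝ, ∀ q : S n × S n, ‖ker w Z (inner ℝ (q.1 : E n) (q.2 : E n))‖ ≤ M :=
    hkc.bounded_above_of_compact_support (HasCompactSupport.of_compactSpace _)
  have hgm : Measurable fun y : S n => g y := hg.comp measurable_subtype_coe
  have hki : ∀ y : S n, Integrable (fun x : S n => ker w Z (inner ℝ (x : E n) (y : E n))) (sm n) := by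
    intro y
    have hc : Continuous fun x : S n => ker w Z (inner ℝ (x : E n) (y : E n)) :=
      (ker_contDiff w Z).continuous.comp (by fun_prop)
    exact hc.integrable_of_hasCompactSupport (HasCompactSupport.of_compactSpace _)
  have h1' : ∀ y : S n, ∫ x : S n, ker w Z (inner ℝ (x : E n) (y : E n)) ∂(sm n) = 1 := by
    intro y
    rw [← h1 y (by simp)]
    refine integral_congr_ae (Eventually.of_forall fun x => ?_)
    simp only
    rw [real_inner_comm]
  -- the transform of the regularization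
  have hprod : Integrable (Function.uncurry fun (x y : S n) =>
      ((ker w Z (inner ℝ (x : E n) (y : E n)) : ℝ) : ℂ) * (g y * ex ξ x)) ((sm n).prod (sm n)) := by
    refine (integrable_const M).mono' ?_ (Eventually.of_forall fun q => ?_)
    · refine AEStronglyMeasurable.mul ?_ ?_
      · exact (Complex.continuous_ofReal.comp hkc).aestronglyMeasurable
      · exact ((hgm.comp measurable_snd).mul (((ex_cont ξ).comp
          continuous_subtype_val).measurable.comp measurable_fst)).aestronglyMeasurable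
    · simp only [Function.uncurry]
      rw [norm_mul, norm_mul, norm_ex, mul_one, Complex.norm_real]
      calc ‖ker w Z (inner ℝ (q.1 : E n) (q.2 : E n))‖ * ‖g q.2‖ ≤ M * 1 :=
            mul_le_mul (hM q) (hb _) (norm_nonneg _) ((norm_nonneg _).trans (hM q))
        _ = M := mul_one M
  have e1 : extn (reg w Z g) ξ = ∫ y : S n, (∫ x : S n,
      ((ker w Z (inner ℝ (x : E n) (y : E n)) : ℝ) : ℂ) * (g y * ex ξ x) ∂(sm n)) ∂(sm n) := by
    rw [← integral_integral_swap hprod]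
    unfold extn
    refine integral_congr_ae (Eventually.of_forall fun x => ?_)
    simp only
    unfold reg
    rw [← integral_mul_const]
    refine integral_congr_ae (Eventually.of_forall fun y => ?_)
    simp only [Complex.real_smul]
    unfold ex
    ring
  have e2 : extn g ξ = ∫ y : S n, (∫ x : S n,
      ((ker w Z (inner ℝ (x : E n) (y : E n)) : ℝ) : ℂ) * (g y * ex ξ y) ∂(sm n)) ∂(sm n) := by
    unfold extn
    refine integral_congr_ae (Eventually.of_forall fun y => ?_)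
    simp only
    rw [integral_mul_const, integral_complex_ofReal, h1' y, Complex.ofReal_one, one_mul]
    rfl
  have hi1 : Integrable (fun y : S n => ∫ x : S n,
      ((ker w Z (inner ℝ (x : E n) (y : E n)) : ℝ) : ℂ) * (g y * ex ξ x) ∂(sm n)) (sm n) := by
    have := hprod.swap.integral_prod_left
    exact this
  have hi2 : Integrable (fun y : S n => ∫ x : S n,
      ((ker w Z (inner ℝ (x : E n) (y : E n)) : ℝ) : ℂ) * (g y * ex ξ y) ∂(sm n)) (sm n) := by
    have : (fun y : S n => ∫ x : S n,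
      ((ker w Z (inner ℝ (x : E n) (y : E n)) : ℝ) : ℂ) * (g y * ex ξ y) ∂(sm n)) =
        fun y : S n => g y * ex ξ y := by
      funext y
      rw [integral_mul_const, integral_complex_ofReal, h1' y, Complex.ofReal_one, one_mul]
    rw [this]
    refine (integrable_const (1:ℝ)).mono' (hgm.mul ((ex_cont ξ).comp
          continuous_subtype_val).measurable).aestronglyMeasurable (Eventually.of_forall fun y => ?_)
    rw [norm_mul, norm_ex, mul_one]
    exact hb _
  rw [e1, e2, ← integral_sub hi2 hi1]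
  refine (norm_integral_le_of_norm_le_const (C := 4 * π * ‖ξ‖ * ρ)
    (Eventually.of_forall fun y => ?_))
  have hiy1 : Integrable (fun x : S n =>
      ((ker w Z (inner ℝ (x : E n) (y : E n)) : ℝ) : ℂ) * (g y * ex ξ y)) (sm n) :=
    (hki y).ofReal.mul_const _
  have hiy2 : Integrable (fun x : S n =>
      ((ker w Z (inner ℝ (x : E n) (y : E n)) : ℝ) : ℂ) * (g y * ex ξ x)) (sm n) := by
    refine (hki y).norm.mono' ?_ (Eventually.of_forall fun x => ?_)
    · exact ((hki y).ofReal (𝕜 := ℂ)).aestronglyMeasurable.mul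
        ((((ex_cont ξ).comp continuous_subtype_val).measurable.const_mul _).aestronglyMeasurable)
    · rw [norm_mul, norm_mul, norm_ex, mul_one, Complex.norm_real]
      exact mul_le_of_le_one_right (norm_nonneg _) (hb _)
  rw [← integral_sub hiy1 hiy2]
  have h3 : ∀ x : S n, ‖((ker w Z (inner ℝ (x : E n) (y : E n)) : ℝ) : ℂ) * (g y * ex ξ y) -
      ((ker w Z (inner ℝ (x : E n) (y : E n)) : ℝ) : ℂ) * (g y * ex ξ x)‖ ≤
        ker w Z (inner ℝ (x : E n) (y : E n)) * (4 * π * ‖ξ‖ * ρ) := by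
    intro x
    rw [← mul_sub, ← mul_sub, norm_mul, norm_mul, Complex.norm_real, Real.norm_of_nonneg (hk0 _)]
    by_cases hne : ker w Z (inner ℝ (x : E n) (y : E n)) = 0
    · rw [hne, zero_mul, zero_mul]
    · have h4 := h2 x y (by simp) (by simp) hne
      refine mul_le_mul_of_nonneg_left ?_ (hk0 _)
      calc ‖g y‖ * ‖ex ξ y - ex ξ x‖ ≤ 1 * (2 * π * ‖ξ‖ * ‖(y : E n) - x‖) :=
            mul_le_mul (hb _) (ex_lip _ _ _) (norm_nonneg _) zero_le_one
        _ ≤ 1 * (2 * π * ‖ξ‖ * (2 * ρ)) := by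
            rw [norm_sub_rev]
            gcongr
        _ = 4 * π * ‖ξ‖ * ρ := by ring
  refine (norm_integral_le_of_norm_le ((hki y).mul_const _) (Eventually.of_forall h3)).trans ?_
  rw [integral_mul_const, h1' y, one_mul]

/-- A smooth function with `cos (A t) = t / 2` for `|t| ≤ 1`. -/
lemma exists_arccos : ∃ (A : ℝ → ℝ) (a : ℕ → ℝ), ContDiff ℝ ∞ A ∧ (∀ k, 0 ≤ a k) ∧
    (∀ k t, ‖iteratedFDeriv ℝ k A t‖ ≤ a k) ∧ ∀ t, |t| ≤ 1 → Real.cos (A t) = t / 2 := by
  let χ : ContDiffBump (0:ℝ) := ⟨1, 3 / 2, by norm_num, by norm_num⟩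
  have hcs : HasCompactSupport (fun t => χ t * Real.arccos (t / 2)) :=
    χ.hasCompactSupport.mul_right
  have hcd : ContDiff ℝ ∞ (fun t => χ t * Real.arccos (t / 2)) := by
    rw [contDiff_iff_contDiffAt]
    intro t
    by_cases ht : |t| < 2
    · refine χ.contDiffAt.mul ?_
      have h1 := abs_lt.1 ht
      have h2 : ContDiffAt ℝ ∞ Real.arccos (t / 2) :=
        Real.contDiffAt_arccos (by linarith) (by linarith)
      exact ContDiffAt.comp (g := Real.arccos) (f := fun t : ℝ => t / 2) t h2 (by fun_prop)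
    · have h2 : (fun t => χ t * Real.arccos (t / 2)) =ᶠ[𝓝 t] fun _ => 0 := by
        have h1 : ∀ᶠ s in 𝓝 t, 3 / 2 < |s| :=
          continuous_abs.continuousAt.eventually (lt_mem_nhds (by
            push Not at ht
            linarith))
        filter_upwards [h1] with s hs
        rw [χ.zero_of_le_dist (by
          rw [dist_zero_right, Real.norm_eq_abs]
          exact hs.le), zero_mul]
      exact contDiffAt_const.congr_of_eventuallyEq h2
  have h1 : ∀ k : ℕ, ∃ C : ℝ, ∀ t, ‖iteratedFDeriv ℝ k (fun t => χ t * Real.arccos (t / 2)) t‖ ≤ C :=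
    fun k => (hcd.continuous_iteratedFDeriv (by exact_mod_cast le_top)
      ).bounded_above_of_compact_support (hcs.iteratedFDeriv k)
  choose C hC using h1
  refine ⟨fun t => χ t * Real.arccos (t / 2), fun k => max (C k) 0, hcd, fun k => le_max_right _ _,
    fun k t => (hC k t).trans (le_max_left _ _), fun t ht => ?_⟩
  have h2 := abs_le.1 ht
  simp only
  rw [χ.one_of_mem_closedBall (by
    rw [Metric.mem_closedBall, dist_zero_right, Real.norm_eq_abs]
    exact ht), one_mul, Real.cos_arccos (by linarith) (by linarith)]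

/-- The derivatives of a composition. -/
lemma comp_bound {A : ℝ → ℝ} {a : ℕ → ℝ} (hA : ContDiff ℝ ∞ A) (ha0 : ∀ k, 0 ≤ a k)
    (ha : ∀ k t, ‖iteratedFDeriv ℝ k A t‖ ≤ a k) {β : ℕ → ℝ} (hβ : ∀ k, 0 ≤ β k) {u : E n → ℝ}
    (hu : ContDiff ℝ ∞ u) {T : ℝ} (hT : 1 ≤ T)
    (hub : ∀ k, 1 ≤ k → ∀ x, ‖iteratedFDeriv ℝ k u x‖ ≤ β k * T ^ k) (j : ℕ) (x : E n) :
    ‖iteratedFDeriv ℝ j (fun x => A (u x)) x‖ ≤ (j.factorial * (∑ k ∈ Finset.range (j + 1), a k) *
      (1 + ∑ k ∈ Finset.range (j + 1), β k) ^ j) * T ^ j := by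
  have hT0 : 0 < T := by linarith
  have hs0 : 0 ≤ ∑ k ∈ Finset.range (j + 1), β k := Finset.sum_nonneg fun k _ => hβ k
  have h1 := norm_iteratedFDeriv_comp_le (N := ∞) hA hu (n := j) (by exact_mod_cast le_top) x
    (C := ∑ k ∈ Finset.range (j + 1), a k) (D := (1 + ∑ k ∈ Finset.range (j + 1), β k) * T)
    (fun i hi => (ha i _).trans (Finset.single_le_sum (f := a) (fun k _ => ha0 k)
      (Finset.mem_range.2 (Nat.lt_succ_of_le hi)))) (fun i hi1 hi2 => by
      refine (hub i hi1 x).trans ?_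
      rw [mul_pow]
      gcongr
      calc β i ≤ ∑ k ∈ Finset.range (j + 1), β k := Finset.single_le_sum (f := β)
            (fun k _ => hβ k) (Finset.mem_range.2 (Nat.lt_succ_of_le hi2))
        _ ≤ 1 + ∑ k ∈ Finset.range (j + 1), β k := by linarith
        _ ≤ (1 + ∑ k ∈ Finset.range (j + 1), β k) ^ i :=
            le_self_pow₀ (by linarith) (by omega))
  rw [mul_pow, ← mul_assoc] at h1
  exact h1

/-- Four densities. -/
lemma extn_four {f1 f2 f3 f4 : E n → ℂ} (m1 : Measurable f1) (m2 : Measurable f2)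
    (m3 : Measurable f3) (m4 : Measurable f4) (b1 : ∀ x, ‖f1 x‖ ≤ 1) (b2 : ∀ x, ‖f2 x‖ ≤ 1)
    (b3 : ∀ x, ‖f3 x‖ ≤ 1) (b4 : ∀ x, ‖f4 x‖ ≤ 1) (ξ : E n) :
    extn (fun x => f1 x + f2 x + Complex.I * (f3 x + f4 x)) ξ =
      extn f1 ξ + extn f2 ξ + Complex.I * (extn f3 ξ + extn f4 ξ) := by
  have i1 := Pool.Agent.VAN.j_int (B := 1) m1 b1 ξ
  have i2 := Pool.Agent.VAN.j_int (B := 1) m2 b2 ξ
  have i3 := Pool.Agent.VAN.j_int (B := 1) m3 b3 ξ
  have i4 := Pool.Agent.VAN.j_int (B := 1) m4 b4 ξ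
  obtain ⟨e, he⟩ : ∃ e : S n → ℂ, ∀ x : S n,
    e x = Complex.exp (((-(2 * π * inner ℝ (x : E n) ξ) : ℝ) : ℂ) * Complex.I) := ⟨_, fun _ => rfl⟩
  simp only [← he] at i1 i2 i3 i4
  unfold extn
  simp only [← he]
  have i12 : Integrable (fun x : S n => f1 x * e x + f2 x * e x) (sm n) := i1.add i2
  have i34 : Integrable (fun x : S n => f3 x * e x + f4 x * e x) (sm n) := i3.add i4
  have i34' : Integrable (fun x : S n => Complex.I * (f3 x * e x + f4 x * e x)) (sm n) :=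
    i34.const_mul _
  rw [← integral_add i3 i4, ← integral_const_mul, ← integral_add i1 i2, ← integral_add i12 i34']
  refine integral_congr_ae (Eventually.of_forall fun x => ?_)
  simp only
  ring

/-- The phases of the four densities. -/
noncomputable def th (A : ℝ → ℝ) (G : E n → ℂ) (i : Fin 4) (x : E n) : ℝ :=
  match i with
  | 0 => A (G x).re
  | 1 => -A (G x).re
  | 2 => A (G x).im
  | 3 => -A (G x).im

lemma th_smooth {A : ℝ → ℝ} {a : ℕ → ℝ} (hA : ContDiff ℝ ∞ A) (ha0 : ∀ k, 0 ≤ a k)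
    (ha : ∀ k t, ‖iteratedFDeriv ℝ k A t‖ ≤ a k) {β : ℕ → ℝ} (hβ : ∀ k, 0 ≤ β k) {G : E n → ℂ}
    (hG : ContDiff ℝ ∞ G) {T : ℝ} (hT : 1 ≤ T)
    (hub : ∀ k, 1 ≤ k → ∀ x, ‖iteratedFDeriv ℝ k G x‖ ≤ β k * T ^ k) (i : Fin 4) :
    ContDiff ℝ ∞ (th A G i) ∧ ∀ (j : ℕ) (x : E n), ‖iteratedFDeriv ℝ j (th A G i) x‖ ≤
      (j.factorial * (∑ k ∈ Finset.range (j + 1), a k) *
        (1 + ∑ k ∈ Finset.range (j + 1), β k) ^ j) * T ^ j := by
  have hre : ContDiff ℝ ∞ (fun x => (G x).re) := Complex.reCLM.contDiff.comp hG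
  have him : ContDiff ℝ ∞ (fun x => (G x).im) := Complex.imCLM.contDiff.comp hG
  have hreb : ∀ k, 1 ≤ k → ∀ x, ‖iteratedFDeriv ℝ k (fun x => (G x).re) x‖ ≤ β k * T ^ k := by
    intro k hk x
    have h1 := Complex.reCLM.norm_iteratedFDeriv_comp_left (N := ∞) (n := k) (x := x)
      hG.contDiffAt (by exact_mod_cast le_top)
    rw [Complex.reCLM_norm, one_mul] at h1
    exact h1.trans (hub k hk x)
  have himb : ∀ k, 1 ≤ k → ∀ x, ‖iteratedFDeriv ℝ k (fun x => (G x).im) x‖ ≤ β k * T ^ k := by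
    intro k hk x
    have h1 := Complex.imCLM.norm_iteratedFDeriv_comp_left (N := ∞) (n := k) (x := x)
      hG.contDiffAt (by exact_mod_cast le_top)
    rw [Complex.imCLM_norm, one_mul] at h1
    exact h1.trans (hub k hk x)
  have c1 := fun j x => comp_bound hA ha0 ha hβ hre hT hreb j x
  have c2 := fun j x => comp_bound hA ha0 ha hβ him hT himb j x
  match i with
  | 0 => exact ⟨hA.comp hre, c1⟩
  | 1 =>
    refine ⟨(hA.comp hre).neg, fun j x => ?_⟩
    have h1 : th A G 1 = -fun x => A (G x).re := rfl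
    rw [h1, iteratedFDeriv_neg_apply, norm_neg]
    exact c1 j x
  | 2 => exact ⟨hA.comp him, c2⟩
  | 3 =>
    refine ⟨(hA.comp him).neg, fun j x => ?_⟩
    have h1 : th A G 3 = -fun x => A (G x).im := rfl
    rw [h1, iteratedFDeriv_neg_apply, norm_neg]
    exact c2 j x

lemma th_sum {A : ℝ → ℝ} (hA : ∀ t, |t| ≤ 1 → Real.cos (A t) = t / 2) {G : E n → ℂ} {x : E n}
    (hx : ‖G x‖ ≤ 1) : G x = Complex.exp ((th A G 0 x : ℂ) * Complex.I) +
      Complex.exp ((th A G 1 x : ℂ) * Complex.I) + Complex.I *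
      (Complex.exp ((th A G 2 x : ℂ) * Complex.I) + Complex.exp ((th A G 3 x : ℂ) * Complex.I)) := by
  have key : ∀ t : ℝ, |t| ≤ 1 → Complex.exp ((A t : ℂ) * Complex.I) +
      Complex.exp (((-A t : ℝ) : ℂ) * Complex.I) = t := by
    intro t ht
    have h1 := Complex.two_cos (A t : ℂ)
    rw [Complex.ofReal_neg]
    rw [← h1, ← Complex.ofReal_cos, hA t ht]
    push_cast
    ring
  have h1 := key (G x).re ((Complex.abs_re_le_norm _).trans hx)
  have h2 := key (G x).im ((Complex.abs_im_le_norm _).trans hx)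
  show G x = Complex.exp ((A (G x).re : ℂ) * Complex.I) +
      Complex.exp (((-A (G x).re : ℝ) : ℂ) * Complex.I) + Complex.I *
      (Complex.exp ((A (G x).im : ℂ) * Complex.I) +
        Complex.exp (((-A (G x).im : ℝ) : ℂ) * Complex.I))
  rw [h1, h2, mul_comm]
  exact (Complex.re_add_im _).symm

end Pool.Agent.VANn.DMB

namespace Pool.Agent.VANn.DM

open MeasureTheory Set Filter Topology Pool.Agent.MP_6cbfb8_an Pool.Agent.VANn.DMB
open scoped ENNReal Real ContDiff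

/-- **A bad density gives a bad smooth phase with polynomial bounds.** -/
theorem bad_phase {n : ℕ} (hn : 2 ≤ n) {p : ℝ} (hp : 1 ≤ p) : ∃ (N : ℕ) (B : ℕ → ℝ) (K : ℝ≥0∞),
    1 ≤ N ∧ K ≠ ⊤ ∧ ∀ (R : ℝ), 1 ≤ R → ∀ g : E n → ℂ, Measurable g → (∀ x, ‖g x‖ ≤ 1) →
      ∃ θ : E n → ℝ, ContDiff ℝ ∞ θ ∧ (∀ j x, ‖iteratedFDeriv ℝ j θ x‖ ≤ B j * R ^ (N * j)) ∧
        ∫⁻ ξ in Metric.ball 0 R, ‖extn g ξ‖ₑ ^ p ≤ K * (1 + ∫⁻ ξ in Metric.ball 0 R,
          ‖extn (fun x => Complex.exp ((θ x : ℂ) * Complex.I)) ξ‖ₑ ^ p) := by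
  obtain ⟨c, hc, hmass⟩ := exists_mass (n := n) (by omega)
  obtain ⟨κ, hκ0, hκ⟩ := kb_bound
  obtain ⟨A, a, hA, ha0, ha, hAc⟩ := exists_arccos
  obtain ⟨σ, hσ⟩ : ∃ σ, σ = (sm n).real univ := ⟨_, rfl⟩
  have hσ0 : 0 ≤ σ := by rw [hσ]; exact measureReal_nonneg
  obtain ⟨β, hβ⟩ : ∃ β : ℕ → ℝ, ∀ k, β k = c⁻¹ * κ k * σ := ⟨_, fun _ => rfl⟩
  have hβ0 : ∀ k, 0 ≤ β k := fun k => by
    rw [hβ]
    exact mul_nonneg (mul_nonneg (inv_nonneg.2 hc.le) (hκ0 k)) hσ0
  obtain ⟨V, hV⟩ : ∃ V, V = (volume : Measure (E n)) (Metric.ball 0 1) := ⟨_, rfl⟩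
  have hVt : V ≠ ⊤ := by rw [hV]; exact measure_ball_lt_top.ne
  obtain ⟨K0, hK0⟩ : ∃ K0, K0 = ENNReal.ofReal ((4 * π * σ) ^ p) * V := ⟨_, rfl⟩
  have hK0t : K0 ≠ ⊤ := by rw [hK0]; exact ENNReal.mul_ne_top ENNReal.ofReal_ne_top hVt
  refine ⟨(n + 1) * (n + 2), fun j => j.factorial * (∑ k ∈ Finset.range (j + 1), a k) *
        (1 + ∑ k ∈ Finset.range (j + 1), β k) ^ j, 5 ^ p * (K0 + 4), Nat.mul_pos (by omega) (by omega),
    ENNReal.mul_ne_top (ENNReal.rpow_ne_top_of_nonneg (by linarith) (by norm_num))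
      (ENNReal.add_ne_top.2 ⟨hK0t, by norm_num⟩), fun R hR g hg hgb => ?_⟩
  obtain ⟨r, hr⟩ : ∃ r : ℝ, r = R ^ (n + 1) := ⟨_, rfl⟩
  have hr1 : 1 ≤ r := by rw [hr]; exact one_le_pow₀ hR
  have hr0 : 0 < r := by linarith
  have hR0 : 0 < R := by linarith
  obtain ⟨Z, hZc, hZ1, hZ2⟩ := hmass r⁻¹ (by positivity) (inv_le_one_of_one_le₀ hr1)
  have hZ0 : 0 < Z := lt_of_lt_of_le (by positivity) hZc
  obtain ⟨w, hw⟩ : ∃ w, w = ((r⁻¹) ^ 2)⁻¹ := ⟨_, rfl⟩
  have hwr : w = r ^ 2 := by rw [hw, inv_pow, inv_inv]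
  rw [← hw] at hZ1 hZ2
  obtain ⟨hGs, hGb⟩ := reg_smooth hκ w Z hg hgb
  have hG1 : ∀ x : E n, ‖x‖ = 1 → ‖reg w Z g x‖ ≤ 1 := fun x hx => norm_reg_le hZ0 hgb (hZ1 x hx)
  have hZi : |Z⁻¹| ≤ c⁻¹ * r ^ n := by
    rw [abs_of_pos (inv_pos.2 hZ0)]
    have h1 : Z⁻¹ ≤ (c * (r⁻¹) ^ n)⁻¹ := inv_anti₀ (by positivity) hZc
    rw [mul_inv, inv_pow, inv_inv] at h1
    exact h1
  have hub : ∀ k, 1 ≤ k → ∀ x, ‖iteratedFDeriv ℝ k (reg w Z g) x‖ ≤
      β k * (R ^ ((n + 1) * (n + 2))) ^ k := by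
    intro k hk x
    refine (hGb k x).trans ?_
    rw [← hσ, hβ, hwr, abs_of_pos (by positivity : (0:ℝ) < r ^ 2)]
    have h1 : r ^ n * (r ^ 2) ^ k ≤ (R ^ ((n + 1) * (n + 2))) ^ k := by
      rw [pow_mul, ← hr, ← pow_mul, ← pow_mul, ← pow_add]
      refine pow_le_pow_right₀ hr1 ?_
      have := Nat.le_mul_of_pos_right n hk
      nlinarith
    calc |Z⁻¹| * ((r ^ 2) ^ k * κ k) * σ ≤ (c⁻¹ * r ^ n) * ((r ^ 2) ^ k * κ k) * σ := by
          have := hκ0 k
          gcongr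
      _ = c⁻¹ * κ k * σ * (r ^ n * (r ^ 2) ^ k) := by ring
      _ ≤ c⁻¹ * κ k * σ * (R ^ ((n + 1) * (n + 2))) ^ k := by
          have := hκ0 k
          gcongr
  have hT : 1 ≤ R ^ ((n + 1) * (n + 2)) := one_le_pow₀ hR
  have hth := fun i => th_smooth hA ha0 ha hβ0 hGs hT hub i
  -- the four integrals
  obtain ⟨I, hI⟩ : ∃ I : Fin 4 → ℝ≥0∞, ∀ i, I i = ∫⁻ ξ in Metric.ball 0 R,
    ‖extn (fun x => Complex.exp ((th A (reg w Z g) i x : ℂ) * Complex.I)) ξ‖ₑ ^ p :=
    ⟨_, fun _ => rfl⟩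
  obtain ⟨m, -, hm⟩ := Finset.exists_max_image (Finset.univ : Finset (Fin 4)) I ⟨0, Finset.mem_univ _⟩
  refine ⟨th A (reg w Z g) m, (hth m).1, fun j x => ?_, ?_⟩
  · rw [pow_mul]
    exact (hth m).2 j x
  rw [← hI]
  have hmes : ∀ i, Measurable fun x => Complex.exp ((th A (reg w Z g) i x : ℂ) * Complex.I) :=
    fun i => Pool.Agent.VAN.J.measurable_phase (hth i).1.continuous.measurable
  have hnor : ∀ i x, ‖Complex.exp ((th A (reg w Z g) i x : ℂ) * Complex.I)‖ ≤ 1 := fun i x =>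
    (Complex.norm_exp_ofReal_mul_I _).le
  -- the pointwise bound
  have hpt : ∀ ξ ∈ Metric.ball (0 : E n) R, ‖extn g ξ‖ₑ ^ p ≤ 5 ^ p *
      (ENNReal.ofReal ((4 * π * σ * (R * r⁻¹)) ^ p) + ∑ i : Fin 4,
        ‖extn (fun x => Complex.exp ((th A (reg w Z g) i x : ℂ) * Complex.I)) ξ‖ₑ ^ p) := by
    intro ξ hξ
    have hξR : ‖ξ‖ ≤ R := by
      rw [mem_ball_zero_iff] at hξ
      exact hξ.le
    have h1 := reg_error hZ0 hZ1 hZ2 hg hgb ξ
    have h2 : extn (reg w Z g) ξ =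
        extn (fun x => Complex.exp ((th A (reg w Z g) 0 x : ℂ) * Complex.I)) ξ +
        extn (fun x => Complex.exp ((th A (reg w Z g) 1 x : ℂ) * Complex.I)) ξ + Complex.I *
        (extn (fun x => Complex.exp ((th A (reg w Z g) 2 x : ℂ) * Complex.I)) ξ +
        extn (fun x => Complex.exp ((th A (reg w Z g) 3 x : ℂ) * Complex.I)) ξ) := by
      rw [← extn_four (hmes 0) (hmes 1) (hmes 2) (hmes 3) (hnor 0) (hnor 1) (hnor 2) (hnor 3)]
      unfold extn
      refine integral_congr_ae (Eventually.of_forall fun x => ?_)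
      simp only
      rw [← th_sum hAc (hG1 x (by simp))]
    have h3 : ‖extn g ξ‖ₑ ≤ ENNReal.ofReal (4 * π * σ * (R * r⁻¹)) + ∑ i : Fin 4,
        ‖extn (fun x => Complex.exp ((th A (reg w Z g) i x : ℂ) * Complex.I)) ξ‖ₑ := by
      have h4 : extn g ξ = (extn g ξ - extn (reg w Z g) ξ) + extn (reg w Z g) ξ := by ring
      rw [h4]
      refine (enorm_add_le _ _).trans (add_le_add ?_ ?_)
      · rw [← ofReal_norm]
        refine ENNReal.ofReal_le_ofReal (h1.trans ?_)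
        rw [← hσ]
        calc 4 * π * ‖ξ‖ * r⁻¹ * σ ≤ 4 * π * R * r⁻¹ * σ := by gcongr
          _ = _ := by ring
      · rw [h2, Fin.sum_univ_four]
        refine (enorm_add_le _ _).trans ?_
        rw [enorm_mul, show ‖Complex.I‖ₑ = 1 by simp [enorm], one_mul, add_assoc (_ + _)]
        exact add_le_add (enorm_add_le _ _) (enorm_add_le _ _)
    have h5 := sum_rpow_le (Finset.univ : Finset (Option (Fin 4)))
      (fun o => o.elim (ENNReal.ofReal (4 * π * σ * (R * r⁻¹))) fun i =>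
        ‖extn (fun x => Complex.exp ((th A (reg w Z g) i x : ℂ) * Complex.I)) ξ‖ₑ)
      (p := p) (by linarith)
    simp only [Fintype.sum_option, Option.elim_none, Option.elim_some, Finset.card_univ,
      Fintype.card_option, Fintype.card_fin] at h5
    refine (ENNReal.rpow_le_rpow h3 (by linarith)).trans (h5.trans (le_of_eq ?_))
    rw [ENNReal.ofReal_rpow_of_nonneg (by positivity) (by linarith)]
    norm_num
  have hball : (volume : Measure (E n)) (Metric.ball 0 R) = ENNReal.ofReal (R ^ n) * V := by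
    rw [Measure.addHaar_ball_of_pos _ _ hR0, finrank_euclideanSpace_fin, hV]
  have hmeas2 : ∀ i : Fin 4, Measurable fun ξ =>
      ‖extn (fun x => Complex.exp ((th A (reg w Z g) i x : ℂ) * Complex.I)) ξ‖ₑ ^ p :=
    fun i => Pool.Agent.VAN.AN.measurable_norm_extn (hmes i)
  calc ∫⁻ ξ in Metric.ball 0 R, ‖extn g ξ‖ₑ ^ p ≤ ∫⁻ ξ in Metric.ball 0 R, 5 ^ p *
      (ENNReal.ofReal ((4 * π * σ * (R * r⁻¹)) ^ p) + ∑ i : Fin 4,
        ‖extn (fun x => Complex.exp ((th A (reg w Z g) i x : ℂ) * Complex.I)) ξ‖ₑ ^ p) :=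
        setLIntegral_mono' Metric.isOpen_ball.measurableSet hpt
    _ = 5 ^ p * (ENNReal.ofReal ((4 * π * σ * (R * r⁻¹)) ^ p) * (ENNReal.ofReal (R ^ n) * V) +
        ∑ i : Fin 4, I i) := by
        have hs : Measurable fun ξ : E n => ∑ i : Fin 4,
            ‖extn (fun x => Complex.exp ((th A (reg w Z g) i x : ℂ) * Complex.I)) ξ‖ₑ ^ p :=
          Finset.measurable_fun_sum _ fun i _ => hmeas2 i
        have hs' : Measurable fun ξ : E n => ENNReal.ofReal ((4 * π * σ * (R * r⁻¹)) ^ p) +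
            ∑ i : Fin 4,
              ‖extn (fun x => Complex.exp ((th A (reg w Z g) i x : ℂ) * Complex.I)) ξ‖ₑ ^ p :=
          measurable_const.add hs
        rw [lintegral_const_mul _ hs', lintegral_add_left measurable_const,
          lintegral_const, Measure.restrict_apply MeasurableSet.univ, univ_inter, hball,
          lintegral_finsetSum _ fun i _ => hmeas2 i]
        simp only [hI]
    _ ≤ 5 ^ p * (K0 + 4 * I m) := by
        gcongr
        · rw [hK0, ← mul_assoc, ← ENNReal.ofReal_mul (by positivity)]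
          gcongr
          rw [Real.mul_rpow (by positivity) (by positivity), mul_assoc]
          refine mul_le_of_le_one_right (by positivity) ?_
          have h1 : (R * r⁻¹ : ℝ) ^ p ≤ (R * r⁻¹) ^ (1:ℝ) := by
            refine Real.rpow_le_rpow_of_exponent_ge (by positivity) ?_ hp
            rw [← div_eq_mul_inv, div_le_one hr0, hr]
            exact le_self_pow₀ hR (by omega)
          rw [Real.rpow_one] at h1
          calc (R * r⁻¹ : ℝ) ^ p * R ^ n ≤ (R * r⁻¹) * R ^ n := by gcongr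
            _ = (R ^ (n + 1)) * r⁻¹ := by ring
            _ = 1 := by rw [← hr, mul_inv_cancel₀ hr0.ne']
        · calc ∑ i : Fin 4, I i ≤ ∑ _i : Fin 4, I m := Finset.sum_le_sum fun i _ => hm i (Finset.mem_univ _)
            _ = 4 * I m := by simp
    _ ≤ 5 ^ p * (K0 + 4) * (1 + I m) := by
        rw [mul_assoc]
        gcongr
        rw [mul_add, mul_one, add_mul]
        calc K0 + 4 * I m ≤ (K0 + 4) + (K0 * I m + 4 * I m) := by
              gcongr
              · exact le_self_add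
              · exact le_add_self
          _ = _ := rfl

end Pool.Agent.VANn.DM
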