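import Pool.Agent.VAN.AN4

/-!
A lower bound for the measure of a cap, and smooth functions given by integrals over the sphere.
-/

set_option autoImplicit false

namespace Pool.Agent.VANn.DMB

open MeasureTheory Set Filter Topology Pool.Agent.MP_6cbfb8_an
open scoped ENNReal Real ContDiff Pointwise

variable {n : ℕ}

/-- The measure of a cap. -/
theorem cap_lower (hn : 1 ≤ n) : ∃ c : ℝ, 0 < c ∧ ∀ e : E n, ‖e‖ = 1 → ∀ ρ : ℝ, 0 < ρ → ρ ≤ 1 →
    c * ρ ^ n ≤ (sm n).real {x : S n | ‖(x : E n) - e‖ < ρ} := by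
  have hV : 0 < (volume : Measure (E n)).real (Metric.ball 0 1) := by
    rw [Measure.real, ENNReal.toReal_pos_iff]
    exact ⟨Metric.measure_ball_pos _ _ one_pos, measure_ball_lt_top⟩
  have hn0 : (0:ℝ) < n := by exact_mod_cast hn
  refine ⟨n * ((1 / 8) ^ n * (volume : Measure (E n)).real (Metric.ball 0 1)), by positivity,
    fun e he ρ hρ hρ1 => ?_⟩
  have hms : MeasurableSet {x : S n | ‖(x : E n) - e‖ < ρ} :=
    (isOpen_lt (by fun_prop) continuous_const).measurableSet
  have h1 : Metric.ball ((3 / 4 : ℝ) • e) (ρ / 8) ⊆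
      Ioo (0 : ℝ) 1 • ((↑) '' {x : S n | ‖(x : E n) - e‖ < ρ} : Set (E n)) := by
    intro y hy
    rw [Metric.mem_ball, dist_eq_norm] at hy
    have h2 : ‖(3 / 4 : ℝ) • e‖ = 3 / 4 := by
      rw [norm_smul, he, mul_one, Real.norm_of_nonneg (by norm_num)]
    have h3 : ‖y‖ < 1 := by
      have := norm_le_norm_add_norm_sub' y ((3 / 4 : ℝ) • e)
      rw [h2] at this
      linarith
    have h4 : 5 / 8 < ‖y‖ := by
      have := norm_sub_norm_le ((3 / 4 : ℝ) • e) y
      rw [h2, norm_sub_rev] at this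
      linarith
    have h5 : ‖y‖ ≠ 0 := by
      intro h
      rw [h] at h4
      norm_num at h4
    have hyn : ‖‖y‖⁻¹ • y‖ = 1 := by
      rw [norm_smul, norm_inv, norm_norm, inv_mul_cancel₀ h5]
    rw [Set.mem_smul]
    refine ⟨‖y‖, ⟨by linarith, h3⟩, ‖y‖⁻¹ • y, ⟨⟨‖y‖⁻¹ • y, by simpa using hyn⟩, ?_, rfl⟩, ?_⟩
    · show ‖‖y‖⁻¹ • y - e‖ < ρ
      have h6 : ‖y‖⁻¹ • y - e = (‖y‖⁻¹ - 4 / 3) • y + (4 / 3 : ℝ) • (y - (3 / 4 : ℝ) • e) := by
        rw [sub_smul, smul_sub, smul_smul]
        norm_num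
      have h7 : ‖(‖y‖⁻¹ - 4 / 3) • y‖ = 4 / 3 * |3 / 4 - ‖y‖| := by
        rw [norm_smul, Real.norm_eq_abs]
        nth_rewrite 2 [← abs_of_nonneg (norm_nonneg y)]
        rw [← abs_mul, sub_mul, inv_mul_cancel₀ h5]
        rw [show (1 : ℝ) - 4 / 3 * ‖y‖ = 4 / 3 * (3 / 4 - ‖y‖) by ring, abs_mul]
        norm_num
      have h8 : |3 / 4 - ‖y‖| ≤ ‖y - (3 / 4 : ℝ) • e‖ := by
        have := abs_norm_sub_norm_le ((3 / 4 : ℝ) • e) y
        rw [h2, norm_sub_rev] at this
        exact this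
      calc ‖‖y‖⁻¹ • y - e‖ ≤ ‖(‖y‖⁻¹ - 4 / 3) • y‖ + ‖(4 / 3 : ℝ) • (y - (3 / 4 : ℝ) • e)‖ := by
            rw [h6]; exact norm_add_le _ _
        _ ≤ 4 / 3 * (ρ / 8) + 4 / 3 * (ρ / 8) := by
            rw [h7, norm_smul, Real.norm_of_nonneg (by norm_num : (0:ℝ) ≤ 4 / 3)]
            have := h8.trans hy.le
            nlinarith
        _ < ρ := by linarith
    · rw [smul_smul, mul_inv_cancel₀ h5, one_smul]
  have h2 : ENNReal.ofReal (n * ((1 / 8) ^ n * (volume : Measure (E n)).real (Metric.ball 0 1)) *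
      ρ ^ n) ≤ sm n {x : S n | ‖(x : E n) - e‖ < ρ} := by
    rw [Measure.toSphere_apply' _ hms]
    refine le_trans ?_ (mul_le_mul_right (measure_mono h1) _)
    rw [Measure.addHaar_ball_of_pos _ _ (by positivity), finrank_euclideanSpace_fin]
    rw [show (n * ((1 / 8) ^ n * (volume : Measure (E n)).real (Metric.ball 0 1)) * ρ ^ n : ℝ) =
      n * ((ρ / 8) ^ n * (volume : Measure (E n)).real (Metric.ball 0 1)) by ring]
    rw [ENNReal.ofReal_mul (by positivity), ENNReal.ofReal_natCast, ENNReal.ofReal_mul (by positivity),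
      Measure.real, ENNReal.ofReal_toReal measure_ball_lt_top.ne]
  rw [Measure.real]
  exact (ENNReal.ofReal_le_iff_le_toReal (measure_ne_top _ _)).1 h2

lemma ker_meas {μ : Measure (S n)} {V : Type} [NormedAddCommGroup V] [NormedSpace ℝ V]
    {h : S n → V} (hm : AEStronglyMeasurable h μ) {h' : S n → (E n →L[ℝ] V)}
    (hh' : ∀ y, h' y = (innerSL ℝ (y : E n)).smulRight (h y)) : AEStronglyMeasurable h' μ := by
  have h1 : Continuous fun q : E n × V => (innerSL ℝ q.1).smulRight q.2 := by fun_prop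
  have h2 : AEStronglyMeasurable (fun y : S n => ((y : E n), h y)) μ :=
    (continuous_subtype_val.aestronglyMeasurable).prodMk hm
  have h3 := h1.comp_aestronglyMeasurable h2
  refine h3.congr (Eventually.of_forall fun y => ?_)
  rw [hh']

/-- Integrals over the sphere of functions of the inner product. -/
theorem ker_smooth {μ : Measure (S n)} [IsFiniteMeasure μ] (j : ℕ) :
    ∀ (V : Type) [NormedAddCommGroup V] [NormedSpace ℝ V] [CompleteSpace V] (F : ℝ → ℝ),
      ContDiff ℝ ∞ F → ∀ b : ℕ → ℝ, (∀ k t, |iteratedDeriv k F t| ≤ b k) →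
      ∀ (h : S n → V) (M : ℝ), AEStronglyMeasurable h μ → (∀ y, ‖h y‖ ≤ M) →
      ContDiff ℝ j (fun x : E n => ∫ y : S n, F (inner ℝ x (y : E n)) • h y ∂μ) ∧
      ∀ x : E n, ‖iteratedFDeriv ℝ j (fun x : E n => ∫ y : S n, F (inner ℝ x (y : E n)) • h y ∂μ) x‖ ≤
        b j * M * μ.real univ := by
  have hcy : ∀ x : E n, Continuous fun y : S n => inner ℝ x (y : E n) := fun x => by fun_prop
  have hint : ∀ (V : Type) [NormedAddCommGroup V] [NormedSpace ℝ V] (F : ℝ → ℝ),
      ContDiff ℝ ∞ F → ∀ b : ℝ, (∀ t, |F t| ≤ b) → ∀ (h : S n → V) (M : ℝ),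
      AEStronglyMeasurable h μ → (∀ y, ‖h y‖ ≤ M) → ∀ x : E n,
      AEStronglyMeasurable (fun y : S n => F (inner ℝ x (y : E n)) • h y) μ ∧
      (∀ y : S n, ‖F (inner ℝ x (y : E n)) • h y‖ ≤ b * M) := by
    intro V _ _ F hF b hb h M hm hM x
    refine ⟨((hF.continuous.comp (hcy x)).aestronglyMeasurable).smul hm, fun y => ?_⟩
    rw [norm_smul, Real.norm_eq_abs]
    exact mul_le_mul (hb _) (hM y) (norm_nonneg _) ((abs_nonneg _).trans (hb 0))
  induction j with
  | zero =>
    intro V _ _ _ F hF b hb h M hm hM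
    have hb0 : ∀ t, |F t| ≤ b 0 := fun t => by simpa using hb 0 t
    constructor
    · rw [Nat.cast_zero, contDiff_zero]
      refine continuous_of_dominated (bound := fun _ => b 0 * M)
        (fun x => (hint V F hF (b 0) hb0 h M hm hM x).1)
        (fun x => Eventually.of_forall (hint V F hF (b 0) hb0 h M hm hM x).2)
        (integrable_const _) (Eventually.of_forall fun y => ?_)
      exact (hF.continuous.comp (by fun_prop)).smul continuous_const
    · intro x
      rw [norm_iteratedFDeriv_zero]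
      exact norm_integral_le_of_norm_le_const
        (Eventually.of_forall (hint V F hF (b 0) hb0 h M hm hM x).2)
  | succ j ih =>
    intro V _ _ _ F hF b hb h M hm hM
    have hb0 : ∀ t, |F t| ≤ b 0 := fun t => by simpa using hb 0 t
    have hF' : ContDiff ℝ ∞ (deriv F) := (contDiff_infty_iff_deriv.1 hF).2
    have hb' : ∀ k t, |iteratedDeriv k (deriv F) t| ≤ b (k + 1) := fun k t => by
      rw [← iteratedDeriv_succ']
      exact hb (k + 1) t
    have hb1 : ∀ t, |deriv F t| ≤ b 1 := fun t => by simpa using hb' 0 t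
    have hM0 : ∀ y : S n, 0 ≤ M := fun y => (norm_nonneg _).trans (hM y)
    obtain ⟨h', hh'⟩ : ∃ h' : S n → (E n →L[ℝ] V),
      ∀ y, h' y = (innerSL ℝ (y : E n)).smulRight (h y) := ⟨_, fun _ => rfl⟩
    have hm' : AEStronglyMeasurable h' μ := ker_meas hm hh'
    have hM' : ∀ y, ‖h' y‖ ≤ M := by
      intro y
      rw [hh', ContinuousLinearMap.norm_smulRight_apply, innerSL_apply_norm]
      have : ‖(y : E n)‖ = 1 := by simp
      rw [this, one_mul]
      exact hM y
    have hder : ∀ x : E n, HasFDerivAt (fun x : E n => ∫ y : S n, F (inner ℝ x (y : E n)) • h y ∂μ)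
        (∫ y : S n, deriv F (inner ℝ x (y : E n)) • h' y ∂μ) x := by
      intro x
      refine hasFDerivAt_integral_of_dominated_of_fderiv_le (s := univ)
        (F' := fun (x : E n) (y : S n) => deriv F (inner ℝ x (y : E n)) • h' y)
        (bound := fun _ => b 1 * M) univ_mem
        (Eventually.of_forall fun x => (hint V F hF (b 0) hb0 h M hm hM x).1)
        ?_ (hint _ (deriv F) hF' (b 1) hb1 h' M hm' hM' x).1
        (Eventually.of_forall fun y x _ => (hint _ (deriv F) hF' (b 1) hb1 h' M hm' hM' x).2 y)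
        (integrable_const _) (Eventually.of_forall fun y x _ => ?_)
      · exact (integrable_const (b 0 * M)).mono' (hint V F hF (b 0) hb0 h M hm hM x).1
          (Eventually.of_forall (hint V F hF (b 0) hb0 h M hm hM x).2)
      · have h1 : HasFDerivAt (fun x : E n => inner ℝ x (y : E n)) (innerSL ℝ (y : E n)) x := by
          have h2 := (innerSL ℝ (y : E n)).hasFDerivAt (x := x)
          refine h2.congr_of_eventuallyEq (Eventually.of_forall fun z => ?_)
          rw [innerSL_apply_apply, real_inner_comm]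
        have h3 : HasDerivAt F (deriv F (inner ℝ x (y : E n))) (inner ℝ x (y : E n)) :=
          (hF.differentiable (by simp) _).hasDerivAt
        have h4 := (h3.comp_hasFDerivAt x h1).smul_const (h y)
        refine h4.congr_fderiv ?_
        ext v
        simp only [hh', ContinuousLinearMap.smulRight_apply, smul_apply,
          smul_smul, smul_eq_mul]
    have hfd : fderiv ℝ (fun x : E n => ∫ y : S n, F (inner ℝ x (y : E n)) • h y ∂μ) =
        fun x => ∫ y : S n, deriv F (inner ℝ x (y : E n)) • h' y ∂μ :=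
      funext fun x => (hder x).fderiv
    obtain ⟨h1, h2⟩ := ih (E n →L[ℝ] V) (deriv F) hF' (fun k => b (k + 1)) hb' h' M hm' hM'
    constructor
    · rw [Nat.cast_succ, contDiff_succ_iff_fderiv]
      refine ⟨fun x => (hder x).differentiableAt, fun h => absurd h (by simp), ?_⟩
      rw [hfd]
      exact h1
    · intro x
      rw [← norm_iteratedFDeriv_fderiv, hfd]
      exact h2 x

/-- Powers of finite sums. -/
lemma sum_rpow_le {ι : Type} (s : Finset ι) (a : ι → ℝ≥0∞) {p : ℝ} (hp : 0 < p) :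
    (∑ i ∈ s, a i) ^ p ≤ (s.card : ℝ≥0∞) ^ p * ∑ i ∈ s, a i ^ p := by
  rcases s.eq_empty_or_nonempty with rfl | hs
  · simp [hp]
  · obtain ⟨m, hm, hmax⟩ := s.exists_max_image a hs
    have h1 : ∑ i ∈ s, a i ≤ s.card * a m := by
      have := Finset.sum_le_card_nsmul s a (a m) hmax
      rwa [nsmul_eq_mul] at this
    calc (∑ i ∈ s, a i) ^ p ≤ (s.card * a m) ^ p := ENNReal.rpow_le_rpow h1 hp.le
      _ = (s.card : ℝ≥0∞) ^ p * a m ^ p := ENNReal.mul_rpow_of_nonneg _ _ hp.le
      _ ≤ (s.card : ℝ≥0∞) ^ p * ∑ i ∈ s, a i ^ p := by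
          gcongr
          exact Finset.single_le_sum (f := fun i => a i ^ p) (fun _ _ => bot_le) hm

end Pool.Agent.VANn.DMB
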