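import Pool.Agent.VANn.DIMB1

/-!
Zonal kernels: the regularization of a bounded density on the sphere at a small scale.
-/

set_option autoImplicit false

namespace Pool.Agent.VANn.DMB

open MeasureTheory Set Filter Topology Pool.Agent.MP_6cbfb8_an
open scoped ENNReal Real ContDiff Pointwise

variable {n : ℕ}

/-- A fixed bump. -/
noncomputable def kb : ContDiffBump (0 : ℝ) := ⟨1 / 2, 1, by norm_num, by norm_num⟩

lemma kb_bound : ∃ κ : ℕ → ℝ, (∀ k, 0 ≤ κ k) ∧ ∀ k t, |iteratedDeriv k kb t| ≤ κ k := by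
  have h1 : ∀ k : ℕ, ∃ C : ℝ, ∀ t, ‖iteratedFDeriv ℝ k kb t‖ ≤ C := fun k =>
    ((kb.contDiff (n := ⊤)).continuous_iteratedFDeriv (by exact_mod_cast le_top)
      ).bounded_above_of_compact_support (kb.hasCompactSupport.iteratedFDeriv k)
  choose C hC using h1
  refine ⟨fun k => max (C k) 0, fun k => le_max_right _ _, fun k t => ?_⟩
  rw [← Real.norm_eq_abs, ← norm_iteratedFDeriv_eq_norm_iteratedDeriv]
  exact (hC k t).trans (le_max_left _ _)

/-- The kernel. -/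
noncomputable def ker (w Z s : ℝ) : ℝ := Z⁻¹ * kb (w * s - w)

lemma ker_contDiff (w Z : ℝ) : ContDiff ℝ ∞ (ker w Z) := by
  unfold ker
  exact contDiff_const.mul (kb.contDiff.comp (by fun_prop))

lemma ker_deriv {κ : ℕ → ℝ} (hκ : ∀ k t, |iteratedDeriv k kb t| ≤ κ k) (w Z : ℝ) (k : ℕ)
    (t : ℝ) : |iteratedDeriv k (ker w Z) t| ≤ |Z⁻¹| * (|w| ^ k * κ k) := by
  have h1 : ContDiff ℝ k (fun s => kb (s - w)) :=
    ((kb.contDiff (n := ⊤)).comp (by fun_prop)).of_le (by exact_mod_cast le_top)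
  have h2 : iteratedDeriv k (ker w Z) t = Z⁻¹ * (w ^ k * iteratedDeriv k kb (w * t - w)) := by
    have e1 : ker w Z = fun s => Z⁻¹ * (fun s => (fun s => kb (s - w)) (w * s)) s := by
      funext s
      rfl
    rw [e1, iteratedDeriv_const_mul_field, iteratedDeriv_comp_const_mul h1]
    simp only [iteratedDeriv_comp_sub_const]
  rw [h2, abs_mul, abs_mul, abs_pow]
  gcongr
  exact hκ _ _

/-- Integrals of zonal functions. -/
lemma zonal (Φ : ℝ → ℝ) (hΦ : Continuous Φ) {x x' : E n} (hx : ‖x‖ = 1) (hx' : ‖x'‖ = 1) :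
    ∫ y : S n, Φ (inner ℝ x (y : E n)) ∂(sm n) = ∫ y : S n, Φ (inner ℝ x' (y : E n)) ∂(sm n) := by
  obtain ⟨U, hU⟩ : ∃ U : E n ≃ₗᵢ[ℝ] E n, U x = x' :=
    ⟨(Submodule.span ℝ {x - x'})ᗮ.reflection, Submodule.reflection_sub (by rw [hx, hx'])⟩
  have h1 := measurePreserving_isometry (n := n) U
  have hc : Continuous fun y : S n => Φ (inner ℝ x' (y : E n)) := hΦ.comp (by fun_prop)
  have h2 := integral_map (μ := sm n) h1.measurable.aemeasurable (f := fun y : S n =>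
    Φ (inner ℝ x' (y : E n))) hc.aestronglyMeasurable
  rw [h1.map_eq] at h2
  rw [h2]
  refine integral_congr_ae (Eventually.of_forall fun y => ?_)
  simp only
  rw [← hU, LinearIsometryEquiv.inner_map_map]

lemma inner_eq {x y : E n} (hx : ‖x‖ = 1) (hy : ‖y‖ = 1) :
    inner ℝ x y = 1 - ‖x - y‖ ^ 2 / 2 := by
  rw [norm_sub_sq_real, hx, hy]
  ring

lemma ker_nonneg (w : ℝ) {Z : ℝ} (hZ : 0 < Z) (s : ℝ) : 0 ≤ ker w Z s :=
  mul_nonneg (inv_nonneg.2 hZ.le) kb.nonneg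

/-- The kernels with mean one: `∫ ker w Z ⟨x, y⟩ dσ(y) = 1`, with `Z ≥ c ρ^n`, `w = ρ^(-2)`, and
supported in the points with `‖x - y‖ ≤ 2 ρ`. -/
theorem exists_mass (hn : 1 ≤ n) : ∃ c : ℝ, 0 < c ∧ ∀ ρ : ℝ, 0 < ρ → ρ ≤ 1 → ∃ Z : ℝ,
    c * ρ ^ n ≤ Z ∧ (∀ x : E n, ‖x‖ = 1 → ∫ y : S n, ker ((ρ ^ 2)⁻¹) Z (inner ℝ x (y : E n))
      ∂(sm n) = 1) ∧
    ∀ x y : E n, ‖x‖ = 1 → ‖y‖ = 1 → ker ((ρ ^ 2)⁻¹) Z (inner ℝ x y) ≠ 0 → ‖x - y‖ ≤ 2 * ρ := by
  obtain ⟨c, hc, hcap⟩ := cap_lower hn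
  obtain ⟨e, he⟩ : ∃ e : E n, ‖e‖ = 1 := by
    obtain ⟨m, rfl⟩ : ∃ m, n = m + 1 := ⟨n - 1, by omega⟩
    exact ⟨EuclideanSpace.single 0 1, by simp⟩
  refine ⟨c, hc, fun ρ hρ hρ1 => ?_⟩
  obtain ⟨w, hw⟩ : ∃ w, w = (ρ ^ 2)⁻¹ := ⟨_, rfl⟩
  have hw0 : 0 < w := by rw [hw]; positivity
  have hwρ : w * ρ ^ 2 = 1 := by rw [hw]; field_simp
  have hkc : Continuous fun s : ℝ => kb (w * s - w) := kb.continuous.comp (by fun_prop)
  obtain ⟨Z, hZ⟩ : ∃ Z, Z = ∫ y : S n, kb (w * inner ℝ e (y : E n) - w) ∂(sm n) := ⟨_, rfl⟩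
  have hZc : c * ρ ^ n ≤ Z := by
    refine (hcap e he ρ hρ hρ1).trans ?_
    have hms : MeasurableSet {x : S n | ‖(x : E n) - e‖ < ρ} :=
      (isOpen_lt (by fun_prop) continuous_const).measurableSet
    rw [← integral_indicator_one hms, hZ]
    refine integral_mono ((integrable_const (1:ℝ)).indicator hms) ?_ fun y => ?_
    · refine (integrable_const (1:ℝ)).mono' ((hkc.comp (by fun_prop)).aestronglyMeasurable)
        (Eventually.of_forall fun y => ?_)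
      rw [Real.norm_eq_abs, abs_of_nonneg kb.nonneg]
      exact kb.le_one
    · by_cases hy : y ∈ {x : S n | ‖(x : E n) - e‖ < ρ}
      · rw [indicator_of_mem hy, Pi.one_apply]
        have hy1 : ‖(y : E n)‖ = 1 := by simp
        have hyρ : ‖(y : E n) - e‖ < ρ := hy
        have h1 : w * inner ℝ e (y : E n) - w ∈ Metric.closedBall (0:ℝ) kb.rIn := by
          rw [Metric.mem_closedBall, dist_zero_right, Real.norm_eq_abs, inner_eq he hy1]
          show |w * (1 - ‖e - (y : E n)‖ ^ 2 / 2) - w| ≤ 1 / 2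
          rw [norm_sub_rev, abs_le]
          have h2 : ‖(y : E n) - e‖ ^ 2 ≤ ρ ^ 2 := pow_le_pow_left₀ (norm_nonneg _) hyρ.le 2
          have h3 : w * ‖(y : E n) - e‖ ^ 2 ≤ 1 := by
            rw [← hwρ]
            gcongr
          have h4 : 0 ≤ w * ‖(y : E n) - e‖ ^ 2 := by positivity
          constructor <;> nlinarith
        rw [kb.one_of_mem_closedBall h1]
      · rw [indicator_of_notMem hy]
        exact kb.nonneg
  have hZ0 : 0 < Z := lt_of_lt_of_le (by positivity) hZc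
  rw [← hw]
  refine ⟨Z, hZc, fun x hx => ?_, fun x y hx hy hne => ?_⟩
  · unfold ker
    rw [integral_const_mul]
    have h1 := zonal (n := n) (fun s => kb (w * s - w)) hkc hx he
    rw [h1, ← hZ, inv_mul_cancel₀ hZ0.ne']
  · by_contra hcon
    push Not at hcon
    apply hne
    unfold ker
    rw [kb.zero_of_le_dist, mul_zero]
    rw [dist_zero_right, Real.norm_eq_abs, inner_eq hx hy]
    show (1:ℝ) ≤ |w * (1 - ‖x - y‖ ^ 2 / 2) - w|
    have h2 : (2 * ρ) ^ 2 ≤ ‖x - y‖ ^ 2 := pow_le_pow_left₀ (by positivity) hcon.le 2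
    have h3 : w * (2 * ρ) ^ 2 ≤ w * ‖x - y‖ ^ 2 := by gcongr
    rw [abs_sub_comm, abs_of_nonneg (by nlinarith)]
    nlinarith

/-- The regularized density. -/
noncomputable def reg (w Z : ℝ) (g : E n → ℂ) (x : E n) : ℂ :=
  ∫ y : S n, ker w Z (inner ℝ x (y : E n)) • g y ∂(sm n)

lemma reg_smooth {κ : ℕ → ℝ} (hκ : ∀ k t, |iteratedDeriv k kb t| ≤ κ k) (w Z : ℝ) {g : E n → ℂ}
    (hg : Measurable g) (hb : ∀ x, ‖g x‖ ≤ 1) : ContDiff ℝ ∞ (reg w Z g) ∧
    ∀ j x, ‖iteratedFDeriv ℝ j (reg w Z g) x‖ ≤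
      |Z⁻¹| * (|w| ^ j * κ j) * (sm n).real univ := by
  have h1 := fun j => ker_smooth (μ := sm n) j ℂ (ker w Z) (ker_contDiff w Z)
    (fun k => |Z⁻¹| * (|w| ^ k * κ k)) (fun k t => ker_deriv hκ w Z k t) (fun y => g y) 1
    (hg.comp measurable_subtype_coe).aestronglyMeasurable fun y => hb y
  refine ⟨contDiff_infty.2 fun j => (h1 j).1, fun j x => ?_⟩
  have h2 := (h1 j).2 x
  rw [mul_one] at h2
  exact h2

lemma norm_reg_le {w Z : ℝ} (hZ : 0 < Z) {g : E n → ℂ} (hb : ∀ x, ‖g x‖ ≤ 1) {x : E n}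
    (h : ∫ y : S n, ker w Z (inner ℝ x (y : E n)) ∂(sm n) = 1) : ‖reg w Z g x‖ ≤ 1 := by
  have hc : Continuous fun y : S n => ker w Z (inner ℝ x (y : E n)) :=
    (ker_contDiff w Z).continuous.comp (by fun_prop)
  have hi : Integrable (fun y : S n => ker w Z (inner ℝ x (y : E n))) (sm n) :=
    hc.integrable_of_hasCompactSupport (HasCompactSupport.of_compactSpace _)
  unfold reg
  refine (norm_integral_le_of_norm_le hi (Eventually.of_forall fun y => ?_)).trans h.le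
  rw [norm_smul, Real.norm_of_nonneg (ker_nonneg w hZ _)]
  exact mul_le_of_le_one_right (ker_nonneg w hZ _) (hb y)

end Pool.Agent.VANn.DMB
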