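import Pool.Agent.VANn.DM0

/-!
Row P of [DIM]: pigeonhole to one small cap, with a polynomial loss.
-/

set_option autoImplicit false

namespace Pool.Agent.VANn.DIM

open MeasureTheory Set Filter Topology Pool.Agent.MP_6cbfb8_an Pool.Agent.VAN
open scoped NNReal ENNReal Real ContDiff FourierTransform

variable {n : ℕ}

/-- Multiplication by the translates and dilates of one bump, composed with rotations: the constant
does not depend on them. -/
theorem mult_scaled {p : ℝ} (hp : 1 ≤ p) {χ : E n → ℝ} (h1 : HasCompactSupport χ)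
    (h2 : ContDiff ℝ ∞ χ) :
    ∃ M : ENNReal, M ≠ ⊤ ∧ ∀ (K : ℝ) (T : E n ≃ₗᵢ[ℝ] E n) (m : E n) (g : E n → ℂ), Measurable g →
      (∀ x, ‖g x‖ ≤ 1) → FF p (fun x => (χ (K • T x - m) : ℂ) * g x) ≤ M * FF p g := by
  have h1' : HasCompactSupport (fun x => (χ x : ℂ)) := h1.comp_left (g := fun t : ℝ => (t : ℂ)) rfl
  have h2' : ContDiff ℝ ∞ (fun x => (χ x : ℂ)) := Complex.ofRealCLM.contDiff.comp h2
  obtain ⟨f, hf⟩ : ∃ f : SchwartzMap (E n) ℂ, ∀ x, f x = (χ x : ℂ) :=
    ⟨h1'.toSchwartzMap h2', fun x => rfl⟩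
  obtain ⟨F, hF⟩ : ∃ F : SchwartzMap (E n) ℂ, F = 𝓕 f := ⟨_, rfl⟩
  have hFi : Integrable (F : E n → ℂ) := F.integrable
  have hinv : ∀ x, ∫ w, Complex.exp (((2 * π * inner ℝ x w : ℝ) : ℂ) * Complex.I) * F w =
      (χ x : ℂ) := by
    intro x
    have e1 : (F : E n → ℂ) = 𝓕 (f : E n → ℂ) := by
      rw [hF]; exact SchwartzMap.fourier_coe f
    have e2 : 𝓕⁻ (𝓕 (f : E n → ℂ)) x = f x := by
      refine f.integrable.fourierInv_fourier_eq ?_ f.continuous.continuousAt
      rw [← e1]; exact hFi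
    rw [← hf, ← e2, Real.fourierInv_eq', ← e1]
    refine integral_congr_ae (Eventually.of_forall fun w => ?_)
    simp only [smul_eq_mul]
    rw [real_inner_comm]
  set d : E n → ℝ≥0 := fun w => ‖F w‖₊ with hd
  have hdm : Measurable d := F.continuous.measurable.nnnorm
  set ν : Measure (E n) := volume.withDensity (fun w => (d w : ENNReal)) with hν
  have hνfin : IsFiniteMeasure ν := by
    refine isFiniteMeasure_withDensity ?_
    exact hFi.2.ne
  refine ⟨ν univ ^ p, ENNReal.rpow_ne_top_of_nonneg (by linarith) (measure_ne_top _ _),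
    fun K T m g hg hb => ?_⟩
  set u : E n → ℂ := fun w =>
    Complex.exp (((-(2 * π * inner ℝ m w) : ℝ) : ℂ) * Complex.I) * (F w / (‖F w‖ : ℂ)) with hu
  have hum : Measurable u := by
    have h3 := F.continuous.measurable
    have h4 : Measurable fun w : E n => (inner ℝ m w : ℝ) := measurable_const.inner measurable_id
    have h5 : Measurable fun w : E n => F w / (‖F w‖ : ℂ) :=
      h3.div (Complex.measurable_ofReal.comp h3.norm)
    have h6 : Measurable fun w : E n =>
        Complex.exp (((-(2 * π * inner ℝ m w) : ℝ) : ℂ) * Complex.I) := by fun_prop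
    exact h6.mul h5
  have hu1 : ∀ w, ‖u w‖ ≤ 1 := by
    intro w
    rw [hu]
    simp only [norm_mul, Complex.norm_exp_ofReal_mul_I, one_mul, norm_div, Complex.norm_real,
      norm_norm]
    exact div_self_le_one _
  have key := lintegral_mix_le (n := n) (W := E n) hp (C := FF p g) (fun h => FF p h ≤ FF p g)
    (fun h _ _ hh => hh) ν (fun _ => LinearIsometryEquiv.refl ℝ (E n)) (fun w => K • T.symm w)
    (fun w x => u w * g x) (by fun_prop)
    ((T.symm.continuous.measurable).const_smul K)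
    ((hum.comp measurable_fst).mul (hg.comp measurable_snd)) (fun w x => by
      rw [norm_mul]; exact mul_le_one₀ (hu1 w) (norm_nonneg _) (hb x))
    (fun w => j_FF_smul (by linarith) g (hu1 w))
  rw [mul_comm]
  refine le_trans (le_of_eq ?_) key
  unfold FF
  congr 1
  funext ξ
  congr 3
  funext x
  unfold mix
  rw [hν, integral_withDensity_eq_integral_smul hdm, ← hinv (K • T x - m), ← integral_mul_const]
  refine integral_congr_ae (Eventually.of_forall fun w => ?_)
  simp only [LinearIsometryEquiv.coe_refl, id]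
  have e0 : Complex.exp (((2 * π * inner ℝ (K • T x - m) w : ℝ) : ℂ) * Complex.I) =
      Complex.exp (((2 * π * inner ℝ x (K • T.symm w) : ℝ) : ℂ) * Complex.I) *
        Complex.exp (((-(2 * π * inner ℝ m w) : ℝ) : ℂ) * Complex.I) := by
    rw [← Complex.exp_add]
    congr 1
    rw [inner_sub_left, inner_smul_left, inner_smul_right, T.inner_map_eq_flip]
    push_cast
    simp only [conj_trivial]
    ring
  have e3 : (d w : ℝ≥0) • (Complex.exp (((2 * π * inner ℝ x (K • T.symm w) : ℝ) : ℂ) * Complex.I) *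
        (u w * g x)) =
      Complex.exp (((2 * π * inner ℝ x (K • T.symm w) : ℝ) : ℂ) * Complex.I) *
        (((‖F w‖ : ℝ) : ℂ) * u w) * g x := by
    rw [NNReal.smul_def, Complex.real_smul]
    simp only [hd, coe_nnnorm]
    ring
  rw [e3, e0]
  congr 1
  rw [mul_assoc]
  congr 1
  simp only [hu]
  by_cases h0 : F w = 0
  · simp [h0]
  · have : (‖F w‖ : ℂ) ≠ 0 := by exact_mod_cast (norm_ne_zero_iff.2 h0)
    field_simp

/-- The cells which meet the sphere. -/
noncomputable def cells (n K : ℕ) : Finset (Fin n → ℤ) :=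
  Fintype.piFinset fun _ => Finset.Icc (-(K : ℤ)) K

lemma card_cells (n K : ℕ) : (cells n K).card = (2 * K + 1) ^ n := by
  unfold cells
  rw [Fintype.card_piFinset]
  simp only [Int.card_Icc, Finset.prod_const, Finset.card_univ, Fintype.card_fin]
  congr 1
  omega

/-- A finite sum of densities. -/
lemma extn_sum {ι : Type*} (s : Finset ι) (g : ι → E n → ℂ) (hg : ∀ i, Measurable (g i))
    (hb : ∀ i x, ‖g i x‖ ≤ 1) (ξ : E n) :
    extn (fun x => ∑ i ∈ s, g i x) ξ = ∑ i ∈ s, extn (g i) ξ := by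
  unfold extn
  rw [← integral_finsetSum s fun i _ => j_int (hg i) (hb i) ξ]
  simp only [Finset.sum_mul]

lemma measurable_enorm_extn {g : E n → ℂ} (hg : Measurable g) :
    Measurable fun ξ : E n => ‖extn g ξ‖ₑ := by
  have := measurable_extn_param (W := Unit) (fun _ => g) (hg.comp measurable_snd)
  have h2 : Measurable fun ξ : E n => extn g ξ :=
    this.comp (g := fun q : Unit × E n => extn g q.2) (f := fun ξ : E n => ((), ξ)) (by fun_prop)
  exact h2.enorm

/-- The integral of `|extn g|^p` over the ball of radius `R`. -/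
noncomputable def FB (p R : ℝ) (g : E n → ℂ) : ENNReal :=
  ∫⁻ ξ in Metric.ball (0 : E n) R, ‖extn g ξ‖ₑ ^ p

lemma FB_rot (p R : ℝ) (g : E n → ℂ) (T : E n ≃ₗᵢ[ℝ] E n) :
    FB p R (fun x => g (T x)) = FB p R g := by
  unfold FB
  have h1 : ∀ ζ, extn (fun x => g (T x)) ζ = extn g (T ζ) := fun ζ => extn_isometry g T ζ
  simp only [h1]
  have h2 : Metric.ball (0 : E n) R = T ⁻¹' Metric.ball (0 : E n) R := by
    ext ζ
    simp [Metric.mem_ball]
  conv_lhs => rw [h2]
  exact (T.measurePreserving).setLIntegral_comp_preimage_emb T.toHomeomorph.measurableEmbedding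
    (fun ξ => ‖extn g ξ‖ₑ ^ p) _

/-- The pigeonhole, for a finite sum of densities. -/
theorem FB_sum_le {ι : Type*} {p R : ℝ} (hp : 1 ≤ p) (s : Finset ι) (hs : s.Nonempty)
    (g : ι → E n → ℂ) (hg : ∀ i, Measurable (g i)) (hb : ∀ i x, ‖g i x‖ ≤ 1) :
    ∃ i ∈ s, FB p R (fun x => ∑ i ∈ s, g i x) ≤ (s.card : ℝ≥0∞) ^ (p + 1) * FB p R (g i) := by
  obtain ⟨i, hi, hmax⟩ := s.exists_max_image (fun i => FB p R (g i)) hs
  refine ⟨i, hi, ?_⟩
  have hc : (s.card : ℝ≥0∞) ^ p ≠ ⊤ :=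
    ENNReal.rpow_ne_top_of_nonneg (by linarith) (ENNReal.natCast_ne_top _)
  have hpt : ∀ ξ : E n, ‖extn (fun x => ∑ i ∈ s, g i x) ξ‖ₑ ^ p ≤
      (s.card : ℝ≥0∞) ^ p * ∑ j ∈ s, ‖extn (g j) ξ‖ₑ ^ p := by
    intro ξ
    obtain ⟨j, hj, hj2⟩ := s.exists_max_image (fun j => ‖extn (g j) ξ‖ₑ) hs
    rw [extn_sum s g hg hb ξ]
    calc ‖∑ j ∈ s, extn (g j) ξ‖ₑ ^ p ≤ (∑ j ∈ s, ‖extn (g j) ξ‖ₑ) ^ p :=
          ENNReal.rpow_le_rpow (enorm_sum_le _ _) (by linarith)
      _ ≤ ((s.card : ℝ≥0∞) * ‖extn (g j) ξ‖ₑ) ^ p := by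
          refine ENNReal.rpow_le_rpow ?_ (by linarith)
          have := Finset.sum_le_card_nsmul s (fun j => ‖extn (g j) ξ‖ₑ) _ hj2
          rwa [nsmul_eq_mul] at this
      _ = (s.card : ℝ≥0∞) ^ p * ‖extn (g j) ξ‖ₑ ^ p := ENNReal.mul_rpow_of_nonneg _ _ (by linarith)
      _ ≤ (s.card : ℝ≥0∞) ^ p * ∑ j ∈ s, ‖extn (g j) ξ‖ₑ ^ p := by
          gcongr
          exact Finset.single_le_sum (f := fun j => ‖extn (g j) ξ‖ₑ ^ p) (fun _ _ => zero_le) hj
  have hcard : (s.card : ℝ≥0∞) ≠ 0 := by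
    exact_mod_cast (Finset.card_pos.2 hs).ne'
  calc FB p R (fun x => ∑ i ∈ s, g i x)
      ≤ ∫⁻ ξ in Metric.ball (0 : E n) R, (s.card : ℝ≥0∞) ^ p * ∑ j ∈ s, ‖extn (g j) ξ‖ₑ ^ p :=
        lintegral_mono hpt
    _ = (s.card : ℝ≥0∞) ^ p * ∑ j ∈ s, FB p R (g j) := by
        rw [lintegral_const_mul' _ _ hc, lintegral_finsetSum s fun j _ =>
          (measurable_enorm_extn (hg j)).pow_const p]
        rfl
    _ ≤ (s.card : ℝ≥0∞) ^ p * ((s.card : ℝ≥0∞) * FB p R (g i)) := by
        gcongr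
        have := Finset.sum_le_card_nsmul s (fun j => FB p R (g j)) _ hmax
        rwa [nsmul_eq_mul] at this
    _ = (s.card : ℝ≥0∞) ^ (p + 1) * FB p R (g i) := by
        rw [ENNReal.rpow_add p 1 hcard (ENNReal.natCast_ne_top _), ENNReal.rpow_one, mul_assoc]


/-- A function with the translates by integers forming a partition of unity. -/
noncomputable def hh (t : ℝ) : ℝ := Real.smoothTransition (t + 1) - Real.smoothTransition t

lemma contDiff_hh : ContDiff ℝ ∞ hh := by
  unfold hh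
  exact (Real.smoothTransition.contDiff.comp (contDiff_id.add contDiff_const)).sub
    Real.smoothTransition.contDiff

lemma abs_hh_le (t : ℝ) : |hh t| ≤ 1 := by
  unfold hh
  have h1 := Real.smoothTransition.nonneg t
  have h2 := Real.smoothTransition.le_one t
  have h3 := Real.smoothTransition.nonneg (t + 1)
  have h4 := Real.smoothTransition.le_one (t + 1)
  rw [abs_le]
  constructor <;> linarith

lemma hh_zero {t : ℝ} (h : 1 < |t|) : hh t = 0 := by
  unfold hh
  rcases lt_abs.1 h with h | h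
  · rw [Real.smoothTransition.one_of_one_le (by linarith),
      Real.smoothTransition.one_of_one_le (by linarith), sub_self]
  · rw [Real.smoothTransition.zero_of_nonpos (by linarith),
      Real.smoothTransition.zero_of_nonpos (by linarith), sub_self]

lemma sum_hh_aux (t : ℝ) (a : ℤ) (N : ℕ) :
    ∑ m ∈ Finset.Ico a (a + N), hh (t - m) =
      Real.smoothTransition (t - a + 1) - Real.smoothTransition (t - (a + N) + 1) := by
  induction N with
  | zero => simp
  | succ N ih =>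
    have e : Finset.Ico a (a + ((N + 1 : ℕ) : ℤ)) = insert (a + (N : ℤ)) (Finset.Ico a (a + N)) := by
      ext m
      simp only [Finset.mem_Ico, Finset.mem_insert]
      push_cast
      omega
    rw [e, Finset.sum_insert (by simp), ih]
    unfold hh
    push_cast
    ring_nf

lemma sum_hh (K : ℕ) {t : ℝ} (ht : |t| ≤ K) :
    ∑ m ∈ Finset.Icc (-(K : ℤ)) K, hh (t - m) = 1 := by
  have h1 := abs_le.1 ht
  have e : Finset.Icc (-(K : ℤ)) K = Finset.Ico (-(K : ℤ)) (-(K : ℤ) + ((2 * K + 1 : ℕ) : ℤ)) := by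
    ext m
    simp only [Finset.mem_Icc, Finset.mem_Ico]
    push_cast
    omega
  rw [e, sum_hh_aux, Real.smoothTransition.one_of_one_le, Real.smoothTransition.zero_of_nonpos,
    sub_zero]
  · push_cast
    linarith
  · push_cast
    linarith

/-- The bump. -/
noncomputable def chi (n : ℕ) (x : E n) : ℝ := ∏ i, hh (x i)

lemma contDiff_chi : ContDiff ℝ ∞ (chi n) := by
  unfold chi
  refine contDiff_prod fun i _ => contDiff_hh.comp ?_
  fun_prop

lemma abs_chi_le (x : E n) : |chi n x| ≤ 1 := by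
  unfold chi
  rw [Finset.abs_prod]
  exact Finset.prod_le_one (fun _ _ => abs_nonneg _) fun i _ => abs_hh_le _

lemma chi_ne {x : E n} (h : chi n x ≠ 0) (i : Fin n) : |x i| ≤ 1 := by
  by_contra hc
  rw [not_le] at hc
  exact h (Finset.prod_eq_zero (Finset.mem_univ i) (hh_zero hc))

lemma norm_le_of_coord {x : E n} {c : ℝ} (hc : 0 ≤ c) (h : ∀ i, |x i| ≤ c) : ‖x‖ ≤ √n * c := by
  rw [EuclideanSpace.norm_eq]
  have h4 : ∑ i, ‖x i‖ ^ 2 ≤ n * c ^ 2 := by
    calc ∑ i, ‖x i‖ ^ 2 ≤ ∑ _i : Fin n, c ^ 2 := by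
          refine Finset.sum_le_sum fun i _ => ?_
          rw [Real.norm_eq_abs]
          exact pow_le_pow_left₀ (abs_nonneg _) (h i) 2
      _ = n * c ^ 2 := by simp
  calc √(∑ i, ‖x i‖ ^ 2) ≤ √(n * c ^ 2) := Real.sqrt_le_sqrt h4
    _ = √n * c := by rw [Real.sqrt_mul (by positivity), Real.sqrt_sq hc]

lemma compact_chi : HasCompactSupport (chi n) := by
  refine HasCompactSupport.intro (isCompact_closedBall (0 : E n) √n) fun x hx => ?_
  by_contra hc
  refine hx ?_
  rw [Metric.mem_closedBall, dist_zero_right]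
  simpa using norm_le_of_coord zero_le_one (chi_ne hc)

/-- The point of the lattice. -/
noncomputable def pt (m : Fin n → ℤ) : E n := WithLp.toLp 2 fun i => (m i : ℝ)

lemma pt_apply (m : Fin n → ℤ) (i : Fin n) : pt m i = m i := rfl

lemma sum_chi (K : ℕ) {x : E n} (hx : x ∈ S n) :
    ∑ m ∈ cells n K, chi n ((K : ℝ) • x - pt m) = 1 := by
  unfold cells chi
  have h1 : ∀ m : Fin n → ℤ, ∏ i, hh (((K : ℝ) • x - pt m) i) = ∏ i, hh ((K : ℝ) * x i - m i) :=
    fun m => rfl
  simp only [h1]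
  rw [← Finset.prod_univ_sum (fun _ => Finset.Icc (-(K : ℤ)) K)
    (fun (i : Fin n) (m : ℤ) => hh ((K : ℝ) * x i - m))]
  refine Finset.prod_eq_one fun i _ => sum_hh K ?_
  have h2 := PiLp.norm_apply_le x i
  rw [mem_sphere_zero_iff_norm.1 hx, Real.norm_eq_abs] at h2
  rw [abs_mul, abs_of_nonneg (Nat.cast_nonneg _)]
  have hK : (0 : ℝ) ≤ K := Nat.cast_nonneg _
  nlinarith

/-- **Pigeonhole to one small cap** (smooth localisation). -/
theorem cap_pigeon (n : ℕ) {p : ℝ} (hp : 1 ≤ p) : ∃ (C : ℝ) (M : ℝ≥0∞), 1 ≤ C ∧ M ≠ ⊤ ∧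
    ∀ (R r : ℝ) (x0 : E n) (g : E n → ℂ), 0 < r → r ≤ 1 → x0 ∈ S n → Measurable g →
    (∀ x, ‖g x‖ ≤ 1) → ∃ (η : E n → ℝ) (T : E n ≃ₗᵢ[ℝ] E n), ContDiff ℝ ∞ η ∧
      (∀ x, |η x| ≤ 1) ∧ (∀ z, z ∉ Metric.ball x0 r → η z = 0) ∧
      (∀ u : E n → ℂ, Measurable u → (∀ x, ‖u x‖ ≤ 1) →
        FF p (fun x => (η x : ℂ) * u x) ≤ M * FF p u) ∧
      FB p R g ≤ ENNReal.ofReal ((C / r) ^ ((n : ℝ) * (p + 1))) *
        FB p R (fun x => (η x : ℂ) * g (T x)) := by
  obtain ⟨M, hM, hmult⟩ := mult_scaled (n := n) hp compact_chi contDiff_chi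
  refine ⟨4 * √n + 3, M, by linarith [Real.sqrt_nonneg (n : ℝ)], hM, ?_⟩
  intro R r x0 g hr hr1 hx0 hg hb
  set K : ℕ := ⌊2 * √n / r⌋₊ + 1 with hK
  have hKpos : 0 < K := Nat.succ_pos _
  have hK' : (0 : ℝ) < K := by exact_mod_cast hKpos
  have hK1 : 2 * √n / r < K := by
    rw [hK]
    push_cast
    exact Nat.lt_floor_add_one _
  have hK2 : √n * (2 / K) < r := by
    rw [div_lt_iff₀ hr] at hK1
    rw [mul_div_assoc', div_lt_iff₀ hK']
    linarith
  have hK3 : (2 * K + 1 : ℝ) ≤ (4 * √n + 3) / r := by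
    have h1 : (K : ℝ) ≤ 2 * √n / r + 1 := by
      rw [hK]
      push_cast
      linarith [Nat.floor_le (show 0 ≤ 2 * √n / r by positivity)]
    have h2 : (1 : ℝ) ≤ 1 / r := by
      rw [le_div_iff₀ hr]
      linarith
    calc (2 * K + 1 : ℝ) ≤ 2 * (2 * √n / r) + 3 * 1 := by linarith
      _ ≤ 2 * (2 * √n / r) + 3 * (1 / r) := by linarith
      _ = (4 * √n + 3) / r := by ring
  -- the pieces
  set gm : (Fin n → ℤ) → E n → ℂ := fun m x => (chi n ((K : ℝ) • x - pt m) : ℂ) * g x with hgm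
  have hchi : Measurable (chi n) := contDiff_chi.continuous.measurable
  have hgmm : ∀ m, Measurable (gm m) := fun m => by
    rw [hgm]
    refine Measurable.mul (Complex.measurable_ofReal.comp (hchi.comp ?_)) hg
    fun_prop
  have hgmb : ∀ m x, ‖gm m x‖ ≤ 1 := fun m x => by
    simp only [hgm, norm_mul, Complex.norm_real, Real.norm_eq_abs]
    exact mul_le_one₀ (abs_chi_le _) (norm_nonneg _) (hb x)
  have hsum : ∀ x ∈ S n, g x = ∑ m ∈ cells n K, gm m x := by
    intro x hx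
    simp only [hgm]
    rw [← Finset.sum_mul, ← Complex.ofReal_sum, sum_chi K hx, Complex.ofReal_one, one_mul]
  have hne : (cells n K).Nonempty := by
    rw [← Finset.card_pos, card_cells]
    positivity
  obtain ⟨m, hm, hle⟩ := FB_sum_le (R := R) hp (cells n K) hne gm hgmm hgmb
  have hFB : FB p R g = FB p R (fun x => ∑ m ∈ cells n K, gm m x) := by
    unfold FB
    rw [j_congr hsum]
  have hconst : ((cells n K).card : ℝ≥0∞) ^ (p + 1) ≤
      ENNReal.ofReal (((4 * √n + 3) / r) ^ ((n : ℝ) * (p + 1))) := by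
    have h1 : ((cells n K).card : ℝ≥0∞) = ENNReal.ofReal ((2 * K + 1 : ℝ) ^ n) := by
      rw [card_cells, ← ENNReal.ofReal_natCast]
      congr 1
      push_cast
      ring
    rw [h1, ENNReal.ofReal_rpow_of_nonneg (by positivity) (by linarith)]
    refine ENNReal.ofReal_le_ofReal ?_
    rw [← Real.rpow_natCast, ← Real.rpow_mul (by positivity)]
    exact Real.rpow_le_rpow (by positivity) hK3 (by positivity)
  by_cases hy : ∃ y ∈ S n, chi n ((K : ℝ) • y - pt m) ≠ 0
  · obtain ⟨y, hy, hym⟩ := hy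
    have hnn : ‖x0‖ = ‖y‖ := by
      rw [mem_sphere_zero_iff_norm.1 hx0, mem_sphere_zero_iff_norm.1 hy]
    obtain ⟨T, hT⟩ : ∃ T : E n ≃ₗᵢ[ℝ] E n, T x0 = y := ⟨_, Submodule.reflection_sub hnn⟩
    refine ⟨fun z => chi n ((K : ℝ) • T z - pt m), T, ?_, fun z => abs_chi_le _, ?_, ?_, ?_⟩
    · refine contDiff_chi.comp ?_
      have : ContDiff ℝ ∞ fun z => T z := T.toContinuousLinearEquiv.contDiff
      fun_prop
    · intro z hz
      by_contra hc
      refine hz ?_
      have h1 : ∀ i, |(T z - y) i| ≤ 2 / K := by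
        intro i
        have h2 := chi_ne hc i
        have h3 := chi_ne hym i
        have h4 : ((K : ℝ) • T z - pt m) i = K * (T z) i - m i := rfl
        have h5 : ((K : ℝ) • y - pt m) i = K * y i - m i := rfl
        rw [h4] at h2
        rw [h5] at h3
        have h6 : (T z - y) i = (T z) i - y i := rfl
        have h7 : (T z) i - y i = ((K * (T z) i - m i) - (K * y i - m i)) / K := by
          field_simp
          ring
        rw [h6, h7, abs_div, abs_of_pos hK']
        exact div_le_div_of_nonneg_right ((abs_sub _ _).trans (by linarith)) hK'.le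
      rw [Metric.mem_ball, ← T.dist_map, hT, dist_eq_norm]
      exact (norm_le_of_coord (by positivity) h1).trans_lt hK2
    · intro u hu hub
      exact hmult K T (pt m) u hu hub
    · rw [hFB]
      refine hle.trans ((mul_le_mul_left hconst _).trans (le_of_eq ?_))
      rw [← FB_rot p R (gm m) T]
  · refine ⟨fun _ => 0, LinearIsometryEquiv.refl ℝ (E n), contDiff_const, fun x => by simp,
      fun _ _ => rfl, fun u hu hub => ?_, ?_⟩
    · have h0 : FF p (fun x => ((0 : ℝ) : ℂ) * u x) = 0 := by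
        unfold FF
        have h1 : ∀ ξ : E n, extn (fun x => ((0 : ℝ) : ℂ) * u x) ξ = 0 := fun ξ => by
          unfold extn
          simp
        simp only [h1, enorm_zero]
        rw [ENNReal.zero_rpow_of_pos (by linarith)]
        simp
      rw [h0]
      exact zero_le
    · have h0 : FB p R (gm m) = FB p R (fun x => ((0 : ℝ) : ℂ) * g x) := by
        unfold FB
        rw [j_congr (g := gm m) (h := fun x => ((0 : ℝ) : ℂ) * g x) fun x hx => ?_]
        simp only [hgm]
        rw [not_exists] at hy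
        have h1 : chi n ((K : ℝ) • x - pt m) = 0 := by
          by_contra hc
          exact hy x ⟨hx, hc⟩
        rw [h1]
      rw [hFB]
      refine hle.trans ((mul_le_mul_left hconst _).trans (le_of_eq ?_))
      rw [h0]
      rfl

end Pool.Agent.VANn.DIM

namespace Pool.Agent.VANn.DM

open MeasureTheory Set Pool.Agent.MP_6cbfb8_an Pool.Agent.VAN
open scoped NNReal ENNReal Real ContDiff

/-- **Pigeonhole to one small cap** (smooth localisation). -/
theorem cap_pigeon (n : ℕ) {p : ℝ} (hp : 1 ≤ p) : ∃ (C : ℝ) (M : ℝ≥0∞), 1 ≤ C ∧ M ≠ ⊤ ∧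
    ∀ (R r : ℝ) (x0 : E n) (g : E n → ℂ), 0 < r → r ≤ 1 → x0 ∈ S n → Measurable g → (∀ x, ‖g x‖ ≤ 1) →
      ∃ (η : E n → ℝ) (T : E n ≃ₗᵢ[ℝ] E n), ContDiff ℝ ∞ η ∧ (∀ x, |η x| ≤ 1) ∧
        (∀ z, z ∉ Metric.ball x0 r → η z = 0) ∧
        (∀ u : E n → ℂ, Measurable u → (∀ x, ‖u x‖ ≤ 1) →
          FF p (fun x => (η x : ℂ) * u x) ≤ M * FF p u) ∧
        ∫⁻ ξ in Metric.ball 0 R, ‖extn g ξ‖ₑ ^ p ≤ ENNReal.ofReal ((C / r) ^ ((n : ℝ) * (p + 1))) *
          ∫⁻ ξ in Metric.ball 0 R, ‖extn (fun x => (η x : ℂ) * g (T x)) ξ‖ₑ ^ p :=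
  Pool.Agent.VANn.DIM.cap_pigeon n hp

end Pool.Agent.VANn.DM
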