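import Pool.Agent.VANn.DM0

/-!
The choice of the scales and of the places.
-/

set_option autoImplicit false

namespace Pool.Agent.VANn.DM

open MeasureTheory Set Pool.Agent.MP_6cbfb8_an
open scoped ENNReal Real ContDiff

/-- A point of the sphere at a given distance `d ≤ 1` from `e`. -/
theorem exists_at_dist {n : ℕ} (hn : 2 ≤ n) {e : E n} (he : ‖e‖ = 1) {d : ℝ} (hd : 0 ≤ d)
    (hd1 : d ≤ 1) : ∃ a : E n, ‖a‖ = 1 ∧ dist a e = d := by
  have h1 : (ℝ ∙ e)ᗮ ≠ ⊥ := by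
    intro h
    have h2 := Submodule.finrank_add_finrank_orthogonal (ℝ ∙ e)
    rw [h, finrank_bot] at h2
    have h3 : Module.finrank ℝ (E n) = n := by simp
    have h4 : Module.finrank ℝ (ℝ ∙ e) ≤ 1 := by
      have := finrank_span_le_card (R := ℝ) ({e} : Set (E n))
      simpa using this
    omega
  obtain ⟨z, hz, hz0⟩ := Submodule.exists_mem_ne_zero_of_ne_bot h1
  have h2 : inner ℝ e z = (0 : ℝ) := Submodule.mem_orthogonal_singleton_iff_inner_right.1 hz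
  have h3 : ‖z‖ ≠ 0 := norm_ne_zero_iff.2 hz0
  have hf : ‖(‖z‖⁻¹ • z : E n)‖ = 1 := by rw [norm_smul, norm_inv, norm_norm, inv_mul_cancel₀ h3]
  have hfe : inner ℝ e (‖z‖⁻¹ • z : E n) = (0 : ℝ) := by rw [inner_smul_right, h2, mul_zero]
  set f : E n := ‖z‖⁻¹ • z with hfdef
  have hs : 0 ≤ d ^ 2 - d ^ 4 / 4 := by nlinarith [sq_nonneg d, pow_nonneg hd 3]
  have hsq := Real.sq_sqrt hs
  set s : ℝ := √(d ^ 2 - d ^ 4 / 4) with hsdef
  have key : ∀ u : ℝ, ‖(u • e + s • f : E n)‖ ^ 2 = u ^ 2 + s ^ 2 := by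
    intro u
    rw [norm_add_sq_real, norm_smul, norm_smul, he, hf, inner_smul_left, inner_smul_right, hfe]
    simp
  refine ⟨(1 - d ^ 2 / 2) • e + s • f, ?_, ?_⟩
  · have h4 := key (1 - d ^ 2 / 2)
    rw [hsq] at h4
    have h5 : ‖((1 - d ^ 2 / 2) • e + s • f : E n)‖ ^ 2 = 1 ^ 2 := by
      rw [h4]
      ring
    exact (pow_left_inj₀ (norm_nonneg _) zero_le_one two_ne_zero).1 h5
  · rw [dist_eq_norm]
    have h6 : (1 - d ^ 2 / 2) • e + s • f - e = (-(d ^ 2 / 2)) • e + s • f := by module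
    rw [h6]
    have h4 := key (-(d ^ 2 / 2))
    rw [hsq] at h4
    have h5 : ‖((-(d ^ 2 / 2)) • e + s • f : E n)‖ ^ 2 = d ^ 2 := by
      rw [h4]
      ring
    exact (pow_left_inj₀ (norm_nonneg _) hd two_ne_zero).1 h5

theorem seqs {n : ℕ} (hn : 2 ≤ n) (A : ℕ) {δ : ℝ} (hδ : 0 < δ) (Q : ℝ → ℝ → (E n → ℝ) → Prop)
    (H : ∀ m : ℝ, ∃ (R : ℝ) (θ : E n → ℝ), m ≤ R ∧ 1 ≤ R ∧ Q m R θ) {e : E n} (he : ‖e‖ = 1)
    (c : ℝ) :
    ∃ (m R : ℕ → ℝ) (θ : ℕ → E n → ℝ) (a : ℕ → E n), (∀ k : ℕ, (k : ℝ) ≤ m k) ∧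
      (∀ k, Q (m k) (R k) (θ k)) ∧ (∀ k, 1 ≤ R k) ∧ (∀ k, c ≤ R k) ∧ (∀ k, 2 * R k ≤ R (k + 1)) ∧
      (∀ k, 13 * R (k + 1) ^ (-δ) < R k ^ (-(A : ℝ))) ∧ (∀ k, 14 * R k ^ (-δ) ≤ 1) ∧
      (∀ k, ‖a k‖ = 1 ∧ dist (a k) e = 7 * R k ^ (-δ)) := by
  -- a threshold for small powers
  have hthr : ∀ ε : ℝ, 0 < ε → ∃ t : ℝ, ∀ R : ℝ, 1 ≤ R → t ≤ R → R ^ (-δ) < ε := by
    intro ε hε
    have h1 := tendsto_rpow_neg_atTop hδ
    have h2 := (h1.eventually (gt_mem_nhds hε)).and (Filter.eventually_ge_atTop 0)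
    obtain ⟨t, ht⟩ := Filter.eventually_atTop.1 h2
    exact ⟨t, fun R _ hR => (ht R hR).1⟩
  choose! t ht using hthr
  choose Rf θf h1 h2 h3 using H
  -- the next value of `m` from the last one
  let nxt : ℕ → ℝ → ℝ := fun k m => max (max (k + 1 : ℝ) (max c (2 * Rf m)))
    (max (t (Rf m ^ (-(A : ℝ)) / 13)) (t (1 / 14)))
  let m : ℕ → ℝ := fun k => Nat.rec (max c (t (1 / 14)) ⊔ 0) (fun k m => nxt k m) k
  have hm1 : ∀ k, m (k + 1) = nxt k (m k) := fun k => rfl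
  have hm0 : m 0 = max c (t (1 / 14)) ⊔ 0 := rfl
  have hRpos : ∀ k, 0 < Rf (m k) := fun k => by linarith [h2 (m k)]
  have hc : ∀ k, c ≤ m k := by
    intro k
    cases k with
    | zero => rw [hm0]; exact (le_max_left _ _).trans (le_max_left _ _)
    | succ k =>
      rw [hm1]
      exact (le_max_left _ _).trans ((le_max_right _ _).trans (le_max_left _ _))
  have ht14 : ∀ k, t (1 / 14) ≤ m k := by
    intro k
    cases k with
    | zero => rw [hm0]; exact (le_max_right _ _).trans (le_max_left _ _)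
    | succ k =>
      rw [hm1]
      exact (le_max_right _ _).trans (le_max_right _ _)
  have hsmall : ∀ k, 14 * Rf (m k) ^ (-δ) ≤ 1 := by
    intro k
    have := ht (1 / 14) (by norm_num) (Rf (m k)) (h2 _) ((ht14 k).trans (h1 _))
    linarith
  have ha : ∀ k, ∃ a : E n, ‖a‖ = 1 ∧ dist a e = 7 * Rf (m k) ^ (-δ) := by
    intro k
    have h0 := Real.rpow_pos_of_pos (hRpos k) (-δ)
    exact exists_at_dist hn he (by positivity) (by linarith [hsmall k])
  choose a ha using ha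
  refine ⟨m, fun k => Rf (m k), fun k => θf (m k), a, ?_, fun k => h3 (m k), fun k => h2 _,
    fun k => (hc k).trans (h1 _), ?_, ?_, hsmall, ha⟩
  · intro k
    cases k with
    | zero => rw [hm0]; simp
    | succ k =>
      rw [hm1]
      push_cast
      exact (le_max_left _ _).trans (le_max_left _ _)
  · intro k
    refine le_trans ?_ (h1 (m (k + 1)))
    rw [hm1]
    exact (le_max_right _ _).trans ((le_max_right _ _).trans (le_max_left _ _))
  · intro k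
    have h4 : t (Rf (m k) ^ (-(A : ℝ)) / 13) ≤ Rf (m (k + 1)) := by
      refine le_trans ?_ (h1 (m (k + 1)))
      rw [hm1]
      exact (le_max_left _ _).trans (le_max_right _ _)
    have h5 := ht (Rf (m k) ^ (-(A : ℝ)) / 13)
      (div_pos (Real.rpow_pos_of_pos (hRpos k) _) (by norm_num)) (Rf (m (k + 1))) (h2 _) h4
    simp only
    linarith

/-- The bumps have disjoint supports: a point is in at most one of the balls `4 ρ k` about `a k`
(`3 ρ k` are enough for the distance to `e` to be comparable with `ρ k`). -/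
theorem seqs_disj {n : ℕ} {A : ℕ} (hA : 1 ≤ A) {δ : ℝ} (hδ : 0 < δ) (hδ1 : δ < 1) {R : ℕ → ℝ}
    {a : ℕ → E n} {e : E n} (hR : ∀ k, 1 ≤ R k) (hR2 : ∀ k, 2 * R k ≤ R (k + 1))
    (hR3 : ∀ k, 13 * R (k + 1) ^ (-δ) < R k ^ (-(A : ℝ)))
    (ha : ∀ k, dist (a k) e = 7 * R k ^ (-δ)) {k l : ℕ} (hkl : k ≠ l) {x : E n}
    (hx : dist x (a k) ≤ 4 * R k ^ (-δ)) : 4 * R l ^ (-δ) < dist x (a l) := by
  have hR0 : ∀ k, 0 < R k := fun k => by linarith [hR k]
  have hRm : Monotone R := monotone_nat_of_le_succ fun k => by linarith [hR2 k, hR0 k]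
  have hA' : (1:ℝ) ≤ A := by exact_mod_cast hA
  have hμρ : ∀ k, R k ^ (-(A : ℝ)) ≤ R k ^ (-δ) := fun k =>
    Real.rpow_le_rpow_of_exponent_le (hR k) (by linarith)
  have hdec : ∀ {i j : ℕ}, i < j → 13 * R j ^ (-δ) < R i ^ (-δ) := by
    intro i j hij
    calc 13 * R j ^ (-δ) ≤ 13 * R (i + 1) ^ (-δ) := by
          have := Real.rpow_le_rpow_of_nonpos (hR0 (i + 1)) (hRm (show i + 1 ≤ j by omega))
            (show -δ ≤ 0 by linarith)
          linarith
      _ < R i ^ (-(A : ℝ)) := hR3 i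
      _ ≤ _ := hμρ i
  have h0 : ∀ k, 0 < R k ^ (-δ) := fun k => Real.rpow_pos_of_pos (hR0 k) _
  have e1 : dist x e ≤ 11 * R k ^ (-δ) := by
    have := dist_triangle x (a k) e
    rw [ha k] at this
    linarith
  have e2 : 3 * R k ^ (-δ) ≤ dist x e := by
    have := dist_triangle (a k) x e
    rw [ha k, dist_comm (a k) x] at this
    linarith
  by_contra hneg
  push Not at hneg
  have e3 : dist x e ≤ 11 * R l ^ (-δ) := by
    have := dist_triangle x (a l) e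
    rw [ha l] at this
    linarith
  have e4 : 3 * R l ^ (-δ) ≤ dist x e := by
    have := dist_triangle (a l) x e
    rw [ha l, dist_comm (a l) x] at this
    linarith
  rcases lt_or_gt_of_ne hkl with h | h
  · have := hdec h
    linarith [h0 k, h0 l]
  · have := hdec h
    linarith [h0 k, h0 l]

end Pool.Agent.VANn.DM
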