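import Pool.Agent.VANn.DM0

/-!
The derivatives of one bump.
-/

set_option autoImplicit false

namespace Pool.Agent.VANn.DM

open MeasureTheory Set Pool.Agent.MP_6cbfb8_an
open scoped ENNReal Real ContDiff

theorem ch_contDiff {n : ℕ} : ContDiff ℝ ∞ (ch : E n → ℝ) := by
  unfold ch
  exact Real.smoothTransition.contDiff.comp (contDiff_const.sub (contDiff_norm_sq ℝ))

theorem ch_zero {n : ℕ} {x : E n} (hx : 2 ≤ ‖x‖ ^ 2) : ch x = 0 := by
  unfold ch
  exact Real.smoothTransition.zero_of_nonpos (by linarith)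

theorem ch_one {n : ℕ} {x : E n} (hx : ‖x‖ ≤ 1) : ch x = 1 := by
  unfold ch
  exact Real.smoothTransition.one_of_one_le (by nlinarith [norm_nonneg x])

theorem ch_compact {n : ℕ} : HasCompactSupport (ch : E n → ℝ) := by
  refine HasCompactSupport.intro (isCompact_closedBall (0 : E n) 2) fun x hx => ?_
  rw [mem_closedBall_zero_iff, not_le] at hx
  exact ch_zero (by nlinarith)

theorem ch_bound (n : ℕ) : ∃ D : ℕ → ℝ, ∀ j (x : E n), ‖iteratedFDeriv ℝ j (ch : E n → ℝ) x‖ ≤ D j := by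
  have h : ∀ j : ℕ, ∃ C : ℝ, ∀ x : E n, ‖iteratedFDeriv ℝ j (ch : E n → ℝ) x‖ ≤ C := by
    intro j
    have h1 : Continuous (iteratedFDeriv ℝ j (ch : E n → ℝ)) :=
      ch_contDiff.continuous_iteratedFDeriv (by exact_mod_cast le_top)
    exact h1.bounded_above_of_compact_support (ch_compact.iteratedFDeriv j)
  choose D hD using h
  exact ⟨D, hD⟩

theorem bump_bound {n : ℕ} {A : ℕ} (hA : 1 ≤ A) {δ : ℝ} (hδ1 : δ < 1) (B : ℕ → ℝ) :
    ∃ D : ℕ → ℝ, (∀ j, 0 ≤ D j) ∧ ∀ (R : ℝ) (θ : E n → ℝ) (T : E n ≃ₗᵢ[ℝ] E n) (a : E n), 1 ≤ R →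
      ContDiff ℝ ∞ θ → (∀ j x, ‖iteratedFDeriv ℝ j θ x‖ ≤ B j * R ^ (A * j)) →
      ContDiff ℝ ∞ (fun x => ch ((R ^ δ) • (x - a)) * θ (T x)) ∧
      ∀ j x, ‖iteratedFDeriv ℝ j (fun x => ch ((R ^ δ) • (x - a)) * θ (T x)) x‖ ≤
        D j * R ^ (A * j) := by
  obtain ⟨D0, hD0⟩ := ch_bound n
  have hD0' : ∀ j, 0 ≤ D0 j := fun j => (norm_nonneg _).trans (hD0 j 0)
  refine ⟨fun j => ∑ i ∈ Finset.range (j + 1), (j.choose i : ℝ) * D0 i * |B (j - i)|,
    fun j => Finset.sum_nonneg fun i _ => by have := hD0' i; positivity,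
    fun R θ T a hR hθ hB => ?_⟩
  have hR0 : 0 < R := by linarith
  have hA' : (1:ℝ) ≤ A := by exact_mod_cast hA
  have hRδ : R ^ δ ≤ R ^ A := by
    rw [← Real.rpow_natCast]
    exact Real.rpow_le_rpow_of_exponent_le hR (by linarith)
  have hRδ0 : 0 < R ^ δ := Real.rpow_pos_of_pos hR0 _
  have h1 : ContDiff ℝ ∞ fun x : E n => ch ((R ^ δ) • (x - a)) :=
    ch_contDiff.comp ((contDiff_id.sub contDiff_const).const_smul _)
  have h2 : ContDiff ℝ ∞ fun x : E n => θ (T x) :=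
    hθ.comp T.toContinuousLinearEquiv.contDiff
  refine ⟨h1.mul h2, fun j x => ?_⟩
  have h3 : ∀ i, ‖iteratedFDeriv ℝ i (fun x : E n => ch ((R ^ δ) • (x - a))) x‖ ≤
      D0 i * R ^ (A * i) := by
    intro i
    have e1 : (fun x : E n => ch ((R ^ δ) • (x - a))) =
        fun x => (fun y : E n => ch ((R ^ δ) • y)) (x + -a) := by
      funext x
      rw [sub_eq_add_neg]
    have e2 : ContDiff ℝ i (ch : E n → ℝ) := ch_contDiff.of_le (by exact_mod_cast le_top)
    rw [e1, iteratedFDeriv_comp_add_right (f := fun y : E n => ch ((R ^ δ) • y)) i (-a) x,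
      iteratedFDeriv_comp_const_smul (R ^ δ) e2, norm_smul,
      norm_pow, Real.norm_of_nonneg hRδ0.le]
    calc (R ^ δ) ^ i * ‖iteratedFDeriv ℝ i (ch : E n → ℝ) ((R ^ δ) • (x + -a))‖
        ≤ (R ^ A) ^ i * D0 i := by
          gcongr
          exact hD0 i _
      _ = _ := by rw [← pow_mul, mul_comm]
  have h4 : ∀ i, ‖iteratedFDeriv ℝ i (fun x : E n => θ (T x)) x‖ ≤ |B i| * R ^ (A * i) := by
    intro i
    have e1 : (fun x : E n => θ (T x)) = θ ∘ T := rfl
    rw [e1, T.norm_iteratedFDeriv_comp_right]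
    refine (hB i (T x)).trans ?_
    gcongr
    exact le_abs_self _
  have h5 := norm_iteratedFDeriv_mul_le h1 h2 x (n := j) (by exact_mod_cast le_top)
  refine h5.trans ?_
  rw [Finset.sum_mul]
  refine Finset.sum_le_sum fun i hi => ?_
  have hij : i ≤ j := by
    rw [Finset.mem_range] at hi
    omega
  calc _ ≤ (j.choose i : ℝ) * (D0 i * R ^ (A * i)) * (|B (j - i)| * R ^ (A * (j - i))) := by
        gcongr
        · have := hD0' i
          positivity
        · exact h3 i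
        · exact h4 (j - i)
    _ = (j.choose i : ℝ) * D0 i * |B (j - i)| * (R ^ (A * i) * R ^ (A * (j - i))) := by ring
    _ = _ := by
        rw [← pow_add, ← Nat.mul_add]
        congr 3
        omega

end Pool.Agent.VANn.DM
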