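import Pool.Agent.VANn.DM6
import Pool.Agent.VANn.DMG2

/-!
**Singular sets of every dimension below `n - 1`.** Stein's restriction conjecture in `R^n` follows from the
integrability of the transforms of the densities `e^{iψ}` with `ψ` smooth off a set `Sig` of covering dimension
`κ < n - 1`, with `|D^j ψ| ≤ B_j / dist(x, Sig)^j`; even from one such density, for which `Sig` is a sequence of
points of the sphere with one limit.
-/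

set_option autoImplicit false

namespace Pool.Agent.VANn.DM

open MeasureTheory Set Pool.Agent.MP_6cbfb8_an Pool.Agent.VAN
open scoped ENNReal Real ContDiff

theorem dim_one (n : ℕ) (hn : 2 ≤ n) (e : E n) (he : ‖e‖ = 1) :
    ∃ (κ V : ℝ) (B : ℕ → ℝ) (Sig : Set (E n)) (ψ : E n → ℝ), 0 ≤ κ ∧ κ < n - 1 ∧ 0 ≤ V ∧
      Cov V κ Sig ∧ Sig ⊆ Metric.sphere 0 1 ∧ (∀ ε : ℝ, 0 < ε → (Sig \ Metric.ball e ε).Finite) ∧
      Phs 0 B 1 Sig ψ ∧ Measurable ψ ∧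
      ((∀ p : ℝ, 2 * (n : ℝ) / (n - 1) < p →
          ∫⁻ ξ, ‖extn (fun x => Complex.exp ((ψ x : ℂ) * Complex.I)) ξ‖ₑ ^ p < ⊤) →
        ∀ p : ℝ, 2 * (n : ℝ) / (n - 1) < p → ∀ g : E n → ℂ, Measurable g → (∀ x, ‖g x‖ ≤ 1) →
          ∫⁻ ξ, ‖extn g ξ‖ₑ ^ p < ⊤) := by
  have hn' : (2:ℝ) ≤ n := by exact_mod_cast hn
  by_cases hS : ∀ p : ℝ, 2 * (n : ℝ) / (n - 1) < p → ∀ g : E n → ℂ, Measurable g →
      (∀ x, ‖g x‖ ≤ 1) → ∫⁻ ξ, ‖extn g ξ‖ₑ ^ p < ⊤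
  · refine ⟨0, 0, fun _ => 0, ∅, fun _ => 0, le_rfl, by linarith, le_rfl,
      fun r _ _ => ⟨∅, by simp, by simp⟩, empty_subset _, fun ε _ => by simp, fun x _ r hr _ _ =>
      ⟨contDiffAt_const, fun j hj => ?_⟩, measurable_const, fun _ => hS⟩
    obtain ⟨j, rfl⟩ : ∃ i, j = i + 1 := ⟨j - 1, by omega⟩
    simp
  · push Not at hS
    obtain ⟨q, hq, g, hg, hb, hgt⟩ := hS
    have h2 : (2:ℝ) < 2 * (n : ℝ) / (n - 1) := by
      rw [lt_div_iff₀ (by linarith)]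
      linarith
    obtain ⟨p, hp1, hp2⟩ := exists_between hq
    obtain ⟨A, B, δ, M, hA, hδ, hδ1, hM, H⟩ := bad_sequence n hn p q (by linarith) hp2 (by
      rintro ⟨C, hC, h⟩
      exact hC (top_le_iff.1 (hgt.trans (h g hg hb))))
    obtain ⟨V, Sig, ψ, B', hV, h3, h5, h6, h7, h8, h9⟩ := glue n hn p (by linarith) A hA B δ hδ hδ1
      M hM H e he
    have hA' : (1:ℝ) ≤ A := by exact_mod_cast hA
    have h10 : δ / A ≤ δ := div_le_self hδ.le hA'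
    have h11 : 0 < δ / A := by positivity
    refine ⟨_, V, B', Sig, ψ, mul_nonneg (by linarith) (by linarith), ?_, hV, h3, h5, h6, h7, h8,
      fun h => absurd (h p hp1) ?_⟩
    · nlinarith
    · unfold FF at h9
      rw [h9]
      exact lt_irrefl _

theorem stein_iff (n : ℕ) (hn : 2 ≤ n) :
    (∀ p : ℝ, 2 * (n : ℝ) / (n - 1) < p → ∀ g : E n → ℂ, Measurable g → (∀ x, ‖g x‖ ≤ 1) →
      ∫⁻ ξ, ‖extn g ξ‖ₑ ^ p < ⊤) ↔
    ∀ κ : ℝ, 0 ≤ κ → κ < n - 1 → ∀ (A : ℕ) (B : ℕ → ℝ) (V : ℝ) (Sig : Set (E n)) (ψ : E n → ℝ),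
      0 ≤ V → Cov V κ Sig → Phs A B 1 Sig ψ → Measurable ψ → ∀ p : ℝ, 2 * (n : ℝ) / (n - 1) < p →
      ∫⁻ ξ, ‖extn (fun x => Complex.exp ((ψ x : ℂ) * Complex.I)) ξ‖ₑ ^ p < ⊤ := by
  refine ⟨fun h κ _ _ A B V Sig ψ _ _ _ hψ p hp => h p hp _ (by fun_prop) fun x => by
    rw [Complex.norm_exp_ofReal_mul_I], fun h => ?_⟩
  have he : ‖(EuclideanSpace.single (⟨0, by omega⟩ : Fin n) (1 : ℝ))‖ = 1 := by simp
  obtain ⟨κ, V, B, Sig, ψ, h1, h2, h3, h4, _, _, h7, h8, h9⟩ := dim_one n hn _ he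
  exact h9 fun p hp => h κ h1 h2 0 B V Sig ψ h3 h4 h7 h8 p hp

end Pool.Agent.VANn.DM
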