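import Pool.Agent.VAN.J12

/-!
Singular sets of every dimension below `n - 1` give the whole restriction conjecture: definitions.
-/

set_option autoImplicit false

namespace Pool.Agent.VANn.DM

open MeasureTheory Set Pool.Agent.MP_6cbfb8_an
open scoped ENNReal Real ContDiff

variable {n : ℕ}

/-- The integer points. -/
def IsInt (y : E n) : Prop := ∀ i, ∃ m : ℤ, y i = m

/-- The local estimate on the ball of radius `R` with the constant `M`. -/
def Loc (n : ℕ) (p R M : ℝ) : Prop := ∀ g : E n → ℂ, Measurable g → (∀ x, ‖g x‖ ≤ 1) →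
  ∫⁻ ξ in Metric.ball 0 R, ‖extn g ξ‖ₑ ^ p ≤ ENNReal.ofReal (M ^ p)

/-- A radial cut-off, equal to `1` for `‖x‖ ≤ 1` and to `0` for `‖x‖ ^ 2 ≥ 2`. -/
noncomputable def ch (x : E n) : ℝ := Real.smoothTransition (2 - ‖x‖ ^ 2)

/-- For `0 < r ≤ 1` the set `Sig` is covered by at most `V r^(-κ)` balls of radius `r`. -/
def Cov (V κ : ℝ) (Sig : Set (E n)) : Prop :=
  ∀ r : ℝ, 0 < r → r ≤ 1 → ∃ Z : Finset (E n), (Z.card : ℝ) ≤ V * r ^ (-κ) ∧
    Sig ⊆ ⋃ z ∈ Z, Metric.ball z r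

/-- Phases: at the points `x` of the unit sphere whose ball of radius `r ≤ 1` does not meet `Sig`,
smooth, the derivatives of order `j ≥ 1` are at most `lam * B j / r^(A+j)`. -/
def Phs (A : ℕ) (B : ℕ → ℝ) (lam : ℝ) (Sig : Set (E n)) (ψ : E n → ℝ) : Prop :=
  ∀ x, ‖x‖ = 1 → ∀ r : ℝ, 0 < r → r ≤ 1 → Disjoint (Metric.ball x r) Sig →
    ContDiffAt ℝ ∞ ψ x ∧ ∀ j, 1 ≤ j → ‖iteratedFDeriv ℝ j ψ x‖ ≤ lam * B j / r ^ (A + j)

end Pool.Agent.VANn.DM
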