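import Pool.Agent.VANn.DM0
import Pool.Agent.VAN.DIM_S4
import Pool.Agent.MP_6cbfb8_an.Decay

/-!
Far translations of trigonometric sums are orthogonal on the sphere.
-/

set_option autoImplicit false

namespace Pool.Agent.VANn.DM

open MeasureTheory Set Filter Pool.Agent.MP_6cbfb8_an Pool.Agent.VAN Pool.Agent.VAN.DIM
open scoped ENNReal NNReal Real ContDiff FourierTransform

variable {n : ℕ}

/-- Fourier inversion for a bump. -/
lemma rep {χ : E n → ℝ} (h1 : HasCompactSupport χ) (h2 : ContDiff ℝ ∞ χ) :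
    ∃ F : SchwartzMap (E n) ℂ, ∀ x, (χ x : ℂ) =
      ∫ z, F z * Complex.exp (((2 * π * inner ℝ x z : ℝ) : ℂ) * Complex.I) := by
  have h1' : HasCompactSupport (fun x => (χ x : ℂ)) := h1.comp_left (g := fun t : ℝ => (t : ℂ)) rfl
  have h2' : ContDiff ℝ ∞ (fun x => (χ x : ℂ)) := Complex.ofRealCLM.contDiff.comp h2
  obtain ⟨f, hf⟩ : ∃ f : SchwartzMap (E n) ℂ, ∀ x, f x = (χ x : ℂ) :=
    ⟨h1'.toSchwartzMap h2', fun x => rfl⟩
  obtain ⟨F, hF⟩ : ∃ F : SchwartzMap (E n) ℂ, F = 𝓕 f := ⟨_, rfl⟩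
  have hFi : Integrable (F : E n → ℂ) := F.integrable
  refine ⟨F, fun x => ?_⟩
  have e1 : (F : E n → ℂ) = 𝓕 (f : E n → ℂ) := by
    rw [hF]; exact SchwartzMap.fourier_coe f
  have e2 : 𝓕⁻ (𝓕 (f : E n → ℂ)) x = f x := by
    refine f.integrable.fourierInv_fourier_eq ?_ f.continuous.continuousAt
    rw [← e1]; exact hFi
  rw [← hf, ← e2, Real.fourierInv_eq', ← e1]
  refine integral_congr_ae (Eventually.of_forall fun w => ?_)
  simp only [smul_eq_mul]
  rw [real_inner_comm, mul_comm]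

/-- The transform of a bump of radius `ρ` on the sphere. -/
lemma cap_decay (hn : 2 ≤ n) {χ : E n → ℝ} (h1 : HasCompactSupport χ) (h2 : ContDiff ℝ ∞ χ) :
    ∃ C : ℝ, 0 < C ∧ ∀ (ρ : ℝ) (u ξ : E n), 0 < ρ → ρ ≤ 1 → 1 ≤ ‖ξ‖ →
      ‖extn (fun w => (χ (ρ⁻¹ • (w - u)) : ℂ)) ξ‖ ≤ C * ρ⁻¹ * ‖ξ‖ ^ (-(1 / 2) : ℝ) := by
  obtain ⟨F, hF⟩ := rep h1 h2
  obtain ⟨j, rfl⟩ : ∃ j, n = j + 2 := ⟨n - 2, by omega⟩
  obtain ⟨C, hC, hdec⟩ := decay j
  set m := (sm (j + 2)).real univ with hm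
  have hm0 : 0 ≤ m := measureReal_nonneg
  have hFi : Integrable (F : E (j + 2) → ℂ) := F.integrable
  have hFi1 : Integrable (fun z => ‖z‖ * ‖F z‖) := by
    have := F.integrable_pow_mul volume 1
    simpa using this
  set I0 := ∫ z, ‖F z‖ with hI0
  set I1 := ∫ z, ‖z‖ * ‖F z‖ with hI1
  have hI0' : 0 ≤ I0 := integral_nonneg fun z => norm_nonneg _
  have hI1' : 0 ≤ I1 := integral_nonneg fun z => by positivity
  refine ⟨2 * (C + m) * I0 + 2 * m * I1 + 1, by positivity, fun ρ u ξ hρ hρ1 hξ => ?_⟩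
  have hξ0 : 0 < ‖ξ‖ := by linarith
  -- the representation
  have hrep : extn (fun w => (χ (ρ⁻¹ • (w - u)) : ℂ)) ξ =
      ∫ z, F z * Complex.exp (((-(2 * π * inner ℝ u (ρ⁻¹ • z)) : ℝ) : ℂ) * Complex.I) *
        extn (fun _ => (1:ℂ)) (ξ - ρ⁻¹ • z) := by
    have e1 : ∀ (w : S (j + 2)) (z : E (j + 2)),
        F z * Complex.exp (((2 * π * inner ℝ (ρ⁻¹ • ((w : E (j + 2)) - u)) z : ℝ) : ℂ) * Complex.I) *
          Complex.exp (((-(2 * π * inner ℝ (w : E (j + 2)) ξ) : ℝ) : ℂ) * Complex.I) =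
        F z * Complex.exp (((-(2 * π * inner ℝ u (ρ⁻¹ • z)) : ℝ) : ℂ) * Complex.I) *
          ((1:ℂ) * Complex.exp (((-(2 * π * inner ℝ (w : E (j + 2)) (ξ - ρ⁻¹ • z)) : ℝ) : ℂ) *
            Complex.I)) := by
      intro w z
      rw [one_mul, mul_assoc (F z), mul_assoc (F z), ← Complex.exp_add, ← Complex.exp_add]
      congr 2
      rw [inner_smul_left, inner_sub_left, inner_sub_right, inner_smul_right, inner_smul_right]
      push_cast
      simp only [conj_trivial]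
      push_cast
      ring
    calc extn (fun w => (χ (ρ⁻¹ • (w - u)) : ℂ)) ξ
        = ∫ w : S (j + 2), (∫ z : E (j + 2), F z *
            Complex.exp (((2 * π * inner ℝ (ρ⁻¹ • ((w : E (j + 2)) - u)) z : ℝ) : ℂ) * Complex.I) *
            Complex.exp (((-(2 * π * inner ℝ (w : E (j + 2)) ξ) : ℝ) : ℂ) * Complex.I))
              ∂(sm (j + 2)) := by
          unfold extn
          refine integral_congr_ae (Eventually.of_forall fun w => ?_)
          simp only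
          rw [hF, integral_mul_const]
      _ = ∫ z : E (j + 2), (∫ w : S (j + 2), F z *
            Complex.exp (((2 * π * inner ℝ (ρ⁻¹ • ((w : E (j + 2)) - u)) z : ℝ) : ℂ) * Complex.I) *
            Complex.exp (((-(2 * π * inner ℝ (w : E (j + 2)) ξ) : ℝ) : ℂ) * Complex.I)
              ∂(sm (j + 2))) := by
          refine integral_integral_swap ?_
          have h3 : Integrable (fun q : S (j + 2) × E (j + 2) => F q.2)
              ((sm (j + 2)).prod volume) := hFi.comp_snd (sm (j + 2))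
          refine (h3.mono ?_ (Eventually.of_forall fun q => ?_))
          · have := F.continuous
            exact (by fun_prop : Continuous fun q : S (j + 2) × E (j + 2) => F q.2 *
              Complex.exp (((2 * π * inner ℝ (ρ⁻¹ • ((q.1 : E (j + 2)) - u)) q.2 : ℝ) : ℂ) *
                Complex.I) *
              Complex.exp (((-(2 * π * inner ℝ (q.1 : E (j + 2)) ξ) : ℝ) : ℂ) *
                Complex.I)).aestronglyMeasurable
          · simp only [Function.uncurry]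
            rw [norm_mul, norm_mul, Complex.norm_exp_ofReal_mul_I, Complex.norm_exp_ofReal_mul_I,
              mul_one, mul_one]
      _ = _ := by
          refine integral_congr_ae (Eventually.of_forall fun z => ?_)
          simp only
          unfold extn
          rw [← integral_const_mul]
          exact integral_congr_ae (Eventually.of_forall fun w => e1 w z)
  have hone : ∀ ζ : E (j + 2), ‖extn (fun _ => (1:ℂ)) ζ‖ ≤ m := by
    intro ζ
    unfold extn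
    refine (norm_integral_le_of_norm_le_const (C := 1) (Eventually.of_forall fun w => ?_)).trans
      (by rw [one_mul])
    rw [one_mul, Complex.norm_exp_ofReal_mul_I]
  have hone2 : ∀ ζ : E (j + 2), ζ ≠ 0 → ‖extn (fun _ => (1:ℂ)) ζ‖ ≤ (C + m) * ‖ζ‖ ^ (-(1 / 2) : ℝ) := by
    intro ζ hζ
    have hζ0 : 0 < ‖ζ‖ := norm_pos_iff.2 hζ
    have h3 : 0 < ‖ζ‖ ^ (-(1 / 2) : ℝ) := Real.rpow_pos_of_pos hζ0 _
    rcases le_total 1 ‖ζ‖ with h | h
    · have h4 : ‖ζ‖ ^ (-((j : ℝ) + 1) / 2) ≤ ‖ζ‖ ^ (-(1 / 2) : ℝ) := by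
        refine Real.rpow_le_rpow_of_exponent_le h ?_
        have : (0:ℝ) ≤ j := Nat.cast_nonneg j
        linarith
      calc ‖extn (fun _ => (1:ℂ)) ζ‖ ≤ C * ‖ζ‖ ^ (-((j : ℝ) + 1) / 2) := hdec ζ hζ
        _ ≤ C * ‖ζ‖ ^ (-(1 / 2) : ℝ) := by gcongr
        _ ≤ _ := by nlinarith
    · have h4 : 1 ≤ ‖ζ‖ ^ (-(1 / 2) : ℝ) :=
        Real.one_le_rpow_of_pos_of_le_one_of_nonpos hζ0 h (by norm_num)
      have := hone ζ
      nlinarith
  have hX : 0 < ‖ξ‖ ^ (-(1 / 2) : ℝ) := Real.rpow_pos_of_pos hξ0 _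
  have hρi : 1 ≤ ρ⁻¹ := (one_le_inv₀ hρ).2 hρ1
  have hpt : ∀ z, ‖extn (fun _ => (1:ℂ)) (ξ - ρ⁻¹ • z)‖ ≤
      ρ⁻¹ * ‖ξ‖ ^ (-(1 / 2) : ℝ) * (2 * (C + m) + 2 * m * ‖z‖) := by
    intro z
    rcases le_total (ρ⁻¹ * ‖z‖) (‖ξ‖ / 2) with h | h
    · have h3 : ‖ξ‖ / 2 ≤ ‖ξ - ρ⁻¹ • z‖ := by
        have h4 := norm_sub_norm_le ξ (ρ⁻¹ • z)
        rw [norm_smul, Real.norm_eq_abs, abs_of_pos (by positivity)] at h4
        linarith
      have h5 : ξ - ρ⁻¹ • z ≠ 0 := by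
        intro h6
        rw [h6, norm_zero] at h3
        linarith
      have h7 : ‖ξ - ρ⁻¹ • z‖ ^ (-(1 / 2) : ℝ) ≤ 2 * ‖ξ‖ ^ (-(1 / 2) : ℝ) := by
        calc ‖ξ - ρ⁻¹ • z‖ ^ (-(1 / 2) : ℝ) ≤ (‖ξ‖ / 2) ^ (-(1 / 2) : ℝ) :=
              Real.rpow_le_rpow_of_nonpos (by positivity) h3 (by norm_num)
          _ = (2:ℝ) ^ (1 / 2 : ℝ) * ‖ξ‖ ^ (-(1 / 2) : ℝ) := by
              rw [Real.div_rpow hξ0.le (by norm_num), div_eq_mul_inv, ← Real.rpow_neg (by norm_num),
                neg_neg, mul_comm]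
          _ ≤ 2 * ‖ξ‖ ^ (-(1 / 2) : ℝ) := by
              gcongr
              calc (2:ℝ) ^ (1 / 2 : ℝ) ≤ 2 ^ (1:ℝ) :=
                    Real.rpow_le_rpow_of_exponent_le (by norm_num) (by norm_num)
                _ = 2 := Real.rpow_one 2
      calc ‖extn (fun _ => (1:ℂ)) (ξ - ρ⁻¹ • z)‖ ≤ (C + m) * (2 * ‖ξ‖ ^ (-(1 / 2) : ℝ)) :=
            (hone2 _ h5).trans (by gcongr)
        _ = 1 * ‖ξ‖ ^ (-(1 / 2) : ℝ) * (2 * (C + m)) := by ring
        _ ≤ ρ⁻¹ * ‖ξ‖ ^ (-(1 / 2) : ℝ) * (2 * (C + m) + 2 * m * ‖z‖) := by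
            gcongr
            have : 0 ≤ 2 * m * ‖z‖ := by positivity
            linarith
    · have h8 : 1 ≤ ‖ξ‖ ^ (-(1 / 2) : ℝ) * ‖ξ‖ := by
        rw [← Real.rpow_add_one hξ0.ne']
        exact Real.one_le_rpow hξ (by norm_num)
      have h9 : 1 ≤ ρ⁻¹ * ‖ξ‖ ^ (-(1 / 2) : ℝ) * (2 * ‖z‖) := by
        calc (1:ℝ) ≤ ‖ξ‖ ^ (-(1 / 2) : ℝ) * ‖ξ‖ := h8
          _ ≤ ‖ξ‖ ^ (-(1 / 2) : ℝ) * (2 * (ρ⁻¹ * ‖z‖)) := by gcongr; linarith
          _ = _ := by ring
      calc ‖extn (fun _ => (1:ℂ)) (ξ - ρ⁻¹ • z)‖ ≤ m * 1 := by rw [mul_one]; exact hone _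
        _ ≤ m * (ρ⁻¹ * ‖ξ‖ ^ (-(1 / 2) : ℝ) * (2 * ‖z‖)) := by gcongr
        _ = ρ⁻¹ * ‖ξ‖ ^ (-(1 / 2) : ℝ) * (2 * m * ‖z‖) := by ring
        _ ≤ _ := by
            gcongr
            have : 0 ≤ 2 * (C + m) := by positivity
            linarith
  rw [hrep]
  have hdom : Integrable (fun z => ρ⁻¹ * ‖ξ‖ ^ (-(1 / 2) : ℝ) *
      ((2 * (C + m)) * ‖F z‖ + 2 * m * (‖z‖ * ‖F z‖))) :=
    ((hFi.norm.const_mul _).add (hFi1.const_mul _)).const_mul _
  refine (norm_integral_le_of_norm_le hdom (Eventually.of_forall fun z => ?_)).trans (le_of_eq_of_le ?_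
    (?_ : ρ⁻¹ * ‖ξ‖ ^ (-(1 / 2) : ℝ) * ((2 * (C + m)) * I0 + 2 * m * I1) ≤ _))
  · rw [norm_mul, norm_mul, Complex.norm_exp_ofReal_mul_I, mul_one]
    calc ‖F z‖ * ‖extn (fun _ => (1:ℂ)) (ξ - ρ⁻¹ • z)‖ ≤
          ‖F z‖ * (ρ⁻¹ * ‖ξ‖ ^ (-(1 / 2) : ℝ) * (2 * (C + m) + 2 * m * ‖z‖)) := by
            gcongr
            exact hpt z
      _ = _ := by ring
  · rw [integral_const_mul, integral_add (hFi.norm.const_mul _) (hFi1.const_mul _),
      integral_const_mul, integral_const_mul]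
  · have h3 : 0 < ρ⁻¹ * ‖ξ‖ ^ (-(1 / 2) : ℝ) := by positivity
    calc ρ⁻¹ * ‖ξ‖ ^ (-(1 / 2) : ℝ) * ((2 * (C + m)) * I0 + 2 * m * I1) ≤
        ρ⁻¹ * ‖ξ‖ ^ (-(1 / 2) : ℝ) * ((2 * (C + m)) * I0 + 2 * m * I1 + 1) :=
          mul_le_mul_of_nonneg_left (by linarith) h3.le
      _ = _ := by ring

lemma norm_ex (y x : E n) : ‖ex y x‖ = 1 := by
  unfold ex
  exact Complex.norm_exp_ofReal_mul_I _

lemma ex_sub (y z x : E n) : ex y x * (starRingEnd ℂ) (ex z x) = ex (y - z) x := by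
  unfold ex
  rw [← Complex.exp_conj, ← Complex.exp_add]
  congr 1
  simp only [map_mul, Complex.conj_ofReal, Complex.conj_I, inner_sub_right]
  push_cast
  ring

lemma continuous_ex (y : E n) : Continuous (ex y) := by
  unfold ex
  fun_prop

/-- The quadratic form. -/
lemma quad (X : Finset (E n)) (a : E n → ℂ) (κ : E n → ℝ) (hκ : Continuous κ) (hκ0 : ∀ x, 0 ≤ κ x)
    (δ : ℝ) (hδ : 0 ≤ δ) (h : ∀ x ∈ X, ∀ x' ∈ X, x ≠ x' → ‖extn (fun w => (κ w : ℂ)) (x - x')‖ ≤ δ) :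
    ∫ w : S n, ‖∑ x ∈ X, ex x (w : E n) * a x‖ ^ 2 * κ w ∂(sm n) ≤
      (∑ x ∈ X, ‖a x‖ ^ 2) * ∫ w : S n, κ w ∂(sm n) + (∑ x ∈ X, ‖a x‖) ^ 2 * δ := by
  have hint : ∀ f : E n → ℂ, Continuous f → Integrable (fun w : S n => f w) (sm n) := by
    intro f hf
    obtain ⟨M, hM⟩ := (isCompact_sphere (0 : E n) 1).exists_bound_of_continuousOn hf.continuousOn
    exact Integrable.of_bound (hf.comp continuous_subtype_val).aestronglyMeasurable M
      (Eventually.of_forall fun w => hM _ w.2)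
  have hpt : ∀ w : E n, ((‖∑ x ∈ X, ex x w * a x‖ ^ 2 * κ w : ℝ) : ℂ) =
      ∑ x ∈ X, ∑ x' ∈ X, a x * (starRingEnd ℂ) (a x') * ((κ w : ℂ) * ex (x - x') w) := by
    intro w
    rw [Complex.ofReal_mul, Complex.ofReal_pow, ← Complex.mul_conj', map_sum, Finset.sum_mul_sum,
      Finset.sum_mul]
    refine Finset.sum_congr rfl fun x _ => ?_
    rw [Finset.sum_mul]
    refine Finset.sum_congr rfl fun x' _ => ?_
    rw [← ex_sub, map_mul]
    ring
  have hex : ∀ ξ : E n, ∫ w : S n, (κ w : ℂ) * ex ξ (w : E n) ∂(sm n) =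
      extn (fun w => (κ w : ℂ)) ξ := fun ξ => rfl
  have hs0 : 0 ≤ ∫ w : S n, κ w ∂(sm n) := integral_nonneg fun w => hκ0 _
  have h0 : ‖extn (fun w => (κ w : ℂ)) (0 : E n)‖ = ∫ w : S n, κ w ∂(sm n) := by
    have : extn (fun w => (κ w : ℂ)) (0 : E n) = ((∫ w : S n, κ w ∂(sm n) : ℝ) : ℂ) := by
      unfold extn
      rw [← integral_complex_ofReal]
      refine integral_congr_ae (Eventually.of_forall fun w => ?_)
      simp
    rw [this, Complex.norm_real, Real.norm_eq_abs, abs_of_nonneg hs0]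
  have heq : ((∫ w : S n, ‖∑ x ∈ X, ex x (w : E n) * a x‖ ^ 2 * κ w ∂(sm n) : ℝ) : ℂ) =
      ∑ x ∈ X, ∑ x' ∈ X, a x * (starRingEnd ℂ) (a x') * extn (fun w => (κ w : ℂ)) (x - x') := by
    rw [← integral_complex_ofReal]
    rw [integral_congr_ae (Eventually.of_forall fun w : S n => hpt w)]
    rw [integral_finsetSum _ fun x _ => integrable_finsetSum _ fun x' _ =>
      ((hint (fun w => (κ w : ℂ) * ex (x - x') w) ((Complex.continuous_ofReal.comp hκ).mul
        (continuous_ex _))).const_mul _)]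
    refine Finset.sum_congr rfl fun x _ => ?_
    rw [integral_finsetSum _ fun x' _ =>
      ((hint (fun w => (κ w : ℂ) * ex (x - x') w) ((Complex.continuous_ofReal.comp hκ).mul
        (continuous_ex _))).const_mul _)]
    refine Finset.sum_congr rfl fun x' _ => ?_
    rw [integral_const_mul, hex]
  have h1 : 0 ≤ ∫ w : S n, ‖∑ x ∈ X, ex x (w : E n) * a x‖ ^ 2 * κ w ∂(sm n) :=
    integral_nonneg fun w => mul_nonneg (by positivity) (hκ0 _)
  rw [← abs_of_nonneg h1, ← Real.norm_eq_abs, ← Complex.norm_real, heq]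
  calc ‖∑ x ∈ X, ∑ x' ∈ X, a x * (starRingEnd ℂ) (a x') * extn (fun w => (κ w : ℂ)) (x - x')‖
      ≤ ∑ x ∈ X, ∑ x' ∈ X, ((if x = x' then ‖a x‖ ^ 2 * ∫ w : S n, κ w ∂(sm n) else 0) +
          ‖a x‖ * ‖a x'‖ * δ) := by
        refine (norm_sum_le _ _).trans (Finset.sum_le_sum fun x hx => (norm_sum_le _ _).trans
          (Finset.sum_le_sum fun x' hx' => ?_))
        rw [norm_mul, norm_mul, RCLike.norm_conj]
        by_cases hxx : x = x'
        · subst hxx
          rw [if_pos rfl, sub_self, h0]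
          have : 0 ≤ ‖a x‖ * ‖a x‖ * δ := by positivity
          nlinarith
        · rw [if_neg hxx, zero_add]
          gcongr
          exact h x hx x' hx' hxx
    _ = _ := by
        rw [sq (∑ x ∈ X, ‖a x‖), Finset.sum_mul_sum, Finset.sum_mul, Finset.sum_mul,
          ← Finset.sum_add_distrib]
        refine Finset.sum_congr rfl fun x hx => ?_
        rw [Finset.sum_add_distrib, Finset.sum_ite_eq, if_pos hx, Finset.sum_mul]

lemma sq_sum_le {ι : Type*} (X : Finset ι) (d : ι → ℝ) (hd : ∀ i, 0 ≤ d i) :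
    ∑ i ∈ X, d i ^ 2 ≤ (∑ i ∈ X, d i) ^ 2 := by
  classical
  induction X using Finset.induction_on with
  | empty => simp
  | insert a X ha ih =>
    rw [Finset.sum_insert ha, Finset.sum_insert ha]
    have h1 : 0 ≤ ∑ i ∈ X, d i := Finset.sum_nonneg fun i _ => hd i
    nlinarith [hd a, mul_nonneg (hd a) h1]

lemma sqrt_tri {ι : Type*} (X : Finset ι) (a b : ι → ℂ) :
    √(∑ i ∈ X, ‖a i‖ ^ 2) ≤ √(∑ i ∈ X, ‖b i‖ ^ 2) + ∑ i ∈ X, ‖a i - b i‖ := by
  have h1 : ∀ f : ι → ℂ, √(∑ i ∈ X, ‖f i‖ ^ 2) =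
      ‖(WithLp.toLp 2 (fun i : X => f i) : EuclideanSpace ℂ X)‖ := by
    intro f
    rw [EuclideanSpace.norm_eq]
    congr 1
    exact (Finset.sum_coe_sort X fun i => ‖f i‖ ^ 2).symm
  have h2 : √(∑ i ∈ X, ‖a i - b i‖ ^ 2) ≤ ∑ i ∈ X, ‖a i - b i‖ := by
    rw [Real.sqrt_le_left (Finset.sum_nonneg fun i _ => norm_nonneg _)]
    exact sq_sum_le X _ fun i => norm_nonneg _
  refine le_trans ?_ (add_le_add_right h2 _)
  rw [h1, h1, h1 (fun i => a i - b i)]
  have h3 : (WithLp.toLp 2 (fun i : X => a i - b i) : EuclideanSpace ℂ X) =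
      WithLp.toLp 2 (fun i : X => a i) - WithLp.toLp 2 (fun i : X => b i) := rfl
  rw [h3]
  have := norm_add_le (WithLp.toLp 2 (fun i : X => b i) : EuclideanSpace ℂ X)
    (WithLp.toLp 2 (fun i : X => a i) - WithLp.toLp 2 (fun i : X => b i))
  rwa [add_sub_cancel] at this

lemma phase_sub_le (s t : ℝ) :
    ‖Complex.exp ((s : ℂ) * Complex.I) - Complex.exp ((t : ℂ) * Complex.I)‖ ≤ |s - t| := by
  have h1 : Complex.exp ((s : ℂ) * Complex.I) - Complex.exp ((t : ℂ) * Complex.I) =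
      Complex.exp ((t : ℂ) * Complex.I) * (Complex.exp (Complex.I * ((s - t : ℝ) : ℂ)) - 1) := by
    rw [mul_sub, ← Complex.exp_add, mul_one]
    congr 2
    push_cast
    ring
  rw [h1, norm_mul, Complex.norm_exp_ofReal_mul_I, one_mul]
  exact Real.norm_exp_I_mul_ofReal_sub_one_le

lemma ex_lip (y w u : E n) : ‖ex y w - ex y u‖ ≤ 2 * π * ‖y‖ * ‖w - u‖ := by
  have h1 : ‖ex y w - ex y u‖ ≤ |(-(2 * π * inner ℝ w y)) - (-(2 * π * inner ℝ u y))| := by
    unfold ex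
    have := phase_sub_le (-(2 * π * inner ℝ w y)) (-(2 * π * inner ℝ u y))
    exact this
  refine h1.trans ?_
  have h2 : -(2 * π * inner ℝ w y) - -(2 * π * inner ℝ u y) = -(2 * π * inner ℝ (w - u) y) := by
    rw [inner_sub_left]
    ring
  rw [h2, abs_neg, abs_mul, abs_of_pos (by positivity : (0:ℝ) < 2 * π)]
  have h3 := abs_real_inner_le_norm (w - u) y
  calc 2 * π * |inner ℝ (w - u) y| ≤ 2 * π * (‖w - u‖ * ‖y‖) := by gcongr
    _ = _ := by ring

/-- The inequality near one point. -/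
lemma local_ineq (X Y : Finset (E n)) (c : E n → E n → ℂ) (R T ρ δ τ : ℝ) (u : E n) (κ : E n → ℝ)
    (hR : 0 ≤ R) (hρ : 0 ≤ ρ) (hδ : 0 ≤ δ) (hτ : 0 < τ) (hY : ∀ y ∈ Y, ‖y‖ ≤ R)
    (hT : ∑ x ∈ X, ∑ y ∈ Y, ‖c x y‖ ≤ T) (hκ : Continuous κ) (hκ0 : ∀ x, 0 ≤ κ x)
    (hκs : ∀ x, κ x ≠ 0 → ‖x - u‖ ≤ 2 * ρ)
    (h : ∀ x ∈ X, ∀ x' ∈ X, x ≠ x' → ‖extn (fun w => (κ w : ℂ)) (x - x')‖ ≤ δ) :
    ∫ w : S n, ‖∑ x ∈ X, ex x (w : E n) * ∑ y ∈ Y, c x y * ex y (w : E n)‖ * κ w ∂(sm n) ≤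
      ∫ w : S n, (√(∑ x ∈ X, ‖∑ y ∈ Y, c x y * ex y (w : E n)‖ ^ 2) +
        (8 * π * R * ρ * T + τ / 2)) * κ w ∂(sm n) + T ^ 2 * δ / (2 * τ) := by
  have hint : ∀ f : E n → ℝ, Continuous f → Integrable (fun w : S n => f w) (sm n) := by
    intro f hf
    obtain ⟨M, hM⟩ := (isCompact_sphere (0 : E n) 1).exists_bound_of_continuousOn hf.continuousOn
    exact Integrable.of_bound (hf.comp continuous_subtype_val).aestronglyMeasurable M
      (Eventually.of_forall fun w => hM _ w.2)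
  set P : E n → E n → ℂ := fun x w => ∑ y ∈ Y, c x y * ex y w with hP
  have hPc : ∀ x, Continuous (P x) := fun x => continuous_finsetSum _ fun y _ =>
    continuous_const.mul (continuous_ex y)
  set W : E n → ℝ := fun w => √(∑ x ∈ X, ‖P x w‖ ^ 2) with hW
  have hWc : Continuous W := Real.continuous_sqrt.comp (continuous_finsetSum _ fun x _ =>
    (hPc x).norm.pow 2)
  set ℓ := 4 * π * R * ρ * T with hℓ
  have hT0 : 0 ≤ T := (Finset.sum_nonneg fun x _ => Finset.sum_nonneg fun y _ =>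
    norm_nonneg _).trans hT
  have hdiff : ∀ w, ‖w - u‖ ≤ 2 * ρ → ∑ x ∈ X, ‖P x w - P x u‖ ≤ ℓ := by
    intro w hw
    calc ∑ x ∈ X, ‖P x w - P x u‖ ≤ ∑ x ∈ X, ∑ y ∈ Y, ‖c x y‖ * (2 * π * R * (2 * ρ)) := by
          refine Finset.sum_le_sum fun x _ => ?_
          have h1 : P x w - P x u = ∑ y ∈ Y, c x y * (ex y w - ex y u) := by
            simp only [hP]
            rw [← Finset.sum_sub_distrib]
            exact Finset.sum_congr rfl fun y _ => by ring
          rw [h1]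
          refine (norm_sum_le _ _).trans (Finset.sum_le_sum fun y hy => ?_)
          rw [norm_mul]
          gcongr
          refine (ex_lip y w u).trans ?_
          have := hY y hy
          gcongr
      _ = (∑ x ∈ X, ∑ y ∈ Y, ‖c x y‖) * (2 * π * R * (2 * ρ)) := by
          rw [Finset.sum_mul]
          exact Finset.sum_congr rfl fun x _ => (Finset.sum_mul _ _ _).symm
      _ ≤ T * (2 * π * R * (2 * ρ)) := by gcongr
      _ = ℓ := by rw [hℓ]; ring
  have hℓ0 : 0 ≤ ℓ := by positivity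
  have hWu : 0 ≤ W u := Real.sqrt_nonneg _
  set t := W u + τ with ht
  have ht0 : 0 < t := by positivity
  set s := ∫ w : S n, κ w ∂(sm n) with hs
  have hs0 : 0 ≤ s := integral_nonneg fun w => hκ0 _
  have hPu : ∑ x ∈ X, ‖P x u‖ ≤ T := by
    refine le_trans (Finset.sum_le_sum fun x _ => ?_) hT
    refine (norm_sum_le _ _).trans (Finset.sum_le_sum fun y _ => ?_)
    rw [norm_mul, norm_ex, mul_one]
  have hq := quad X (fun x => P x u) κ hκ hκ0 δ hδ h
  have hWsq : ∑ x ∈ X, ‖P x u‖ ^ 2 = W u ^ 2 :=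
    (Real.sq_sqrt (Finset.sum_nonneg fun x _ => by positivity)).symm
  rw [hWsq, ← hs] at hq
  have hhc : Continuous fun w : E n => ∑ x ∈ X, ex x w * P x u := continuous_finsetSum _ fun x _ =>
    (continuous_ex x).mul continuous_const
  have hfc : Continuous fun w : E n => ∑ x ∈ X, ex x w * P x w := continuous_finsetSum _ fun x _ =>
    (continuous_ex x).mul (hPc x)
  have h1 : ∫ w : S n, ‖∑ x ∈ X, ex x (w : E n) * P x w‖ * κ w ∂(sm n) ≤
      ∫ w : S n, ((t / 2 + ℓ) * κ w + (1 / (2 * t)) *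
        (‖∑ x ∈ X, ex x (w : E n) * P x u‖ ^ 2 * κ w)) ∂(sm n) := by
    refine integral_mono (hint (fun w => ‖∑ x ∈ X, ex x w * P x w‖ * κ w) (hfc.norm.mul hκ))
      (hint (fun w => (t / 2 + ℓ) * κ w + (1 / (2 * t)) *
        (‖∑ x ∈ X, ex x w * P x u‖ ^ 2 * κ w)) (by fun_prop)) fun w => ?_
    simp only
    by_cases hκw : κ w = 0
    · rw [hκw]
      simp
    · have h2 := hdiff w (hκs _ hκw)
      have h3 : ‖∑ x ∈ X, ex x (w : E n) * P x w‖ ≤ ‖∑ x ∈ X, ex x (w : E n) * P x u‖ + ℓ := by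
        have h4 : ∑ x ∈ X, ex x (w : E n) * P x w = ∑ x ∈ X, ex x (w : E n) * P x u +
            ∑ x ∈ X, ex x (w : E n) * (P x w - P x u) := by
          rw [← Finset.sum_add_distrib]
          exact Finset.sum_congr rfl fun x _ => by ring
        rw [h4]
        refine (norm_add_le _ _).trans (add_le_add le_rfl (le_trans ?_ h2))
        refine (norm_sum_le _ _).trans (le_of_eq (Finset.sum_congr rfl fun x _ => ?_))
        rw [norm_mul, norm_ex, one_mul]
      set z := ‖∑ x ∈ X, ex x (w : E n) * P x u‖ with hz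
      have h5 : z ≤ t / 2 + (1 / (2 * t)) * z ^ 2 := by
        have h6 : 0 ≤ (z - t) ^ 2 / (2 * t) := by positivity
        have h7 : (z - t) ^ 2 / (2 * t) = t / 2 + (1 / (2 * t)) * z ^ 2 - z := by
          field_simp
          ring
        linarith
      have h8 : ‖∑ x ∈ X, ex x (w : E n) * P x w‖ ≤ t / 2 + ℓ + (1 / (2 * t)) * z ^ 2 := by
        linarith
      calc ‖∑ x ∈ X, ex x (w : E n) * P x w‖ * κ w ≤
          (t / 2 + ℓ + (1 / (2 * t)) * z ^ 2) * κ w := mul_le_mul_of_nonneg_right h8 (hκ0 _)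
        _ = _ := by ring
  have h2 : ∫ w : S n, ((t / 2 + ℓ) * κ w + (1 / (2 * t)) *
        (‖∑ x ∈ X, ex x (w : E n) * P x u‖ ^ 2 * κ w)) ∂(sm n) =
      (t / 2 + ℓ) * s + (1 / (2 * t)) *
        ∫ w : S n, ‖∑ x ∈ X, ex x (w : E n) * P x u‖ ^ 2 * κ w ∂(sm n) := by
    rw [integral_add ((hint κ hκ).const_mul _) ((hint (fun w => ‖∑ x ∈ X, ex x w * P x u‖ ^ 2 * κ w)
      (by fun_prop)).const_mul _), integral_const_mul, integral_const_mul]
  have h3 : (1 / (2 * t)) * ∫ w : S n, ‖∑ x ∈ X, ex x (w : E n) * P x u‖ ^ 2 * κ w ∂(sm n) ≤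
      W u / 2 * s + T ^ 2 * δ / (2 * τ) := by
    calc (1 / (2 * t)) * ∫ w : S n, ‖∑ x ∈ X, ex x (w : E n) * P x u‖ ^ 2 * κ w ∂(sm n) ≤
        (1 / (2 * t)) * (W u ^ 2 * s + T ^ 2 * δ) := by
          refine mul_le_mul_of_nonneg_left (hq.trans ?_) (by positivity)
          gcongr
      _ = W u ^ 2 / (2 * t) * s + T ^ 2 * δ / (2 * t) := by
          field_simp
      _ ≤ _ := by
          refine add_le_add (mul_le_mul_of_nonneg_right ?_ hs0) ?_
          · rw [div_le_div_iff₀ (by positivity) (by norm_num)]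
            nlinarith
          · gcongr
            linarith
  have h4 : (W u + (ℓ + τ / 2)) * s ≤ ∫ w : S n, (W w + (2 * ℓ + τ / 2)) * κ w ∂(sm n) := by
    rw [hs, ← integral_const_mul]
    refine integral_mono ((hint κ hκ).const_mul _) (hint (fun w => (W w + (2 * ℓ + τ / 2)) * κ w)
      (by fun_prop)) fun w => ?_
    simp only
    by_cases hκw : κ w = 0
    · rw [hκw]
      simp
    · have h5 := hdiff w (hκs _ hκw)
      have h6 := sqrt_tri X (fun x => P x u) (fun x => P x w)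
      have h7 : ∑ x ∈ X, ‖P x u - P x w‖ ≤ ℓ := by
        refine le_trans (le_of_eq (Finset.sum_congr rfl fun x _ => norm_sub_rev _ _)) h5
      have h8 : W u ≤ W w + ℓ := h6.trans (add_le_add le_rfl h7)
      exact mul_le_mul_of_nonneg_right (by linarith) (hκ0 _)
  have h5 : 8 * π * R * ρ * T + τ / 2 = 2 * ℓ + τ / 2 := by rw [hℓ]; ring
  rw [h5]
  calc ∫ w : S n, ‖∑ x ∈ X, ex x (w : E n) * P x w‖ * κ w ∂(sm n) ≤
      (t / 2 + ℓ) * s + (W u / 2 * s + T ^ 2 * δ / (2 * τ)) := by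
        rw [h2] at h1
        linarith
    _ = (W u + (ℓ + τ / 2)) * s + T ^ 2 * δ / (2 * τ) := by rw [ht]; ring
    _ ≤ _ := by linarith

lemma ch_eq_one {x : E n} (hx : ‖x‖ ≤ 1) : ch x = 1 := by
  unfold ch
  exact Real.smoothTransition.one_of_one_le (by nlinarith [norm_nonneg x])

lemma ch_eq_zero {x : E n} (hx : 2 ≤ ‖x‖ ^ 2) : ch x = 0 := by
  unfold ch
  exact Real.smoothTransition.zero_of_nonpos (by linarith)

lemma ch_nonneg (x : E n) : 0 ≤ ch x := Real.smoothTransition.nonneg _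

lemma ch_le_one (x : E n) : ch x ≤ 1 := Real.smoothTransition.le_one _

lemma ch_contDiff : ContDiff ℝ ∞ (ch : E n → ℝ) := by
  unfold ch
  exact Real.smoothTransition.contDiff.comp (contDiff_const.sub (contDiff_norm_sq ℝ))

lemma ch_compact : HasCompactSupport (ch : E n → ℝ) := by
  refine HasCompactSupport.intro (isCompact_closedBall (0 : E n) 2) fun x hx => ch_eq_zero ?_
  rw [Metric.mem_closedBall, dist_zero_right, not_le] at hx
  nlinarith

lemma ch_int_pos : 0 < ∫ u : E n, ch u := by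
  have h1 : Continuous (ch : E n → ℝ) := ch_contDiff.continuous
  refine (integral_pos_iff_support_of_nonneg ch_nonneg
    (h1.integrable_of_hasCompactSupport ch_compact)).2 ?_
  refine (Metric.measure_ball_pos volume (0 : E n) one_pos).trans_le (measure_mono fun x hx => ?_)
  rw [Function.mem_support, ch_eq_one (by simpa using (Metric.mem_ball.1 hx).le)]
  exact one_ne_zero

lemma ch_int_scaled {ρ : ℝ} (hρ : 0 < ρ) (w : E n) :
    ∫⁻ u : E n, ENNReal.ofReal (ch (ρ⁻¹ • (w - u))) = ENNReal.ofReal (ρ ^ n * ∫ u : E n, ch u) := by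
  rw [lintegral_sub_left_eq_self (fun v => ENNReal.ofReal (ch (ρ⁻¹ • v))) w]
  have h1 : Continuous (ch : E n → ℝ) := ch_contDiff.continuous
  have h2 : Integrable (fun v : E n => ch (ρ⁻¹ • v)) :=
    (h1.integrable_of_hasCompactSupport ch_compact).comp_smul (inv_ne_zero hρ.ne')
  rw [← ofReal_integral_eq_lintegral_ofReal h2 (Eventually.of_forall fun v => ch_nonneg _),
    Measure.integral_comp_inv_smul_of_nonneg volume ch hρ.le, finrank_euclideanSpace_fin, smul_eq_mul]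

/-- The mean over the positions of the bump. -/
lemma avg {ρ : ℝ} (hρ : 0 < ρ) {g : E n → ℝ} (hg : Continuous g) (hg0 : ∀ x, 0 ≤ g x) :
    ∫⁻ u : E n, ENNReal.ofReal (∫ w : S n, g w * ch (ρ⁻¹ • ((w : E n) - u)) ∂(sm n)) =
      ENNReal.ofReal (ρ ^ n * ∫ u : E n, ch u) * ENNReal.ofReal (∫ w : S n, g w ∂(sm n)) := by
  have hint : ∀ f : E n → ℝ, Continuous f → Integrable (fun w : S n => f w) (sm n) := by
    intro f hf
    obtain ⟨M, hM⟩ := (isCompact_sphere (0 : E n) 1).exists_bound_of_continuousOn hf.continuousOn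
    exact Integrable.of_bound (hf.comp continuous_subtype_val).aestronglyMeasurable M
      (Eventually.of_forall fun w => hM _ w.2)
  have hch : Continuous (ch : E n → ℝ) := ch_contDiff.continuous
  have h1 : ∀ u : E n, ENNReal.ofReal (∫ w : S n, g w * ch (ρ⁻¹ • ((w : E n) - u)) ∂(sm n)) =
      ∫⁻ w : S n, ENNReal.ofReal (g w) * ENNReal.ofReal (ch (ρ⁻¹ • ((w : E n) - u))) ∂(sm n) := by
    intro u
    rw [ofReal_integral_eq_lintegral_ofReal (hint (fun w => g w * ch (ρ⁻¹ • (w - u))) (by fun_prop))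
      (Eventually.of_forall fun w => mul_nonneg (hg0 _) (ch_nonneg _))]
    refine lintegral_congr fun w => ?_
    rw [ENNReal.ofReal_mul (hg0 _)]
  rw [lintegral_congr h1, lintegral_lintegral_swap]
  · have h2 : ∀ w : S n, ∫⁻ u : E n, ENNReal.ofReal (g w) *
        ENNReal.ofReal (ch (ρ⁻¹ • ((w : E n) - u))) =
        ENNReal.ofReal (g w) * ENNReal.ofReal (ρ ^ n * ∫ u : E n, ch u) := by
      intro w
      rw [lintegral_const_mul' _ _ ENNReal.ofReal_ne_top, ch_int_scaled hρ]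
    rw [lintegral_congr h2, lintegral_mul_const' _ _ ENNReal.ofReal_ne_top, mul_comm,
      ofReal_integral_eq_lintegral_ofReal (hint g hg) (Eventually.of_forall fun w => hg0 _)]
  · refine Measurable.aemeasurable ?_
    have : Measurable fun q : E n × S n => ENNReal.ofReal (g q.2) *
        ENNReal.ofReal (ch (ρ⁻¹ • ((q.2 : E n) - q.1))) := by
      have a1 : Measurable fun q : E n × S n => ENNReal.ofReal (g q.2) :=
        ENNReal.measurable_ofReal.comp (by fun_prop : Continuous fun q : E n × S n =>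
          g (q.2 : E n)).measurable
      have a2 : Measurable fun q : E n × S n => ENNReal.ofReal (ch (ρ⁻¹ • ((q.2 : E n) - q.1))) :=
        ENNReal.measurable_ofReal.comp (by fun_prop : Continuous fun q : E n × S n =>
          ch (ρ⁻¹ • ((q.2 : E n) - q.1))).measurable
      exact a1.mul a2
    exact this

lemma sq_rpow_neg_half {x : ℝ} (hx : 0 < x) : (x ^ 2) ^ (-(1 / 2) : ℝ) = x⁻¹ := by
  rw [Real.rpow_neg (by positivity), ← Real.sqrt_eq_rpow, Real.sqrt_sq hx.le]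

set_option maxHeartbeats 1000000 in
theorem orth_sparse (n : ℕ) (hn : 2 ≤ n) : ∃ (A : ℕ) (K : ℝ), 1 ≤ K ∧ ∀ (R T : ℝ), 1 ≤ R → 1 ≤ T →
    ∀ (X Y : Finset (E n)) (c : E n → E n → ℂ), (∀ y ∈ Y, ‖y‖ ≤ R) →
      ∑ x ∈ X, ∑ y ∈ Y, ‖c x y‖ ≤ T →
      (∀ x ∈ X, ∀ x' ∈ X, x ≠ x' → K * (R * T) ^ A ≤ dist x x') →
      ∫ w : S n, ‖∑ x ∈ X, ex x (w : E n) * ∑ y ∈ Y, c x y * ex y (w : E n)‖ ∂(sm n) ≤
        ∫ w : S n, √(∑ x ∈ X, ‖∑ y ∈ Y, c x y * ex y (w : E n)‖ ^ 2) ∂(sm n) + 1 := by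
  obtain ⟨C, hC, hdec⟩ := cap_decay hn (ch_compact (n := n)) ch_contDiff
  set m := (sm n).real univ with hm
  have hm0 : 0 ≤ m := measureReal_nonneg
  set I0 := ∫ u : E n, ch u with hI0
  have hI0' : 0 < I0 := ch_int_pos
  set V3 := (volume : Measure (E n)).real (Metric.ball 0 3) with hV3
  have hV3' : 0 ≤ V3 := measureReal_nonneg
  set c1 := 32 * π * (m + 1) with hc1
  have hc1' : 1 ≤ c1 := by
    have := Real.pi_gt_three
    nlinarith
  set K0 := C * c1 ^ (n + 1) * (m + 1) * V3 / I0 with hK0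
  have hK0' : 0 ≤ K0 := by positivity
  refine ⟨2 * (n + 3), (2 * K0 + 1) ^ 2, by nlinarith, fun R T hR hT X Y c hY hcT hX => ?_⟩
  set ρ := (c1 * (R * T))⁻¹ with hρdef
  have hRT : 1 ≤ R * T := one_le_mul_of_one_le_of_one_le hR hT
  have hρ : 0 < ρ := by positivity
  have hρ1 : ρ ≤ 1 := inv_le_one_of_one_le₀ (one_le_mul_of_one_le_of_one_le hc1' hRT)
  set D := (2 * K0 + 1) ^ 2 * (R * T) ^ (2 * (n + 3)) with hD
  have hD1 : 1 ≤ D := one_le_mul_of_one_le_of_one_le (by nlinarith) (one_le_pow₀ hRT)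
  set δ := C * ρ⁻¹ * D ^ (-(1 / 2) : ℝ) with hδ
  have hδ0 : 0 ≤ δ := by positivity
  set τ := (2 * (m + 1))⁻¹ with hτ
  have hτ0 : 0 < τ := by positivity
  set e1 := 8 * π * R * ρ * T + τ / 2 with he1
  have he10 : 0 ≤ e1 := by positivity
  set Er := T ^ 2 * δ / (2 * τ) with hEr
  have hEr0 : 0 ≤ Er := by positivity
  set f : E n → ℂ := fun w => ∑ x ∈ X, ex x w * ∑ y ∈ Y, c x y * ex y w with hf
  set W : E n → ℝ := fun w => √(∑ x ∈ X, ‖∑ y ∈ Y, c x y * ex y w‖ ^ 2) with hW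
  have hPc : ∀ x, Continuous fun w : E n => ∑ y ∈ Y, c x y * ex y w := fun x =>
    continuous_finsetSum _ fun y _ => continuous_const.mul (continuous_ex y)
  have hfc : Continuous f := continuous_finsetSum _ fun x _ => (continuous_ex x).mul (hPc x)
  have hWc : Continuous W := Real.continuous_sqrt.comp (continuous_finsetSum _ fun x _ =>
    (hPc x).norm.pow 2)
  have hch : Continuous (ch : E n → ℝ) := ch_contDiff.continuous
  have hsupp : ∀ u w : E n, ch (ρ⁻¹ • (w - u)) ≠ 0 → ‖w - u‖ ≤ 2 * ρ := by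
    intro u w h
    by_contra hcon
    push Not at hcon
    refine h (ch_eq_zero ?_)
    rw [norm_smul, norm_inv, Real.norm_eq_abs, abs_of_pos hρ]
    have h1 : 2 ≤ ρ⁻¹ * ‖w - u‖ := by
      rw [inv_mul_eq_div, le_div_iff₀ hρ]
      exact hcon.le
    nlinarith
  have hloc : ∀ u : E n, ∫ w : S n, ‖f w‖ * ch (ρ⁻¹ • ((w : E n) - u)) ∂(sm n) ≤
      ∫ w : S n, (W w + e1) * ch (ρ⁻¹ • ((w : E n) - u)) ∂(sm n) +
        (Metric.ball (0 : E n) 3).indicator (fun _ => Er) u := by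
    intro u
    by_cases hu : u ∈ Metric.ball (0 : E n) 3
    · rw [indicator_of_mem hu]
      refine local_ineq X Y c R T ρ δ τ u (fun w => ch (ρ⁻¹ • (w - u))) (by linarith) hρ.le hδ0 hτ0
        hY hcT (by fun_prop) (fun x => ch_nonneg _) (fun x hx => hsupp u x hx) fun x hx x' hx' hne => ?_
      have h1 := hX x hx x' hx' hne
      rw [dist_eq_norm] at h1
      refine (hdec ρ u (x - x') hρ hρ1 (hD1.trans h1)).trans ?_
      rw [hδ]
      gcongr ?_ * ?_
      exact Real.rpow_le_rpow_of_nonpos (by positivity) h1 (by norm_num)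
    · rw [indicator_of_notMem hu, add_zero]
      have h0 : ∀ w : S n, ch (ρ⁻¹ • ((w : E n) - u)) = 0 := by
        intro w
        by_contra hcon
        have h1 := hsupp u w hcon
        have h2 : ‖(w : E n)‖ = 1 := by simp
        rw [Metric.mem_ball, dist_zero_right, not_lt] at hu
        have h3 : ‖u‖ ≤ ‖(w : E n)‖ + ‖(w : E n) - u‖ := by
          have := norm_sub_le (w : E n) ((w : E n) - u)
          rwa [sub_sub_cancel] at this
        have h4 : ‖(w : E n) - u‖ = 2 := by linarith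
        have h5 : ch (ρ⁻¹ • ((w : E n) - u)) = 0 := by
          refine ch_eq_zero ?_
          rw [norm_smul, norm_inv, Real.norm_eq_abs, abs_of_pos hρ, h4]
          have h6 : 1 ≤ ρ⁻¹ := (one_le_inv₀ hρ).2 hρ1
          nlinarith
        exact hcon h5
      simp only [h0, mul_zero, integral_zero, le_refl]
  have hnn : ∀ u : E n, 0 ≤ ∫ w : S n, (W w + e1) * ch (ρ⁻¹ • ((w : E n) - u)) ∂(sm n) := fun u =>
    integral_nonneg fun w => mul_nonneg (add_nonneg (Real.sqrt_nonneg _) he10) (ch_nonneg _)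
  have key := lintegral_mono (μ := (volume : Measure (E n))) fun u : E n =>
    ENNReal.ofReal_le_ofReal (hloc u)
  have hsplit : ∫⁻ u : E n, ENNReal.ofReal (∫ w : S n, (W w + e1) *
        ch (ρ⁻¹ • ((w : E n) - u)) ∂(sm n) + (Metric.ball (0 : E n) 3).indicator (fun _ => Er) u) =
      (∫⁻ u : E n, ENNReal.ofReal (∫ w : S n, (W w + e1) *
        ch (ρ⁻¹ • ((w : E n) - u)) ∂(sm n))) + ENNReal.ofReal (Er * V3) := by
    have h1 : ∀ u : E n, ENNReal.ofReal (∫ w : S n, (W w + e1) *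
        ch (ρ⁻¹ • ((w : E n) - u)) ∂(sm n) + (Metric.ball (0 : E n) 3).indicator (fun _ => Er) u) =
        ENNReal.ofReal (∫ w : S n, (W w + e1) * ch (ρ⁻¹ • ((w : E n) - u)) ∂(sm n)) +
          (Metric.ball (0 : E n) 3).indicator (fun _ => ENNReal.ofReal Er) u := by
      intro u
      by_cases hu : u ∈ Metric.ball (0 : E n) 3
      · rw [indicator_of_mem hu, indicator_of_mem hu, ENNReal.ofReal_add (hnn u) hEr0]
      · rw [indicator_of_notMem hu, indicator_of_notMem hu, add_zero, add_zero]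
    rw [lintegral_congr h1, lintegral_add_right _ (measurable_const.indicator measurableSet_ball),
      lintegral_indicator measurableSet_ball, setLIntegral_const, ENNReal.ofReal_mul hEr0, hV3,
      ofReal_measureReal measure_ball_lt_top.ne]
  rw [hsplit, avg hρ hfc.norm (fun x => norm_nonneg _),
    avg hρ (g := fun w => W w + e1) (hWc.add continuous_const)
      (fun x => add_nonneg (Real.sqrt_nonneg _) he10)] at key
  have hWint : Integrable (fun w : S n => W w) (sm n) := by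
    obtain ⟨M, hM⟩ := (isCompact_sphere (0 : E n) 1).exists_bound_of_continuousOn hWc.continuousOn
    exact Integrable.of_bound (hWc.comp continuous_subtype_val).aestronglyMeasurable M
      (Eventually.of_forall fun w => hM _ w.2)
  have hWe : ∫ w : S n, (W w + e1) ∂(sm n) = ∫ w : S n, W w ∂(sm n) + m * e1 := by
    rw [integral_add hWint (integrable_const _), integral_const, smul_eq_mul]
  have hW0 : 0 ≤ ∫ w : S n, W w ∂(sm n) := integral_nonneg fun w => Real.sqrt_nonneg _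
  have hf0 : 0 ≤ ∫ w : S n, ‖f w‖ ∂(sm n) := integral_nonneg fun w => norm_nonneg _
  have hρI : 0 < ρ ^ n * I0 := by positivity
  rw [← ENNReal.ofReal_mul hρI.le, ← ENNReal.ofReal_mul hρI.le, ← ENNReal.ofReal_add
    (mul_nonneg hρI.le (by rw [hWe]; positivity)) (by positivity),
    ENNReal.ofReal_le_ofReal_iff (by rw [hWe]; positivity), hWe] at key
  have h1 : ∫ w : S n, ‖f w‖ ∂(sm n) ≤ ∫ w : S n, W w ∂(sm n) + m * e1 +
      Er * V3 / (ρ ^ n * I0) := by
    rw [← sub_le_iff_le_add', le_div_iff₀ hρI]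
    nlinarith
  have h2 : m * e1 ≤ 1 / 2 := by
    have h3 : 8 * π * R * ρ * T = (4 * (m + 1))⁻¹ := by
      rw [hρdef, hc1]
      have := Real.pi_pos
      field_simp
      norm_num
    rw [he1, h3, hτ]
    have h4 : m * ((4 * (m + 1))⁻¹ + (2 * (m + 1))⁻¹ / 2) = m / (m + 1) * (1 / 2) := by
      field_simp
      ring
    rw [h4]
    have h5 : m / (m + 1) ≤ 1 := div_le_one_of_le₀ (by linarith) (by linarith)
    linarith
  have h3 : Er * V3 / (ρ ^ n * I0) ≤ 1 / 2 := by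
    have hDs : D ^ (-(1 / 2) : ℝ) = ((2 * K0 + 1) * (R * T) ^ (n + 3))⁻¹ := by
      have h4 : D = ((2 * K0 + 1) * (R * T) ^ (n + 3)) ^ 2 := by
        rw [hD, mul_pow (2 * K0 + 1) ((R * T) ^ (n + 3)) 2, ← pow_mul (R * T), mul_comm (n + 3) 2]
      rw [h4]
      exact sq_rpow_neg_half (by positivity)
    have hρi : ρ⁻¹ = c1 * (R * T) := by rw [hρdef, inv_inv]
    have h5 : Er * V3 / (ρ ^ n * I0) =
        K0 * (R * T) ^ (n + 1) * T ^ 2 * ((2 * K0 + 1) * (R * T) ^ (n + 3))⁻¹ := by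
      rw [hEr, hδ, hDs, hτ, hK0]
      have h6 : (ρ ^ n)⁻¹ = (c1 * (R * T)) ^ n := by rw [← inv_pow, hρi]
      have h7 : T ^ 2 * (C * ρ⁻¹ * ((2 * K0 + 1) * (R * T) ^ (n + 3))⁻¹) / (2 * (2 * (m + 1))⁻¹) * V3 /
          (ρ ^ n * I0) = T ^ 2 * (C * ρ⁻¹ * ((2 * K0 + 1) * (R * T) ^ (n + 3))⁻¹) * (m + 1) * V3 *
            (ρ ^ n)⁻¹ / I0 := by
        field_simp
      rw [hK0] at h7
      rw [h7, h6, hρi]
      ring
    rw [h5]
    have hT2 : T ^ 2 ≤ (R * T) ^ 2 := by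
      have : T ≤ R * T := le_mul_of_one_le_left (by linarith) hR
      gcongr
    calc K0 * (R * T) ^ (n + 1) * T ^ 2 * ((2 * K0 + 1) * (R * T) ^ (n + 3))⁻¹ ≤
        K0 * (R * T) ^ (n + 1) * (R * T) ^ 2 * ((2 * K0 + 1) * (R * T) ^ (n + 3))⁻¹ := by gcongr
      _ = K0 / (2 * K0 + 1) := by
          have : (R * T) ≠ 0 := by positivity
          field_simp
          ring
      _ ≤ 1 / 2 := by
          rw [div_le_div_iff₀ (by positivity) (by norm_num)]
          linarith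
  have h4 : (∫ w : S n, ‖∑ x ∈ X, ex x (w : E n) * ∑ y ∈ Y, c x y * ex y (w : E n)‖ ∂(sm n)) =
    ∫ w : S n, ‖f w‖ ∂(sm n) := rfl
  rw [h4]
  linarith

end Pool.Agent.VANn.DM
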