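import Pool.Agent.VANn.DM0

/-! Sum over the dyadic levels (row S7b). -/

set_option autoImplicit false

namespace Pool.Agent.VANn.DM

open Pool.Agent.MP_6cbfb8_an

/-- Sum over dyadic levels. -/
theorem level_sum_aux (p q A m : ℝ) (hp : 0 < p) (hpq : p < q) (hA : 0 ≤ A) (hm : 0 ≤ m) :
    ∃ C : ℝ, 0 ≤ C ∧ ∀ (α : Type) (Z : Finset α) (f : α → ℝ), (∀ y ∈ Z, 0 ≤ f y ∧ f y ≤ m) →
      (∀ t : ℝ, 0 < t → ∀ Z' ⊆ Z, (∀ y ∈ Z', t ≤ f y) → (Z'.card : ℝ) ≤ A * t ^ (-p)) →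
      ∑ y ∈ Z, f y ^ q ≤ C := by
  have hq : 0 < q := hp.trans hpq
  set r : ℝ := (2:ℝ) ^ (p - q) with hr
  have hr0 : 0 < r := Real.rpow_pos_of_pos (by norm_num) _
  have hr1 : r < 1 := Real.rpow_lt_one_of_one_lt_of_neg (by norm_num) (by linarith)
  refine ⟨A * m ^ (q - p) * 2 ^ p * (1 - r)⁻¹, ?_, ?_⟩
  · have : 0 < 1 - r := by linarith
    positivity
  intro α Z f hf hcard
  classical
  -- remove the zeros
  set Z1 : Finset α := Z.filter fun y => 0 < f y with hZ1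
  have h0 : ∑ y ∈ Z, f y ^ q = ∑ y ∈ Z1, f y ^ q := by
    symm
    apply Finset.sum_subset (Finset.filter_subset _ _)
    intro y hy hy'
    have : f y = 0 := by
      by_contra h
      exact hy' (Finset.mem_filter.mpr ⟨hy, lt_of_le_of_ne (hf y hy).1 (Ne.symm h)⟩)
    rw [this, Real.zero_rpow hq.ne']
  rw [h0]
  -- the level of a point
  have hlev : ∀ y, ∃ k : ℕ, y ∈ Z1 → m * 2 ^ (-((k:ℝ) + 1)) ≤ f y ∧ f y ≤ m * 2 ^ (-(k:ℝ)) := by
    intro y
    by_cases hy : y ∈ Z1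
    · have hy1 := Finset.mem_filter.mp hy
      have hf1 := hf y hy1.1
      have hm0 : 0 < m := lt_of_lt_of_le hy1.2 hf1.2
      -- the largest k with f y ≤ m / 2^k
      have hx : 0 < m / f y := div_pos hm0 hy1.2
      refine ⟨⌊Real.logb 2 (m / f y)⌋₊, fun _ => ?_⟩
      have hl0 : 0 ≤ Real.logb 2 (m / f y) := by
        apply Real.logb_nonneg (by norm_num)
        rw [le_div_iff₀ hy1.2]; linarith
      have hfy : f y = m * 2 ^ (-(Real.logb 2 (m / f y))) := by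
        rw [Real.rpow_neg (by norm_num), Real.rpow_logb (by norm_num) (by norm_num) hx]
        field_simp
      have hk1 : (⌊Real.logb 2 (m / f y)⌋₊ : ℝ) ≤ Real.logb 2 (m / f y) := Nat.floor_le hl0
      have hk2 : Real.logb 2 (m / f y) < (⌊Real.logb 2 (m / f y)⌋₊ : ℝ) + 1 := Nat.lt_floor_add_one _
      constructor
      · nth_rw 2 [hfy]
        apply mul_le_mul_of_nonneg_left _ hm0.le
        apply Real.rpow_le_rpow_of_exponent_le (by norm_num)
        linarith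
      · nth_rw 1 [hfy]
        apply mul_le_mul_of_nonneg_left _ hm0.le
        apply Real.rpow_le_rpow_of_exponent_le (by norm_num)
        linarith
    · exact ⟨0, fun h => absurd h hy⟩
  choose k hk using hlev
  rw [← Finset.sum_fiberwise_of_maps_to (t := Z1.image k) (g := k)
    (fun y hy => Finset.mem_image_of_mem k hy)]
  have hstep : ∀ j ∈ Z1.image k, ∑ y ∈ Z1 with k y = j, f y ^ q ≤
      (A * m ^ (q - p) * 2 ^ p) * r ^ j := by
    intro j hj
    obtain ⟨y0, hy0, hy0j⟩ := Finset.mem_image.mp hj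
    have hm0 : 0 < m := by
      have hy1 := Finset.mem_filter.mp hy0
      exact lt_of_lt_of_le hy1.2 (hf y0 hy1.1).2
    have hb : ∑ y ∈ Z1 with k y = j, f y ^ q ≤
        ((Z1.filter fun y => k y = j).card : ℝ) * (m * 2 ^ (-(j:ℝ))) ^ q := by
      rw [← nsmul_eq_mul]
      apply Finset.sum_le_card_nsmul
      intro y hy
      obtain ⟨hy1, hy2⟩ := Finset.mem_filter.mp hy
      have := (hk y hy1).2
      rw [hy2] at this
      exact Real.rpow_le_rpow ((hf y (Finset.mem_filter.mp hy1).1).1) this hq.le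
    have hc : ((Z1.filter fun y => k y = j).card : ℝ) ≤ A * (m * 2 ^ (-((j:ℝ) + 1))) ^ (-p) := by
      apply hcard _ (by positivity)
      · intro y hy
        exact (Finset.mem_filter.mp (Finset.mem_filter.mp hy).1).1
      · intro y hy
        obtain ⟨hy1, hy2⟩ := Finset.mem_filter.mp hy
        have := (hk y hy1).1
        rwa [hy2] at this
    refine hb.trans ((mul_le_mul_of_nonneg_right hc (by positivity)).trans (le_of_eq ?_))
    rw [Real.mul_rpow hm0.le (by positivity), Real.mul_rpow hm0.le (by positivity),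
      ← Real.rpow_mul (by norm_num), ← Real.rpow_mul (by norm_num), hr, ← Real.rpow_natCast,
      ← Real.rpow_mul (by norm_num)]
    have e1 : m ^ (q - p) = m ^ (-p) * m ^ q := by
      rw [← Real.rpow_add hm0]; congr 1; ring
    have e2 : (2:ℝ) ^ (-((j:ℝ) + 1) * -p) * 2 ^ (-(j:ℝ) * q) = 2 ^ p * 2 ^ ((p - q) * (j:ℝ)) := by
      rw [← Real.rpow_add (by norm_num), ← Real.rpow_add (by norm_num)]
      congr 1; ring
    rw [e1]
    calc A * (m ^ (-p) * 2 ^ (-((j:ℝ) + 1) * -p)) * (m ^ q * 2 ^ (-(j:ℝ) * q))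
        = A * (m ^ (-p) * m ^ q) * (2 ^ (-((j:ℝ) + 1) * -p) * 2 ^ (-(j:ℝ) * q)) := by ring
      _ = A * (m ^ (-p) * m ^ q) * (2 ^ p * 2 ^ ((p - q) * (j:ℝ))) := by rw [e2]
      _ = _ := by ring
  refine (Finset.sum_le_sum hstep).trans ?_
  rw [← Finset.mul_sum]
  apply mul_le_mul_of_nonneg_left _ (by positivity)
  rw [← tsum_geometric_of_lt_one hr0.le hr1]
  exact (summable_geometric_of_lt_one hr0.le hr1).sum_le_tsum _ (fun i _ => by positivity)

theorem level_sum (p q A m : ℝ) (hp : 0 < p) (hpq : p < q) (hA : 0 ≤ A) (hm : 0 ≤ m) :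
    ∃ C : ℝ, 0 ≤ C ∧ ∀ (n : ℕ) (Z : Finset (E n)) (f : E n → ℝ), (∀ y ∈ Z, 0 ≤ f y ∧ f y ≤ m) →
      (∀ t : ℝ, 0 < t → ∀ Z' ⊆ Z, (∀ y ∈ Z', t ≤ f y) → (Z'.card : ℝ) ≤ A * t ^ (-p)) →
      ∑ y ∈ Z, f y ^ q ≤ C := by
  obtain ⟨C, hC, h⟩ := level_sum_aux p q A m hp hpq hA hm
  exact ⟨C, hC, fun n Z f h1 h2 => h (E n) Z f h1 h2⟩

end Pool.Agent.VANn.DM
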