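import Pool.Agent.VANn.DM7a
import Pool.Agent.VANn.DM7b

/-! Removal of the epsilon from the bound for exponential sums over integer points (row S5b). -/

set_option autoImplicit false

namespace Pool.Agent.VANn.DM

open MeasureTheory Set Pool.Agent.MP_6cbfb8_an Pool.Agent.VAN.DIM
open scoped ENNReal Real

lemma s5b_norm_ex {n : ℕ} (y x : E n) : ‖ex y x‖ = 1 := by
  unfold ex
  exact Complex.norm_exp_ofReal_mul_I _

lemma s5b_norm_extn_le {n : ℕ} (g : E n → ℂ) (hb : ∀ x, ‖g x‖ ≤ 1) (ξ : E n) :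
    ‖extn g ξ‖ ≤ (sm n).real univ := by
  unfold extn
  refine (norm_integral_le_of_norm_le_const (C := 1)
    (Filter.Eventually.of_forall fun x => ?_)).trans (by rw [one_mul])
  rw [norm_mul, Complex.norm_exp_ofReal_mul_I, mul_one]
  exact hb x

/-- the dual form for the values of modulus at least `t` -/
lemma s5b_sum_norm_extn_le {n : ℕ} (g : E n → ℂ) (hg : Measurable g) (hb : ∀ x, ‖g x‖ ≤ 1)
    (Z : Finset (E n)) : ∃ c : E n → ℂ, (∀ z, ‖c z‖ ≤ 1) ∧
      ∑ z ∈ Z, ‖extn g z‖ ≤ ∫ w : S n, ‖∑ z ∈ Z, c z * ex z (w : E n)‖ ∂(sm n) := by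
  set c : E n → ℂ := fun z => (starRingEnd ℂ) (extn g z) / (‖extn g z‖ : ℂ) with hc
  have hcb : ∀ z, ‖c z‖ ≤ 1 := by
    intro z
    simp only [hc, norm_div, RCLike.norm_conj, Complex.norm_real, norm_norm]
    exact div_self_le_one _
  have hcz : ∀ z, c z * extn g z = (‖extn g z‖ : ℂ) := by
    intro z
    simp only [hc]
    by_cases h0 : extn g z = 0
    · simp [h0]
    · have h1 : (‖extn g z‖ : ℂ) ≠ 0 := by exact_mod_cast norm_ne_zero_iff.2 h0
      rw [div_mul_eq_mul_div, div_eq_iff h1, Complex.conj_mul']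
      ring
  refine ⟨c, hcb, ?_⟩
  have hPc : Continuous fun x : S n => ∑ z ∈ Z, c z * ex z (x : E n) := by
    unfold ex
    fun_prop
  have hint : ∀ z ∈ Z, Integrable (fun x : S n => c z * (g x * ex z (x : E n))) (sm n) := by
    intro z _
    refine Integrable.const_mul ?_ _
    refine Integrable.of_bound (C := 1) ?_ (Filter.Eventually.of_forall fun x => ?_)
    · refine Measurable.aestronglyMeasurable ?_
      refine (hg.comp measurable_subtype_coe).mul ?_
      unfold ex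
      exact (by fun_prop : Continuous fun x : S n =>
        Complex.exp (((-(2 * π * inner ℝ (x : E n) z) : ℝ) : ℂ) * Complex.I)).measurable
    · rw [norm_mul, s5b_norm_ex, mul_one]
      exact hb x
  have h1 : ((∑ z ∈ Z, ‖extn g z‖ : ℝ) : ℂ) =
      ∫ x : S n, g x * ∑ z ∈ Z, c z * ex z (x : E n) ∂(sm n) := by
    push_cast
    calc ∑ z ∈ Z, (‖extn g z‖ : ℂ) = ∑ z ∈ Z, c z * extn g z :=
          Finset.sum_congr rfl fun z _ => (hcz z).symm
      _ = ∑ z ∈ Z, ∫ x : S n, c z * (g x * ex z (x : E n)) ∂(sm n) := by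
          refine Finset.sum_congr rfl fun z _ => ?_
          rw [integral_const_mul]
          rfl
      _ = ∫ x : S n, ∑ z ∈ Z, c z * (g x * ex z (x : E n)) ∂(sm n) :=
          (integral_finsetSum _ hint).symm
      _ = _ := by
          refine integral_congr_ae (Filter.Eventually.of_forall fun x => ?_)
          simp only [Finset.mul_sum]
          refine Finset.sum_congr rfl fun z _ => ?_
          ring
  have h2 : ∑ z ∈ Z, ‖extn g z‖ = ‖∫ x : S n, g x * ∑ z ∈ Z, c z * ex z (x : E n) ∂(sm n)‖ := by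
    rw [← h1, Complex.norm_real, Real.norm_eq_abs,
      abs_of_nonneg (Finset.sum_nonneg fun z _ => norm_nonneg _)]
  rw [h2]
  refine (norm_integral_le_integral_norm _).trans ?_
  refine integral_mono_of_nonneg (Filter.Eventually.of_forall fun x => norm_nonneg _) ?_
    (Filter.Eventually.of_forall fun x => ?_)
  · exact hPc.norm.integrable_of_hasCompactSupport (HasCompactSupport.of_compactSpace _)
  · simp only [norm_mul]
    exact mul_le_of_le_one_left (norm_nonneg _) (hb x)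

theorem eps_removal_of_star (n : ℕ) (p q : ℝ) (hp : 2 ≤ p) (hpq : p < q)
    (star : ∀ δ : ℝ, 0 < δ → ∃ C : ℝ, 0 < C ∧ ∀ (Z : Finset (E n)) (c : E n → ℂ),
      (∀ z ∈ Z, IsInt z) → (∀ z, ‖c z‖ ≤ 1) →
        ∫ w : S n, ‖∑ z ∈ Z, c z * ex z (w : E n)‖ ∂(sm n) ≤
          C * (Z.card : ℝ) ^ (1 - 1 / p + δ)) :
    ∃ C : ℝ≥0∞, C ≠ ⊤ ∧ ∀ g : E n → ℂ, Measurable g → (∀ x, ‖g x‖ ≤ 1) →
      ∫⁻ ξ, ‖extn g ξ‖ₑ ^ q ≤ C := by
  have hp0 : 0 < p := by linarith
  have hq0 : 0 < q := by linarith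
  have hinv : 1 / q < 1 / p := one_div_lt_one_div_of_lt hp0 hpq
  have hqi : 0 < 1 / q := by positivity
  set δ : ℝ := (1 / p - 1 / q) / 2 with hδ
  have hδ0 : 0 < δ := by rw [hδ]; linarith
  set s : ℝ := 1 / p - δ with hs
  have hs1 : 1 / q < s := by rw [hs, hδ]; linarith
  have hs0 : 0 < s := by linarith
  obtain ⟨C, hC, hstar⟩ := star δ hδ0
  have hp1q : 1 / s < q := by
    rw [div_lt_iff₀ hs0]
    rw [div_lt_iff₀ hq0] at hs1
    linarith
  obtain ⟨C', hC', hlev⟩ := level_sum (1 / s) q (C ^ (1 / s)) ((sm n).real univ)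
    (by positivity) hp1q (by positivity) measureReal_nonneg
  refine ⟨ENNReal.ofReal C', ENNReal.ofReal_ne_top, ?_⟩
  refine cube n q hq0.le _ fun g hg hb Z hZ => ?_
  have hsum : ∑ y ∈ Z, ‖extn g y‖ ^ q ≤ C' := by
    refine hlev n Z (fun y => ‖extn g y‖) (fun y _ => ⟨norm_nonneg _, s5b_norm_extn_le g hb y⟩)
      fun t ht Z' hZ' hge => ?_
    rcases Nat.eq_zero_or_pos Z'.card with h0 | hpos
    · rw [h0]; simp only [Nat.cast_zero]; positivity
    have hN : (0:ℝ) < Z'.card := by exact_mod_cast hpos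
    obtain ⟨c, hc, hle⟩ := s5b_sum_norm_extn_le g hg hb Z'
    have h1 : (Z'.card : ℝ) * t ≤ ∑ z ∈ Z', ‖extn g z‖ := by
      rw [← nsmul_eq_mul]
      exact Finset.card_nsmul_le_sum _ _ _ fun z hz => hge z hz
    have h2 := h1.trans (hle.trans (hstar Z' c (fun z hz => hZ z (hZ' hz)) hc))
    have h3 : (Z'.card : ℝ) ^ (1 - 1 / p + δ) = Z'.card * (Z'.card : ℝ) ^ (-s) := by
      nth_rw 2 [← Real.rpow_one (Z'.card : ℝ)]
      rw [← Real.rpow_add hN]
      congr 1
      rw [hs]; ring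
    rw [h3] at h2
    have h4 : t ≤ C * (Z'.card : ℝ) ^ (-s) := by
      have : (Z'.card : ℝ) * t ≤ Z'.card * (C * (Z'.card : ℝ) ^ (-s)) := by linarith
      exact le_of_mul_le_mul_left this hN
    have h5 : (Z'.card : ℝ) ^ s ≤ C / t := by
      rw [le_div_iff₀ ht]
      have hNs : 0 < (Z'.card : ℝ) ^ s := Real.rpow_pos_of_pos hN _
      calc (Z'.card : ℝ) ^ s * t ≤ (Z'.card : ℝ) ^ s * (C * (Z'.card : ℝ) ^ (-s)) :=
            mul_le_mul_of_nonneg_left h4 hNs.le
        _ = C * ((Z'.card : ℝ) ^ s * (Z'.card : ℝ) ^ (-s)) := by ring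
        _ = C := by rw [← Real.rpow_add hN, add_neg_cancel, Real.rpow_zero, mul_one]
    calc (Z'.card : ℝ) = ((Z'.card : ℝ) ^ s) ^ (1 / s) := by
          rw [← Real.rpow_mul hN.le, mul_one_div_cancel hs0.ne', Real.rpow_one]
      _ ≤ (C / t) ^ (1 / s) := Real.rpow_le_rpow (by positivity) h5 (by positivity)
      _ = C ^ (1 / s) * t ^ (-(1 / s)) := by
          rw [Real.div_rpow hC.le ht.le, Real.rpow_neg ht.le, div_eq_mul_inv]
  calc ∑ y ∈ Z, ‖extn g y‖ₑ ^ q = ENNReal.ofReal (∑ y ∈ Z, ‖extn g y‖ ^ q) := by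
        rw [ENNReal.ofReal_sum_of_nonneg fun y _ => by positivity]
        refine Finset.sum_congr rfl fun y _ => ?_
        rw [← ENNReal.ofReal_rpow_of_nonneg (norm_nonneg _) hq0.le, ofReal_norm]
    _ ≤ ENNReal.ofReal C' := ENNReal.ofReal_le_ofReal hsum

end Pool.Agent.VANn.DM
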