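import Pool.Agent.VANn.DM5a
import Pool.Agent.VANn.DM5b

/-! Removal of the epsilon. -/

set_option autoImplicit false

namespace Pool.Agent.VANn.DM

open MeasureTheory Set Pool.Agent.MP_6cbfb8_an Pool.Agent.VAN Pool.Agent.VAN.DIM
open scoped ENNReal Real ContDiff

theorem eps_removal (n : ℕ) (hn : 2 ≤ n) (p q : ℝ) (hp : 2 ≤ p) (hpq : p < q)
    (hloc : ∀ ε : ℝ, 0 < ε → ∃ K : ℝ, 0 < K ∧ ∀ R : ℝ, 1 ≤ R → Loc n p R (K * R ^ ε)) :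
    ∃ C : ℝ≥0∞, C ≠ ⊤ ∧ ∀ g : E n → ℂ, Measurable g → (∀ x, ‖g x‖ ≤ 1) →
      ∫⁻ ξ, ‖extn g ξ‖ₑ ^ q ≤ C :=
  eps_removal_of_star n p q hp hpq fun δ hδ => star n hn p hp hloc δ hδ

end Pool.Agent.VANn.DM
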