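import Pool.Agent.VANn.DM3
import Pool.Agent.VAN.DIM_S1
import Pool.Agent.VAN.DIM_S2

/-!
Trigonometric sums over finite sets of integer points, from the local estimates.
-/

set_option autoImplicit false

namespace Pool.Agent.VANn.DM

open MeasureTheory Set Filter Pool.Agent.MP_6cbfb8_an Pool.Agent.VAN Pool.Agent.VAN.DIM
open Pool.Agent.VAN.DIMS2 (khinchine_both)
open scoped ENNReal NNReal Real ContDiff

variable {n : ℕ}

lemma isInt_sub {y z : E n} (hy : IsInt y) (hz : IsInt z) : IsInt (y - z) := by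
  intro i
  obtain ⟨a, ha⟩ := hy i
  obtain ⟨b, hb⟩ := hz i
  exact ⟨a - b, by simp [ha, hb]⟩

lemma isInt_dist {y z : E n} (hy : IsInt y) (hz : IsInt z) (hne : y ≠ z) : 1 ≤ dist y z := by
  obtain ⟨i, hi⟩ : ∃ i, y i ≠ z i := by
    by_contra hcon
    push Not at hcon
    exact hne (PiLp.ext hcon)
  obtain ⟨a, ha⟩ := hy i
  obtain ⟨b, hb⟩ := hz i
  have h1 : (1:ℝ) ≤ |y i - z i| := by
    rw [ha, hb] at hi ⊢
    have h2 : a - b ≠ 0 := fun h => hi (by rw [sub_eq_zero.1 h])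
    have h3 : (1:ℤ) ≤ |a - b| := Int.one_le_abs h2
    have h5 : (1:ℝ) ≤ |(a:ℝ) - (b:ℝ)| := by exact_mod_cast h3
    exact h5
  rw [dist_eq_norm]
  have h4 := PiLp.norm_apply_le (y - z) i
  rw [PiLp.sub_apply, Real.norm_eq_abs] at h4
  exact h1.trans h4

lemma ex_add (x y w : E n) : ex (x + y) w = ex x w * ex y w := by
  unfold ex
  rw [← Complex.exp_add, inner_add_right]
  congr 1
  push_cast
  ring

open Classical in
lemma regroup {M : Type*} [AddCommMonoid M] (Z X Y : Finset (E n)) (z : E n → E n)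
    (hX : ∀ y ∈ Z, z y ∈ X) (hY : ∀ y ∈ Z, y - z y ∈ Y) (g : E n → M) :
    ∑ y ∈ Z, g y = ∑ x ∈ X, ∑ y ∈ Y, if (x + y ∈ Z ∧ z (x + y) = x) then g (x + y) else 0 := by
  rw [← Finset.sum_fiberwise_of_maps_to hX]
  refine Finset.sum_congr rfl fun x _ => ?_
  rw [← Finset.sum_filter]
  refine Finset.sum_bij (fun y _ => y - x) (fun y hy => ?_) (fun y _ y' _ h => sub_left_inj.1 h)
    (fun y hy => ?_) fun y hy => ?_
  · rw [Finset.mem_filter] at hy ⊢
    rw [add_sub_cancel]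
    exact ⟨hy.2 ▸ hY y hy.1, hy⟩
  · rw [Finset.mem_filter] at hy
    exact ⟨x + y, by rw [Finset.mem_filter]; exact hy.2, by rw [add_sub_cancel_left]⟩
  · rw [add_sub_cancel]

/-- The dual estimate on a ball. -/
lemma dual_ball (n : ℕ) (p : ℝ) (hp : 2 ≤ p) : ∃ C : ℝ, 0 ≤ C ∧ ∀ (R M : ℝ), 0 ≤ M → Loc n p (R + 1) M →
    ∀ (Y : Finset (E n)), (∀ y ∈ Y, IsInt y) → (∀ y ∈ Y, ‖y‖ ≤ R) → ∀ c : E n → ℂ,
      ∫ w : S n, ‖∑ y ∈ Y, c y * ex y (w : E n)‖ ∂(sm n) ≤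
        C * M * (∑ y ∈ Y, ‖c y‖ ^ (p / (p - 1))) ^ (1 / (p / (p - 1))) := by
  obtain ⟨C, hC, h⟩ := sample_le n p (1 / 8) (by linarith) (by norm_num)
    (by have := Real.pi_lt_four; linarith)
  have hp0 : 0 < p := by linarith
  have hpq : p.HolderConjugate (p / (p - 1)) := Real.HolderConjugate.conjExponent (by linarith)
  refine ⟨C.toReal ^ (1 / p), by positivity, fun R M hM hL Y hYi hYR c => ?_⟩
  have h1 := h Y (Metric.ball 0 (R + 1)) (ENNReal.ofReal (M ^ p)) (fun y hy y' hy' hne => by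
    have := isInt_dist (hYi y hy) (hYi y' hy') hne
    linarith) (fun y hy => by
    intro v hv
    rw [Metric.mem_ball, dist_zero_right]
    rw [Metric.mem_ball, dist_eq_norm] at hv
    have h2 := hYR y hy
    have h3 : ‖v‖ ≤ ‖v - y‖ + ‖y‖ := by
      have := norm_add_le (v - y) y
      rwa [sub_add_cancel] at this
    linarith) hL
  have h2 := dual_le hpq Y _ h1 c
  have hPc : Continuous fun w : E n => ∑ y ∈ Y, c y * ex y w := continuous_finsetSum _ fun y _ =>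
    continuous_const.mul (continuous_ex y)
  have h3 : ∫ w : S n, ‖∑ y ∈ Y, c y * ex y (w : E n)‖ ∂(sm n) =
      (∫⁻ w : S n, ‖∑ y ∈ Y, c y * ex y (w : E n)‖ₑ ∂(sm n)).toReal :=
    integral_norm_eq_lintegral_enorm (hPc.comp continuous_subtype_val).aestronglyMeasurable
  rw [h3]
  have hq0 : 0 < p / (p - 1) := div_pos hp0 (by linarith)
  have h4 : (∑ y ∈ Y, ‖c y‖ₑ ^ (p / (p - 1))) = ENNReal.ofReal (∑ y ∈ Y, ‖c y‖ ^ (p / (p - 1))) := by
    rw [ENNReal.ofReal_sum_of_nonneg fun y _ => by positivity]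
    refine Finset.sum_congr rfl fun y _ => ?_
    rw [← ofReal_norm, ENNReal.ofReal_rpow_of_nonneg (norm_nonneg _) hq0.le]
  have h5 : (C * ENNReal.ofReal (M ^ p)) ^ (1 / p) *
      (∑ y ∈ Y, ‖c y‖ₑ ^ (p / (p - 1))) ^ (1 / (p / (p - 1))) =
      ENNReal.ofReal (C.toReal ^ (1 / p) * M *
        (∑ y ∈ Y, ‖c y‖ ^ (p / (p - 1))) ^ (1 / (p / (p - 1)))) := by
    have h6 : 0 ≤ ∑ y ∈ Y, ‖c y‖ ^ (p / (p - 1)) := Finset.sum_nonneg fun y _ => by positivity
    rw [h4, ENNReal.mul_rpow_of_nonneg _ _ (by positivity), ENNReal.ofReal_rpow_of_nonneg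
      (by positivity) (by positivity), ENNReal.ofReal_rpow_of_nonneg h6 (by positivity),
      ENNReal.ofReal_mul (by positivity), ENNReal.ofReal_mul (by positivity),
      ← ENNReal.ofReal_rpow_of_nonneg ENNReal.toReal_nonneg (by positivity), ENNReal.ofReal_toReal hC]
    congr 3
    rw [← Real.rpow_mul hM, mul_one_div_cancel hp0.ne', Real.rpow_one]
  rw [h5] at h2
  exact ENNReal.toReal_le_of_le_ofReal (by positivity) h2

/-- One sparse class. -/
lemma class_bound (n : ℕ) (hn : 2 ≤ n) (p : ℝ) (hp : 2 ≤ p) : ∃ (A : ℕ) (K C : ℝ), 1 ≤ K ∧ 0 ≤ C ∧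
    ∀ (R T M : ℝ), 1 ≤ R → 1 ≤ T → 0 ≤ M → Loc n p (R + 1) M →
    ∀ (Z : Finset (E n)) (z : E n → E n) (c : E n → ℂ), (∀ y ∈ Z, IsInt y ∧ IsInt (z y)) →
      (∀ y ∈ Z, dist y (z y) ≤ R) → (Z.card : ℝ) ≤ T →
      (∀ y ∈ Z, ∀ y' ∈ Z, z y = z y' ∨ K * (R * T) ^ A ≤ dist (z y) (z y')) → (∀ y, ‖c y‖ ≤ 1) →
      ∫ w : S n, ‖∑ y ∈ Z, c y * ex y (w : E n)‖ ∂(sm n) ≤ C * M * (Z.card : ℝ) ^ (1 - 1 / p) + 1 := by
  classical
  obtain ⟨A, K, hK, horth⟩ := orth_sparse n hn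
  obtain ⟨C, hC, hdual⟩ := dual_ball n p hp
  refine ⟨A, K, √3 * C, hK, by positivity, fun R T M hR hT hM hL Z z c hZi hZR hZT hZs hc => ?_⟩
  have hp0 : 0 < p := by linarith
  set q := p / (p - 1) with hq
  have hq1 : 1 ≤ q := by
    rw [hq, le_div_iff₀ (by linarith)]
    linarith
  have hq2 : q ≤ 2 := by
    rw [hq, div_le_iff₀ (by linarith)]
    linarith
  have hq0 : 0 < q := by linarith
  set X := Z.image z with hX
  set Y := Z.image (fun y => y - z y) with hY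
  set cc : E n → E n → ℂ := fun x y => if (x + y ∈ Z ∧ z (x + y) = x) then c (x + y) else 0 with hcc
  have hXm : ∀ y ∈ Z, z y ∈ X := fun y hy => Finset.mem_image_of_mem z hy
  have hYm : ∀ y ∈ Z, y - z y ∈ Y := fun y hy => Finset.mem_image_of_mem (fun y => y - z y) hy
  have hYi : ∀ y ∈ Y, IsInt y := by
    intro y hy
    obtain ⟨y', h1, rfl⟩ := Finset.mem_image.1 hy
    exact isInt_sub (hZi y' h1).1 (hZi y' h1).2
  have hYR : ∀ y ∈ Y, ‖y‖ ≤ R := by
    intro y hy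
    obtain ⟨y', h1, rfl⟩ := Finset.mem_image.1 hy
    rw [← dist_eq_norm]
    exact hZR y' h1
  have hsep : ∀ x ∈ X, ∀ x' ∈ X, x ≠ x' → K * (R * T) ^ A ≤ dist x x' := by
    intro x hx x' hx' hne
    obtain ⟨y, h1, rfl⟩ := Finset.mem_image.1 hx
    obtain ⟨y', h2, rfl⟩ := Finset.mem_image.1 hx'
    exact (hZs y h1 y' h2).resolve_left hne
  -- the sum
  have hsum : ∀ w : E n, ∑ y ∈ Z, c y * ex y w = ∑ x ∈ X, ex x w * ∑ y ∈ Y, cc x y * ex y w := by
    intro w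
    rw [regroup Z X Y z hXm hYm]
    refine Finset.sum_congr rfl fun x _ => ?_
    rw [Finset.mul_sum]
    refine Finset.sum_congr rfl fun y _ => ?_
    simp only [hcc]
    split_ifs with h1
    · rw [ex_add]
      ring
    · ring
  -- the number of the coefficients
  have hcard : ∑ x ∈ X, ∑ y ∈ Y, (if (x + y ∈ Z ∧ z (x + y) = x) then (1:ℝ) else 0) = Z.card := by
    rw [← regroup Z X Y z hXm hYm (fun _ => (1:ℝ))]
    simp
  have hc1 : ∑ x ∈ X, ∑ y ∈ Y, ‖cc x y‖ ≤ T := by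
    refine le_trans (le_trans (Finset.sum_le_sum fun x _ => Finset.sum_le_sum fun y _ => ?_)
      hcard.le) hZT
    simp only [hcc]
    split_ifs with h1
    · exact hc _
    · simp
  have hc2 : ∑ x ∈ X, ∑ y ∈ Y, ‖cc x y‖ ^ q ≤ Z.card := by
    refine le_trans (Finset.sum_le_sum fun x _ => Finset.sum_le_sum fun y _ => ?_) hcard.le
    simp only [hcc]
    split_ifs with h1
    · exact Real.rpow_le_one (norm_nonneg _) (hc _) hq0.le
    · rw [norm_zero, Real.zero_rpow hq0.ne']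
  have h1 := horth R T hR hT X Y cc hYR hc1 hsep
  have h2 := khinchine_both (sm n) X Y (fun y (w : S n) => ex y (w : E n)) (fun y _ => by
    refine Integrable.of_bound ((continuous_ex y).comp continuous_subtype_val).aestronglyMeasurable 1
      (Eventually.of_forall fun w => ?_)
    rw [norm_ex]) hq1 hq2 (M := C * M) (by positivity) (fun c' => hdual R M hM hL Y hYi hYR c') cc
  have h3 : (∑ x ∈ X, ∑ y ∈ Y, ‖cc x y‖ ^ q) ^ (1 / q) ≤ (Z.card : ℝ) ^ (1 - 1 / p) := by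
    have h4 : 1 / q = 1 - 1 / p := by
      rw [hq]
      field_simp
    rw [← h4]
    exact Real.rpow_le_rpow (Finset.sum_nonneg fun x _ => Finset.sum_nonneg fun y _ => by positivity)
      hc2 (by positivity)
  calc ∫ w : S n, ‖∑ y ∈ Z, c y * ex y (w : E n)‖ ∂(sm n) =
      ∫ w : S n, ‖∑ x ∈ X, ex x (w : E n) * ∑ y ∈ Y, cc x y * ex y (w : E n)‖ ∂(sm n) :=
        integral_congr_ae (Eventually.of_forall fun w => by simp only [hsum])
    _ ≤ ∫ w : S n, √(∑ x ∈ X, ‖∑ y ∈ Y, cc x y * ex y (w : E n)‖ ^ 2) ∂(sm n) + 1 := h1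
    _ ≤ √3 * (C * M) * (∑ x ∈ X, ∑ y ∈ Y, ‖cc x y‖ ^ q) ^ (1 / q) + 1 := add_le_add h2 le_rfl
    _ ≤ √3 * (C * M) * (Z.card : ℝ) ^ (1 - 1 / p) + 1 := by gcongr
    _ = _ := by ring

theorem star (n : ℕ) (hn : 2 ≤ n) (p : ℝ) (hp : 2 ≤ p)
    (hloc : ∀ ε : ℝ, 0 < ε → ∃ K : ℝ, 0 < K ∧ ∀ R : ℝ, 1 ≤ R → Loc n p R (K * R ^ ε)) (δ : ℝ)
    (hδ : 0 < δ) : ∃ C : ℝ, 0 < C ∧ ∀ (Z : Finset (E n)) (c : E n → ℂ), (∀ z ∈ Z, IsInt z) →
      (∀ z, ‖c z‖ ≤ 1) →
      ∫ w : S n, ‖∑ z ∈ Z, c z * ex z (w : E n)‖ ∂(sm n) ≤ C * (Z.card : ℝ) ^ (1 - 1 / p + δ) := by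
  classical
  obtain ⟨A, K, C, hK, hC, hcl⟩ := class_bound n hn p hp
  have hp0 : 0 < p := by linarith
  have hpi : 1 / p ≤ 1 / 2 := one_div_le_one_div_of_le (by norm_num) hp
  obtain ⟨N, hN1, hN⟩ : ∃ N : ℕ, 1 ≤ N ∧ 1 / (N : ℝ) ≤ δ / 2 := by
    refine ⟨⌈2 / δ⌉₊ + 1, by omega, ?_⟩
    have h1 : 2 / δ ≤ ⌈2 / δ⌉₊ := Nat.le_ceil _
    have h2 : 0 < 2 / δ := by positivity
    push_cast
    rw [div_le_iff₀ (by positivity)]
    calc (1:ℝ) = δ / 2 * (2 / δ) := by field_simp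
      _ ≤ δ / 2 * ((⌈2 / δ⌉₊ : ℝ) + 1) := by gcongr; linarith
  obtain ⟨m, hm⟩ : ∃ m : ℕ, K ≤ 2 ^ m := by
    obtain ⟨m, hm⟩ := pow_unbounded_of_one_lt K (one_lt_two)
    exact ⟨m, hm.le⟩
  set C' := A + m + 1 with hC'
  set L : ℝ := (((2 * C') ^ N : ℕ) : ℝ) with hL
  have hL1 : 1 ≤ L := by
    rw [hL]
    exact_mod_cast Nat.one_le_pow _ _ (by omega)
  obtain ⟨Kε, hKε, hlocε⟩ := hloc (δ / (2 * L)) (by positivity)
  set K1 := Kε * ((4:ℝ) ^ (δ / (2 * L)) * (8:ℝ) ^ (δ / 2)) with hK1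
  have hK1' : 0 < K1 := by positivity
  refine ⟨N * (C * K1 + 1), by positivity, fun Z c hZ hc => ?_⟩
  rcases Z.eq_empty_or_nonempty with rfl | hne
  · simp only [Finset.sum_empty, norm_zero, integral_zero]
    positivity
  have hZ1 : (1:ℝ) ≤ Z.card := by exact_mod_cast Finset.card_pos.2 hne
  obtain ⟨ρ, k, col, z, hρ2, hρ, hmem, hsep⟩ := sparse_cover Z N C' hN1 (by omega)
  set q := ⌊(Z.card : ℝ) ^ ((1 : ℝ) / N)⌋₊ with hq
  have hρb : ∀ i < N, ρ i ≤ 2 * (8 * (Z.card : ℝ)) ^ L := by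
    intro i hi
    rcases hρ i with h | h
    · refine h.trans ?_
      have h1 : (8 * (Z.card : ℝ)) ^ ((2 * C') ^ i) ≤ (8 * (Z.card : ℝ)) ^ ((2 * C') ^ N) :=
        pow_le_pow_right₀ (by linarith) (Nat.pow_le_pow_right (by omega) hi.le)
      rw [hL, Real.rpow_natCast]
      linarith
    · exact absurd h hne.ne_empty
  -- one class
  have hclass : ∀ i < N, ∀ j, ∫ w : S n, ‖∑ y ∈ Z with (k y, col y) = (i, j),
      c y * ex y (w : E n)‖ ∂(sm n) ≤ (C * K1 + 1) * (Z.card : ℝ) ^ (1 - 1 / p + δ / 2) := by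
    intro i hi j
    have hρi1 : 1 ≤ ρ i := by linarith [hρ2 i]
    have hM := hlocε (ρ i + 1) (by linarith)
    have hcl' := hcl (ρ i) Z.card (Kε * (ρ i + 1) ^ (δ / (2 * L))) hρi1 hZ1 (by positivity) hM
      (Z.filter fun y => (k y, col y) = (i, j)) z c (fun y hy => by
        rw [Finset.mem_filter] at hy
        exact ⟨hZ y hy.1, hZ _ (hmem y hy.1).2.2.1⟩) (fun y hy => by
        rw [Finset.mem_filter, Prod.mk.injEq] at hy
        have := (hmem y hy.1).2.2.2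
        rwa [hy.2.1] at this) (by exact_mod_cast Finset.card_filter_le _ _) (fun y hy y' hy' => by
        rw [Finset.mem_filter, Prod.mk.injEq] at hy hy'
        rcases hsep y hy.1 y' hy'.1 (by rw [hy.2.1, hy'.2.1]) (by rw [hy.2.2, hy'.2.2]) with h | h
        · exact Or.inl h
        · right
          rw [hy.2.1] at h
          refine le_trans ?_ h.le
          have h2 : 2 ≤ ρ i * (Z.card : ℝ) := by nlinarith [hρ2 i]
          calc K * (ρ i * (Z.card : ℝ)) ^ A ≤ 2 ^ m * (ρ i * (Z.card : ℝ)) ^ A := by gcongr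
            _ ≤ (ρ i * (Z.card : ℝ)) ^ m * (ρ i * (Z.card : ℝ)) ^ A := by gcongr
            _ = (ρ i * (Z.card : ℝ)) ^ (m + A) := (pow_add _ _ _).symm
            _ ≤ (ρ i * (Z.card : ℝ)) ^ C' := pow_le_pow_right₀ (by linarith) (by omega)) hc
    have hMb : Kε * (ρ i + 1) ^ (δ / (2 * L)) ≤ K1 * (Z.card : ℝ) ^ (δ / 2) := by
      have h1 : ρ i + 1 ≤ 4 * (8 * (Z.card : ℝ)) ^ L := by
        have := hρb i hi
        linarith
      calc Kε * (ρ i + 1) ^ (δ / (2 * L)) ≤ Kε * (4 * (8 * (Z.card : ℝ)) ^ L) ^ (δ / (2 * L)) := by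
            gcongr
        _ = Kε * ((4:ℝ) ^ (δ / (2 * L)) * (8 * (Z.card : ℝ)) ^ (δ / 2)) := by
            rw [Real.mul_rpow (by norm_num) (by positivity), ← Real.rpow_mul (by positivity)]
            congr 3
            field_simp
        _ = _ := by
            rw [Real.mul_rpow (by norm_num) (by positivity), hK1]
            ring
    have hcard : ((Z.filter fun y => (k y, col y) = (i, j)).card : ℝ) ≤ Z.card := by
      exact_mod_cast Finset.card_filter_le _ _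
    have h3 : 0 ≤ 1 - 1 / p := by linarith
    calc _ ≤ C * (Kε * (ρ i + 1) ^ (δ / (2 * L))) *
          ((Z.filter fun y => (k y, col y) = (i, j)).card : ℝ) ^ (1 - 1 / p) + 1 := hcl'
      _ ≤ C * (K1 * (Z.card : ℝ) ^ (δ / 2)) * (Z.card : ℝ) ^ (1 - 1 / p) + 1 := by gcongr
      _ = C * K1 * (Z.card : ℝ) ^ (1 - 1 / p + δ / 2) + 1 := by
          rw [Real.rpow_add (by linarith)]
          ring
      _ ≤ _ := by
          have h4 : 1 ≤ (Z.card : ℝ) ^ (1 - 1 / p + δ / 2) := Real.one_le_rpow hZ1 (by positivity)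
          linarith
  -- all classes
  have hmaps : ∀ y ∈ Z, (k y, col y) ∈ Finset.range N ×ˢ Finset.range q := by
    intro y hy
    rw [Finset.mem_product, Finset.mem_range, Finset.mem_range]
    exact ⟨(hmem y hy).1, (hmem y hy).2.1⟩
  have hint : ∀ s : Finset (E n), Integrable (fun w : S n => ‖∑ y ∈ s, c y * ex y (w : E n)‖)
      (sm n) := by
    intro s
    have hPc : Continuous fun w : E n => ‖∑ y ∈ s, c y * ex y w‖ := (continuous_finsetSum _
      fun y _ => continuous_const.mul (continuous_ex y)).norm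
    obtain ⟨M, hM⟩ := (isCompact_sphere (0 : E n) 1).exists_bound_of_continuousOn hPc.continuousOn
    exact Integrable.of_bound (hPc.comp continuous_subtype_val).aestronglyMeasurable M
      (Eventually.of_forall fun w => hM _ w.2)
  calc ∫ w : S n, ‖∑ y ∈ Z, c y * ex y (w : E n)‖ ∂(sm n)
      ≤ ∫ w : S n, ∑ b ∈ Finset.range N ×ˢ Finset.range q,
          ‖∑ y ∈ Z with (k y, col y) = b, c y * ex y (w : E n)‖ ∂(sm n) := by
        refine integral_mono (hint Z) (integrable_finsetSum _ fun b _ => hint _) fun w => ?_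
        simp only
        rw [← Finset.sum_fiberwise_of_maps_to hmaps]
        exact norm_sum_le _ _
    _ = ∑ b ∈ Finset.range N ×ˢ Finset.range q,
          ∫ w : S n, ‖∑ y ∈ Z with (k y, col y) = b, c y * ex y (w : E n)‖ ∂(sm n) :=
        integral_finsetSum _ fun b _ => hint _
    _ ≤ ∑ _b ∈ Finset.range N ×ˢ Finset.range q,
          (C * K1 + 1) * (Z.card : ℝ) ^ (1 - 1 / p + δ / 2) := by
        refine Finset.sum_le_sum fun b hb => ?_
        rw [Finset.mem_product, Finset.mem_range] at hb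
        exact hclass b.1 hb.1 b.2
    _ = (N : ℝ) * q * ((C * K1 + 1) * (Z.card : ℝ) ^ (1 - 1 / p + δ / 2)) := by
        rw [Finset.sum_const, Finset.card_product, Finset.card_range, Finset.card_range,
          nsmul_eq_mul]
        push_cast
        ring
    _ ≤ (N : ℝ) * (Z.card : ℝ) ^ (δ / 2) * ((C * K1 + 1) * (Z.card : ℝ) ^ (1 - 1 / p + δ / 2)) := by
        have h5 : (q : ℝ) ≤ (Z.card : ℝ) ^ (δ / 2) :=
          (Nat.floor_le (by positivity)).trans (Real.rpow_le_rpow_of_exponent_le hZ1 hN)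
        gcongr
    _ = _ := by
        have h6 : (Z.card : ℝ) ^ (1 - 1 / p + δ) =
            (Z.card : ℝ) ^ (δ / 2) * (Z.card : ℝ) ^ (1 - 1 / p + δ / 2) := by
          rw [← Real.rpow_add (by linarith)]
          congr 1
          ring
        rw [h6]
        ring

end Pool.Agent.VANn.DM
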