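import Pool.Agent.VANn.DIMP
import Pool.Agent.VANn.DIMB
import Pool.Agent.VANn.DM5
import Pool.Agent.VAN.J6

/-!
[DIM], row S6: if the estimate fails for `L^q` then there are bad smooth phases with polynomial
bounds, supported in small caps.
-/

set_option autoImplicit false

namespace Pool.Agent.VANn.DM

open MeasureTheory Set Pool.Agent.MP_6cbfb8_an Pool.Agent.VAN
open scoped ENNReal Real ContDiff

/-- The trivial bound on a ball. -/
theorem ball_trivial (n : ℕ) (p m : ℝ) (hp : 0 ≤ p) : ∃ V : ℝ, 0 ≤ V ∧ ∀ (R : ℝ) (g : E n → ℂ),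
    R ≤ m → (∀ x, ‖g x‖ ≤ 1) →
      ∫⁻ ξ in Metric.ball 0 R, ‖extn g ξ‖ₑ ^ p ≤ ENNReal.ofReal V := by
  set W : ℝ≥0∞ := (sm n univ) ^ p * volume (Metric.ball (0 : E n) m) with hW
  have hWt : W ≠ ⊤ := by
    refine ENNReal.mul_ne_top (ENNReal.rpow_ne_top_of_nonneg hp (measure_ne_top _ _)) ?_
    exact measure_ball_lt_top.ne
  refine ⟨W.toReal, ENNReal.toReal_nonneg, fun R g hR hb => ?_⟩
  rw [ENNReal.ofReal_toReal hWt]
  calc ∫⁻ ξ in Metric.ball 0 R, ‖extn g ξ‖ₑ ^ p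
      ≤ ∫⁻ _ξ in Metric.ball (0 : E n) R, (sm n univ) ^ p :=
        lintegral_mono fun ξ => ENNReal.rpow_le_rpow (J.enorm_extn_le_mass hb ξ) hp
    _ = (sm n univ) ^ p * volume (Metric.ball (0 : E n) R) := by rw [setLIntegral_const]
    _ ≤ W := by
        rw [hW]
        gcongr

/-- ROW S6. -/
theorem bad_sequence (n : ℕ) (hn : 2 ≤ n) (p q : ℝ) (hp : 2 ≤ p) (hpq : p < q)
    (hbad : ¬ ∃ C : ℝ≥0∞, C ≠ ⊤ ∧ ∀ g : E n → ℂ, Measurable g → (∀ x, ‖g x‖ ≤ 1) →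
      ∫⁻ ξ, ‖extn g ξ‖ₑ ^ q ≤ C) : ∃ (A : ℕ) (B : ℕ → ℝ) (δ : ℝ) (M : ℝ≥0∞), 1 ≤ A ∧ 0 < δ ∧ δ < 1 ∧
      M ≠ ⊤ ∧ ∀ m : ℝ, ∃ (R : ℝ) (θ : E n → ℝ),
      m ≤ R ∧ 1 ≤ R ∧ ContDiff ℝ ∞ θ ∧ (∀ j x, ‖iteratedFDeriv ℝ j θ x‖ ≤ B j * R ^ (A * j)) ∧
      ∀ x0 ∈ S n, ∃ (η : E n → ℝ) (T : E n ≃ₗᵢ[ℝ] E n), ContDiff ℝ ∞ η ∧ (∀ x, |η x| ≤ 1) ∧
        (∀ z, z ∉ Metric.ball x0 (R ^ (-δ)) → η z = 0) ∧
        (∀ u : E n → ℂ, Measurable u → (∀ x, ‖u x‖ ≤ 1) →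
          FF p (fun x => (η x : ℂ) * u x) ≤ M * FF p u) ∧
        ENNReal.ofReal m ≤ FF p (fun x => (η x : ℂ) * Complex.exp ((θ (T x) : ℂ) * Complex.I)) := by
  have hn0 : (0 : ℝ) < n := by exact_mod_cast (by omega : 0 < n)
  obtain ⟨ε, hε, hneg⟩ : ∃ ε : ℝ, 0 < ε ∧ ∀ K : ℝ, 0 < K → ∃ R : ℝ, 1 ≤ R ∧
      ¬ Loc n p R (K * R ^ ε) := by
    by_contra hcon
    push Not at hcon
    exact hbad (eps_removal n hn p q hp hpq hcon)
  obtain ⟨N, B, K1, hN, hK1, hphase⟩ := bad_phase hn (p := p) (by linarith)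
  obtain ⟨C, M, hC, hM, hcap⟩ := cap_pigeon n (p := p) (by linarith)
  set e : ℝ := ε * p / 2 with he
  have he0 : 0 < e := by positivity
  set δ : ℝ := min (1 / 2) (e / (n * (p + 1))) with hδ
  have hδ0 : 0 < δ := lt_min (by norm_num) (by positivity)
  have hδ1 : δ < 1 := (min_le_left _ _).trans_lt (by norm_num)
  have hδe : δ * (n * (p + 1)) ≤ e := by
    have h1 : δ ≤ e / (n * (p + 1)) := min_le_right _ _
    rwa [le_div_iff₀ (by positivity)] at h1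
  refine ⟨N, B, δ, M, hN, hδ0, hδ1, hM, fun m => ?_⟩
  set m' : ℝ := max m 1 with hm'
  have hm1 : 1 ≤ m' := le_max_right _ _
  have hmm : m ≤ m' := le_max_left _ _
  obtain ⟨V, hV, htriv⟩ := ball_trivial n p m' (by linarith)
  set C' : ℝ := C ^ ((n : ℝ) * (p + 1)) with hC'
  have hC0 : 0 < C' := Real.rpow_pos_of_pos (by linarith) _
  set X : ℝ := K1.toReal * (1 + C' * m') + V + 1 with hX
  have hK1' : 0 ≤ K1.toReal := ENNReal.toReal_nonneg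
  have hX1 : 1 ≤ X := by
    have : 0 ≤ K1.toReal * (1 + C' * m') := by positivity
    linarith
  obtain ⟨R, hR1, hR⟩ := hneg (X ^ p⁻¹) (Real.rpow_pos_of_pos (by linarith) _)
  have hR0 : 0 < R := by linarith
  unfold Loc at hR
  push Not at hR
  obtain ⟨g, hgm, hgb, hg⟩ := hR
  have hpow : (X ^ p⁻¹ * R ^ ε) ^ p = X * (R ^ e * R ^ e) := by
    rw [Real.mul_rpow (by positivity) (by positivity), Real.rpow_inv_rpow (by linarith) (by linarith),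
      ← Real.rpow_mul hR0.le, ← Real.rpow_add hR0]
    congr 2
    rw [he]
    ring
  have hRe : 1 ≤ R ^ e := Real.one_le_rpow hR1 he0.le
  rw [hpow] at hg
  have hmR : m' ≤ R := by
    by_contra hcon
    have h1 := hg.trans_le (htriv R g (not_le.1 hcon).le hgb)
    have h2 := (ENNReal.ofReal_lt_ofReal_iff_of_nonneg (by positivity)).1 h1
    have h3 : X * 1 ≤ X * (R ^ e * R ^ e) :=
      mul_le_mul_of_nonneg_left (one_le_mul_of_one_le_of_one_le hRe hRe) (by linarith)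
    have : 0 ≤ K1.toReal * (1 + C' * m') := by positivity
    linarith
  obtain ⟨θ, hθ, hθB, hθF⟩ := hphase R hR1 g hgm hgb
  refine ⟨R, θ, hmm.trans hmR, hR1, hθ, hθB, fun x0 hx0 => ?_⟩
  have hr0 : 0 < R ^ (-δ) := Real.rpow_pos_of_pos hR0 _
  have hr1 : R ^ (-δ) ≤ 1 := Real.rpow_le_one_of_one_le_of_nonpos hR1 (by linarith)
  obtain ⟨η, T, hη, hηb, hηs, hηM, hηF⟩ := hcap R (R ^ (-δ)) x0
    (fun x => Complex.exp ((θ x : ℂ) * Complex.I)) hr0 hr1 hx0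
    (by have := hθ.continuous.measurable; fun_prop)
    (fun x => by rw [Complex.norm_exp_ofReal_mul_I])
  refine ⟨η, T, hη, hηb, hηs, hηM, ?_⟩
  refine (ENNReal.ofReal_le_ofReal hmm).trans ?_
  by_contra hcon
  rw [not_le] at hcon
  have h1 : ∫⁻ ξ in Metric.ball 0 R,
      ‖extn (fun x => (η x : ℂ) * Complex.exp ((θ (T x) : ℂ) * Complex.I)) ξ‖ₑ ^ p ≤
        ENNReal.ofReal m' := (setLIntegral_le_lintegral _ _).trans hcon.le
  have hloss : (C / R ^ (-δ)) ^ ((n : ℝ) * (p + 1)) ≤ C' * R ^ e := by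
    rw [Real.div_rpow (by linarith) hr0.le, ← Real.rpow_mul hR0.le, div_eq_mul_inv,
      ← Real.rpow_neg hR0.le]
    refine mul_le_mul_of_nonneg_left ?_ hC0.le
    refine Real.rpow_le_rpow_of_exponent_le hR1 ?_
    linarith
  have h2 : ∫⁻ ξ in Metric.ball 0 R, ‖extn g ξ‖ₑ ^ p ≤
      ENNReal.ofReal (K1.toReal * (1 + C' * R ^ e * m')) := by
    refine hθF.trans ?_
    rw [ENNReal.ofReal_mul hK1', ENNReal.ofReal_toReal hK1,
      ENNReal.ofReal_add zero_le_one (by positivity), ENNReal.ofReal_one]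
    gcongr
    refine hηF.trans ?_
    rw [ENNReal.ofReal_mul (by positivity)]
    exact mul_le_mul' (ENNReal.ofReal_le_ofReal hloss) h1
  have h3 := (ENNReal.ofReal_lt_ofReal_iff_of_nonneg (by positivity)).1 (hg.trans_le h2)
  have h4 : K1.toReal * (1 + C' * R ^ e * m') ≤ K1.toReal * (1 + C' * m') * R ^ e := by
    have : 1 + C' * R ^ e * m' ≤ (1 + C' * m') * R ^ e := by nlinarith
    calc _ ≤ K1.toReal * ((1 + C' * m') * R ^ e) := mul_le_mul_of_nonneg_left this hK1'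
      _ = _ := by ring
  have h5 : K1.toReal * (1 + C' * m') * R ^ e ≤ X * R ^ e :=
    mul_le_mul_of_nonneg_right (by linarith) (by positivity)
  have h6 : X * R ^ e ≤ X * (R ^ e * R ^ e) := by
    refine mul_le_mul_of_nonneg_left ?_ (by linarith)
    nlinarith
  linarith

end Pool.Agent.VANn.DM
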