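import Pool.Agent.VANn.DM0
import Pool.Agent.VAN.DIM_S4

/-!
From the integer points to the integral.
-/

set_option autoImplicit false

namespace Pool.Agent.VANn.DM

open MeasureTheory Set Pool.Agent.MP_6cbfb8_an Pool.Agent.VAN Pool.Agent.VAN.DIM
open scoped ENNReal Real ContDiff

theorem cube (n : ℕ) (q : ℝ) (hq : 0 ≤ q) (K : ℝ≥0∞)
    (H : ∀ g : E n → ℂ, Measurable g → (∀ x, ‖g x‖ ≤ 1) → ∀ Z : Finset (E n), (∀ y ∈ Z, IsInt y) →
      ∑ y ∈ Z, ‖extn g y‖ₑ ^ q ≤ K) :
    ∀ g : E n → ℂ, Measurable g → (∀ x, ‖g x‖ ≤ 1) → ∫⁻ ξ, ‖extn g ξ‖ₑ ^ q ≤ K := by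
  intro g hg hb
  set b := (EuclideanSpace.basisFun (Fin n) ℝ).toBasis with hbdef
  have hfd := ZSpan.isAddFundamentalDomain' b (volume : Measure (E n))
  have hcount : Countable (Submodule.span ℤ (range b)).toAddSubgroup := by
    change Countable (Submodule.span ℤ (range b))
    infer_instance
  have hmeas : Measurable fun ξ : E n => ‖extn g ξ‖ₑ ^ q :=
    ((measurable_extn g hg).enorm).pow_const q
  rw [hfd.lintegral_eq_tsum'']
  rw [← lintegral_tsum fun z => ?_]
  · calc ∫⁻ u in ZSpan.fundamentalDomain b, ∑' z : (Submodule.span ℤ (range b)).toAddSubgroup,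
          ‖extn g (z +ᵥ u)‖ₑ ^ q
        ≤ ∫⁻ _u in ZSpan.fundamentalDomain b, K := by
          refine lintegral_mono fun u => ?_
          simp only
          rw [ENNReal.tsum_eq_iSup_sum]
          refine iSup_le fun s => ?_
          have h1 := H (fun x => g x * ex u x) (by
            unfold ex
            fun_prop) (fun x => by
              unfold ex
              rw [norm_mul, Complex.norm_exp_ofReal_mul_I, mul_one]
              exact hb x) (s.map ⟨Subtype.val, Subtype.val_injective⟩) (by
              intro y hy
              rw [Finset.mem_map] at hy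
              obtain ⟨z, hz, rfl⟩ := hy
              intro i
              have h2 := (Module.Basis.mem_span_iff_repr_mem ℤ b (z : E n)).1 z.2 i
              obtain ⟨m, hm⟩ := h2
              refine ⟨m, ?_⟩
              simpa [hbdef] using hm.symm)
          refine le_trans (le_of_eq ?_) h1
          rw [Finset.sum_map]
          refine Finset.sum_congr rfl fun z hz => ?_
          simp only [Function.Embedding.coeFn_mk]
          rw [← extn_add_freq]
          rfl
      _ = K := by
          rw [setLIntegral_const, measure_congr (ZSpan.fundamentalDomain_ae_parallelepiped b volume)]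
          have h3 : volume (parallelepiped b) = 1 := by
            have := (EuclideanSpace.basisFun (Fin n) ℝ).volume_parallelepiped
            rw [hbdef]
            simpa using this
          rw [h3, mul_one]
  · exact (hmeas.comp (measurable_const_vadd _)).aemeasurable

end Pool.Agent.VANn.DM
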