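import Pool.Agent.VANn.DMN

/-!
Covering numbers of the singular set.
-/

set_option autoImplicit false

namespace Pool.Agent.VANn.DM

open MeasureTheory Set Pool.Agent.MP_6cbfb8_an
open scoped ENNReal Real ContDiff

theorem cov_union (n : ℕ) (hn : 2 ≤ n) (A : ℕ) (hA : 1 ≤ A) (δ C : ℝ) (hδ : 0 < δ) (hδ1 : δ < 1)
    (e : E n) (a : ℕ → E n) (R : ℕ → ℝ) (Z : ℕ → Finset (E n))
    (he : ‖e‖ = 1) (ha : ∀ k, ‖a k‖ = 1) (hR : ∀ k, 1 ≤ R k)
    (hR2 : ∀ k, 2 * R k ≤ R (k + 1)) (hR3 : ∀ k, 13 * R (k + 1) ^ (-δ) < R k ^ (-(A : ℝ)))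
    (hae : ∀ k, dist (a k) e ≤ 9 * R k ^ (-δ))
    (hZ : ∀ k, ∀ z ∈ Z k, ‖z‖ = 1 ∧ dist z (a k) ≤ 4 * R k ^ (-δ))
    (hZc : ∀ k, ((Z k).card : ℝ) ≤ C * (R k ^ (-δ) / R k ^ (-(A : ℝ))) ^ (n - 1)) :
    ∃ V : ℝ, 0 ≤ V ∧ Cov V (((n : ℝ) - 1) * (1 - δ / A)) ({e} ∪ ⋃ k, (Z k : Set (E n))) := by
  obtain ⟨C', hC', hnets⟩ := nets n hn
  have hn' : (2:ℝ) ≤ n := by exact_mod_cast hn
  have hn1 : ((n - 1 : ℕ) : ℝ) = (n : ℝ) - 1 := by
    push_cast [Nat.cast_sub (by omega : 1 ≤ n)]
    ring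
  have hA' : (1:ℝ) ≤ A := by exact_mod_cast hA
  have hA0 : (0:ℝ) < A := by linarith
  have hdA : δ / A < 1 := (div_lt_one hA0).2 (by linarith)
  set κ : ℝ := ((n : ℝ) - 1) * (1 - δ / A) with hκdef
  have hκ : 0 < κ := mul_pos (by linarith) (by linarith)
  have hR0 : ∀ k, 0 < R k := fun k => by linarith [hR k]
  -- powers
  have hρ0 : ∀ k, 0 < R k ^ (-δ) := fun k => Real.rpow_pos_of_pos (hR0 k) _
  have hμ0 : ∀ k, 0 < R k ^ (-(A : ℝ)) := fun k => Real.rpow_pos_of_pos (hR0 k) _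
  have hRm : Monotone R := monotone_nat_of_le_succ fun k => by linarith [hR2 k, hR0 k]
  have hR2k : ∀ k, (2:ℝ) ^ k ≤ R k := by
    intro k
    induction k with
    | zero => simpa using hR 0
    | succ k ih =>
      rw [pow_succ]
      linarith [hR2 k]
  have hkey : ∀ k, (R k ^ (-δ) / R k ^ (-(A : ℝ))) ^ (n - 1) = R k ^ ((A : ℝ) * κ) := by
    intro k
    rw [← Real.rpow_sub (hR0 k), ← Real.rpow_natCast, ← Real.rpow_mul (hR0 k).le, hn1, hκdef]
    congr 1
    field_simp
    ring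
  have hC0 : 0 ≤ C := by
    by_contra hneg
    push Not at hneg
    have h1 := hZc 0
    have h2 : C * (R 0 ^ (-δ) / R 0 ^ (-(A : ℝ))) ^ (n - 1) < 0 :=
      mul_neg_of_neg_of_pos hneg (pow_pos (div_pos (hρ0 0) (hμ0 0)) _)
    have h3 : (0:ℝ) ≤ ((Z 0).card : ℝ) := Nat.cast_nonneg _
    linarith
  set q : ℝ := 2 ^ (-((A : ℝ) * κ)) with hqdef
  have hq0 : 0 < q := Real.rpow_pos_of_pos two_pos _
  have hq1 : q < 1 := Real.rpow_lt_one_of_one_lt_of_neg one_lt_two (by
    have := mul_pos hA0 hκ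
    linarith)
  set D : ℝ := 1 / (1 - q) with hDdef
  have hD0 : 0 < D := one_div_pos.2 (by linarith)
  have hDq : D * q + 1 = D := by
    have h1 : (1 - q) ≠ 0 := by linarith
    rw [hDdef, div_mul_eq_mul_div, one_mul, div_add_one h1]
    congr 1
    ring
  have hstep : ∀ k, R k ^ ((A : ℝ) * κ) ≤ q * R (k + 1) ^ ((A : ℝ) * κ) := by
    intro k
    have h1 : R k ≤ R (k + 1) / 2 := by linarith [hR2 k]
    calc R k ^ ((A : ℝ) * κ) ≤ (R (k + 1) / 2) ^ ((A : ℝ) * κ) :=
          Real.rpow_le_rpow (hR0 k).le h1 (mul_pos hA0 hκ).le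
      _ = q * R (k + 1) ^ ((A : ℝ) * κ) := by
          rw [Real.div_rpow (hR0 _).le two_pos.le, hqdef, Real.rpow_neg two_pos.le]
          field_simp
  have hsum : ∀ N : ℕ, ∑ k ∈ Finset.range (N + 1), R k ^ ((A : ℝ) * κ) ≤
      D * R N ^ ((A : ℝ) * κ) := by
    intro N
    induction N with
    | zero =>
      rw [Finset.sum_range_one]
      have h1 : 1 ≤ D := by
        rw [← hDq]
        have := mul_pos hD0 hq0
        linarith
      have h2 := Real.rpow_pos_of_pos (hR0 0) ((A : ℝ) * κ)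
      nlinarith
    | succ N ih =>
      rw [Finset.sum_range_succ]
      have h1 := hstep N
      calc _ ≤ D * R N ^ ((A : ℝ) * κ) + R (N + 1) ^ ((A : ℝ) * κ) := by linarith
        _ ≤ D * (q * R (N + 1) ^ ((A : ℝ) * κ)) + R (N + 1) ^ ((A : ℝ) * κ) := by
            have := mul_le_mul_of_nonneg_left h1 hD0.le
            linarith
        _ = (D * q + 1) * R (N + 1) ^ ((A : ℝ) * κ) := by ring
        _ = _ := by rw [hDq]
  refine ⟨1 + C * D + C' * (4 ^ (n - 1) + 1), by positivity, fun r hr hr1 => ?_⟩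
  have hrκ : 1 ≤ r ^ (-κ) := Real.one_le_rpow_of_pos_of_le_one_of_nonpos hr hr1 (by linarith)
  -- the first level with `μ k < r`
  have hex : ∃ k, R k ^ (-(A : ℝ)) < r := by
    obtain ⟨k, hk⟩ := pow_unbounded_of_one_lt (1 / r) one_lt_two
    refine ⟨k, ?_⟩
    calc R k ^ (-(A : ℝ)) ≤ R k ^ (-(1 : ℝ)) :=
          Real.rpow_le_rpow_of_exponent_le (hR k) (by linarith)
      _ = 1 / R k := by rw [Real.rpow_neg_one, one_div]
      _ ≤ 1 / 2 ^ k := one_div_le_one_div_of_le (by positivity) (hR2k k)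
      _ < r := by
          rw [one_div_lt (by positivity) hr]
          exact hk
  classical
  set m := Nat.find hex with hmdef
  have hm : R m ^ (-(A : ℝ)) < r := Nat.find_spec hex
  have hlt : ∀ k, k < m → r ≤ R k ^ (-(A : ℝ)) := fun k hk => not_lt.1 (Nat.find_min hex hk)
  -- the level `m`
  obtain ⟨N3, hN3c, hN3, hN3cov⟩ := hnets (a m) (4 * R m ^ (-δ)) (min r (4 * R m ^ (-δ))) (ha m)
    (lt_min hr (by linarith [hρ0 m])) (min_le_right _ _)
  have hρr : R m ^ (-δ) ≤ r ^ (δ / A) := by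
    have h1 : R m ^ (-δ) = (R m ^ (-(A : ℝ))) ^ (δ / A) := by
      rw [← Real.rpow_mul (hR0 m).le]
      congr 1
      field_simp
    rw [h1]
    exact Real.rpow_le_rpow (hμ0 m).le hm.le (by positivity)
  have hN3c' : (N3.card : ℝ) ≤ C' * (4 ^ (n - 1) + 1) * r ^ (-κ) := by
    refine hN3c.trans ?_
    rcases le_total r (4 * R m ^ (-δ)) with h | h
    · rw [min_eq_left h, mul_div_assoc, mul_pow]
      have h1 : (R m ^ (-δ) / r) ^ (n - 1) ≤ r ^ (-κ) := by
        calc (R m ^ (-δ) / r) ^ (n - 1) ≤ (r ^ (δ / A) / r) ^ (n - 1) := by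
              have := hρ0 m
              gcongr
          _ = r ^ (-κ) := by
              rw [← Real.rpow_sub_one hr.ne', ← Real.rpow_natCast, ← Real.rpow_mul hr.le, hn1,
                hκdef]
              congr 1
              ring
      have h2 : (0:ℝ) < 4 ^ (n - 1) := by positivity
      calc C' * (4 ^ (n - 1) * (R m ^ (-δ) / r) ^ (n - 1)) ≤ C' * (4 ^ (n - 1) * r ^ (-κ)) := by
            gcongr
        _ ≤ C' * (4 ^ (n - 1) + 1) * r ^ (-κ) := by
            rw [mul_assoc]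
            gcongr
            linarith
    · rw [min_eq_right h, div_self (by have := hρ0 m; positivity : (4:ℝ) * R m ^ (-δ) ≠ 0),
        one_pow, mul_one]
      have h2 : (0:ℝ) < 4 ^ (n - 1) := by positivity
      calc C' = C' * 1 * 1 := by ring
        _ ≤ C' * (4 ^ (n - 1) + 1) * r ^ (-κ) := by
            gcongr
            linarith
  have hN2 : (((Finset.range m).biUnion Z).card : ℝ) ≤ C * D * r ^ (-κ) := by
    rcases Nat.eq_zero_or_pos m with h0 | h0
    · rw [h0]
      simp only [Finset.range_zero, Finset.biUnion_empty, Finset.card_empty, Nat.cast_zero]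
      positivity
    · obtain ⟨N, hN⟩ : ∃ N, m = N + 1 := ⟨m - 1, by omega⟩
      rw [hN]
      calc (((Finset.range (N + 1)).biUnion Z).card : ℝ)
          ≤ ((∑ k ∈ Finset.range (N + 1), (Z k).card : ℕ) : ℝ) := by
            exact_mod_cast Finset.card_biUnion_le
        _ ≤ ∑ k ∈ Finset.range (N + 1), C * R k ^ ((A : ℝ) * κ) := by
            push_cast
            refine Finset.sum_le_sum fun k _ => ?_
            rw [← hkey k]
            exact hZc k
        _ = C * ∑ k ∈ Finset.range (N + 1), R k ^ ((A : ℝ) * κ) := by rw [Finset.mul_sum]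
        _ ≤ C * (D * R N ^ ((A : ℝ) * κ)) := by
            gcongr
            exact hsum N
        _ ≤ C * (D * r ^ (-κ)) := by
            gcongr
            have h1 := hlt N (by omega)
            have h2 : R N ^ ((A : ℝ) * κ) = (R N ^ (-(A : ℝ))) ^ (-κ) := by
              rw [← Real.rpow_mul (hR0 N).le]
              congr 1
              ring
            rw [h2]
            exact Real.rpow_le_rpow_of_nonpos hr h1 (by linarith)
        _ = C * D * r ^ (-κ) := by ring
  refine ⟨{e} ∪ ((Finset.range m).biUnion Z ∪ N3), ?_, ?_⟩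
  · calc ((({e} ∪ ((Finset.range m).biUnion Z ∪ N3) : Finset (E n)).card : ℕ) : ℝ)
        ≤ ((1 + (((Finset.range m).biUnion Z).card + N3.card) : ℕ) : ℝ) := by
          have h1 := Finset.card_union_le ({e} : Finset (E n)) ((Finset.range m).biUnion Z ∪ N3)
          have h2 := Finset.card_union_le ((Finset.range m).biUnion Z) N3
          rw [Finset.card_singleton] at h1
          exact_mod_cast (by omega)
      _ ≤ r ^ (-κ) + (C * D * r ^ (-κ) + C' * (4 ^ (n - 1) + 1) * r ^ (-κ)) := by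
          push_cast
          gcongr
      _ = _ := by ring
  · intro x hx
    simp only [mem_iUnion, exists_prop, Metric.mem_ball]
    rcases hx with hx | hx
    · rw [mem_singleton_iff] at hx
      exact ⟨e, by simp, by rw [hx, dist_self]; exact hr⟩
    · obtain ⟨k, hk⟩ := mem_iUnion.1 hx
      have hk' : x ∈ Z k := hk
      rcases lt_trichotomy k m with h | h | h
      · refine ⟨x, ?_, by rw [dist_self]; exact hr⟩
        rw [Finset.mem_union, Finset.mem_union, Finset.mem_biUnion]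
        exact Or.inr (Or.inl ⟨k, Finset.mem_range.2 h, hk'⟩)
      · rw [h] at hk'
        obtain ⟨h1, h2⟩ := hZ m x hk'
        obtain ⟨z, hz, hxz⟩ := hN3cov x h1 h2
        refine ⟨z, ?_, hxz.trans_le (min_le_left _ _)⟩
        rw [Finset.mem_union, Finset.mem_union]
        exact Or.inr (Or.inr hz)
      · obtain ⟨h1, h2⟩ := hZ k x hk'
        refine ⟨e, by simp, ?_⟩
        have h3 : R k ^ (-δ) ≤ R (m + 1) ^ (-δ) :=
          Real.rpow_le_rpow_of_nonpos (hR0 _) (hRm (by omega)) (by linarith)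
        calc dist x e ≤ dist x (a k) + dist (a k) e := dist_triangle _ _ _
          _ ≤ 4 * R k ^ (-δ) + 9 * R k ^ (-δ) := add_le_add h2 (hae k)
          _ = 13 * R k ^ (-δ) := by ring
          _ ≤ 13 * R (m + 1) ^ (-δ) := by linarith
          _ < R m ^ (-(A : ℝ)) := hR3 m
          _ < r := hm

end Pool.Agent.VANn.DM
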