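import Pool.Agent.VANn.DM0
import Pool.Agent.GNP.WBV

/-! Nets of the caps of the sphere (row G0). -/

set_option autoImplicit false

namespace Pool.Agent.VANn.DM

open MeasureTheory Set Pool.Agent.MP_6cbfb8_an Pool.Agent.GNP
open scoped ENNReal Real

/-- lower bound for the caps around the pole -/
lemma cap_pole_ge (j : ℕ) {r : ℝ} (hr : 0 ≤ r) (hr1 : r ≤ 1) :
    ENNReal.ofReal (r / 2 * (r / π) ^ j) * sm (j + 1) univ ≤
      sm (j + 2) {y : S (j + 2) | ‖(y : E (j + 2)) - wbe (j + 1)‖ ≤ r} := by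
  have hmp := slicing j
  have hA : MeasurableSet {y : S (j + 2) | ‖(y : E (j + 2)) - wbe (j + 1)‖ ≤ r} := by
    refine measurableSet_le ?_ measurable_const
    exact (by fun_prop : Continuous fun y : S (j + 2) => ‖(y : E (j + 2)) - wbe (j + 1)‖).measurable
  rw [← hmp.measure_preimage hA.nullMeasurableSet]
  have hπ := Real.pi_gt_three
  have hsub : Ioo (r / 2) r ×ˢ univ ⊆
      (fun q : ℝ × S (j + 1) => (⟨pt q.1 (q.2 : E (j + 1)), pt_mem q.1 q.2⟩ : S (j + 2))) ⁻¹'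
      {y : S (j + 2) | ‖(y : E (j + 2)) - wbe (j + 1)‖ ≤ r} := by
    rintro ⟨θ, ω⟩ ⟨hθ, -⟩
    simp only [mem_Ioo] at hθ
    simp only [mem_preimage, mem_ofPred_eq]
    have h0 : 0 ≤ θ := by linarith
    have h1 : ‖pt θ (ω : E (j + 1)) - wbe (j + 1)‖ ^ 2 ≤ θ ^ 2 := by
      rw [wb_dist_pt θ ω]
      have := Real.one_sub_sq_div_two_le_cos (x := θ)
      linarith
    exact (le_of_sq_le_sq h1 h0).trans hθ.2.le
  refine le_trans ?_ (measure_mono hsub)
  rw [Measure.prod_prod]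
  gcongr
  rw [withDensity_apply _ measurableSet_Ioo, Measure.restrict_restrict measurableSet_Ioo]
  have hi : Ioo (r / 2) r ∩ Ioo 0 π = Ioo (r / 2) r := by
    apply inter_eq_left.2
    exact Ioo_subset_Ioo (by linarith) (by linarith)
  rw [hi]
  have h2 : ∫⁻ _θ in Ioo (r / 2) r, ENNReal.ofReal ((r / π) ^ j) ≤
      ∫⁻ θ in Ioo (r / 2) r, ENNReal.ofReal (Real.sin θ ^ j) := by
    refine setLIntegral_mono' measurableSet_Ioo (fun θ hθ => ?_)
    apply ENNReal.ofReal_le_ofReal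
    refine pow_le_pow_left₀ (by positivity) ?_ j
    have h3 : 2 / π * θ ≤ Real.sin θ := Real.mul_le_sin (by linarith [hθ.1]) (by linarith [hθ.2])
    refine le_trans ?_ h3
    rw [div_le_iff₀ (by positivity)]
    have : 2 / π * θ * π = 2 * θ := by field_simp
    rw [this]; linarith [hθ.1]
  refine le_trans (le_of_eq ?_) h2
  rw [lintegral_const, Measure.restrict_apply MeasurableSet.univ, univ_inter, Real.volume_Ioo,
    ← ENNReal.ofReal_mul (by positivity)]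
  congr 1
  ring

/-- lower bound for the measure of a cap -/
lemma cap_ge (n : ℕ) (hn : 2 ≤ n) : ∃ c : ℝ, 0 < c ∧ ∀ (x : S n) (r : ℝ), 0 ≤ r → r ≤ 1 →
    ENNReal.ofReal (c * r ^ (n - 1)) ≤ sm n (Metric.closedBall x r) := by
  obtain ⟨j, rfl⟩ : ∃ j, n = j + 2 := ⟨n - 2, by omega⟩
  have hfin : sm (j + 1) univ ≠ ∞ := measure_ne_top _ _
  have hpos : 0 < (sm (j + 1) univ).toReal := by
    apply ENNReal.toReal_pos _ hfin
    rw [Measure.toSphere_apply_univ]
    refine mul_ne_zero (by simp) ?_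
    exact (Metric.measure_ball_pos volume (0 : E (j + 1)) one_pos).ne'
  refine ⟨(1 / 2) * (1 / π) ^ j * (sm (j + 1) univ).toReal, by positivity, fun x r hr hr1 => ?_⟩
  obtain ⟨R, hR⟩ := wb_exists_rot (n := j + 1) (x : E (j + 2)) (by simp)
  have hmp := measurePreserving_isometry R
  have hA : MeasurableSet (Metric.closedBall x r) := Metric.isClosed_closedBall.measurableSet
  rw [← hmp.measure_preimage hA.nullMeasurableSet]
  have e : (fun y : S (j + 2) => (⟨R y, by simp⟩ : S (j + 2))) ⁻¹' Metric.closedBall x r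
      = {y : S (j + 2) | ‖(y : E (j + 2)) - wbe (j + 1)‖ ≤ r} := by
    ext y
    simp only [mem_preimage, Metric.mem_closedBall, mem_ofPred_eq, Subtype.dist_eq, dist_eq_norm]
    rw [← hR, ← map_sub, R.norm_map]
  rw [e]
  refine le_trans (le_of_eq ?_) (cap_pole_ge j hr hr1)
  rw [← ENNReal.ofReal_toReal hfin, ← ENNReal.ofReal_mul (by positivity)]
  rw [ENNReal.ofReal_toReal hfin]
  congr 1
  rw [show j + 2 - 1 = j + 1 by omega, pow_succ, div_pow, div_pow, one_pow]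
  ring

/-- the number of points of a separated set in a cap -/
lemma card_sep (n : ℕ) (hn : 2 ≤ n) : ∃ C : ℝ, 0 < C ∧ ∀ (a : E n) (ρ μ : ℝ), ‖a‖ = 1 → 0 < μ →
    μ ≤ ρ → ∀ Z : Finset (E n), (∀ z ∈ Z, ‖z‖ = 1 ∧ dist z a ≤ ρ) →
      (∀ z ∈ Z, ∀ w ∈ Z, z ≠ w → μ ≤ dist z w) → (Z.card : ℝ) ≤ C * (ρ / μ) ^ (n - 1) := by
  obtain ⟨K, hK, hup⟩ := wb_cap n hn
  obtain ⟨c, hc, hlo⟩ := cap_ge n hn
  refine ⟨1 + K / c * 6 ^ (n - 1), by positivity, fun a ρ μ ha hμ hμρ Z hZ hsep => ?_⟩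
  have hρ : 0 < ρ := hμ.trans_le hμρ
  have h1 : 1 ≤ (ρ / μ) ^ (n - 1) := one_le_pow₀ ((one_le_div hμ).2 hμρ)
  have h2 : 0 ≤ K / c * 6 ^ (n - 1) := by positivity
  by_cases h3 : 3 < μ
  · have h4 : Z.card ≤ 1 := by
      rw [Finset.card_le_one]
      intro z hz w hw
      by_contra hne
      have h5 := hsep z hz w hw hne
      have h6 : dist z w ≤ ‖z‖ + ‖w‖ := dist_le_norm_add_norm z w
      rw [(hZ z hz).1, (hZ w hw).1] at h6
      linarith
    have h5 : (Z.card : ℝ) ≤ 1 := by exact_mod_cast h4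
    nlinarith
  push Not at h3
  -- the points as points of the sphere
  have hmem : ∀ z ∈ Z, z ∈ S n := fun z hz => by simp [(hZ z hz).1]
  set a' : S n := ⟨a, by simp [ha]⟩ with ha'
  have hdis : Pairwise (Function.onFun Disjoint
      fun z : {z // z ∈ Z} => Metric.closedBall (⟨z, hmem z z.2⟩ : S n) (μ / 3)) := by
    intro z w hzw
    apply Metric.closedBall_disjoint_closedBall
    have := hsep z z.2 w w.2 (fun h => hzw (Subtype.ext h))
    rw [Subtype.dist_eq]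
    show μ / 3 + μ / 3 < dist (z : E n) (w : E n)
    linarith
  have hsub : (⋃ z : {z // z ∈ Z}, Metric.closedBall (⟨z, hmem z z.2⟩ : S n) (μ / 3)) ⊆
      Metric.closedBall a' (2 * ρ) := by
    apply iUnion_subset
    intro z
    apply Metric.closedBall_subset_closedBall'
    have := (hZ z z.2).2
    rw [Subtype.dist_eq]
    show μ / 3 + dist (z : E n) a ≤ 2 * ρ
    linarith
  have hle : ∑ z : {z // z ∈ Z}, sm n (Metric.closedBall (⟨z, hmem z z.2⟩ : S n) (μ / 3)) ≤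
      ENNReal.ofReal (K * (2 * ρ) ^ (n - 1)) := by
    have h0 := measure_iUnion (μ := sm n) hdis
      (fun z => Metric.isClosed_closedBall.measurableSet)
    rw [tsum_fintype] at h0
    rw [← h0]
    exact (measure_mono hsub).trans (hup a' (2 * ρ) (by positivity))
  have hge : (Z.card : ℝ≥0∞) * ENNReal.ofReal (c * (μ / 3) ^ (n - 1)) ≤
      ∑ z : {z // z ∈ Z}, sm n (Metric.closedBall (⟨z, hmem z z.2⟩ : S n) (μ / 3)) := by
    have := Finset.card_nsmul_le_sum (Finset.univ : Finset {z // z ∈ Z})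
      (fun z => sm n (Metric.closedBall (⟨z, hmem z z.2⟩ : S n) (μ / 3)))
      (ENNReal.ofReal (c * (μ / 3) ^ (n - 1)))
      (fun z _ => hlo _ _ (by positivity) (by linarith))
    rw [nsmul_eq_mul, Finset.card_univ, Fintype.card_coe] at this
    exact this
  have h7 := hge.trans hle
  rw [← ENNReal.ofReal_natCast, ← ENNReal.ofReal_mul (Nat.cast_nonneg _),
    ENNReal.ofReal_le_ofReal_iff (by positivity)] at h7
  have h8 : (Z.card : ℝ) ≤ K / c * 6 ^ (n - 1) * (ρ / μ) ^ (n - 1) := by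
    have h9 : K / c * 6 ^ (n - 1) * (ρ / μ) ^ (n - 1) =
        K * (2 * ρ) ^ (n - 1) / (c * (μ / 3) ^ (n - 1)) := by
      rw [mul_assoc, ← mul_pow, mul_comm c, ← div_div, div_mul_eq_mul_div]
      congr 1
      rw [mul_div_assoc, ← div_pow]
      congr 2
      field_simp
      ring
    rw [h9, le_div_iff₀ (by positivity)]
    linarith
  nlinarith

theorem nets (n : ℕ) (hn : 2 ≤ n) : ∃ C : ℝ, 0 < C ∧ ∀ (a : E n) (ρ μ : ℝ), ‖a‖ = 1 → 0 < μ → μ ≤ ρ →
    ∃ Z : Finset (E n), (Z.card : ℝ) ≤ C * (ρ / μ) ^ (n - 1) ∧ (∀ z ∈ Z, ‖z‖ = 1 ∧ dist z a ≤ ρ) ∧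
      ∀ x, ‖x‖ = 1 → dist x a ≤ ρ → ∃ z ∈ Z, dist x z < μ := by
  obtain ⟨C, hC, h⟩ := card_sep n hn
  refine ⟨C, hC, fun a ρ μ ha hμ hμρ => ?_⟩
  classical
  -- a separated set with the largest number of points
  set P : Finset (E n) → Prop := fun Z => (∀ z ∈ Z, ‖z‖ = 1 ∧ dist z a ≤ ρ) ∧
    (∀ z ∈ Z, ∀ w ∈ Z, z ≠ w → μ ≤ dist z w) with hP
  set N : ℕ := ⌊C * (ρ / μ) ^ (n - 1)⌋₊ with hN
  have hcard : ∀ Z, P Z → Z.card ≤ N := fun Z hZ => Nat.le_floor (h a ρ μ ha hμ hμρ Z hZ.1 hZ.2)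
  have hex : ∃ Z, P Z ∧ ∀ Z', P Z' → Z'.card ≤ Z.card := by
    set T : Set ℕ := {k | ∃ Z, P Z ∧ Z.card = k} with hT
    have hne : T.Nonempty := ⟨0, ∅, ⟨by simp, by simp⟩, by simp⟩
    have hbd : BddAbove T := ⟨N, by rintro k ⟨Z, hZ, rfl⟩; exact hcard Z hZ⟩
    obtain ⟨Z, hZ, hZk⟩ := Nat.sSup_mem hne hbd
    exact ⟨Z, hZ, fun Z' hZ' => hZk ▸ le_csSup hbd ⟨Z', hZ', rfl⟩⟩
  obtain ⟨Z, hZ, hmax⟩ := hex
  refine ⟨Z, h a ρ μ ha hμ hμρ Z hZ.1 hZ.2, hZ.1, fun x hx hxa => ?_⟩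
  by_contra hcon
  push Not at hcon
  have hxZ : x ∉ Z := fun hx' => by
    have := hcon x hx'
    rw [dist_self] at this
    linarith
  have hP' : P (insert x Z) := by
    refine ⟨fun z hz => ?_, fun z hz w hw hzw => ?_⟩
    · rcases Finset.mem_insert.1 hz with rfl | hz
      · exact ⟨hx, hxa⟩
      · exact hZ.1 z hz
    · rcases Finset.mem_insert.1 hz with hz1 | hz1
      · rcases Finset.mem_insert.1 hw with hw1 | hw1
        · exact absurd (hz1.trans hw1.symm) hzw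
        · rw [hz1]; exact hcon w hw1
      · rcases Finset.mem_insert.1 hw with hw1 | hw1
        · rw [hw1, dist_comm]; exact hcon z hz1
        · exact hZ.2 z hz1 w hw1 hzw
  have := hmax _ hP'
  rw [Finset.card_insert_of_notMem hxZ] at this
  omega

end Pool.Agent.VANn.DM
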