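import Pool.Agent.VANn.DMU

/-!
**One point.** The phase of `dim_one` is smooth off the point `e`, with derivatives of polynomial growth there:
Stein's restriction conjecture in `R^n` is a statement about densities `e^{iψ}` with `ψ` bounded and smooth
off one point.
-/

set_option autoImplicit false

namespace Pool.Agent.VANn.DM

open MeasureTheory Set Filter Pool.Agent.MP_6cbfb8_an Pool.Agent.VAN
open scoped ENNReal Real ContDiff Topology

theorem glue_pt (n : ℕ) (hn : 2 ≤ n) (p : ℝ) (_hp : 1 ≤ p) (A : ℕ) (hA : 1 ≤ A) (B : ℕ → ℝ) (δ : ℝ)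
    (hδ : 0 < δ) (hδ1 : δ < 1) (M : ℝ≥0∞) (hM : M ≠ ⊤) (H : ∀ m : ℝ, ∃ (R : ℝ) (θ : E n → ℝ),
      m ≤ R ∧ 1 ≤ R ∧ ContDiff ℝ ∞ θ ∧ (∀ j x, ‖iteratedFDeriv ℝ j θ x‖ ≤ B j * R ^ (A * j)) ∧
      ∀ x0 ∈ S n, ∃ (η : E n → ℝ) (T : E n ≃ₗᵢ[ℝ] E n), ContDiff ℝ ∞ η ∧ (∀ x, |η x| ≤ 1) ∧
        (∀ z, z ∉ Metric.ball x0 (R ^ (-δ)) → η z = 0) ∧
        (∀ u : E n → ℂ, Measurable u → (∀ x, ‖u x‖ ≤ 1) →
          FF p (fun x => (η x : ℂ) * u x) ≤ M * FF p u) ∧
        ENNReal.ofReal m ≤ FF p (fun x => (η x : ℂ) * Complex.exp ((θ (T x) : ℂ) * Complex.I)))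
    (e : E n) (he : ‖e‖ = 1) : ∃ (V : ℝ) (Sig : Set (E n)) (ψ : E n → ℝ) (B' : ℕ → ℝ),
      0 ≤ V ∧ Cov V (((n : ℝ) - 1) * (1 - δ / A)) Sig ∧ Sig ⊆ Metric.sphere 0 1 ∧
      (∀ ε : ℝ, 0 < ε → (Sig \ Metric.ball e ε).Finite) ∧ Phs 0 B' 1 Sig ψ ∧ Measurable ψ ∧
      (∃ (A' : ℕ) (B'' : ℕ → ℝ), (∀ j, 0 ≤ B'' j) ∧ ∀ x, x ≠ e → ContDiffAt ℝ ∞ ψ x ∧
        ∀ j, ‖iteratedFDeriv ℝ j ψ x‖ ≤ B'' j / dist x e ^ (A' * j)) ∧
      FF p (fun x => Complex.exp ((ψ x : ℂ) * Complex.I)) = ⊤ := by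
  obtain ⟨m, R, θ, a, hm, hQ, hR, -, hR2, hR3, hR14, ha⟩ := seqs hn A hδ (fun m R θ =>
      ContDiff ℝ ∞ θ ∧ (∀ j x, ‖iteratedFDeriv ℝ j θ x‖ ≤ B j * R ^ (A * j)) ∧
      ∀ x0 ∈ S n, ∃ (η : E n → ℝ) (T : E n ≃ₗᵢ[ℝ] E n), ContDiff ℝ ∞ η ∧ (∀ x, |η x| ≤ 1) ∧
        (∀ z, z ∉ Metric.ball x0 (R ^ (-δ)) → η z = 0) ∧
        (∀ u : E n → ℂ, Measurable u → (∀ x, ‖u x‖ ≤ 1) →
          FF p (fun x => (η x : ℂ) * u x) ≤ M * FF p u) ∧
        ENNReal.ofReal m ≤ FF p (fun x => (η x : ℂ) * Complex.exp ((θ (T x) : ℂ) * Complex.I)))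
      H he 0
  have haS : ∀ k, a k ∈ S n := fun k => by
    have := (ha k).1
    simpa [S] using this
  choose hθ hθB hQ using hQ
  choose η T hη hη1 hη0 hηM hηm using fun k => hQ k (a k) (haS k)
  obtain ⟨C', hC', hnets⟩ := nets n hn
  have hR0 : ∀ k, 0 < R k := fun k => by linarith [hR k]
  have hA' : (1:ℝ) ≤ A := by exact_mod_cast hA
  have hρ0 : ∀ k, 0 < R k ^ (-δ) := fun k => Real.rpow_pos_of_pos (hR0 k) _
  have hμ0 : ∀ k, 0 < R k ^ (-(A : ℝ)) := fun k => Real.rpow_pos_of_pos (hR0 k) _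
  have hμρ : ∀ k, R k ^ (-(A : ℝ)) ≤ R k ^ (-δ) := fun k =>
    Real.rpow_le_rpow_of_exponent_le (hR k) (by linarith)
  -- the nets
  have hN : ∀ k, ∃ Z : Finset (E n),
      (Z.card : ℝ) ≤ C' * ((4 * R k ^ (-δ)) / R k ^ (-(A : ℝ))) ^ (n - 1) ∧
      (∀ z ∈ Z, ‖z‖ = 1 ∧ dist z (a k) ≤ 4 * R k ^ (-δ)) ∧
      ∀ x, ‖x‖ = 1 → dist x (a k) ≤ 4 * R k ^ (-δ) → ∃ z ∈ Z, dist x z < R k ^ (-(A : ℝ)) :=
    fun k => hnets (a k) _ _ (ha k).1 (hμ0 k) (by linarith [hμρ k, hρ0 k])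
  choose Z hZc hZ hZcov using hN
  obtain ⟨V, hV, hcov⟩ := cov_union n hn A hA δ (C' * 4 ^ (n - 1)) hδ hδ1 e a R Z he
    (fun k => (ha k).1) hR hR2 hR3 (fun k => by rw [(ha k).2]; linarith [hρ0 k]) hZ (fun k => by
      refine (hZc k).trans (le_of_eq ?_)
      rw [mul_div_assoc, mul_pow, mul_assoc])
  -- distances to `e`
  have hdisj := fun {k l : ℕ} (hkl : k ≠ l) {x : E n} (hx : dist x (a k) ≤ 4 * R k ^ (-δ)) =>
    seqs_disj hA hδ hδ1 hR hR2 hR3 (fun k => (ha k).2) hkl hx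
  have hρlim : Tendsto (fun k => R k ^ (-δ)) atTop (𝓝 0) := by
    have h1 : Tendsto R atTop atTop := by
      have h2 : ∀ k, (2:ℝ) ^ k ≤ R k := by
        intro k
        induction k with
        | zero => simpa using hR 0
        | succ k ih =>
          rw [pow_succ]
          linarith [hR2 k]
      exact tendsto_atTop_mono h2 (tendsto_pow_atTop_atTop_of_one_lt one_lt_two)
    exact (tendsto_rpow_neg_atTop hδ).comp h1
  -- the phase
  obtain ⟨D, hD0, hD⟩ := bump_bound (n := n) hA hδ1 B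
  set f : ℕ → E n → ℝ := fun k x => ch ((R k ^ δ) • (x - a k)) * θ k (T k x) with hfdef
  have hf0 : ∀ k x, 2 * R k ^ (-δ) ≤ dist x (a k) → f k x = 0 := by
    intro k x hx
    simp only [hfdef]
    rw [ch_zero, zero_mul]
    rw [norm_smul, ← dist_eq_norm, Real.norm_of_nonneg (Real.rpow_nonneg (hR0 k).le _)]
    have h1 : R k ^ δ * R k ^ (-δ) = 1 := by
      rw [← Real.rpow_add (hR0 k)]
      simp
    have h2 : 2 ≤ R k ^ δ * dist x (a k) := by
      have := mul_le_mul_of_nonneg_left hx (Real.rpow_nonneg (hR0 k).le δ)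
      nlinarith
    nlinarith
  have hf1 : ∀ k x, dist x (a k) < R k ^ (-δ) → f k x = θ k (T k x) := by
    intro k x hx
    simp only [hfdef]
    rw [ch_one, one_mul]
    rw [norm_smul, ← dist_eq_norm, Real.norm_of_nonneg (Real.rpow_nonneg (hR0 k).le _)]
    have h1 : R k ^ δ * R k ^ (-δ) = 1 := by
      rw [← Real.rpow_add (hR0 k)]
      simp
    rw [← h1]
    exact mul_le_mul_of_nonneg_left hx.le (Real.rpow_nonneg (hR0 k).le _)
  have hfs : ∀ k, ContDiff ℝ ∞ (f k) := fun k =>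
    (hD (R k) (θ k) (T k) (a k) (hR k) (hθ k) (hθB k)).1
  have hfB : ∀ k j x, ‖iteratedFDeriv ℝ j (f k) x‖ ≤ D j * R k ^ (A * j) := fun k =>
    (hD (R k) (θ k) (T k) (a k) (hR k) (hθ k) (hθB k)).2
  set ψ : E n → ℝ := fun x => ∑' k, f k x with hψdef
  have hψk : ∀ k x, dist x (a k) ≤ 4 * R k ^ (-δ) → ψ x = f k x := by
    intro k x hx
    refine tsum_eq_single k fun l hl => hf0 l x ?_
    have := hdisj (Ne.symm hl) hx
    linarith [hρ0 l]
  have hψ0 : ∀ x, (∀ k, 2 * R k ^ (-δ) ≤ dist x (a k)) → ψ x = 0 := by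
    intro x hx
    simp only [hψdef]
    rw [show (fun k => f k x) = fun _ => (0:ℝ) from funext fun k => hf0 k x (hx k), tsum_zero]
  -- near a point away from the bumps
  have hfar : ∀ x, x ≠ e → (∀ k, 4 * R k ^ (-δ) ≤ dist x (a k)) → ψ =ᶠ[𝓝 x] fun _ => 0 := by
    intro x hxe hx
    have hd : 0 < dist x e := dist_pos.2 hxe
    obtain ⟨K, hK⟩ := (eventually_atTop.1 (hρlim.eventually (gt_mem_nhds
      (show (0:ℝ) < dist x e / 36 by positivity))))
    have hfin : ∀ᶠ y in 𝓝 x, ∀ k ∈ Finset.range K, 2 * R k ^ (-δ) ≤ dist y (a k) := by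
      rw [Filter.eventually_all_finset]
      intro k _
      have h1 : ContinuousAt (fun y => dist y (a k)) x := by fun_prop
      have h2 := h1.eventually (lt_mem_nhds (show 2 * R k ^ (-δ) < dist x (a k) by
        linarith [hx k, hρ0 k]))
      exact h2.mono fun y hy => le_of_lt hy
    have hball : ∀ᶠ y in 𝓝 x, dist x e / 2 < dist y e := by
      have h1 : ContinuousAt (fun y => dist y e) x := by fun_prop
      exact h1.eventually (lt_mem_nhds (by linarith))
    filter_upwards [hfin, hball] with y hy1 hy2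
    refine hψ0 y fun k => ?_
    by_cases hk : k < K
    · exact hy1 k (Finset.mem_range.2 hk)
    · have h1 := hK k (not_lt.1 hk)
      have h2 := dist_triangle y (a k) e
      rw [(ha k).2] at h2
      linarith
  have hψm : Measurable ψ := by
    refine measurable_of_tendsto_metrizable (f := fun N x => ∑ k ∈ Finset.range N, f k x)
      (fun N => ?_) ?_
    · exact Finset.measurable_sum _ fun k _ => (hfs k).continuous.measurable
    · rw [tendsto_pi_nhds]
      intro x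
      by_cases hk : ∃ k, dist x (a k) ≤ 4 * R k ^ (-δ)
      · obtain ⟨k, hk⟩ := hk
        refine tendsto_atTop_of_eventually_const (i₀ := k + 1) fun N hN => ?_
        rw [hψk k x hk]
        refine Finset.sum_eq_single k (fun l _ hl => hf0 l x ?_) fun h => ?_
        · have := hdisj (Ne.symm hl) hk
          linarith [hρ0 l]
        · exact absurd (Finset.mem_range.2 (by omega)) h
      · push Not at hk
        refine tendsto_atTop_of_eventually_const (i₀ := 0) fun N _ => ?_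
        rw [hψ0 x fun k => by linarith [hk k, hρ0 k]]
        exact Finset.sum_eq_zero fun k _ => hf0 k x (by linarith [hk k, hρ0 k])
  refine ⟨V, _, ψ, D, hV, hcov, ?_, ?_, ?_, ?_, ?_, ?_⟩
  · intro x hx
    rw [mem_sphere_zero_iff_norm]
    rcases hx with hx | hx
    · rw [mem_singleton_iff.1 hx]
      exact he
    · obtain ⟨k, hk⟩ := mem_iUnion.1 hx
      exact (hZ k x hk).1
  · intro ε hε
    obtain ⟨K, hK⟩ := (eventually_atTop.1 (hρlim.eventually (gt_mem_nhds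
      (show (0:ℝ) < ε / 11 by positivity))))
    refine Set.Finite.subset (Finset.finite_toSet ((Finset.range K).biUnion Z)) ?_
    rintro x ⟨hx | hx, hxe⟩
    · rw [mem_singleton_iff.1 hx] at hxe
      exact absurd (Metric.mem_ball_self hε) hxe
    · obtain ⟨k, hk⟩ := mem_iUnion.1 hx
      rw [Metric.mem_ball, not_lt] at hxe
      by_cases hk' : k < K
      · exact Finset.mem_coe.2 (Finset.mem_biUnion.2 ⟨k, Finset.mem_range.2 hk', hk⟩)
      · exfalso
        have h1 := hK k (not_lt.1 hk')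
        have h2 := dist_triangle x (a k) e
        have h3 := (hZ k x hk).2
        rw [(ha k).2] at h2
        linarith
  · intro x hx1 r hr hr1 hdis
    have hxe : x ≠ e := by
      rintro rfl
      exact (Set.disjoint_left.1 hdis (Metric.mem_ball_self hr)) (Or.inl rfl)
    by_cases hk : ∃ k, dist x (a k) < 4 * R k ^ (-δ)
    · obtain ⟨k, hk⟩ := hk
      have heq : ψ =ᶠ[𝓝 x] f k := by
        have h1 : ContinuousAt (fun y => dist y (a k)) x := by fun_prop
        filter_upwards [h1.eventually (gt_mem_nhds hk)] with y hy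
        exact hψk k y (le_of_lt hy)
      refine ⟨(hfs k).contDiffAt.congr_of_eventuallyEq heq, fun j hj => ?_⟩
      rw [(heq.iteratedFDeriv ℝ j).eq_of_nhds, zero_add]
      obtain ⟨z, hz, hxz⟩ := hZcov k x hx1 hk.le
      have hrz : r ≤ dist z x := by
        by_contra hlt
        push Not at hlt
        exact (Set.disjoint_left.1 hdis (show z ∈ Metric.ball x r from hlt))
          (Or.inr (mem_iUnion.2 ⟨k, hz⟩))
      rw [dist_comm] at hrz
      have h1 : r ≤ R k ^ (-(A : ℝ)) := by linarith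
      have h2 : R k ^ (A * j) ≤ 1 / r ^ j := by
        rw [le_div_iff₀ (by positivity)]
        calc R k ^ (A * j) * r ^ j ≤ R k ^ (A * j) * (R k ^ (-(A : ℝ))) ^ j :=
              mul_le_mul_of_nonneg_left (pow_le_pow_left₀ hr.le h1 j) (pow_nonneg (hR0 k).le _)
          _ = 1 := by
              rw [Real.rpow_neg (hR0 k).le, Real.rpow_natCast, inv_pow, ← pow_mul]
              exact mul_inv_cancel₀ (by have := hR0 k; positivity)
      calc ‖iteratedFDeriv ℝ j (f k) x‖ ≤ D j * R k ^ (A * j) := hfB k j x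
        _ ≤ D j * (1 / r ^ j) := by
            have := hD0 j
            gcongr
        _ = 1 * D j / r ^ j := by ring
    · push Not at hk
      have heq := hfar x hxe hk
      refine ⟨contDiffAt_const.congr_of_eventuallyEq heq, fun j hj => ?_⟩
      rw [(heq.iteratedFDeriv ℝ j).eq_of_nhds]
      obtain ⟨i, rfl⟩ : ∃ i, j = i + 1 := ⟨j - 1, by omega⟩
      have := hD0 (i + 1)
      simp only [iteratedFDeriv_const_of_ne (Nat.succ_ne_zero i), Pi.zero_apply, norm_zero]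
      positivity
  · exact hψm
  · obtain ⟨A', hA'1⟩ := exists_nat_ge ((A : ℝ) / δ)
    refine ⟨A', fun j => D j * 11 ^ (A' * j), fun j => by have := hD0 j; positivity,
      fun x hxe => ?_⟩
    have hde : 0 < dist x e := dist_pos.2 hxe
    by_cases hk : ∃ k, dist x (a k) < 4 * R k ^ (-δ)
    · obtain ⟨k, hk⟩ := hk
      have heq : ψ =ᶠ[𝓝 x] f k := by
        have h1 : ContinuousAt (fun y => dist y (a k)) x := by fun_prop
        filter_upwards [h1.eventually (gt_mem_nhds hk)] with y hy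
        exact hψk k y (le_of_lt hy)
      refine ⟨(hfs k).contDiffAt.congr_of_eventuallyEq heq, fun j => ?_⟩
      rw [(heq.iteratedFDeriv ℝ j).eq_of_nhds]
      have h1 : dist x e ≤ 11 * R k ^ (-δ) := by
        have h2 := dist_triangle x (a k) e
        rw [(ha k).2] at h2
        linarith
      -- `R k ^ A ≤ (11 / dist x e) ^ A'`
      have h3 : R k ^ δ ≤ 11 / dist x e := by
        rw [le_div_iff₀ hde]
        calc R k ^ δ * dist x e ≤ R k ^ δ * (11 * R k ^ (-δ)) :=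
              mul_le_mul_of_nonneg_left h1 (Real.rpow_nonneg (hR0 k).le _)
          _ = 11 * (R k ^ δ * R k ^ (-δ)) := by ring
          _ = 11 := by
              rw [← Real.rpow_add (hR0 k)]
              simp
      have h4 : R k ^ A ≤ (11 / dist x e) ^ A' := by
        calc R k ^ A = (R k ^ δ) ^ ((A : ℝ) / δ) := by
              rw [← Real.rpow_mul (hR0 k).le, mul_div_cancel₀ _ hδ.ne', Real.rpow_natCast]
          _ ≤ (R k ^ δ) ^ (A' : ℝ) :=
              Real.rpow_le_rpow_of_exponent_le (Real.one_le_rpow (hR k) hδ.le) hA'1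
          _ = (R k ^ δ) ^ A' := Real.rpow_natCast _ _
          _ ≤ (11 / dist x e) ^ A' :=
              pow_le_pow_left₀ (Real.rpow_nonneg (hR0 k).le _) h3 _
      calc ‖iteratedFDeriv ℝ j (f k) x‖ ≤ D j * R k ^ (A * j) := hfB k j x
        _ ≤ D j * ((11 / dist x e) ^ (A' * j)) := by
            rw [pow_mul, pow_mul]
            have h5 : (R k ^ A) ^ j ≤ ((11 / dist x e) ^ A') ^ j :=
              pow_le_pow_left₀ (pow_nonneg (hR0 k).le _) h4 j
            exact mul_le_mul_of_nonneg_left h5 (hD0 j)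
        _ = D j * 11 ^ (A' * j) / dist x e ^ (A' * j) := by
            rw [div_pow]
            ring
    · push Not at hk
      have heq := hfar x hxe hk
      refine ⟨contDiffAt_const.congr_of_eventuallyEq heq, fun j => ?_⟩
      rw [(heq.iteratedFDeriv ℝ j).eq_of_nhds]
      have h1 : iteratedFDeriv ℝ j (fun _ : E n => (0 : ℝ)) x = 0 := by
        rw [show (fun _ : E n => (0 : ℝ)) = 0 from rfl, iteratedFDeriv_zero]
        rfl
      rw [h1, norm_zero]
      have := hD0 j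
      positivity
  · by_contra hne
    set F := FF p (fun x => Complex.exp ((ψ x : ℂ) * Complex.I)) with hF
    have hle : ∀ k : ℕ, ENNReal.ofReal k ≤ M * F := by
      intro k
      calc ENNReal.ofReal k ≤ ENNReal.ofReal (m k) := ENNReal.ofReal_le_ofReal (hm k)
        _ ≤ FF p (fun x => (η k x : ℂ) * Complex.exp ((θ k (T k x) : ℂ) * Complex.I)) := hηm k
        _ = FF p (fun x => (η k x : ℂ) * Complex.exp ((ψ x : ℂ) * Complex.I)) := by
            congr 1
            funext x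
            by_cases hx : x ∈ Metric.ball (a k) (R k ^ (-δ))
            · rw [Metric.mem_ball] at hx
              rw [hψk k x (by linarith [hρ0 k]), hf1 k x hx]
            · rw [hη0 k x hx]
              simp
        _ ≤ M * F := hηM k _ (by fun_prop) (fun x => by rw [Complex.norm_exp_ofReal_mul_I])
    have hlt : M * F < ⊤ := ENNReal.mul_lt_top hM.lt_top (lt_top_iff_ne_top.2 hne)
    obtain ⟨k, hk⟩ := exists_nat_gt (M * F).toReal
    have h1 := hle k
    rw [ENNReal.ofReal_natCast] at h1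
    have h2 := (ENNReal.toReal_le_toReal (ENNReal.natCast_ne_top k) hlt.ne).2 h1
    rw [ENNReal.toReal_natCast] at h2
    linarith

/-- **One phase**: bounded, smooth off the point `e` with `|D^j ψ(x)| ≤ B_j |x - e|^(-A j)`, and at the
distance `r` from a set `Sig` of dimension below `n - 1` with `|D^j ψ(x)| ≤ B_j r^(-j)`. -/
theorem dim_pt (n : ℕ) (hn : 2 ≤ n) (e : E n) (he : ‖e‖ = 1) :
    ∃ (κ V : ℝ) (B : ℕ → ℝ) (Sig : Set (E n)) (ψ : E n → ℝ) (A : ℕ) (B' : ℕ → ℝ), 0 ≤ κ ∧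
      κ < n - 1 ∧ 0 ≤ V ∧ Cov V κ Sig ∧ Sig ⊆ Metric.sphere 0 1 ∧
      (∀ ε : ℝ, 0 < ε → (Sig \ Metric.ball e ε).Finite) ∧
      Phs 0 B 1 Sig ψ ∧ Measurable ψ ∧ (∀ j, 0 ≤ B' j) ∧
      (∀ x, x ≠ e → ContDiffAt ℝ ∞ ψ x ∧
        ∀ j, ‖iteratedFDeriv ℝ j ψ x‖ ≤ B' j / dist x e ^ (A * j)) ∧
      ((∀ p : ℝ, 2 * (n : ℝ) / (n - 1) < p →
          ∫⁻ ξ, ‖extn (fun x => Complex.exp ((ψ x : ℂ) * Complex.I)) ξ‖ₑ ^ p < ⊤) →
        ∀ p : ℝ, 2 * (n : ℝ) / (n - 1) < p → ∀ g : E n → ℂ, Measurable g → (∀ x, ‖g x‖ ≤ 1) →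
          ∫⁻ ξ, ‖extn g ξ‖ₑ ^ p < ⊤) := by
  have hn' : (2:ℝ) ≤ n := by exact_mod_cast hn
  by_cases hS : ∀ p : ℝ, 2 * (n : ℝ) / (n - 1) < p → ∀ g : E n → ℂ, Measurable g →
      (∀ x, ‖g x‖ ≤ 1) → ∫⁻ ξ, ‖extn g ξ‖ₑ ^ p < ⊤
  · refine ⟨0, 0, fun _ => 0, ∅, fun _ => 0, 0, fun _ => 0, le_rfl, by linarith, le_rfl,
      fun r _ _ => ⟨∅, by simp, by simp⟩, empty_subset _, fun ε _ => by simp, fun x _ r hr _ _ =>
      ⟨contDiffAt_const, fun j hj => ?_⟩, measurable_const, fun _ => le_rfl, fun x _ =>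
      ⟨contDiffAt_const, fun j => ?_⟩, fun _ => hS⟩
    · obtain ⟨j, rfl⟩ : ∃ i, j = i + 1 := ⟨j - 1, by omega⟩
      simp
    · have h1 : iteratedFDeriv ℝ j (fun _ : E n => (0 : ℝ)) x = 0 := by
        rw [show (fun _ : E n => (0 : ℝ)) = 0 from rfl, iteratedFDeriv_zero]
        rfl
      rw [h1]
      simp
  · push Not at hS
    obtain ⟨q, hq, g, hg, hb, hgt⟩ := hS
    have h2 : (2:ℝ) < 2 * (n : ℝ) / (n - 1) := by
      rw [lt_div_iff₀ (by linarith)]
      linarith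
    obtain ⟨p, hp1, hp2⟩ := exists_between hq
    obtain ⟨A, B, δ, M, hA, hδ, hδ1, hM, H⟩ := bad_sequence n hn p q (by linarith) hp2 (by
      rintro ⟨C, hC, h⟩
      exact hC (top_le_iff.1 (hgt.trans (h g hg hb))))
    obtain ⟨V, Sig, ψ, B', hV, h3, h5, h6, h7, h8, ⟨A', B'', h12, h13⟩, h9⟩ :=
      glue_pt n hn p (by linarith) A hA B δ hδ hδ1 M hM H e he
    have hA' : (1:ℝ) ≤ A := by exact_mod_cast hA
    have h10 : δ / A ≤ δ := div_le_self hδ.le hA'
    have h11 : 0 < δ / A := by positivity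
    refine ⟨_, V, B', Sig, ψ, A', B'', mul_nonneg (by linarith) (by linarith), ?_, hV, h3, h5, h6,
      h7, h8, h12, h13, fun h => absurd (h p hp1) ?_⟩
    · nlinarith
    · unfold FF at h9
      rw [h9]
      exact lt_irrefl _

end Pool.Agent.VANn.DM
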