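import Pool.Agent.VANn.DM5
import Pool.Agent.VANn.DIMB
import Pool.Agent.VANn.N1
import Pool.Agent.VAN.PD1

/-!
Stein's restriction conjecture in `R^n` is the estimate `≤ C λ^ε` for the smooth phases with
`|D^j φ| ≤ B_j λ^j` (for the phases with `|D^j φ| ≤ B_j λ` it is a theorem).
-/

set_option autoImplicit false

namespace Pool.Agent.VANn.DM

open MeasureTheory Set Pool.Agent.MP_6cbfb8_an Pool.Agent.VAN
open scoped ENNReal Real ContDiff

theorem scale_iff (n : ℕ) (hn : 2 ≤ n) :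
    (∀ p : ℝ, 2 * (n : ℝ) / (n - 1) < p → ∀ g : E n → ℂ, Measurable g → (∀ x, ‖g x‖ ≤ 1) →
      ∫⁻ ξ, ‖extn g ξ‖ₑ ^ p < ⊤) ↔
    ∀ p ε : ℝ, 2 * (n : ℝ) / (n - 1) < p → 0 < ε → ∀ B : ℕ → ℝ, ∃ C : ℝ≥0∞, C ≠ ⊤ ∧
      ∀ (lam : ℝ) (φ : E n → ℝ), 1 ≤ lam →
      (∀ x ∈ Metric.sphere (0 : E n) 1, ContDiffAt ℝ ∞ φ x) →
      (∀ j, ∀ x ∈ Metric.sphere (0 : E n) 1, ‖iteratedFDeriv ℝ j φ x‖ ≤ B j * lam ^ j) →
      ∫⁻ ξ, ‖extn (fun x => Complex.exp ((φ x : ℂ) * Complex.I)) ξ‖ₑ ^ p ≤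
        C * ENNReal.ofReal (lam ^ ε) := by
  have hn' : (2:ℝ) ≤ n := by exact_mod_cast hn
  have h2 : (2:ℝ) < 2 * (n : ℝ) / (n - 1) := by
    rw [lt_div_iff₀ (by linarith)]
    linarith
  constructor
  · intro h p ε hp hε B
    have he : ‖(EuclideanSpace.single (⟨0, by omega⟩ : Fin n) (1 : ℝ))‖ = 1 := by simp
    obtain ⟨_, _, _, _, _, _, h5⟩ := Pool.Agent.VAN.PD.equiv_poly hn _ he
    have h7 := h5 p (by linarith)
    obtain ⟨C, hC, h8⟩ := (h7.out 0 1).1 (h p hp)
    refine ⟨C, hC, fun lam φ hlam hφ _ => ?_⟩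
    obtain ⟨F, hF, _, hFe⟩ := extend φ hφ
    have h9 := h8 (fun x => Complex.exp ((F x : ℂ) * Complex.I))
      (by have := hF.continuous.measurable; fun_prop)
      (fun x => by rw [Complex.norm_exp_ofReal_mul_I])
    rw [j_congr (h := fun x => Complex.exp ((φ x : ℂ) * Complex.I)) fun x hx => by
      rw [hFe x hx]] at h9
    refine h9.trans ?_
    have h10 : (1 : ℝ≥0∞) ≤ ENNReal.ofReal (lam ^ ε) := by
      rw [ENNReal.one_le_ofReal]
      exact Real.one_le_rpow hlam hε.le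
    calc C = C * 1 := (mul_one C).symm
      _ ≤ _ := by gcongr
  · intro h q hq g hg hb
    obtain ⟨p, hp1, hp2⟩ := exists_between hq
    have hloc : ∀ ε : ℝ, 0 < ε → ∃ K : ℝ, 0 < K ∧ ∀ R : ℝ, 1 ≤ R → Loc n p R (K * R ^ ε) := by
      intro ε hε
      obtain ⟨N, B, K, hN, hK, hbad⟩ := bad_phase hn (p := p) (by linarith)
      have hN' : (0:ℝ) < N := by exact_mod_cast hN
      obtain ⟨C, hC, h4⟩ := h p (ε * p / N) hp1 (by have : 0 < p := by linarith
                                                    positivity) B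
      set D := (K * (1 + C)).toReal with hD
      have hKC : K * (1 + C) ≠ ⊤ := ENNReal.mul_ne_top hK (ENNReal.add_ne_top.2 ⟨ENNReal.one_ne_top, hC⟩)
      have hp0 : 0 < p := by linarith
      refine ⟨D ^ (1 / p) + 1, by positivity, fun R hR g hg hb => ?_⟩
      obtain ⟨θ, hθ, hθB, h5⟩ := hbad R hR g hg hb
      have hRN : 1 ≤ R ^ N := one_le_pow₀ hR
      have h6 := h4 (R ^ N) θ hRN (fun x _ => hθ.contDiffAt) (fun j x _ => by
        rw [← pow_mul]
        exact hθB j x)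
      have h7 : (R ^ N) ^ (ε * p / N) = R ^ (ε * p) := by
        rw [← Real.rpow_natCast, ← Real.rpow_mul (by linarith)]
        congr 1
        field_simp
      rw [h7] at h6
      have h8 : (1 : ℝ≥0∞) ≤ ENNReal.ofReal (R ^ (ε * p)) := by
        rw [ENNReal.one_le_ofReal]
        exact Real.one_le_rpow hR (by positivity)
      calc ∫⁻ ξ in Metric.ball 0 R, ‖extn g ξ‖ₑ ^ p ≤ K * (1 + ∫⁻ ξ in Metric.ball 0 R,
            ‖extn (fun x => Complex.exp ((θ x : ℂ) * Complex.I)) ξ‖ₑ ^ p) := h5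
        _ ≤ K * (ENNReal.ofReal (R ^ (ε * p)) + C * ENNReal.ofReal (R ^ (ε * p))) := by
            gcongr
            exact (setLIntegral_le_lintegral _ _).trans h6
        _ = K * (1 + C) * ENNReal.ofReal (R ^ (ε * p)) := by ring
        _ = ENNReal.ofReal (D * R ^ (ε * p)) := by
            rw [ENNReal.ofReal_mul ENNReal.toReal_nonneg, ENNReal.ofReal_toReal hKC]
        _ ≤ ENNReal.ofReal (((D ^ (1 / p) + 1) * R ^ ε) ^ p) := by
            refine ENNReal.ofReal_le_ofReal ?_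
            rw [Real.mul_rpow (by positivity) (by positivity), ← Real.rpow_mul (by linarith)]
            refine mul_le_mul_of_nonneg_right ?_ (by positivity)
            calc D = (D ^ (1 / p)) ^ p := by
                  rw [← Real.rpow_mul ENNReal.toReal_nonneg, one_div_mul_cancel hp0.ne',
                    Real.rpow_one]
              _ ≤ _ := by
                  gcongr
                  linarith
    obtain ⟨C, hC, h3⟩ := eps_removal n hn p q (by linarith) hp2 hloc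
    exact (h3 g hg hb).trans_lt (lt_top_iff_ne_top.2 hC)

end Pool.Agent.VANn.DM
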