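import Pool.Agent.VAN.PD1
import Pool.Agent.VANn.N1

/-!
The restriction conjecture in `R^n`, at the exponent `p`, is equivalent to the boundedness in `l` of the
integrals for `e^{ilφ}`, for every single smooth `φ`, and to the boundedness for the multiples
`l = 0, 1, 2, …` of one fixed smooth function.
-/

set_option autoImplicit false

namespace Pool.Agent.VANn

open MeasureTheory Set Pool.Agent.MP_6cbfb8_an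
open scoped ENNReal Real

/-- **One smooth phase decides.** -/
theorem equiv_four {n : ℕ} (hn : 2 ≤ n) : ∃ φ₀ : E n → ℝ,
    ContDiff ℝ ((⊤ : ℕ∞) : WithTop ℕ∞) φ₀ ∧ ∀ p : ℝ, 1 ≤ p → List.TFAE [
      ∀ g : E n → ℂ, Measurable g → (∀ x, ‖g x‖ ≤ 1) → ∫⁻ ξ, ‖extn g ξ‖ₑ ^ p < ∞,
      ∃ C : ℝ≥0∞, C ≠ ∞ ∧ ∀ g : E n → ℂ, Measurable g → (∀ x, ‖g x‖ ≤ 1) →
        ∫⁻ ξ, ‖extn g ξ‖ₑ ^ p ≤ C,
      ∀ φ : E n → ℝ, (∀ x ∈ Metric.sphere (0 : E n) 1, ContDiffAt ℝ ((⊤ : ℕ∞) : WithTop ℕ∞) φ x) →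
        ∃ C : ℝ≥0∞, C ≠ ∞ ∧ ∀ c : ℝ,
          ∫⁻ ξ, ‖extn (fun x => Complex.exp (((c * φ x : ℝ) : ℂ) * Complex.I)) ξ‖ₑ ^ p ≤ C,
      ∃ C : ℝ≥0∞, C ≠ ∞ ∧ ∀ c : ℕ,
        ∫⁻ ξ, ‖extn (fun x => Complex.exp (((c * φ₀ x : ℝ) : ℂ) * Complex.I)) ξ‖ₑ ^ p ≤ C] := by
  obtain ⟨e, he⟩ : ∃ e : E n, ‖e‖ = 1 := by
    obtain ⟨m, rfl⟩ : ∃ m, n = m + 1 := ⟨n - 1, by omega⟩
    exact ⟨EuclideanSpace.single 0 1, by simp⟩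
  obtain ⟨φ₀, ψ₀, h1, _, _, _, h5⟩ := Pool.Agent.VAN.PD.equiv_poly hn e he
  refine ⟨φ₀, h1, fun p hp => ?_⟩
  have h7 := h5 p hp
  tfae_have 1 ↔ 2 := h7.out 0 1
  tfae_have 2 → 3 := fun ⟨C, hC, h⟩ φ hφ => ⟨C, hC, fun c => by
    obtain ⟨F, hF, _, hFe⟩ := extend φ hφ
    have h2 := h (fun x => Complex.exp (((c * F x : ℝ) : ℂ) * Complex.I))
      (by have := hF.continuous.measurable; fun_prop)
      (fun x => by rw [Complex.norm_exp_ofReal_mul_I])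
    rwa [Pool.Agent.VAN.j_congr (h := fun x => Complex.exp (((c * φ x : ℝ) : ℂ) * Complex.I))
      fun x hx => by rw [hFe x hx]] at h2⟩
  have h8 : (∀ φ : E n → ℝ, ContDiff ℝ ((⊤ : ℕ∞) : WithTop ℕ∞) φ → ∃ C : ℝ≥0∞, C ≠ ∞ ∧ ∀ l : ℝ,
      ∫⁻ ξ, ‖extn (fun x => Complex.exp (((l * φ x : ℝ) : ℂ) * Complex.I)) ξ‖ₑ ^ p ≤ C) ↔
      ∃ C : ℝ≥0∞, C ≠ ∞ ∧ ∀ g : E n → ℂ, Measurable g → (∀ x, ‖g x‖ ≤ 1) →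
        ∫⁻ ξ, ‖extn g ξ‖ₑ ^ p ≤ C := h7.out 3 1
  tfae_have 3 → 2 := fun h => h8.1 fun φ hφ => h φ fun x _ => hφ.contDiffAt
  tfae_have 4 ↔ 2 := h7.out 4 1
  tfae_finish

end Pool.Agent.VANn
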