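import Pool.Agent.VANn.DM
import Pool.Agent.VANn.EQ4
import Pool.Agent.GNP.TMasm

/-!
**Singular sets of every dimension below `n - 1`**, in the words of `GNP.TM`: Stein's restriction conjecture
in `R^n` is the estimate of `GNP.TM.tame_all` (without parameter) for all `κ < n - 1`.
-/

set_option autoImplicit false

namespace Pool.Agent.VANn.DM

open MeasureTheory Set Filter Topology Pool.Agent.MP_6cbfb8_an
open scoped ENNReal Real
open Pool.Agent.GNP.TM (PhsF)

/-- The closure of a set of dimension below `n - 1` does not charge the sphere. -/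
lemma null_cov (n : ℕ) (hn : 2 ≤ n) {V κ : ℝ} (hκ : κ < n - 1) {Sig : Set (E n)}
    (h : Pool.Agent.GNP.TM.Cov V κ Sig) : sm n {y : S n | (y : E n) ∈ closure Sig} = 0 := by
  obtain ⟨K, hK, hcap⟩ := Pool.Agent.GNP.wb_cap n hn
  have key : ∀ r : ℝ, 0 < r → r ≤ 1 → (sm n {y : S n | (y : E n) ∈ closure Sig}).toReal ≤
      V * K * 2 ^ (n - 1) * r ^ ((n : ℝ) - 1 - κ) := by
    intro r hr hr1
    obtain ⟨Z, hZ, hcov⟩ := h r hr hr1
    have h1 : closure Sig ⊆ ⋃ z ∈ Z, Metric.closedBall z r := by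
      refine closure_minimal (hcov.trans (iUnion₂_mono fun z _ => Metric.ball_subset_closedBall)) ?_
      exact Z.finite_toSet.isClosed_biUnion fun z _ => Metric.isClosed_closedBall
    have h2 : sm n {y : S n | (y : E n) ∈ closure Sig} ≤
        ∑ _z ∈ Z, ENNReal.ofReal (K * (2 * r) ^ (n - 1)) := by
      calc sm n {y : S n | (y : E n) ∈ closure Sig} ≤
          sm n (⋃ z ∈ Z, {y : S n | (y : E n) ∈ Metric.closedBall z r}) := by
            refine measure_mono fun y hy => ?_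
            have h3 := h1 hy
            simp only [mem_iUnion] at h3 ⊢
            exact h3
        _ ≤ ∑ z ∈ Z, sm n {y : S n | (y : E n) ∈ Metric.closedBall z r} :=
            measure_biUnion_finset_le _ _
        _ ≤ _ := by
            refine Finset.sum_le_sum fun z _ => ?_
            rcases Set.eq_empty_or_nonempty {y : S n | (y : E n) ∈ Metric.closedBall z r} with h4 | ⟨y0, h4⟩
            · rw [h4, measure_empty]
              exact bot_le
            · refine (measure_mono fun y hy => ?_).trans (hcap y0 (2 * r) (by positivity))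
              rw [Metric.mem_closedBall, Subtype.dist_eq]
              have h5 : dist (y : E n) z ≤ r := hy
              have h6 : dist (y0 : E n) z ≤ r := h4
              have := dist_triangle_right (y : E n) y0 z
              linarith
    rw [Finset.sum_const, nsmul_eq_mul] at h2
    have h3 : (sm n {y : S n | (y : E n) ∈ closure Sig}).toReal ≤ Z.card * (K * (2 * r) ^ (n - 1)) := by
      have h4 := ENNReal.toReal_mono (ENNReal.mul_ne_top (ENNReal.natCast_ne_top _)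
        ENNReal.ofReal_ne_top) h2
      rwa [ENNReal.toReal_mul, ENNReal.toReal_natCast, ENNReal.toReal_ofReal (by positivity)] at h4
    refine h3.trans ?_
    calc (Z.card : ℝ) * (K * (2 * r) ^ (n - 1)) ≤ V * r ^ (-κ) * (K * (2 * r) ^ (n - 1)) := by gcongr
      _ = V * K * 2 ^ (n - 1) * (r ^ (-κ) * r ^ (n - 1)) := by
          rw [mul_pow]
          ring
      _ = _ := by
          rw [← Real.rpow_natCast r (n - 1), ← Real.rpow_add hr]
          congr 2
          rw [Nat.cast_sub (by omega)]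
          push_cast
          ring
  have hlim : Tendsto (fun r : ℝ => V * K * 2 ^ (n - 1) * r ^ ((n : ℝ) - 1 - κ)) (𝓝[>] 0) (𝓝 0) := by
    have h1 : 0 < (n : ℝ) - 1 - κ := by linarith
    have h2 : Tendsto (fun r : ℝ => r ^ ((n : ℝ) - 1 - κ)) (𝓝 0) (𝓝 (0 ^ ((n : ℝ) - 1 - κ))) :=
      (Real.continuousAt_rpow_const 0 _ (Or.inr h1.le)).tendsto
    rw [Real.zero_rpow h1.ne'] at h2
    have h3 := (h2.mono_left (nhdsWithin_le_nhds (s := Ioi (0:ℝ)))).const_mul (V * K * 2 ^ (n - 1))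
    rwa [mul_zero] at h3
  have h0 : (sm n {y : S n | (y : E n) ∈ closure Sig}).toReal ≤ 0 := by
    refine ge_of_tendsto hlim ?_
    filter_upwards [Ioc_mem_nhdsGT (one_pos : (0:ℝ) < 1)] with r hr
    exact key r hr.1 hr.2
  have h1 := le_antisymm h0 ENNReal.toReal_nonneg
  exact (ENNReal.toReal_eq_zero_iff _).1 h1 |>.resolve_right (measure_ne_top _ _)

/-- A phase which is smooth off `Sig` gives the transform of a measurable unimodular density. -/
lemma exists_meas (n : ℕ) (hn : 2 ≤ n) {V κ : ℝ} (hκ : κ < n - 1) {Sig : Set (E n)}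
    (h : Pool.Agent.GNP.TM.Cov V κ Sig) {ψ : E n → ℝ}
    (hψ : ∀ x, ‖x‖ = 1 → x ∉ closure Sig → ContinuousAt ψ x) :
    ∃ g : E n → ℂ, Measurable g ∧ (∀ x, ‖g x‖ ≤ 1) ∧
      extn (fun x => Complex.exp ((ψ x : ℂ) * Complex.I)) = extn g := by
  have hcl := null_cov n hn hκ h
  have hae : ∀ᵐ y : S n ∂(sm n), (y : E n) ∉ closure Sig := by
    rw [ae_iff]
    simpa using hcl
  set w : E n → ℂ := fun x => Complex.exp ((ψ x : ℂ) * Complex.I) with hw
  have hwm : AEStronglyMeasurable (fun y : S n => w y) (sm n) := by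
    set U : Set (S n) := {y : S n | (y : E n) ∉ closure Sig} with hU
    have hUo : IsOpen U := isClosed_closure.isOpen_compl.preimage continuous_subtype_val
    have h1 : ContinuousOn (fun y : S n => w y) U := by
      intro y hy
      have h2 : ContinuousAt w y := by
        have h3 := hψ y (mem_sphere_zero_iff_norm.1 y.2) hy
        rw [hw]
        fun_prop
      exact (ContinuousAt.comp (f := fun y : S n => (y : E n)) h2
        continuous_subtype_val.continuousAt).continuousWithinAt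
    have h3 := h1.aestronglyMeasurable (μ := sm n) hUo.measurableSet
    have h4 : (sm n).restrict U = sm n := Measure.restrict_eq_self_of_ae_mem hae
    rw [h4] at h3
    exact h3
  obtain ⟨f, hf, hfe⟩ := hwm
  obtain ⟨g, hg, hgf⟩ := (MeasurableEmbedding.subtype_coe
    (Metric.isClosed_sphere (x := (0 : E n)) (ε := 1)).measurableSet).exists_measurable_extend
    hf.measurable (fun _ => ⟨(0 : ℂ)⟩)
  refine ⟨fun x => if ‖g x‖ ≤ 1 then g x else 0, ?_, fun x => ?_, ?_⟩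
  · exact Measurable.ite (measurableSet_le hg.norm measurable_const) hg measurable_const
  · simp only
    split_ifs with h1
    · exact h1
    · simp
  · funext ξ
    unfold extn
    refine integral_congr_ae ?_
    filter_upwards [hfe] with y hy
    have h1 : g (y : E n) = w y := by
      rw [hy]
      exact congrFun hgf y
    have h2 : ‖w (y : E n)‖ ≤ 1 := by
      rw [hw]
      simp only
      rw [Complex.norm_exp_ofReal_mul_I]
    rw [h1, if_pos h2]

/-- **Stein's conjecture in `R^n` and the dimension of the singular set.** -/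
theorem stein_dim (n : ℕ) (hn : 2 ≤ n) :
    (∀ p : ℝ, 2 * (n : ℝ) / (n - 1) < p → ∀ g : E n → ℂ, Measurable g → (∀ x, ‖g x‖ ≤ 1) →
      ∫⁻ ξ, ‖extn g ξ‖ₑ ^ p < ∞) ↔
    ∀ κ : ℝ, 0 ≤ κ → κ < n - 1 → ∀ (A : ℕ) (V : ℝ) (Sig : Set (E n)) (ψ : E n → ℝ),
      Pool.Agent.GNP.TM.Cov V κ Sig → (∀ k, ∃ lam : ℝ, PhsF k A lam Sig ψ) →
      ∀ p : ℝ, 2 * (n : ℝ) / (n - 1) < p →
      ∫⁻ ξ, ‖extn (fun x => Complex.exp (((ψ x : ℝ) : ℂ) * Complex.I)) ξ‖ₑ ^ p < ∞ := by
  refine ⟨fun h κ _ hκ A V Sig ψ hc hψ p hp => ?_, fun h => ?_⟩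
  · obtain ⟨g, hg, hb, he⟩ := exists_meas n hn hκ hc (ψ := ψ) fun x hx hxs => by
      obtain ⟨r, hr, hr1, hd⟩ := Pool.Agent.GNP.TM.asm_ball hxs
      obtain ⟨lam, hl⟩ := hψ 0
      exact (hl x hx r hr hr1 hd).1.continuousAt
    rw [he]
    exact h p hp g hg hb
  · have he : ‖(EuclideanSpace.single (⟨0, by omega⟩ : Fin n) (1 : ℝ))‖ = 1 := by simp
    obtain ⟨κ, V, B, Sig, ψ, h1, h2, h3, h4, _, _, h7, _, h9⟩ := dim_one n hn _ he
    refine h9 fun p hp => h κ h1 h2 0 V Sig ψ h4 (fun k => ⟨∑ j ∈ Finset.range (k + 1), |B j|,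
      fun x hx r hr hr1 hd => ⟨(h7 x hx r hr hr1 hd).1, fun j hj hjk => ?_⟩⟩) p hp
    refine ((h7 x hx r hr hr1 hd).2 j hj).trans ?_
    rw [one_mul]
    gcongr
    exact (le_abs_self _).trans (Finset.single_le_sum (f := fun j => |B j|)
      (fun i _ => abs_nonneg _) (Finset.mem_range.2 (by omega)))

/-- **One phase**, the singular set of which is a sequence of points with one limit. -/
theorem dim_oneF (n : ℕ) (hn : 2 ≤ n) (e : E n) (he : ‖e‖ = 1) :
    ∃ (κ V : ℝ) (Sig : Set (E n)) (ψ : E n → ℝ), 0 ≤ κ ∧ κ < n - 1 ∧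
      Pool.Agent.GNP.TM.Cov V κ Sig ∧ Sig ⊆ Metric.sphere 0 1 ∧
      (∀ ε : ℝ, 0 < ε → (Sig \ Metric.ball e ε).Finite) ∧ (∀ k, ∃ lam : ℝ, PhsF k 0 lam Sig ψ) ∧
      Measurable ψ ∧
      ((∀ p : ℝ, 2 * (n : ℝ) / (n - 1) < p →
          ∫⁻ ξ, ‖extn (fun x => Complex.exp (((ψ x : ℝ) : ℂ) * Complex.I)) ξ‖ₑ ^ p < ∞) ↔
        ∀ p : ℝ, 2 * (n : ℝ) / (n - 1) < p → ∀ g : E n → ℂ, Measurable g → (∀ x, ‖g x‖ ≤ 1) →
          ∫⁻ ξ, ‖extn g ξ‖ₑ ^ p < ∞) := by
  obtain ⟨κ, V, B, Sig, ψ, h1, h2, h3, h4, h5, h6, h7, h8, h9⟩ := dim_one n hn e he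
  refine ⟨κ, V, Sig, ψ, h1, h2, h4, h5, h6, fun k => ⟨∑ j ∈ Finset.range (k + 1), |B j|,
      fun x hx r hr hr1 hd => ⟨(h7 x hx r hr hr1 hd).1, fun j hj hjk => ?_⟩⟩, h8, h9,
      fun h p hp => h p hp _ (by fun_prop) fun x => by rw [Complex.norm_exp_ofReal_mul_I]⟩
  refine ((h7 x hx r hr hr1 hd).2 j hj).trans ?_
  rw [one_mul]
  gcongr
  exact (le_abs_self _).trans (Finset.single_le_sum (f := fun j => |B j|)
    (fun i _ => abs_nonneg _) (Finset.mem_range.2 (by omega)))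

/-- **Stein's conjecture in `R^n`**: three forms. -/
theorem stein_tfae (n : ℕ) (hn : 2 ≤ n) : List.TFAE [
    ∀ p : ℝ, 2 * (n : ℝ) / (n - 1) < p → ∀ g : E n → ℂ, Measurable g → (∀ x, ‖g x‖ ≤ 1) →
      ∫⁻ ξ, ‖extn g ξ‖ₑ ^ p < ∞,
    ∀ κ : ℝ, 0 ≤ κ → κ < n - 1 → ∀ (A : ℕ) (V : ℝ) (Sig : Set (E n)) (ψ : E n → ℝ),
      Pool.Agent.GNP.TM.Cov V κ Sig → (∀ k, ∃ lam : ℝ, PhsF k A lam Sig ψ) →
      ∀ p : ℝ, 2 * (n : ℝ) / (n - 1) < p →
      ∫⁻ ξ, ‖extn (fun x => Complex.exp (((ψ x : ℝ) : ℂ) * Complex.I)) ξ‖ₑ ^ p < ∞,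
    ∀ p : ℝ, 2 * (n : ℝ) / (n - 1) < p → ∀ φ : E n → ℝ,
      (∀ x ∈ Metric.sphere (0 : E n) 1, ContDiffAt ℝ ((⊤ : ℕ∞) : WithTop ℕ∞) φ x) →
      ∃ C : ℝ≥0∞, C ≠ ∞ ∧ ∀ c : ℝ,
        ∫⁻ ξ, ‖extn (fun x => Complex.exp (((c * φ x : ℝ) : ℂ) * Complex.I)) ξ‖ₑ ^ p ≤ C] := by
  have hn' : (2:ℝ) ≤ n := by exact_mod_cast hn
  have h2 : (2:ℝ) < 2 * (n : ℝ) / (n - 1) := by
    rw [lt_div_iff₀ (by linarith)]
    linarith
  obtain ⟨_, _, h⟩ := equiv_four hn
  tfae_have 1 ↔ 2 := stein_dim n hn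
  tfae_have 1 → 3 := fun h1 p hp => ((h p (by linarith)).out 0 2).1 (h1 p hp)
  tfae_have 3 → 1 := fun h3 p hp => ((h p (by linarith)).out 0 2).2 (h3 p hp)
  tfae_finish

end Pool.Agent.VANn.DM
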