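import Pool.Agent.VANn.DMT

/-!
Stein's restriction conjecture in `R^n`: four forms.
-/

set_option autoImplicit false

namespace Pool.Agent.VANn.DM

open MeasureTheory Set Filter Topology Pool.Agent.MP_6cbfb8_an
open scoped ENNReal Real
open Pool.Agent.GNP.TM (PhsF)

/-- **Stein's conjecture in `R^n`**: four forms (qualitative; uniform; phases which are smooth off sets of
dimension `κ < n - 1`; smooth phases). -/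
theorem stein_four (n : ℕ) (hn : 2 ≤ n) : List.TFAE [
    ∀ p : ℝ, 2 * (n : ℝ) / (n - 1) < p → ∀ g : E n → ℂ, Measurable g → (∀ x, ‖g x‖ ≤ 1) →
      ∫⁻ ξ, ‖extn g ξ‖ₑ ^ p < ∞,
    ∀ p : ℝ, 2 * (n : ℝ) / (n - 1) < p → ∃ C : ℝ≥0∞, C ≠ ∞ ∧ ∀ g : E n → ℂ, Measurable g →
      (∀ x, ‖g x‖ ≤ 1) → ∫⁻ ξ, ‖extn g ξ‖ₑ ^ p ≤ C,
    ∀ p κ : ℝ, 2 * (n : ℝ) / (n - 1) < p → 0 ≤ κ → κ < n - 1 →
      ∀ (A : ℕ) (V : ℝ) (Sig : Set (E n)) (ψ : E n → ℝ),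
      Pool.Agent.GNP.TM.Cov V κ Sig → (∀ k, ∃ lam : ℝ, PhsF k A lam Sig ψ) →
      ∫⁻ ξ, ‖extn (fun x => Complex.exp (((ψ x : ℝ) : ℂ) * Complex.I)) ξ‖ₑ ^ p < ∞,
    ∀ p : ℝ, 2 * (n : ℝ) / (n - 1) < p → ∀ φ : E n → ℝ,
      (∀ x ∈ Metric.sphere (0 : E n) 1, ContDiffAt ℝ ((⊤ : ℕ∞) : WithTop ℕ∞) φ x) →
      ∃ C : ℝ≥0∞, C ≠ ∞ ∧ ∀ c : ℝ,
        ∫⁻ ξ, ‖extn (fun x => Complex.exp (((c * φ x : ℝ) : ℂ) * Complex.I)) ξ‖ₑ ^ p ≤ C] := by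
  have hn' : (2:ℝ) ≤ n := by exact_mod_cast hn
  have h2 : (2:ℝ) < 2 * (n : ℝ) / (n - 1) := by
    rw [lt_div_iff₀ (by linarith)]
    linarith
  obtain ⟨_, _, h⟩ := equiv_four hn
  have h3 := stein_tfae n hn
  tfae_have 1 → 2 := fun h1 p hp => ((h p (by linarith)).out 0 1).1 (h1 p hp)
  tfae_have 2 → 1 := fun h1 p hp => ((h p (by linarith)).out 0 1).2 (h1 p hp)
  tfae_have 1 → 3 := fun h1 p κ hp hκ0 hκ A V Sig ψ hc hψ =>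
    (stein_dim n hn).1 h1 κ hκ0 hκ A V Sig ψ hc hψ p hp
  tfae_have 3 → 1 := fun h1 => (stein_dim n hn).2 fun κ hκ0 hκ A V Sig ψ hc hψ p hp =>
    h1 p κ hp hκ0 hκ A V Sig ψ hc hψ
  tfae_have 1 ↔ 4 := h3.out 0 2
  tfae_finish

end Pool.Agent.VANn.DM
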