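import Pool.Agent.VANn.T2

/-!
Uniform nonflatness for smooth families.
-/

set_option autoImplicit false

namespace Pool.Agent.VANn.FT

open MeasureTheory Set Metric Pool.Agent.MP_6cbfb8_an
open scoped ENNReal Real

variable {n : ℕ}

theorem inner_sum (x ξ : E n) : inner ℝ x ξ = ∑ i, x i * ξ i := by
  rw [PiLp.inner_apply]
  refine Finset.sum_congr rfl fun i _ => ?_
  simp only [RCLike.inner_apply, conj_trivial]
  ring

theorem norm_le_sum (ξ : E n) : ‖ξ‖ ≤ ∑ i, |ξ i| := by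
  rw [EuclideanSpace.norm_eq]
  simp only [Real.norm_eq_abs]
  rw [Real.sqrt_le_left (Finset.sum_nonneg fun i _ => abs_nonneg _)]
  rw [sq (∑ i, |ξ i|), Finset.sum_mul]
  refine Finset.sum_le_sum fun i _ => ?_
  rw [sq]
  refine mul_le_mul_of_nonneg_left ?_ (abs_nonneg _)
  exact Finset.single_le_sum (f := fun i => |ξ i|) (fun j _ => abs_nonneg _) (Finset.mem_univ i)

/-- the coordinate functions -/
noncomputable def crd (i : Fin n) (x : E n) : ℝ := x i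

theorem lc_append {d : ℕ} (φ : Fin d → E n → ℝ) (a : Fin d → ℝ) (ζ : Fin n → ℝ) (x : E n) :
    lc (Fin.append φ crd) (Fin.append a ζ) x =
      ∑ j, a j * φ j x + inner ℝ x (WithLp.toLp 2 ζ : E n) := by
  unfold lc
  rw [Fin.sum_univ_add]
  simp only [Fin.append_left, Fin.append_right]
  rw [inner_sum]
  congr 1
  refine Finset.sum_congr rfl fun i _ => ?_
  unfold crd
  simp only []
  ring

theorem append_split {d : ℕ} (c : Fin (d + n) → ℝ) : ∃ (a : Fin d → ℝ) (ζ : Fin n → ℝ),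
    c = Fin.append a ζ :=
  ⟨fun i => c (Fin.castAdd n i), fun j => c (Fin.natAdd d j), (Fin.append_castAdd_natAdd).symm⟩

theorem crd_smooth (i : Fin n) : ContDiff ℝ ((⊤ : ℕ∞) : WithTop ℕ∞) (crd i) :=
  (EuclideanSpace.proj i : E n →L[ℝ] ℝ).contDiff

theorem XX_smooth {f : E n → ℝ} (hf : ContDiff ℝ ((⊤ : ℕ∞) : WithTop ℕ∞) f) (a b : E n) :
    ContDiff ℝ ((⊤ : ℕ∞) : WithTop ℕ∞) (XX a b f) := by
  unfold XX
  have h1 : ContDiff ℝ ((⊤ : ℕ∞) : WithTop ℕ∞) (fderiv ℝ f) :=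
    hf.fderiv_right (m := ((⊤ : ℕ∞) : WithTop ℕ∞)) (by simp)
  exact h1.clm_apply (gen a b).contDiff

theorem XX_iter_smooth {f : E n → ℝ} (hf : ContDiff ℝ ((⊤ : ℕ∞) : WithTop ℕ∞) f) (a b : E n)
    (k : ℕ) : ContDiff ℝ ((⊤ : ℕ∞) : WithTop ℕ∞) ((XX a b)^[k] f) := by
  induction k with
  | zero => exact hf
  | succ k ih =>
    rw [Function.iterate_succ_apply']
    exact XX_smooth ih a b

theorem chain_of_smooth {f : E n → ℝ} (hf : ContDiff ℝ ((⊤ : ℕ∞) : WithTop ℕ∞) f) : Chain f := by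
  intro a b h k y _ t
  have h2 : HasFDerivAt ((XX a b)^[k] f) (fderiv ℝ ((XX a b)^[k] f) (rot a b t y))
      (rot a b t y) :=
    ((XX_iter_smooth hf a b k).differentiable (by simp) _).hasFDerivAt
  have h1 := h2.comp_hasDerivAt t (hasDerivAt_rot h t y)
  rw [Function.iterate_succ_apply']
  exact h1

theorem lc_smooth {d : ℕ} {f : Fin d → E n → ℝ}
    (hf : ∀ i, ContDiff ℝ ((⊤ : ℕ∞) : WithTop ℕ∞) (f i)) (c : Fin d → ℝ) :
    ContDiff ℝ ((⊤ : ℕ∞) : WithTop ℕ∞) (lc f c) := by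
  unfold lc
  exact ContDiff.sum fun i _ => contDiff_const.mul (hf i)

theorem XX_lc_smooth {d : ℕ} {f : Fin d → E n → ℝ}
    (hf : ∀ i, ContDiff ℝ ((⊤ : ℕ∞) : WithTop ℕ∞) (f i)) (c : Fin d → ℝ) (a b : E n) (k : ℕ) :
    (XX a b)^[k] (lc f c) = lc (fun i => (XX a b)^[k] (f i)) c := by
  induction k with
  | zero => rfl
  | succ k ih =>
    rw [Function.iterate_succ_apply', ih]
    funext y
    show fderiv ℝ (lc (fun i => (XX a b)^[k] (f i)) c) y (gen a b y) = _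
    have h2 : HasFDerivAt (lc (fun i => (XX a b)^[k] (f i)) c)
        (∑ i, c i • fderiv ℝ ((XX a b)^[k] (f i)) y) y := by
      unfold lc
      refine HasFDerivAt.fun_sum fun i _ => ?_
      have h3 : HasFDerivAt ((XX a b)^[k] (f i)) (fderiv ℝ ((XX a b)^[k] (f i)) y) y :=
        ((XX_iter_smooth (hf i) a b k).differentiable (by simp) y).hasFDerivAt
      exact h3.const_mul (c i)
    rw [h2.fderiv]
    unfold lc
    rw [sum_apply]
    refine Finset.sum_congr rfl fun i _ => ?_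
    show c i * fderiv ℝ ((XX a b)^[k] (f i)) y (gen a b y) = c i * (XX a b)^[k + 1] (f i) y
    rw [Function.iterate_succ_apply']
    rfl

/-- uniform nonflatness for smooth families -/
theorem uniform_nonflat_smooth {d : ℕ} (k0 : ℕ) (f : Fin d → E n → ℝ)
    (hf : ∀ i, ContDiff ℝ ((⊤ : ℕ∞) : WithTop ℕ∞) (f i))
    (h : ∀ c : Fin d → ℝ, c ≠ 0 → ∀ x : E n, ‖x‖ = 1 → ∃ a b : E n, OP a b ∧ ∃ k, k0 ≤ k ∧
      (XX a b)^[k] (lc f c) x ≠ 0) :
    ∃ s : Finset (E n × E n × ℕ), (∀ p ∈ s, OP p.1 p.2.1 ∧ k0 ≤ p.2.2) ∧ ∃ δ : ℝ, 0 < δ ∧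
      ∃ κ : ℝ, 0 < κ ∧ ∀ c : Fin d → ℝ, c ≠ 0 → ∀ x : E n, ‖x‖ = 1 → ∃ p ∈ s, ∀ y : E n, ‖y‖ = 1 →
        dist y x < δ → κ * ‖c‖ ≤ |(XX p.1 p.2.1)^[p.2.2] (lc f c) y| := by
  classical
  obtain ⟨s, δ, hδ, κ, hκ, H⟩ := compact_nonvanishing
    (K := (sphere (0 : Fin d → ℝ) 1) ×ˢ (sphere (0 : E n) 1))
    ((isCompact_sphere _ _).prod (isCompact_sphere _ _))
    (fun (p : {p : E n × E n × ℕ // OP p.1 p.2.1 ∧ k0 ≤ p.2.2}) (z : (Fin d → ℝ) × E n) =>
      lc (fun i => (XX p.1.1 p.1.2.1)^[p.1.2.2] (f i)) z.1 z.2) (by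
      intro p
      unfold lc
      refine continuousOn_finsetSum _ fun i _ => ?_
      refine ContinuousOn.mul (Continuous.continuousOn (by fun_prop)) ?_
      exact ((XX_iter_smooth (hf i) _ _ _).continuous.comp continuous_snd).continuousOn) (by
      rintro ⟨c, x⟩ ⟨hc, hx⟩
      have hx1 : ‖x‖ = 1 := mem_sphere_zero_iff_norm.1 hx
      have hc1 : c ≠ 0 := by
        rintro rfl
        have := mem_sphere_zero_iff_norm.1 hc
        simp at this
      obtain ⟨a, b, hb, k, hk, h2⟩ := h c hc1 x hx1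
      refine ⟨⟨(a, b, k), hb, hk⟩, ?_⟩
      rw [XX_lc_smooth hf c a b k] at h2
      exact h2)
  refine ⟨s.image Subtype.val, ?_, δ, hδ, κ, hκ, ?_⟩
  · intro p hp
    obtain ⟨q, _, rfl⟩ := Finset.mem_image.1 hp
    exact q.2
  · intro c hc x hx
    have hc0 : 0 < ‖c‖ := norm_pos_iff.2 hc
    obtain ⟨q, hq, h3⟩ := H (‖c‖⁻¹ • c, x) ⟨by
      rw [mem_sphere_zero_iff_norm, norm_smul, norm_inv, norm_norm,
        inv_mul_cancel₀ hc0.ne'], mem_sphere_zero_iff_norm.2 hx⟩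
    refine ⟨q.1, Finset.mem_image_of_mem _ hq, fun y hy hd => ?_⟩
    have h4 := h3 (‖c‖⁻¹ • c, y) ⟨by
      rw [mem_sphere_zero_iff_norm, norm_smul, norm_inv, norm_norm,
        inv_mul_cancel₀ hc0.ne'], mem_sphere_zero_iff_norm.2 hy⟩ (by
        rw [Prod.dist_eq]
        simp only [dist_self]
        exact max_lt hδ hd)
    rw [XX_lc_smooth hf c _ _ _]
    have h5 : lc (fun i => (XX q.1.1 q.1.2.1)^[q.1.2.2] (f i)) (‖c‖⁻¹ • c) y =
        ‖c‖⁻¹ * lc (fun i => (XX q.1.1 q.1.2.1)^[q.1.2.2] (f i)) c y := by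
      unfold lc
      rw [Finset.mul_sum]
      refine Finset.sum_congr rfl fun i _ => ?_
      simp only [Pi.smul_apply, smul_eq_mul]
      ring
    simp only at h4
    rw [h5, abs_mul, abs_inv, abs_of_pos hc0, ← div_eq_inv_mul, le_div_iff₀ hc0] at h4
    exact h4


end Pool.Agent.VANn.FT
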