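import Pool.Agent.VANn.FTC

/-!
Decay of oscillatory integrals on the sphere for phases of finite type, with explicit dependence.
-/

set_option autoImplicit false

namespace Pool.Agent.VANn.FT

open MeasureTheory Set Metric Pool.Agent.MP_6cbfb8_an Pool.Agent.VAN Pool.Agent.VAN.FT
open scoped ENNReal Real

variable {n : ℕ}

theorem norm_gen_op {a b : E n} (h : OP a b) : ‖gen a b‖ ≤ 1 := by
  refine ContinuousLinearMap.opNorm_le_bound _ zero_le_one fun y => ?_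
  rw [one_mul]
  exact norm_gen_le h y

theorem norm_gen_sub {a b a' b' : E n} (h : OP a b) (h' : OP a' b') :
    ‖gen a b - gen a' b'‖ ≤ 4 * dist (a, b) (a', b') := by
  set D : ℝ := dist (a, b) (a', b') with hD
  have h1 : ‖a - a'‖ ≤ D := by
    rw [← dist_eq_norm, hD, Prod.dist_eq]
    exact le_max_left _ _
  have h2 : ‖b - b'‖ ≤ D := by
    rw [← dist_eq_norm, hD, Prod.dist_eq]
    exact le_max_right _ _
  refine ContinuousLinearMap.opNorm_le_bound _ (by positivity) fun y => ?_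
  have e : (gen a b - gen a' b') y = inner ℝ (a - a') y • b + inner ℝ a' y • (b - b') -
      inner ℝ (b - b') y • a - inner ℝ b' y • (a - a') := by
    simp only [sub_apply, gen_apply, inner_sub_left]
    module
  rw [e]
  have i1 : ‖inner ℝ (a - a') y • b‖ ≤ D * ‖y‖ := by
    rw [norm_smul, h.2.1, mul_one]
    exact (norm_inner_le_norm _ _).trans (mul_le_mul_of_nonneg_right h1 (norm_nonneg _))
  have i2 : ‖inner ℝ a' y • (b - b')‖ ≤ D * ‖y‖ := by
    rw [norm_smul, mul_comm]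
    refine mul_le_mul h2 ((norm_inner_le_norm _ _).trans ?_) (norm_nonneg _) (by positivity)
    rw [h'.1, one_mul]
  have i3 : ‖inner ℝ (b - b') y • a‖ ≤ D * ‖y‖ := by
    rw [norm_smul, h.1, mul_one]
    exact (norm_inner_le_norm _ _).trans (mul_le_mul_of_nonneg_right h2 (norm_nonneg _))
  have i4 : ‖inner ℝ b' y • (a - a')‖ ≤ D * ‖y‖ := by
    rw [norm_smul, mul_comm]
    refine mul_le_mul h1 ((norm_inner_le_norm _ _).trans ?_) (norm_nonneg _) (by positivity)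
    rw [h'.2.1, one_mul]
  calc _ ≤ ‖inner ℝ (a - a') y • b + inner ℝ a' y • (b - b') - inner ℝ (b - b') y • a‖ +
        ‖inner ℝ b' y • (a - a')‖ := norm_sub_le _ _
    _ ≤ (‖inner ℝ (a - a') y • b + inner ℝ a' y • (b - b')‖ + ‖inner ℝ (b - b') y • a‖) +
        ‖inner ℝ b' y • (a - a')‖ := by gcongr; exact norm_sub_le _ _
    _ ≤ ((‖inner ℝ (a - a') y • b‖ + ‖inner ℝ a' y • (b - b')‖) + ‖inner ℝ (b - b') y • a‖) +
        ‖inner ℝ b' y • (a - a')‖ := by gcongr; exact norm_add_le _ _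
    _ ≤ 4 * D * ‖y‖ := by linarith

theorem isCompact_OP : IsCompact {p : E n × E n | OP p.1 p.2} := by
  have h1 : {p : E n × E n | OP p.1 p.2} = (sphere (0 : E n) 1 ×ˢ sphere (0 : E n) 1) ∩
      {p : E n × E n | inner ℝ p.1 p.2 = (0 : ℝ)} := by
    ext p
    simp only [OP, mem_inter_iff, mem_prod, mem_sphere_zero_iff_norm, mem_ofPred_eq]
    tauto
  rw [h1]
  exact ((isCompact_sphere _ _).prod (isCompact_sphere _ _)).inter_right
    (isClosed_eq (by fun_prop) continuous_const)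

/-- a finite net of rotation fields -/
theorem net {η : ℝ} (hη : 0 < η) : ∃ T : Finset (E n × E n), (∀ p ∈ T, OP p.1 p.2) ∧
    ∀ u v : E n, OP u v → ∃ p ∈ T, ‖gen u v - gen p.1 p.2‖ ≤ η := by
  obtain ⟨t, hts, htf, hcov⟩ := isCompact_OP.finite_cover_balls (e := η / 4) (by positivity)
  refine ⟨htf.toFinset, fun p hp => hts (htf.mem_toFinset.1 hp), fun u v huv => ?_⟩
  have h1 := hcov (show (u, v) ∈ {p : E n × E n | OP p.1 p.2} from huv)
  obtain ⟨p, hp, h2⟩ := mem_iUnion₂.1 h1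
  refine ⟨p, htf.mem_toFinset.2 hp, ?_⟩
  have h3 := norm_gen_sub huv (hts hp)
  have h4 : dist (u, v) (p.1, p.2) < η / 4 := h2
  linarith

theorem chainN_of_contDiff {N : ℕ} {f : E n → ℝ} (hf : ContDiff ℝ (N + 1 : ℕ) f) :
    ChainN N f := by
  intro a b h k hk y _ t
  have h0 : ContDiff ℝ (1 : ℕ) ((XX a b)^[k] f) := by
    rw [XX_eq]
    exact contDiff_XA_iter _ k (hf.of_le (by exact_mod_cast (by omega : 1 + k ≤ N + 1)))
  have h2 : HasFDerivAt ((XX a b)^[k] f) (fderiv ℝ ((XX a b)^[k] f) (rot a b t y))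
      (rot a b t y) :=
    (h0.differentiable (by norm_num) _).hasFDerivAt
  have h1 := h2.comp_hasDerivAt t (hasDerivAt_rot h t y)
  rw [Function.iterate_succ_apply']
  exact h1

/-- **Decay**, uniform in the phase. -/
theorem decay_unif (hn : 2 ≤ n) (m : ℕ) {c B : ℝ} (hc : 0 < c) (hB : 0 ≤ B) :
    ∃ C : ℝ, 0 ≤ C ∧ ∀ (f : E n → ℝ) (L : ℝ), 1 ≤ L → ContDiff ℝ (m + 2 : ℕ) f →
      (∀ z : E n, ‖z‖ ≤ 1 → J (m + 2) f z ≤ B * L) →
      (∀ x : E n, ‖x‖ = 1 → ∃ u v : E n, OP u v ∧ ∃ k, 1 ≤ k ∧ k ≤ m ∧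
        c * L ≤ |(XX u v)^[k] f x|) →
      ‖∫ x : S n, ei (f x) ∂sm n‖ ≤ C * L ^ (-(1 / (m : ℝ))) := by
  choose Cl hCl0 hCl using lip (D := n)
  obtain ⟨C2, hC20, hC2⟩ := val_le (D := n) 2 (by norm_num)
  set C0 : ℝ := ∑ k ∈ Finset.range (m + 1), Cl k + 1 with hC0
  have hC0p : 0 < C0 := by
    have : 0 ≤ ∑ k ∈ Finset.range (m + 1), Cl k := Finset.sum_nonneg fun k _ => hCl0 k
    linarith
  have hCle : ∀ k ≤ m, Cl k ≤ C0 := by
    intro k hk
    have := Finset.single_le_sum (f := Cl) (fun i _ => hCl0 i)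
      (Finset.mem_range.2 (by omega : k < m + 1))
    linarith
  set η : ℝ := c / (4 * C0 * (B + 1)) with hη
  have hη0 : 0 < η := by positivity
  obtain ⟨T, hT, hnet⟩ := net (n := n) hη0
  set s : Finset (E n × E n × ℕ) :=
    (T ×ˢ Finset.Icc 1 m).image (fun q => (q.1.1, q.1.2, q.2)) with hs
  have hsmem : ∀ p ∈ s, OP p.1 p.2.1 ∧ 1 ≤ p.2.2 ∧ p.2.2 ≤ m := by
    intro p hp
    obtain ⟨q, hq, rfl⟩ := Finset.mem_image.1 hp
    obtain ⟨h1, h2⟩ := Finset.mem_product.1 hq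
    exact ⟨hT _ h1, (Finset.mem_Icc.1 h2).1, (Finset.mem_Icc.1 h2).2⟩
  obtain ⟨C, hC, H⟩ := decay_core hn m s hsmem (δ := η) (κ := c / 2) (M := C2 * B) hη0
    (by positivity)
  refine ⟨C, hC, fun f L hL hf hJ hnf => ?_⟩
  have hL0 : 0 < L := by linarith
  refine H f L hL (chainN_of_contDiff hf) hf.continuous.continuousOn ?_ ?_
  · intro x hx
    obtain ⟨u, v, huv, k, hk1, hkm, hlow⟩ := hnf x hx
    obtain ⟨p, hp, hpn⟩ := hnet u v huv
    refine ⟨(p.1, p.2, k), Finset.mem_image.2 ⟨(p, k), Finset.mem_product.2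
      ⟨hp, Finset.mem_Icc.2 ⟨hk1, hkm⟩⟩, rfl⟩, fun y hy hyx => ?_⟩
    have h1 := hCl k (gen u v) (gen p.1 p.2) f x y (B * L) (norm_gen_op huv)
      (norm_gen_op (hT p hp)) (hf.of_le (by exact_mod_cast (by omega : k + 1 ≤ m + 2))) hx.le hy.le
      (fun z hz => (J_mono (by omega) f z).trans (hJ z hz))
    rw [← XX_eq, ← XX_eq] at h1
    have h2 : Cl k * (‖gen u v - gen p.1 p.2‖ + dist x y) * (B * L) ≤ c / 2 * L := by
      have h3 : ‖gen u v - gen p.1 p.2‖ + dist x y ≤ 2 * η := by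
        rw [dist_comm] at hyx
        linarith
      have h4 : Cl k * (‖gen u v - gen p.1 p.2‖ + dist x y) ≤ C0 * (2 * η) :=
        mul_le_mul (hCle k hkm) h3 (by positivity) hC0p.le
      calc _ ≤ C0 * (2 * η) * (B * L) := mul_le_mul_of_nonneg_right h4 (by positivity)
        _ ≤ C0 * (2 * η) * ((B + 1) * L) := by
            refine mul_le_mul_of_nonneg_left ?_ (by positivity)
            nlinarith
        _ = c / 2 * L := by
            rw [hη]
            field_simp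
            norm_num
    have h5 : |(XX u v)^[k] f x| - |(XX p.1 p.2)^[k] f y| ≤
        |(XX u v)^[k] f x - (XX p.1 p.2)^[k] f y| := abs_sub_abs_le_abs_sub _ _
    show c / 2 * L ≤ |(XX p.1 p.2)^[k] f y|
    linarith
  · intro p hp y hy
    have h1 := hC2 (gen p.1 p.2.1) f y (norm_gen_op (hsmem p hp).1)
      (hf.of_le (by exact_mod_cast (by omega : 2 ≤ m + 2))) hy.le
    rw [← XX_eq] at h1
    refine h1.trans ?_
    rw [mul_assoc]
    exact mul_le_mul_of_nonneg_left ((J_mono (by omega) f y).trans (hJ y hy.le)) hC20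

theorem J_inner (j : ℕ) (ζ z : E n) : J j (fun y => inner ℝ y ζ) z ≤ ‖ζ‖ := by
  unfold J
  have e : (fun y : E n => inner ℝ y ζ) = fun y => (innerSL ℝ ζ) y := by
    funext y
    rw [innerSL_apply_apply]
    exact real_inner_comm _ _
  have h0 : ∀ i, i ≠ 0 → ‖iteratedFDeriv ℝ (i + 1) (fun y : E n => inner ℝ y ζ) z‖ = 0 := by
    intro i hi
    obtain ⟨l, rfl⟩ : ∃ l, i = l + 1 := ⟨i - 1, by omega⟩
    rw [e, ← norm_iteratedFDeriv_fderiv]
    have h1 : fderiv ℝ (fun y : E n => (innerSL ℝ ζ) y) = fun _ => innerSL ℝ ζ :=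
      funext fun y => (innerSL ℝ ζ).fderiv
    rw [h1, iteratedFDeriv_succ_const]
    simp
  rcases j with _ | j
  · simp
  · rw [Finset.sum_range_succ', Finset.sum_eq_zero fun i _ => h0 (i + 1) (by omega), zero_add, e,
      norm_iteratedFDeriv_one, ContinuousLinearMap.fderiv, innerSL_apply_norm]

/-- `ψ` is of type `m` modulo linear functions, with constant `c`, at the size `L`. -/
def Typ (m : ℕ) (c L : ℝ) (ψ : E n → ℝ) : Prop :=
  ∀ x ζ : E n, ‖x‖ = 1 → ∃ u v : E n, OP u v ∧ ∃ k : ℕ, 1 ≤ k ∧ k ≤ m ∧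
    c * (L + ‖ζ‖) ≤ |(XX u v)^[k] (fun y => ψ y + inner ℝ y ζ) x|

/-- **Decay of the Fourier transform**, uniform in the phase. -/
theorem decay_typ (hn : 2 ≤ n) (m : ℕ) (hm : 1 ≤ m) {c B : ℝ} (hc : 0 < c) (hB : 0 ≤ B) :
    ∃ C : ℝ, 0 ≤ C ∧ ∀ (ψ : E n → ℝ) (L : ℝ), 0 ≤ L → ContDiff ℝ (m + 2 : ℕ) ψ →
      (∀ z : E n, ‖z‖ ≤ 1 → J (m + 2) ψ z ≤ B * L) → Typ m c L ψ →
      ∀ ξ : E n, ‖extn (fun x => Complex.exp (((ψ x : ℝ) : ℂ) * Complex.I)) ξ‖ ≤
        C * (1 + L) ^ (-(1 / (m : ℝ))) := by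
  have hm0 : (0 : ℝ) < m := by exact_mod_cast hm
  set κ : ℝ := 1 / (m : ℝ) with hκ
  have hκ0 : 0 < κ := by positivity
  have hκ1 : κ ≤ 1 := by
    rw [hκ, div_le_one hm0]
    exact_mod_cast hm
  set σ : ℝ := (sm n).real univ with hσ
  have hσ0 : 0 ≤ σ := by positivity
  obtain ⟨C, hC, H⟩ := decay_unif hn m hc (B := B + 1) (by linarith)
  refine ⟨2 * (C + σ), by positivity, fun ψ L hL hψ hJ hT ξ => ?_⟩
  set ζ : E n := (-(2 * π)) • ξ with hζ
  have hex : extn (fun x => Complex.exp (((ψ x : ℝ) : ℂ) * Complex.I)) ξ =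
      ∫ x : S n, ei ((fun y : E n => ψ y + inner ℝ y ζ) x) ∂sm n := by
    unfold extn
    refine integral_congr_ae (Filter.Eventually.of_forall fun x => ?_)
    simp only
    rw [← Complex.exp_add]
    unfold ei
    congr 1
    rw [hζ, inner_smul_right]
    push_cast
    ring
  have hinner : ContDiff ℝ (m + 2 : ℕ) (fun y : E n => inner ℝ y ζ) :=
    contDiff_id.inner ℝ contDiff_const
  have htwo : ∀ M : ℝ, 1 ≤ M → 1 + L ≤ 2 * M → M ^ (-κ) ≤ 2 * (1 + L) ^ (-κ) := by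
    intro M hM hLM
    have h1 : M ^ (-κ) ≤ ((1 + L) / 2) ^ (-κ) :=
      Real.rpow_le_rpow_of_nonpos (by positivity) (by linarith) (by linarith)
    refine h1.trans ?_
    rw [Real.div_rpow (by linarith) (by norm_num), div_eq_mul_inv, mul_comm]
    refine mul_le_mul_of_nonneg_right ?_ (by positivity)
    rw [Real.rpow_neg (by norm_num), inv_inv]
    calc (2 : ℝ) ^ κ ≤ 2 ^ (1 : ℝ) := Real.rpow_le_rpow_of_exponent_le (by norm_num) hκ1
      _ = 2 := Real.rpow_one 2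
  rcases le_or_gt 1 (L + ‖ζ‖) with hbig | hsmall
  · have h1 := H (fun y => ψ y + inner ℝ y ζ) (L + ‖ζ‖) hbig (hψ.add hinner) (by
      intro z hz
      have h2 := J_add (m + 2) hψ hinner z
      have h3 := J_inner (m + 2) ζ z
      have h4 := hJ z hz
      have h5 : (ψ + fun y : E n => inner ℝ y ζ) = fun y => ψ y + inner ℝ y ζ := rfl
      rw [h5] at h2
      have h6 : 0 ≤ B * ‖ζ‖ := by positivity
      nlinarith [norm_nonneg ζ]) (by
      intro x hx
      exact hT x ζ hx)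
    rw [hex]
    refine h1.trans ?_
    rcases le_or_gt 1 L with hL1 | hL1
    · have h2 : (L + ‖ζ‖) ^ (-κ) ≤ 2 * (1 + L) ^ (-κ) :=
        htwo _ hbig (by linarith [norm_nonneg ζ])
      have h3 : 0 ≤ (1 + L) ^ (-κ) := by positivity
      calc C * (L + ‖ζ‖) ^ (-κ) ≤ C * (2 * (1 + L) ^ (-κ)) := mul_le_mul_of_nonneg_left h2 hC
        _ ≤ 2 * (C + σ) * (1 + L) ^ (-κ) := by nlinarith [mul_nonneg hσ0 h3]
    · have h2 : (L + ‖ζ‖) ^ (-κ) ≤ 1 := Real.rpow_le_one_of_one_le_of_nonpos hbig (by linarith)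
      have h4 := htwo 1 le_rfl (by linarith)
      rw [Real.one_rpow] at h4
      have h3 : 0 ≤ (1 + L) ^ (-κ) := by positivity
      calc C * (L + ‖ζ‖) ^ (-κ) ≤ C * 1 := mul_le_mul_of_nonneg_left h2 hC
        _ ≤ C * (2 * (1 + L) ^ (-κ)) := mul_le_mul_of_nonneg_left h4 hC
        _ ≤ 2 * (C + σ) * (1 + L) ^ (-κ) := by nlinarith [mul_nonneg hσ0 h3]
  · rw [hex]
    have h1 : ‖∫ x : S n, ei ((fun y : E n => ψ y + inner ℝ y ζ) x) ∂sm n‖ ≤ 1 * σ :=
      norm_integral_le_of_norm_le_const (Filter.Eventually.of_forall fun x => (norm_ei _).le)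
    refine h1.trans ?_
    have h4 := htwo 1 le_rfl (by linarith [norm_nonneg ζ])
    rw [Real.one_rpow] at h4
    have h3 : 0 ≤ (1 + L) ^ (-κ) := by positivity
    calc 1 * σ ≤ (2 * (1 + L) ^ (-κ)) * σ := mul_le_mul_of_nonneg_right h4 hσ0
      _ ≤ 2 * (C + σ) * (1 + L) ^ (-κ) := by nlinarith [mul_nonneg hC h3]

end Pool.Agent.VANn.FT
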