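import Pool.Agent.VANn.FTD
import Pool.Agent.VAN.E0

/-!
The restriction estimate for phases of finite type, over the estimate with a small loss.
-/

set_option autoImplicit false

namespace Pool.Agent.VANn

open MeasureTheory Set Metric Pool.Agent.MP_6cbfb8_an Pool.Agent.VAN
open scoped ENNReal Real

variable {n : ℕ}

/-- The estimate with a small loss for the phases `c φ` on the unit sphere of `R^n`, in the range
`p > p0`: the constant depends on `φ` only through the bounds `B k` for its derivatives. -/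
def LossS (n : ℕ) (p0 : ℝ) : Prop :=
  ∀ p : ℝ, p0 < p → ∀ ε : ℝ, 0 < ε → ∀ B : ℕ → ℝ, ∃ K : ℝ, 0 < K ∧ ∀ φ : E n → ℝ,
    (∀ x, ‖x‖ = 1 → ContDiffAt ℝ ((⊤ : ℕ∞) : WithTop ℕ∞) φ x) →
    (∀ k x, ‖x‖ = 1 → ‖iteratedFDeriv ℝ k φ x‖ ≤ B k) → ∀ c : ℝ,
    ∫⁻ ξ, ‖extn (fun x => Complex.exp (((c * φ x : ℝ) : ℂ) * Complex.I)) ξ‖ₑ ^ p ≤
      ENNReal.ofReal (K * (1 + |c|) ^ ε)

namespace FT

/-- The estimate with a small loss for phases with derivatives at most `B k * L`. -/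
theorem loss_size {p0 : ℝ} (H : LossS n p0) (p : ℝ) (hp : p0 < p) (ε : ℝ) (hε : 0 < ε) (B : ℕ → ℝ) :
    ∃ K : ℝ, 0 < K ∧ ∀ (L : ℝ) (ψ : E n → ℝ), 0 ≤ L →
      (∀ x, ‖x‖ = 1 → ContDiffAt ℝ ((⊤ : ℕ∞) : WithTop ℕ∞) ψ x) →
      (∀ k (x : E n), ‖x‖ = 1 → ‖iteratedFDeriv ℝ k ψ x‖ ≤ B k * L) →
      ∫⁻ ξ, ‖extn (fun x => Complex.exp (((ψ x : ℝ) : ℂ) * Complex.I)) ξ‖ₑ ^ p ≤
        ENNReal.ofReal (K * (1 + L) ^ ε) := by
  obtain ⟨K, hK, h⟩ := H p hp ε hε fun k => |B k|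
  refine ⟨K * 2 ^ ε, by positivity, fun L ψ hL hψ hB => ?_⟩
  have h1L : (0:ℝ) < 1 + L := by linarith
  have h1 := h (fun x => (1 + L)⁻¹ • ψ x) (fun x hx => (hψ x hx).const_smul _) (by
    intro k x hx
    have h2 : ContDiffAt ℝ k ψ x := (hψ x hx).of_le (by exact_mod_cast le_top)
    rw [iteratedFDeriv_const_smul_apply' h2, norm_smul, Real.norm_eq_abs, abs_inv,
      abs_of_pos h1L]
    have h3 := hB k x hx
    have h4 : B k * L ≤ |B k| * (1 + L) :=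
      mul_le_mul (le_abs_self _) (by linarith) hL (abs_nonneg _)
    calc (1 + L)⁻¹ * ‖iteratedFDeriv ℝ k ψ x‖ ≤ (1 + L)⁻¹ * (|B k| * (1 + L)) :=
          mul_le_mul_of_nonneg_left (h3.trans h4) (by positivity)
      _ = |B k| := by field_simp) (1 + L)
  have e : (fun x : E n => Complex.exp ((((1 + L) * ((1 + L)⁻¹ • ψ x) : ℝ) : ℂ) * Complex.I)) =
      fun x => Complex.exp (((ψ x : ℝ) : ℂ) * Complex.I) := by
    funext x
    rw [smul_eq_mul, ← mul_assoc, mul_inv_cancel₀ h1L.ne', one_mul]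
  rw [e] at h1
  refine h1.trans (ENNReal.ofReal_le_ofReal ?_)
  rw [abs_of_pos h1L, mul_assoc, ← Real.mul_rpow (by norm_num) h1L.le]
  refine mul_le_mul_of_nonneg_left ?_ hK.le
  exact Real.rpow_le_rpow (by positivity) (by linarith) hε.le

/-- **The restriction estimate for smooth phases of type `m`**, uniform in the phase. -/
theorem typ_bound (hn : 2 ≤ n) {p0 : ℝ} (hp0 : 0 ≤ p0) (H : LossS n p0) (m : ℕ) (hm : 1 ≤ m) (p : ℝ)
    (hp : p0 < p) (c : ℝ) (hc : 0 < c) (B : ℕ → ℝ) :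
    ∃ C : ℝ≥0∞, C ≠ ∞ ∧ ∀ (L : ℝ) (ψ : E n → ℝ), 0 ≤ L →
      ContDiff ℝ ((⊤ : ℕ∞) : WithTop ℕ∞) ψ →
      (∀ (j : ℕ) (y : E n), ‖y‖ ≤ 2 → ‖iteratedFDeriv ℝ j ψ y‖ ≤ B j * L) →
      Typ m c L ψ →
      ∫⁻ ξ, ‖extn (fun x => Complex.exp (((ψ x : ℝ) : ℂ) * Complex.I)) ξ‖ₑ ^ p ≤ C := by
  have hm0 : (0 : ℝ) < m := by exact_mod_cast hm
  set p1 : ℝ := (p0 + p) / 2 with hp1
  have h01 : p0 < p1 := by rw [hp1]; linarith
  have h1p : p1 < p := by rw [hp1]; linarith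
  set e : ℝ := 1 / (m : ℝ) * (p - p1) with he
  have he0 : 0 < e := mul_pos (by positivity) (by linarith)
  obtain ⟨K, hK, H1⟩ := loss_size H p1 h01 e he0 B
  set B0 : ℝ := ∑ i ∈ Finset.range (m + 2), |B (i + 1)| with hB0
  have hB00 : 0 ≤ B0 := Finset.sum_nonneg fun i _ => abs_nonneg _
  obtain ⟨C2, hC2, H2⟩ := decay_typ hn m hm hc hB00
  refine ⟨ENNReal.ofReal (C2 ^ (p - p1) * K), ENNReal.ofReal_ne_top, fun L ψ hL hψ hB hT => ?_⟩
  have h1L : (0:ℝ) < 1 + L := by linarith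
  have hdec := H2 ψ L hL (contDiff_infty.1 hψ (m + 2)) (by
    intro z hz
    unfold J
    rw [hB0, Finset.sum_mul]
    refine Finset.sum_le_sum fun i _ => ?_
    refine (hB (i + 1) z (by linarith)).trans ?_
    exact mul_le_mul_of_nonneg_right (le_abs_self _) hL) hT
  have hloss := H1 L ψ hL (fun x _ => hψ.contDiffAt) fun k x hx => hB k x (by rw [hx]; norm_num)
  have h1 := interp_set (volume : Measure (E n)) (p1 := p1) (p := p)
    (M := C2 * (1 + L) ^ (-(1 / (m : ℝ)))) (by linarith) h1p.le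
    (extn (fun x => Complex.exp (((ψ x : ℝ) : ℂ) * Complex.I))) univ MeasurableSet.univ
    (by positivity) (fun ξ _ => hdec ξ)
  rw [Measure.restrict_univ] at h1
  refine h1.trans ((mul_le_mul' le_rfl hloss).trans ?_)
  rw [← ENNReal.ofReal_mul (by positivity)]
  refine ENNReal.ofReal_le_ofReal (le_of_eq ?_)
  rw [Real.mul_rpow hC2 (by positivity), ← Real.rpow_mul h1L.le]
  have e1 : -(1 / (m : ℝ)) * (p - p1) = -e := by rw [he]; ring
  rw [e1]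
  have e2 : (1 + L) ^ (-e) * (1 + L) ^ e = 1 := by
    rw [← Real.rpow_add h1L, neg_add_cancel, Real.rpow_zero]
  calc C2 ^ (p - p1) * (1 + L) ^ (-e) * (K * (1 + L) ^ e) =
        C2 ^ (p - p1) * K * ((1 + L) ^ (-e) * (1 + L) ^ e) := by ring
    _ = C2 ^ (p - p1) * K := by rw [e2, mul_one]

end FT

end Pool.Agent.VANn
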