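import Pool.Agent.VANn.FTD
import Pool.Agent.PPH.B1a

/-!
Sublevel sets on the sphere of functions of finite type, with explicit dependence.
-/

set_option autoImplicit false

namespace Pool.Agent.VANn.FT

open MeasureTheory Set Metric Pool.Agent.MP_6cbfb8_an Pool.Agent.VAN Pool.Agent.VAN.FT
open scoped ENNReal Real

variable {n : ℕ}

/-- the rotation as a map of the sphere -/
noncomputable def rotS {a b : E n} (h : OP a b) (t : ℝ) (x : S n) : S n :=
  ⟨rot a b t x, by
    rw [mem_sphere_zero_iff_norm, norm_rot h]; exact mem_sphere_zero_iff_norm.1 x.2⟩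

theorem rotS_mp {a b : E n} (h : OP a b) (t : ℝ) : MeasurePreserving (rotS h t) (sm n) (sm n) :=
  measurePreserving_isometry (rotE h t)

theorem continuous_rotS {a b : E n} (h : OP a b) : Continuous fun p : ℝ × S n => rotS h p.1 p.2 := by
  refine Continuous.subtype_mk ?_ _
  exact (continuous_rot a b).comp
    (continuous_fst.prodMk (continuous_subtype_val.comp continuous_snd))

theorem lintegral_avg {a b : E n} (h : OP a b) (T : ℝ) (F : S n → ℝ≥0∞) (hF : Measurable F) :
    ENNReal.ofReal T * ∫⁻ x, F x ∂(sm n) =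
      ∫⁻ x : S n, (∫⁻ t in Icc 0 T, F (rotS h t x)) ∂(sm n) := by
  have h1 : ∀ t : ℝ, ∫⁻ x, F (rotS h t x) ∂(sm n) = ∫⁻ x, F x ∂(sm n) := fun t =>
    (rotS_mp h t).lintegral_comp hF
  have hm : Measurable (fun p : S n × ℝ => F (rotS h p.2 p.1)) :=
    hF.comp ((continuous_rotS h).measurable.comp (measurable_snd.prodMk measurable_fst))
  rw [lintegral_lintegral_swap hm.aemeasurable]
  simp_rw [h1]
  rw [setLIntegral_const, Real.volume_Icc, sub_zero, mul_comm]

/-- one patch -/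
theorem sub_patch (m : ℕ) {δ κ : ℝ} (hδ : 0 < δ) (hκ : 0 < κ) (hκ1 : κ ≤ 1) : ∃ C : ℝ, 0 ≤ C ∧
    ∀ (f : E n → ℝ) (x0 a b : E n) (k : ℕ) (e : ℝ), ChainN m f →
      ContinuousOn f (sphere (0 : E n) 1) → OP a b → 1 ≤ k → k ≤ m → 0 < e → e ≤ 1 →
      (∀ y : E n, ‖y‖ = 1 → dist y x0 < δ → κ ≤ |(XX a b)^[k] f y|) →
      (sm n) {x : S n | dist (x : E n) x0 < δ / 2 ∧ |f x| ≤ e} ≤
        ENNReal.ofReal (C * e ^ (1 / (m : ℝ))) := by
  choose K hK hsub using PPH.b1a_pos
  set KK : ℝ := ∑ k ∈ Finset.range m, K k with hKK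
  have hKK0 : 0 ≤ KK := Finset.sum_nonneg fun k _ => (hK k).le
  set T : ℝ := δ / 2 with hT
  have hT0 : 0 < T := by positivity
  set σ : ℝ := (sm n).real univ with hσ
  have hσ0 : 0 ≤ σ := measureReal_nonneg
  refine ⟨KK * κ⁻¹ * σ / T, by positivity, ?_⟩
  intro f x0 a b k e hf hfc hab hk hkm he he1 h
  have hcc : Continuous fun x : S n => f x := continuousOn_iff_continuous_domRestrict.1 hfc
  set G : Set (S n) := {x : S n | dist (x : E n) x0 < δ / 2 ∧ |f x| ≤ e} with hG
  have hGm : MeasurableSet G := by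
    refine MeasurableSet.inter ?_ ?_
    · exact (isOpen_lt (continuous_subtype_val.dist continuous_const) continuous_const).measurableSet
    · exact (isClosed_le hcc.abs continuous_const).measurableSet
  obtain ⟨j, rfl⟩ : ∃ j, k = j + 1 := ⟨k - 1, by omega⟩
  set B : ℝ := K j * (e / κ) ^ (1 / ((j + 1 : ℕ):ℝ)) with hB
  have hB0 : 0 ≤ B := by
    have := Real.rpow_nonneg (div_pos he hκ).le (1 / ((j + 1 : ℕ):ℝ))
    have := (hK j).le
    positivity
  have hinner : ∀ x : S n, ∫⁻ t in Icc 0 T, G.indicator (fun _ => (1:ℝ≥0∞)) (rotS hab t x) ≤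
      ENNReal.ofReal B := by
    intro x
    have hx1 : ‖(x : E n)‖ = 1 := mem_sphere_zero_iff_norm.1 x.2
    have hcr : Continuous fun t => rotS hab t x :=
      (continuous_rotS hab).comp (continuous_id.prodMk continuous_const)
    have hpre : MeasurableSet ((fun t => rotS hab t x) ⁻¹' G) := hcr.measurable hGm
    have e1 : ∫⁻ t in Icc 0 T, G.indicator (fun _ => (1:ℝ≥0∞)) (rotS hab t x) =
        volume (((fun t => rotS hab t x) ⁻¹' G) ∩ Icc 0 T) := by
      have : (fun t => G.indicator (fun _ => (1:ℝ≥0∞)) (rotS hab t x)) =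
          ((fun t => rotS hab t x) ⁻¹' G).indicator (fun _ => (1:ℝ≥0∞)) := by
        funext t
        rfl
      rw [this, lintegral_indicator hpre, setLIntegral_one, Measure.restrict_apply hpre]
    rw [e1]
    by_cases hex : ∃ t0 ∈ Icc 0 T, rotS hab t0 x ∈ G
    · obtain ⟨t0, ht0, hmem⟩ := hex
      have hclose : ∀ t ∈ Icc 0 T, dist (rot a b t x) x0 < δ := by
        intro t ht
        have h3 : dist (rot a b t x) (rot a b t0 x) ≤ T := by
          have h5 := (convex_Icc (0 : ℝ) T).norm_image_sub_le_of_norm_hasDerivWithin_le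
            (f := fun t => rot a b t (x : E n)) (f' := fun t => gen a b (rot a b t (x : E n)))
            (C := 1) (x := t0) (y := t)
            (fun s _ => (hasDerivAt_rot hab s (x : E n)).hasDerivWithinAt)
            (fun s _ => (norm_gen_le hab _).trans ((norm_rot hab s (x : E n)).trans hx1).le) ht0 ht
          rw [dist_eq_norm]
          refine h5.trans ?_
          rw [one_mul, Real.norm_eq_abs, abs_le]
          constructor
          · linarith [ht.1, ht0.2]
          · linarith [ht.2, ht0.1]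
        have h4 : dist (rot a b t0 x) x0 < δ / 2 := hmem.1
        calc dist (rot a b t x) x0 ≤ dist (rot a b t x) (rot a b t0 x) + dist (rot a b t0 x) x0 :=
              dist_triangle _ _ _
          _ < T + δ / 2 := by linarith
          _ = δ := by rw [hT]; ring
      have h6 := hsub j (Icc 0 T) ordConnected_Icc (fun i t => (XX a b)^[i] f (rot a b t x))
        (fun i hi t _ => hf a b hab i (by omega) x hx1 t) e κ he hκ
        (fun t ht => h _ ((norm_rot hab t _).trans hx1) (hclose t ht))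
      refine (measure_mono ?_).trans h6
      rintro t ⟨ht, ht'⟩
      exact ⟨ht', ht.2⟩
    · push Not at hex
      have : ((fun t => rotS hab t x) ⁻¹' G) ∩ Icc 0 T = ∅ := by
        ext t
        simp only [mem_inter_iff, mem_preimage, mem_empty_iff_false, iff_false, not_and]
        intro h1 h2
        exact hex t h2 h1
      rw [this, measure_empty]
      exact zero_le
  have havg := lintegral_avg hab T (G.indicator fun _ => (1:ℝ≥0∞)) (measurable_const.indicator hGm)
  rw [lintegral_indicator hGm, setLIntegral_one] at havg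
  have h1 : ENNReal.ofReal T * sm n G ≤ ENNReal.ofReal B * sm n univ := by
    rw [havg]
    refine (lintegral_mono hinner).trans ?_
    rw [lintegral_const]
  have h2 : T * (sm n).real G ≤ B * σ := by
    have h3 := ENNReal.toReal_mono (ENNReal.mul_ne_top ENNReal.ofReal_ne_top (measure_ne_top _ _)) h1
    rw [ENNReal.toReal_mul, ENNReal.toReal_mul, ENNReal.toReal_ofReal hT0.le,
      ENNReal.toReal_ofReal hB0] at h3
    exact h3
  have hBle : B ≤ KK * κ⁻¹ * e ^ (1 / (m : ℝ)) := by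
    have hj1 : (1 : ℝ) ≤ ((j + 1 : ℕ) : ℝ) := by exact_mod_cast hk
    have hj0 : (0 : ℝ) < ((j + 1 : ℕ) : ℝ) := by linarith
    have hjm : ((j + 1 : ℕ) : ℝ) ≤ m := by exact_mod_cast hkm
    have h3 : (κ⁻¹) ^ (1 / ((j + 1 : ℕ):ℝ)) ≤ κ⁻¹ := by
      have h4 : 1 ≤ κ⁻¹ := (one_le_inv₀ hκ).2 hκ1
      calc (κ⁻¹) ^ (1 / ((j + 1 : ℕ):ℝ)) ≤ (κ⁻¹) ^ (1 : ℝ) :=
            Real.rpow_le_rpow_of_exponent_le h4 (by rw [div_le_one hj0]; exact hj1)
        _ = κ⁻¹ := Real.rpow_one _
    have h5 : e ^ (1 / ((j + 1 : ℕ):ℝ)) ≤ e ^ (1 / (m : ℝ)) :=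
      Real.rpow_le_rpow_of_exponent_ge he he1 (one_div_le_one_div_of_le hj0 hjm)
    have h6 : K j ≤ KK := Finset.single_le_sum (f := K) (fun i _ => (hK i).le)
      (Finset.mem_range.2 (by omega))
    rw [hB, div_eq_mul_inv, Real.mul_rpow he.le (by positivity)]
    calc K j * (e ^ (1 / ((j + 1 : ℕ):ℝ)) * (κ⁻¹) ^ (1 / ((j + 1 : ℕ):ℝ)))
        ≤ KK * (e ^ (1 / (m : ℝ)) * κ⁻¹) := by
          refine mul_le_mul h6 (mul_le_mul h5 h3 (by positivity) (by positivity)) (by positivity)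
            hKK0
      _ = _ := by ring
  rw [← ofReal_measureReal]
  apply ENNReal.ofReal_le_ofReal
  have h3 : (sm n).real G ≤ B * σ / T := by
    rw [le_div_iff₀ hT0]
    linarith
  refine h3.trans ?_
  calc B * σ / T ≤ (KK * κ⁻¹ * e ^ (1 / (m : ℝ))) * σ / T := by gcongr
    _ = _ := by ring

/-- **Sublevel sets**, core form. -/
theorem sub_core (m : ℕ) {δ κ : ℝ} (hδ : 0 < δ) (hκ : 0 < κ) : ∃ C : ℝ, 0 ≤ C ∧
    ∀ (f : E n → ℝ) (e : ℝ), ChainN m f → ContinuousOn f (sphere (0 : E n) 1) → 0 < e → e ≤ 1 →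
      (∀ x : E n, ‖x‖ = 1 → ∃ (a b : E n) (k : ℕ), OP a b ∧ 1 ≤ k ∧ k ≤ m ∧
        ∀ y : E n, ‖y‖ = 1 → dist y x < δ → κ ≤ |(XX a b)^[k] f y|) →
      (sm n) {x : S n | |f x| ≤ e} ≤ ENNReal.ofReal (C * e ^ (1 / (m : ℝ))) := by
  obtain ⟨C, hC, H⟩ := sub_patch m hδ (κ := min κ 1) (lt_min hκ one_pos) (min_le_right _ _)
  obtain ⟨t, hts, htf, hcov⟩ := (isCompact_sphere (0 : E n) 1).finite_cover_balls (e := δ / 2)
    (by positivity)
  refine ⟨htf.toFinset.card * C, by positivity, fun f e hf hfc he he1 hlow => ?_⟩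
  have hsub : {x : S n | |f x| ≤ e} ⊆
      ⋃ z ∈ htf.toFinset, {x : S n | dist (x : E n) z < δ / 2 ∧ |f x| ≤ e} := by
    intro x hx
    obtain ⟨z, hz, h1⟩ := mem_iUnion₂.1 (hcov x.2)
    exact mem_iUnion₂.2 ⟨z, htf.mem_toFinset.2 hz, h1, hx⟩
  refine (measure_mono hsub).trans ((measure_biUnion_finset_le _ _).trans ?_)
  have h1 : ∀ z ∈ htf.toFinset, (sm n) {x : S n | dist (x : E n) z < δ / 2 ∧ |f x| ≤ e} ≤
      ENNReal.ofReal (C * e ^ (1 / (m : ℝ))) := by
    intro z hz
    have hz1 : ‖z‖ = 1 := mem_sphere_zero_iff_norm.1 (hts (htf.mem_toFinset.1 hz))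
    obtain ⟨a, b, k, hab, hk, hkm, hk2⟩ := hlow z hz1
    exact H f z a b k e hf hfc hab hk hkm he he1
      (fun y hy hyz => (min_le_left _ _).trans (hk2 y hy hyz))
  refine (Finset.sum_le_sum h1).trans ?_
  rw [Finset.sum_const, nsmul_eq_mul, ← ENNReal.ofReal_natCast, ← ENNReal.ofReal_mul (by positivity)]
  apply ENNReal.ofReal_le_ofReal
  exact le_of_eq (by ring)

/-- a lower bound at every point extends to a neighbourhood, uniformly -/
theorem low_nbhd (m : ℕ) {c B : ℝ} (hc : 0 < c) (hB : 0 ≤ B) : ∃ δ : ℝ, 0 < δ ∧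
    ∀ (f : E n → ℝ) (L : ℝ), 0 ≤ L → ContDiff ℝ (m + 1 : ℕ) f →
      (∀ z : E n, ‖z‖ ≤ 1 → J (m + 1) f z ≤ B * L) →
      ∀ (u v x : E n) (k : ℕ), OP u v → k ≤ m → ‖x‖ = 1 → c * L ≤ |(XX u v)^[k] f x| →
        ∀ y : E n, ‖y‖ = 1 → dist y x < δ → c / 2 * L ≤ |(XX u v)^[k] f y| := by
  choose Cl hCl0 hCl using lip (D := n)
  set C0 : ℝ := ∑ k ∈ Finset.range (m + 1), Cl k + 1 with hC0
  have hC0p : 0 < C0 := by
    have : 0 ≤ ∑ k ∈ Finset.range (m + 1), Cl k := Finset.sum_nonneg fun k _ => hCl0 k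
    linarith
  have hCle : ∀ k ≤ m, Cl k ≤ C0 := by
    intro k hk
    have := Finset.single_le_sum (f := Cl) (fun i _ => hCl0 i)
      (Finset.mem_range.2 (by omega : k < m + 1))
    linarith
  set η : ℝ := c / (2 * C0 * (B + 1)) with hη
  have hη0 : 0 < η := by positivity
  refine ⟨η, hη0, fun f L hL hf hJ u v x k huv hkm hx hlow y hy hyx => ?_⟩
  have h1 := hCl k (gen u v) (gen u v) f x y (B * L) (norm_gen_op huv)
    (norm_gen_op huv) (hf.of_le (by exact_mod_cast (by omega : k + 1 ≤ m + 1))) hx.le hy.le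
    (fun z hz => (J_mono (by omega) f z).trans (hJ z hz))
  rw [← XX_eq, sub_self, norm_zero, zero_add] at h1
  have h2 : Cl k * dist x y * (B * L) ≤ c / 2 * L := by
    have h3 : dist x y ≤ η := by
      rw [dist_comm] at hyx
      linarith
    have h4 : Cl k * dist x y ≤ C0 * η := mul_le_mul (hCle k hkm) h3 (by positivity) hC0p.le
    calc _ ≤ C0 * η * (B * L) := mul_le_mul_of_nonneg_right h4 (by positivity)
      _ ≤ C0 * η * ((B + 1) * L) := by
          refine mul_le_mul_of_nonneg_left ?_ (by positivity)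
          nlinarith
      _ = c / 2 * L := by
          rw [hη]
          field_simp
  have h5 : |(XX u v)^[k] f x| - |(XX u v)^[k] f y| ≤
      |(XX u v)^[k] f x - (XX u v)^[k] f y| := abs_sub_abs_le_abs_sub _ _
  linarith

/-- **Sublevel sets**, uniform in the function. -/
theorem sub_unif (hn : 2 ≤ n) (m : ℕ) {c B : ℝ} (hc : 0 < c) (hB : 0 ≤ B) : ∃ C : ℝ, 0 ≤ C ∧
    ∀ f : E n → ℝ, ContDiff ℝ (m + 1 : ℕ) f → (∀ z : E n, ‖z‖ ≤ 1 → J (m + 1) f z ≤ B) →
      (∀ x : E n, ‖x‖ = 1 → ∃ u v : E n, OP u v ∧ ∃ k, 1 ≤ k ∧ k ≤ m ∧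
        c ≤ |(XX u v)^[k] f x|) →
      ∀ e : ℝ, 0 ≤ e → (sm n) {x : S n | |f x| ≤ e} ≤ ENNReal.ofReal (C * e ^ (1 / (m : ℝ))) := by
  obtain ⟨δ, hδ, H1⟩ := low_nbhd m hc hB
  obtain ⟨C, hC, H2⟩ := sub_core m hδ (κ := c / 2) (by positivity)
  set σ : ℝ := (sm n).real univ with hσ
  have hσ0 : 0 ≤ σ := measureReal_nonneg
  refine ⟨C + σ, by positivity, fun f hf hJ hlow => ?_⟩
  have hm : 1 ≤ m := by
    obtain ⟨x, hx, -⟩ := exists_unit_orth hn (0 : E n)
    obtain ⟨u, v, -, k, h1, h2, -⟩ := hlow x hx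
    omega
  have hm0 : (0 : ℝ) < m := by exact_mod_cast hm
  have hpos : ∀ e : ℝ, 0 < e → (sm n) {x : S n | |f x| ≤ e} ≤
      ENNReal.ofReal ((C + σ) * e ^ (1 / (m : ℝ))) := by
    intro e he
    rcases le_or_gt e 1 with he1 | he1
    · refine (H2 f e (chainN_of_contDiff hf) hf.continuous.continuousOn he he1 ?_).trans ?_
      · intro x hx
        obtain ⟨u, v, huv, k, hk, hkm, hk2⟩ := hlow x hx
        refine ⟨u, v, k, huv, hk, hkm, fun y hy hyx => ?_⟩
        have h := H1 f 1 zero_le_one hf (by simpa using hJ) u v x k huv hkm hx (by simpa using hk2)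
          y hy hyx
        simpa using h
      · apply ENNReal.ofReal_le_ofReal
        have : 0 ≤ e ^ (1 / (m : ℝ)) := by positivity
        nlinarith
    · refine (measure_mono (subset_univ _)).trans ?_
      rw [← ofReal_measureReal]
      apply ENNReal.ofReal_le_ofReal
      have h1 : 1 ≤ e ^ (1 / (m : ℝ)) := Real.one_le_rpow he1.le (by positivity)
      have : (sm n).real univ = σ := rfl
      rw [this]
      nlinarith
  intro e he
  rcases he.eq_or_lt with rfl | he0
  · have h0 : (sm n) {x : S n | |f x| ≤ 0} ≤ 0 := by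
      have hlim : Filter.Tendsto (fun e : ℝ => ENNReal.ofReal ((C + σ) * e ^ (1 / (m : ℝ))))
          (nhdsWithin 0 (Ioi 0)) (nhds (ENNReal.ofReal ((C + σ) * (0 : ℝ) ^ (1 / (m : ℝ))))) := by
        refine (Continuous.tendsto ?_ 0).mono_left nhdsWithin_le_nhds
        refine ENNReal.continuous_ofReal.comp (continuous_const.mul ?_)
        exact continuous_id.rpow_const (fun x => Or.inr (by positivity))
      rw [Real.zero_rpow (by positivity), mul_zero, ENNReal.ofReal_zero] at hlim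
      refine ge_of_tendsto hlim ?_
      filter_upwards [self_mem_nhdsWithin] with e he
      refine (measure_mono ?_).trans (hpos e he)
      intro x hx
      exact le_trans (show |f x| ≤ 0 from hx) (le_of_lt he)
    exact h0.trans (zero_le)
  · exact hpos e he0

end Pool.Agent.VANn.FT
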