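import Pool.Agent.VANn.FTE
import Pool.Agent.VANn.FTF
import Pool.Agent.VAN.FTG
import Pool.Agent.VAN.G
import Pool.Agent.VAN.H2

/-!
Families of finite type on the unit sphere of `R^n`: the uniform restriction estimate, with cuts,
over the estimate with a small loss.
-/

set_option autoImplicit false

namespace Pool.Agent.VANn

open MeasureTheory Set Metric Pool.Agent.MP_6cbfb8_an Pool.Agent.VAN
open scoped ENNReal Real

variable {n : ℕ}

/-- The functions `φ j` are smooth, their derivatives of order `k` are at most `B k` in the ball of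
radius two, and the linear combinations of them are of type `m` modulo linear functions with the
constant `c`. -/
def FinType {d : ℕ} (m : ℕ) (c : ℝ) (B : ℕ → ℝ) (φ : Fin d → E n → ℝ) : Prop :=
  (∀ j, ContDiff ℝ ((⊤ : ℕ∞) : WithTop ℕ∞) (φ j)) ∧
  (∀ j k (y : E n), ‖y‖ ≤ 2 → ‖iteratedFDeriv ℝ k (φ j) y‖ ≤ B k) ∧
  ∀ a : Fin d → ℝ, FT.Typ m c ‖a‖ (fam φ a)

/-- The density `e^{iu} ∏ 1_{v_i > 0}`, where `u` is the linear combination of the `φ j` with
coefficients `a`, and `v_i` the one with coefficients `b i`, plus `⟨x, ζ i⟩ + κ i`. -/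
noncomputable def famA {d N : ℕ} (φ : Fin d → E n → ℝ) (a : Fin d → ℝ) (b : Fin N → Fin d → ℝ)
    (ζ : Fin N → E n) (κ : Fin N → ℝ) (x : E n) : ℂ :=
  Complex.exp (((fam φ a x : ℝ) : ℂ) * Complex.I) *
    ∏ i, if 0 < fam φ (b i) x + inner ℝ x (ζ i) + κ i then 1 else 0

namespace FT

theorem fam_contDiff {d : ℕ} {φ : Fin d → E n → ℝ}
    (hφ : ∀ j, ContDiff ℝ ((⊤ : ℕ∞) : WithTop ℕ∞) (φ j)) (a : Fin d → ℝ) (K : ℕ) :
    ContDiff ℝ K (fam φ a) := by
  unfold fam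
  refine ContDiff.sum fun j _ => contDiff_const.mul ((hφ j).of_le ?_)
  exact_mod_cast le_top

theorem fam_smooth {d : ℕ} {φ : Fin d → E n → ℝ}
    (hφ : ∀ j, ContDiff ℝ ((⊤ : ℕ∞) : WithTop ℕ∞) (φ j)) (a : Fin d → ℝ) :
    ContDiff ℝ ((⊤ : ℕ∞) : WithTop ℕ∞) (fam φ a) := by
  unfold fam
  exact ContDiff.sum fun j _ => contDiff_const.mul (hφ j)

theorem fam_iter_le {d : ℕ} {φ : Fin d → E n → ℝ}
    (hφ : ∀ j, ContDiff ℝ ((⊤ : ℕ∞) : WithTop ℕ∞) (φ j)) {B : ℕ → ℝ}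
    (hB : ∀ j k (y : E n), ‖y‖ ≤ 2 → ‖iteratedFDeriv ℝ k (φ j) y‖ ≤ B k) (a : Fin d → ℝ) (k : ℕ)
    {y : E n} (hy : ‖y‖ ≤ 2) : ‖iteratedFDeriv ℝ k (fam φ a) y‖ ≤ d * |B k| * ‖a‖ := by
  have h1 : ∀ j, ContDiff ℝ k (φ j) := fun j => (hφ j).of_le (by exact_mod_cast le_top)
  have e : fam φ a = fun x => ∑ j, a j • φ j x := by
    funext x
    simp [fam]
  rw [e, iteratedFDeriv_fun_sum_apply fun j _ => ((h1 j).const_smul (a j)).contDiffAt]
  refine (norm_sum_le _ _).trans ?_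
  have h2 : ∀ j ∈ (Finset.univ : Finset (Fin d)),
      ‖iteratedFDeriv ℝ k (fun x => a j • φ j x) y‖ ≤ |B k| * ‖a‖ := by
    intro j _
    rw [iteratedFDeriv_const_smul_apply' (h1 j).contDiffAt, norm_smul, mul_comm]
    exact mul_le_mul ((hB j k y hy).trans (le_abs_self _)) (norm_le_pi_norm a j) (norm_nonneg _)
      (abs_nonneg _)
  refine (Finset.sum_le_sum h2).trans ?_
  rw [Finset.sum_const, Finset.card_univ, Fintype.card_fin, nsmul_eq_mul]
  exact le_of_eq (by ring)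

theorem Typ.pos (hn : 2 ≤ n) {m : ℕ} {c L : ℝ} {ψ : E n → ℝ} (h : Typ m c L ψ) : 1 ≤ m := by
  obtain ⟨x, hx, -⟩ := exists_unit_orth hn (0 : E n)
  obtain ⟨u, v, -, k, h1, h2, -⟩ := h x 0 hx
  omega

/-- no cuts -/
theorem fin_nocut (hn : 2 ≤ n) {p0 : ℝ} (hp0 : 0 ≤ p0) (H : LossS n p0) {d : ℕ} (m : ℕ) (c : ℝ)
    (hc : 0 < c) (B : ℕ → ℝ) (p : ℝ) (hp : p0 < p) :
    ∃ C : ℝ≥0∞, C ≠ ∞ ∧ ∀ φ : Fin d → E n → ℝ, FinType m c B φ → ∀ a : Fin d → ℝ,
      ∫⁻ ξ, ‖extn (fun x => Complex.exp (((fam φ a x : ℝ) : ℂ) * Complex.I)) ξ‖ₑ ^ p ≤ C := by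
  rcases Nat.eq_zero_or_pos m with rfl | hm
  · exact ⟨0, by simp, fun φ hφ a => absurd ((hφ.2.2 a).pos hn) (by norm_num)⟩
  obtain ⟨C, hC, H⟩ := typ_bound hn hp0 H m hm p hp c hc fun k => d * |B k|
  refine ⟨C, hC, fun φ hφ a => ?_⟩
  exact H ‖a‖ (fam φ a) (norm_nonneg _) (fam_smooth hφ.1 a)
    (fun j y hy => fam_iter_le hφ.1 hφ.2.1 a j hy) (hφ.2.2 a)

/-- the coordinates and the constant `1` -/
noncomputable def aff (i : Fin (n + 1)) (x : E n) : ℝ := if h : (i : ℕ) < n then x ⟨i, h⟩ else 1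

theorem fam_aff (C : Fin (n + 1) → ℝ) (x : E n) : fam aff C x =
    inner ℝ x (WithLp.toLp 2 (fun j : Fin n => C (Fin.castSucc j)) : E n) + C (Fin.last n) := by
  rw [inner_sum]
  unfold fam aff
  rw [Fin.sum_univ_castSucc]
  simp [mul_comm]

theorem fam_append {d e : ℕ} (φ : Fin d → E n → ℝ) (ψ : Fin e → E n → ℝ) (a : Fin d → ℝ)
    (b : Fin e → ℝ) (x : E n) :
    fam (Fin.append φ ψ) (Fin.append a b) x = fam φ a x + fam ψ b x := by
  unfold fam
  rw [Fin.sum_univ_add]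
  simp only [Fin.append_left, Fin.append_right]

theorem append_split' {d e : ℕ} (c : Fin (d + e) → ℝ) : ∃ (a : Fin d → ℝ) (b : Fin e → ℝ),
    c = Fin.append a b :=
  ⟨fun i => c (Fin.castAdd e i), fun i => c (Fin.natAdd d i), by
    funext i
    refine Fin.addCases (fun j => ?_) (fun j => ?_) i
    · rw [Fin.append_left]
    · rw [Fin.append_right]⟩

theorem abs_coord_le {x : E n} (hx : ‖x‖ = 1) (j : Fin n) : |x j| ≤ 1 := by
  have h := EuclideanSpace.norm_sq_eq x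
  rw [hx, one_pow] at h
  have h2 : ‖x j‖ ^ 2 ≤ ∑ i, ‖x i‖ ^ 2 :=
    Finset.single_le_sum (f := fun i => ‖x i‖ ^ 2) (fun i _ => by positivity) (Finset.mem_univ j)
  rw [← h, Real.norm_eq_abs, sq_abs] at h2
  rw [← sq_abs] at h2
  nlinarith [abs_nonneg (x j)]

theorem abs_aff_le {x : E n} (hx : ‖x‖ = 1) (i : Fin (n + 1)) : |aff i x| ≤ 1 := by
  unfold aff
  split_ifs with h
  · exact abs_coord_le hx _
  · simp

/-- the class of the families extended by the affine functions -/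
def cls {d : ℕ} (m : ℕ) (c : ℝ) (B : ℕ → ℝ) (Φ : Fin (d + (n + 1)) → E n → ℝ) : Prop :=
  ∃ φ : Fin d → E n → ℝ, FinType m c B φ ∧ Φ = Fin.append φ aff

theorem continuous_aff (i : Fin (n + 1)) : Continuous (aff i) := by
  unfold aff
  split_ifs with h
  · fun_prop
  · fun_prop

theorem cls_meas {d m : ℕ} {c : ℝ} {B : ℕ → ℝ} {Φ : Fin (d + (n + 1)) → E n → ℝ} (h : cls m c B Φ)
    (j : Fin (d + (n + 1))) : Continuous (Φ j) := by
  obtain ⟨φ, hφ, rfl⟩ := h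
  refine Fin.addCases (fun i => ?_) (fun i => ?_) j
  · rw [Fin.append_left]
    exact (hφ.1 i).continuous
  · rw [Fin.append_right]
    exact continuous_aff i

theorem abs_fam_le {d : ℕ} {φ : Fin d → E n → ℝ} {M : ℝ} {x : E n} (h : ∀ j, |φ j x| ≤ M)
    (a : Fin d → ℝ) : |fam φ a x| ≤ d * M * ‖a‖ := by
  unfold fam
  refine (Finset.abs_sum_le_sum_abs _ _).trans ?_
  have h2 : ∀ j ∈ (Finset.univ : Finset (Fin d)), |a j * φ j x| ≤ M * ‖a‖ := by
    intro j _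
    rw [abs_mul, mul_comm]
    exact mul_le_mul (h j) (norm_le_pi_norm a j) (abs_nonneg _) ((abs_nonneg _).trans (h j))
  refine (Finset.sum_le_sum h2).trans ?_
  rw [Finset.sum_const, Finset.card_univ, Fintype.card_fin, nsmul_eq_mul]
  exact le_of_eq (by ring)

end FT

end Pool.Agent.VANn
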