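import Pool.Agent.VANn.FTH

/-!
Families of finite type: the uniform restriction estimate, with cuts.
-/

set_option autoImplicit false

namespace Pool.Agent.VANn

open MeasureTheory Set Metric Pool.Agent.MP_6cbfb8_an Pool.Agent.VAN
open scoped ENNReal Real

variable {n : ℕ}

namespace FT

theorem XX_iter_add_const (u v : E n) (g : E n → ℝ) (r : ℝ) {k : ℕ} (hk : 1 ≤ k) :
    (XX u v)^[k] (fun y => g y + r) = (XX u v)^[k] g := by
  obtain ⟨j, rfl⟩ : ∃ j, k = j + 1 := ⟨k - 1, by omega⟩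
  rw [Function.iterate_succ_apply, Function.iterate_succ_apply]
  congr 1
  funext y
  unfold XX
  rw [fderiv_add_const]

theorem J_add_const (j : ℕ) (g : E n → ℝ) (r : ℝ) (y : E n) : J j (fun y => g y + r) y = J j g y := by
  unfold J
  refine Finset.sum_congr rfl fun i _ => ?_
  rw [← norm_iteratedFDeriv_fderiv, ← norm_iteratedFDeriv_fderiv]
  have : fderiv ℝ (fun y => g y + r) = fderiv ℝ g := funext fun y => fderiv_add_const r
  rw [this]

/-- sublevel sets of the extended families -/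
theorem cls_sub (hn : 2 ≤ n) {d : ℕ} (m : ℕ) (c : ℝ) (hc : 0 < c) (B : ℕ → ℝ) :
    ∃ K κ : ℝ, 0 ≤ K ∧ 0 < κ ∧ ∀ Φ : Fin (d + (n + 1)) → E n → ℝ, cls m c B Φ →
      ∀ C : Fin (d + (n + 1)) → ℝ, ‖C‖ = 1 → ∀ δ : ℝ, 0 ≤ δ →
        sm n {x : S n | |fam Φ C x| ≤ δ} ≤ ENNReal.ofReal (K * δ ^ κ) := by
  rcases Nat.eq_zero_or_pos m with rfl | hm
  · refine ⟨0, 1, le_rfl, one_pos, fun Φ hΦ => ?_⟩
    obtain ⟨φ, hφ, -⟩ := hΦ
    exact absurd ((hφ.2.2 0).pos hn) (by norm_num)
  have hm0 : (0 : ℝ) < m := by exact_mod_cast hm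
  have hm1 : (1 : ℝ) ≤ m := by exact_mod_cast hm
  have hn2 : (2 : ℝ) ≤ n := by exact_mod_cast hn
  set M : ℝ := d * |B 0| + n with hM
  have hM0 : 2 ≤ M := by
    have : 0 ≤ d * |B 0| := by positivity
    linarith
  set θ : ℝ := 1 / (2 * M) with hθ
  have hθ0 : 0 < θ := by positivity
  have hθM : M * θ = 1 / 2 := by
    rw [hθ]
    field_simp
  have hθ1 : θ < 1 := by
    rw [hθ, div_lt_one (by positivity)]
    linarith
  set B' : ℝ := (m + 1 : ℕ) * (d * ∑ k ∈ Finset.range (m + 2), |B k|) + n with hB'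
  have hB'0 : 0 ≤ B' := by positivity
  obtain ⟨K, hK, H⟩ := sub_unif hn m (c := c * θ) (B := B') (by positivity) hB'0
  set σ : ℝ := (sm n).real univ with hσ
  have hσ0 : 0 ≤ σ := measureReal_nonneg
  refine ⟨K + 2 * σ, 1 / (m : ℝ), by positivity, by positivity, ?_⟩
  rintro Φ ⟨φ, hφ, rfl⟩ C hC δ hδ
  obtain ⟨a, b, rfl⟩ := append_split' C
  set ζ : E n := WithLp.toLp 2 (fun j : Fin n => b (Fin.castSucc j)) with hζ
  have hζj : ∀ j : Fin n, ζ j = b (Fin.castSucc j) := fun j => rfl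
  have hfam : ∀ x : E n, fam (Fin.append φ aff) (Fin.append a b) x =
      fam φ a x + inner ℝ x ζ + b (Fin.last n) := by
    intro x
    rw [fam_append, fam_aff]
    ring
  have hna : ‖a‖ ≤ 1 := by
    refine (pi_norm_le_iff_of_nonneg zero_le_one).2 fun j => ?_
    have h1 := norm_le_pi_norm (Fin.append a b) (Fin.castAdd (n + 1) j)
    rwa [Fin.append_left, hC] at h1
  have hnb : ∀ j, |b j| ≤ 1 := by
    intro j
    have h1 := norm_le_pi_norm (Fin.append a b) (Fin.natAdd d j)
    rwa [Fin.append_right, hC] at h1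
  have hsumle : ∀ r : ℝ, (∀ j, |ζ j| ≤ r) → ‖ζ‖ ≤ n * r := by
    intro r hr
    refine (norm_le_sum ζ).trans ((Finset.sum_le_sum fun i _ => hr i).trans ?_)
    rw [Finset.sum_const, Finset.card_univ, Fintype.card_fin, nsmul_eq_mul]
  have hnζ : ‖ζ‖ ≤ n := by
    have h1 := hsumle 1 fun j => by
      rw [hζj]
      exact hnb _
    rwa [mul_one] at h1
  by_cases hcase : ‖a‖ < θ ∧ ∀ j : Fin n, |ζ j| < θ
  · -- the constant dominates
    obtain ⟨ha, hz⟩ := hcase
    have hb3 : 1 ≤ |b (Fin.last n)| := by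
      by_contra hcon
      push Not at hcon
      have h1 : ‖Fin.append a b‖ < 1 := by
        refine (pi_norm_lt_iff one_pos).2 fun i => ?_
        refine Fin.addCases (fun j => ?_) (fun j => ?_) i
        · rw [Fin.append_left]
          exact (norm_le_pi_norm a j).trans_lt (ha.trans hθ1)
        · rw [Fin.append_right, Real.norm_eq_abs]
          refine Fin.lastCases ?_ (fun j => ?_) j
          · exact hcon
          · rw [← hζj]
            exact (hz j).trans hθ1
      rw [hC] at h1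
      exact lt_irrefl _ h1
    have hlow : ∀ x : S n, 1 / 2 ≤ |fam (Fin.append φ aff) (Fin.append a b) x| := by
      intro x
      have hx1 : ‖(x : E n)‖ = 1 := mem_sphere_zero_iff_norm.1 x.2
      rw [hfam]
      have h1 : |fam φ a x| ≤ d * |B 0| * ‖a‖ := abs_fam_le (fun j => by
        have h2 := hφ.2.1 j 0 x (by rw [hx1]; norm_num)
        rw [norm_iteratedFDeriv_zero] at h2
        exact h2.trans (le_abs_self _)) a
      have h2 : |inner ℝ (x : E n) ζ| ≤ n * θ := by
        refine (abs_real_inner_le_norm _ _).trans ?_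
        rw [hx1, one_mul]
        exact hsumle θ fun j => (hz j).le
      have h3 : d * |B 0| * ‖a‖ ≤ d * |B 0| * θ := mul_le_mul_of_nonneg_left ha.le (by positivity)
      have h4 : |fam φ a x + inner ℝ (x : E n) ζ| ≤ 1 / 2 := by
        refine (abs_add_le _ _).trans ?_
        have h5 : d * |B 0| * θ + n * θ = 1 / 2 := by
          rw [← hθM, hM]
          ring
        linarith
      have h5 : |b (Fin.last n)| - |fam φ a x + inner ℝ (x : E n) ζ| ≤
          |fam φ a x + inner ℝ (x : E n) ζ + b (Fin.last n)| := by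
        have h6 := abs_sub_abs_le_abs_sub (b (Fin.last n)) (-(fam φ a x + inner ℝ (x : E n) ζ))
        rw [abs_neg] at h6
        refine h6.trans (le_of_eq ?_)
        congr 1
        ring
      linarith
    rcases lt_or_ge δ (1 / 2) with hd | hd
    · have h1 : {x : S n | |fam (Fin.append φ aff) (Fin.append a b) x| ≤ δ} = ∅ := by
        ext x
        simp only [mem_ofPred_eq, mem_empty_iff_false, iff_false, not_le]
        exact hd.trans_le (hlow x)
      rw [h1, measure_empty]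
      exact zero_le
    · refine (measure_mono (subset_univ _)).trans ?_
      rw [← ofReal_measureReal]
      apply ENNReal.ofReal_le_ofReal
      have h1 : (1 / 2 : ℝ) ≤ δ ^ (1 / (m : ℝ)) := by
        calc (1 / 2 : ℝ) = (1 / 2) ^ (1 : ℝ) := (Real.rpow_one _).symm
          _ ≤ (1 / 2) ^ (1 / (m : ℝ)) := by
              refine Real.rpow_le_rpow_of_exponent_ge (by norm_num) (by norm_num) ?_
              rw [div_le_one hm0]
              exact hm1
          _ ≤ δ ^ (1 / (m : ℝ)) := Real.rpow_le_rpow (by norm_num) hd (by positivity)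
      have h2 : (sm n).real univ = σ := rfl
      rw [h2]
      nlinarith [mul_nonneg hK (le_trans (by norm_num) h1 : (0:ℝ) ≤ δ ^ (1 / (m : ℝ))),
        mul_le_mul_of_nonneg_left h1 hσ0]
  · -- nonflat
    have hge : θ ≤ ‖a‖ + ‖ζ‖ := by
      by_cases ha : ‖a‖ < θ
      · have h1 : ∃ j : Fin n, θ ≤ |ζ j| := by
          by_contra hcon
          push Not at hcon
          exact hcase ⟨ha, hcon⟩
        obtain ⟨j, hj⟩ := h1
        have h2 : |ζ j| ≤ ‖ζ‖ := by
          have h3 := PiLp.norm_apply_le ζ j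
          rwa [Real.norm_eq_abs] at h3
        have := norm_nonneg a
        linarith
      · push Not at ha
        have := norm_nonneg ζ
        linarith
    have hset : {x : S n | |fam (Fin.append φ aff) (Fin.append a b) x| ≤ δ} =
        {x : S n | |(fun y : E n => (fam φ a y + inner ℝ y ζ) + b (Fin.last n)) x| ≤ δ} := by
      ext x
      simp only [mem_ofPred_eq]
      rw [hfam]
    rw [hset]
    have hinner : ContDiff ℝ (m + 1 : ℕ) (fun y : E n => inner ℝ y ζ) :=
      contDiff_id.inner ℝ contDiff_const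
    have hfa := fam_contDiff hφ.1 a (m + 1)
    refine (H (fun y : E n => (fam φ a y + inner ℝ y ζ) + b (Fin.last n))
      ((hfa.add hinner).add contDiff_const) ?_ ?_ δ hδ).trans ?_
    · intro z hz
      rw [J_add_const]
      have h2 := J_add (m + 1) hfa hinner z
      have h3 := J_inner (m + 1) ζ z
      have h4 : J (m + 1) (fam φ a) z ≤ (m + 1 : ℕ) * (d * ∑ k ∈ Finset.range (m + 2), |B k|) := by
        unfold J
        have h5 : ∀ i ∈ Finset.range (m + 1), ‖iteratedFDeriv ℝ (i + 1) (fam φ a) z‖ ≤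
            d * ∑ k ∈ Finset.range (m + 2), |B k| := by
          intro i hi
          have hi' := Finset.mem_range.1 hi
          refine (fam_iter_le hφ.1 hφ.2.1 a (i + 1) (by linarith : ‖z‖ ≤ 2)).trans ?_
          have h6 : |B (i + 1)| ≤ ∑ k ∈ Finset.range (m + 2), |B k| :=
            Finset.single_le_sum (f := fun k => |B k|) (fun i _ => abs_nonneg _)
              (Finset.mem_range.2 (by omega))
          calc d * |B (i + 1)| * ‖a‖ ≤ d * |B (i + 1)| * 1 :=
                mul_le_mul_of_nonneg_left hna (by positivity)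
            _ = d * |B (i + 1)| := mul_one _
            _ ≤ _ := mul_le_mul_of_nonneg_left h6 (Nat.cast_nonneg _)
        refine (Finset.sum_le_sum h5).trans ?_
        rw [Finset.sum_const, Finset.card_range, nsmul_eq_mul]
      have h7 : (fam φ a + fun y : E n => inner ℝ y ζ) = fun y => fam φ a y + inner ℝ y ζ := rfl
      rw [h7] at h2
      linarith
    · intro x hx
      obtain ⟨u, v, huv, k, hk1, hkm, hk2⟩ := hφ.2.2 a x ζ hx
      refine ⟨u, v, huv, k, hk1, hkm, ?_⟩
      rw [XX_iter_add_const u v _ _ hk1]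
      exact (mul_le_mul_of_nonneg_left hge hc.le).trans hk2
    · apply ENNReal.ofReal_le_ofReal
      have : 0 ≤ δ ^ (1 / (m : ℝ)) := by positivity
      nlinarith

/-- extended families, with cuts -/
theorem cls_cuts (hn : 2 ≤ n) {p0 : ℝ} (hp0 : 1 ≤ p0) (HL : LossS n p0) {d : ℕ} (m : ℕ) (c : ℝ)
    (hc : 0 < c) (B : ℕ → ℝ) (N : ℕ) (p : ℝ) (hp : p0 < p) :
    ∃ C : ℝ≥0∞, C ≠ ∞ ∧ ∀ Φ : Fin (d + (n + 1)) → E n → ℝ, cls m c B Φ →
      ∀ (a : Fin (d + (n + 1)) → ℝ) (b : Fin N → Fin (d + (n + 1)) → ℝ),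
        ∫⁻ ξ, ‖extn (famc Φ a b) ξ‖ₑ ^ p ≤ C := by
  refine VAN.FT.cuts p0 hp0 (cls := cls m c B) (fun Φ hΦ j => (cls_meas hΦ j).measurable) ?_
    (cls_sub hn m c hc B) ?_ N p hp
  · refine ⟨|B 0| + 1, ?_⟩
    rintro Φ ⟨φ, hφ, rfl⟩ j x hx
    refine Fin.addCases (fun i => ?_) (fun i => ?_) j
    · rw [Fin.append_left]
      have h2 := hφ.2.1 i 0 x (by rw [hx]; norm_num)
      rw [norm_iteratedFDeriv_zero] at h2
      rw [Real.norm_eq_abs] at h2
      linarith [le_abs_self (B 0)]
    · rw [Fin.append_right]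
      linarith [abs_aff_le hx i, abs_nonneg (B 0)]
  · intro q hq
    obtain ⟨C, hC, H⟩ := fin_nocut hn (by linarith) HL (d := d) m c hc B q hq
    refine ⟨C, hC, ?_⟩
    rintro Φ ⟨φ, hφ, rfl⟩ C'
    obtain ⟨a, b, rfl⟩ := append_split' C'
    have h2 := lint_phase (fun _ => 1) (φ := fam (Fin.append φ aff) (Fin.append a b))
      (φ' := fam φ a) (ζ := WithLp.toLp 2 (fun j : Fin n => b (Fin.castSucc j))) (c := b (Fin.last n))
      (fun x _ => by
        rw [fam_append, fam_aff]
        ring) q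
    simp only [mul_one] at h2
    rw [h2]
    exact H φ hφ a

/-- **The uniform estimate for families of finite type, with cuts.** -/
theorem fin_bound (hn : 2 ≤ n) {p0 : ℝ} (hp0 : 1 ≤ p0) (HL : LossS n p0) {d : ℕ} (N m : ℕ) (c : ℝ)
    (hc : 0 < c) (B : ℕ → ℝ) (p : ℝ) (hp : p0 < p) :
    ∃ C : ℝ≥0∞, C ≠ ∞ ∧ ∀ φ : Fin d → E n → ℝ, FinType m c B φ →
      ∀ (a : Fin d → ℝ) (b : Fin N → Fin d → ℝ) (ζ : Fin N → E n) (κ : Fin N → ℝ),
        ∫⁻ ξ, ‖extn (famA φ a b ζ κ) ξ‖ₑ ^ p ≤ C := by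
  obtain ⟨C, hC, H⟩ := cls_cuts hn hp0 HL (d := d) m c hc B N p hp
  refine ⟨C, hC, fun φ hφ a b ζ κ => ?_⟩
  have h := H (Fin.append φ aff) ⟨φ, hφ, rfl⟩ (Fin.append a 0)
    (fun i => Fin.append (b i) (Fin.snoc (fun j : Fin n => ζ i j) (κ i)))
  refine le_trans (le_of_eq ?_) h
  refine lintegral_congr fun ξ => ?_
  congr 3
  funext x
  unfold famA famc
  have h0 : fam (Fin.append φ aff) (Fin.append a 0) x = fam φ a x := by
    rw [fam_append]
    have : fam aff (0 : Fin (n + 1) → ℝ) x = 0 := by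
      unfold fam
      simp
    rw [this, add_zero]
  rw [h0]
  congr 1
  refine Finset.prod_congr rfl fun i _ => ?_
  have h1 : fam (Fin.append φ aff) (Fin.append (b i) (Fin.snoc (fun j : Fin n => ζ i j) (κ i))) x =
      fam φ (b i) x + inner ℝ x (ζ i) + κ i := by
    rw [fam_append, fam_aff]
    have e1 : (WithLp.toLp 2 (fun j : Fin n =>
        (Fin.snoc (fun j : Fin n => ζ i j) (κ i) : Fin (n + 1) → ℝ) (Fin.castSucc j)) : E n) = ζ i := by
      ext j
      simp
    have e2 : (Fin.snoc (fun j : Fin n => ζ i j) (κ i) : Fin (n + 1) → ℝ) (Fin.last n) = κ i :=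
      Fin.snoc_last (α := fun _ => ℝ) (κ i) (fun j : Fin n => ζ i j)
    rw [e1, e2]
    ring
  rw [h1]

end FT

end Pool.Agent.VANn
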