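import Pool.Agent.VANn.RD
import Pool.Agent.VANn.N1
import Pool.Agent.VAN.E0
import Pool.Agent.VAN.F
import Pool.Agent.VAN.G
import Pool.Agent.VAN.H2

/-!
The restriction theorem for the unit sphere of `R^n` for the phases and cuts in a finite-dimensional
space of smooth functions without flat points, over the estimate with a small loss in the
coefficients.
-/

namespace Pool.Agent.VANn

open MeasureTheory Set Filter Topology Pool.Agent.MP_6cbfb8_an Pool.Agent.VAN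
open scoped ENNReal Real

variable {n : ℕ}

/-- The estimate with a small loss for the phases of a family, in the range `p > p0`. -/
def Loss {d : ℕ} (p0 : ℝ) (φ : Fin d → E n → ℝ) : Prop :=
  ∀ p : ℝ, p0 < p → ∀ ε : ℝ, 0 < ε → ∃ C : ℝ≥0∞, C ≠ ∞ ∧ ∀ c : Fin d → ℝ,
    ∫⁻ ξ, ‖extn (fun x => Complex.exp (((fam φ c x : ℝ) : ℂ) * Complex.I)) ξ‖ₑ ^ p ≤
      C * ENNReal.ofReal ((1 + ‖c‖) ^ ε)

/-- A combination of a sub-family is a combination of the family. -/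
lemma fam_sub {d k : ℕ} (φ : Fin d → E n → ℝ) (σ : Fin k → Fin d)
    (a : Fin k → ℝ) : ∃ b : Fin d → ℝ, (∀ x, fam (fun j => φ (σ j)) a x = fam φ b x) ∧
      ‖b‖ ≤ k * ‖a‖ := by
  classical
  refine ⟨fun i => ∑ j, if σ j = i then a j else 0, fun x => ?_, ?_⟩
  · unfold fam
    simp_rw [Finset.sum_mul]
    rw [Finset.sum_comm]
    refine Finset.sum_congr rfl fun j _ => ?_
    rw [Finset.sum_eq_single (σ j)]
    · simp
    · intro i _ hi
      rw [if_neg (Ne.symm hi), zero_mul]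
    · intro hj
      exact absurd (Finset.mem_univ _) hj
  · refine (pi_norm_le_iff_of_nonneg (by positivity)).2 fun i => ?_
    refine (norm_sum_le _ _).trans ?_
    have h1 : ∀ j ∈ (Finset.univ : Finset (Fin k)), ‖(if σ j = i then a j else 0 : ℝ)‖ ≤ ‖a‖ := by
      intro j _
      split_ifs
      · exact norm_le_pi_norm a j
      · rw [norm_zero]
        exact norm_nonneg _
    refine (Finset.sum_le_card_nsmul _ _ _ h1).trans ?_
    rw [Finset.card_univ, Fintype.card_fin, nsmul_eq_mul]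

/-- Sub-families of nonflat families are nonflat. -/
lemma Nonflat.sub {d k : ℕ} {φ : Fin d → E n → ℝ} (hφ : Nonflat φ) (σ : Fin k → Fin d) :
    Nonflat fun j => φ (σ j) := by
  refine ⟨fun j => hφ.1 (σ j), fun a ζ x hx hfl y hy => ?_⟩
  obtain ⟨b, hb, _⟩ := fam_sub φ σ a
  have h1 : (fun y => fam (fun j => φ (σ j)) a y + inner ℝ y ζ) =
      fun y => fam φ b y + inner ℝ y ζ := by
    funext y
    rw [hb y]
  rw [h1] at hfl
  rw [hb y, hb x]
  exact hφ.2 b ζ x hx hfl y hy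

/-- The estimate with a small loss passes to sub-families. -/
lemma Loss.sub {d k : ℕ} {p0 : ℝ} {φ : Fin d → E n → ℝ} (hφ : Loss p0 φ) (σ : Fin k → Fin d) :
    Loss p0 fun j => φ (σ j) := by
  intro p hp ε hε
  obtain ⟨C, hC, h⟩ := hφ p hp ε hε
  refine ⟨C * ENNReal.ofReal ((1 + k : ℝ) ^ ε), ENNReal.mul_ne_top hC ENNReal.ofReal_ne_top,
    fun a => ?_⟩
  obtain ⟨b, hb, hab⟩ := fam_sub φ σ a
  have h1 : fam (fun j => φ (σ j)) a = fam φ b := funext hb
  rw [h1]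
  refine (h b).trans ?_
  rw [mul_assoc, ← ENNReal.ofReal_mul (by positivity)]
  gcongr
  rw [← Real.mul_rpow (by positivity) (by positivity)]
  refine Real.rpow_le_rpow (by positivity) ?_ hε.le
  have h2 : (0:ℝ) ≤ k := Nat.cast_nonneg k
  have h3 := norm_nonneg a
  nlinarith

lemma smooth_fam_aff {d : ℕ} {φ : Fin d → E n → ℝ}
    (hs : ∀ j, ∀ x ∈ Metric.sphere (0 : E n) 1, ContDiffAt ℝ ((⊤ : ℕ∞) : WithTop ℕ∞) (φ j) x)
    (a : Fin d → ℝ) (ζ : E n) : ∀ x ∈ Metric.sphere (0 : E n) 1,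
      ContDiffAt ℝ ((⊤ : ℕ∞) : WithTop ℕ∞) (fun y => fam φ a y + inner ℝ y ζ) x := by
  intro x hx
  unfold fam
  refine ContDiffAt.add (ContDiffAt.sum fun j _ => contDiffAt_const.mul (hs j x hx)) ?_
  exact contDiffAt_id.inner ℝ contDiffAt_const

/-- Decay in the coefficients and the estimate with a small loss give the estimate without loss. -/
theorem noloss {d : ℕ} {p0 : ℝ} (hp0 : 0 ≤ p0) (φ : Fin d → E n → ℝ) (hl : Loss p0 φ)
    {K κ : ℝ} (hK : 0 ≤ K) (hκ : 0 < κ) (hdec : ∀ (c : Fin d → ℝ) (ξ : E n),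
      ‖extn (fun x => Complex.exp (((fam φ c x : ℝ) : ℂ) * Complex.I)) ξ‖ ≤
        K * (1 + ‖c‖) ^ (-κ)) (p : ℝ) (hp : p0 < p) :
    ∃ C : ℝ≥0∞, C ≠ ∞ ∧ ∀ c : Fin d → ℝ,
      ∫⁻ ξ, ‖extn (fun x => Complex.exp (((fam φ c x : ℝ) : ℂ) * Complex.I)) ξ‖ₑ ^ p ≤ C := by
  set p1 : ℝ := (p0 + p) / 2 with hp1
  have h01 : p0 < p1 := by rw [hp1]; linarith
  have h1p : p1 < p := by rw [hp1]; linarith
  have hkp : 0 < κ * (p - p1) := mul_pos hκ (by linarith)
  obtain ⟨C, hC, h⟩ := hl p1 h01 (κ * (p - p1)) hkp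
  refine ⟨ENNReal.ofReal (K ^ (p - p1)) * C, ENNReal.mul_ne_top ENNReal.ofReal_ne_top hC,
    fun c => ?_⟩
  have hL : 0 < 1 + ‖c‖ := by positivity
  have h1 := interp_set (volume : Measure (E n)) (p1 := p1) (p := p) (M := K * (1 + ‖c‖) ^ (-κ))
    (by linarith) h1p.le
    (extn (fun x => Complex.exp (((fam φ c x : ℝ) : ℂ) * Complex.I))) univ MeasurableSet.univ
    (by positivity) (fun ξ _ => hdec c ξ)
  rw [Measure.restrict_univ] at h1
  refine h1.trans ?_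
  have h2 : (K * (1 + ‖c‖) ^ (-κ)) ^ (p - p1) = K ^ (p - p1) * (1 + ‖c‖) ^ (-(κ * (p - p1))) := by
    rw [Real.mul_rpow hK (by positivity), ← Real.rpow_mul hL.le]
    congr 2
    ring
  calc ENNReal.ofReal ((K * (1 + ‖c‖) ^ (-κ)) ^ (p - p1)) *
        ∫⁻ ξ, ‖extn (fun x => Complex.exp (((fam φ c x : ℝ) : ℂ) * Complex.I)) ξ‖ₑ ^ p1
      ≤ ENNReal.ofReal (K ^ (p - p1) * (1 + ‖c‖) ^ (-(κ * (p - p1)))) *
        (C * ENNReal.ofReal ((1 + ‖c‖) ^ (κ * (p - p1)))) := by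
        rw [h2]
        gcongr
        exact h c
    _ = ENNReal.ofReal (K ^ (p - p1)) * C * (ENNReal.ofReal ((1 + ‖c‖) ^ (-(κ * (p - p1)))) *
        ENNReal.ofReal ((1 + ‖c‖) ^ (κ * (p - p1)))) := by
        rw [ENNReal.ofReal_mul (by positivity)]
        ring
    _ = ENNReal.ofReal (K ^ (p - p1)) * C := by
        rw [← ENNReal.ofReal_mul (by positivity), ← Real.rpow_add hL, neg_add_cancel,
          Real.rpow_zero, ENNReal.ofReal_one, mul_one]

/-- Nonflat families which are independent modulo affine functions, no cuts. -/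
theorem main_indep_nf (hn : 2 ≤ n) {d : ℕ} {p0 : ℝ} (hp0 : 0 ≤ p0) (φ : Fin d → E n → ℝ)
    (hφ : Nonflat φ) (hl : Loss p0 φ)
    (hi : ∀ (a : Fin d → ℝ) (ζ : E n) (c : ℝ),
      (∀ x : E n, ‖x‖ = 1 → fam φ a x + inner ℝ x ζ = c) → a = 0) (p : ℝ) (hp : p0 < p) :
    ∃ C : ℝ≥0∞, C ≠ ∞ ∧ ∀ c : Fin d → ℝ,
      ∫⁻ ξ, ‖extn (fun x => Complex.exp (((fam φ c x : ℝ) : ℂ) * Complex.I)) ξ‖ₑ ^ p ≤ C := by
  have hnf : ∀ (a : Fin d → ℝ) (ζ : E n), (a ≠ 0 ∨ ζ ≠ 0) → ∀ x : E n, ‖x‖ = 1 →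
      ∃ q, ON q ∧ ∃ k, 1 ≤ k ∧ (dR q)^[k] (fun y => fam φ a y + inner ℝ y ζ) x ≠ 0 := by
    intro a ζ hne x hx
    by_contra hcon
    have h1 : ∀ q, ON q → ∀ k, 1 ≤ k → (dR q)^[k] (fun y => fam φ a y + inner ℝ y ζ) x = 0 := by
      intro q hq k hk
      by_contra h2
      exact hcon ⟨q, hq, k, hk, h2⟩
    have h2 := hφ.2 a ζ x hx (flat_of_dR hn (smooth_fam_aff hφ.1 a ζ) hx h1)
    have ha : a = 0 := hi a ζ _ h2
    subst ha
    have h3 : ∀ y : E n, ‖y‖ = 1 → inner ℝ y ζ = inner ℝ x ζ := by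
      intro y hy
      have := h2 y hy
      simpa [fam] using this
    have h4 : ∀ y : E n, ‖y‖ = 1 → inner ℝ y ζ = (0 : ℝ) := by
      intro y hy
      have h5 := h3 y hy
      have h6 := h3 (-y) (by rw [norm_neg, hy])
      rw [inner_neg_left] at h6
      linarith
    rcases hne with h | h
    · exact h rfl
    · have h5 := h4 (‖ζ‖⁻¹ • ζ)
        (by rw [norm_smul, norm_inv, norm_norm, inv_mul_cancel₀ (norm_ne_zero_iff.2 h)])
      rw [real_inner_smul_left, real_inner_self_eq_norm_sq] at h5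
      have h6 : ‖ζ‖ ≠ 0 := norm_ne_zero_iff.2 h
      rcases mul_eq_zero.1 h5 with h7 | h7
      · exact h6 (inv_eq_zero.1 h7)
      · exact h6 (pow_eq_zero_iff two_ne_zero |>.1 h7)
  obtain ⟨K, κ, hK, hκ, hdec⟩ := decay_extn_nf φ hφ.1 hnf
  refine noloss hp0 φ hl hK hκ (fun c ξ => (hdec c ξ).trans ?_) p hp
  have h1 := norm_nonneg c
  have h2 := norm_nonneg ξ
  refine mul_le_mul_of_nonneg_left ?_ hK
  exact Real.rpow_le_rpow_of_nonpos (by linarith) (by linarith) (by linarith)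

/-- Nonflat families, no cuts. -/
theorem main_nocut_nf (hn : 2 ≤ n) {d : ℕ} {p0 : ℝ} (hp0 : 0 ≤ p0) (φ : Fin d → E n → ℝ)
    (hφ : Nonflat φ) (hl : Loss p0 φ) (p : ℝ) (hp : p0 < p) :
    ∃ C : ℝ≥0∞, C ≠ ∞ ∧ ∀ c : Fin d → ℝ,
      ∫⁻ ξ, ‖extn (fun x => Complex.exp (((fam φ c x : ℝ) : ℂ) * Complex.I)) ξ‖ₑ ^ p ≤ C := by
  obtain ⟨k, σ, _, hind, L, hL⟩ := reduce_aff φ
  obtain ⟨C, hC, h⟩ := main_indep_nf hn hp0 (fun j => φ (σ j)) (hφ.sub σ) (hl.sub σ)
    (fun a ζ c hac => hind a ζ c fun x hx => hac x (by simpa using hx)) p hp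
  refine ⟨C, hC, fun c => ?_⟩
  obtain ⟨ζ, c0, h1⟩ := hL c
  have h2 := lint_phase (fun _ => 1) (φ := fam φ c) (φ' := fam (fun j => φ (σ j)) (L c))
    (ζ := ζ) (c := c0) (fun x hx => h1 x hx) p
  simp only [mul_one] at h2
  rw [h2]
  exact h (L c)

/-- Every nonflat family, with cuts. -/
theorem main_nf (hn : 2 ≤ n) {d : ℕ} {p0 : ℝ} (hp0 : 1 ≤ p0) (φ : Fin d → E n → ℝ)
    (hφ : Nonflat φ) (hl : Loss p0 φ) (N : ℕ) (p : ℝ) (hp : p0 < p) :
    ∃ C : ℝ≥0∞, C ≠ ∞ ∧ ∀ (c : Fin d → ℝ) (cs : Fin N → Fin d → ℝ),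
      ∫⁻ ξ, ‖extn (famc φ c cs) ξ‖ₑ ^ p ≤ C := by
  obtain ⟨k, σ, _, hind, L, hL⟩ := reduce_zero φ
  have hsub' : Nonflat fun j => φ (σ j) := hφ.sub σ
  have hcn : ∀ j, ContinuousOn (φ (σ j)) (Metric.sphere (0 : E n) 1) := fun j x hx =>
    (hφ.1 (σ j) x hx).continuousAt.continuousWithinAt
  have hr : ∀ (a : Fin k → ℝ) (x : E n), ‖x‖ = 1 →
      fam (fun j => rS (φ (σ j))) a x = fam (fun j => φ (σ j)) a x := fun a x hx =>
    G_fam_rS (fun j => φ (σ j)) a hx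
  have hb : ∃ K : ℝ, ∀ j : Fin k, ∀ x : E n, ‖x‖ = 1 → |rS (φ (σ j)) x| ≤ K := by
    have hK : ∀ j : Fin k, ∃ K : ℝ, ∀ x : E n, ‖x‖ = 1 → |rS (φ (σ j)) x| ≤ K := by
      intro j
      obtain ⟨K, hK⟩ := (isCompact_sphere (0 : E n) 1).exists_bound_of_continuousOn (hcn j)
      refine ⟨K, fun x hx => ?_⟩
      unfold rS
      rw [if_pos hx]
      simpa using hK x (by simpa using hx)
    choose K hK using hK
    refine ⟨∑ j, |K j|, fun j x hx => (hK j x hx).trans ((le_abs_self _).trans ?_)⟩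
    exact Finset.single_le_sum (f := fun j => |K j|) (fun i _ => abs_nonneg _) (Finset.mem_univ j)
  obtain ⟨K, κ, hK, hκ, hsub⟩ := sublevel_nf (fun j => φ (σ j)) hsub'.1 (by
    intro a ha x hx
    by_contra hcon
    have h1 : ∀ q, ON q → ∀ k, (dR q)^[k] (fam (fun j => φ (σ j)) a) x = 0 := by
      intro q hq k
      by_contra h2
      exact hcon ⟨q, hq, k, h2⟩
    have h0 : (fun y => fam (fun j => φ (σ j)) a y + inner ℝ y (0 : E n)) =
        fam (fun j => φ (σ j)) a := by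
      funext y
      rw [inner_zero_right, add_zero]
    have hfl : Flat (fun y => fam (fun j => φ (σ j)) a y + inner ℝ y (0 : E n)) x :=
      flat_of_dR hn (smooth_fam_aff hsub'.1 a 0) hx (by
        intro q hq k _
        rw [h0]
        exact h1 q hq k)
    have h2 := hsub'.2 a 0 x hx hfl
    refine ha (hind a fun y hy => ?_)
    have h3 := h2 y (by simpa using hy)
    rw [inner_zero_right, add_zero, inner_zero_right, add_zero] at h3
    obtain ⟨q, hq, _⟩ := exists_rot hn (x := x) (y := x) (by simpa using hx) (by simpa using hx)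
    have h4 := h1 q hq 0
    rw [Function.iterate_zero, id] at h4
    exact h3.trans h4)
  obtain ⟨C, hC, h⟩ := cuts p0 hp0 (fun j => rS (φ (σ j)))
    (fun j => G_meas_rS (hcn j)) hb
    ⟨K, κ, hK, hκ, fun c hc δ hδ => by
      have h1 : {x : S n | |fam (fun j => rS (φ (σ j))) c x| ≤ δ} =
          {x : S n | |fam (fun j => φ (σ j)) c x| ≤ δ} := by
        ext x
        rw [mem_ofPred_eq, mem_ofPred_eq, hr c x (by simp)]
      rw [h1]
      exact hsub c hc δ hδ⟩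
    (fun q hq => by
      obtain ⟨C, hC, h⟩ := main_nocut_nf hn (by linarith) (fun j => φ (σ j)) hsub' (hl.sub σ) q hq
      refine ⟨C, hC, fun c => ?_⟩
      have h1 : extn (fun x => Complex.exp (((fam (fun j => rS (φ (σ j))) c x : ℝ) : ℂ) * Complex.I)) =
          extn (fun x => Complex.exp (((fam (fun j => φ (σ j)) c x : ℝ) : ℂ) * Complex.I)) :=
        extn_congr_sphere fun x hx => by rw [hr c x hx]
      rw [h1]
      exact h c) N p hp
  refine ⟨C, hC, fun c cs => ?_⟩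
  refine le_trans (le_of_eq ?_) (h (L c) fun i => L (cs i))
  congr 1
  funext ξ
  rw [extn_congr]
  intro x hx
  have hx1 : ‖x‖ = 1 := by simpa using hx
  have h3 : ∀ a : Fin d → ℝ, fam φ a x = fam (fun j => rS (φ (σ j))) (L a) x := fun a =>
    (hL a x hx).trans (hr (L a) x hx1).symm
  unfold famc
  rw [h3 c]
  congr 1
  exact Finset.prod_congr rfl fun i _ => by rw [h3 (cs i)]

end Pool.Agent.VANn
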