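import Pool.Agent.VANn.N1
import Pool.Agent.VANn.FTH
import Pool.Agent.VANn.Main

/-!
Every family without flat points is of finite type, modulo affine functions.
-/

set_option autoImplicit false

namespace Pool.Agent.VANn

open MeasureTheory Set Metric Filter Topology Asymptotics Pool.Agent.MP_6cbfb8_an Pool.Agent.VAN
open scoped ENNReal Real

variable {n : ℕ}

/-- Flatness only depends on the values on the sphere. -/
theorem Flat.congr {f g : E n → ℝ} {x : E n} (hx : ‖x‖ = 1) (h : Flat f x)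
    (hfg : ∀ y : E n, ‖y‖ = 1 → f y = g y) : Flat g x := by
  intro k
  refine (h k).congr' ?_ EventuallyEq.rfl
  filter_upwards [self_mem_nhdsWithin] with y hy
  rw [hfg y (by simpa using hy), hfg x hx]

theorem XX_eq_dR (u v : E n) : FT.XX u v = dR (u, v) := by
  funext f x
  unfold FT.XX dR
  rw [FT.gen_apply]
  rfl

/-- An affine function which is constant on the sphere has no linear part. -/
theorem eq_zero_of_inner_const {ζ : E n} {c : ℝ} (h : ∀ y : E n, ‖y‖ = 1 → inner ℝ y ζ = c) :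
    ζ = 0 := by
  by_contra hz
  have hn : ‖ζ‖ ≠ 0 := norm_ne_zero_iff.2 hz
  have h1 := h (‖ζ‖⁻¹ • ζ) (by rw [norm_smul, norm_inv, norm_norm, inv_mul_cancel₀ hn])
  have h2 := h (-(‖ζ‖⁻¹ • ζ))
    (by rw [norm_neg, norm_smul, norm_inv, norm_norm, inv_mul_cancel₀ hn])
  rw [inner_neg_left] at h2
  have h3 : inner ℝ (‖ζ‖⁻¹ • ζ) ζ = ‖ζ‖ := by
    rw [real_inner_smul_left, real_inner_self_eq_norm_sq]
    field_simp
  rw [h3] at h1 h2
  apply hn
  linarith

/-- Families without flat points are of finite type, modulo affine functions. -/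
theorem nonflat_finType (hn2 : 2 ≤ n) {d : ℕ} (φ : Fin d → E n → ℝ) (hφ : Nonflat φ) :
    ∃ (d' m : ℕ) (c : ℝ) (B : ℕ → ℝ) (ψ : Fin d' → E n → ℝ), 0 < c ∧ FinType m c B ψ ∧
      ∃ (L : (Fin d → ℝ) →ₗ[ℝ] (Fin d' → ℝ)) (Z : (Fin d → ℝ) →ₗ[ℝ] E n)
        (κ : (Fin d → ℝ) →ₗ[ℝ] ℝ), ∀ (a : Fin d → ℝ) (x : E n), ‖x‖ = 1 →
          fam φ a x = fam ψ (L a) x + inner ℝ x (Z a) + κ a := by
  classical
  obtain ⟨d', σ, _, hind, L, hL⟩ := reduce_aff φ
  have hn : Nonflat fun j => φ (σ j) := hφ.sub σ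
  have hext : ∀ j, ∃ F : E n → ℝ, ContDiff ℝ ((⊤ : ℕ∞) : WithTop ℕ∞) F ∧ HasCompactSupport F ∧
      ∀ x ∈ S n, F x = φ (σ j) x :=
    fun j => extend (φ (σ j)) fun x hx => hn.1 j x hx
  choose ψ hψ _ hψe using hext
  have hψe1 : ∀ j (x : E n), ‖x‖ = 1 → ψ j x = φ (σ j) x := fun j x hx =>
    hψe j x (by simpa using hx)
  have hfam : ∀ (a : Fin d' → ℝ) (x : E n), ‖x‖ = 1 →
      fam ψ a x = fam (fun j => φ (σ j)) a x := by
    intro a x hx
    unfold fam
    exact Finset.sum_congr rfl fun j _ => by rw [hψe1 j x hx]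
  -- bounds for the derivatives
  have hb : ∀ j k, ∃ M : ℝ, ∀ y ∈ closedBall (0 : E n) 2, ‖iteratedFDeriv ℝ k (ψ j) y‖ ≤ M := by
    intro j k
    refine (isCompact_closedBall (0 : E n) 2).exists_bound_of_continuousOn ?_
    exact ((hψ j).continuous_iteratedFDeriv (m := k) (by exact_mod_cast le_top)).continuousOn
  choose M hM using hb
  -- nonflatness
  have hsm : ∀ i, ContDiff ℝ ((⊤ : ℕ∞) : WithTop ℕ∞) (Fin.append ψ FT.crd i) := by
    intro i
    refine Fin.addCases (fun j => ?_) (fun j => ?_) i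
    · rw [Fin.append_left]
      exact hψ j
    · rw [Fin.append_right]
      exact FT.crd_smooth j
  obtain ⟨s, hs, δ, hδ, κ, hκ, H⟩ := FT.uniform_nonflat_smooth 1 (Fin.append ψ FT.crd) hsm (by
    intro c hc x hx
    by_contra hcon
    push Not at hcon
    obtain ⟨a, ζ, rfl⟩ := FT.append_split c
    have hlc : FT.lc (Fin.append ψ FT.crd) (Fin.append a ζ) =
        fun y => fam ψ a y + inner ℝ y (WithLp.toLp 2 ζ : E n) := by
      funext y
      exact FT.lc_append ψ a ζ y
    have hflat : Flat (fun y => fam ψ a y + inner ℝ y (WithLp.toLp 2 ζ : E n)) x := by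
      refine flat_of_dR hn2 (fun y _ => ?_) hx fun q hq k hk => ?_
      · rw [← hlc]
        exact (FT.lc_smooth hsm _).contDiffAt
      · rw [← hlc, ← Prod.mk.eta (p := q), ← XX_eq_dR]
        exact hcon q.1 q.2 hq k hk
    have hflat2 := hflat.congr hx
      (g := fun y => fam (fun j => φ (σ j)) a y + inner ℝ y (WithLp.toLp 2 ζ : E n))
      (fun y hy => by rw [hfam a y hy])
    have hconst := hn.2 a _ x hx hflat2
    have ha : a = 0 := hind a (WithLp.toLp 2 ζ) _ fun y hy => hconst y (by simpa using hy)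
    subst ha
    have h0 : ∀ y, fam (fun j => φ (σ j)) (0 : Fin d' → ℝ) y = 0 := fun y => by simp [fam]
    simp only [h0, zero_add] at hconst
    have hz := eq_zero_of_inner_const hconst
    have hz2 : ζ = 0 := by
      have := congrArg (fun v : E n => v.ofLp) hz
      simpa using this
    apply hc
    subst hz2
    funext i
    refine Fin.addCases (fun j => ?_) (fun j => ?_) i
    · rw [Fin.append_left]; rfl
    · rw [Fin.append_right]; rfl)
  set m : ℕ := max 1 (s.sup fun p => p.2.2) with hm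
  have h4 : 0 < κ / (n + 1) := by positivity
  refine ⟨d', m, κ / (n + 1), fun k => ∑ j, |M j k|, ψ, h4, ⟨hψ, ?_, ?_⟩, L, ?_⟩
  · intro j k y hy
    refine ((hM j k y (by rwa [mem_closedBall_zero_iff])).trans (le_abs_self _)).trans ?_
    exact Finset.single_le_sum (f := fun j => |M j k|) (fun i _ => abs_nonneg _) (Finset.mem_univ j)
  · intro a x ζ hx
    set c : Fin (d' + n) → ℝ := Fin.append a (fun i => ζ i) with hc
    have hfun : (fun y => fam ψ a y + inner ℝ y ζ) = FT.lc (Fin.append ψ FT.crd) c := by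
      funext y
      rw [hc, FT.lc_append]
      rfl
    have ha : ‖a‖ ≤ ‖c‖ := by
      rw [pi_norm_le_iff_of_nonneg (norm_nonneg c)]
      intro j
      have := norm_le_pi_norm c (Fin.castAdd n j)
      rwa [hc, Fin.append_left] at this
    have hz : ∀ i : Fin n, |ζ i| ≤ ‖c‖ := by
      intro i
      have := norm_le_pi_norm c (Fin.natAdd d' i)
      rwa [hc, Fin.append_right, Real.norm_eq_abs] at this
    have hle : ‖a‖ + ‖ζ‖ ≤ (n + 1) * ‖c‖ := by
      have h1 := (FT.norm_le_sum ζ).trans (Finset.sum_le_sum fun i _ => hz i)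
      rw [Finset.sum_const, Finset.card_univ, Fintype.card_fin, nsmul_eq_mul] at h1
      linarith
    by_cases hc0 : c = 0
    · obtain ⟨b, hb1, hb2⟩ := FT.exists_unit_orth hn2 x
      refine ⟨x, b, ⟨hx, hb1, hb2⟩, 1, le_rfl, le_max_left _ _, ?_⟩
      rw [hc0, norm_zero, mul_zero] at hle
      have h5 : κ / (n + 1) * (‖a‖ + ‖ζ‖) ≤ 0 := mul_nonpos_of_nonneg_of_nonpos h4.le hle
      exact h5.trans (abs_nonneg _)
    · obtain ⟨p, hp, h5⟩ := H c hc0 x hx
      have h6 := h5 x hx (by rw [dist_self]; exact hδ)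
      refine ⟨p.1, p.2.1, (hs p hp).1, p.2.2, (hs p hp).2, ?_, ?_⟩
      · exact (Finset.le_sup (f := fun p : E n × E n × ℕ => p.2.2) hp).trans (le_max_right _ _)
      · rw [hfun]
        refine le_trans ?_ h6
        calc κ / (n + 1) * (‖a‖ + ‖ζ‖) ≤ κ / (n + 1) * ((n + 1) * ‖c‖) :=
              mul_le_mul_of_nonneg_left hle h4.le
          _ = κ * ‖c‖ := by field_simp
  · -- the affine parts
    choose ζ c0 hζ using fun i : Fin d => hL (Pi.single i 1)
    refine ⟨∑ i, (LinearMap.proj i : (Fin d → ℝ) →ₗ[ℝ] ℝ).smulRight (ζ i),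
      ∑ i, (LinearMap.proj i : (Fin d → ℝ) →ₗ[ℝ] ℝ).smulRight (c0 i), fun a x hx => ?_⟩
    have hxS : x ∈ S n := by simpa using hx
    have h1 : ∀ i, φ i x = fam ψ (L (Pi.single i 1)) x + inner ℝ x (ζ i) + c0 i := by
      intro i
      rw [hfam _ x hx]
      have := hζ i x hxS
      rw [Finset.sum_eq_single i (fun j _ hj => by rw [Pi.single_eq_of_ne hj, zero_mul])
        (fun h => absurd (Finset.mem_univ i) h), Pi.single_eq_same, one_mul] at this
      exact this
    have h2 : L a = ∑ i, a i • L (Pi.single i 1) := by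
      conv_lhs => rw [← Finset.univ_sum_single a]
      rw [map_sum]
      refine Finset.sum_congr rfl fun i _ => ?_
      rw [← map_smul]
      congr 1
      rw [← Pi.single_smul, smul_eq_mul, mul_one]
    have h3 : fam ψ (L a) x = ∑ i, a i * fam ψ (L (Pi.single i 1)) x := by
      rw [h2]
      unfold fam
      simp only [Finset.sum_apply, Pi.smul_apply, smul_eq_mul, Finset.sum_mul, Finset.mul_sum]
      rw [Finset.sum_comm]
      refine Finset.sum_congr rfl fun i _ => Finset.sum_congr rfl fun j _ => by ring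
    rw [h3]
    unfold fam at *
    simp only [LinearMap.sum_apply, LinearMap.smulRight_apply, LinearMap.proj_apply, smul_eq_mul]
    rw [_root_.inner_sum]
    rw [← Finset.sum_add_distrib, ← Finset.sum_add_distrib]
    refine Finset.sum_congr rfl fun i _ => ?_
    rw [h1 i, real_inner_smul_right]
    ring

end Pool.Agent.VANn
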