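import Pool.Agent.VAN.G

/-!
From a class of densities on the sphere of `R^(κ+2)` to the lifted densities in `R^(κ+1+l)`, half
space cuts and superpositions, for the full conjectured range of exponents. Abstract in the class.
-/

namespace Pool.Agent.VANn

open MeasureTheory Set Pool.Agent.MP_6cbfb8_an Pool.Agent.VAN
open scoped ENNReal Real

/-- The weighted densities `tpow j g`. -/
theorem UB_tpow {κ : ℕ} (hκ : 1 ≤ κ) {p0 : ℝ} (hp0 : 1 ≤ p0) {cls : (E (κ + 2) → ℂ) → Prop}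
    (H : UB p0 cls) (j : ℕ) (q : ℝ) (hq : p0 < q) :
    ∃ C : ℝ≥0∞, C ≠ ∞ ∧ ∀ G : E (κ + 2) → ℂ, Measurable G → (∀ x, ‖G x‖ ≤ 1) → cls G →
      ∫⁻ ξ, ‖extn (tpow j G) ξ‖ₑ ^ q ≤ C := by
  obtain ⟨C, hC, H1⟩ := multicut (κ + 2) (by omega) p0 hp0 cls H 1 q hq
  have H' : ∀ G : E (κ + 2) → ℂ, Measurable G → (∀ x, ‖G x‖ ≤ 1) → cls G → ∀ c : ℝ,
      ∫⁻ ξ : E (κ + 2), ‖extn (fun x => G x * hsn c (eLast (κ + 1)) x) ξ‖ₑ ^ q ≤ C := by
    intro G hG hb hc c
    have h1 := H1 G hG hb hc (fun _ => eLast (κ + 1)) (fun _ => c)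
    simpa only [Fin.prod_univ_one] using h1
  rcases j with _ | j
  · refine ⟨C, hC, fun G hG hb hc => ?_⟩
    refine le_trans (le_of_eq ?_) (H' G hG hb hc 0)
    refine lintegral_congr fun ξ => ?_
    congr 3
    funext x
    unfold MP_6cbfb8_an.tpow hsn
    rw [inner_eLast]
    split_ifs <;> simp
  · refine ⟨C * powν j univ ^ q, ENNReal.mul_ne_top hC
      (ENNReal.rpow_ne_top_of_nonneg (by linarith) (measure_ne_top _ _)), fun G hG hb hc => ?_⟩
    have key := lintegral_mix_le (p := q) (C := C) (by linarith)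
      (fun g : E (κ + 2) → ℂ => ∃ c : ℝ, g = fun x => G x * hsn c (eLast (κ + 1)) x)
      (by
        rintro g _ _ ⟨c, rfl⟩
        exact H' G hG hb hc c)
      (powν j) (fun _ => LinearIsometryEquiv.refl ℝ (E (κ + 2))) (fun _ => 0)
      (fun c x => G x * hsn c (eLast (κ + 1)) x)
      measurable_snd measurable_const (by
        have h1 : Measurable fun q : ℝ × E (κ + 2) => G q.2 := hG.comp measurable_snd
        refine h1.mul ?_
        unfold hsn
        refine Measurable.ite ?_ measurable_const measurable_const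
        exact measurableSet_lt measurable_fst (by fun_prop))
      (fun c x => by
        rw [norm_mul]
        exact mul_le_one₀ (hb _) (norm_nonneg _) (norm_hsn_le _ _ _))
      (fun c => ⟨c, rfl⟩)
    refine le_trans (le_of_eq ?_) key
    have : extn (MP_6cbfb8_an.tpow (j + 1) G : E (κ + 2) → ℂ) = extn (mix (powν j)
        (fun _ => LinearIsometryEquiv.refl ℝ (E (κ + 2))) (fun _ => 0)
        (fun c x => G x * hsn c (eLast (κ + 1)) x)) := by
      refine extn_congr_sphere fun x hx => ?_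
      unfold mix
      simp only [inner_zero_right, mul_zero, Complex.ofReal_zero, zero_mul,
        Complex.exp_zero, one_mul, LinearIsometryEquiv.coe_refl, id]
      rw [integral_const_mul]
      have e1 : (fun c : ℝ => hsn c (eLast (κ + 1)) x) =
          (Iio (x (Fin.last (κ + 1)))).indicator fun _ => (1:ℂ) := by
        funext c
        unfold hsn
        rw [inner_eLast]
        by_cases h : c < x (Fin.last (κ + 1))
        · rw [if_pos h, indicator_of_mem (mem_Iio.2 h)]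
        · rw [if_neg h, indicator_of_notMem]
          exact h
      rw [e1, integral_indicator_const _ measurableSet_Iio]
      unfold MP_6cbfb8_an.tpow Measure.real
      split_ifs with h
      · rw [powν_Iio j h ((le_abs_self _).trans ((abs_last_le x).trans hx.le)),
          ENNReal.toReal_ofReal (by positivity)]
        simp
      · rw [powν_Iio_neg j (not_lt.1 h)]
        simp
    rw [← this]

/-- Lifting: from `R^(κ+2)` to `R^n`, `n = κ + 1 + l`, `l ≥ 2`, in the range `p > 2n/(n-1)`. -/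
theorem UB_lift {κ : ℕ} (hκ : 1 ≤ κ) {cls : (E (κ + 2) → ℂ) → Prop}
    (H : UB (2 * ((κ : ℝ) + 2) / (κ + 1)) cls) (l : ℕ) (hl : 2 ≤ l) :
    UB (2 * ((κ : ℝ) + 1 + l) / (κ + l)) fun g : E (κ + 1 + l) → ℂ =>
      ∃ G : E (κ + 2) → ℂ, Measurable G ∧ (∀ x, ‖G x‖ ≤ 1) ∧ cls G ∧ g = lift (k := κ + 1) G := by
  intro p' hp'
  obtain ⟨i, rfl⟩ : ∃ i, l = i + 2 := ⟨l - 2, by omega⟩
  have hi0 : (0:ℝ) ≤ i := Nat.cast_nonneg i
  push_cast at hp'
  have hp2 : 2 < p' := by
    refine lt_trans ?_ hp'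
    rw [lt_div_iff₀ (by positivity)]
    linarith
  have hκ0 : (0:ℝ) ≤ κ := Nat.cast_nonneg κ
  have hq2 : 2 < 2 * ((κ : ℝ) + 2) / (κ + 1) := by
    rw [lt_div_iff₀ (by positivity)]
    linarith
  obtain ⟨C, hC, H1⟩ := lifting κ i (2 * ((κ : ℝ) + 2) / (κ + 1)) hq2 cls
    (fun j q hq => UB_tpow hκ (by linarith) H j q hq) p' hp2 (by
      have h1 : 2 * ((κ : ℝ) + 1 + (i + 2)) / (κ + (i + 2)) = 2 + 2 / (κ + i + 2) := by
        field_simp; ring
      have h2 : 2 / ((κ : ℝ) + i + 2) < p' - 2 := by linarith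
      have h3 := one_div_lt_one_div_of_lt (by positivity) h2
      rw [one_div_div] at h3
      refine h3.trans_le (le_of_eq ?_)
      have h4 : 2 * ((κ : ℝ) + 2) / (κ + 1) - 2 = 2 / (κ + 1) := by field_simp; ring
      rw [h4, one_div_div]
      ring)
  refine ⟨C, hC, ?_⟩
  rintro g _ _ ⟨G, hG, hb, hc, rfl⟩
  exact H1 G hG hb hc

/-- Lifting with half space cuts. -/
theorem UB_liftcut {κ : ℕ} (hκ : 1 ≤ κ) {cls : (E (κ + 2) → ℂ) → Prop}
    (H : UB (2 * ((κ : ℝ) + 2) / (κ + 1)) cls) (l : ℕ) (hl : 2 ≤ l) (M : ℕ) :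
    UB (2 * ((κ : ℝ) + 1 + l) / (κ + l)) fun g : E (κ + 1 + l) → ℂ =>
      ∃ G : E (κ + 2) → ℂ, Measurable G ∧ (∀ x, ‖G x‖ ≤ 1) ∧ cls G ∧ ∃ (v : Fin M → E (κ + 1 + l)) (c : Fin M → ℝ),
        g = fun x => MP_6cbfb8_an.lift (k := κ + 1) G x * ∏ i, hsn (c i) (v i) x := by
  have hp0 : 1 ≤ 2 * ((κ : ℝ) + 1 + l) / (κ + l) := by
    have h0 : (2:ℝ) ≤ l := by exact_mod_cast hl
    have h1 : (0:ℝ) ≤ κ := Nat.cast_nonneg κ
    rw [le_div_iff₀ (by positivity)]
    linarith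
  intro p hp
  obtain ⟨C, hC, h⟩ := (UB_lift hκ H l hl).cut (by omega) hp0 M p hp
  refine ⟨C, hC, ?_⟩
  rintro g hg hb ⟨G, hG, hGb, hGc, v, c, rfl⟩
  exact h _ hg hb ⟨MP_6cbfb8_an.lift (k := κ + 1) G, measurable_lift hG, fun x => hGb _,
    ⟨G, hG, hGb, hGc, rfl⟩, v, c, rfl⟩

/-- Superpositions. -/
theorem mix_of {n K N : ℕ} {f : Fin K → E n → ℝ} (hf : ∀ i, ContinuousOn (f i) (S n)) {p : ℝ}
    (hp : 1 ≤ p) {C : ℝ≥0∞}
    (H : ∀ (a : Fin K → ℝ) (b : Fin N → Fin K → ℝ), ∫⁻ ξ, ‖extn (famc f a b) ξ‖ₑ ^ p ≤ C)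
    (W : Type) (_ : MeasurableSpace W) (ν : Measure W) (_ : IsFiniteMeasure ν)
    (R : W → (E n ≃ₗᵢ[ℝ] E n)) (η : W → E n) (a : W → Fin K → ℝ) (b : W → Fin N → Fin K → ℝ)
    (hR : Measurable fun q : W × E n => R q.1 q.2) (hη : Measurable η) (ha : Measurable a)
    (hb : Measurable b) :
    ∫⁻ ξ, ‖extn (mix ν R η fun w => famc f (a w) (b w)) ξ‖ₑ ^ p ≤ C * ν univ ^ p := by
  have hf' : ∀ i, Measurable (rS (f i)) := fun i => G_meas_rS (hf i)
  have e : extn (mix ν R η fun w => famc f (a w) (b w)) =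
      extn (mix ν R η fun w => famc (fun i => rS (f i)) (a w) (b w)) :=
    extn_congr_sphere fun x hx => G_mix_congr ν R η (fun w y hy => (G_famc_rS f _ _ hy).symm) hx
  rw [e]
  refine lintegral_mix_le hp (fun g => ∃ (a : Fin K → ℝ) (b : Fin N → Fin K → ℝ),
    g = famc (fun i => rS (f i)) a b) ?_ ν R η (fun w => famc (fun i => rS (f i)) (a w) (b w)) hR hη
    (G_meas_param hf' ha hb) (fun w x => G_norm_le _ _ _ _) fun w => ⟨a w, b w, rfl⟩
  rintro g _ _ ⟨a, b, rfl⟩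
  refine le_trans (le_of_eq ?_) (H a b)
  have e : extn (famc (fun i => rS (f i)) a b) = extn (famc f a b) :=
    extn_congr_sphere fun x hx => G_famc_rS f a b hx
  rw [e]

lemma G_norm_joinn {k l : ℕ} {x : E (k + l)} (hx : ‖x‖ = 1) :
    ‖(join (fstE (k := k) (l := l) x) ‖(sndE x : E l)‖ : E (k + 1))‖ = 1 := by
  have h1 := norm_join_sq (fstE (k := k) (l := l) x) ‖(sndE x : E l)‖
  have h2 := liftA_norm_bj_sq (fstE (k := k) (l := l) x) (sndE x : E l)
  rw [bj_fst_snd, hx] at h2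
  have h3 : ‖(join (fstE (k := k) (l := l) x) ‖(sndE x : E l)‖ : E (k + 1))‖ ^ 2 = 1 := by
    rw [h1, ← h2]; norm_num
  have h4 := norm_nonneg (join (fstE (k := k) (l := l) x) ‖(sndE x : E l)‖ : E (k + 1))
  nlinarith

/-- Superpositions in higher dimensions. -/
theorem mixhigh_of {κ : ℕ} (hκ : 1 ≤ κ) {K : ℕ} (N : ℕ) {f : Fin K → E (κ + 2) → ℝ}
    (hf : ∀ i, ContinuousOn (f i) (S (κ + 2)))
    (H : ∀ p : ℝ, 2 * ((κ : ℝ) + 2) / (κ + 1) < p → ∃ C : ℝ≥0∞, C ≠ ∞ ∧
      ∀ (a : Fin K → ℝ) (b : Fin N → Fin K → ℝ),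
      ∫⁻ ξ, ‖extn (famc f a b) ξ‖ₑ ^ p ≤ C) (M l : ℕ) (hl : 2 ≤ l) (p : ℝ)
    (hp : 2 * ((κ : ℝ) + 1 + l) / (κ + l) < p) : ∃ C : ℝ≥0∞, C ≠ ∞ ∧
    ∀ (W : Type) (_ : MeasurableSpace W) (ν : Measure W) (_ : IsFiniteMeasure ν)
      (R : W → (E (κ + 1 + l) ≃ₗᵢ[ℝ] E (κ + 1 + l))) (η : W → E (κ + 1 + l))
      (a : W → Fin K → ℝ) (b : W → Fin N → Fin K → ℝ)
      (v : W → Fin M → E (κ + 1 + l)) (c : W → Fin M → ℝ),
      (Measurable fun q : W × E (κ + 1 + l) => R q.1 q.2) → Measurable η → Measurable a →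
      Measurable b → Measurable v → Measurable c →
      ∫⁻ ξ, ‖extn (mix ν R η fun w x =>
        lift (famc f (a w) (b w)) x * ∏ i, hsn (c w i) (v w i) x) ξ‖ₑ ^ p ≤ C * ν univ ^ p := by
  have hf' : ∀ i, Measurable (rS (f i)) := fun i => G_meas_rS (hf i)
  have hU : UB (2 * ((κ : ℝ) + 2) / (κ + 1)) fun g : E (κ + 2) → ℂ =>
      ∃ (a : Fin K → ℝ) (b : Fin N → Fin K → ℝ),
      g = famc (fun i => rS (f i)) a b := by
    intro p hp
    obtain ⟨C, hC, h⟩ := H p hp
    refine ⟨C, hC, ?_⟩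
    rintro g _ _ ⟨a, b, rfl⟩
    refine le_trans (le_of_eq ?_) (h a b)
    have e : extn (famc (fun i => rS (f i)) a b) = extn (famc f a b) :=
      extn_congr_sphere fun x hx => G_famc_rS f a b hx
    rw [e]
  obtain ⟨C, hC, h⟩ := UB_liftcut hκ hU l hl M p hp
  refine ⟨C, hC, ?_⟩
  intro W _ ν _ R η a b v c hR hη ha hb hv hc
  have hp1 : 1 ≤ p := by
    have h0 : (2:ℝ) ≤ l := by exact_mod_cast hl
    have h1 : (0:ℝ) ≤ κ := Nat.cast_nonneg κ
    refine le_trans ?_ hp.le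
    rw [le_div_iff₀ (by positivity)]
    linarith
  have e : extn (mix ν R η fun w x => lift (famc f (a w) (b w)) x * ∏ i, hsn (c w i) (v w i) x) =
      extn (mix ν R η fun w x =>
        lift (famc (fun i => rS (f i)) (a w) (b w)) x * ∏ i, hsn (c w i) (v w i) x) := by
    refine extn_congr_sphere fun x hx => G_mix_congr ν R η (fun w y hy => ?_) hx
    unfold MP_6cbfb8_an.lift
    rw [G_famc_rS f (a w) (b w) (G_norm_joinn hy)]
  rw [e]
  refine lintegral_mix_le hp1 _ h ν R η (fun w x =>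
    lift (famc (fun i => rS (f i)) (a w) (b w)) x * ∏ i, hsn (c w i) (v w i) x) hR hη ?_
    (fun w x => ?_) (fun w => ⟨famc (fun i => rS (f i)) (a w) (b w), G_meas hf' _ _,
      G_norm_le _ _ _, ⟨a w, b w, rfl⟩, v w, c w, rfl⟩)
  · have h1 : Measurable fun q : W × E (κ + 1 + l) =>
        (q.1, (join (fstE (k := κ + 1) (l := l) q.2) ‖(sndE q.2 : E l)‖ : E (κ + 2))) := by
      refine measurable_fst.prodMk ?_
      have h2 : Measurable fun q : W × E (κ + 1 + l) =>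
          ((fstE (k := κ + 1) (l := l) q.2 : E (κ + 1)), ‖(sndE q.2 : E l)‖) :=
        (continuous_fstE.measurable.comp measurable_snd).prodMk
          ((continuous_sndE.norm).measurable.comp measurable_snd)
      exact measurable_join.comp h2
    have h3 : Measurable fun q : W × E (κ + 1 + l) =>
        (MP_6cbfb8_an.lift (famc (fun i => rS (f i)) (a q.1) (b q.1)) q.2 : ℂ) := by
      have h7 := G_meas_param (W := W) hf' ha hb
      have h8 := h7.comp h1
      simp only [Function.comp_def] at h8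
      unfold MP_6cbfb8_an.lift
      exact h8
    have h4 : Measurable fun q : W × E (κ + 1 + l) => ∏ i, hsn (c q.1 i) (v q.1 i) q.2 := by
      refine Finset.measurable_prod _ fun i _ => ?_
      unfold hsn
      refine Measurable.ite ?_ measurable_const measurable_const
      have h5 : Measurable fun q : W × E (κ + 1 + l) => c q.1 i :=
        (measurable_pi_iff.1 hc i).comp measurable_fst
      have h6 : Measurable fun q : W × E (κ + 1 + l) => v q.1 i :=
        (measurable_pi_iff.1 hv i).comp measurable_fst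
      exact measurableSet_lt h5 (measurable_snd.inner h6)
    exact h3.mul h4
  · rw [norm_mul]
    exact mul_le_one₀ (G_norm_le _ _ _ _) (norm_nonneg _) (norm_prod_hsn_le _ _ _)

end Pool.Agent.VANn
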