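import Pool.Agent.VANn.Main

/-!
The estimate with a small loss for families of smooth phases, from the estimate for one phase with a
constant which depends on the bounds of the derivatives only.
-/

namespace Pool.Agent.VANn

open MeasureTheory Set Filter Topology Pool.Agent.MP_6cbfb8_an Pool.Agent.VAN
open scoped ENNReal Real ContDiff

variable {n : ℕ}

/-- The estimate for one smooth phase, with a constant which depends on the bounds of the derivatives
of the phase and of the amplitude only. -/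
def OneLoss (n : ℕ) (p0 : ℝ) : Prop :=
  ∀ p ε : ℝ, p0 < p → 0 < ε → ∀ B : ℕ → ℝ, ∃ K : ℝ, 0 < K ∧ ∀ (φ : E n → ℝ) (a : E n → ℂ),
    (∀ x, ‖x‖ = 1 → ContDiffAt ℝ ∞ φ x) → (∀ x, ‖x‖ = 1 → ContDiffAt ℝ ∞ a x) →
    (∀ k x, ‖x‖ = 1 → ‖iteratedFDeriv ℝ k φ x‖ ≤ B k) →
    (∀ k x, ‖x‖ = 1 → ‖iteratedFDeriv ℝ k a x‖ ≤ B k) → ∀ c : ℝ,
    ∫⁻ ξ, ‖extn (fun x => a x * Complex.exp (((c * φ x : ℝ) : ℂ) * Complex.I)) ξ‖ₑ ^ p ≤
      ENNReal.ofReal (K * (1 + |c|) ^ ε)

lemma iteratedFDeriv_fam {d : ℕ} {F : Fin d → E n → ℝ} (hF : ∀ j, ContDiff ℝ ∞ (F j))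
    (b : Fin d → ℝ) (k : ℕ) (x : E n) :
    ‖iteratedFDeriv ℝ k (fam F b) x‖ ≤ ∑ j, |b j| * ‖iteratedFDeriv ℝ k (F j) x‖ := by
  have h1 : iteratedFDeriv ℝ k (fam F b) x = ∑ j, iteratedFDeriv ℝ k (fun x => b j * F j x) x := by
    unfold fam
    exact iteratedFDeriv_fun_sum_apply fun j _ =>
      ((contDiff_const.mul (hF j)).of_le (by exact_mod_cast le_top)).contDiffAt
  rw [h1]
  refine (norm_sum_le _ _).trans (Finset.sum_le_sum fun j _ => ?_)
  have h2 : iteratedFDeriv ℝ k (fun x => b j * F j x) x = b j • iteratedFDeriv ℝ k (F j) x := by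
    have := iteratedFDeriv_const_smul_apply' (a := b j) (x := x) (i := k)
      (((hF j).of_le (by exact_mod_cast le_top)).contDiffAt : ContDiffAt ℝ k (F j) x)
    simpa only [smul_eq_mul] using this
  rw [h2, norm_smul, Real.norm_eq_abs]

/-- **Families of smooth phases**, from the estimate for one phase. -/
theorem loss_of_one {p0 : ℝ} (H : OneLoss n p0) {d : ℕ} (φ : Fin d → E n → ℝ)
    (hφ : ∀ j, ∀ x ∈ Metric.sphere (0 : E n) 1, ContDiffAt ℝ ((⊤ : ℕ∞) : WithTop ℕ∞) (φ j) x) :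
    Loss p0 φ := by
  intro p hp ε hε
  choose F hF _ hFe using fun j => extend (φ j) (hφ j)
  have hB : ∀ (k : ℕ) (j : Fin d), ∃ B : ℝ, ∀ x ∈ Metric.sphere (0 : E n) 1,
      ‖iteratedFDeriv ℝ k (F j) x‖ ≤ B := by
    intro k j
    exact (isCompact_sphere (0 : E n) 1).exists_bound_of_continuousOn
      (((hF j).continuous_iteratedFDeriv (m := k) (by exact_mod_cast le_top)).continuousOn)
  choose B hB using hB
  have hBn : ∀ k j, B k j ≤ |B k j| := fun k j => le_abs_self _
  obtain ⟨K, hK, h⟩ := H p ε hp hε fun k => 1 + ∑ j, |B k j|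
  refine ⟨ENNReal.ofReal K, ENNReal.ofReal_ne_top, fun c => ?_⟩
  -- the normalised coefficients
  set lam : ℝ := ‖c‖ with hlam
  obtain ⟨b, hb1, hbc⟩ : ∃ b : Fin d → ℝ, (∀ j, |b j| ≤ 1) ∧ ∀ j, lam * b j = c j := by
    rcases eq_or_ne c 0 with hc | hc
    · refine ⟨0, fun j => by simp, fun j => ?_⟩
      rw [hc]
      simp
    · have hl : 0 < lam := norm_pos_iff.2 hc
      refine ⟨fun j => c j / lam, fun j => ?_, fun j => ?_⟩
      · rw [abs_div, abs_of_pos hl, div_le_one hl]
        exact norm_le_pi_norm c j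
      · field_simp
  have hψ : ContDiff ℝ ∞ (fam F b) := by
    unfold fam
    exact ContDiff.sum fun j _ => contDiff_const.mul (hF j)
  have h1 := h (fam F b) (fun _ => 1) (fun x _ => hψ.contDiffAt) (fun x _ => contDiffAt_const)
    (fun k x hx => by
      refine (iteratedFDeriv_fam hF b k x).trans ?_
      have h2 : ∑ j, |b j| * ‖iteratedFDeriv ℝ k (F j) x‖ ≤ ∑ j, |B k j| := by
        refine Finset.sum_le_sum fun j _ => ?_
        calc |b j| * ‖iteratedFDeriv ℝ k (F j) x‖ ≤ 1 * |B k j| := by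
              refine mul_le_mul (hb1 j) ((hB k j x (by simpa using hx)).trans (hBn k j))
                (norm_nonneg _) zero_le_one
          _ = |B k j| := one_mul _
      linarith)
    (fun k x _ => by
      have h2 : (0:ℝ) ≤ ∑ j, |B k j| := Finset.sum_nonneg fun j _ => abs_nonneg _
      rcases k with _ | k
      · rw [norm_iteratedFDeriv_zero, norm_one]
        linarith
      · rw [iteratedFDeriv_const_of_ne (by omega)]
        simp only [Pi.zero_apply, norm_zero]
        linarith) lam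
  have hn0 : |lam| = ‖c‖ := by rw [hlam, abs_of_nonneg (norm_nonneg _)]
  rw [hn0] at h1
  have h3 : extn (fun x => Complex.exp (((fam φ c x : ℝ) : ℂ) * Complex.I)) =
      extn (fun x => (1 : ℂ) * Complex.exp (((lam * fam F b x : ℝ) : ℂ) * Complex.I)) := by
    refine extn_congr_sphere fun x hx => ?_
    rw [one_mul]
    congr 3
    unfold fam
    rw [Finset.mul_sum]
    refine Finset.sum_congr rfl fun j _ => ?_
    rw [← mul_assoc, hbc j, hFe j x (by simpa using hx)]
  rw [h3]
  refine h1.trans (le_of_eq ?_)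
  rw [ENNReal.ofReal_mul hK.le]

end Pool.Agent.VANn
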