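import Pool.Agent.VANn.FTI
import Pool.Agent.VANn.FTJ
import Pool.Agent.VANn.LS
import Pool.Agent.VANn.G

/-!
Classes of finite type in `R^(m+1)` and in higher dimensions: superpositions, in the full conjectured
range of exponents, over the estimate for one smooth phase.
-/

set_option autoImplicit false

namespace Pool.Agent.VANn

open MeasureTheory Set Metric Pool.Agent.MP_6cbfb8_an Pool.Agent.VAN
open scoped ENNReal Real

variable {n : ℕ}

/-- The estimate without amplitude. -/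
theorem lossS_of_one {p0 : ℝ} (H : OneLoss n p0) : LossS n p0 := by
  intro p hp ε hε B
  obtain ⟨K, hK, h⟩ := H p ε hp hε fun k => |B k| + 1
  refine ⟨K, hK, fun φ hφ hB c => ?_⟩
  have h1 := h φ (fun _ => 1) hφ (fun x _ => contDiffAt_const)
    (fun k x hx => (hB k x hx).trans (by linarith [le_abs_self (B k)]))
    (fun k x _ => by
      rcases Nat.eq_zero_or_pos k with rfl | hk
      · rw [norm_iteratedFDeriv_zero]
        simp
      · rw [iteratedFDeriv_const_of_ne hk.ne']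
        simp only [Pi.zero_apply, norm_zero]
        positivity) c
  simpa only [one_mul] using h1

/-- The densities `e^{iu} ∏_{i<N} 1_{v_i > 0}` on the unit sphere of `R^n`, where `u` is a linear
combination, and `v_i` a linear combination plus an affine function, of the members of some family
`φ_1, …, φ_d` of finite type with the constants `m`, `c`, `B`. -/
def Dens (d N m : ℕ) (c : ℝ) (B : ℕ → ℝ) (g : E n → ℂ) : Prop :=
  ∃ (φ : Fin d → E n → ℝ) (a : Fin d → ℝ) (b : Fin N → Fin d → ℝ) (ζ : Fin N → E n)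
    (κ : Fin N → ℝ), FinType m c B φ ∧ g = famA φ a b ζ κ

theorem Dens.norm_le {d N m : ℕ} {c : ℝ} {B : ℕ → ℝ} {g : E n → ℂ} (h : Dens d N m c B g)
    (x : E n) : ‖g x‖ ≤ 1 := by
  obtain ⟨φ, a, b, ζ, κ, -, rfl⟩ := h
  unfold famA
  rw [norm_mul, Complex.norm_exp_ofReal_mul_I, one_mul, norm_prod]
  refine Finset.prod_le_one (fun _ _ => norm_nonneg _) fun i _ => ?_
  split_ifs <;> simp

/-- The class has the uniform estimate. -/
theorem ub_dens (hn : 2 ≤ n) {p0 : ℝ} (hp0 : 1 ≤ p0) (H : OneLoss n p0) (d N m : ℕ) (c : ℝ)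
    (hc : 0 < c) (B : ℕ → ℝ) : UB p0 (Dens (n := n) d N m c B) := by
  intro p hp
  obtain ⟨C, hC, h⟩ := FT.fin_bound hn hp0 (lossS_of_one H) (d := d) N m c hc B p hp
  refine ⟨C, hC, ?_⟩
  rintro g _ _ ⟨φ, a, b, ζ, κ, hφ, rfl⟩
  exact h φ hφ a b ζ κ

/-- The family `φ` is, on the unit sphere and modulo affine functions, contained in the span of a
family of finite type. -/
def ModFin {d : ℕ} (φ : Fin d → E n → ℝ) : Prop :=
  ∃ (d' m : ℕ) (c : ℝ) (B : ℕ → ℝ) (ψ : Fin d' → E n → ℝ), 0 < c ∧ FinType m c B ψ ∧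
    ∃ (L : (Fin d → ℝ) →ₗ[ℝ] (Fin d' → ℝ)) (Z : (Fin d → ℝ) →ₗ[ℝ] E n)
      (κ : (Fin d → ℝ) →ₗ[ℝ] ℝ), ∀ (a : Fin d → ℝ) (x : E n), ‖x‖ = 1 →
        fam φ a x = fam ψ (L a) x + inner ℝ x (Z a) + κ a

/-- For every `p > 2n/(n-1)`, `n = m + 1`, there is a finite `C` such that the Fourier transform of
every superposition, over a finite measure space, of rotated and modulated densities of the class
`cls` on the unit sphere of `R^n` has `L^p` norm at most `C^(1/p)` times the total mass of the measure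
space. -/
def Bound {m : ℕ} (cls : (E (m + 1) → ℂ) → Prop) : Prop :=
  ∀ p : ℝ, 2 * ((m : ℝ) + 1) / m < p → ∃ C : ℝ≥0∞, C ≠ ∞ ∧
    ∀ (W : Type) (_ : MeasurableSpace W) (ν : Measure W) (_ : IsFiniteMeasure ν)
      (R : W → (E (m + 1) ≃ₗᵢ[ℝ] E (m + 1))) (η : W → E (m + 1)) (g : W → E (m + 1) → ℂ),
      (Measurable fun q : W × E (m + 1) => R q.1 q.2) → Measurable η →
      (Measurable fun q : W × E (m + 1) => g q.1 q.2) → (∀ t, cls (g t)) →
      ∫⁻ ξ, ‖extn (mix ν R η g) ξ‖ₑ ^ p ≤ C * ν univ ^ p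

/-- The same for all `n = m + l`, `l ≥ 2`, `p > 2n/(n-1)` and the densities
`x ↦ g(x_1, …, x_m, |(x_(m+1), …, x_n)|)`, `g` in the class `cls`, cut by `M` half spaces. -/
def BoundHigh {m : ℕ} (cls : (E (m + 1) → ℂ) → Prop) : Prop :=
  ∀ (M l : ℕ), 2 ≤ l → ∀ p : ℝ, 2 * ((m : ℝ) + l) / (m + l - 1) < p → ∃ C : ℝ≥0∞, C ≠ ∞ ∧
    ∀ (W : Type) (_ : MeasurableSpace W) (ν : Measure W) (_ : IsFiniteMeasure ν)
      (R : W → (E (m + l) ≃ₗᵢ[ℝ] E (m + l))) (η : W → E (m + l)) (g : W → E (m + 1) → ℂ)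
      (v : W → Fin M → E (m + l)) (s : W → Fin M → ℝ),
      (Measurable fun q : W × E (m + l) => R q.1 q.2) → Measurable η →
      (Measurable fun q : W × E (m + 1) => g q.1 q.2) → (∀ t, cls (g t)) →
      Measurable v → Measurable s →
      ∫⁻ ξ, ‖extn (mix ν R η fun t x => lift (g t) x * ∏ i, hsn (s t i) (v t i) x) ξ‖ₑ ^ p ≤
        C * ν univ ^ p

theorem meas_lift {W : Type} [MeasurableSpace W] {κ l : ℕ} {g : W → E (κ + 2) → ℂ}
    (hg : Measurable fun q : W × E (κ + 2) => g q.1 q.2) :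
    Measurable fun q : W × E (κ + 1 + l) => (lift (k := κ + 1) (l := l) (g q.1) q.2 : ℂ) := by
  have h1 : Measurable fun q : W × E (κ + 1 + l) =>
      (q.1, (join (fstE (k := κ + 1) (l := l) q.2) ‖(sndE q.2 : E l)‖ : E (κ + 1 + 1))) := by
    refine measurable_fst.prodMk ?_
    have h2 : Measurable fun q : W × E (κ + 1 + l) =>
        ((fstE (k := κ + 1) (l := l) q.2 : E (κ + 1)), ‖(sndE q.2 : E l)‖) :=
      (continuous_fstE.measurable.comp measurable_snd).prodMk
        ((continuous_sndE.norm).measurable.comp measurable_snd)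
    exact measurable_join.comp h2
  have h8 := hg.comp h1
  simp only [Function.comp_def] at h8
  unfold MP_6cbfb8_an.lift
  exact h8

/-- The bounds for a class with the uniform estimate. -/
theorem bounds_of {m : ℕ} (hm : 2 ≤ m) {cls : (E (m + 1) → ℂ) → Prop}
    (hnorm : ∀ g, cls g → ∀ x, ‖g x‖ ≤ 1) (hU : UB (2 * ((m : ℝ) + 1) / m) cls) :
    Bound cls ∧ BoundHigh cls := by
  obtain ⟨κ, rfl⟩ : ∃ κ, m = κ + 1 := ⟨m - 1, by omega⟩
  have hκ0 : (0:ℝ) ≤ κ := Nat.cast_nonneg κ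
  have hthr : 2 * (((κ + 1 : ℕ) : ℝ) + 1) / ((κ + 1 : ℕ) : ℝ) = 2 * ((κ : ℝ) + 2) / (κ + 1) := by
    push_cast
    congr 1
    ring
  have h1thr : 1 ≤ 2 * (((κ + 1 : ℕ) : ℝ) + 1) / ((κ + 1 : ℕ) : ℝ) := by
    rw [hthr, le_div_iff₀ (by positivity)]
    linarith
  refine ⟨fun p hp => ?_, fun M l hl p hp => ?_⟩
  · obtain ⟨C, hC, H⟩ := hU p hp
    refine ⟨C, hC, ?_⟩
    intro W _ ν _ R η g hR hη hg hd
    exact lintegral_mix_le (by linarith) cls H ν R η g hR hη hg (fun t x => hnorm _ (hd t) x) hd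
  · rw [hthr] at hU
    have hthr2 : 2 * (((κ + 1 : ℕ) : ℝ) + l) / (((κ + 1 : ℕ) : ℝ) + l - 1) =
        2 * ((κ : ℝ) + 1 + l) / (κ + l) := by
      push_cast
      congr 1
      ring
    rw [hthr2] at hp
    obtain ⟨C, hC, H⟩ := UB_liftcut (by omega) hU l hl M p hp
    refine ⟨C, hC, ?_⟩
    intro W _ ν _ R η g v s hR hη hg hd hv hs
    have hl0 : (2:ℝ) ≤ l := by exact_mod_cast hl
    have hp1 : 1 ≤ p := by
      refine le_trans ?_ hp.le
      rw [le_div_iff₀ (by positivity)]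
      linarith
    refine lintegral_mix_le hp1 _ H ν R η (fun t x =>
      lift (g t) x * ∏ i, hsn (s t i) (v t i) x) hR hη ?_ (fun t x => ?_)
      (fun t => ⟨g t, ?_, hnorm _ (hd t), hd t, v t, s t, rfl⟩)
    · have h4 : Measurable fun q : W × E (κ + 1 + l) => ∏ i, hsn (s q.1 i) (v q.1 i) q.2 := by
        refine Finset.measurable_prod _ fun i _ => ?_
        unfold hsn
        refine Measurable.ite ?_ measurable_const measurable_const
        have h5 : Measurable fun q : W × E (κ + 1 + l) => s q.1 i :=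
          (measurable_pi_iff.1 hs i).comp measurable_fst
        have h6 : Measurable fun q : W × E (κ + 1 + l) => v q.1 i :=
          (measurable_pi_iff.1 hv i).comp measurable_fst
        exact measurableSet_lt h5 (measurable_snd.inner h6)
      exact (meas_lift hg).mul h4
    · rw [norm_mul]
      exact mul_le_one₀ (hnorm _ (hd t) _) (norm_nonneg _) (norm_prod_hsn_le _ _ _)
    · exact hg.comp (f := fun x : E (κ + 2) => (t, x)) (measurable_const.prodMk measurable_id)

/-- The bounds for the classes of finite type. -/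
theorem bounds_dens {m : ℕ} (hm : 2 ≤ m) (H : OneLoss (m + 1) (2 * ((m : ℝ) + 1) / m))
    (d N k : ℕ) (c : ℝ) (hc : 0 < c) (B : ℕ → ℝ) :
    Bound (m := m) (Dens d N k c B) ∧ BoundHigh (m := m) (Dens d N k c B) := by
  have h0 : (2:ℝ) ≤ m := by exact_mod_cast hm
  have h1 : 1 ≤ 2 * ((m : ℝ) + 1) / m := by
    rw [le_div_iff₀ (by positivity)]
    linarith
  exact bounds_of hm (fun g hg x => hg.norm_le x) (ub_dens (by omega) h1 H d N k c hc B)

end Pool.Agent.VANn
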