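import Pool.Agent.VANn.FTK
import Pool.Agent.VANn.MainA

/-!
The restriction estimate for phases of finite type with an amplitude of bounded variation, over the
estimate with a small loss.
-/

set_option autoImplicit false

namespace Pool.Agent.VANn

open MeasureTheory Set Metric Pool.Agent.MP_6cbfb8_an Pool.Agent.VAN Pool.Agent.VAN.FT Pool.Agent.GNP
open scoped ENNReal Real

variable {n : ℕ}

/-- The estimate with a small loss for the phases `c φ` on the unit sphere of `R^n` and amplitudes of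
bounded variation, in the range `p > p0`: the constant depends on `φ` only through the bounds `B k`
for its derivatives. -/
def LossSA (n : ℕ) (p0 s : ℝ) : Prop :=
  ∀ V : ℝ, 1 ≤ V → ∀ p : ℝ, p0 < p → ∀ ε : ℝ, 0 < ε → ∀ B : ℕ → ℝ, ∃ K : ℝ, 0 < K ∧
    ∀ (φ : E n → ℝ) (w : E n → ℂ),
    (∀ x, ‖x‖ = 1 → ContDiffAt ℝ ((⊤ : ℕ∞) : WithTop ℕ∞) φ x) →
    (∀ k x, ‖x‖ = 1 → ‖iteratedFDeriv ℝ k φ x‖ ≤ B k) → AVn n s V w → ∀ c : ℝ,
    ∫⁻ ξ, ‖extn (fun x => w x * Complex.exp (((c * φ x : ℝ) : ℂ) * Complex.I)) ξ‖ₑ ^ p ≤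
      ENNReal.ofReal (K * (1 + |c|) ^ ε)

namespace FT

/-- **Decay of the Fourier transform**, uniform in the phase, in all variables. -/
theorem decay_typ2 (hn : 2 ≤ n) (m : ℕ) (hm : 1 ≤ m) {c B : ℝ} (hc : 0 < c) (hB : 0 ≤ B) :
    ∃ C : ℝ, 0 ≤ C ∧ ∀ (ψ : E n → ℝ) (L : ℝ), 0 ≤ L → ContDiff ℝ (m + 2 : ℕ) ψ →
      (∀ z : E n, ‖z‖ ≤ 1 → J (m + 2) ψ z ≤ B * L) → Typ m c L ψ →
      ∀ ξ : E n, ‖extn (fun x => Complex.exp (((ψ x : ℝ) : ℂ) * Complex.I)) ξ‖ ≤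
        C * (1 + L + ‖ξ‖) ^ (-(1 / (m : ℝ))) := by
  have hm0 : (0 : ℝ) < m := by exact_mod_cast hm
  set κ : ℝ := 1 / (m : ℝ) with hκ
  have hκ0 : 0 < κ := by positivity
  have hκ1 : κ ≤ 1 := by
    rw [hκ, div_le_one hm0]
    exact_mod_cast hm
  set σ : ℝ := (sm n).real univ with hσ
  have hσ0 : 0 ≤ σ := by positivity
  obtain ⟨C, hC, H⟩ := decay_unif hn m hc (B := B + 1) (by linarith)
  refine ⟨2 * (C + σ), by positivity, fun ψ L hL hψ hJ hT ξ => ?_⟩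
  set ζ : E n := (-(2 * π)) • ξ with hζ
  have hnζ : ‖ξ‖ ≤ ‖ζ‖ := by
    rw [hζ, norm_smul, Real.norm_eq_abs, abs_neg, abs_of_pos (by positivity)]
    have : 1 ≤ 2 * π := by linarith [Real.pi_gt_three]
    exact le_mul_of_one_le_left (norm_nonneg _) this
  have hex : extn (fun x => Complex.exp (((ψ x : ℝ) : ℂ) * Complex.I)) ξ =
      ∫ x : S n, ei ((fun y : E n => ψ y + inner ℝ y ζ) x) ∂sm n := by
    unfold extn
    refine integral_congr_ae (Filter.Eventually.of_forall fun x => ?_)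
    simp only
    rw [← Complex.exp_add]
    unfold ei
    congr 1
    rw [hζ, inner_smul_right]
    push_cast
    ring
  have hinner : ContDiff ℝ (m + 2 : ℕ) (fun y : E n => inner ℝ y ζ) :=
    contDiff_id.inner ℝ contDiff_const
  set X : ℝ := 1 + L + ‖ξ‖ with hX
  have hX0 : 0 < X := by positivity
  have htwo : ∀ M : ℝ, 1 ≤ M → X ≤ 2 * M → M ^ (-κ) ≤ 2 * X ^ (-κ) := by
    intro M hM hLM
    have h1 : M ^ (-κ) ≤ (X / 2) ^ (-κ) :=
      Real.rpow_le_rpow_of_nonpos (by positivity) (by linarith) (by linarith)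
    refine h1.trans ?_
    rw [Real.div_rpow (by linarith) (by norm_num), div_eq_mul_inv, mul_comm]
    refine mul_le_mul_of_nonneg_right ?_ (by positivity)
    rw [Real.rpow_neg (by norm_num), inv_inv]
    calc (2 : ℝ) ^ κ ≤ 2 ^ (1 : ℝ) := Real.rpow_le_rpow_of_exponent_le (by norm_num) hκ1
      _ = 2 := Real.rpow_one 2
  have h3 : 0 ≤ X ^ (-κ) := by positivity
  rcases le_or_gt 1 (L + ‖ζ‖) with hbig | hsmall
  · have h1 := H (fun y => ψ y + inner ℝ y ζ) (L + ‖ζ‖) hbig (hψ.add hinner) (by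
      intro z hz
      have h2 := J_add (m + 2) hψ hinner z
      have h3 := J_inner (m + 2) ζ z
      have h4 := hJ z hz
      have h5 : (ψ + fun y : E n => inner ℝ y ζ) = fun y => ψ y + inner ℝ y ζ := rfl
      rw [h5] at h2
      have h6 : 0 ≤ B * ‖ζ‖ := by positivity
      nlinarith [norm_nonneg ζ]) (by
      intro x hx
      exact hT x ζ hx)
    rw [hex]
    refine h1.trans ?_
    have h2 := htwo _ hbig (by rw [hX]; linarith)
    calc C * (L + ‖ζ‖) ^ (-κ) ≤ C * (2 * X ^ (-κ)) := mul_le_mul_of_nonneg_left h2 hC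
      _ ≤ 2 * (C + σ) * X ^ (-κ) := by nlinarith [mul_nonneg hσ0 h3]
  · rw [hex]
    have h1 : ‖∫ x : S n, ei ((fun y : E n => ψ y + inner ℝ y ζ) x) ∂sm n‖ ≤ 1 * σ :=
      norm_integral_le_of_norm_le_const (Filter.Eventually.of_forall fun x => (norm_ei _).le)
    refine h1.trans ?_
    have h4 := htwo 1 le_rfl (by rw [hX]; linarith)
    rw [Real.one_rpow] at h4
    calc 1 * σ ≤ (2 * X ^ (-κ)) * σ := mul_le_mul_of_nonneg_right h4 hσ0
      _ ≤ 2 * (C + σ) * X ^ (-κ) := by nlinarith [mul_nonneg hC h3]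

/-- The estimate with a small loss for phases with derivatives at most `B k * L`. -/
theorem loss_sizeA {p0 s : ℝ} (H : LossSA n p0 s) {V : ℝ} (hV : 1 ≤ V) (p : ℝ) (hp : p0 < p) (ε : ℝ)
    (hε : 0 < ε) (B : ℕ → ℝ) :
    ∃ K : ℝ, 0 < K ∧ ∀ (L : ℝ) (ψ : E n → ℝ) (w : E n → ℂ), 0 ≤ L →
      (∀ x, ‖x‖ = 1 → ContDiffAt ℝ ((⊤ : ℕ∞) : WithTop ℕ∞) ψ x) →
      (∀ k (x : E n), ‖x‖ = 1 → ‖iteratedFDeriv ℝ k ψ x‖ ≤ B k * L) → AVn n s V w →
      ∫⁻ ξ, ‖extn (fun x => w x * Complex.exp (((ψ x : ℝ) : ℂ) * Complex.I)) ξ‖ₑ ^ p ≤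
        ENNReal.ofReal (K * (1 + L) ^ ε) := by
  obtain ⟨K, hK, h⟩ := H V hV p hp ε hε fun k => |B k|
  refine ⟨K * 2 ^ ε, by positivity, fun L ψ w hL hψ hB hw => ?_⟩
  have h1L : (0:ℝ) < 1 + L := by linarith
  have h1 := h (fun x => (1 + L)⁻¹ • ψ x) w (fun x hx => (hψ x hx).const_smul _) (by
    intro k x hx
    have h2 : ContDiffAt ℝ k ψ x := (hψ x hx).of_le (by exact_mod_cast le_top)
    rw [iteratedFDeriv_const_smul_apply' h2, norm_smul, Real.norm_eq_abs, abs_inv,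
      abs_of_pos h1L]
    have h3 := hB k x hx
    have h4 : B k * L ≤ |B k| * (1 + L) :=
      mul_le_mul (le_abs_self _) (by linarith) hL (abs_nonneg _)
    calc (1 + L)⁻¹ * ‖iteratedFDeriv ℝ k ψ x‖ ≤ (1 + L)⁻¹ * (|B k| * (1 + L)) :=
          mul_le_mul_of_nonneg_left (h3.trans h4) (by positivity)
      _ = |B k| := by field_simp) hw (1 + L)
  have e : (fun x : E n => w x * Complex.exp ((((1 + L) * ((1 + L)⁻¹ • ψ x) : ℝ) : ℂ) * Complex.I)) =
      fun x => w x * Complex.exp (((ψ x : ℝ) : ℂ) * Complex.I) := by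
    funext x
    rw [smul_eq_mul, ← mul_assoc, mul_inv_cancel₀ h1L.ne', one_mul]
  rw [e] at h1
  refine h1.trans (ENNReal.ofReal_le_ofReal ?_)
  rw [abs_of_pos h1L, mul_assoc, ← Real.mul_rpow (by norm_num) h1L.le]
  refine mul_le_mul_of_nonneg_left ?_ hK.le
  exact Real.rpow_le_rpow (by positivity) (by linarith) hε.le

/-- **The restriction estimate for smooth phases of type `m` with an amplitude of bounded
variation**, uniform in the phase and the amplitude. -/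
theorem typ_bound_bv {j : ℕ} {p0 s : ℝ} (hp0 : 0 ≤ p0) (hs : 0 < s) (hs1 : s ≤ 1)
    (H : LossSA (j + 2) p0 s) {V : ℝ} (hV : 1 ≤ V) (m : ℕ) (hm : 1 ≤ m) (p : ℝ)
    (hp : p0 < p) (c : ℝ) (hc : 0 < c) (B : ℕ → ℝ) :
    ∃ C : ℝ≥0∞, C ≠ ∞ ∧ ∀ (L : ℝ) (ψ : E (j + 2) → ℝ) (w : E (j + 2) → ℂ), 0 ≤ L →
      ContDiff ℝ ((⊤ : ℕ∞) : WithTop ℕ∞) ψ →
      (∀ (k : ℕ) (y : E (j + 2)), ‖y‖ ≤ 2 → ‖iteratedFDeriv ℝ k ψ y‖ ≤ B k * L) →
      Typ m c L ψ → AVn (j + 2) s V w →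
      ∫⁻ ξ, ‖extn (fun x => w x * Complex.exp (((ψ x : ℝ) : ℂ) * Complex.I)) ξ‖ₑ ^ p ≤ C := by
  have hm0 : (0 : ℝ) < m := by exact_mod_cast hm
  have hj2 : (0:ℝ) < (j : ℝ) + 2 := by positivity
  set p1 : ℝ := (p0 + p) / 2 with hp1
  have h01 : p0 < p1 := by rw [hp1]; linarith
  have h1p : p1 < p := by rw [hp1]; linarith
  set δ : ℝ := 1 / (m : ℝ) * s / (2 * ((j : ℝ) + 2)) with hδ
  have hδ0 : 0 < δ := by positivity
  set e : ℝ := δ * (p - p1) with he
  have he0 : 0 < e := mul_pos hδ0 (by linarith)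
  obtain ⟨K, hK, H1⟩ := loss_sizeA H hV p1 h01 e he0 B
  set B0 : ℝ := ∑ i ∈ Finset.range (m + 2), |B (i + 1)| with hB0
  have hB00 : 0 ≤ B0 := Finset.sum_nonneg fun i _ => abs_nonneg _
  obtain ⟨C2, hC2, H2⟩ := decay_typ2 (n := j + 2) (by omega) m hm hc hB00
  obtain ⟨C3, hC3, H3⟩ := bv_decay j
  set C4 : ℝ := C3 * (C2 + 1) * V with hC4
  have hC40 : 0 ≤ C4 := by positivity
  refine ⟨ENNReal.ofReal (C4 ^ (p - p1) * K), ENNReal.ofReal_ne_top,
    fun L ψ w hL hψ hB hT hw => ?_⟩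
  have h1L : (0:ℝ) < 1 + L := by linarith
  have hdec := H2 ψ L hL (contDiff_infty.1 hψ (m + 2)) (by
    intro z hz
    unfold J
    rw [hB0, Finset.sum_mul]
    refine Finset.sum_le_sum fun i _ => ?_
    refine (hB (i + 1) z (by linarith)).trans ?_
    exact mul_le_mul_of_nonneg_right (le_abs_self _) hL) hT
  have hem : Measurable fun x : E (j + 2) => Complex.exp (((ψ x : ℝ) : ℂ) * Complex.I) :=
    (Complex.continuous_exp.comp
      ((Complex.continuous_ofReal.comp hψ.continuous).mul continuous_const)).measurable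
  have hdec2 : ∀ ξ, ‖extn (fun x => w x * Complex.exp (((ψ x : ℝ) : ℂ) * Complex.I)) ξ‖ ≤
      C4 * (1 + L) ^ (-δ) := by
    intro ξ
    have h1 := H3 w (fun x => Complex.exp (((ψ x : ℝ) : ℂ) * Complex.I)) hw.1 hem hw.2.1
      (fun x => (Complex.norm_exp_ofReal_mul_I _).le) s V (C2 + 1) (1 / (m : ℝ)) (1 + L)
      hs.le hs1 hV hw.2.2 (by linarith) (by positivity) (by
        rw [div_le_one hm0]
        exact_mod_cast hm) (by linarith) (fun ξ => (hdec ξ).trans (by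
          refine mul_le_mul_of_nonneg_right (by linarith) ?_
          exact Real.rpow_nonneg (by linarith [norm_nonneg ξ]) _)) ξ
    refine h1.trans ?_
    refine mul_le_mul_of_nonneg_left ?_ hC40
    exact Real.rpow_le_rpow_of_nonpos (by linarith) (by linarith [norm_nonneg ξ]) (by linarith)
  have hloss := H1 L ψ w hL (fun x _ => hψ.contDiffAt)
    (fun k x hx => hB k x (by rw [hx]; norm_num)) hw
  have h1 := interp_set (volume : Measure (E (j + 2))) (p1 := p1) (p := p)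
    (M := C4 * (1 + L) ^ (-δ)) (by linarith) h1p.le
    (extn (fun x => w x * Complex.exp (((ψ x : ℝ) : ℂ) * Complex.I))) univ MeasurableSet.univ
    (by positivity) (fun ξ _ => hdec2 ξ)
  rw [Measure.restrict_univ] at h1
  refine h1.trans ((mul_le_mul' le_rfl hloss).trans ?_)
  rw [← ENNReal.ofReal_mul (by positivity)]
  refine ENNReal.ofReal_le_ofReal (le_of_eq ?_)
  rw [Real.mul_rpow hC40 (by positivity), ← Real.rpow_mul h1L.le]
  have e1 : -δ * (p - p1) = -e := by rw [he]; ring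
  rw [e1]
  have e2 : (1 + L) ^ (-e) * (1 + L) ^ e = 1 := by
    rw [← Real.rpow_add h1L, neg_add_cancel, Real.rpow_zero]
  calc C4 ^ (p - p1) * (1 + L) ^ (-e) * (K * (1 + L) ^ e) =
        C4 ^ (p - p1) * K * ((1 + L) ^ (-e) * (1 + L) ^ e) := by ring
    _ = C4 ^ (p - p1) * K := by rw [e2, mul_one]

end FT

end Pool.Agent.VANn
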