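import Pool.Agent.VANn.FVB

/-!
Families of finite type with an amplitude of bounded variation: the uniform restriction estimate,
with cuts, superpositions, and in higher dimensions, over the estimate with a small loss.
-/

set_option autoImplicit false

namespace Pool.Agent.VANn

open MeasureTheory Set Metric Pool.Agent.MP_6cbfb8_an Pool.Agent.VAN Pool.Agent.GNP
open scoped ENNReal Real

variable {n : ℕ}

namespace FT

/-- no cuts -/
theorem fin_nocut_bv {j : ℕ} {p0 s : ℝ} (hp0 : 0 ≤ p0) (hs : 0 < s) (hs1 : s ≤ 1)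
    (HL : LossSA (j + 2) p0 s) {V : ℝ} (hV : 1 ≤ V) {d : ℕ} (m : ℕ) (c : ℝ) (hc : 0 < c)
    (B : ℕ → ℝ) (p : ℝ) (hp : p0 < p) :
    ∃ C : ℝ≥0∞, C ≠ ∞ ∧ ∀ (φ : Fin d → E (j + 2) → ℝ) (w : E (j + 2) → ℂ), FinType m c B φ →
      AVn (j + 2) s V w → ∀ a : Fin d → ℝ,
        ∫⁻ ξ, ‖extn (fun x => w x * Complex.exp (((fam φ a x : ℝ) : ℂ) * Complex.I)) ξ‖ₑ ^ p
          ≤ C := by
  rcases Nat.eq_zero_or_pos m with rfl | hm
  · exact ⟨0, by simp, fun φ w hφ _ a =>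
      absurd ((hφ.2.2 a).pos (n := j + 2) (by omega)) (by norm_num)⟩
  obtain ⟨C, hC, H⟩ := typ_bound_bv hp0 hs hs1 HL hV m hm p hp c hc fun k => d * |B k|
  refine ⟨C, hC, fun φ w hφ hw a => ?_⟩
  exact H ‖a‖ (fam φ a) w (norm_nonneg _) (fam_smooth hφ.1 a)
    (fun k y hy => fam_iter_le hφ.1 hφ.2.1 a k hy) (hφ.2.2 a) hw

/-- extended families, with cuts and an amplitude -/
theorem cls_cuts_bv {j : ℕ} {p0 s : ℝ} (hp0 : 1 ≤ p0) (hs : 0 < s) (hs1 : s ≤ 1)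
    (HL : LossSA (j + 2) p0 s) {V : ℝ} (hV : 1 ≤ V) {d : ℕ} (m : ℕ) (c : ℝ) (hc : 0 < c)
    (B : ℕ → ℝ) (N : ℕ) (p : ℝ) (hp : p0 < p) :
    ∃ C : ℝ≥0∞, C ≠ ∞ ∧ ∀ (Φ : Fin (d + (j + 2 + 1)) → E (j + 2) → ℝ) (w : E (j + 2) → ℂ),
      (cls m c B Φ ∧ AVn (j + 2) s V w) →
      ∀ (a : Fin (d + (j + 2 + 1)) → ℝ) (b : Fin N → Fin (d + (j + 2 + 1)) → ℝ),
        ∫⁻ ξ, ‖extn (fun x => famc Φ a b x * w x) ξ‖ₑ ^ p ≤ C := by
  refine VAN.FT.cuts_amp p0 hp0 (P := fun Φ w => cls m c B Φ ∧ AVn (j + 2) s V w)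
    (fun Φ w h => ⟨fun j => (cls_meas h.1 j).measurable, h.2.1, h.2.2.1⟩) ?_ ?_ ?_ N p hp
  · refine ⟨|B 0| + 1, ?_⟩
    rintro Φ w ⟨⟨φ, hφ, rfl⟩, -⟩ i x hx
    refine Fin.addCases (fun i => ?_) (fun i => ?_) i
    · rw [Fin.append_left]
      have h2 := hφ.2.1 i 0 x (by rw [hx]; norm_num)
      rw [norm_iteratedFDeriv_zero] at h2
      rw [Real.norm_eq_abs] at h2
      linarith [le_abs_self (B 0)]
    · rw [Fin.append_right]
      linarith [abs_aff_le hx i, abs_nonneg (B 0)]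
  · obtain ⟨K, κ, hK, hκ, H⟩ := cls_sub (n := j + 2) (by omega) (d := d) m c hc B
    exact ⟨K, κ, hK, hκ, fun Φ w h => H Φ h.1⟩
  · intro q hq
    obtain ⟨C, hC, H⟩ := fin_nocut_bv (by linarith) hs hs1 HL hV (d := d) m c hc B q hq
    refine ⟨C, hC, ?_⟩
    rintro Φ w ⟨⟨φ, hφ, rfl⟩, hw⟩ C'
    obtain ⟨a, b, rfl⟩ := append_split' C'
    have h2 := lint_phase w (φ := fam (Fin.append φ aff) (Fin.append a b))
      (φ' := fam φ a) (ζ := WithLp.toLp 2 (fun i : Fin (j + 2) => b (Fin.castSucc i)))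
      (c := b (Fin.last (j + 2)))
      (fun x _ => by
        rw [fam_append, fam_aff]
        ring) q
    rw [h2]
    refine le_trans (le_of_eq ?_) (H φ w hφ hw a)
    refine lintegral_congr fun ξ => ?_
    congr 3
    funext x
    rw [mul_comm]

/-- **The uniform estimate for families of finite type, with cuts and an amplitude of bounded
variation.** -/
theorem fin_bound_bv {j : ℕ} {p0 s : ℝ} (hp0 : 1 ≤ p0) (hs : 0 < s) (hs1 : s ≤ 1)
    (HL : LossSA (j + 2) p0 s) {V : ℝ} (hV : 1 ≤ V) {d : ℕ} (N m : ℕ) (c : ℝ) (hc : 0 < c)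
    (B : ℕ → ℝ) (p : ℝ) (hp : p0 < p) :
    ∃ C : ℝ≥0∞, C ≠ ∞ ∧ ∀ (φ : Fin d → E (j + 2) → ℝ) (w : E (j + 2) → ℂ), FinType m c B φ →
      AVn (j + 2) s V w →
      ∀ (a : Fin d → ℝ) (b : Fin N → Fin d → ℝ) (ζ : Fin N → E (j + 2)) (κ : Fin N → ℝ),
        ∫⁻ ξ, ‖extn (fun x => w x * famA φ a b ζ κ x) ξ‖ₑ ^ p ≤ C := by
  obtain ⟨C, hC, H⟩ := cls_cuts_bv hp0 hs hs1 HL hV (d := d) m c hc B N p hp
  refine ⟨C, hC, fun φ w hφ hw a b ζ κ => ?_⟩
  have h := H (Fin.append φ aff) w ⟨⟨φ, hφ, rfl⟩, hw⟩ (Fin.append a 0)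
    (fun i => Fin.append (b i) (Fin.snoc (fun k : Fin (j + 2) => ζ i k) (κ i)))
  refine le_trans (le_of_eq ?_) h
  refine lintegral_congr fun ξ => ?_
  congr 3
  funext x
  rw [mul_comm]
  congr 1
  unfold famA famc
  have h0 : fam (Fin.append φ aff) (Fin.append a 0) x = fam φ a x := by
    rw [fam_append]
    have : fam aff (0 : Fin (j + 2 + 1) → ℝ) x = 0 := by
      unfold fam
      simp
    rw [this, add_zero]
  rw [h0]
  congr 1
  refine Finset.prod_congr rfl fun i _ => ?_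
  have h1 : fam (Fin.append φ aff)
      (Fin.append (b i) (Fin.snoc (fun k : Fin (j + 2) => ζ i k) (κ i))) x =
      fam φ (b i) x + inner ℝ x (ζ i) + κ i := by
    rw [fam_append, fam_aff]
    have e1 : (WithLp.toLp 2 (fun k : Fin (j + 2) =>
        (Fin.snoc (fun k : Fin (j + 2) => ζ i k) (κ i) : Fin (j + 2 + 1) → ℝ)
          (Fin.castSucc k)) : E (j + 2)) = ζ i := by
      ext k
      simp
    have e2 : (Fin.snoc (fun k : Fin (j + 2) => ζ i k) (κ i) : Fin (j + 2 + 1) → ℝ)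
        (Fin.last (j + 2)) = κ i :=
      Fin.snoc_last (α := fun _ => ℝ) (κ i) (fun k : Fin (j + 2) => ζ i k)
    rw [e1, e2]
    ring
  rw [h1]

end FT

/-- The densities `w e^{iu} ∏_{i<N} 1_{v_i > 0}` on the unit sphere of `R^n`, where `|w| ≤ 1` is of
variation at most `V` (of order `s`), `u` is a linear combination, and `v_i` a linear combination
plus an affine function, of the members of some family `φ_1, …, φ_d` of finite type with the
constants `m`, `c`, `B`. -/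
def DensA (s : ℝ) (d N m : ℕ) (c : ℝ) (B : ℕ → ℝ) (V : ℝ) (g : E n → ℂ) : Prop :=
  ∃ (w : E n → ℂ) (φ : Fin d → E n → ℝ) (a : Fin d → ℝ) (b : Fin N → Fin d → ℝ)
    (ζ : Fin N → E n) (κ : Fin N → ℝ), AVn n s V w ∧ FinType m c B φ ∧
      g = fun x => w x * famA φ a b ζ κ x

theorem DensA.norm_le {s : ℝ} {d N m : ℕ} {c : ℝ} {B : ℕ → ℝ} {V : ℝ} {g : E n → ℂ}
    (h : DensA s d N m c B V g) (x : E n) : ‖g x‖ ≤ 1 := by
  obtain ⟨w, φ, a, b, ζ, κ, hw, -, rfl⟩ := h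
  rw [norm_mul]
  refine mul_le_one₀ (hw.2.1 x) (norm_nonneg _) ?_
  unfold famA
  rw [norm_mul, Complex.norm_exp_ofReal_mul_I, one_mul, norm_prod]
  refine Finset.prod_le_one (fun _ _ => norm_nonneg _) fun i _ => ?_
  split_ifs <;> simp

/-- The class has the uniform estimate. -/
theorem ub_densA (hn : 2 ≤ n) {p0 s : ℝ} (hp0 : 1 ≤ p0) (hs : 0 < s) (hs1 : s ≤ 1)
    (H : LossSA n p0 s) (d N m : ℕ) (c : ℝ) (hc : 0 < c) (B : ℕ → ℝ) (V : ℝ) :
    UB p0 (DensA (n := n) s d N m c B V) := by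
  obtain ⟨j, rfl⟩ : ∃ j, n = j + 2 := ⟨n - 2, by omega⟩
  intro p hp
  obtain ⟨C, hC, h⟩ := FT.fin_bound_bv hp0 hs hs1 H (V := max V 1) (le_max_right _ _) (d := d) N m c
    hc B p hp
  refine ⟨C, hC, ?_⟩
  rintro g _ _ ⟨w, φ, a, b, ζ, κ, ⟨hw, hw1, hwV⟩, hφ, rfl⟩
  refine h φ w hφ ⟨hw, hw1, fun r hr => (hwV r hr).trans ?_⟩ a b ζ κ
  apply ENNReal.ofReal_le_ofReal
  exact mul_le_mul_of_nonneg_right (le_max_left _ _) (by positivity)

/-- The bounds for the classes of finite type with amplitudes of bounded variation. -/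
theorem bounds_densA {m : ℕ} (hm : 2 ≤ m) {s : ℝ} (hs : 0 < s) (hs1 : s ≤ 1)
    (H : LossSA (m + 1) (2 * ((m : ℝ) + 1) / m) s)
    (d N k : ℕ) (c : ℝ) (hc : 0 < c) (B : ℕ → ℝ) (V : ℝ) :
    Bound (m := m) (DensA s d N k c B V) ∧ BoundHigh (m := m) (DensA s d N k c B V) := by
  have h0 : (2:ℝ) ≤ m := by exact_mod_cast hm
  have h1 : 1 ≤ 2 * ((m : ℝ) + 1) / m := by
    rw [le_div_iff₀ (by positivity)]
    linarith
  exact bounds_of hm (fun g hg x => hg.norm_le x)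
    (ub_densA (by omega) h1 hs hs1 H d N k c hc B V)

end Pool.Agent.VANn
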