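import Pool.Agent.VANn.NG3

/-!
Almost every finite-dimensional space of smooth functions on the sphere of `R^n` has no flat points.
-/

set_option autoImplicit false

namespace Pool.Agent.VANn

open MeasureTheory Set Filter Topology Asymptotics Pool.Agent.MP_6cbfb8_an Pool.Agent.VANn.NG
open Pool.Agent.VAN (fam)
open scoped Real ContDiff

variable {n : ℕ}

/-- A linear function whose derivatives along the rotations in the coordinate planes vanish. -/
theorem lin_zero (hn2 : 2 ≤ n) {ζ : Fin n → ℝ} {x : E n} (hx : ‖x‖ = 1)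
    (h : ∀ i l : Fin n, i ≠ l → ∀ k, 1 ≤ k → (rotD i l)^[k] (fun y => ∑ m, ζ m * y m) x = 0) :
    ζ = 0 := by
  have hd : ∀ m : Fin n, Differentiable ℝ fun y : E n => y m := fun m =>
    (contDiff_coord m).differentiable (by simp)
  have hco : ∀ i l : Fin n, i ≠ l → ∀ m, rotD i l (fun y : E n => y m) =
      fun y => if m = i then y l else if m = l then -y i else 0 := by
    intro i l hil m
    by_cases h1 : m = i
    · subst h1
      rw [rotD_i hil]
      simp
    · by_cases h2 : m = l
      · subst h2
        rw [rotD_l hil]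
        simp [h1]
      · rw [rotD_j h1 h2]
        simp [h1, h2]
  have h1 : ∀ i l : Fin n, i ≠ l → rotD i l (fun y : E n => ∑ m, ζ m * y m) =
      fun y => ζ i * y l - ζ l * y i := by
    intro i l hil
    rw [rotD_sum _ (fun m => (hd m).const_mul (ζ m))]
    funext y
    have h2 : ∀ m, rotD i l (fun y : E n => ζ m * y m) y =
        (if m = i then ζ m * y l else 0) + (if m = l then -(ζ m * y i) else 0) := by
      intro m
      rw [rotD_cmul _ (hd m), hco i l hil m]
      by_cases h3 : m = i
      · subst h3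
        simp [hil]
      · by_cases h4 : m = l
        · subst h4
          simp [h3]
        · simp [h3, h4]
    rw [Finset.sum_congr rfl fun m _ => h2 m, Finset.sum_add_distrib]
    simp only [Finset.sum_ite_eq', Finset.mem_univ, if_true]
    ring
  have h2 : ∀ i l : Fin n, i ≠ l → (rotD i l)^[2] (fun y : E n => ∑ m, ζ m * y m) =
      fun y => -(ζ i * y i) - ζ l * y l := by
    intro i l hil
    rw [Function.iterate_succ_apply', Function.iterate_one, h1 i l hil]
    have e1 : (fun y : E n => ζ i * y l - ζ l * y i) = fun y : E n => ζ i * y l + (-ζ l) * y i := by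
      funext y
      ring
    rw [e1, rotD_add ((hd l).const_mul _) ((hd i).const_mul _)]
    funext y
    rw [rotD_cmul _ (hd l), rotD_cmul _ (hd i), hco i l hil l, hco i l hil i]
    simp only [hil.symm, if_true, if_false]
    ring
  obtain ⟨l, hl⟩ := exists_l hx
  have key : ∀ i, i ≠ l → ζ i * x l = ζ l * x i := by
    intro i hil
    have h3 := h i l hil 1 le_rfl
    rw [Function.iterate_one, h1 i l hil] at h3
    linarith
  have key2 : ∀ i, i ≠ l → ζ i * x i + ζ l * x l = 0 := by
    intro i hil
    have h3 := h i l hil 2 (by norm_num)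
    rw [h2 i l hil] at h3
    linarith
  have hzl : ζ l = 0 := by
    obtain ⟨i, hil⟩ := exists_i hn2 l
    have h3 := key i hil
    have h4 := key2 i hil
    have h5 : ζ l * (x i ^ 2 + x l ^ 2) = 0 := by
      have : ζ l * (x i ^ 2 + x l ^ 2) = (ζ l * x i) * x i + ζ l * x l * x l := by ring
      rw [this, ← h3]
      have h6 : ζ i * x l * x i + ζ l * x l * x l = (ζ i * x i + ζ l * x l) * x l := by ring
      rw [h6, h4, zero_mul]
    have h6 : 0 < x i ^ 2 + x l ^ 2 := by positivity
    exact (mul_eq_zero.1 h5).resolve_right h6.ne'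
  funext i
  by_cases hil : i = l
  · rw [hil]; exact hzl
  · have h3 := key i hil
    rw [hzl, zero_mul] at h3
    exact (mul_eq_zero.1 h3).resolve_right hl

/-- Almost every family has no flat points. -/
theorem ae_nonflat (hn2 : 2 ≤ n) {d : ℕ} (φ : Fin d → E n → ℝ)
    (hs : ∀ j, ∀ x ∈ Metric.sphere (0 : E n) 1, ContDiffAt ℝ ((⊤ : ℕ∞) : WithTop ℕ∞) (φ j) x) :
    ∀ᵐ b : Fin d → Fin n → Fin (d + 2 * n) → ℝ,
      Nonflat fun j x => φ j x + ∑ i, ∑ k : Fin (d + 2 * n), b j i k * x i ^ ((k : ℕ) + 1) := by
  choose F hF _ hFS using fun j => extend (φ j) (hs j)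
  filter_upwards [ae_tot hn2 hF] with b hb
  refine ⟨fun j x hx => (hs j x hx).add ?_, ?_⟩
  · have : ContDiff ℝ ∞ fun x : E n =>
        ∑ i, ∑ k : Fin (d + 2 * n), b j i k * x i ^ ((k : ℕ) + 1) := by
      fun_prop
    exact this.contDiffAt
  intro a ζ x hx hflat
  have hS : ∀ y : E n, ‖y‖ = 1 → fam (fun j x => φ j x +
      ∑ i, ∑ k : Fin (d + 2 * n), b j i k * x i ^ ((k : ℕ) + 1)) a y + inner ℝ y ζ =
        tot F b a (fun m => ζ m) y := by
    intro y hy
    unfold Pool.Agent.VAN.fam tot
    rw [PiLp.inner_apply]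
    congr 1
    refine Finset.sum_congr rfl fun j _ => ?_
    rw [hFS j y (by simpa using hy)]
  have hflat' : Flat (tot F b a (fun m => ζ m)) x := by
    intro k
    refine (hflat k).congr' ?_ EventuallyEq.rfl
    filter_upwards [self_mem_nhdsWithin] with y hy
    rw [hS y (by simpa using hy), hS x hx]
  have hrot : ∀ i l : Fin n, i ≠ l → ∀ k, 1 ≤ k →
      (rotD i l)^[k] (tot F b a fun m => ζ m) x = 0 := fun i l hil k hk =>
    rotD_of_flat hil (fun y _ => (contDiff_tot hF b a _).contDiffAt) hx hflat' k hk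
  have ha : a = 0 := hb a (fun m => ζ m) x hx fun i l hil k hk _ => hrot i l hil k hk
  subst ha
  have hζ : (fun m => ζ m) = 0 := by
    refine lin_zero hn2 hx fun i l hil k hk => ?_
    have h4 := hrot i l hil k hk
    have h5 : tot F b 0 (fun m => ζ m) = fun y => ∑ m, ζ m * y m := by
      funext y
      unfold tot
      simp
    rwa [h5] at h4
  have hζ' : ζ = 0 := by
    ext m
    exact congrFun hζ m
  intro y _
  subst hζ'
  simp [Pool.Agent.VAN.fam]

end Pool.Agent.VANn
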