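import Pool.Agent.VANn.MainP
import Pool.Agent.VANn.GA
import Pool.Agent.VANn.NG4
import Pool.Agent.GNP.DefsH
import Pool.Agent.GNP.WBV
import Pool.Agent.GNP.MeasNear

/-!
Nonflat families with amplitudes with an `L²`-modulus of continuity, over the estimate with a small
loss, in the full conjectured range of exponents.
-/

namespace Pool.Agent.VANn

open MeasureTheory Set Pool.Agent.MP_6cbfb8_an Pool.Agent.VAN Pool.Agent.GNP
open scoped ENNReal Real

/-- An `L²`-modulus of continuity of order `s/2` gives an `L¹`-modulus of continuity of order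
`s/2`. -/
theorem hs_bvn (n : ℕ) (hn : 2 ≤ n) : ∃ K : ℝ, 0 ≤ K ∧ ∀ (s V : ℝ) (a : E n → ℂ), 0 ≤ V →
    BN2 n s V a → BVn n (s / 2) (V + K) a := by
  obtain ⟨K, hK, hcap⟩ := wb_cap n hn
  set M : ℝ := (sm n univ).toReal with hM
  have hfin : sm n univ ≠ ∞ := measure_ne_top _ _
  have hM0 : 0 ≤ M := ENNReal.toReal_nonneg
  refine ⟨K * M, by positivity, fun s V a hV h r hr => ?_⟩
  set l : ℝ := r ^ (s / 2) with hl
  have hl0 : 0 < l := Real.rpow_pos_of_pos hr _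
  -- the inequality between the means
  have key : ∀ z : ℂ, ‖z‖ₑ ≤ ENNReal.ofReal (1 / l) * ‖z‖ₑ ^ 2 + ENNReal.ofReal l := by
    intro z
    rw [← ofReal_norm, ← ENNReal.ofReal_pow (norm_nonneg _), ← ENNReal.ofReal_mul (by positivity),
      ← ENNReal.ofReal_add (by positivity) hl0.le]
    apply ENNReal.ofReal_le_ofReal
    have h1 : 0 ≤ ‖z‖ := norm_nonneg z
    have h2 : ‖z‖ * l ≤ ‖z‖ ^ 2 + l ^ 2 := by nlinarith [sq_nonneg (‖z‖ - l), sq_nonneg (‖z‖ + l)]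
    calc ‖z‖ = (‖z‖ * l) / l := by field_simp
      _ ≤ (‖z‖ ^ 2 + l ^ 2) / l := by gcongr
      _ = 1 / l * ‖z‖ ^ 2 + l := by field_simp
  have h1 : ∀ x : S n, (∫⁻ y in Metric.closedBall x r, ‖a x - a y‖ₑ ∂(sm n)) ≤
      ENNReal.ofReal (1 / l) * (∫⁻ y in Metric.closedBall x r, ‖a x - a y‖ₑ ^ 2 ∂(sm n)) +
        ENNReal.ofReal (l * (K * r ^ (n - 1))) := by
    intro x
    calc (∫⁻ y in Metric.closedBall x r, ‖a x - a y‖ₑ ∂(sm n))
        ≤ ∫⁻ y in Metric.closedBall x r,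
            (ENNReal.ofReal (1 / l) * ‖a x - a y‖ₑ ^ 2 + ENNReal.ofReal l) ∂(sm n) :=
          lintegral_mono fun y => key _
      _ = ENNReal.ofReal (1 / l) * (∫⁻ y in Metric.closedBall x r, ‖a x - a y‖ₑ ^ 2 ∂(sm n)) +
            ENNReal.ofReal l * sm n (Metric.closedBall x r) := by
          rw [lintegral_add_right _ measurable_const,
            lintegral_const_mul' _ _ ENNReal.ofReal_ne_top, lintegral_const,
            Measure.restrict_apply MeasurableSet.univ, univ_inter]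
      _ ≤ _ := by
          rw [ENNReal.ofReal_mul hl0.le]
          gcongr
          exact hcap x r hr.le
  calc ∫⁻ x : S n, (∫⁻ y in Metric.closedBall x r, ‖a x - a y‖ₑ ∂(sm n)) ∂(sm n)
      ≤ ∫⁻ x : S n, (ENNReal.ofReal (1 / l) *
          (∫⁻ y in Metric.closedBall x r, ‖a x - a y‖ₑ ^ 2 ∂(sm n)) +
          ENNReal.ofReal (l * (K * r ^ (n - 1)))) ∂(sm n) := lintegral_mono h1
    _ = ENNReal.ofReal (1 / l) *
          (∫⁻ x : S n, (∫⁻ y in Metric.closedBall x r, ‖a x - a y‖ₑ ^ 2 ∂(sm n)) ∂(sm n)) +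
          ENNReal.ofReal (l * (K * r ^ (n - 1))) * sm n univ := by
        rw [lintegral_add_right _ measurable_const,
          lintegral_const_mul' _ _ ENNReal.ofReal_ne_top, lintegral_const]
    _ ≤ ENNReal.ofReal (1 / l) * ENNReal.ofReal (V * r ^ ((n : ℝ) - 1 + s)) +
          ENNReal.ofReal (l * (K * r ^ (n - 1))) * ENNReal.ofReal M := by
        gcongr
        · exact h r hr
        · rw [hM, ENNReal.ofReal_toReal hfin]
    _ = ENNReal.ofReal ((V + K * M) * r ^ ((n : ℝ) - 1 + s / 2)) := by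
        rw [← ENNReal.ofReal_mul (by positivity), ← ENNReal.ofReal_mul (by positivity),
          ← ENNReal.ofReal_add (by positivity) (by positivity)]
        congr 1
        have e1 : r ^ ((n : ℝ) - 1 + s) = l * r ^ ((n : ℝ) - 1 + s / 2) := by
          rw [hl, ← Real.rpow_add hr]
          congr 1
          ring
        have e2 : l * r ^ (n - 1) = r ^ ((n : ℝ) - 1 + s / 2) := by
          rw [hl, ← Real.rpow_natCast, ← Real.rpow_add hr, Nat.cast_sub (by omega), Nat.cast_one]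
          congr 1
          ring
        rw [e1]
        calc 1 / l * (V * (l * r ^ ((n : ℝ) - 1 + s / 2))) + l * (K * r ^ (n - 1)) * M
            = V * r ^ ((n : ℝ) - 1 + s / 2) + K * M * (l * r ^ (n - 1)) := by field_simp
          _ = _ := by
            rw [e2]
            ring

/-- A larger order is a smaller class. -/
theorem hs_mono (n : ℕ) (hn : 2 ≤ n) : ∃ K : ℝ, 0 ≤ K ∧ ∀ (s s' V : ℝ) (a : E n → ℂ), 0 ≤ V →
    0 ≤ s' → s' ≤ s → (∀ x, ‖a x‖ ≤ 1) → BN2 n s V a → BN2 n s' (V + K) a := by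
  set M : ℝ := (sm n univ).toReal with hM
  have hfin : sm n univ ≠ ∞ := measure_ne_top _ _
  have hM0 : 0 ≤ M := ENNReal.toReal_nonneg
  have hn1 : (1 : ℝ) ≤ (n : ℝ) := by exact_mod_cast (by omega : 1 ≤ n)
  refine ⟨4 * M * M, by positivity, fun s s' V a hV hs' hss ha h r hr => ?_⟩
  rcases le_total r 1 with hr1 | hr1
  · refine (h r hr).trans (ENNReal.ofReal_le_ofReal ?_)
    have h1 : r ^ ((n : ℝ) - 1 + s) ≤ r ^ ((n : ℝ) - 1 + s') :=
      Real.rpow_le_rpow_of_exponent_ge hr hr1 (by linarith)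
    calc V * r ^ ((n : ℝ) - 1 + s) ≤ V * r ^ ((n : ℝ) - 1 + s') :=
          mul_le_mul_of_nonneg_left h1 hV
      _ ≤ (V + 4 * M * M) * r ^ ((n : ℝ) - 1 + s') := by
          refine mul_le_mul_of_nonneg_right ?_ (by positivity)
          have : 0 ≤ 4 * M * M := by positivity
          linarith
  · have h1 : ∀ x y : S n, ‖a x - a y‖ₑ ^ 2 ≤ ENNReal.ofReal 4 := by
      intro x y
      rw [← ofReal_norm, ← ENNReal.ofReal_pow (norm_nonneg _)]
      apply ENNReal.ofReal_le_ofReal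
      have h2 : ‖a x - a y‖ ≤ 2 := by
        refine (norm_sub_le _ _).trans ?_
        linarith [ha x, ha y]
      nlinarith [norm_nonneg (a x - a y)]
    calc ∫⁻ x : S n, (∫⁻ y in Metric.closedBall x r, ‖a x - a y‖ₑ ^ 2 ∂(sm n)) ∂(sm n)
        ≤ ∫⁻ _x : S n, (∫⁻ _y : S n, ENNReal.ofReal 4 ∂(sm n)) ∂(sm n) :=
          lintegral_mono fun x => (setLIntegral_le_lintegral _ _).trans (lintegral_mono (h1 x))
      _ = ENNReal.ofReal (4 * M * M) := by
          rw [lintegral_const, lintegral_const, ENNReal.ofReal_mul (by positivity),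
            ENNReal.ofReal_mul (by positivity), hM, ENNReal.ofReal_toReal hfin]
      _ ≤ _ := by
          apply ENNReal.ofReal_le_ofReal
          have h3 : 1 ≤ r ^ ((n : ℝ) - 1 + s') := Real.one_le_rpow hr1 (by linarith)
          have h4 : 0 ≤ 4 * M * M := by positivity
          nlinarith

/-- Amplitudes bounded by `1` with an `L²`-modulus of continuity. -/
def AHn (n : ℕ) (s V : ℝ) (w : E n → ℂ) : Prop :=
  Measurable w ∧ (∀ x, ‖w x‖ ≤ 1) ∧ BN2 n s V w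

/-- The statement of `sphere_hs_fam`. -/
def LossHS (m : ℕ) (s V : ℝ) : Prop :=
  ∀ (N : ℕ) (p ε : ℝ), 2 * ((m : ℝ) + 1) / m < p → 0 < ε → ∀ B : ℕ → ℝ, ∃ C : ℝ≥0∞, C ≠ ⊤ ∧
    ∀ φ : Fin N → E (m + 1) → ℝ, (∀ j, Sb (m + 1) B (φ j)) →
      ∀ a : E (m + 1) → ℂ, Measurable a → (∀ x, ‖a x‖ ≤ 1) → BN2 (m + 1) s V a →
      ∀ c : Fin N → ℝ, ∫⁻ ξ, ‖extn (fun x => a x *
          Complex.exp (((∑ j, c j * φ j x : ℝ) : ℂ) * Complex.I)) ξ‖ₑ ^ p ≤
        C * ENNReal.ofReal ((1 + ‖c‖) ^ ε)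

theorem lossH_of {m : ℕ} {s V : ℝ} (H : LossHS m s V) {d : ℕ} (φ : Fin d → E (m + 1) → ℝ)
    (hφ : ∀ j, ∀ x ∈ Metric.sphere (0 : E (m + 1)) 1,
      ContDiffAt ℝ ((⊤ : ℕ∞) : WithTop ℕ∞) (φ j) x) :
    LossP (2 * ((m : ℝ) + 1) / m) (AHn (m + 1) s V) φ := by
  obtain ⟨B, hB⟩ := exists_Sb_fin (f := φ) fun j x hx => hφ j x (by simpa using hx)
  intro p hp ε hε
  obtain ⟨C, hC, h⟩ := H d p ε hp hε B
  exact ⟨C, hC, fun w hw c => h φ hB w hw.1 hw.2.1 hw.2.2 c⟩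

/-- Superpositions in `R^(m+1)`. -/
theorem res_mixH {m : ℕ} (hm : 2 ≤ m) {s V : ℝ} (hs : 0 < s) (hs2 : s ≤ 2) (hV : 0 ≤ V)
    (H : LossHS m s V) {d : ℕ} {φ : Fin d → E (m + 1) → ℝ}
    (hφ : Nonflat φ) (N : ℕ) (p : ℝ) (hp : 2 * ((m : ℝ) + 1) / m < p) :
    ∃ C : ℝ≥0∞, C ≠ ∞ ∧
      ∀ (W : Type) (_ : MeasurableSpace W) (ν : Measure W) (_ : IsFiniteMeasure ν)
        (R : W → (E (m + 1) ≃ₗᵢ[ℝ] E (m + 1))) (η : W → E (m + 1)) (w : W → E (m + 1) → ℂ)
        (a : W → Fin d → ℝ) (b : W → Fin N → Fin d → ℝ),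
        (Measurable fun q : W × E (m + 1) => R q.1 q.2) → Measurable η →
        (Measurable fun q : W × E (m + 1) => w q.1 q.2) → (∀ t x, ‖w t x‖ ≤ 1) →
        (∀ t, BN2 (m + 1) s V (w t)) → Measurable a → Measurable b →
        ∫⁻ ξ, ‖extn (mix ν R η fun t x => w t x * famc φ (a t) (b t) x) ξ‖ₑ ^ p ≤
          C * ν univ ^ p := by
  obtain ⟨k, rfl⟩ : ∃ k, m = k + 1 := ⟨m - 1, by omega⟩
  have hk : (0:ℝ) ≤ k := Nat.cast_nonneg k
  have h1 : 1 ≤ 2 * (((k + 1 : ℕ) : ℝ) + 1) / ((k + 1 : ℕ) : ℝ) := by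
    push_cast
    rw [le_div_iff₀ (by positivity)]
    linarith
  obtain ⟨K, hK, hbv⟩ := hs_bvn (k + 1 + 1) (by omega)
  obtain ⟨C, hC, h⟩ := main_nfP (j := k) (s := s / 2) (V := max (V + K) 1)
    (A := AHn (k + 1 + 1) s V) (by positivity) (by linarith) (le_max_right _ _)
    (fun w hw => ⟨hw.1, hw.2.1, fun r hr => (hbv s V w hV hw.2.2 r hr).trans
      (ENNReal.ofReal_le_ofReal (mul_le_mul_of_nonneg_right (le_max_left _ _) (by positivity)))⟩)
    h1 φ hφ (lossH_of H φ hφ.1) N p hp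
  refine ⟨C, hC, fun W mW ν hν R η w a b hR hη hw hw1 hwV ha hb => ?_⟩
  exact mix_amp (fun i x hx => (hφ.1 i x hx).continuousAt.continuousWithinAt) (h1.trans hp.le)
    (BN2 (k + 1 + 1) s V) (fun g hg hg1 hgV a b => h g ⟨hg, hg1, hgV⟩ a b)
    W mW ν hν R η w a b hR hη hw hw1 hwV ha hb

end Pool.Agent.VANn
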