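import Pool.Agent.GNP.AB6
import Pool.Agent.VANn.MainA

/-!
The estimate with a small loss for families of smooth phases and amplitudes of bounded variation,
from the estimate in the chart.
-/

namespace Pool.Agent.VANn

open MeasureTheory Set Filter Topology Pool.Agent.MP_6cbfb8_an Pool.Agent.VAN Pool.Agent.GNP
open scoped ENNReal Real ContDiff

/-- A function which is smooth at the points of the sphere coincides near the sphere with a
measurable function. -/
theorem exists_meas {n : ℕ} (f : E n → ℝ) (hf : ∀ x, ‖x‖ = 1 → ContDiffAt ℝ ∞ f x) :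
    ∃ g : E n → ℝ, Measurable g ∧ ∀ x, ‖x‖ = 1 → g =ᶠ[𝓝 x] f := by
  set U : Set (E n) := interior {x | ContinuousAt f x} with hU
  have hUo : IsOpen U := isOpen_interior
  have hSU : ∀ x : E n, ‖x‖ = 1 → x ∈ U := by
    intro x hx
    rw [hU, mem_interior_iff_mem_nhds]
    have h1 : ContDiffAt ℝ 1 f x := (hf x hx).of_le (by exact_mod_cast le_top)
    have h2 : ∀ᶠ y in 𝓝 x, ContDiffAt ℝ 1 f y := h1.eventually (by simp)
    filter_upwards [h2] with y hy
    exact hy.continuousAt
  have hcont : ContinuousOn f U := fun x hx =>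
    (show ContinuousAt f x from interior_subset hx).continuousWithinAt
  refine ⟨U.indicator f, ?_, fun x hx => ?_⟩
  · classical
    have h1 : Measurable (U.piecewise f fun _ => 0) :=
      hcont.measurable_piecewise continuousOn_const hUo.measurableSet
    rwa [show U.piecewise f (fun _ => 0) = U.indicator f from
      piecewise_eq_indicator] at h1
  · filter_upwards [hUo.mem_nhds (hSU x hx)] with y hy
    exact indicator_of_mem hy f

/-- The estimate in the chart, with a small loss, for amplitudes of bounded variation. -/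
def CoreA (m : ℕ) : Prop :=
  ∀ p ε : ℝ, 2 * ((m : ℝ) + 1) / m < p → 0 < ε →
    CoreW m 1 p (fun c => ENNReal.ofReal ((1 + |c|) ^ ε)) (fun _ _ _ => True)

/-- **All smooth families, all amplitudes of bounded variation**, with a constant which depends only
on the bounds of the derivatives of the functions and on the variation of the amplitude. -/
theorem all_smooth {m : ℕ} (hm : 1 ≤ m) (hcore : CoreA m) (d : ℕ) (B : ℕ → ℝ) (V p ε : ℝ)
    (hp : 2 * ((m : ℝ) + 1) / m < p) (hε : 0 < ε) : ∃ C : ℝ≥0∞, C ≠ ⊤ ∧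
    ∀ (φ : Fin d → E (m + 1) → ℝ) (w : E (m + 1) → ℂ),
      (∀ j, ∀ x ∈ Metric.sphere (0 : E (m + 1)) 1,
        ContDiffAt ℝ ((⊤ : ℕ∞) : WithTop ℕ∞) (φ j) x) →
      (∀ j k, ∀ x ∈ Metric.sphere (0 : E (m + 1)) 1, ‖iteratedFDeriv ℝ k (φ j) x‖ ≤ B k) →
      Measurable w → (∀ x, ‖w x‖ ≤ 1) → BVn (m + 1) 1 V w → ∀ c : Fin d → ℝ,
      ∫⁻ ξ, ‖extn (fun x => w x * Complex.exp (((fam φ c x : ℝ) : ℂ) * Complex.I)) ξ‖ₑ ^ p ≤
        C * ENNReal.ofReal ((1 + ‖c‖) ^ ε) := by
  have hm0 : (0:ℝ) < m := by exact_mod_cast hm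
  have hp1 : 1 ≤ p := by
    refine le_trans ?_ hp.le
    rw [le_div_iff₀ hm0]
    linarith
  obtain ⟨C, hC, h⟩ := sphere_family_W m hm 1 p one_pos le_rfl hp1
    (fun c => ENNReal.ofReal ((1 + |c|) ^ ε)) (fun _ => True) (fun _ _ _ => True)
    (fun _ _ _ => trivial) (fun _ _ _ _ _ _ _ _ _ _ _ _ => trivial) (hcore p ε hp hε) d
    (fun k => |B k|) V
  refine ⟨C, hC, fun φ w hφ hB hw hw1 hwV c => ?_⟩
  choose g hg hgφ using fun j => exists_meas (φ j) fun x hx => hφ j x (by simpa using hx)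
  -- one more function, equal to zero
  set ψ : Fin (d + 1) → E (m + 1) → ℝ := Fin.snoc g fun _ => 0 with hψ
  have hψc : ∀ j : Fin d, ψ j.castSucc = g j := fun j => by
    rw [hψ]
    exact Fin.snoc_castSucc (α := fun _ => E (m + 1) → ℝ) (fun _ => 0) g j
  have hψl : ψ (Fin.last d) = fun _ => 0 := by
    rw [hψ]
    exact Fin.snoc_last (α := fun _ => E (m + 1) → ℝ) (fun _ => 0) g
  set c' : Fin (d + 1) → ℝ := Fin.snoc c 0 with hc'
  have hcc : ∀ j : Fin d, c' j.castSucc = c j := fun j => by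
    rw [hc']
    exact Fin.snoc_castSucc (α := fun _ => ℝ) 0 c j
  have hcl : c' (Fin.last d) = 0 := by
    rw [hc']
    exact Fin.snoc_last (α := fun _ => ℝ) 0 c
  have hnorm : ‖c'‖ ≤ ‖c‖ := by
    refine (pi_norm_le_iff_of_nonneg (norm_nonneg c)).2 fun j => ?_
    refine Fin.lastCases ?_ (fun i => ?_) j
    · rw [hcl, norm_zero]
      exact norm_nonneg c
    · rw [hcc]
      exact norm_le_pi_norm c i
  have h1 := h ψ (fun j => ?_) (fun j => ?_) (fun _ _ => trivial) w hw hw1 hwV c'
  · have h3 : extn (fun x => w x * Complex.exp (((fam φ c x : ℝ) : ℂ) * Complex.I)) =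
        extn (fun x => w x * Complex.exp (((∑ j, c' j * ψ j x : ℝ) : ℂ) * Complex.I)) := by
      refine extn_congr_sphere fun x hx => ?_
      congr 4
      unfold fam
      rw [Fin.sum_univ_castSucc, hcl, zero_mul, add_zero]
      refine Finset.sum_congr rfl fun j _ => ?_
      rw [hcc, hψc, (hgφ j x hx).eq_of_nhds]
    rw [h3]
    refine h1.trans ?_
    gcongr
    rw [abs_norm]
    exact hnorm
  · refine Fin.lastCases ?_ (fun i => ?_) j
    · rw [hψl]
      exact measurable_const
    · rw [hψc]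
      exact hg i
  · refine Fin.lastCases ?_ (fun i => ?_) j
    · rw [hψl]
      refine ⟨fun x _ => contDiffAt_const, fun k x _ => ?_⟩
      have : iteratedFDeriv ℝ k (fun _ : E (m + 1) => (0:ℝ)) x = 0 := by
        simp
      rw [this, norm_zero]
      exact abs_nonneg _
    · rw [hψc]
      refine ⟨fun x hx => ?_, fun k x hx => ?_⟩
      · exact (hφ i x (by simpa using hx)).congr_of_eventuallyEq (hgφ i x hx)
      · rw [(Filter.EventuallyEq.iteratedFDeriv ℝ (hgφ i x hx) k).eq_of_nhds]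
        exact (hB i k x (by simpa using hx)).trans (le_abs_self _)

/-- The estimate with a small loss for one family. -/
theorem lossA_of {m : ℕ} (hm : 1 ≤ m) (hcore : CoreA m) {d : ℕ} (φ : Fin d → E (m + 1) → ℝ)
    (hφ : ∀ j, ∀ x ∈ Metric.sphere (0 : E (m + 1)) 1,
      ContDiffAt ℝ ((⊤ : ℕ∞) : WithTop ℕ∞) (φ j) x) :
    LossA (2 * ((m : ℝ) + 1) / m) 1 φ := by
  intro V _ p hp ε hε
  have hB : ∀ (k : ℕ) (j : Fin d), ∃ B : ℝ, ∀ x ∈ Metric.sphere (0 : E (m + 1)) 1,
      ‖iteratedFDeriv ℝ k (φ j) x‖ ≤ B := by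
    intro k j
    refine (isCompact_sphere (0 : E (m + 1)) 1).exists_bound_of_continuousOn fun x hx => ?_
    have h1 : ContDiffAt ℝ 0 (iteratedFDeriv ℝ k (φ j)) x :=
      (hφ j x hx).iteratedFDeriv_right (m := 0) (by
        rw [zero_add]
        exact_mod_cast le_top)
    exact h1.continuousAt.continuousWithinAt
  choose B hB using hB
  obtain ⟨C, hC, h⟩ := all_smooth hm hcore d (fun k => ∑ j, |B k j|) V p ε hp hε
  refine ⟨C, hC, fun w hw c => ?_⟩
  refine h φ w hφ (fun j k x hx => (hB k j x hx).trans ((le_abs_self _).trans ?_)) hw.1 hw.2.1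
    hw.2.2 c
  exact Finset.single_le_sum (f := fun j => |B k j|) (fun i _ => abs_nonneg _) (Finset.mem_univ j)

end Pool.Agent.VANn
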