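import Pool.Agent.VANn.LS

/-!
The estimate with a small loss for families of smooth phases, with a constant which depends on the
bounds of the derivatives only.
-/

namespace Pool.Agent.VANn

open MeasureTheory Set Filter Topology Pool.Agent.MP_6cbfb8_an Pool.Agent.VAN
open scoped ENNReal Real ContDiff

variable {n : ℕ}

lemma iteratedFDeriv_fam_at {d : ℕ} {F : Fin d → E n → ℝ} {x : E n}
    (hF : ∀ j, ContDiffAt ℝ ∞ (F j) x) (b : Fin d → ℝ) (k : ℕ) :
    ‖iteratedFDeriv ℝ k (fam F b) x‖ ≤ ∑ j, |b j| * ‖iteratedFDeriv ℝ k (F j) x‖ := by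
  have h1 : iteratedFDeriv ℝ k (fam F b) x = ∑ j, iteratedFDeriv ℝ k (fun x => b j * F j x) x := by
    unfold fam
    exact iteratedFDeriv_fun_sum_apply fun j _ =>
      (contDiffAt_const.mul (hF j)).of_le (by exact_mod_cast le_top)
  rw [h1]
  refine (norm_sum_le _ _).trans (Finset.sum_le_sum fun j _ => ?_)
  have h2 : iteratedFDeriv ℝ k (fun x => b j * F j x) x = b j • iteratedFDeriv ℝ k (F j) x := by
    have := iteratedFDeriv_const_smul_apply' (a := b j) (x := x) (i := k)
      ((hF j).of_le (by exact_mod_cast le_top) : ContDiffAt ℝ k (F j) x)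
    simpa only [smul_eq_mul] using this
  rw [h2, norm_smul, Real.norm_eq_abs]

/-- **Families of smooth phases**, from the estimate for one phase: the constant depends on the bounds
of the derivatives on the sphere only. -/
theorem loss_uniform {p0 : ℝ} (H : OneLoss n p0) (d : ℕ) (B : ℕ → ℝ) (p ε : ℝ) (hp : p0 < p)
    (hε : 0 < ε) : ∃ C : ℝ≥0∞, C ≠ ⊤ ∧ ∀ φ : Fin d → E n → ℝ,
      (∀ j, ∀ x ∈ Metric.sphere (0 : E n) 1, ContDiffAt ℝ ((⊤ : ℕ∞) : WithTop ℕ∞) (φ j) x) →
      (∀ j k, ∀ x ∈ Metric.sphere (0 : E n) 1, ‖iteratedFDeriv ℝ k (φ j) x‖ ≤ B k) →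
      ∀ c : Fin d → ℝ,
      ∫⁻ ξ, ‖extn (fun x => Complex.exp (((fam φ c x : ℝ) : ℂ) * Complex.I)) ξ‖ₑ ^ p ≤
        C * ENNReal.ofReal ((1 + ‖c‖) ^ ε) := by
  obtain ⟨K, hK, h⟩ := H p ε hp hε fun k => 1 + d * |B k|
  refine ⟨ENNReal.ofReal K, ENNReal.ofReal_ne_top, fun φ hφ hB c => ?_⟩
  -- the normalised coefficients
  set lam : ℝ := ‖c‖ with hlam
  obtain ⟨b, hb1, hbc⟩ : ∃ b : Fin d → ℝ, (∀ j, |b j| ≤ 1) ∧ ∀ j, lam * b j = c j := by
    rcases eq_or_ne c 0 with hc | hc
    · refine ⟨0, fun j => by simp, fun j => ?_⟩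
      rw [hc]
      simp
    · have hl : 0 < lam := norm_pos_iff.2 hc
      refine ⟨fun j => c j / lam, fun j => ?_, fun j => ?_⟩
      · rw [abs_div, abs_of_pos hl, div_le_one hl]
        exact norm_le_pi_norm c j
      · field_simp
  have hat : ∀ x : E n, ‖x‖ = 1 → ∀ j, ContDiffAt ℝ ∞ (φ j) x := fun x hx j =>
    hφ j x (by simpa using hx)
  have h1 := h (fam φ b) (fun _ => 1) (fun x hx => by
      unfold fam
      exact ContDiffAt.sum fun j _ => contDiffAt_const.mul (hat x hx j))
    (fun x _ => contDiffAt_const)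
    (fun k x hx => by
      refine (iteratedFDeriv_fam_at (hat x hx) b k).trans ?_
      have h2 : ∑ j, |b j| * ‖iteratedFDeriv ℝ k (φ j) x‖ ≤ ∑ _j : Fin d, |B k| := by
        refine Finset.sum_le_sum fun j _ => ?_
        calc |b j| * ‖iteratedFDeriv ℝ k (φ j) x‖ ≤ 1 * |B k| := by
              refine mul_le_mul (hb1 j) ((hB j k x (by simpa using hx)).trans (le_abs_self _))
                (norm_nonneg _) zero_le_one
          _ = |B k| := one_mul _
      rw [Finset.sum_const, Finset.card_univ, Fintype.card_fin, nsmul_eq_mul] at h2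
      linarith)
    (fun k x _ => by
      have h2 : (0:ℝ) ≤ d * |B k| := by positivity
      rcases k with _ | k
      · rw [norm_iteratedFDeriv_zero, norm_one]
        linarith
      · rw [iteratedFDeriv_const_of_ne (by omega)]
        simp only [Pi.zero_apply, norm_zero]
        linarith) lam
  have hn0 : |lam| = ‖c‖ := by rw [hlam, abs_of_nonneg (norm_nonneg _)]
  rw [hn0] at h1
  have h3 : extn (fun x => Complex.exp (((fam φ c x : ℝ) : ℂ) * Complex.I)) =
      extn (fun x => (1 : ℂ) * Complex.exp (((lam * fam φ b x : ℝ) : ℂ) * Complex.I)) := by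
    refine extn_congr_sphere fun x hx => ?_
    rw [one_mul]
    congr 3
    unfold fam
    rw [Finset.mul_sum]
    refine Finset.sum_congr rfl fun j _ => ?_
    rw [← mul_assoc, hbc j]
  rw [h3]
  refine h1.trans (le_of_eq ?_)
  rw [ENNReal.ofReal_mul hK.le]

end Pool.Agent.VANn
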