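import Pool.Agent.VANn.LU

/-!
The estimate with a small loss for families of smooth phases and a smooth amplitude, with a constant
which depends on the bounds of the derivatives only.
-/

namespace Pool.Agent.VANn

open MeasureTheory Set Filter Topology Pool.Agent.MP_6cbfb8_an Pool.Agent.VAN
open scoped ENNReal Real ContDiff

variable {n : ℕ}

/-- **Families of smooth phases with a smooth amplitude**, from the estimate for one phase: the
constant depends on the bounds of the derivatives on the sphere only. -/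
theorem loss_uniform_amp {p0 : ℝ} (H : OneLoss n p0) (d : ℕ) (B : ℕ → ℝ) (p ε : ℝ) (hp : p0 < p)
    (hε : 0 < ε) : ∃ C : ℝ≥0∞, C ≠ ⊤ ∧ ∀ (φ : Fin d → E n → ℝ) (a : E n → ℂ),
      (∀ j, ∀ x ∈ Metric.sphere (0 : E n) 1, ContDiffAt ℝ ((⊤ : ℕ∞) : WithTop ℕ∞) (φ j) x) →
      (∀ x ∈ Metric.sphere (0 : E n) 1, ContDiffAt ℝ ((⊤ : ℕ∞) : WithTop ℕ∞) a x) →
      (∀ j k, ∀ x ∈ Metric.sphere (0 : E n) 1, ‖iteratedFDeriv ℝ k (φ j) x‖ ≤ B k) →
      (∀ k, ∀ x ∈ Metric.sphere (0 : E n) 1, ‖iteratedFDeriv ℝ k a x‖ ≤ B k) →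
      ∀ c : Fin d → ℝ,
      ∫⁻ ξ, ‖extn (fun x => a x * Complex.exp (((fam φ c x : ℝ) : ℂ) * Complex.I)) ξ‖ₑ ^ p ≤
        C * ENNReal.ofReal ((1 + ‖c‖) ^ ε) := by
  obtain ⟨K, hK, h⟩ := H p ε hp hε fun k => (1 + d) * |B k|
  refine ⟨ENNReal.ofReal K, ENNReal.ofReal_ne_top, fun φ a hφ ha hB hBa c => ?_⟩
  -- the normalised coefficients
  set lam : ℝ := ‖c‖ with hlam
  obtain ⟨b, hb1, hbc⟩ : ∃ b : Fin d → ℝ, (∀ j, |b j| ≤ 1) ∧ ∀ j, lam * b j = c j := by
    rcases eq_or_ne c 0 with hc | hc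
    · refine ⟨0, fun j => by simp, fun j => ?_⟩
      rw [hc]
      simp
    · have hl : 0 < lam := norm_pos_iff.2 hc
      refine ⟨fun j => c j / lam, fun j => ?_, fun j => ?_⟩
      · rw [abs_div, abs_of_pos hl, div_le_one hl]
        exact norm_le_pi_norm c j
      · field_simp
  have hat : ∀ x : E n, ‖x‖ = 1 → ∀ j, ContDiffAt ℝ ∞ (φ j) x := fun x hx j =>
    hφ j x (by simpa using hx)
  have h1 := h (fam φ b) a (fun x hx => by
      unfold fam
      exact ContDiffAt.sum fun j _ => contDiffAt_const.mul (hat x hx j))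
    (fun x hx => ha x (by simpa using hx))
    (fun k x hx => by
      refine (iteratedFDeriv_fam_at (hat x hx) b k).trans ?_
      have h2 : ∑ j, |b j| * ‖iteratedFDeriv ℝ k (φ j) x‖ ≤ ∑ _j : Fin d, |B k| := by
        refine Finset.sum_le_sum fun j _ => ?_
        calc |b j| * ‖iteratedFDeriv ℝ k (φ j) x‖ ≤ 1 * |B k| := by
              refine mul_le_mul (hb1 j) ((hB j k x (by simpa using hx)).trans (le_abs_self _))
                (norm_nonneg _) zero_le_one
          _ = |B k| := one_mul _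
      rw [Finset.sum_const, Finset.card_univ, Fintype.card_fin, nsmul_eq_mul] at h2
      nlinarith [abs_nonneg (B k)])
    (fun k x hx => by
      have h2 : (0:ℝ) ≤ d * |B k| := by positivity
      have h3 := (hBa k x (by simpa using hx)).trans (le_abs_self _)
      linarith) lam
  have hn0 : |lam| = ‖c‖ := by rw [hlam, abs_of_nonneg (norm_nonneg _)]
  rw [hn0] at h1
  have h3 : extn (fun x => a x * Complex.exp (((fam φ c x : ℝ) : ℂ) * Complex.I)) =
      extn (fun x => a x * Complex.exp (((lam * fam φ b x : ℝ) : ℂ) * Complex.I)) := by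
    refine extn_congr_sphere fun x hx => ?_
    congr 4
    unfold fam
    rw [Finset.mul_sum]
    refine Finset.sum_congr rfl fun j _ => ?_
    rw [← mul_assoc, hbc j]
  rw [h3]
  refine h1.trans (le_of_eq ?_)
  rw [ENNReal.ofReal_mul hK.le]

end Pool.Agent.VANn
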