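import Pool.Agent.VANn.MainA

/-!
The restriction theorem for the unit sphere of `R^n` for the phases and cuts in a finite-dimensional
space of smooth functions without flat points and amplitudes from an arbitrary class of functions of
bounded variation of some order, over the estimate with a small loss in the coefficients.
-/

namespace Pool.Agent.VANn

open MeasureTheory Set Filter Topology Pool.Agent.MP_6cbfb8_an Pool.Agent.VAN Pool.Agent.GNP
open scoped ENNReal Real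

variable {n : ℕ}

/-- The estimate with a small loss for the phases of a family and amplitudes of the class `A`, in
the range `p > p0`. -/
def LossP {d : ℕ} (p0 : ℝ) (A : (E n → ℂ) → Prop) (φ : Fin d → E n → ℝ) : Prop :=
  ∀ p : ℝ, p0 < p → ∀ ε : ℝ, 0 < ε → ∃ C : ℝ≥0∞, C ≠ ∞ ∧ ∀ w : E n → ℂ,
    A w → ∀ c : Fin d → ℝ,
    ∫⁻ ξ, ‖extn (fun x => w x * Complex.exp (((fam φ c x : ℝ) : ℂ) * Complex.I)) ξ‖ₑ ^ p ≤
      C * ENNReal.ofReal ((1 + ‖c‖) ^ ε)

/-- The estimate with a small loss passes to sub-families. -/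
lemma LossP.sub {d k : ℕ} {p0 : ℝ} {A : (E n → ℂ) → Prop} {φ : Fin d → E n → ℝ}
    (hφ : LossP p0 A φ) (σ : Fin k → Fin d) : LossP p0 A fun j => φ (σ j) := by
  intro p hp ε hε
  obtain ⟨C, hC, h⟩ := hφ p hp ε hε
  refine ⟨C * ENNReal.ofReal ((1 + k : ℝ) ^ ε), ENNReal.mul_ne_top hC ENNReal.ofReal_ne_top,
    fun w hw a => ?_⟩
  obtain ⟨b, hb, hab⟩ := fam_sub φ σ a
  have h1 : fam (fun j => φ (σ j)) a = fam φ b := funext hb
  rw [h1]
  refine (h w hw b).trans ?_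
  rw [mul_assoc, ← ENNReal.ofReal_mul (by positivity)]
  gcongr
  rw [← Real.mul_rpow (by positivity) (by positivity)]
  refine Real.rpow_le_rpow (by positivity) ?_ hε.le
  have h2 : (0:ℝ) ≤ k := Nat.cast_nonneg k
  have h3 := norm_nonneg a
  nlinarith

/-- Decay in the coefficients and the estimate with a small loss give the estimate without loss. -/
theorem nolossP {d : ℕ} {p0 : ℝ} {A : (E n → ℂ) → Prop} (hp0 : 0 ≤ p0) (φ : Fin d → E n → ℝ)
    (hl : LossP p0 A φ) {K κ : ℝ} (hK : 0 ≤ K) (hκ : 0 < κ)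
    (hdec : ∀ w : E n → ℂ, A w → ∀ (c : Fin d → ℝ) (ξ : E n),
      ‖extn (fun x => w x * Complex.exp (((fam φ c x : ℝ) : ℂ) * Complex.I)) ξ‖ ≤
        K * (1 + ‖c‖) ^ (-κ)) (p : ℝ) (hp : p0 < p) :
    ∃ C : ℝ≥0∞, C ≠ ∞ ∧ ∀ w : E n → ℂ, A w → ∀ c : Fin d → ℝ,
      ∫⁻ ξ, ‖extn (fun x => w x * Complex.exp (((fam φ c x : ℝ) : ℂ) * Complex.I)) ξ‖ₑ ^ p
        ≤ C := by
  set p1 : ℝ := (p0 + p) / 2 with hp1
  have h01 : p0 < p1 := by rw [hp1]; linarith
  have h1p : p1 < p := by rw [hp1]; linarith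
  have hkp : 0 < κ * (p - p1) := mul_pos hκ (by linarith)
  obtain ⟨C, hC, h⟩ := hl p1 h01 (κ * (p - p1)) hkp
  refine ⟨ENNReal.ofReal (K ^ (p - p1)) * C, ENNReal.mul_ne_top ENNReal.ofReal_ne_top hC,
    fun w hw c => ?_⟩
  have hL : 0 < 1 + ‖c‖ := by positivity
  have h1 := interp_set (volume : Measure (E n)) (p1 := p1) (p := p) (M := K * (1 + ‖c‖) ^ (-κ))
    (by linarith) h1p.le
    (extn (fun x => w x * Complex.exp (((fam φ c x : ℝ) : ℂ) * Complex.I))) univ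
    MeasurableSet.univ (by positivity) (fun ξ _ => hdec w hw c ξ)
  rw [Measure.restrict_univ] at h1
  refine h1.trans ?_
  have h2 : (K * (1 + ‖c‖) ^ (-κ)) ^ (p - p1) = K ^ (p - p1) * (1 + ‖c‖) ^ (-(κ * (p - p1))) := by
    rw [Real.mul_rpow hK (by positivity), ← Real.rpow_mul hL.le]
    congr 2
    ring
  calc ENNReal.ofReal ((K * (1 + ‖c‖) ^ (-κ)) ^ (p - p1)) *
        ∫⁻ ξ, ‖extn (fun x => w x * Complex.exp (((fam φ c x : ℝ) : ℂ) * Complex.I)) ξ‖ₑ ^ p1
      ≤ ENNReal.ofReal (K ^ (p - p1) * (1 + ‖c‖) ^ (-(κ * (p - p1)))) *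
        (C * ENNReal.ofReal ((1 + ‖c‖) ^ (κ * (p - p1)))) := by
        rw [h2]
        gcongr
        exact h w hw c
    _ = ENNReal.ofReal (K ^ (p - p1)) * C * (ENNReal.ofReal ((1 + ‖c‖) ^ (-(κ * (p - p1)))) *
        ENNReal.ofReal ((1 + ‖c‖) ^ (κ * (p - p1)))) := by
        rw [ENNReal.ofReal_mul (by positivity)]
        ring
    _ = ENNReal.ofReal (K ^ (p - p1)) * C := by
        rw [← ENNReal.ofReal_mul (by positivity), ← Real.rpow_add hL, neg_add_cancel,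
          Real.rpow_zero, ENNReal.ofReal_one, mul_one]

/-- Nonflat families which are independent modulo affine functions, no cuts. -/
theorem main_indep_nfP {j : ℕ} {d : ℕ} {p0 s V : ℝ} {A : (E (j + 2) → ℂ) → Prop} (hs : 0 < s)
    (hs1 : s ≤ 1) (hV : 1 ≤ V) (hA : ∀ w, A w → AVn (j + 2) s V w) (hp0 : 0 ≤ p0) (φ : Fin d → E (j + 2) → ℝ)
    (hφ : Nonflat φ) (hl : LossP p0 A φ)
    (hi : ∀ (a : Fin d → ℝ) (ζ : E (j + 2)) (c : ℝ),
      (∀ x : E (j + 2), ‖x‖ = 1 → fam φ a x + inner ℝ x ζ = c) → a = 0) (p : ℝ) (hp : p0 < p) :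
    ∃ C : ℝ≥0∞, C ≠ ∞ ∧ ∀ w : E (j + 2) → ℂ, A w → ∀ c : Fin d → ℝ,
      ∫⁻ ξ, ‖extn (fun x => w x * Complex.exp (((fam φ c x : ℝ) : ℂ) * Complex.I)) ξ‖ₑ ^ p
        ≤ C := by
  have hn : 2 ≤ j + 2 := by omega
  have hnf : ∀ (a : Fin d → ℝ) (ζ : E (j + 2)), (a ≠ 0 ∨ ζ ≠ 0) → ∀ x : E (j + 2), ‖x‖ = 1 →
      ∃ q, ON q ∧ ∃ k, 1 ≤ k ∧ (dR q)^[k] (fun y => fam φ a y + inner ℝ y ζ) x ≠ 0 := by
    intro a ζ hne x hx
    by_contra hcon
    have h1 : ∀ q, ON q → ∀ k, 1 ≤ k → (dR q)^[k] (fun y => fam φ a y + inner ℝ y ζ) x = 0 := by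
      intro q hq k hk
      by_contra h2
      exact hcon ⟨q, hq, k, hk, h2⟩
    have h2 := hφ.2 a ζ x hx (flat_of_dR hn (smooth_fam_aff hφ.1 a ζ) hx h1)
    have ha : a = 0 := hi a ζ _ h2
    subst ha
    have h3 : ∀ y : E (j + 2), ‖y‖ = 1 → inner ℝ y ζ = inner ℝ x ζ := by
      intro y hy
      have := h2 y hy
      simpa [fam] using this
    have h4 : ∀ y : E (j + 2), ‖y‖ = 1 → inner ℝ y ζ = (0 : ℝ) := by
      intro y hy
      have h5 := h3 y hy
      have h6 := h3 (-y) (by rw [norm_neg, hy])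
      rw [inner_neg_left] at h6
      linarith
    rcases hne with h | h
    · exact h rfl
    · have h5 := h4 (‖ζ‖⁻¹ • ζ)
        (by rw [norm_smul, norm_inv, norm_norm, inv_mul_cancel₀ (norm_ne_zero_iff.2 h)])
      rw [real_inner_smul_left, real_inner_self_eq_norm_sq] at h5
      have h6 : ‖ζ‖ ≠ 0 := norm_ne_zero_iff.2 h
      rcases mul_eq_zero.1 h5 with h7 | h7
      · exact h6 (inv_eq_zero.1 h7)
      · exact h6 (pow_eq_zero_iff two_ne_zero |>.1 h7)
  obtain ⟨K, κ, hK, hκ, hdec⟩ := decay_extn_nf φ hφ.1 hnf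
  obtain ⟨C0, hC0, hbv⟩ := bv_decay j
  set δ : ℝ := min κ 1 with hδ
  have hδ0 : 0 < δ := lt_min hκ one_pos
  have hδ1 : δ ≤ 1 := min_le_right _ _
  have hcont : ∀ i, ContinuousOn (φ i) (Metric.sphere (0 : E (j + 2)) 1) := fun i x hx =>
    (hφ.1 i x hx).continuousAt.continuousWithinAt
  refine nolossP hp0 φ hl (K := C0 * max K 1 * V) (κ := δ * s / (2 * ((j : ℝ) + 2)))
    (by positivity) (by positivity) (fun w hw c ξ => ?_) p hp
  -- a measurable version of the phase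
  have hmeas : Measurable fun x => Complex.exp (((fam (fun i => rS (φ i)) c x : ℝ) : ℂ) *
      Complex.I) := by
    have h1 : Measurable (fam (fun i => rS (φ i)) c) := by
      unfold fam
      exact Finset.measurable_sum _ fun i _ => (G_meas_rS (hcont i)).const_mul _
    exact Complex.measurable_exp.comp ((Complex.measurable_ofReal.comp h1).mul_const _)
  have hr : ∀ x : E (j + 2), ‖x‖ = 1 → fam (fun i => rS (φ i)) c x = fam φ c x := fun x hx =>
    G_fam_rS φ c hx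
  have h0 : ∀ ξ, extn (fun x => Complex.exp (((fam (fun i => rS (φ i)) c x : ℝ) : ℂ) *
      Complex.I)) ξ = extn (fun x => Complex.exp (((fam φ c x : ℝ) : ℂ) * Complex.I)) ξ := by
    intro ξ
    refine extn_congr (fun x hx => ?_) ξ
    rw [hr x (by simpa using hx)]
  have h2 := hbv w (fun x => Complex.exp (((fam (fun i => rS (φ i)) c x : ℝ) : ℂ) * Complex.I))
    (hA w hw).1 hmeas (hA w hw).2.1 (fun x => by rw [Complex.norm_exp_ofReal_mul_I]) s V (max K 1)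
    δ (1 + ‖c‖) hs.le hs1 hV (hA w hw).2.2 (le_max_right _ _) hδ0.le hδ1 (by linarith [norm_nonneg c]) (fun ξ => by
      rw [h0]
      refine (hdec c ξ).trans ?_
      have h3 : 1 ≤ (1 + ‖c‖) + ‖ξ‖ := by linarith [norm_nonneg c, norm_nonneg ξ]
      refine mul_le_mul (le_max_left _ _) ?_ (by positivity) (by positivity)
      exact Real.rpow_le_rpow_of_exponent_le h3 (neg_le_neg (min_le_left _ _))) ξ
  have h4 : extn (fun x => w x * Complex.exp (((fam φ c x : ℝ) : ℂ) * Complex.I)) ξ =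
      extn (fun x => w x * Complex.exp (((fam (fun i => rS (φ i)) c x : ℝ) : ℂ) *
        Complex.I)) ξ := by
    refine extn_congr (fun x hx => ?_) ξ
    rw [hr x (by simpa using hx)]
  rw [h4]
  refine h2.trans ?_
  have h5 := norm_nonneg c
  have h6 := norm_nonneg ξ
  refine mul_le_mul_of_nonneg_left ?_ (by positivity)
  refine Real.rpow_le_rpow_of_nonpos (by linarith) (by linarith) ?_
  have : 0 ≤ δ * s / (2 * ((j : ℝ) + 2)) := by positivity
  linarith

/-- Nonflat families, no cuts. -/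
theorem main_nocut_nfP {j : ℕ} {d : ℕ} {p0 s V : ℝ} {A : (E (j + 2) → ℂ) → Prop} (hs : 0 < s)
    (hs1 : s ≤ 1) (hV : 1 ≤ V) (hA : ∀ w, A w → AVn (j + 2) s V w) (hp0 : 0 ≤ p0) (φ : Fin d → E (j + 2) → ℝ)
    (hφ : Nonflat φ) (hl : LossP p0 A φ) (p : ℝ) (hp : p0 < p) :
    ∃ C : ℝ≥0∞, C ≠ ∞ ∧ ∀ w : E (j + 2) → ℂ, A w → ∀ c : Fin d → ℝ,
      ∫⁻ ξ, ‖extn (fun x => w x * Complex.exp (((fam φ c x : ℝ) : ℂ) * Complex.I)) ξ‖ₑ ^ p
        ≤ C := by
  obtain ⟨k, σ, _, hind, L, hL⟩ := reduce_aff φ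
  obtain ⟨C, hC, h⟩ := main_indep_nfP hs hs1 hV hA hp0 (fun j => φ (σ j)) (hφ.sub σ) (hl.sub σ)
    (fun a ζ c hac => hind a ζ c fun x hx => hac x (by simpa using hx)) p hp
  refine ⟨C, hC, fun w hw c => ?_⟩
  obtain ⟨ζ, c0, h1⟩ := hL c
  have h2 := lint_phase w (φ := fam φ c) (φ' := fam (fun j => φ (σ j)) (L c))
    (ζ := ζ) (c := c0) (fun x hx => h1 x hx) p
  have e1 : ∀ f : E (j + 2) → ℝ, (fun x => w x * Complex.exp (((f x : ℝ) : ℂ) * Complex.I)) =
      fun x => Complex.exp (((f x : ℝ) : ℂ) * Complex.I) * w x := fun f => by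
    funext x
    rw [mul_comm]
  rw [e1, h2, ← e1]
  exact h w hw (L c)

/-- Every nonflat family, with cuts and amplitudes of bounded variation. -/
theorem main_nfP {j : ℕ} {d : ℕ} {p0 s V : ℝ} {A : (E (j + 2) → ℂ) → Prop} (hs : 0 < s)
    (hs1 : s ≤ 1) (hV : 1 ≤ V) (hA : ∀ w, A w → AVn (j + 2) s V w) (hp0 : 1 ≤ p0) (φ : Fin d → E (j + 2) → ℝ)
    (hφ : Nonflat φ) (hl : LossP p0 A φ) (N : ℕ) (p : ℝ) (hp : p0 < p) :
    ∃ C : ℝ≥0∞, C ≠ ∞ ∧ ∀ w : E (j + 2) → ℂ, A w →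
      ∀ (c : Fin d → ℝ) (cs : Fin N → Fin d → ℝ),
      ∫⁻ ξ, ‖extn (fun x => w x * famc φ c cs x) ξ‖ₑ ^ p ≤ C := by
  have hn : 2 ≤ j + 2 := by omega
  obtain ⟨k, σ, _, hind, L, hL⟩ := reduce_zero φ
  have hsub' : Nonflat fun j => φ (σ j) := hφ.sub σ
  have hcn : ∀ i, ContinuousOn (φ (σ i)) (Metric.sphere (0 : E (j + 2)) 1) := fun i x hx =>
    (hφ.1 (σ i) x hx).continuousAt.continuousWithinAt
  have hr : ∀ (a : Fin k → ℝ) (x : E (j + 2)), ‖x‖ = 1 →
      fam (fun j => rS (φ (σ j))) a x = fam (fun j => φ (σ j)) a x := fun a x hx =>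
    G_fam_rS (fun j => φ (σ j)) a hx
  have hb : ∃ K : ℝ, ∀ i : Fin k, ∀ x : E (j + 2), ‖x‖ = 1 → |rS (φ (σ i)) x| ≤ K := by
    have hK : ∀ i : Fin k, ∃ K : ℝ, ∀ x : E (j + 2), ‖x‖ = 1 → |rS (φ (σ i)) x| ≤ K := by
      intro i
      obtain ⟨K, hK⟩ :=
        (isCompact_sphere (0 : E (j + 2)) 1).exists_bound_of_continuousOn (hcn i)
      refine ⟨K, fun x hx => ?_⟩
      unfold rS
      rw [if_pos hx]
      simpa using hK x (by simpa using hx)
    choose K hK using hK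
    refine ⟨∑ j, |K j|, fun j x hx => (hK j x hx).trans ((le_abs_self _).trans ?_)⟩
    exact Finset.single_le_sum (f := fun j => |K j|) (fun i _ => abs_nonneg _) (Finset.mem_univ j)
  obtain ⟨K, κ, hK, hκ, hsub⟩ := sublevel_nf (fun j => φ (σ j)) hsub'.1 (by
    intro a ha x hx
    by_contra hcon
    have h1 : ∀ q, ON q → ∀ k, (dR q)^[k] (fam (fun j => φ (σ j)) a) x = 0 := by
      intro q hq k
      by_contra h2
      exact hcon ⟨q, hq, k, h2⟩
    have h0 : (fun y => fam (fun j => φ (σ j)) a y + inner ℝ y (0 : E (j + 2))) =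
        fam (fun j => φ (σ j)) a := by
      funext y
      rw [inner_zero_right, add_zero]
    have hfl : Flat (fun y => fam (fun j => φ (σ j)) a y + inner ℝ y (0 : E (j + 2))) x :=
      flat_of_dR hn (smooth_fam_aff hsub'.1 a 0) hx (by
        intro q hq k _
        rw [h0]
        exact h1 q hq k)
    have h2 := hsub'.2 a 0 x hx hfl
    refine ha (hind a fun y hy => ?_)
    have h3 := h2 y (by simpa using hy)
    rw [inner_zero_right, add_zero, inner_zero_right, add_zero] at h3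
    obtain ⟨q, hq, _⟩ := exists_rot hn (x := x) (y := x) (by simpa using hx) (by simpa using hx)
    have h4 := h1 q hq 0
    rw [Function.iterate_zero, id] at h4
    exact h3.trans h4)
  obtain ⟨C, hC, h⟩ := FT.cuts_amp p0 hp0
    (P := fun (phi : Fin k → E (j + 2) → ℝ) w => phi = (fun i => rS (φ (σ i))) ∧
      A w)
    (fun phi w hP => ⟨fun i => by rw [hP.1]; exact G_meas_rS (hcn i), (hA w hP.2).1,
      (hA w hP.2).2.1⟩)
    (by
      obtain ⟨K, hK⟩ := hb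
      refine ⟨K, fun phi w hP i x hx => ?_⟩
      rw [hP.1]
      exact hK i x hx)
    ⟨K, κ, hK, hκ, fun phi w hP c hc δ hδ => by
      rw [hP.1]
      have h1 : {x : S (j + 2) | |fam (fun i => rS (φ (σ i))) c x| ≤ δ} =
          {x : S (j + 2) | |fam (fun i => φ (σ i)) c x| ≤ δ} := by
        ext x
        rw [mem_ofPred_eq, mem_ofPred_eq, hr c x (by simp)]
      rw [h1]
      exact hsub c hc δ hδ⟩
    (fun q hq => by
      obtain ⟨C, hC, h⟩ := main_nocut_nfP hs hs1 hV hA (by linarith) (fun i => φ (σ i)) hsub'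
        (hl.sub σ) q hq
      refine ⟨C, hC, fun phi w hP c => ?_⟩
      rw [hP.1]
      have h1 : extn (fun x => Complex.exp (((fam (fun i => rS (φ (σ i))) c x : ℝ) : ℂ) *
          Complex.I) * w x) = extn (fun x => w x *
            Complex.exp (((fam (fun i => φ (σ i)) c x : ℝ) : ℂ) * Complex.I)) :=
        extn_congr_sphere fun x hx => by rw [hr c x hx, mul_comm]
      rw [h1]
      exact h w hP.2 c) N p hp
  refine ⟨C, hC, fun w hw c cs => ?_⟩
  refine le_trans (le_of_eq ?_) (h _ w ⟨rfl, hw⟩ (L c) fun i => L (cs i))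
  congr 1
  funext ξ
  rw [extn_congr]
  intro x hx
  have hx1 : ‖x‖ = 1 := by simpa using hx
  have h3 : ∀ a : Fin d → ℝ, fam φ a x = fam (fun i => rS (φ (σ i))) (L a) x := fun a =>
    (hL a x hx).trans (hr (L a) x hx1).symm
  rw [mul_comm]
  congr 1
  unfold famc
  rw [h3 c]
  congr 1
  exact Finset.prod_congr rfl fun i _ => by rw [h3 (cs i)]

end Pool.Agent.VANn
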