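import Pool.Agent.VANn.N1

/-!
Generic finite-dimensional families on the sphere of `R^n`: algebra of the derivations along the
rotations in the coordinate planes; functions of one coordinate; the triangular system for their
derivatives.
-/

set_option autoImplicit false

namespace Pool.Agent.VANn.NG

open MeasureTheory Set Polynomial Pool.Agent.MP_6cbfb8_an
open scoped ENNReal Real ContDiff

variable {dd : ℕ} {i l : Fin dd}

/-- The derivative of `f` along the rotations in the plane of the coordinates `i` and `l`. -/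
noncomputable def rotD (i l : Fin dd) (f : E dd → ℝ) (x : E dd) : ℝ :=
  fderiv ℝ f x (x l • EuclideanSpace.single i 1 - x i • EuclideanSpace.single l 1)

lemma rotD_eq_dR (i l : Fin dd) :
    rotD i l = dR (EuclideanSpace.single l 1, EuclideanSpace.single i 1) := by
  funext f x
  unfold rotD dR gen
  simp [EuclideanSpace.inner_single_left]

lemma on_single {i l : Fin dd} (hil : i ≠ l) :
    ON ((EuclideanSpace.single l 1, EuclideanSpace.single i 1) : E dd × E dd) := by
  refine ⟨by simp, by simp, ?_⟩
  simp [EuclideanSpace.inner_single_left, hil.symm]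

/-- The derivatives along the rotations in the coordinate planes vanish at a flat point. -/
lemma rotD_of_flat {i l : Fin dd} (hil : i ≠ l) {f : E dd → ℝ}
    (hf : ∀ x ∈ Metric.sphere (0 : E dd) 1, ContDiffAt ℝ ((⊤ : ℕ∞) : WithTop ℕ∞) f x) {x : E dd}
    (hx : ‖x‖ = 1) (hflat : Flat f x) (k : ℕ) (hk : 1 ≤ k) : (rotD i l)^[k] f x = 0 := by
  rw [rotD_eq_dR]
  exact dR_of_flat hf hx hflat _ (on_single hil) k hk

lemma fderiv_coord (m : Fin dd) (x v : E dd) : fderiv ℝ (fun x : E dd => x m) x v = v m := by
  have h : HasFDerivAt (fun x : E dd => x m) (EuclideanSpace.proj m : E dd →L[ℝ] ℝ) x :=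
    (EuclideanSpace.proj m : E dd →L[ℝ] ℝ).hasFDerivAt
  rw [h.fderiv]
  rfl

lemma rotD_add {f g : E dd → ℝ} (hf : Differentiable ℝ f) (hg : Differentiable ℝ g) :
    rotD i l (fun x => f x + g x) = fun x => rotD i l f x + rotD i l g x := by
  funext x
  unfold rotD
  rw [fderiv_fun_add (hf x) (hg x)]
  rfl

lemma rotD_mul {f g : E dd → ℝ} (hf : Differentiable ℝ f) (hg : Differentiable ℝ g) :
    rotD i l (fun x => f x * g x) = fun x => f x * rotD i l g x + g x * rotD i l f x := by
  funext x
  unfold rotD
  rw [fderiv_fun_mul (hf x) (hg x)]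
  simp

lemma rotD_const (c : ℝ) : rotD i l (fun _ : E dd => c) = fun _ => 0 := by
  funext x
  unfold rotD
  simp

lemma rotD_cmul (c : ℝ) {f : E dd → ℝ} (hf : Differentiable ℝ f) :
    rotD i l (fun x => c * f x) = fun x => c * rotD i l f x := by
  rw [rotD_mul (by fun_prop) hf]
  simp [rotD_const]

lemma rotD_i (h : i ≠ l) : rotD i l (fun x => x i) = fun x => x l := by
  funext x
  unfold rotD
  rw [fderiv_coord]
  simp [h]

lemma rotD_l (h : i ≠ l) : rotD i l (fun x => x l) = fun x => - x i := by
  funext x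
  unfold rotD
  rw [fderiv_coord]
  simp [h.symm]

lemma rotD_j {j : Fin dd} (h : j ≠ i) (h' : j ≠ l) : rotD i l (fun x => x j) = fun _ => 0 := by
  funext x
  unfold rotD
  rw [fderiv_coord]
  simp [h, h']

lemma contDiff_rotD {f : E dd → ℝ} (hf : ContDiff ℝ ∞ f) : ContDiff ℝ ∞ (rotD i l f) := by
  unfold rotD
  have h1 : ContDiff ℝ ∞ (fun x => fderiv ℝ f x) := hf.fderiv_right (by simp)
  have h2 : ContDiff ℝ ∞ (fun x : E dd =>
      x l • (EuclideanSpace.single i (1:ℝ) : E dd) - x i • (EuclideanSpace.single l (1:ℝ) : E dd)) := by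
    fun_prop
  exact h1.clm_apply h2

lemma contDiff_iter {f : E dd → ℝ} (hf : ContDiff ℝ ∞ f) (k : ℕ) :
    ContDiff ℝ ∞ ((rotD i l)^[k] f) := by
  induction k with
  | zero => simpa using hf
  | succ k ih => rw [Function.iterate_succ_apply']; exact contDiff_rotD ih

lemma iter_add {f g : E dd → ℝ} (hf : ContDiff ℝ ∞ f) (hg : ContDiff ℝ ∞ g) (k : ℕ) :
    (rotD i l)^[k] (fun x => f x + g x) = fun x => (rotD i l)^[k] f x + (rotD i l)^[k] g x := by
  induction k with
  | zero => simp
  | succ k ih =>
    rw [Function.iterate_succ_apply', ih, Function.iterate_succ_apply',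
      Function.iterate_succ_apply']
    exact rotD_add ((contDiff_iter hf k).differentiable (by simp))
      ((contDiff_iter hg k).differentiable (by simp))

lemma iter_cmul (c : ℝ) {f : E dd → ℝ} (hf : ContDiff ℝ ∞ f) (k : ℕ) :
    (rotD i l)^[k] (fun x => c * f x) = fun x => c * (rotD i l)^[k] f x := by
  induction k with
  | zero => simp
  | succ k ih =>
    rw [Function.iterate_succ_apply', ih, Function.iterate_succ_apply']
    exact rotD_cmul c ((contDiff_iter hf k).differentiable (by simp))

lemma rotD_sum {ι : Type*} (s : Finset ι) {f : ι → E dd → ℝ}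
    (hf : ∀ q, Differentiable ℝ (f q)) :
    rotD i l (fun x => ∑ q ∈ s, f q x) = fun x => ∑ q ∈ s, rotD i l (f q) x := by
  funext x
  unfold rotD
  rw [fderiv_fun_sum (fun q _ => hf q x)]
  simp

lemma iter_sum {ι : Type*} (s : Finset ι) (c : ι → ℝ) {f : ι → E dd → ℝ}
    (hf : ∀ q, ContDiff ℝ ∞ (f q)) (n : ℕ) :
    (rotD i l)^[n] (fun x => ∑ q ∈ s, c q * f q x) =
      fun x => ∑ q ∈ s, c q * (rotD i l)^[n] (f q) x := by
  induction n with
  | zero => simp
  | succ n ih =>
    rw [Function.iterate_succ_apply', ih]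
    have h1 : ∀ q, Differentiable ℝ ((rotD i l)^[n] (f q)) := fun q =>
      (contDiff_iter (hf q) n).differentiable (by simp)
    rw [rotD_sum s (fun q => (h1 q).const_mul (c q))]
    funext x
    refine Finset.sum_congr rfl fun q _ => ?_
    rw [Function.iterate_succ_apply', rotD_cmul (c q) (h1 q)]

/-- The coefficients of the derivatives of functions of `x_i` along the rotations. -/
noncomputable def BB (i l : Fin dd) : ℕ → ℕ → E dd → ℝ
  | 0, 0 => fun _ => 1
  | 0, _ + 1 => fun _ => 0
  | n + 1, 0 => rotD i l (BB i l n 0)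
  | n + 1, m + 1 => fun x => rotD i l (BB i l n (m + 1)) x + x l * BB i l n m x

lemma contDiff_BB (n : ℕ) : ∀ m, ContDiff ℝ ∞ (BB i l n m) := by
  induction n with
  | zero =>
    intro m
    cases m with
    | zero => unfold BB; exact contDiff_const
    | succ m => unfold BB; exact contDiff_const
  | succ n ih =>
    intro m
    cases m with
    | zero => unfold BB; exact contDiff_rotD (ih 0)
    | succ m =>
      unfold BB
      have h1 : ContDiff ℝ ∞ (fun x : E dd => x l) := by fun_prop
      exact (contDiff_rotD (ih (m + 1))).add (h1.mul (ih m))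

lemma BB_gt (n : ℕ) : ∀ m, n < m → BB i l n m = fun _ => 0 := by
  induction n with
  | zero =>
    intro m hm
    cases m with
    | zero => exact absurd hm (lt_irrefl _)
    | succ m => unfold BB; rfl
  | succ n ih =>
    intro m hm
    cases m with
    | zero => omega
    | succ m =>
      unfold BB
      rw [ih (m + 1) (by omega), ih m (by omega), rotD_const]
      simp

lemma BB_diag (n : ℕ) : BB i l n n = fun x => x l ^ n := by
  induction n with
  | zero => unfold BB; simp
  | succ n ih =>
    unfold BB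
    rw [BB_gt n (n + 1) (by omega), ih, rotD_const]
    funext x
    ring

lemma BB_zero (n : ℕ) : BB i l (n + 1) 0 = fun _ => 0 := by
  induction n with
  | zero => unfold BB; unfold BB; exact rotD_const 1
  | succ n ih => unfold BB; rw [ih]; exact rotD_const 0

lemma rotD_eval (hil : i ≠ l) (p : ℝ[X]) :
    rotD i l (fun x => p.eval (x i)) = fun x => (derivative p).eval (x i) * x l := by
  funext x
  unfold rotD
  have h1 : HasFDerivAt (fun x : E dd => x i) (EuclideanSpace.proj i : E dd →L[ℝ] ℝ) x :=
    (EuclideanSpace.proj i : E dd →L[ℝ] ℝ).hasFDerivAt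
  have h2 := (p.hasDerivAt (x i)).comp_hasFDerivAt x h1
  have h3 : HasFDerivAt (fun x : E dd => p.eval (x i))
      ((derivative p).eval (x i) • (EuclideanSpace.proj i : E dd →L[ℝ] ℝ)) x := h2
  rw [h3.fderiv]
  simp [hil]

lemma contDiff_eval (p : ℝ[X]) : ContDiff ℝ ∞ (fun x : E dd => p.eval (x i)) := by
  have h1 : ContDiff ℝ ∞ (fun t : ℝ => p.eval t) := by
    simpa [Polynomial.coe_aeval_eq_eval] using Polynomial.contDiff_aeval (𝕜 := ℝ) p ∞
  have h2 : ContDiff ℝ ∞ (fun x : E dd => x i) := by fun_prop
  exact h1.comp h2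

lemma iter_eval (hil : i ≠ l) (p : ℝ[X]) (n : ℕ) :
    (rotD i l)^[n] (fun x => p.eval (x i)) =
      fun x => ∑ m ∈ Finset.range (n + 1), BB i l n m x * (derivative^[m] p).eval (x i) := by
  induction n with
  | zero =>
    funext x
    unfold BB
    simp
  | succ n ih =>
    rw [Function.iterate_succ_apply', ih]
    have h1 : ∀ m, Differentiable ℝ (fun x : E dd => BB i l n m x) := fun m =>
      (contDiff_BB n m).differentiable (by simp)
    have h2 : ∀ m, Differentiable ℝ (fun x : E dd => (derivative^[m] p).eval (x i)) := fun m =>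
      (contDiff_eval (derivative^[m] p)).differentiable (by simp)
    have h12 : ∀ m, Differentiable ℝ (fun x : E dd => BB i l n m x *
        (derivative^[m] p).eval (x i)) := fun m => (h1 m).mul (h2 m)
    rw [rotD_sum _ h12]
    funext x
    have h3 : ∀ m, rotD i l (fun x => BB i l n m x * (derivative^[m] p).eval (x i)) x =
        x l * BB i l n m x * (derivative^[m + 1] p).eval (x i) +
          rotD i l (BB i l n m) x * (derivative^[m] p).eval (x i) := by
      intro m
      rw [rotD_mul (h1 m) (h2 m), rotD_eval hil, Function.iterate_succ_apply']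
      ring
    rw [Finset.sum_congr rfl fun m _ => h3 m, Finset.sum_add_distrib,
      Finset.sum_range_succ' _ (n + 1)]
    have h4 : ∑ m ∈ Finset.range (n + 1), rotD i l (BB i l n m) x * (derivative^[m] p).eval (x i) =
        ∑ m ∈ Finset.range (n + 1), rotD i l (BB i l n (m + 1)) x *
          (derivative^[m + 1] p).eval (x i) + rotD i l (BB i l n 0) x *
            (derivative^[0] p).eval (x i) := by
      rw [← Finset.sum_range_succ' (fun m => rotD i l (BB i l n m) x *
        (derivative^[m] p).eval (x i)), Finset.sum_range_succ _ (n + 1),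
        BB_gt n (n + 1) (by omega), rotD_const]
      simp
    rw [h4, ← add_assoc, ← Finset.sum_add_distrib]
    have h5 : BB i l (n + 1) 0 x = rotD i l (BB i l n 0) x := by
      conv_lhs => unfold BB
    rw [h5]
    congr 1
    refine Finset.sum_congr rfl fun m _ => ?_
    have h6 : BB i l (n + 1) (m + 1) x = rotD i l (BB i l n (m + 1)) x + x l * BB i l n m x := by
      conv_lhs => unfold BB
    rw [h6]
    ring

/-- The solution of the triangular system. -/
noncomputable def YY (i l : Fin dd) (r : ℕ → ℝ) (x : E dd) (n : ℕ) : ℝ :=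
  (x l ^ n)⁻¹ * (-(r n) - ∑ m : Fin n, BB i l n m x * YY i l r x m)
termination_by n
decreasing_by exact m.2

lemma YY_eq {x : E dd} (hl : x l ≠ 0) {r y : ℕ → ℝ} {N : ℕ}
    (h : ∀ n, 1 ≤ n → n ≤ N → r n + ∑ m ∈ Finset.range (n + 1), BB i l n m x * y m = 0) (n : ℕ) :
    1 ≤ n → n ≤ N → y n = YY i l r x n := by
  induction n using Nat.strong_induction_on with
  | _ n ih =>
    intro h1 h2
    have h3 := h n h1 h2
    rw [Finset.sum_range_succ, BB_diag] at h3
    have h4 : ∑ m ∈ Finset.range n, BB i l n m x * y m =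
        ∑ m : Fin n, BB i l n m x * YY i l r x m := by
      rw [Finset.sum_range]
      refine Finset.sum_congr rfl fun m _ => ?_
      rcases Nat.eq_zero_or_pos (m : ℕ) with h5 | h5
      · obtain ⟨k, rfl⟩ : ∃ k, n = k + 1 := ⟨n - 1, by omega⟩
        rw [h5, BB_zero]
        simp
      · rw [ih m m.2 h5 (by have := m.2; omega)]
    rw [h4] at h3
    rw [YY]
    have h5 : x l ^ n ≠ 0 := pow_ne_zero _ hl
    field_simp
    linarith

lemma differentiableAt_YY {V : Type*} [NormedAddCommGroup V] [NormedSpace ℝ V] {w : V}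
    {r : V → ℕ → ℝ} {X : V → E dd} (hr : ∀ n, DifferentiableAt ℝ (fun w => r w n) w)
    (hX : DifferentiableAt ℝ X w) (hl : X w l ≠ 0) (n : ℕ) :
    DifferentiableAt ℝ (fun w => YY i l (r w) (X w) n) w := by
  induction n using Nat.strong_induction_on with
  | _ n ih =>
    have h0 : (fun w => YY i l (r w) (X w) n) = fun w => (X w l ^ n)⁻¹ *
        (-(r w n) - ∑ m : Fin n, BB i l n m (X w) * YY i l (r w) (X w) m) := by
      funext w
      rw [YY]
    rw [h0]
    have h1 : DifferentiableAt ℝ (fun w => X w l) w := (differentiableAt_euclidean.1 hX) l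
    have h2 : ∀ m : Fin n, DifferentiableAt ℝ (fun w => BB i l n m (X w)) w := fun m =>
      (((contDiff_BB n m).differentiable (by simp)) (X w)).comp w hX
    have h3 : DifferentiableAt ℝ (fun w => ∑ m : Fin n, BB i l n m (X w) *
        YY i l (r w) (X w) m) w := by
      refine DifferentiableAt.fun_sum fun m _ => ?_
      exact (h2 m).mul (ih m m.2)
    exact ((h1.pow n).inv (pow_ne_zero _ hl)).mul ((hr n).neg.sub h3)

/-- The coefficients of a polynomial from its derivatives at a point. -/
lemma coeff_of_derivatives (p : ℝ[X]) (s : ℝ) {N : ℕ} (hN : p.natDegree ≤ N) (k : ℕ) :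
    p.coeff (k + 1) = ∑ m ∈ Finset.range (N + 1), ((m.factorial : ℝ)⁻¹ *
      (derivative^[m] p).eval s) * ((-s) ^ (m - (k + 1)) * (m.choose (k + 1) : ℝ)) := by
  have h1 := Polynomial.sum_taylor_eq p s
  have h2 : (taylor s p).sum (fun i a => C a * (X - C s) ^ i) =
      ∑ m ∈ Finset.range (N + 1), C ((taylor s p).coeff m) * (X - C s) ^ m := by
    refine Polynomial.sum_over_range' _ (by intro n; simp) _ ?_
    rw [natDegree_taylor]
    omega
  have h3 : p.coeff (k + 1) = (∑ m ∈ Finset.range (N + 1),
      C ((taylor s p).coeff m) * (X - C s) ^ m).coeff (k + 1) := by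
    rw [← h2, h1]
  rw [h3, Polynomial.finsetSum_coeff]
  refine Finset.sum_congr rfl fun m _ => ?_
  have h9 : ((X - C s) ^ m : ℝ[X]).coeff (k + 1) =
      (-s) ^ (m - (k + 1)) * (m.choose (k + 1) : ℝ) := by
    rw [sub_eq_add_neg, ← C_neg, coeff_X_add_C_pow]
  rw [coeff_C_mul, h9, taylor_coeff]
  congr 1
  have h5 : (m.factorial : ℝ) * (hasseDeriv m p).eval s = (derivative^[m] p).eval s := by
    have h6 := congrFun (Polynomial.factorial_smul_hasseDeriv (R := ℝ) m) p
    rw [← h6]
    simp
  rw [← h5]
  have h7 : (m.factorial : ℝ) ≠ 0 := by exact_mod_cast m.factorial_ne_zero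
  field_simp

end Pool.Agent.VANn.NG
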