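import Pool.Agent.VANn.NG1

/-!
Generic finite-dimensional families: the exceptional coefficients lie in differentiable images of
hyperplanes.
-/

set_option autoImplicit false

namespace Pool.Agent.VANn.NG

open MeasureTheory Set Polynomial Pool.Agent.MP_6cbfb8_an
open scoped ENNReal Real ContDiff

variable {dd : ℕ} {i l : Fin dd} {d : ℕ}

/-- The coefficients of the polynomials. -/
abbrev VV (dd d : ℕ) : Type := Fin d → Fin dd → Fin (d + 2 * dd) → ℝ

/-- The powers of the coordinates. -/
def mono (i : Fin dd) (k : ℕ) (x : E dd) : ℝ := x i ^ (k + 1)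

lemma contDiff_mono (i : Fin dd) (k : ℕ) : ContDiff ℝ ∞ (mono i k) := by
  unfold mono
  fun_prop

lemma contDiff_coord (m : Fin dd) : ContDiff ℝ ∞ (fun x : E dd => x m) := by fun_prop

/-- The slots of the point. -/
def sx (m : Fin dd) : Fin (d + 2 * dd) := ⟨m, by omega⟩

/-- The slots of the linear function. -/
def sz (m : Fin dd) : Fin (d + 2 * dd) := ⟨dd + m, by omega⟩

/-- The slots of the coefficients. -/
def sa (j : Fin d) : Fin (d + 2 * dd) := ⟨2 * dd + j, by omega⟩

/-- The point. -/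
noncomputable def XX' (i : Fin dd) (j0 : Fin d) (w : VV dd d) : E dd :=
  WithLp.toLp 2 fun m => w j0 i (sx m)

/-- The coefficients of the combination. -/
def al (i : Fin dd) (j0 : Fin d) (w : VV dd d) (j' : Fin d) : ℝ :=
  if j' = j0 then 1 else w j0 i (sa j')

/-- The linear function. -/
def ze (i : Fin dd) (j0 : Fin d) (w : VV dd d) (m : Fin dd) : ℝ :=
  w j0 i (sz m)

/-- The coefficients of the powers which are not solved for. -/
noncomputable def co (i : Fin dd) (j0 : Fin d) (w : VV dd d)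
    (q : Fin d × Fin dd × Fin (d + 2 * dd)) : ℝ :=
  if q.1 = j0 ∧ q.2.1 = i then 0 else al i j0 w q.1 * w q.1 q.2.1 q.2.2

/-- The derivatives of the rest. -/
noncomputable def rr (φ : Fin d → E dd → ℝ) (i l : Fin dd) (j0 : Fin d) (w : VV dd d)
    (n : ℕ) : ℝ :=
  (∑ j', al i j0 w j' * (rotD i l)^[n] (φ j') (XX' i j0 w)) +
  (∑ q, co i j0 w q * (rotD i l)^[n] (mono q.2.1 q.2.2) (XX' i j0 w)) +
  ∑ m, ze i j0 w m * (rotD i l)^[n] (fun x => x m) (XX' i j0 w)

/-- The map. -/
noncomputable def PP (φ : Fin d → E dd → ℝ) (i l : Fin dd) (j0 : Fin d) (w : VV dd d) :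
    VV dd d := fun j' i' k =>
  if j' = j0 ∧ i' = i then
    ∑ m ∈ Finset.range (d + 2 * dd + 1), ((m.factorial : ℝ)⁻¹ *
      YY i l (rr φ i l j0 w) (XX' i j0 w) m) *
        ((-(XX' i j0 w i)) ^ (m - ((k : ℕ) + 1)) * (m.choose ((k : ℕ) + 1) : ℝ))
  else w j' i' k

/-- The hyperplane. -/
def HP (i l : Fin dd) (j0 : Fin d) : Set (VV dd d) :=
  {w | w j0 i (sa j0) = 0 ∧ XX' i j0 w l ≠ 0}

lemma differentiable_XX' (j0 : Fin d) : Differentiable ℝ (fun w : VV dd d => XX' i j0 w) := by
  intro w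
  rw [differentiableAt_euclidean]
  intro m
  simp only [XX']
  fun_prop

lemma differentiable_al (j0 j' : Fin d) : Differentiable ℝ (fun w : VV dd d => al i j0 w j') := by
  unfold al
  split_ifs <;> fun_prop

lemma differentiable_ze (j0 : Fin d) (m : Fin dd) :
    Differentiable ℝ (fun w : VV dd d => ze i j0 w m) := by
  unfold ze
  fun_prop

lemma differentiable_co (j0 : Fin d) (q : Fin d × Fin dd × Fin (d + 2 * dd)) :
    Differentiable ℝ (fun w : VV dd d => co i j0 w q) := by
  unfold co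
  split_ifs
  · fun_prop
  · exact (differentiable_al j0 q.1).mul (by fun_prop)

lemma differentiable_iterXX' {f : E dd → ℝ} (hf : ContDiff ℝ ∞ f) {j0 : Fin d} (n : ℕ) :
    Differentiable ℝ (fun w : VV dd d => (rotD i l)^[n] f (XX' i j0 w)) := by
  have h1 : Differentiable ℝ ((rotD i l)^[n] f) := (contDiff_iter hf n).differentiable (by simp)
  exact h1.comp (differentiable_XX' j0)

lemma differentiable_rr {φ : Fin d → E dd → ℝ} (hφ : ∀ j', ContDiff ℝ ∞ (φ j'))
    {j0 : Fin d} (n : ℕ) :
    Differentiable ℝ (fun w : VV dd d => rr φ i l j0 w n) := by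
  intro w
  unfold rr
  refine DifferentiableAt.add (DifferentiableAt.add ?_ ?_) ?_
  · refine DifferentiableAt.fun_sum fun j' _ => ?_
    exact (differentiable_al j0 j' w).mul (differentiable_iterXX' (hφ j') n w)
  · refine DifferentiableAt.fun_sum fun q _ => ?_
    exact (differentiable_co j0 q w).mul (differentiable_iterXX' (contDiff_mono _ _) n w)
  · refine DifferentiableAt.fun_sum fun m _ => ?_
    exact (differentiable_ze j0 m w).mul (differentiable_iterXX' (contDiff_coord m) n w)

lemma differentiableAt_PP {φ : Fin d → E dd → ℝ} (hφ : ∀ j', ContDiff ℝ ∞ (φ j'))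
    {j0 : Fin d} {w : VV dd d} (h : XX' i j0 w l ≠ 0) :
    DifferentiableAt ℝ (PP φ i l j0) w := by
  rw [differentiableAt_pi]
  intro j'
  rw [differentiableAt_pi]
  intro i'
  rw [differentiableAt_pi]
  intro k
  by_cases hq : j' = j0 ∧ i' = i
  · simp only [PP, hq, and_self, if_true]
    have hX := differentiable_XX' (i := i) j0 w
    have hXi : DifferentiableAt ℝ (fun w : VV dd d => XX' i j0 w i) w :=
      (differentiableAt_euclidean.1 hX) i
    refine DifferentiableAt.fun_sum fun m _ => ?_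
    have h1 := differentiableAt_YY (i := i) (l := l)
      (fun n => differentiable_rr (i := i) (l := l) (j0 := j0) hφ n w) hX h m
    exact ((h1.const_mul _)).mul ((hXi.neg.pow _).mul_const _)
  · simp only [PP, hq, if_false]
    fun_prop

lemma haar1 (dd d : ℕ) :
    (volume : Measure (Fin dd → Fin (d + 2 * dd) → ℝ)).IsAddHaarMeasure :=
  Measure.pi.isAddHaarMeasure (fun _ : Fin dd => (volume : Measure (Fin (d + 2 * dd) → ℝ)))

lemma haarVV (dd d : ℕ) : (volume : Measure (VV dd d)).IsAddHaarMeasure := by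
  have := haar1 dd d
  exact Measure.pi.isAddHaarMeasure
    (fun _ : Fin d => (volume : Measure (Fin dd → Fin (d + 2 * dd) → ℝ)))

lemma measure_HP (i l : Fin dd) (j0 : Fin d) : (volume : Measure (VV dd d)) (HP i l j0) = 0 := by
  have := haarVV dd d
  have hle : HP i l j0 ⊆ (LinearMap.ker
      ((LinearMap.proj (sa j0) : (Fin (d + 2 * dd) → ℝ) →ₗ[ℝ] ℝ) ∘ₗ
        (LinearMap.proj i : (Fin dd → Fin (d + 2 * dd) → ℝ) →ₗ[ℝ] (Fin (d + 2 * dd) → ℝ)) ∘ₗ
        (LinearMap.proj j0 : VV dd d →ₗ[ℝ] (Fin dd → Fin (d + 2 * dd) → ℝ))) :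
          Submodule ℝ (VV dd d)) := by
    intro w hw
    simpa using hw.1
  refine measure_mono_null hle (Measure.addHaar_submodule _ _ ?_)
  intro htop
  have h1 : (fun _ _ _ => (1:ℝ) : VV dd d) ∈ (⊤ : Submodule ℝ (VV dd d)) := Submodule.mem_top
  rw [← htop] at h1
  simp at h1

lemma measure_PP {φ : Fin d → E dd → ℝ} (hφ : ∀ j', ContDiff ℝ ∞ (φ j'))
    (i l : Fin dd) (j0 : Fin d) :
    (volume : Measure (VV dd d)) (PP φ i l j0 '' HP i l j0) = 0 := by
  have := haarVV dd d
  exact addHaar_image_eq_zero_of_differentiableOn_of_addHaar_eq_zero _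
    (fun _ hw => (differentiableAt_PP hφ hw.2).differentiableWithinAt) (measure_HP i l j0)

end Pool.Agent.VANn.NG
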