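import Pool.Agent.VANn.NG2

/-!
Almost every finite-dimensional space of smooth functions on the sphere of `R^n` has no flat points.
-/

set_option autoImplicit false

namespace Pool.Agent.VANn.NG

open MeasureTheory Set Polynomial Pool.Agent.MP_6cbfb8_an
open scoped ENNReal Real ContDiff

variable {dd : ℕ} {i l : Fin dd} {d : ℕ}

/-- The combination of the perturbed functions and of the linear functions. -/
noncomputable def tot (φ : Fin d → E dd → ℝ) (b : VV dd d) (a : Fin d → ℝ) (ζ : Fin dd → ℝ)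
    (x : E dd) : ℝ :=
  (∑ j', a j' * (φ j' x + ∑ i, ∑ k : Fin (d + 2 * dd), b j' i k * x i ^ ((k : ℕ) + 1))) +
    ∑ m, ζ m * x m

/-- The polynomial which is solved for. -/
noncomputable def pl (b : VV dd d) (j0 : Fin d) (i : Fin dd) : ℝ[X] :=
  ∑ k : Fin (d + 2 * dd), C (b j0 i k) * X ^ ((k : ℕ) + 1)

lemma pl_natDegree (b : VV dd d) (j0 : Fin d) (i : Fin dd) :
    (pl b j0 i).natDegree ≤ d + 2 * dd := by
  unfold pl
  refine natDegree_sum_le_of_forall_le _ _ fun k _ => ?_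
  exact (natDegree_C_mul_X_pow_le _ _).trans (by have := k.2; omega)

lemma pl_coeff (b : VV dd d) (j0 : Fin d) (i : Fin dd) (k : Fin (d + 2 * dd)) :
    (pl b j0 i).coeff ((k : ℕ) + 1) = b j0 i k := by
  unfold pl
  rw [finsetSum_coeff]
  simp only [coeff_C_mul, coeff_X_pow]
  rw [Finset.sum_eq_single k]
  · simp
  · intro k' _ hk'
    have : ¬ ((k : ℕ) + 1 = (k' : ℕ) + 1) := by
      intro h
      exact hk' (Fin.ext (by omega))
    rw [if_neg this, mul_zero]
  · simp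

/-- The coefficients of the powers which are not solved for. -/
noncomputable def co' (i : Fin dd) (j0 : Fin d) (b : VV dd d) (a : Fin d → ℝ)
    (q : Fin d × Fin dd × Fin (d + 2 * dd)) : ℝ :=
  if q.1 = j0 ∧ q.2.1 = i then 0 else a q.1 * b q.1 q.2.1 q.2.2

lemma tot_split (φ : Fin d → E dd → ℝ) (b : VV dd d) (a : Fin d → ℝ) (ζ : Fin dd → ℝ)
    (i : Fin dd) (j0 : Fin d) (ha : a j0 = 1) (x : E dd) :
    tot φ b a ζ x = (∑ j', a j' * φ j' x) + (∑ q, co' i j0 b a q * mono q.2.1 q.2.2 x) +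
      (∑ m, ζ m * x m) + (pl b j0 i).eval (x i) := by
  have h1 : ∑ j', a j' * (φ j' x +
        ∑ i, ∑ k : Fin (d + 2 * dd), b j' i k * x i ^ ((k : ℕ) + 1)) =
      (∑ j', a j' * φ j' x) +
        ∑ q : Fin d × Fin dd × Fin (d + 2 * dd),
          a q.1 * b q.1 q.2.1 q.2.2 * mono q.2.1 q.2.2 x := by
    rw [Fintype.sum_prod_type, ← Finset.sum_add_distrib]
    refine Finset.sum_congr rfl fun j' _ => ?_
    rw [Fintype.sum_prod_type, mul_add, Finset.mul_sum]
    congr 1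
    refine Finset.sum_congr rfl fun i' _ => ?_
    rw [Finset.mul_sum]
    refine Finset.sum_congr rfl fun k _ => ?_
    unfold mono
    ring
  have h2 : ∑ q : Fin d × Fin dd × Fin (d + 2 * dd),
        a q.1 * b q.1 q.2.1 q.2.2 * mono q.2.1 q.2.2 x =
      (∑ q, co' i j0 b a q * mono q.2.1 q.2.2 x) + (pl b j0 i).eval (x i) := by
    have h3 : (pl b j0 i).eval (x i) = ∑ q : Fin d × Fin dd × Fin (d + 2 * dd),
        (if q.1 = j0 ∧ q.2.1 = i then b q.1 q.2.1 q.2.2 else 0) * mono q.2.1 q.2.2 x := by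
      rw [Fintype.sum_prod_type, Finset.sum_eq_single j0]
      · rw [Fintype.sum_prod_type, Finset.sum_eq_single i]
        · unfold pl
          rw [eval_finsetSum]
          refine Finset.sum_congr rfl fun k _ => ?_
          simp [mono]
        · intro i' _ hi'
          refine Finset.sum_eq_zero fun k _ => ?_
          simp [hi']
        · simp
      · intro j' _ hj'
        refine Finset.sum_eq_zero fun q _ => ?_
        simp [hj']
      · simp
    rw [h3, ← Finset.sum_add_distrib]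
    refine Finset.sum_congr rfl fun q _ => ?_
    rw [← add_mul]
    congr 1
    unfold co'
    split_ifs with h
    · rw [h.1, ha]; ring
    · ring
  unfold tot
  rw [h1, h2]
  ring

lemma iter_tot {φ : Fin d → E dd → ℝ} (hφ : ∀ j', ContDiff ℝ ∞ (φ j')) (hil : i ≠ l)
    (b : VV dd d) (a : Fin d → ℝ) (ζ : Fin dd → ℝ) (j0 : Fin d) (ha : a j0 = 1) (n : ℕ)
    (x : E dd) :
    (rotD i l)^[n] (tot φ b a ζ) x =
      ((∑ j', a j' * (rotD i l)^[n] (φ j') x) +
        (∑ q, co' i j0 b a q * (rotD i l)^[n] (mono q.2.1 q.2.2) x) +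
        ∑ m, ζ m * (rotD i l)^[n] (fun x => x m) x) +
      ∑ m ∈ Finset.range (n + 1), BB i l n m x * (derivative^[m] (pl b j0 i)).eval (x i) := by
  have h1 : tot φ b a ζ = fun x => ((∑ j', a j' * φ j' x) +
      (∑ q, co' i j0 b a q * mono q.2.1 q.2.2 x) + (∑ m, ζ m * x m)) +
        (pl b j0 i).eval (x i) := by
    funext y
    exact tot_split φ b a ζ i j0 ha y
  have c1 : ContDiff ℝ ∞ (fun x : E dd => ∑ j', a j' * φ j' x) :=
    ContDiff.sum fun j' _ => contDiff_const.mul (hφ j')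
  have c2 : ContDiff ℝ ∞ (fun x : E dd => ∑ q : Fin d × Fin dd × Fin (d + 2 * dd),
      co' i j0 b a q * mono q.2.1 q.2.2 x) :=
    ContDiff.sum fun q _ => contDiff_const.mul (contDiff_mono _ _)
  have c3 : ContDiff ℝ ∞ (fun x : E dd => ∑ m, ζ m * x m) :=
    ContDiff.sum fun m _ => contDiff_const.mul (contDiff_coord m)
  rw [h1, iter_add ((c1.add c2).add c3) (contDiff_eval _), iter_add (c1.add c2) c3,
    iter_add c1 c2, iter_sum _ _ hφ, iter_sum _ _ (fun q => contDiff_mono _ _),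
    iter_sum _ _ (fun m => contDiff_coord m), iter_eval hil]

/-- The code of the parameters. -/
noncomputable def enc (j0 : Fin d) (a : Fin d → ℝ) (ζ : Fin dd → ℝ) (x : E dd)
    (k : Fin (d + 2 * dd)) : ℝ :=
  if h : (k : ℕ) < dd then x ⟨k, h⟩
  else if h' : (k : ℕ) < 2 * dd then ζ ⟨k - dd, by omega⟩
  else if (⟨k - 2 * dd, by have := k.2; omega⟩ : Fin d) = j0 then 0
  else a ⟨k - 2 * dd, by have := k.2; omega⟩

/-- The parameters. -/
noncomputable def ww (i : Fin dd) (j0 : Fin d) (b : VV dd d) (a : Fin d → ℝ) (ζ : Fin dd → ℝ)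
    (x : E dd) : VV dd d := fun j' i' k =>
  if j' = j0 ∧ i' = i then enc j0 a ζ x k else b j' i' k

lemma ww_sx (j0 : Fin d) (b : VV dd d) (a : Fin d → ℝ) (ζ : Fin dd → ℝ) (x : E dd)
    (m : Fin dd) : ww i j0 b a ζ x j0 i (sx m) = x m := by
  unfold ww enc sx
  simp

lemma ww_sz (j0 : Fin d) (b : VV dd d) (a : Fin d → ℝ) (ζ : Fin dd → ℝ) (x : E dd)
    (m : Fin dd) : ww i j0 b a ζ x j0 i (sz m) = ζ m := by
  unfold ww enc sz
  have h : dd + (m : ℕ) < 2 * dd := by omega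
  simp [h]

lemma ww_sa (j0 : Fin d) (b : VV dd d) (a : Fin d → ℝ) (ζ : Fin dd → ℝ) (x : E dd)
    (j' : Fin d) : ww i j0 b a ζ x j0 i (sa j') = if j' = j0 then 0 else a j' := by
  unfold ww enc sa
  have h1 : ¬ (2 * dd + (j' : ℕ) < dd) := by omega
  have h2 : ¬ (2 * dd + (j' : ℕ) < 2 * dd) := by omega
  simp [h1]

lemma XX'_ww (j0 : Fin d) (b : VV dd d) (a : Fin d → ℝ) (ζ : Fin dd → ℝ) (x : E dd) :
    XX' i j0 (ww i j0 b a ζ x) = x := by
  ext m
  unfold XX'
  simp only [ww_sx]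

lemma al_ww (j0 : Fin d) (b : VV dd d) (a : Fin d → ℝ) (ha : a j0 = 1) (ζ : Fin dd → ℝ)
    (x : E dd) (j' : Fin d) : al i j0 (ww i j0 b a ζ x) j' = a j' := by
  unfold al
  rw [ww_sa]
  split_ifs with h
  · rw [h, ha]
  · rfl

lemma ze_ww (j0 : Fin d) (b : VV dd d) (a : Fin d → ℝ) (ζ : Fin dd → ℝ) (x : E dd)
    (m : Fin dd) : ze i j0 (ww i j0 b a ζ x) m = ζ m := by
  unfold ze
  rw [ww_sz]

lemma co_ww (j0 : Fin d) (b : VV dd d) (a : Fin d → ℝ) (ha : a j0 = 1) (ζ : Fin dd → ℝ)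
    (x : E dd) (q : Fin d × Fin dd × Fin (d + 2 * dd)) :
    co i j0 (ww i j0 b a ζ x) q = co' i j0 b a q := by
  unfold co co'
  split_ifs with h
  · rfl
  · rw [al_ww j0 b a ha]
    unfold ww
    rw [if_neg h]

/-- Flatness of order `d + 2n` at a point with nonvanishing coordinate `l`. -/
lemma mem_image {φ : Fin d → E dd → ℝ} (hφ : ∀ j', ContDiff ℝ ∞ (φ j')) (hil : i ≠ l)
    {b : VV dd d} {a : Fin d → ℝ} {ζ : Fin dd → ℝ} {j0 : Fin d}
    (ha : a j0 = 1) {x : E dd} (hl : x l ≠ 0)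
    (h : ∀ n, 1 ≤ n → n ≤ d + 2 * dd → (rotD i l)^[n] (tot φ b a ζ) x = 0) :
    b ∈ PP φ i l j0 '' HP i l j0 := by
  have hr : ∀ n, rr φ i l j0 (ww i j0 b a ζ x) n =
      (∑ j', a j' * (rotD i l)^[n] (φ j') x) +
        (∑ q, co' i j0 b a q * (rotD i l)^[n] (mono q.2.1 q.2.2) x) +
        ∑ m, ζ m * (rotD i l)^[n] (fun x => x m) x := by
    intro n
    unfold rr
    simp only [XX'_ww, al_ww j0 b a ha, co_ww j0 b a ha, ze_ww]
  have hY := YY_eq (i := i) (l := l) (x := x) hl (r := rr φ i l j0 (ww i j0 b a ζ x))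
    (y := fun m => (derivative^[m] (pl b j0 i)).eval (x i)) (N := d + 2 * dd) (by
      intro n h1 h2
      have h3 := h n h1 h2
      rw [iter_tot hφ hil b a ζ j0 ha] at h3
      rw [hr]
      exact h3)
  refine ⟨ww i j0 b a ζ x, ⟨?_, ?_⟩, ?_⟩
  · rw [ww_sa, if_pos rfl]
  · rw [XX'_ww]
    exact hl
  · funext j' i' k
    unfold PP
    by_cases hq : j' = j0 ∧ i' = i
    · rw [if_pos hq, XX'_ww]
      obtain ⟨rfl, rfl⟩ := hq
      rw [← pl_coeff b j' i' k, coeff_of_derivatives (pl b j' i') (x i') (pl_natDegree b j' i')]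
      refine Finset.sum_congr rfl fun m hm => ?_
      rcases Nat.eq_zero_or_pos m with h0 | h0
      · subst h0
        simp
      · have h1 := hY m h0 (by have := Finset.mem_range.1 hm; omega)
        simp only at h1
        rw [h1]
    · rw [if_neg hq]
      unfold ww
      rw [if_neg hq]

lemma exists_l {x : E dd} (hx : ‖x‖ = 1) : ∃ l, x l ≠ 0 := by
  by_contra h
  push Not at h
  have : x = 0 := by ext m; simpa using h m
  rw [this] at hx
  simp at hx

lemma exists_i (hd : 2 ≤ dd) (l : Fin dd) : ∃ i : Fin dd, i ≠ l := by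
  have : Nontrivial (Fin dd) := Fin.nontrivial_iff_two_le.2 hd
  exact exists_ne l

lemma contDiff_tot {φ : Fin d → E dd → ℝ} (hφ : ∀ j', ContDiff ℝ ∞ (φ j')) (b : VV dd d)
    (a : Fin d → ℝ) (ζ : Fin dd → ℝ) : ContDiff ℝ ∞ (tot φ b a ζ) := by
  unfold tot
  refine ContDiff.add (ContDiff.sum fun j' _ => contDiff_const.mul ((hφ j').add ?_)) ?_
  · fun_prop
  · fun_prop

/-- For almost all coefficients no combination with a nonzero coefficient is flat. -/
theorem ae_tot (hd : 2 ≤ dd) {φ : Fin d → E dd → ℝ} (hφ : ∀ j', ContDiff ℝ ∞ (φ j')) :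
    ∀ᵐ b : VV dd d, ∀ (a : Fin d → ℝ) (ζ : Fin dd → ℝ) (x : E dd), ‖x‖ = 1 →
      (∀ i l : Fin dd, i ≠ l → ∀ n, 1 ≤ n → n ≤ d + 2 * dd →
        (rotD i l)^[n] (tot φ b a ζ) x = 0) → a = 0 := by
  have h1 : ∀ (i l : Fin dd) (j0 : Fin d),
      ∀ᵐ b : VV dd d, b ∉ PP φ i l j0 '' HP i l j0 := by
    intro i l j0
    exact measure_eq_zero_iff_ae_notMem.1 (measure_PP hφ i l j0)
  have h2 : ∀ᵐ b : VV dd d, ∀ (i l : Fin dd) (j0 : Fin d), b ∉ PP φ i l j0 '' HP i l j0 := by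
    rw [ae_all_iff]
    intro i
    rw [ae_all_iff]
    intro l
    rw [ae_all_iff]
    intro j0
    exact h1 i l j0
  filter_upwards [h2] with b h3
  intro a ζ x hx h
  by_contra hne
  obtain ⟨j0, hj0⟩ : ∃ j0, a j0 ≠ 0 := by
    by_contra hcon
    push Not at hcon
    exact hne (funext hcon)
  obtain ⟨l, hl⟩ := exists_l hx
  obtain ⟨i, hil⟩ := exists_i hd l
  have hsc : tot φ b (fun j' => (a j0)⁻¹ * a j') (fun m => (a j0)⁻¹ * ζ m) =
      fun y => (a j0)⁻¹ * tot φ b a ζ y := by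
    funext y
    unfold tot
    rw [mul_add, Finset.mul_sum, Finset.mul_sum]
    congr 1
    · exact Finset.sum_congr rfl fun _ _ => by ring
    · exact Finset.sum_congr rfl fun _ _ => by ring
  have hmem := mem_image (b := b) (a := fun j' => (a j0)⁻¹ * a j')
    (ζ := fun m => (a j0)⁻¹ * ζ m) (j0 := j0) hφ hil (inv_mul_cancel₀ hj0) hl (by
      intro n n1 n2
      rw [hsc, iter_cmul _ (contDiff_tot hφ b a ζ)]
      show (a j0)⁻¹ * (rotD i l)^[n] (tot φ b a ζ) x = 0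
      rw [h i l hil n n1 n2, mul_zero])
  exact h3 i l j0 hmem

end Pool.Agent.VANn.NG
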