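import Pool.Agent.VANn.N1
import Pool.Agent.GNP.Cov

/-!
The set of the coefficients `b` for which `φ + ∑ b_m x_m^2` is not nonflat on the unit sphere of `R^n`
has Hausdorff dimension at most one.
-/

set_option autoImplicit false

namespace Pool.Agent.VANn.QD

open MeasureTheory Set Filter Topology Asymptotics Pool.Agent.MP_6cbfb8_an
open Pool.Agent.GNP (cb pi_cover)
open Pool.Agent.VAN (fam)
open scoped ENNReal NNReal Real ContDiff

variable {d : ℕ}

/-! ### The covering argument -/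

/-- The condition of closeness. -/
def near (A : E (d + 1) → Fin d → ℝ) (ρ : ℝ) (b : Fin (d + 1) → ℝ) (z : E (d + 1)) : Prop :=
  ∀ m : Fin d, |A z m - (b m.succ - b 0)| ≤ ρ

lemma near_vol (c : Fin d → ℝ) (ρ L : ℝ) (hρ : 0 ≤ ρ) (_hL : 0 ≤ L) :
    volume {b : Fin (d + 1) → ℝ | |b 0| ≤ L ∧ ∀ m : Fin d, |c m - (b m.succ - b 0)| ≤ ρ} ≤
      ENNReal.ofReal ((2 * L) * (2 * ρ) ^ d) := by
  set T : Set (ℝ × (Fin d → ℝ)) := {z | |z.1| ≤ L ∧ ∀ m : Fin d, |c m - (z.2 m - z.1)| ≤ ρ} with hT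
  have hTm : MeasurableSet T := by
    have e : T = (fun z : ℝ × (Fin d → ℝ) => |z.1|) ⁻¹' Iic L ∩
        ⋂ m : Fin d, (fun z : ℝ × (Fin d → ℝ) => |c m - (z.2 m - z.1)|) ⁻¹' Iic ρ := by
      ext z
      simp [hT]
    rw [e]
    refine MeasurableSet.inter ?_ (MeasurableSet.iInter fun m => ?_)
    · exact measurable_fst.abs measurableSet_Iic
    · have : Measurable fun z : ℝ × (Fin d → ℝ) => |c m - (z.2 m - z.1)| := by fun_prop
      exact this measurableSet_Iic
  have h1 : {b : Fin (d + 1) → ℝ | |b 0| ≤ L ∧ ∀ m : Fin d, |c m - (b m.succ - b 0)| ≤ ρ} =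
      (MeasurableEquiv.piFinSuccAbove (fun _ : Fin (d + 1) => ℝ) 0) ⁻¹' T := by
    ext b
    simp [hT, MeasurableEquiv.piFinSuccAbove, Fin.insertNthEquiv, Fin.tail]
  rw [h1, (volume_preserving_piFinSuccAbove (fun _ : Fin (d + 1) => ℝ) 0).measure_preimage
    hTm.nullMeasurableSet, Measure.volume_eq_prod, Measure.prod_apply hTm]
  calc ∫⁻ t : ℝ, volume (Prod.mk t ⁻¹' T)
      ≤ ∫⁻ t : ℝ, (Icc (-L) L).indicator (fun _ => ENNReal.ofReal ((2 * ρ) ^ d)) t := by
        refine lintegral_mono fun t => ?_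
        by_cases ht : t ∈ Icc (-L) L
        · rw [indicator_of_mem ht]
          have h2 : Prod.mk t ⁻¹' T ⊆ Set.pi univ (fun m : Fin d =>
              Icc (c m + t - ρ) (c m + t + ρ)) := by
            rintro b ⟨_, hb⟩
            rw [Set.mem_univ_pi]
            intro m
            have := hb m
            simp only at this
            rw [abs_le] at this
            constructor <;> linarith
          refine (measure_mono h2).trans (le_of_eq ?_)
          rw [volume_pi_pi]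
          have h3 : ∀ m : Fin d, volume (Icc (c m + t - ρ) (c m + t + ρ)) =
              ENNReal.ofReal (2 * ρ) := by
            intro m
            rw [Real.volume_Icc]
            congr 1
            ring
          rw [Finset.prod_congr rfl fun m _ => h3 m, Finset.prod_const, Finset.card_univ,
            Fintype.card_fin, ← ENNReal.ofReal_pow (by linarith)]
        · rw [indicator_of_notMem ht]
          have h2 : Prod.mk t ⁻¹' T = ∅ := by
            rw [Set.eq_empty_iff_forall_notMem]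
            rintro b ⟨hb, _⟩
            exact ht (abs_le.1 hb)
          rw [h2, measure_empty]
    _ = ENNReal.ofReal ((2 * L) * (2 * ρ) ^ d) := by
        rw [lintegral_indicator_const measurableSet_Icc, Real.volume_Icc,
          ← ENNReal.ofReal_mul (by positivity)]
        congr 1
        ring

/-- The measure of the parameters which are close to `b`. -/
noncomputable def VV (A : E (d + 1) → Fin d → ℝ) (ρ : ℝ) (b : Fin (d + 1) → ℝ) : ℝ≥0∞ :=
  ∫⁻ z in Metric.closedBall (0 : E (d + 1)) 2, {z | near A ρ b z}.indicator 1 z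

lemma meas_near {A : E (d + 1) → Fin d → ℝ} (hA : ∀ m, Measurable fun z => A z m) (ρ : ℝ) :
    MeasurableSet {w : (Fin (d + 1) → ℝ) × E (d + 1) | near A ρ w.1 w.2} := by
  have e : {w : (Fin (d + 1) → ℝ) × E (d + 1) | near A ρ w.1 w.2} =
      ⋂ m : Fin d, (fun w : (Fin (d + 1) → ℝ) × E (d + 1) =>
        |A w.2 m - (w.1 m.succ - w.1 0)|) ⁻¹' Iic ρ := by
    ext w
    simp [near]
  rw [e]
  refine MeasurableSet.iInter fun m => ?_
  have h1 : Measurable fun w : (Fin (d + 1) → ℝ) × E (d + 1) => A w.2 m :=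
    (hA m).comp measurable_snd
  have h2 : Measurable fun w : (Fin (d + 1) → ℝ) × E (d + 1) =>
      |A w.2 m - (w.1 m.succ - w.1 0)| := (h1.sub (by fun_prop)).abs
  exact h2 measurableSet_Iic

lemma VV_int {A : E (d + 1) → Fin d → ℝ} (hA : ∀ m, Measurable fun z => A z m) {ρ : ℝ}
    (hρ : 0 ≤ ρ) {L : ℝ} (hL : 0 ≤ L) :
    ∫⁻ b in cb (d + 1) L, VV A ρ b ≤ ENNReal.ofReal
      ((2 * L) * (2 * ρ) ^ d * (volume (Metric.closedBall (0 : E (d + 1)) 2)).toReal) := by
  have hfin : volume (Metric.closedBall (0 : E (d + 1)) 2) ≠ ⊤ := measure_closedBall_lt_top.ne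
  unfold VV
  rw [lintegral_lintegral_swap]
  · calc ∫⁻ z in Metric.closedBall (0 : E (d + 1)) 2, ∫⁻ b in cb (d + 1) L,
          {z | near A ρ b z}.indicator 1 z
        ≤ ∫⁻ _ in Metric.closedBall (0 : E (d + 1)) 2, ENNReal.ofReal ((2 * L) * (2 * ρ) ^ d) := by
          refine lintegral_mono fun w => ?_
          have hm : MeasurableSet {b : Fin (d + 1) → ℝ | near A ρ b w} :=
            (meas_near hA ρ).preimage (measurable_prodMk_right (y := w))
          have e : ∀ b : Fin (d + 1) → ℝ, {w | near A ρ b w}.indicator (1 : E (d + 1) → ℝ≥0∞) w =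
              {b : Fin (d + 1) → ℝ | near A ρ b w}.indicator 1 b := by
            intro b
            by_cases h : near A ρ b w
            · simp [Set.indicator, h]
            · simp [Set.indicator, h]
          simp_rw [e]
          rw [lintegral_indicator_one hm, Measure.restrict_apply hm]
          refine (measure_mono ?_).trans (near_vol (A w) ρ L hρ hL)
          rintro b ⟨hb, hc⟩
          exact ⟨hc 0, hb⟩
      _ = _ := by
          rw [setLIntegral_const]
          nth_rewrite 1 [← ENNReal.ofReal_toReal hfin]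
          rw [← ENNReal.ofReal_mul (by positivity)]
  · refine Measurable.aemeasurable ?_
    have e : (Function.uncurry fun (b : Fin (d + 1) → ℝ) (w : E (d + 1)) =>
        {w | near A ρ b w}.indicator (1 : E (d + 1) → ℝ≥0∞) w) =
        {z : (Fin (d + 1) → ℝ) × E (d + 1) | near A ρ z.1 z.2}.indicator 1 := by
      funext z
      by_cases h : near A ρ z.1 z.2
      · simp [Set.indicator, Function.uncurry, h]
      · simp [Set.indicator, Function.uncurry, h]
    rw [e]
    exact measurable_one.indicator (meas_near hA ρ)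

/-- The measure of the unit ball. -/
noncomputable def cB (d : ℕ) : ℝ := (volume (Metric.ball (0 : E (d + 1)) 1)).toReal

lemma cB_pos (d : ℕ) : 0 < cB d :=
  ENNReal.toReal_pos (Metric.measure_ball_pos volume _ one_pos).ne' measure_ball_lt_top.ne

lemma VV_ge {A : E (d + 1) → Fin d → ℝ} {ρ : ℝ} {b : Fin (d + 1) → ℝ} {x : E (d + 1)}
    (hx : ‖x‖ = 1) {r : ℝ} (hr0 : 0 ≤ r) (hr : r ≤ 1)
    (h : ∀ z : E (d + 1), ‖z - x‖ ≤ r → near A ρ b z) :
    ENNReal.ofReal (cB d * r ^ (d + 1)) ≤ VV A ρ b := by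
  have hsub : Metric.ball x r ⊆ Metric.closedBall (0 : E (d + 1)) 2 := by
    intro z hz
    rw [Metric.mem_ball, dist_eq_norm] at hz
    rw [mem_closedBall_zero_iff]
    calc ‖z‖ = ‖(z - x) + x‖ := by rw [sub_add_cancel]
      _ ≤ ‖z - x‖ + ‖x‖ := norm_add_le _ _
      _ ≤ 2 := by rw [hx]; linarith
  unfold VV
  calc ENNReal.ofReal (cB d * r ^ (d + 1))
      = ∫⁻ _ in Metric.ball x r, (1 : ℝ≥0∞) := by
        rw [setLIntegral_one, Measure.addHaar_ball volume x hr0, finrank_euclideanSpace_fin,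
          mul_comm, ENNReal.ofReal_mul (by positivity)]
        congr 1
        exact ENNReal.ofReal_toReal measure_ball_lt_top.ne
    _ ≤ ∫⁻ z in Metric.ball x r, {z | near A ρ b z}.indicator 1 z := by
        refine setLIntegral_mono' measurableSet_ball fun w hw => ?_
        rw [Metric.mem_ball, dist_eq_norm] at hw
        have hw := h w hw.le
        simp [Set.indicator, hw]
    _ ≤ _ := lintegral_mono_set hsub

/-- The coefficients determined up to order `k` at some point. -/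
def exc (A : E (d + 1) → Fin d → ℝ) (m δ : ℝ) (k : ℕ) : Set (Fin (d + 1) → ℝ) :=
  {b | ∃ x : E (d + 1), ‖x‖ = 1 ∧ ∀ r : ℝ, 0 < r → r ≤ δ → ∀ z : E (d + 1), ‖z - x‖ ≤ r →
    near A (m * r ^ k) b z}

/-- The dimension of these sets. -/
theorem dim_exc {A : E (d + 1) → Fin d → ℝ} (hA : ∀ m, Measurable fun z => A z m) {m δ : ℝ}
    (hm : 0 ≤ m) (hδ : 0 < δ) {k : ℕ} (hk : 1 ≤ k) {K : ℝ} (hK : 0 ≤ K) {s : ℝ≥0}
    (hs : 1 + ((d : ℝ) + 1) / (k : ℝ) < s) : dimH (cb (d + 1) K ∩ exc A m δ k) ≤ s := by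
  have hk0 : (0 : ℝ) < k := by exact_mod_cast hk
  set t : ℕ → ℝ := fun j => ((2:ℝ) ^ j)⁻¹ with ht
  have ht0 : ∀ j, 0 < t j := fun j => by positivity
  set r : ℕ → ℝ := fun j => (t j) ^ (1 / (k : ℝ)) with hr
  have hr0 : ∀ j, 0 < r j := fun j => Real.rpow_pos_of_pos (ht0 j) _
  have hrk : ∀ j, r j ^ k = t j := fun j => by
    rw [hr, ← Real.rpow_natCast, ← Real.rpow_mul (ht0 j).le, one_div_mul_cancel hk0.ne',
      Real.rpow_one]
  have htt : Tendsto t atTop (𝓝 0) := by
    have := tendsto_pow_atTop_nhds_zero_of_lt_one (r := (2⁻¹ : ℝ)) (by norm_num) (by norm_num)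
    simpa only [ht, inv_pow] using this
  have hrt : Tendsto r atTop (𝓝 0) := by
    have := htt.rpow_const (p := 1 / (k : ℝ)) (Or.inr (by positivity))
    rwa [Real.zero_rpow (by positivity)] at this
  have hev : ∀ᶠ j in atTop, r j ≤ min δ 1 := by
    filter_upwards [hrt.eventually_lt_const (show (0:ℝ) < min δ 1 by positivity)] with j hj
    exact hj.le
  set v2 : ℝ := (volume (Metric.closedBall (0 : E (d + 1)) 2)).toReal with hv2
  have hv20 : 0 ≤ v2 := ENNReal.toReal_nonneg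
  have hcB := cB_pos d
  set bad : ℕ → Set (Fin (d + 1) → ℝ) := fun j => {b | r j ≤ min δ 1 ∧ b ∈ exc A m δ k} with hbad
  have hcov := pi_cover (d + 1) K s (fun j => VV A ((m + 2) * t j))
    (fun j => cB d * r j ^ (d + 1))
    (fun j => (2 * (K + 1)) * (2 * ((m + 2) * t j)) ^ d * v2)
    (fun j => by have := hr0 j; positivity)
    (fun j => by have := ht0 j; positivity) (fun j => VV_int hA (by have := ht0 j; positivity)
      (by positivity)) ?_ bad ?_
  · refine (dimH_mono ?_).trans hcov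
    rintro b ⟨hb, he⟩
    exact ⟨hb, (hev.mono fun j hj => ⟨hj, he⟩).frequently⟩
  · have hq : (0:ℝ) < (s : ℝ) - 1 - ((d : ℝ) + 1) / k := by linarith
    set q : ℝ := (2⁻¹ : ℝ) ^ ((s : ℝ) - 1 - ((d : ℝ) + 1) / k) with hqd
    have hq0 : 0 < q := by positivity
    have hq1 : q < 1 := Real.rpow_lt_one (by norm_num) (by norm_num) hq
    have e : (fun j : ℕ => (2 * (K + 1)) * (2 * ((m + 2) * t j)) ^ d * v2 /
        (cB d * r j ^ (d + 1)) * ((2:ℝ) ^ j) ^ (d + 1) * (((2:ℝ) ^ j)⁻¹) ^ (s : ℝ)) =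
        fun j => (2 * (K + 1)) * (2 * (m + 2)) ^ d * v2 / cB d * q ^ j := by
      funext j
      have p0 := ht0 j
      have e1 : ((2:ℝ) ^ j) ^ (d + 1) = (t j) ^ (-((d : ℝ) + 1)) := by
        rw [Real.rpow_neg p0.le, ← Real.rpow_natCast ((2:ℝ) ^ j) (d + 1)]
        simp only [ht]
        rw [Real.inv_rpow (by positivity), inv_inv]
        push_cast
        rfl
      have e2 : r j ^ (d + 1) = (t j) ^ (((d : ℝ) + 1) / (k : ℝ)) := by
        rw [hr, ← Real.rpow_natCast, ← Real.rpow_mul p0.le]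
        congr 1
        push_cast
        ring
      have e3 : q ^ j = (t j) ^ ((s : ℝ) - 1 - ((d : ℝ) + 1) / k) := by
        simp only [ht, hqd]
        rw [← Real.rpow_natCast (2:ℝ) j, ← Real.rpow_neg (by norm_num), ← Real.rpow_mul (by norm_num),
          ← Real.rpow_natCast ((2⁻¹:ℝ) ^ _) j, ← Real.rpow_mul (by norm_num),
          Real.inv_rpow (by norm_num), ← Real.rpow_neg (by norm_num)]
        congr 1
        ring
      have e5 : (2 * ((m + 2) * t j)) ^ d = (2 * (m + 2)) ^ d * (t j) ^ (d : ℝ) := by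
        rw [Real.rpow_natCast, ← mul_pow]
        congr 1
        ring
      have e4 : (t j) ^ ((s : ℝ) - 1 - ((d : ℝ) + 1) / k) = (t j) ^ (d : ℝ) *
          ((t j) ^ (((d : ℝ) + 1) / (k:ℝ)))⁻¹ * (t j) ^ (-((d : ℝ) + 1)) * (t j) ^ (s : ℝ) := by
        rw [← Real.rpow_neg p0.le, ← Real.rpow_add p0, ← Real.rpow_add p0, ← Real.rpow_add p0]
        congr 1
        ring
      rw [e1, e2, e3, e4, e5]
      show 2 * (K + 1) * ((2 * (m + 2)) ^ d * (t j) ^ (d : ℝ)) * v2 /
        (cB d * (t j) ^ (((d : ℝ) + 1) / (k : ℝ))) * (t j) ^ (-((d : ℝ) + 1)) *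
        (t j) ^ (s : ℝ) = _
      have hp : (0:ℝ) < (t j) ^ (((d : ℝ) + 1) / (k : ℝ)) := by positivity
      field_simp
    rw [e]
    exact (summable_geometric_of_lt_one hq0.le hq1).mul_left _
  · rintro j b ⟨hrj, x, hx, hw⟩ _ b' hb'
    refine VV_ge hx (hr0 j).le (hrj.trans (min_le_right _ _)) fun z hz i => ?_
    have c1 := hw (r j) (hr0 j) (hrj.trans (min_le_left _ _)) z hz i
    rw [hrk] at c1
    have d0 := hb' 0
    have d1 := hb' i.succ
    have hj : (1:ℝ) / 2 ^ j = t j := by simp [ht]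
    rw [hj] at d0 d1
    rw [abs_le] at c1 d0 d1
    rw [abs_le]
    constructor <;> linarith

/-! ### Derivatives of flat functions -/

section flat

variable {n : ℕ}

lemma Sm_of {f : E n → ℝ} (hf : ContDiff ℝ ∞ f) : Sm f := fun _ _ => hf.contDiffAt

/-- Second order Taylor estimate along a rotation. -/
lemma taylor_dR {f : E n → ℝ} (hf : Sm f) {q : E n × E n} (hq : ON q) :
    ∃ M : ℝ, 0 ≤ M ∧ ∀ (y : E n) (h : ℝ), ‖y‖ = 1 →
      |f (rot q h y) - f y - h * dR q f y| ≤ M * h ^ 2 := by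
  have hc : ContinuousOn ((dR q)^[2] f) (S n) := (hf.iter q 2).continuousOn
  obtain ⟨M, hM⟩ := (isCompact_sphere (0 : E n) 1).exists_bound_of_continuousOn hc
  refine ⟨|M|, abs_nonneg _, fun y h hy => ?_⟩
  have hyS : y ∈ S n := by simpa using hy
  have hd1 : ∀ t, HasDerivAt (fun θ => f (rot q θ y)) (dR q f (rot q t y)) t := fun t =>
    hf.hasDerivAt hq hyS 0 t
  have hd2 : ∀ t, HasDerivAt (fun θ => dR q f (rot q θ y)) ((dR q)^[2] f (rot q t y)) t :=
    fun t => hf.hasDerivAt hq hyS 1 t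
  have hb : ∀ t, |(dR q)^[2] f (rot q t y)| ≤ |M| := fun t => by
    have := hM (rot q t y) (rot_mem hq t hyS)
    exact (by simpa using this : _ ≤ M).trans (le_abs_self M)
  have mvt : ∀ (u u' : ℝ → ℝ), (∀ t, HasDerivAt u (u' t) t) → ∀ (B t : ℝ),
      (∀ s, |s| ≤ |t| → |u' s| ≤ B) → |u t - u 0| ≤ B * |t| := by
    intro u u' hu B t hB
    have h := Convex.norm_image_sub_le_of_norm_hasDerivWithin_le (𝕜 := ℝ) (f := u) (f' := u')
      (s := Icc (-|t|) |t|) (x := 0) (y := t) (C := B) (fun r _ => (hu r).hasDerivWithinAt)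
      (fun r hr => hB r (abs_le.2 hr)) (convex_Icc _ _)
      ⟨by simp, abs_nonneg t⟩ ⟨neg_abs_le t, le_abs_self t⟩
    simpa using h
  have h1 : ∀ s, |s| ≤ |h| → |dR q f (rot q s y) - dR q f y| ≤ |M| * |h| := by
    intro s hs
    have h2 := mvt _ _ hd2 |M| s (fun r _ => hb r)
    rw [rot_zero] at h2
    exact h2.trans (mul_le_mul_of_nonneg_left hs (abs_nonneg _))
  have h2 := mvt (fun θ => f (rot q θ y) - θ * dR q f y)
    (fun θ => dR q f (rot q θ y) - dR q f y) (fun t => by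
      have := (hd1 t).sub ((hasDerivAt_id t).mul_const (dR q f y))
      rw [one_mul] at this
      exact this) (|M| * |h|) h h1
  rw [rot_zero] at h2
  have h3 : |M| * |h| * |h| = |M| * h ^ 2 := by rw [mul_assoc, abs_mul_abs_self, sq]
  rw [h3] at h2
  refine le_trans (le_of_eq ?_) h2
  congr 1
  ring

/-- The derivatives of a flat function vanish. -/
lemma dR_zero {f : E n → ℝ} (hf : Sm f) {x : E n} (hx : ‖x‖ = 1) (h : Flat f x)
    {q : E n × E n} (hq : ON q) : dR q f x = 0 := by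
  simpa using dR_of_flat hf hx h q hq 1 le_rfl

/-- Derivatives of flat functions are flat. -/
lemma flat_dR {f : E n → ℝ} (hf : Sm f) {x : E n} (hx : ‖x‖ = 1) (h : Flat f x)
    {q : E n × E n} (hq : ON q) : Flat (dR q f) x := by
  have h0 : dR q f x = 0 := dR_zero hf hx h hq
  obtain ⟨M, hM0, hM⟩ := taylor_dR hf hq
  intro k
  obtain ⟨C, hC⟩ := (h (2 * (k + 1))).bound
  rw [Filter.Eventually, Metric.mem_nhdsWithin_iff] at hC
  obtain ⟨ε, hε, hC⟩ := hC
  refine IsBigO.of_bound (|C| * 5 ^ (2 * (k + 1)) + |C| + M) ?_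
  rw [Filter.Eventually, Metric.mem_nhdsWithin_iff]
  refine ⟨min 1 (ε / 5), by positivity, fun y hyy => ?_⟩
  obtain ⟨hy, hyS⟩ := hyy
  rw [Metric.mem_ball, dist_eq_norm] at hy
  have hy1 : ‖y - x‖ < 1 := hy.trans_le (min_le_left _ _)
  have hy2 : 5 * ‖y - x‖ < ε := by
    have := hy.trans_le (min_le_right _ _)
    linarith
  have hyn : ‖y‖ = 1 := by simpa using hyS
  set δ := ‖y - x‖ with hδ
  have hδ0 : 0 ≤ δ := norm_nonneg _
  rw [h0, mem_ofPred_eq, sub_zero]
  rcases hδ0.eq_or_lt with hz | hz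
  · have : y = x := by
      rw [← sub_eq_zero, ← norm_eq_zero]
      exact hz.symm
    subst this
    rw [h0, norm_zero]
    positivity
  set η := δ ^ (k + 1) with hη
  have hη0 : 0 < η := pow_pos hz _
  have hηδ : η ≤ δ := by
    rw [hη, pow_succ]
    have := pow_le_one₀ (n := k) hδ0 hy1.le
    nlinarith
  set z := rot q η y with hzdef
  have hzS : z ∈ Metric.sphere (0 : E n) 1 := rot_mem hq η hyS
  have hzx : ‖z - x‖ ≤ 5 * δ := by
    have h1 := dist_rot_le hq hyS η 0
    rw [rot_zero, dist_eq_norm, sub_zero, abs_of_pos hη0] at h1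
    calc ‖z - x‖ = ‖(z - y) + (y - x)‖ := by rw [sub_add_sub_cancel]
      _ ≤ ‖z - y‖ + ‖y - x‖ := norm_add_le _ _
      _ ≤ 2 * η + δ := by rw [← hδ]; gcongr
      _ ≤ 5 * δ := by linarith
  have b1 := hC (⟨by rw [Metric.mem_ball, dist_eq_norm]; exact hzx.trans_lt hy2, hzS⟩ :
    z ∈ Metric.ball x ε ∩ Metric.sphere 0 1)
  have b2 := hC (⟨by rw [Metric.mem_ball, dist_eq_norm, ← hδ]; linarith, hyS⟩ :
    y ∈ Metric.ball x ε ∩ Metric.sphere 0 1)
  have b3 := hM y η hyn
  rw [← hzdef] at b3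
  simp only [mem_ofPred_eq, norm_pow, Real.norm_eq_abs, abs_norm] at b1 b2
  simp only [norm_pow, Real.norm_eq_abs]
  try rw [← hδ] at b2
  rw [← hδ, abs_of_nonneg hδ0]
  have e1 : δ ^ (2 * (k + 1)) = η ^ 2 := by rw [hη]; ring
  have b1' : |f z - f x| ≤ |C| * 5 ^ (2 * (k + 1)) * η ^ 2 := by
    refine b1.trans ?_
    have h1 : ‖z - x‖ ^ (2 * (k + 1)) ≤ (5 * δ) ^ (2 * (k + 1)) :=
      pow_le_pow_left₀ (norm_nonneg _) hzx _
    rw [mul_pow, e1] at h1
    calc C * ‖z - x‖ ^ (2 * (k + 1)) ≤ |C| * ‖z - x‖ ^ (2 * (k + 1)) := by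
          gcongr; exact le_abs_self C
      _ ≤ |C| * (5 ^ (2 * (k + 1)) * η ^ 2) := by gcongr
      _ = _ := by ring
  have b2' : |f y - f x| ≤ |C| * η ^ 2 := by
    refine b2.trans ?_
    rw [e1]
    gcongr
    exact le_abs_self C
  have b4 : η * |dR q f y| ≤ (|C| * 5 ^ (2 * (k + 1)) + |C| + M) * η ^ 2 := by
    rw [← abs_of_pos hη0, ← abs_mul, abs_of_pos hη0]
    have h1 : η * dR q f y = (f z - f x) - (f y - f x) - (f z - f y - η * dR q f y) := by
      ring
    rw [h1]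
    refine (abs_sub _ _).trans ?_
    have h2 := abs_sub (f z - f x) (f y - f x)
    nlinarith
  have b5 : |dR q f y| ≤ (|C| * 5 ^ (2 * (k + 1)) + |C| + M) * η := by
    have h1 : η * |dR q f y| ≤ η * ((|C| * 5 ^ (2 * (k + 1)) + |C| + M) * η) := by
      refine b4.trans (le_of_eq (by ring))
    exact le_of_mul_le_mul_left h1 hη0
  refine b5.trans ?_
  have h6 : η ≤ δ ^ k := by
    rw [hη, pow_succ]
    have := pow_nonneg hδ0 k
    nlinarith
  gcongr

lemma flat_add' {f g : E n → ℝ} {x : E n} (hf : Flat f x) (hg : Flat g x) :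
    Flat (fun y => f y + g y) x := by
  intro k
  refine ((hf k).add (hg k)).congr_left fun y => ?_
  ring

lemma bigO_zero {g : E n → ℝ} {x : E n} (h : Flat g x) (h0 : g x = 0) (k : ℕ) :
    g =O[𝓝[Metric.sphere 0 1] x] fun y => ‖y - x‖ ^ k := by
  have := h k
  simpa [h0] using this

end flat

/-! ### The rotations in the coordinate planes -/

section ops

variable {n : ℕ} {i l j : Fin n}

/-- The plane of two coordinates. -/
noncomputable def Q (i l : Fin n) : E n × E n :=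
  ((EuclideanSpace.single l (1:ℝ) : E n), (EuclideanSpace.single i (1:ℝ) : E n))

lemma ON_Q (h : i ≠ l) : ON (Q i l) := by
  refine ⟨by simp [Q], by simp [Q], ?_⟩
  simp [Q, EuclideanSpace.inner_single_left, h.symm]

/-- The derivative along the rotations in the plane of the coordinates `i` and `l`. -/
noncomputable def D (i l : Fin n) (f : E n → ℝ) : E n → ℝ := dR (Q i l) f

lemma D_eq (f : E n → ℝ) (x : E n) : D i l f x =
    fderiv ℝ f x (x l • EuclideanSpace.single i 1 - x i • EuclideanSpace.single l 1) := by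
  unfold D dR gen Q
  simp [EuclideanSpace.inner_single_left]

lemma fderiv_coord (m : Fin n) (x v : E n) : fderiv ℝ (fun x : E n => x m) x v = v m := by
  have h : HasFDerivAt (fun x : E n => x m) (EuclideanSpace.proj m : E n →L[ℝ] ℝ) x :=
    (EuclideanSpace.proj m : E n →L[ℝ] ℝ).hasFDerivAt
  rw [h.fderiv]
  rfl

lemma D_add {f g : E n → ℝ} (hf : Differentiable ℝ f) (hg : Differentiable ℝ g) :
    D i l (fun x => f x + g x) = fun x => D i l f x + D i l g x := by
  funext x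
  simp only [D_eq]
  rw [fderiv_fun_add (hf x) (hg x)]
  rfl

lemma D_mul {f g : E n → ℝ} (hf : Differentiable ℝ f) (hg : Differentiable ℝ g) :
    D i l (fun x => f x * g x) = fun x => f x * D i l g x + g x * D i l f x := by
  funext x
  simp only [D_eq]
  rw [fderiv_fun_mul (hf x) (hg x)]
  simp

lemma D_cmul (c : ℝ) {f : E n → ℝ} (hf : Differentiable ℝ f) :
    D i l (fun x => c * f x) = fun x => c * D i l f x := by
  funext x
  simp only [D_eq]
  rw [fderiv_const_mul (hf x)]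
  simp

lemma D_i (h : i ≠ l) : D i l (fun x => x i) = fun x => x l := by
  funext x
  rw [D_eq, fderiv_coord]
  simp [h]

lemma D_l (h : i ≠ l) : D i l (fun x => x l) = fun x => - x i := by
  funext x
  rw [D_eq, fderiv_coord]
  simp [h.symm]

lemma D_j (h : j ≠ i) (h' : j ≠ l) : D i l (fun x => x j) = fun _ => 0 := by
  funext x
  rw [D_eq, fderiv_coord]
  simp [h, h']

lemma contDiff_D {f : E n → ℝ} (hf : ContDiff ℝ ∞ f) : ContDiff ℝ ∞ (D i l f) := by
  have e : D i l f = fun x => fderiv ℝ f x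
      (x l • EuclideanSpace.single i 1 - x i • EuclideanSpace.single l 1) := funext fun x => D_eq f x
  rw [e]
  have h1 : ContDiff ℝ ∞ (fun x => fderiv ℝ f x) := hf.fderiv_right (by simp)
  have h2 : ContDiff ℝ ∞ (fun x : E n =>
      x l • (EuclideanSpace.single i (1:ℝ) : E n) - x i • (EuclideanSpace.single l (1:ℝ) : E n)) := by
    fun_prop
  exact h1.clm_apply h2

lemma diff_of {f : E n → ℝ} (hf : ContDiff ℝ ∞ f) : Differentiable ℝ f :=
  hf.differentiable (by simp)

/-- A polynomial of degree two. -/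
noncomputable def qd (b ζ : Fin n → ℝ) (x : E n) : ℝ := ∑ m, (b m * x m ^ 2 + ζ m * x m)

lemma contDiff_qd (b ζ : Fin n → ℝ) : ContDiff ℝ ∞ (qd b ζ) := by
  unfold qd
  fun_prop

lemma D_qd (b ζ : Fin n → ℝ) : D i l (qd b ζ) = fun x =>
    (2 * (b i - b l)) * (x i * x l) + (-ζ l * x i + ζ i * x l) := by
  funext x
  rw [D_eq]
  have h1 : ∀ m : Fin n, HasFDerivAt (fun x : E n => x m)
      (EuclideanSpace.proj m : E n →L[ℝ] ℝ) x := fun m =>
    (EuclideanSpace.proj m : E n →L[ℝ] ℝ).hasFDerivAt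
  have h2 : HasFDerivAt (qd b ζ) (∑ m, (b m • ((2 * x m ^ 1) • (EuclideanSpace.proj m : E n →L[ℝ] ℝ))
      + ζ m • (EuclideanSpace.proj m : E n →L[ℝ] ℝ))) x := by
    unfold qd
    refine HasFDerivAt.fun_sum fun m _ => ?_
    refine HasFDerivAt.fun_add ?_ ((h1 m).const_mul (ζ m))
    have := ((h1 m).pow 2).const_mul (b m)
    simpa using this
  rw [h2.fderiv]
  have h5 : ∀ v : E n, (∑ m, (b m • ((2 * x m ^ 1) • (EuclideanSpace.proj m : E n →L[ℝ] ℝ))
      + ζ m • (EuclideanSpace.proj m : E n →L[ℝ] ℝ))) v =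
      ∑ m, (b m * (2 * x m * v m) + ζ m * v m) := by
    intro v
    simp
  rw [h5]
  have h3 : ∀ m : Fin n, (x l • (EuclideanSpace.single i (1:ℝ) : E n) -
      x i • (EuclideanSpace.single l (1:ℝ) : E n)) m =
      x l * (if m = i then 1 else 0) - x i * (if m = l then 1 else 0) := by
    intro m
    simp
  simp only [h3]
  have h4 : ∀ m : Fin n, b m * (2 * x m * (x l * (if m = i then 1 else 0) -
      x i * (if m = l then 1 else 0))) + ζ m * (x l * (if m = i then 1 else 0) -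
      x i * (if m = l then 1 else 0)) =
      (if m = i then (2 * b m * x m * x l + ζ m * x l) else 0) -
        (if m = l then (2 * b m * x m * x i + ζ m * x i) else 0) := by
    intro m
    split_ifs <;> ring
  rw [Finset.sum_congr rfl fun m _ => h4 m, Finset.sum_sub_distrib, Finset.sum_ite_eq',
    Finset.sum_ite_eq']
  simp only [Finset.mem_univ, if_true]
  ring

lemma D_S1 (h : i ≠ l) (a β γ : ℝ) : D i l (fun x : E n => a * (x i * x l) + (β * x i + γ * x l)) =
    fun x => a * (x l ^ 2 - x i ^ 2) + (-γ * x i + β * x l) := by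
  rw [D_add (by fun_prop) (by fun_prop), D_add (by fun_prop) (by fun_prop), D_cmul _ (by fun_prop),
    D_cmul _ (by fun_prop), D_cmul _ (by fun_prop), D_mul (by fun_prop) (by fun_prop), D_i h, D_l h]
  funext x
  ring

lemma D_S2 (h : i ≠ l) (a β γ : ℝ) :
    D i l (fun x : E n => a * (x l ^ 2 - x i ^ 2) + (β * x i + γ * x l)) =
      fun x => (-4 * a) * (x i * x l) + (-γ * x i + β * x l) := by
  have e : (fun x : E n => a * (x l ^ 2 - x i ^ 2) + (β * x i + γ * x l)) =
      fun x => (a * (x l * x l) + (-a) * (x i * x i)) + (β * x i + γ * x l) := by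
    funext x
    ring
  rw [e, D_add (by fun_prop) (by fun_prop), D_add (by fun_prop) (by fun_prop),
    D_add (by fun_prop) (by fun_prop), D_cmul _ (by fun_prop),
    D_cmul _ (by fun_prop), D_cmul _ (by fun_prop), D_cmul _ (by fun_prop),
    D_mul (by fun_prop) (by fun_prop), D_mul (by fun_prop) (by fun_prop), D_i h, D_l h]
  funext x
  ring

/-- `(D^3 + D) f`. -/
noncomputable def PP (i l : Fin n) (f : E n → ℝ) (x : E n) : ℝ :=
  D i l (D i l (D i l f)) x + D i l f x

lemma contDiff_PP {f : E n → ℝ} (hf : ContDiff ℝ ∞ f) : ContDiff ℝ ∞ (PP i l f) :=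
  (contDiff_D (contDiff_D (contDiff_D hf))).add (contDiff_D hf)

lemma PP_qd (h : i ≠ l) (b ζ : Fin n → ℝ) :
    PP i l (qd b ζ) = fun x => -6 * (b i - b l) * (x i * x l) := by
  funext x
  unfold PP
  rw [D_qd, D_S1 h, D_S2 h]
  ring

lemma PP_add {f g : E n → ℝ} (hf : ContDiff ℝ ∞ f) (hg : ContDiff ℝ ∞ g) :
    PP i l (fun x => f x + g x) = fun x => PP i l f x + PP i l g x := by
  funext x
  unfold PP
  rw [D_add (diff_of hf) (diff_of hg), D_add (diff_of (contDiff_D hf)) (diff_of (contDiff_D hg)),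
    D_add (diff_of (contDiff_D (contDiff_D hf))) (diff_of (contDiff_D (contDiff_D hg)))]
  ring

lemma PP_sum {F : E n → ℝ} (hF : ContDiff ℝ ∞ F) (b ζ : Fin n → ℝ) (h : i ≠ l) :
    PP i l (fun y => F y + qd b ζ y) = fun x => PP i l F x + -6 * (b i - b l) * (x i * x l) := by
  rw [PP_add hF (contDiff_qd b ζ), PP_qd h]

/-- A derivative of `PP`. -/
noncomputable def T2 (i l : Fin n) (f : E n → ℝ) : E n → ℝ := D i l (PP i l f)

/-- A second derivative of `PP`. -/
noncomputable def T3 (i l j : Fin n) (f : E n → ℝ) : E n → ℝ := D i j (D l j (PP i l f))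

lemma T2_sum {F : E n → ℝ} (hF : ContDiff ℝ ∞ F) (b ζ : Fin n → ℝ) (hil : i ≠ l) :
    T2 i l (fun y => F y + qd b ζ y) =
      fun x => T2 i l F x + -6 * (b i - b l) * (x l ^ 2 - x i ^ 2) := by
  unfold T2
  rw [PP_sum hF b ζ hil, D_add (diff_of (contDiff_PP hF)) (by fun_prop),
    D_cmul _ (by fun_prop), D_mul (by fun_prop) (by fun_prop), D_i hil, D_l hil]
  funext x
  ring

lemma T3_sum {F : E n → ℝ} (hF : ContDiff ℝ ∞ F) (b ζ : Fin n → ℝ) (hil : i ≠ l) (hij : i ≠ j)
    (hjl : j ≠ l) : T3 i l j (fun y => F y + qd b ζ y) =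
      fun x => T3 i l j F x + -6 * (b i - b l) * (x j ^ 2 - x i ^ 2) := by
  unfold T3
  rw [PP_sum hF b ζ hil, D_add (diff_of (contDiff_PP hF)) (by fun_prop),
    D_cmul _ (by fun_prop), D_mul (by fun_prop) (by fun_prop), D_i hjl.symm,
    D_j hil hij]
  have e : (fun x : E n => D l j (PP i l F) x + -6 * (b i - b l) * (x i * x j + x l * 0)) =
      fun x => D l j (PP i l F) x + -6 * (b i - b l) * (x i * x j) := by
    funext x
    ring
  rw [e, D_add (diff_of (contDiff_D (contDiff_PP hF))) (by fun_prop),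
    D_cmul _ (by fun_prop), D_mul (by fun_prop) (by fun_prop), D_i hij, D_l hij]
  funext x
  ring

/-- The other indices. -/
def oth (i l : Fin n) : Finset (Fin n) := Finset.univ.filter fun j => i ≠ j ∧ j ≠ l

/-- The sum of the squares of the weights. -/
noncomputable def SS (i l : Fin n) (x : E n) : ℝ :=
  (x i * x l) ^ 2 + (x l ^ 2 - x i ^ 2) ^ 2 + ∑ j ∈ oth i l, (x j ^ 2 - x i ^ 2) ^ 2

/-- The difference `b_i - b_l` as a function of the flat point. -/
noncomputable def Bf (i l : Fin n) (F : E n → ℝ) (x : E n) : ℝ :=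
  ((x i * x l) * PP i l F x + (x l ^ 2 - x i ^ 2) * T2 i l F x +
    ∑ j ∈ oth i l, (x j ^ 2 - x i ^ 2) * T3 i l j F x) / (6 * SS i l x)

lemma measurable_Bf {F : E n → ℝ} (hF : ContDiff ℝ ∞ F) : Measurable (Bf i l F) := by
  have c1 : Continuous (PP i l F) := (contDiff_PP hF).continuous
  have c2 : Continuous (T2 i l F) := (contDiff_D (contDiff_PP hF)).continuous
  have c3 : ∀ j, Continuous (T3 i l j F) := fun j =>
    (contDiff_D (contDiff_D (contDiff_PP hF))).continuous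
  have c4 : Continuous (SS i l) := by
    unfold SS
    fun_prop
  have c5 : Continuous fun x : E n => (x i * x l) * PP i l F x + (x l ^ 2 - x i ^ 2) * T2 i l F x +
      ∑ j ∈ oth i l, (x j ^ 2 - x i ^ 2) * T3 i l j F x := by
    fun_prop
  unfold Bf
  exact c5.measurable.div (c4.measurable.const_mul 6)

lemma SS_pos {x : E n} (hx : ‖x‖ = 1) : 0 < SS i l x := by
  have h0 : 0 ≤ ∑ j ∈ oth i l, (x j ^ 2 - x i ^ 2) ^ 2 := Finset.sum_nonneg fun j _ => sq_nonneg _
  have hn : 0 ≤ SS i l x := by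
    unfold SS
    positivity
  rcases hn.eq_or_lt with h | h
  · exfalso
    unfold SS at h
    have h1 : (x i * x l) ^ 2 = 0 := by
      nlinarith [sq_nonneg (x i * x l), sq_nonneg (x l ^ 2 - x i ^ 2)]
    have h2 : (x l ^ 2 - x i ^ 2) ^ 2 = 0 := by
      nlinarith [sq_nonneg (x i * x l), sq_nonneg (x l ^ 2 - x i ^ 2)]
    have h3 : ∑ j ∈ oth i l, (x j ^ 2 - x i ^ 2) ^ 2 = 0 := by
      nlinarith [sq_nonneg (x i * x l), sq_nonneg (x l ^ 2 - x i ^ 2)]
    have h4 : x l ^ 2 = x i ^ 2 := by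
      have := pow_eq_zero_iff (n := 2) (by norm_num) |>.1 h2
      linarith
    have h5 : x i * x l = 0 := pow_eq_zero_iff (n := 2) (by norm_num) |>.1 h1
    have h6 : x i ^ 2 = 0 := by
      have : (x i ^ 2) * (x i ^ 2) = 0 := by
        calc (x i ^ 2) * (x i ^ 2) = (x i ^ 2) * (x l ^ 2) := by rw [h4]
          _ = (x i * x l) ^ 2 := by ring
          _ = 0 := h1
      exact mul_self_eq_zero.1 this
    have h7 : ∀ m, x m = 0 := by
      intro m
      by_cases hmi : i = m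
      · rw [← hmi]
        exact pow_eq_zero_iff (n := 2) (by norm_num) |>.1 h6
      · by_cases hml : m = l
        · rw [hml]
          exact pow_eq_zero_iff (n := 2) (by norm_num) |>.1 (h4.trans h6)
        · have h8 := (Finset.sum_eq_zero_iff_of_nonneg fun j _ => sq_nonneg _).1 h3 m
            (Finset.mem_filter.2 ⟨Finset.mem_univ _, hmi, hml⟩)
          have h9 := pow_eq_zero_iff (n := 2) (by norm_num) |>.1 h8
          rw [h6, sub_zero] at h9
          exact pow_eq_zero_iff (n := 2) (by norm_num) |>.1 h9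
    have h10 : x = 0 := by
      ext m
      exact h7 m
    rw [h10, norm_zero] at hx
    exact zero_ne_one hx
  · exact h

lemma SS_ge (i l : Fin n) : ∃ c : ℝ, 0 < c ∧ ∀ x : E n, ‖x‖ = 1 → c ≤ SS i l x := by
  have hc : Continuous (SS i l) := by
    unfold SS
    fun_prop
  rcases (Metric.sphere (0 : E n) 1).eq_empty_or_nonempty with he | hne
  · refine ⟨1, one_pos, fun x hx => ?_⟩
    have : x ∈ Metric.sphere (0 : E n) 1 := by simpa using hx
    rw [he] at this
    exact this.elim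
  · obtain ⟨x0, hx0, hm⟩ := (isCompact_sphere (0 : E n) 1).exists_isMinOn hne hc.continuousOn
    refine ⟨SS i l x0, SS_pos (by simpa using hx0), fun x hx => ?_⟩
    exact hm (show x ∈ Metric.sphere (0 : E n) 1 by simpa using hx)

lemma coord_le {x : E n} (hx : ‖x‖ = 1) (m : Fin n) : |x m| ≤ 1 := by
  rw [← Real.norm_eq_abs, ← hx]
  exact PiLp.norm_apply_le x m

lemma sq_sub_le {u v : ℝ} (hu : |u| ≤ 1) (hv : |v| ≤ 1) : |u ^ 2 - v ^ 2| ≤ 1 := by
  have h1 : u ^ 2 ≤ 1 := by rwa [sq_le_one_iff_abs_le_one]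
  have h2 : v ^ 2 ≤ 1 := by rwa [sq_le_one_iff_abs_le_one]
  rw [abs_le]
  constructor <;> nlinarith [sq_nonneg u, sq_nonneg v]

lemma Bf_sub_le {F : E n → ℝ} {c0 c : ℝ} (hc0 : 0 < c0) {y : E n} (hy : ‖y‖ = 1)
    (hS : c0 ≤ SS i l y) : |Bf i l F y - c| ≤ (1 / (6 * c0)) *
      (|PP i l F y + -6 * c * (y i * y l)| + |T2 i l F y + -6 * c * (y l ^ 2 - y i ^ 2)| +
        ∑ j ∈ oth i l, |T3 i l j F y + -6 * c * (y j ^ 2 - y i ^ 2)|) := by
  have hS0 : 0 < 6 * SS i l y := by linarith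
  have e : Bf i l F y - c =
      ((y i * y l) * (PP i l F y + -6 * c * (y i * y l)) +
        (y l ^ 2 - y i ^ 2) * (T2 i l F y + -6 * c * (y l ^ 2 - y i ^ 2)) +
        ∑ j ∈ oth i l, (y j ^ 2 - y i ^ 2) * (T3 i l j F y + -6 * c * (y j ^ 2 - y i ^ 2))) /
        (6 * SS i l y) := by
    unfold Bf
    rw [eq_div_iff hS0.ne', sub_mul, div_mul_cancel₀ _ hS0.ne']
    have e1 : ∑ j ∈ oth i l, (y j ^ 2 - y i ^ 2) * (T3 i l j F y + -6 * c * (y j ^ 2 - y i ^ 2)) =
        ∑ j ∈ oth i l, (y j ^ 2 - y i ^ 2) * T3 i l j F y +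
          (-6 * c) * ∑ j ∈ oth i l, (y j ^ 2 - y i ^ 2) ^ 2 := by
      rw [Finset.mul_sum, ← Finset.sum_add_distrib]
      exact Finset.sum_congr rfl fun j _ => by ring
    rw [e1]
    unfold SS
    ring
  have m0 : |y i * y l| ≤ 1 := by
    rw [abs_mul]
    exact mul_le_one₀ (coord_le hy i) (abs_nonneg _) (coord_le hy l)
  have m1 : ∀ j, |y j ^ 2 - y i ^ 2| ≤ 1 := fun j => sq_sub_le (coord_le hy j) (coord_le hy i)
  have hmul : ∀ {u v : ℝ}, |u| ≤ 1 → |u * v| ≤ |v| := by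
    intro u v hu
    rw [abs_mul]
    exact mul_le_of_le_one_left (abs_nonneg _) hu
  rw [e, abs_div, abs_of_pos hS0, div_eq_mul_one_div, mul_comm]
  refine mul_le_mul ?_ ?_ (abs_nonneg _) (by positivity)
  · exact one_div_le_one_div_of_le (by linarith) (by linarith)
  · refine (abs_add_le _ _).trans (add_le_add ((abs_add_le _ _).trans (add_le_add (hmul m0)
      (hmul (m1 l)))) ?_)
    exact (Finset.abs_sum_le_sum_abs _ _).trans (Finset.sum_le_sum fun j _ => hmul (m1 j))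

theorem Bf_flat {F : E n → ℝ} (hF : ContDiff ℝ ∞ F) {b ζ : Fin n → ℝ} {x : E n} (hx : ‖x‖ = 1)
    (h : Flat (fun y => F y + qd b ζ y) x) (hil : i ≠ l) (k : ℕ) :
    (fun y => Bf i l F y - (b i - b l)) =O[𝓝[Metric.sphere 0 1] x] fun y => ‖y - x‖ ^ k := by
  have hf : ContDiff ℝ ∞ (fun y => F y + qd b ζ y) := hF.add (contDiff_qd b ζ)
  have g1 : ContDiff ℝ ∞ (PP i l (fun y => F y + qd b ζ y)) := contDiff_PP hf
  have q := ON_Q (n := n) hil
  have a1 := flat_dR (Sm_of hf) hx h q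
  have a2 := flat_dR (Sm_of (contDiff_D hf)) hx a1 q
  have a3 := flat_dR (Sm_of (contDiff_D (contDiff_D hf))) hx a2 q
  have f1 : Flat (PP i l (fun y => F y + qd b ζ y)) x := flat_add' a3 a1
  have z1 : PP i l (fun y => F y + qd b ζ y) x = 0 := by
    have w1 := dR_zero (Sm_of hf) hx h q
    have w3 := dR_zero (Sm_of (contDiff_D (contDiff_D hf))) hx a2 q
    unfold PP
    have w1' : D i l (fun y => F y + qd b ζ y) x = 0 := w1
    have w3' : D i l (D i l (D i l (fun y => F y + qd b ζ y))) x = 0 := w3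
    rw [w1', w3', add_zero]
  have f2 : Flat (T2 i l (fun y => F y + qd b ζ y)) x := flat_dR (Sm_of g1) hx f1 q
  have z2 : T2 i l (fun y => F y + qd b ζ y) x = 0 := dR_zero (Sm_of g1) hx f1 q
  have f3 : ∀ j ∈ oth i l, Flat (T3 i l j (fun y => F y + qd b ζ y)) x ∧
      T3 i l j (fun y => F y + qd b ζ y) x = 0 := by
    intro j hj
    obtain ⟨hij, hjl⟩ := (Finset.mem_filter.1 hj).2
    have f3a := flat_dR (Sm_of g1) hx f1 (ON_Q (n := n) hjl.symm)
    exact ⟨flat_dR (Sm_of (contDiff_D g1)) hx f3a (ON_Q (n := n) hij),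
      dR_zero (Sm_of (contDiff_D g1)) hx f3a (ON_Q (n := n) hij)⟩
  have o3 : (fun y => ∑ j ∈ oth i l, |T3 i l j (fun y => F y + qd b ζ y) y|)
      =O[𝓝[Metric.sphere 0 1] x] fun y => ‖y - x‖ ^ k :=
    IsBigO.fun_sum fun j hj => (bigO_zero (f3 j hj).1 (f3 j hj).2 k).abs_left
  have o := ((bigO_zero f1 z1 k).abs_left.add (bigO_zero f2 z2 k).abs_left).add o3
  obtain ⟨c0, hc0, hS⟩ := SS_ge i l
  refine (IsBigO.of_bound (1 / (6 * c0)) ?_).trans o
  filter_upwards [self_mem_nhdsWithin] with y hy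
  have hyn : ‖y‖ = 1 := by simpa using hy
  have e1 := congrFun (PP_sum hF b ζ hil) y
  have e2 := congrFun (T2_sum hF b ζ hil) y
  have e3 : ∀ j ∈ oth i l, |T3 i l j (fun y => F y + qd b ζ y) y| =
      |T3 i l j F y + -6 * (b i - b l) * (y j ^ 2 - y i ^ 2)| := by
    intro j hj
    obtain ⟨hij, hjl⟩ := (Finset.mem_filter.1 hj).2
    rw [congrFun (T3_sum hF b ζ hil hij hjl) y]
  simp only at e1 e2
  rw [Real.norm_eq_abs, Real.norm_eq_abs, e1, e2, Finset.sum_congr rfl e3,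
    abs_of_nonneg (a := |_| + |_| + ∑ j ∈ oth i l, |_|) (by positivity)]
  exact Bf_sub_le hc0 hyn (hS y hyn)

end ops

/-! ### The dimension of the exceptional set -/

/-- The point of the sphere. -/
noncomputable def nz (z : E (d + 1)) : E (d + 1) := ‖z‖⁻¹ • z

lemma measurable_nz : Measurable (nz (d := d)) := by
  unfold nz
  exact measurable_norm.inv.smul measurable_id

lemma nz_close {x z : E (d + 1)} (hx : ‖x‖ = 1) {r : ℝ} (hr : r ≤ 1 / 2) (hz : ‖z - x‖ ≤ r) :
    ‖nz z‖ = 1 ∧ ‖nz z - x‖ ≤ 2 * r := by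
  have h1 : |‖z‖ - 1| ≤ r := by
    rw [← hx]
    exact (abs_norm_sub_norm_le z x).trans hz
  have h2 : 0 < ‖z‖ := by
    rw [abs_le] at h1
    linarith
  have h3 : ‖nz z‖ = 1 := by
    unfold nz
    rw [norm_smul, norm_inv, norm_norm, inv_mul_cancel₀ h2.ne']
  refine ⟨h3, ?_⟩
  have h4 : nz z - z = (1 - ‖z‖) • nz z := by
    unfold nz
    rw [sub_smul, one_smul, smul_smul, mul_inv_cancel₀ h2.ne', one_smul]
  calc ‖nz z - x‖ = ‖(nz z - z) + (z - x)‖ := by rw [sub_add_sub_cancel]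
    _ ≤ ‖nz z - z‖ + ‖z - x‖ := norm_add_le _ _
    _ ≤ r + r := by
        refine add_le_add ?_ hz
        rw [h4, norm_smul, h3, mul_one, Real.norm_eq_abs, abs_sub_comm]
        exact h1
    _ = 2 * r := by ring

/-- The differences `b_m - b_0` as functions of the flat point. -/
noncomputable def AF (F : E (d + 1) → ℝ) (z : E (d + 1)) (m : Fin d) : ℝ := Bf m.succ 0 F (nz z)

/-- Local form of `Bf_flat`. -/
lemma AF_local {F : E (d + 1) → ℝ} (hF : ContDiff ℝ ∞ F) {b ζ : Fin (d + 1) → ℝ} {x : E (d + 1)}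
    (hx : ‖x‖ = 1) (h : Flat (fun y => F y + qd b ζ y) x) (k : ℕ) (m : Fin d) :
    ∃ N0 : ℕ, ∀ N : ℕ, N0 ≤ N → ∀ r : ℝ, 0 < r → r ≤ 1 / ((N : ℝ) + 2) → ∀ z : E (d + 1),
      ‖z - x‖ ≤ r → |AF F z m - (b m.succ - b 0)| ≤ N * r ^ k := by
  obtain ⟨C, hC⟩ := (Bf_flat hF hx h (Fin.succ_ne_zero m) k).bound
  rw [Filter.Eventually, Metric.mem_nhdsWithin_iff] at hC
  obtain ⟨ε, hε, hC⟩ := hC
  refine ⟨⌈max (|C| * 2 ^ k) (2 / ε)⌉₊, fun N hN r hr0 hr z hz => ?_⟩
  have hN' : max (|C| * 2 ^ k) (2 / ε) ≤ N := (Nat.le_ceil _).trans (by exact_mod_cast hN)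
  have hN1 : |C| * 2 ^ k ≤ N := (le_max_left _ _).trans hN'
  have hN2 : 2 / ε ≤ N := (le_max_right _ _).trans hN'
  have hN0 : (0:ℝ) < (N : ℝ) + 2 := by positivity
  have hr2 : r ≤ 1 / 2 := by
    refine hr.trans ?_
    refine one_div_le_one_div_of_le (by norm_num) ?_
    linarith [(Nat.cast_nonneg N : (0:ℝ) ≤ N)]
  obtain ⟨hn1, hd⟩ := nz_close hx hr2 hz
  have hlt : ‖nz z - x‖ < ε := by
    refine hd.trans_lt ?_
    have h3 : 2 * r ≤ 2 * (1 / ((N : ℝ) + 2)) := by linarith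
    refine h3.trans_lt ?_
    rw [mul_one_div, div_lt_iff₀ hN0]
    rw [div_le_iff₀ hε] at hN2
    nlinarith
  have h4 := hC (⟨by rw [Metric.mem_ball, dist_eq_norm]; exact hlt, by simpa using hn1⟩ :
    nz z ∈ Metric.ball x ε ∩ Metric.sphere 0 1)
  simp only [mem_ofPred_eq, norm_pow, Real.norm_eq_abs, abs_norm] at h4
  refine h4.trans ?_
  calc C * ‖nz z - x‖ ^ k ≤ |C| * (2 * r) ^ k := by
        refine mul_le_mul (le_abs_self C) (pow_le_pow_left₀ (norm_nonneg _) hd k) (by positivity)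
          (abs_nonneg C)
    _ = |C| * 2 ^ k * r ^ k := by rw [mul_pow, mul_assoc]
    _ ≤ N * r ^ k := mul_le_mul_of_nonneg_right hN1 (by positivity)

/-- The coefficients with a flat point. -/
def flatset {n : ℕ} (F : E n → ℝ) : Set (Fin n → ℝ) :=
  {b | ∃ (ζ : Fin n → ℝ) (x : E n), ‖x‖ = 1 ∧ Flat (fun y => F y + qd b ζ y) x}

lemma flatset_sub {F : E (d + 1) → ℝ} (hF : ContDiff ℝ ∞ F) (k : ℕ) :
    flatset F ⊆ ⋃ (N : ℕ), cb (d + 1) (N : ℝ) ∩ exc (AF F) (N : ℝ) (1 / ((N : ℝ) + 2)) k := by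
  rintro b ⟨ζ, x, hx, h⟩
  choose N0 hN0 using AF_local hF hx h k
  set N := max (∑ m, N0 m) ⌈∑ m, |b m|⌉₊ with hN
  rw [mem_iUnion]
  refine ⟨N, ?_, x, hx, fun r hr0 hr z hz m => ?_⟩
  · have h3 : ∑ m, |b m| ≤ N := (Nat.le_ceil _).trans (by exact_mod_cast le_max_right _ _)
    intro m
    exact (Finset.single_le_sum (f := fun m => |b m|) (fun m _ => abs_nonneg _)
      (Finset.mem_univ m)).trans h3
  · refine hN0 m N ?_ r hr0 hr z hz
    exact (Finset.single_le_sum (f := N0) (fun m _ => Nat.zero_le _) (Finset.mem_univ m)).trans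
      (le_max_left _ _)

/-- The set of the coefficients with a flat point has dimension at most one. -/
theorem dim_flatset {F : E (d + 1) → ℝ} (hF : ContDiff ℝ ∞ F) : dimH (flatset F) ≤ 1 := by
  refine ENNReal.le_of_forall_pos_le_add fun ε hε _ => ?_
  obtain ⟨k, hk⟩ := exists_nat_gt (((d : ℝ) + 1) / (ε : ℝ))
  have hε' : (0:ℝ) < ε := by exact_mod_cast hε
  have hd0 : (0:ℝ) < (d : ℝ) + 1 := by positivity
  have hk0 : (0:ℝ) < k := lt_trans (by positivity) hk
  have hk1 : 1 ≤ k := by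
    have : 0 < k := by exact_mod_cast hk0
    omega
  have hlt : 1 + ((d : ℝ) + 1) / (k : ℝ) < ((1 + ε : ℝ≥0) : ℝ) := by
    push_cast
    have : ((d : ℝ) + 1) / (k : ℝ) < ε := by
      rw [div_lt_iff₀ hk0]
      rw [div_lt_iff₀ hε'] at hk
      linarith
    linarith
  have hA : ∀ m, Measurable fun z : E (d + 1) => AF F z m := fun m =>
    (measurable_Bf hF).comp measurable_nz
  calc dimH (flatset F) ≤ dimH (⋃ (N : ℕ), cb (d + 1) (N : ℝ) ∩
        exc (AF F) (N : ℝ) (1 / ((N : ℝ) + 2)) k) := dimH_mono (flatset_sub hF k)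
    _ ≤ ((1 + ε : ℝ≥0) : ℝ≥0∞) := by
        rw [dimH_iUnion]
        exact iSup_le fun N => dim_exc hA (Nat.cast_nonneg N) (by positivity) hk1
          (Nat.cast_nonneg N) hlt
    _ = 1 + (ε : ℝ≥0∞) := by push_cast; rfl

end Pool.Agent.VANn.QD

namespace Pool.Agent.VANn

open MeasureTheory Set Filter Topology Asymptotics Pool.Agent.MP_6cbfb8_an
open Pool.Agent.VAN (fam)
open scoped ENNReal NNReal Real ContDiff

/-- For every `n ≥ 2` and every function `φ` smooth near the unit sphere of `R^n` the set of the `b`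
in `R^n` for which the function `φ + ∑ b_m x_m^2` is not nonflat has dimension at most one. -/
theorem dim_nonflat_quad {n : ℕ} (hn2 : 2 ≤ n) (φ : E n → ℝ)
    (hs : ∀ x ∈ Metric.sphere (0 : E n) 1, ContDiffAt ℝ ((⊤ : ℕ∞) : WithTop ℕ∞) φ x) :
    ∃ X : Set (Fin n → ℝ), dimH X ≤ 1 ∧ ∀ b : Fin n → ℝ, b ∉ X →
      Nonflat fun (_ : Fin 1) (x : E n) => φ x + ∑ m, b m * x m ^ 2 := by
  obtain ⟨F, hF, _, hFS⟩ := extend φ hs
  refine ⟨QD.flatset F, ?_, fun b hb => ?_⟩
  · obtain ⟨d, rfl⟩ : ∃ d, n = d + 1 := ⟨n - 1, by omega⟩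
    exact QD.dim_flatset hF
  refine ⟨fun _ x hx => (hs x hx).add ?_, fun a ζ x hx hflat => ?_⟩
  · have : ContDiff ℝ ∞ fun x : E n => ∑ m, b m * x m ^ 2 := by fun_prop
    exact this.contDiffAt
  have hin : ∀ y : E n, inner ℝ y ζ = ∑ m, ζ m * y m := fun y => by
    rw [PiLp.inner_apply]
    rfl
  by_cases ha : a 0 = 0
  · have e : (fun y : E n => fam (fun (_ : Fin 1) (x : E n) => φ x + ∑ m, b m * x m ^ 2) a y +
        inner ℝ y ζ) = fun y => fam (fun (j : Fin 0) (_ : E n) => (0 : ℝ)) (fun j => j.elim0) y +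
          inner ℝ y ζ := by
      funext y
      simp [fam, ha]
    rw [e] at hflat
    have h1 := (nonflat_of_analytic hn2 (fun (j : Fin 0) (_ : E n) => (0 : ℝ))
      (fun j => j.elim0)).2 (fun j => j.elim0) ζ x hx hflat
    intro y hy
    have h2 := h1 y hy
    rw [congrFun e y, congrFun e x]
    exact h2
  · exfalso
    refine hb ⟨fun m => (a 0)⁻¹ * ζ m, x, hx, fun k => ?_⟩
    have e : ∀ y : E n, ‖y‖ = 1 → F y + QD.qd b (fun m => (a 0)⁻¹ * ζ m) y = (a 0)⁻¹ *
        (fam (fun (_ : Fin 1) (x : E n) => φ x + ∑ m, b m * x m ^ 2) a y + inner ℝ y ζ) := by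
      intro y hy
      have f1 : fam (fun (_ : Fin 1) (x : E n) => φ x + ∑ m, b m * x m ^ 2) a y =
          a 0 * (φ y + ∑ m, b m * y m ^ 2) := by simp [fam]
      have f2 : QD.qd b (fun m => (a 0)⁻¹ * ζ m) y =
          (∑ m, b m * y m ^ 2) + (a 0)⁻¹ * ∑ m, ζ m * y m := by
        unfold QD.qd
        rw [Finset.mul_sum, ← Finset.sum_add_distrib]
        refine Finset.sum_congr rfl fun m _ => ?_
        ring
      rw [hin, hFS y (by simpa using hy), f1, f2, mul_add, ← mul_assoc, inv_mul_cancel₀ ha]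
      ring
    refine ((hflat k).const_mul_left (a 0)⁻¹).congr' ?_ EventuallyEq.rfl
    filter_upwards [self_mem_nhdsWithin] with y hy
    rw [e y (by simpa using hy), e x hx]
    ring

end Pool.Agent.VANn
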