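import Pool.Agent.VANn.NG3

/-!
Generic perturbations of one function by polynomials, modulo an arbitrary finite-dimensional space
of smooth functions: the exceptional coefficients lie in differentiable images of hyperplanes.
-/

set_option autoImplicit false

namespace Pool.Agent.VANn.OF

open MeasureTheory Set Polynomial Pool.Agent.MP_6cbfb8_an Pool.Agent.VANn.NG
open scoped ENNReal Real ContDiff

variable {dd q : ℕ} {i l : Fin dd}

/-- The coefficients of the polynomials. -/
abbrev VW (dd q : ℕ) : Type := Fin dd → Fin (dd + q + 1) → ℝ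

/-- The slots of the point. -/
def tx (m : Fin dd) : Fin (dd + q + 1) := ⟨m, by omega⟩

/-- The slots of the coefficients. -/
def ta (j : Fin q) : Fin (dd + q + 1) := ⟨dd + j, by omega⟩

/-- The last slot. -/
def tz : Fin (dd + q + 1) := ⟨dd + q, by omega⟩

/-- The point. -/
noncomputable def XW (i : Fin dd) (w : VW dd q) : E dd :=
  WithLp.toLp 2 fun m => w i (tx m)

/-- The coefficients of the powers which are not solved for. -/
def cw (i : Fin dd) (w : VW dd q) (s : Fin dd × Fin (dd + q + 1)) : ℝ :=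
  if s.1 = i then 0 else w s.1 s.2

/-- The derivatives of the rest. -/
noncomputable def rw' (F : E dd → ℝ) (f : Fin q → E dd → ℝ) (i l : Fin dd) (w : VW dd q)
    (n : ℕ) : ℝ :=
  (rotD i l)^[n] F (XW i w) +
  (∑ j, w i (ta j) * (rotD i l)^[n] (f j) (XW i w)) +
  ∑ s, cw i w s * (rotD i l)^[n] (NG.mono s.1 s.2) (XW i w)

/-- The map. -/
noncomputable def PW (F : E dd → ℝ) (f : Fin q → E dd → ℝ) (i l : Fin dd) (w : VW dd q) :
    VW dd q := fun i' k =>
  if i' = i then
    ∑ m ∈ Finset.range (dd + q + 1 + 1), ((m.factorial : ℝ)⁻¹ *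
      YY i l (rw' F f i l w) (XW i w) m) *
        ((-(XW i w i)) ^ (m - ((k : ℕ) + 1)) * (m.choose ((k : ℕ) + 1) : ℝ))
  else w i' k

/-- The hyperplane. -/
def HW (i l : Fin dd) : Set (VW dd q) :=
  {w | w i tz = 0 ∧ XW i w l ≠ 0}

lemma differentiable_XW : Differentiable ℝ (fun w : VW dd q => XW i w) := by
  intro w
  rw [differentiableAt_euclidean]
  intro m
  simp only [XW]
  fun_prop

lemma differentiable_cw (s : Fin dd × Fin (dd + q + 1)) :
    Differentiable ℝ (fun w : VW dd q => cw i w s) := by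
  unfold cw
  split_ifs <;> fun_prop

lemma differentiable_iterXW {f : E dd → ℝ} (hf : ContDiff ℝ ∞ f) (n : ℕ) :
    Differentiable ℝ (fun w : VW dd q => (rotD i l)^[n] f (XW i w)) := by
  have h1 : Differentiable ℝ ((rotD i l)^[n] f) := (contDiff_iter hf n).differentiable (by simp)
  exact h1.comp differentiable_XW

lemma differentiable_rw' {F : E dd → ℝ} {f : Fin q → E dd → ℝ} (hF : ContDiff ℝ ∞ F)
    (hf : ∀ j, ContDiff ℝ ∞ (f j)) (n : ℕ) :
    Differentiable ℝ (fun w : VW dd q => rw' F f i l w n) := by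
  intro w
  unfold rw'
  refine DifferentiableAt.add (DifferentiableAt.add ?_ ?_) ?_
  · exact differentiable_iterXW hF n w
  · refine DifferentiableAt.fun_sum fun j _ => ?_
    have h1 : DifferentiableAt ℝ (fun w : VW dd q => w i (ta j)) w := by fun_prop
    exact h1.mul (differentiable_iterXW (hf j) n w)
  · refine DifferentiableAt.fun_sum fun s _ => ?_
    exact (differentiable_cw s w).mul (differentiable_iterXW (contDiff_mono _ _) n w)

lemma differentiableAt_PW {F : E dd → ℝ} {f : Fin q → E dd → ℝ} (hF : ContDiff ℝ ∞ F)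
    (hf : ∀ j, ContDiff ℝ ∞ (f j)) {w : VW dd q} (h : XW i w l ≠ 0) :
    DifferentiableAt ℝ (PW F f i l) w := by
  rw [differentiableAt_pi]
  intro i'
  rw [differentiableAt_pi]
  intro k
  by_cases hq : i' = i
  · simp only [PW, hq, if_true]
    have hX := differentiable_XW (q := q) (i := i) w
    have hXi : DifferentiableAt ℝ (fun w : VW dd q => XW i w i) w :=
      (differentiableAt_euclidean.1 hX) i
    refine DifferentiableAt.fun_sum fun m _ => ?_
    have h1 := differentiableAt_YY (i := i) (l := l)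
      (fun n => differentiable_rw' (i := i) (l := l) hF hf n w) hX h m
    exact ((h1.const_mul _)).mul ((hXi.neg.pow _).mul_const _)
  · simp only [PW, hq, if_false]
    fun_prop

lemma haarVW (dd q : ℕ) : (volume : Measure (VW dd q)).IsAddHaarMeasure :=
  Measure.pi.isAddHaarMeasure (fun _ : Fin dd => (volume : Measure (Fin (dd + q + 1) → ℝ)))

lemma measure_HW (i l : Fin dd) : (volume : Measure (VW dd q)) (HW i l) = 0 := by
  have := haarVW dd q
  have hle : (HW i l : Set (VW dd q)) ⊆ (LinearMap.ker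
      ((LinearMap.proj tz : (Fin (dd + q + 1) → ℝ) →ₗ[ℝ] ℝ) ∘ₗ
        (LinearMap.proj i : (Fin dd → Fin (dd + q + 1) → ℝ) →ₗ[ℝ] (Fin (dd + q + 1) → ℝ))) :
          Submodule ℝ (VW dd q)) := by
    intro w hw
    simpa using hw.1
  refine measure_mono_null hle (Measure.addHaar_submodule _ _ ?_)
  intro htop
  have h1 : (fun _ _ => (1:ℝ) : VW dd q) ∈ (⊤ : Submodule ℝ (VW dd q)) := Submodule.mem_top
  rw [← htop] at h1
  simp at h1

lemma measure_PW {F : E dd → ℝ} {f : Fin q → E dd → ℝ} (hF : ContDiff ℝ ∞ F)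
    (hf : ∀ j, ContDiff ℝ ∞ (f j)) (i l : Fin dd) :
    (volume : Measure (VW dd q)) (PW F f i l '' HW i l) = 0 := by
  have := haarVW dd q
  exact addHaar_image_eq_zero_of_differentiableOn_of_addHaar_eq_zero _
    (fun _ hw => (differentiableAt_PW hF hf hw.2).differentiableWithinAt) (measure_HW i l)

/-- The polynomial. -/
noncomputable def Pb (b : VW dd q) (x : E dd) : ℝ :=
  ∑ i, ∑ k : Fin (dd + q + 1), b i k * x i ^ ((k : ℕ) + 1)

lemma contDiff_Pb (b : VW dd q) : ContDiff ℝ ∞ (Pb b) := by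
  unfold Pb
  fun_prop

/-- The combination of the perturbed function and of the other functions. -/
noncomputable def totw (F : E dd → ℝ) (f : Fin q → E dd → ℝ) (b : VW dd q) (a : Fin q → ℝ)
    (x : E dd) : ℝ :=
  F x + Pb b x + ∑ j, a j * f j x

/-- The polynomial which is solved for. -/
noncomputable def plw (b : VW dd q) (i : Fin dd) : ℝ[X] :=
  ∑ k : Fin (dd + q + 1), C (b i k) * X ^ ((k : ℕ) + 1)

lemma plw_natDegree (b : VW dd q) (i : Fin dd) :
    (plw b i).natDegree ≤ dd + q + 1 := by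
  unfold plw
  refine natDegree_sum_le_of_forall_le _ _ fun k _ => ?_
  exact (natDegree_C_mul_X_pow_le _ _).trans (by have := k.2; omega)

lemma plw_coeff (b : VW dd q) (i : Fin dd) (k : Fin (dd + q + 1)) :
    (plw b i).coeff ((k : ℕ) + 1) = b i k := by
  unfold plw
  rw [finsetSum_coeff]
  simp only [coeff_C_mul, coeff_X_pow]
  rw [Finset.sum_eq_single k]
  · simp
  · intro k' _ hk'
    have : ¬ ((k : ℕ) + 1 = (k' : ℕ) + 1) := by
      intro h
      exact hk' (Fin.ext (by omega))
    rw [if_neg this, mul_zero]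
  · simp

lemma totw_split (F : E dd → ℝ) (f : Fin q → E dd → ℝ) (b : VW dd q) (a : Fin q → ℝ)
    (i : Fin dd) (x : E dd) :
    totw F f b a x = F x + (∑ j, a j * f j x) + (∑ s, cw i b s * NG.mono s.1 s.2 x) +
      (plw b i).eval (x i) := by
  have h2 : Pb b x = (∑ s, cw i b s * NG.mono s.1 s.2 x) + (plw b i).eval (x i) := by
    have h3 : (plw b i).eval (x i) = ∑ s : Fin dd × Fin (dd + q + 1),
        (if s.1 = i then b s.1 s.2 else 0) * NG.mono s.1 s.2 x := by
      rw [Fintype.sum_prod_type, Finset.sum_eq_single i]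
      · unfold plw
        rw [eval_finsetSum]
        refine Finset.sum_congr rfl fun k _ => ?_
        simp [NG.mono]
      · intro i' _ hi'
        refine Finset.sum_eq_zero fun k _ => ?_
        simp [hi']
      · simp
    rw [h3, ← Finset.sum_add_distrib]
    unfold Pb
    rw [Fintype.sum_prod_type]
    refine Finset.sum_congr rfl fun i' _ => Finset.sum_congr rfl fun k _ => ?_
    unfold cw NG.mono
    simp only
    split_ifs with h
    · ring
    · ring
  unfold totw
  rw [h2]
  ring

lemma contDiff_totw {F : E dd → ℝ} {f : Fin q → E dd → ℝ} (hF : ContDiff ℝ ∞ F)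
    (hf : ∀ j, ContDiff ℝ ∞ (f j)) (b : VW dd q) (a : Fin q → ℝ) : ContDiff ℝ ∞ (totw F f b a) := by
  unfold totw
  exact (hF.add (contDiff_Pb b)).add (ContDiff.sum fun j _ => contDiff_const.mul (hf j))

lemma iter_totw {F : E dd → ℝ} {f : Fin q → E dd → ℝ} (hF : ContDiff ℝ ∞ F)
    (hf : ∀ j, ContDiff ℝ ∞ (f j)) (hil : i ≠ l) (b : VW dd q) (a : Fin q → ℝ) (n : ℕ)
    (x : E dd) :
    (rotD i l)^[n] (totw F f b a) x =
      ((rotD i l)^[n] F x + (∑ j, a j * (rotD i l)^[n] (f j) x) +
        ∑ s, cw i b s * (rotD i l)^[n] (NG.mono s.1 s.2) x) +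
      ∑ m ∈ Finset.range (n + 1), BB i l n m x * (derivative^[m] (plw b i)).eval (x i) := by
  have h1 : totw F f b a = fun x => (F x + (∑ j, a j * f j x) +
      (∑ s, cw i b s * NG.mono s.1 s.2 x)) + (plw b i).eval (x i) := by
    funext y
    exact totw_split F f b a i y
  have c1 : ContDiff ℝ ∞ (fun x : E dd => ∑ j, a j * f j x) :=
    ContDiff.sum fun j _ => contDiff_const.mul (hf j)
  have c2 : ContDiff ℝ ∞ (fun x : E dd => ∑ s : Fin dd × Fin (dd + q + 1),
      cw i b s * NG.mono s.1 s.2 x) :=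
    ContDiff.sum fun s _ => contDiff_const.mul (contDiff_mono _ _)
  rw [h1, iter_add ((hF.add c1).add c2) (contDiff_eval _), iter_add (hF.add c1) c2,
    iter_add hF c1, iter_sum _ _ hf, iter_sum _ _ (fun s => contDiff_mono _ _), iter_eval hil]

/-- The code of the parameters. -/
noncomputable def encw (a : Fin q → ℝ) (x : E dd) (k : Fin (dd + q + 1)) : ℝ :=
  if h : (k : ℕ) < dd then x ⟨k, h⟩
  else if h' : (k : ℕ) < dd + q then a ⟨k - dd, by omega⟩
  else 0

/-- The parameters. -/
noncomputable def wz (i : Fin dd) (b : VW dd q) (a : Fin q → ℝ) (x : E dd) : VW dd q :=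
  fun i' k => if i' = i then encw a x k else b i' k

lemma wz_tx (b : VW dd q) (a : Fin q → ℝ) (x : E dd) (m : Fin dd) :
    wz i b a x i (tx m) = x m := by
  unfold wz encw tx
  simp

lemma wz_ta (b : VW dd q) (a : Fin q → ℝ) (x : E dd) (j : Fin q) :
    wz i b a x i (ta j) = a j := by
  unfold wz encw ta
  simp

lemma wz_tz (b : VW dd q) (a : Fin q → ℝ) (x : E dd) :
    wz i b a x i tz = 0 := by
  unfold wz encw tz
  simp

lemma XW_wz (b : VW dd q) (a : Fin q → ℝ) (x : E dd) : XW i (wz i b a x) = x := by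
  ext m
  unfold XW
  simp only [wz_tx]

lemma cw_wz (b : VW dd q) (a : Fin q → ℝ) (x : E dd) (s : Fin dd × Fin (dd + q + 1)) :
    cw i (wz i b a x) s = cw i b s := by
  unfold cw
  split_ifs with h
  · rfl
  · unfold wz
    rw [if_neg h]

/-- Flatness of order `dd + q + 1` at a point with nonvanishing coordinate `l`. -/
lemma mem_imagew {F : E dd → ℝ} {f : Fin q → E dd → ℝ} (hF : ContDiff ℝ ∞ F)
    (hf : ∀ j, ContDiff ℝ ∞ (f j)) (hil : i ≠ l) {b : VW dd q} {a : Fin q → ℝ} {x : E dd}
    (hl : x l ≠ 0) (h : ∀ n, 1 ≤ n → (rotD i l)^[n] (totw F f b a) x = 0) :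
    b ∈ PW F f i l '' HW i l := by
  have hr : ∀ n, rw' F f i l (wz i b a x) n =
      ((rotD i l)^[n] F x + (∑ j, a j * (rotD i l)^[n] (f j) x) +
        ∑ s, cw i b s * (rotD i l)^[n] (NG.mono s.1 s.2) x) := by
    intro n
    unfold rw'
    simp only [XW_wz, wz_ta, cw_wz]
  have hY := YY_eq (i := i) (l := l) (x := x) hl (r := rw' F f i l (wz i b a x))
    (y := fun m => (derivative^[m] (plw b i)).eval (x i)) (N := dd + q + 1) (by
      intro n h1 h2
      have h3 := h n h1
      rw [iter_totw hF hf hil b a] at h3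
      rw [hr]
      exact h3)
  refine ⟨wz i b a x, ⟨?_, ?_⟩, ?_⟩
  · rw [wz_tz]
  · rw [XW_wz]
    exact hl
  · funext i' k
    unfold PW
    by_cases hq : i' = i
    · rw [if_pos hq, XW_wz]
      subst hq
      rw [← plw_coeff b i' k, coeff_of_derivatives (plw b i') (x i') (plw_natDegree b i')]
      refine Finset.sum_congr rfl fun m hm => ?_
      rcases Nat.eq_zero_or_pos m with h0 | h0
      · subst h0
        simp
      · have h1 := hY m h0 (by have := Finset.mem_range.1 hm; omega)
        simp only at h1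
        rw [h1]
    · rw [if_neg hq]
      unfold wz
      rw [if_neg hq]

/-- For almost all coefficients no combination with the perturbed function is flat. -/
theorem ae_totw (hd : 2 ≤ dd) {F : E dd → ℝ} {f : Fin q → E dd → ℝ} (hF : ContDiff ℝ ∞ F)
    (hf : ∀ j, ContDiff ℝ ∞ (f j)) :
    ∀ᵐ b : VW dd q, ∀ (a : Fin q → ℝ) (x : E dd), ‖x‖ = 1 →
      ¬ ∀ i l : Fin dd, i ≠ l → ∀ n, 1 ≤ n → (rotD i l)^[n] (totw F f b a) x = 0 := by
  have h1 : ∀ (i l : Fin dd), ∀ᵐ b : VW dd q, b ∉ PW F f i l '' HW i l := by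
    intro i l
    exact measure_eq_zero_iff_ae_notMem.1 (measure_PW hF hf i l)
  have h2 : ∀ᵐ b : VW dd q, ∀ (i l : Fin dd), b ∉ PW F f i l '' HW i l := by
    rw [ae_all_iff]
    intro i
    rw [ae_all_iff]
    intro l
    exact h1 i l
  filter_upwards [h2] with b h3
  intro a x hx h
  obtain ⟨l, hl⟩ := exists_l hx
  obtain ⟨i, hil⟩ := exists_i hd l
  exact h3 i l (mem_imagew hF hf hil hl fun n hn => h i l hil n hn)

end Pool.Agent.VANn.OF
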