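import Pool.Agent.VANn.OFA
import Pool.Agent.VANn.NG4

/-!
Generic perturbations of one function by the multiples `θ P_b` of a function `θ` which is positive off
one point: for almost all polynomials `P_b` the sum and the linear functions have no combination which
is flat at another point.
-/

set_option autoImplicit false

namespace Pool.Agent.VANn.OF

open MeasureTheory Set Filter Topology Asymptotics Pool.Agent.MP_6cbfb8_an Pool.Agent.VANn.NG
open scoped ENNReal Real ContDiff

variable {n : ℕ}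

/-- A smooth function which is positive on the sphere, and equal to `θ` off a small ball. -/
lemma exists_weight {θ : E n → ℝ} (hθ : ContDiff ℝ ∞ θ) {e : E n}
    (hpos : ∀ x : E n, ‖x‖ = 1 → x ≠ e → 0 < θ x) {δ : ℝ} (hδ : 0 < δ) :
    ∃ θ' : E n → ℝ, ContDiff ℝ ∞ θ' ∧ (∀ x : E n, ‖x‖ = 1 → 0 < θ' x) ∧
      ∀ x : E n, δ / 2 ≤ dist x e → θ' x = θ x := by
  let β : ContDiffBump e := ⟨δ / 4, δ / 2, by positivity, by linarith⟩
  have hβ : ContDiff ℝ ∞ (fun x => β x) := β.contDiff
  refine ⟨fun x => (1 - β x) * θ x + β x, ((contDiff_const.sub hβ).mul hθ).add hβ, ?_, ?_⟩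
  · intro x hx
    have h0 : 0 ≤ β x := β.nonneg
    have h1 : β x ≤ 1 := β.le_one
    show 0 < (1 - β x) * θ x + β x
    by_cases hxe : x = e
    · have h2 : β x = 1 := by
        rw [hxe]
        exact β.one_of_mem_closedBall (Metric.mem_closedBall_self (by positivity))
      rw [h2]
      norm_num
    · have h3 := hpos x hx hxe
      rcases h0.eq_or_lt with h4 | h4
      · rw [← h4]
        simpa using h3
      · have : 0 ≤ (1 - β x) * θ x := mul_nonneg (by linarith) h3.le
        linarith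
  · intro x hx
    have h2 : β x = 0 := β.zero_of_le_dist hx
    show (1 - β x) * θ x + β x = θ x
    rw [h2]
    ring

/-- The local form. -/
lemma ae_weight_loc (hn : 2 ≤ n) {φ θ : E n → ℝ} (hφ : ContDiff ℝ ∞ φ) (hθ : ContDiff ℝ ∞ θ)
    {e : E n} (hpos : ∀ x : E n, ‖x‖ = 1 → x ≠ e → 0 < θ x) {δ : ℝ} (hδ : 0 < δ) :
    ∀ᵐ b : VW n (n + 1), ∀ (ζ x : E n), ‖x‖ = 1 → δ ≤ dist x e →
      ¬ Flat (fun y => φ y + θ y * Pb b y + inner ℝ y ζ) x := by
  obtain ⟨θ', hθ', hpos', heq⟩ := exists_weight hθ hpos hδ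
  have hdiv : ∀ f : E n → ℝ, ContDiff ℝ ∞ f → ∀ x ∈ S n,
      ContDiffAt ℝ ((⊤ : ℕ∞) : WithTop ℕ∞) (fun y => f y / θ' y) x := by
    intro f hf x hx
    exact hf.contDiffAt.div hθ'.contDiffAt (hpos' x (by simpa using hx)).ne'
  obtain ⟨F, hF, -, hFS⟩ := extend _ (hdiv φ hφ)
  obtain ⟨G1, hG1, -, hG1S⟩ := extend _ (hdiv (fun _ => 1) contDiff_const)
  have hG := fun m : Fin n => extend _ (hdiv (fun y : E n => y m) (contDiff_coord m))
  choose G hG1' hG2' hGS using hG
  let f : Fin (n + 1) → E n → ℝ := Fin.snoc (α := fun _ => E n → ℝ) G G1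
  have hf : ∀ j, ContDiff ℝ ∞ (f j) := by
    intro j
    refine Fin.lastCases ?_ (fun m => ?_) j
    · simp only [f, Fin.snoc_last]
      exact hG1
    · simp only [f, Fin.snoc_castSucc]
      exact hG1' m
  filter_upwards [ae_totw hn hF hf] with b hb
  intro ζ x hx hxe hflat
  obtain ⟨g, hg⟩ : ∃ g : E n → ℝ, ∀ y, g y = φ y + θ y * Pb b y + inner ℝ y ζ := ⟨_, fun _ => rfl⟩
  have hflat' : Flat g x := by
    have : g = fun y => φ y + θ y * Pb b y + inner ℝ y ζ := funext hg
    rw [this]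
    exact hflat
  let a : Fin (n + 1) → ℝ := Fin.snoc (α := fun _ => ℝ) (fun m => ζ m) (-g x)
  have hval : ∀ y : E n, ‖y‖ = 1 → δ / 2 ≤ dist y e →
      totw F f b a y = (g y - g x) / θ' y := by
    intro y hy hye
    have hyS : y ∈ S n := by simpa using hy
    unfold totw
    rw [Fin.sum_univ_castSucc]
    simp only [f, a, Fin.snoc_last, Fin.snoc_castSucc]
    rw [hFS y hyS, hG1S y hyS]
    have h1 : ∑ m, ζ m * G m y = (∑ m, ζ m * y m) / θ' y := by
      rw [Finset.sum_div]
      refine Finset.sum_congr rfl fun m _ => ?_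
      rw [hGS m y hyS]
      ring
    have h2 : ∑ m, ζ m * y m = inner ℝ y ζ := by
      rw [PiLp.inner_apply]
      exact Finset.sum_congr rfl fun m _ => by simp
    rw [h1, h2, hg y, ← heq y hye]
    have h3 := (hpos' y hy).ne'
    field_simp
    ring
  refine hb a x hx fun i l hil k hk => rotD_of_flat hil (fun y _ =>
    (contDiff_totw hF hf b a).contDiffAt) hx ?_ k hk
  intro k
  have hx2 : δ / 2 ≤ dist x e := by linarith
  have h1 : (fun y => totw F f b a y - totw F f b a x) =ᶠ[𝓝[Metric.sphere 0 1] x]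
      fun y => (g y - g x) * (θ' y)⁻¹ := by
    have h2 : ∀ᶠ y in 𝓝 x, δ / 2 < dist y e := by
      have h3 : Tendsto (fun y : E n => dist y e) (𝓝 x) (𝓝 (dist x e)) :=
        (continuous_id.dist continuous_const).tendsto x
      exact h3.eventually (lt_mem_nhds (by linarith))
    filter_upwards [self_mem_nhdsWithin, mem_nhdsWithin_of_mem_nhds h2] with y hy hye
    rw [hval y (by simpa using hy) (le_of_lt hye), hval x hx hx2]
    simp [div_eq_mul_inv]
  have h4 : (fun y => (θ' y)⁻¹) =O[𝓝[Metric.sphere 0 1] x] fun _ => (1:ℝ) := by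
    have h5 : Tendsto (fun y => (θ' y)⁻¹) (𝓝[Metric.sphere 0 1] x) (𝓝 (θ' x)⁻¹) :=
      ((hθ'.continuous.tendsto x).inv₀ (hpos' x hx).ne').mono_left nhdsWithin_le_nhds
    exact h5.isBigO_one ℝ
  refine ((hflat' k).mul h4).congr' h1.symm ?_
  filter_upwards with y
  ring

/-- Almost every perturbation: no combination with the linear functions is flat at a point of the
sphere different from `e`. -/
theorem ae_weight (hn : 2 ≤ n) {φ θ : E n → ℝ} (hφ : ContDiff ℝ ∞ φ) (hθ : ContDiff ℝ ∞ θ)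
    {e : E n} (hpos : ∀ x : E n, ‖x‖ = 1 → x ≠ e → 0 < θ x) :
    ∀ᵐ b : VW n (n + 1), ∀ (a : ℝ) (ζ x : E n), ‖x‖ = 1 → x ≠ e →
      Flat (fun y => a * (φ y + θ y * Pb b y) + inner ℝ y ζ) x → a = 0 ∧ ζ = 0 := by
  have h1 : ∀ᵐ b : VW n (n + 1), ∀ j : ℕ, ∀ (ζ x : E n), ‖x‖ = 1 → 1 / ((j : ℝ) + 1) ≤ dist x e →
      ¬ Flat (fun y => φ y + θ y * Pb b y + inner ℝ y ζ) x := by
    rw [ae_all_iff]
    intro j
    exact ae_weight_loc hn hφ hθ hpos (by positivity)
  filter_upwards [h1] with b hb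
  intro a ζ x hx hxe hflat
  by_cases ha : a = 0
  · refine ⟨ha, ?_⟩
    subst ha
    have h2 : Flat (fun y : E n => ∑ m, ζ m * y m) x := by
      have h3 : (fun y : E n => ∑ m, ζ m * y m) =
          fun y => 0 * (φ y + θ y * Pb b y) + inner ℝ y ζ := by
        funext y
        rw [PiLp.inner_apply, zero_mul, zero_add]
        exact Finset.sum_congr rfl fun m _ => by simp
      rw [h3]
      exact hflat
    have hζ : (fun m => ζ m) = 0 := by
      refine lin_zero hn hx fun i l hil k hk => ?_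
      refine rotD_of_flat hil (fun y _ => ?_) hx h2 k hk
      have : ContDiff ℝ ((⊤ : ℕ∞) : WithTop ℕ∞) (fun y : E n => ∑ m, ζ m * y m) := by fun_prop
      exact this.contDiffAt
    ext m
    exact congrFun hζ m
  · exfalso
    obtain ⟨j, hj⟩ := exists_nat_one_div_lt (dist_pos.2 hxe)
    refine hb j (a⁻¹ • ζ) x hx hj.le fun k => ?_
    have h2 : (fun y => (φ y + θ y * Pb b y + inner ℝ y (a⁻¹ • ζ)) -
        (φ x + θ x * Pb b x + inner ℝ x (a⁻¹ • ζ))) =
        fun y => a⁻¹ * ((a * (φ y + θ y * Pb b y) + inner ℝ y ζ) -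
          (a * (φ x + θ x * Pb b x) + inner ℝ x ζ)) := by
      funext y
      rw [inner_smul_right, inner_smul_right]
      field_simp
    show (fun y => (φ y + θ y * Pb b y + inner ℝ y (a⁻¹ • ζ)) -
        (φ x + θ x * Pb b x + inner ℝ x (a⁻¹ • ζ))) =O[𝓝[Metric.sphere 0 1] x] _
    rw [h2]
    exact (hflat k).const_mul_left _

end Pool.Agent.VANn.OF
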