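import Pool.Agent.MP_6cbfb8_an.Super

/-!
A smooth function which is positive off one point, flat at this point, and as small as we like on a
given sequence of balls.
-/

set_option autoImplicit false

namespace Pool.Agent.VANn.OF

open MeasureTheory Set Filter Topology Asymptotics Pool.Agent.MP_6cbfb8_an
open scoped ENNReal Real ContDiff

variable {n : ℕ}

/-- A sum of small multiples of smooth functions with compact support. -/
theorem series_le {g : ℕ → E n → ℝ} (h1 : ∀ k, HasCompactSupport (g k))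
    (h2 : ∀ k, ContDiff ℝ ∞ (g k)) :
    ∃ r : ℕ → ℝ, (∀ k, 0 < r k) ∧ (∀ k, r k ≤ 1) ∧ ContDiff ℝ ∞ (fun x => ∑' k, r k * g k x) := by
  have this : ∀ n' : ℕ, ∃ r : ℝ, 0 < r ∧ r ≤ 1 ∧
      ∀ i ≤ n', ∀ x, ‖iteratedFDeriv ℝ i (r • g n') x‖ ≤ (1 / 2 : ℝ) ^ n' := by
    intro n'
    have : ∀ i, ∃ R, ∀ x, ‖iteratedFDeriv ℝ i (fun x => g n' x) x‖ ≤ R := by
      intro i
      have : BddAbove (range fun x => ‖iteratedFDeriv ℝ i (fun x : E n => g n' x) x‖) := by
        apply ((h2 n').continuous_iteratedFDeriv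
          (mod_cast le_top)).norm.bddAbove_range_of_hasCompactSupport
        apply HasCompactSupport.comp_left _ norm_zero
        apply (h1 n').iteratedFDeriv
      rcases this with ⟨R, hR⟩
      exact ⟨R, fun x => hR (mem_range_self _)⟩
    choose R hR using this
    let M := max (((Finset.range (n' + 1)).image R).max' (by simp)) 1
    have IR : ∀ i ≤ n', R i ≤ M := by
      intro i hi
      refine le_trans ?_ (le_max_left _ _)
      apply Finset.le_max'
      apply Finset.mem_image_of_mem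
      simp only [Finset.mem_range]
      lia
    have hM1 : 1 ≤ M := le_max_right _ _
    have hM0 : 0 < M := by linarith
    have hd : (0:ℝ) < (1 / 2) ^ n' := by positivity
    refine ⟨M⁻¹ * (1 / 2) ^ n', by positivity, ?_, fun i hi x => ?_⟩
    · calc M⁻¹ * (1 / 2) ^ n' ≤ 1 * 1 := mul_le_mul (inv_le_one_of_one_le₀ hM1)
            (pow_le_one₀ (by norm_num) (by norm_num)) hd.le zero_le_one
        _ = 1 := one_mul 1
    calc
      ‖iteratedFDeriv ℝ i ((M⁻¹ * (1 / 2) ^ n') • g n') x‖ =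
          ‖(M⁻¹ * (1 / 2) ^ n') • iteratedFDeriv ℝ i (g n') x‖ := by
        rw [iteratedFDeriv_const_smul_apply]
        exact (h2 n').contDiffAt.of_le (mod_cast le_top)
      _ = M⁻¹ * (1 / 2) ^ n' * ‖iteratedFDeriv ℝ i (g n') x‖ := by
        rw [norm_smul _ (iteratedFDeriv ℝ i (g n') x), Real.norm_of_nonneg]; positivity
      _ ≤ M⁻¹ * (1 / 2) ^ n' * M := by gcongr; exact (hR i x).trans (IR i hi)
      _ = (1 / 2) ^ n' := by field_simp
  choose r rpos hr1 hr using this
  refine ⟨r, rpos, hr1, ?_⟩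
  refine contDiff_tsum_of_eventually (f := fun k x => r k * g k x)
      (v := fun _ k => (1 / 2 : ℝ) ^ k) (fun k => (h2 k).const_smul (r k))
      (fun k _ => summable_geometric_two) ?_
  intro i _
  simp only [Nat.cofinite_eq_atTop, Filter.eventually_atTop]
  exact ⟨i, fun k hk x => hr _ _ hk _⟩

lemma exists_min (ε : ℕ → ℝ) (hε : ∀ k, 0 < ε k) (K : ℕ) : ∃ m : ℝ, 0 < m ∧ ∀ k < K, m ≤ ε k := by
  induction K with
  | zero => exact ⟨1, one_pos, fun k hk => absurd hk (Nat.not_lt_zero k)⟩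
  | succ K ih =>
    obtain ⟨m, hm, h⟩ := ih
    refine ⟨min m (ε K), lt_min hm (hε K), fun k hk => ?_⟩
    rcases Nat.lt_succ_iff_lt_or_eq.1 hk with h1 | h1
    · exact (min_le_left _ _).trans (h k h1)
    · rw [h1]
      exact min_le_right _ _

theorem exists_theta {e : E n} {x : ℕ → E n} {r ε : ℕ → ℝ} (hε : ∀ k, 0 < ε k)
    (hr8 : ∀ k, 8 * r k ≤ dist (x k) e) (hx : Tendsto x atTop (𝓝 e)) (R : ℝ) (hR : 0 < R) :
    ∃ θ : E n → ℝ, ContDiff ℝ ∞ θ ∧ (∀ y, 0 ≤ θ y) ∧ (∀ y, dist y e < R → y ≠ e → 0 < θ y) ∧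
      (∀ k, ∀ z ∈ Metric.ball (x k) (2 * r k), θ z ≤ ε k) ∧
      ∀ N : ℕ, θ =O[𝓝 e] fun z => ‖z - e‖ ^ N := by
  -- the cut-off functions
  let βo : ContDiffBump e := ⟨R, R + 1, hR, by linarith⟩
  let β : ℕ → ContDiffBump e := fun j => ⟨(1 / 2) ^ j / 2, (1 / 2) ^ j, by positivity, by
    have : (0:ℝ) < (1 / 2) ^ j := by positivity
    linarith⟩
  obtain ⟨B, hB⟩ : ∃ B : ℕ → E n → ℝ, ∀ j y, B j y = (1 - β j y) * βo y := ⟨_, fun _ _ => rfl⟩
  have hBe : ∀ j, B j = fun y => (1 - β j y) * βo y := fun j => funext (hB j)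
  have hB0 : ∀ j y, 0 ≤ B j y := fun j y => by
    rw [hB]
    exact mul_nonneg (sub_nonneg.2 (β j).le_one) βo.nonneg
  have hB1 : ∀ j y, B j y ≤ 1 := fun j y => by
    rw [hB]
    have h1 : 0 ≤ β j y := (β j).nonneg
    calc (1 - β j y) * βo y ≤ 1 * 1 := mul_le_mul (by linarith) βo.le_one βo.nonneg zero_le_one
      _ = 1 := one_mul 1
  have hBz : ∀ j y, dist y e ≤ (1 / 2) ^ j / 2 → B j y = 0 := fun j y hy => by
    rw [hB, (β j).one_of_mem_closedBall (Metric.mem_closedBall.2 hy)]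
    ring
  have hBp : ∀ j y, (1 / 2 : ℝ) ^ j ≤ dist y e → dist y e < R → 0 < B j y := fun j y hy hyR => by
    rw [hB, (β j).zero_of_le_dist hy, sub_zero, one_mul]
    exact βo.pos_of_mem_ball (Metric.mem_ball.2 (by show dist y e < R + 1; linarith))
  -- the sizes
  have hK : ∀ j : ℕ, ∃ K : ℕ, ∀ k, K ≤ k → 5 / 4 * dist (x k) e < (1 / 2) ^ j / 2 := by
    intro j
    have h1 : Tendsto (fun k => 5 / 4 * dist (x k) e) atTop (𝓝 (5 / 4 * dist e e)) :=
      (hx.dist tendsto_const_nhds).const_mul _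
    rw [dist_self, mul_zero] at h1
    have h2 := h1.eventually (gt_mem_nhds (show (0:ℝ) < (1 / 2) ^ j / 2 by positivity))
    exact eventually_atTop.1 h2
  choose K hK using hK
  have hm := fun j => exists_min ε hε (K j)
  choose m hm0 hm using hm
  obtain ⟨η, hη⟩ : ∃ η : ℕ → ℝ, ∀ j, η j = min (m j) (((1 / 2) ^ j / 2) ^ j) * (1 / 2 / 2 ^ j) :=
    ⟨_, fun _ => rfl⟩
  have hη0 : ∀ j, 0 < η j := fun j => by
    rw [hη]
    exact mul_pos (lt_min (hm0 j) (by positivity)) (by positivity)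
  have hη1 : ∀ j, η j ≤ m j * (1 / 2 / 2 ^ j) := fun j => by
    rw [hη]
    gcongr
    exact min_le_left _ _
  have hη2 : ∀ j, η j ≤ ((1 / 2) ^ j / 2) ^ j * (1 / 2 / 2 ^ j) := fun j => by
    rw [hη]
    gcongr
    exact min_le_right _ _
  obtain ⟨s, hs0, hs1, hsm⟩ := series_le (g := fun j y => η j * B j y)
    (fun j => by
      have : HasCompactSupport (B j) := by
        rw [hBe]
        exact βo.hasCompactSupport.mul_left
      exact this.mul_left)
    (fun j => by
      have : ContDiff ℝ ∞ (B j) := by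
        rw [hBe]
        exact (contDiff_const.sub (β j).contDiff).mul βo.contDiff
      exact contDiff_const.mul this)
  have hterm0 : ∀ j y, 0 ≤ s j * (η j * B j y) := fun j y =>
    mul_nonneg (hs0 j).le (mul_nonneg (hη0 j).le (hB0 j y))
  have hterm1 : ∀ j y, s j * (η j * B j y) ≤ η j := fun j y => by
    calc s j * (η j * B j y) ≤ 1 * (η j * 1) :=
          mul_le_mul (hs1 j) (mul_le_mul_of_nonneg_left (hB1 j y) (hη0 j).le)
            (mul_nonneg (hη0 j).le (hB0 j y)) zero_le_one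
      _ = η j := by ring
  have hgeo : ∀ c : ℝ, Summable fun j : ℕ => c * (1 / 2 / 2 ^ j) := fun c =>
    (summable_geometric_two' 1).mul_left c
  have hgeo' : ∀ c : ℝ, ∑' j : ℕ, c * (1 / 2 / 2 ^ j : ℝ) = c := fun c => by
    rw [tsum_mul_left, tsum_geometric_two' 1, mul_one]
  have hbase : ∀ j, ((1 / 2 : ℝ) ^ j / 2) ^ j ≤ 1 := fun j => by
    refine pow_le_one₀ (by positivity) ?_
    have : (1 / 2 : ℝ) ^ j ≤ 1 := pow_le_one₀ (by norm_num) (by norm_num)
    linarith
  have hsum : ∀ y, Summable fun j => s j * (η j * B j y) := fun y =>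
    Summable.of_nonneg_of_le (fun j => hterm0 j y) (fun j => (hterm1 j y).trans ((hη2 j).trans
      (mul_le_mul_of_nonneg_right (hbase j) (by positivity)))) (hgeo 1)
  refine ⟨fun y => ∑' j, s j * (η j * B j y), hsm, fun y => tsum_nonneg fun j => hterm0 j y,
    ?_, ?_, ?_⟩
  · intro y hyR hye
    obtain ⟨j, hj⟩ := exists_pow_lt_of_lt_one (dist_pos.2 hye) (show (1 / 2 : ℝ) < 1 by norm_num)
    refine (hsum y).tsum_pos (fun j => hterm0 j y) j ?_
    exact mul_pos (hs0 j) (mul_pos (hη0 j) (hBp j y hj.le hyR))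
  · intro k z hz
    have hzd : dist z e ≤ 5 / 4 * dist (x k) e := by
      have h1 := dist_triangle z (x k) e
      have h2 := Metric.mem_ball.1 hz
      have h3 := hr8 k
      linarith
    have h4 : ∀ j, s j * (η j * B j z) ≤ ε k * (1 / 2 / 2 ^ j) := by
      intro j
      rcases le_or_gt (K j) k with h5 | h5
      · rw [hBz j z (hzd.trans (hK j k h5).le)]
        rw [mul_zero, mul_zero]
        exact mul_nonneg (hε k).le (by positivity)
      · refine (hterm1 j z).trans ((hη1 j).trans ?_)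
        exact mul_le_mul_of_nonneg_right (hm j k h5) (by positivity)
    calc ∑' j, s j * (η j * B j z) ≤ ∑' j : ℕ, ε k * (1 / 2 / 2 ^ j) :=
          (hsum z).tsum_le_tsum h4 (hgeo _)
      _ = ε k := hgeo' _
  · intro N
    refine IsBigO.of_bound 1 ?_
    have h1 : ∀ᶠ z in 𝓝 e, dist z e < (1 / 2) ^ N / 2 := by
      have := Metric.ball_mem_nhds e (show (0:ℝ) < (1 / 2) ^ N / 2 by positivity)
      filter_upwards [this] with z hz
      exact Metric.mem_ball.1 hz
    filter_upwards [h1] with z hz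
    rw [one_mul, Real.norm_of_nonneg (tsum_nonneg fun j => hterm0 j z),
      Real.norm_of_nonneg (by positivity), ← dist_eq_norm]
    have h4 : ∀ j, s j * (η j * B j z) ≤ dist z e ^ N * (1 / 2 / 2 ^ j) := by
      intro j
      rcases le_or_gt (dist z e) ((1 / 2) ^ j / 2) with h5 | h5
      · rw [hBz j z h5, mul_zero, mul_zero]
        positivity
      · refine (hterm1 j z).trans ((hη2 j).trans ?_)
        refine mul_le_mul_of_nonneg_right ?_ (by positivity)
        have h6 : N ≤ j := by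
          by_contra h7
          rw [not_le] at h7
          have h8 : (1 / 2 : ℝ) ^ N ≤ (1 / 2) ^ j :=
            pow_le_pow_of_le_one (by norm_num) (by norm_num) h7.le
          linarith
        have h9 : ((1 / 2 : ℝ) ^ j / 2) ≤ 1 := by
          have : (1 / 2 : ℝ) ^ j ≤ 1 := pow_le_one₀ (by norm_num) (by norm_num)
          linarith
        calc ((1 / 2 : ℝ) ^ j / 2) ^ j ≤ ((1 / 2) ^ j / 2) ^ N :=
              pow_le_pow_of_le_one (by positivity) h9 h6
          _ ≤ dist z e ^ N := pow_le_pow_left₀ (by positivity) h5.le N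
    calc ∑' j, s j * (η j * B j z) ≤ ∑' j : ℕ, dist z e ^ N * (1 / 2 / 2 ^ j) :=
          (hsum z).tsum_le_tsum h4 (hgeo _)
      _ = dist z e ^ N := hgeo' _

end Pool.Agent.VANn.OF
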