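import Pool.Agent.VANn.OFB
import Pool.Agent.VANn.OFC
import Pool.Agent.VAN.OFH

/-!
# One flat point
For every `n ≥ 2` and every point `e` of the unit sphere of `R^n` there is a smooth function `φ₀`
such that `φ₀` is flat at `e`, no combination of `φ₀` and of linear functions is flat at another point
of the sphere, and the restriction conjecture in `R^n`, at any exponent `p ≥ 1`, is equivalent to the
boundedness of the integrals for `e^{ilφ₀}`, `l = 0, 1, 2, …`.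
-/

set_option autoImplicit false

namespace Pool.Agent.VANn

open MeasureTheory Set Filter Topology Asymptotics Pool.Agent.MP_6cbfb8_an Pool.Agent.VANn.OF
open scoped ENNReal Real ContDiff

variable {n : ℕ}

namespace OF

/-- The size of the polynomials with small coefficients on a ball. -/
lemma abs_Pb_le {q : ℕ} {b : VW n q} (hb : ∀ i k, |b i k| ≤ 1) {R : ℝ} {y : E n}
    (hy : ‖y‖ ≤ R) :
    |Pb b y| ≤ ∑ _i : Fin n, ∑ k : Fin (n + q + 1), R ^ ((k : ℕ) + 1) := by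
  unfold Pb
  refine (Finset.abs_sum_le_sum_abs _ _).trans (Finset.sum_le_sum fun i _ => ?_)
  refine (Finset.abs_sum_le_sum_abs _ _).trans (Finset.sum_le_sum fun k _ => ?_)
  rw [abs_mul, abs_pow]
  have h1 : |y i| ≤ R := by
    have h2 : ‖y i‖ ≤ ‖y‖ := PiLp.norm_apply_le y i
    rw [Real.norm_eq_abs] at h2
    exact h2.trans hy
  calc |b i k| * |y i| ^ ((k : ℕ) + 1) ≤ 1 * R ^ ((k : ℕ) + 1) :=
        mul_le_mul (hb i k) (pow_le_pow_left₀ (abs_nonneg _) h1 _) (by positivity) zero_le_one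
    _ = R ^ ((k : ℕ) + 1) := one_mul _

/-- Almost every property holds for some small coefficients. -/
lemma exists_small {q : ℕ} {P : VW n q → Prop} (h : ∀ᵐ b : VW n q, P b) :
    ∃ b : VW n q, (∀ i k, |b i k| ≤ 1) ∧ P b := by
  have := haarVW n q
  have h1 : Dense {b : VW n q | P b} := Measure.dense_of_ae h
  obtain ⟨b, hb1, hb2⟩ := h1.exists_mem_open (Metric.isOpen_ball (x := (0 : VW n q)) (ε := 1))
    ⟨0, Metric.mem_ball_self one_pos⟩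
  refine ⟨b, fun i k => ?_, hb1⟩
  have h2 : ‖b‖ < 1 := by simpa using hb2
  have h3 : ‖b i k‖ ≤ ‖b‖ := (norm_le_pi_norm (b i) k).trans (norm_le_pi_norm b i)
  rw [Real.norm_eq_abs] at h3
  linarith

end OF

/-- **One flat point decides.** -/
theorem one_flat (hn : 2 ≤ n) (e : E n) (he : ‖e‖ = 1) : ∃ φ₀ : E n → ℝ,
    ContDiff ℝ ((⊤ : ℕ∞) : WithTop ℕ∞) φ₀ ∧ Flat φ₀ e ∧
    (∀ (a : ℝ) (ζ x : E n), ‖x‖ = 1 → x ≠ e → Flat (fun y => a * φ₀ y + inner ℝ y ζ) x →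
      a = 0 ∧ ζ = 0) ∧
    ∀ p : ℝ, 1 ≤ p → List.TFAE [
      ∀ g : E n → ℂ, Measurable g → (∀ x, ‖g x‖ ≤ 1) → ∫⁻ ξ, ‖extn g ξ‖ₑ ^ p < ⊤,
      ∃ C : ℝ≥0∞, C ≠ ⊤ ∧ ∀ g : E n → ℂ, Measurable g → (∀ x, ‖g x‖ ≤ 1) →
        ∫⁻ ξ, ‖extn g ξ‖ₑ ^ p ≤ C,
      ∀ φ : E n → ℝ, (∀ x ∈ Metric.sphere (0 : E n) 1, ContDiffAt ℝ ((⊤ : ℕ∞) : WithTop ℕ∞) φ x) →
        ∃ C : ℝ≥0∞, C ≠ ⊤ ∧ ∀ c : ℝ,
          ∫⁻ ξ, ‖extn (fun x => Complex.exp (((c * φ x : ℝ) : ℂ) * Complex.I)) ξ‖ₑ ^ p ≤ C,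
      ∃ C : ℝ≥0∞, C ≠ ⊤ ∧ ∀ c : ℕ,
        ∫⁻ ξ, ‖extn (fun x => Complex.exp (((c * φ₀ x : ℝ) : ℂ) * Complex.I)) ξ‖ₑ ^ p ≤ C] := by
  obtain ⟨x, r, ε, f, hr, hε, h8, hxe, -, hf, -, hflat, H⟩ := Pool.Agent.VAN.of_humps hn e he
  obtain ⟨D, hD⟩ := (Metric.isBounded_range_of_tendsto x hxe).subset_closedBall e
  have hxD : ∀ k, dist (x k) e ≤ D := fun k => Metric.mem_closedBall.1 (hD (mem_range_self k))
  have hD0 : 0 ≤ D := dist_nonneg.trans (hxD 0)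
  obtain ⟨Q, hQ⟩ : ∃ Q : ℝ, Q = 1 + ∑ _i : Fin n, ∑ k : Fin (n + (n + 1) + 1),
    (1 + 5 / 4 * D) ^ ((k : ℕ) + 1) := ⟨_, rfl⟩
  have hQ0 : 0 < Q := by
    rw [hQ]
    positivity
  obtain ⟨θ, hθ, hθ0, hθpos, hθs, hθf⟩ := exists_theta (e := e) (x := x) (r := r)
    (ε := fun k => ε k / Q) (fun k => div_pos (hε k) hQ0) h8 hxe 3 (by norm_num)
  have hpos : ∀ y : E n, ‖y‖ = 1 → y ≠ e → 0 < θ y := by
    intro y hy hye
    refine hθpos y ?_ hye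
    have := dist_le_norm_add_norm y e
    rw [hy, he] at this
    linarith
  obtain ⟨b, hb1, hb2⟩ := exists_small (ae_weight hn hf hθ hpos)
  obtain ⟨w, hw⟩ : ∃ w : E n → ℝ, ∀ y, w y = θ y * Pb b y := ⟨_, fun _ => rfl⟩
  have hwe : w = fun y => θ y * Pb b y := funext hw
  have hwc : ContDiff ℝ ∞ w := by
    rw [hwe]
    exact hθ.mul (contDiff_Pb b)
  have hwb : ∀ k, ∀ z ∈ Metric.ball (x k) (2 * r k), |w z| ≤ ε k := by
    intro k z hz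
    rw [hw, abs_mul, abs_of_nonneg (hθ0 z)]
    have h1 : ‖z‖ ≤ 1 + 5 / 4 * D := by
      have h2 : dist z (x k) < 2 * r k := Metric.mem_ball.1 hz
      have h3 := h8 k
      have h4 := hxD k
      have h5 := dist_triangle z (x k) e
      have h6 : ‖z‖ ≤ ‖z - e‖ + ‖e‖ := by
        simpa using norm_add_le (z - e) e
      rw [← dist_eq_norm, he] at h6
      linarith
    have h2 := abs_Pb_le hb1 h1
    have h3 : |Pb b z| ≤ Q := by
      rw [hQ]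
      linarith
    calc θ z * |Pb b z| ≤ ε k / Q * Q :=
          mul_le_mul (hθs k z hz) h3 (abs_nonneg _) (div_nonneg (hε k).le hQ0.le)
      _ = ε k := div_mul_cancel₀ _ hQ0.ne'
  have hsm : ContDiff ℝ ∞ (fun y => f y + w y) := hf.add hwc
  refine ⟨fun y => f y + w y, hsm, ?_, ?_, fun p hp => ?_⟩
  · -- flatness at `e`
    have hO : ∀ N : ℕ, (fun y => f y + w y) =O[𝓝 e] fun z => ‖z - e‖ ^ N := by
      intro N
      refine (hflat N).add ?_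
      rw [hwe]
      have h1 : (fun y => Pb b y) =O[𝓝 e] fun _ => (1:ℝ) :=
        ((contDiff_Pb b).continuous.tendsto e).isBigO_one ℝ
      refine ((hθf N).mul h1).congr_right fun y => ?_
      rw [mul_one]
    have h0 : f e + w e = 0 := by
      obtain ⟨c, hc⟩ := (hO 1).bound
      have h1 := hc.self_of_nhds
      simp only [sub_self, norm_zero, pow_one, mul_zero, norm_le_zero_iff] at h1
      exact h1
    intro N
    show (fun y => (f y + w y) - (f e + w e)) =O[𝓝[Metric.sphere 0 1] e] _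
    rw [h0]
    simp only [sub_zero]
    exact (hO N).mono nhdsWithin_le_nhds
  · intro a ζ y hy hye hfl
    refine hb2 a ζ y hy hye ?_
    have h1 : (fun y => a * (f y + θ y * Pb b y) + inner ℝ y ζ) =
        fun y => a * (f y + w y) + inner ℝ y ζ := by
      rw [hwe]
    rw [h1]
    exact hfl
  · obtain ⟨φ₁, ψ₁, -, -, -, h1⟩ := Pool.Agent.VAN.J.equiv1 hn e he
    have h2 := h1 p hp
    tfae_have 1 ↔ 2 := h2.out 0 1
    have h3 : (∀ φ : E n → ℝ, ContDiff ℝ ((⊤ : ℕ∞) : WithTop ℕ∞) φ → ∃ C : ℝ≥0∞, C ≠ ⊤ ∧ ∀ l : ℝ,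
        ∫⁻ ξ, ‖extn (fun x => Complex.exp (((l * φ x : ℝ) : ℂ) * Complex.I)) ξ‖ₑ ^ p ≤ C) ↔
        ∃ C : ℝ≥0∞, C ≠ ⊤ ∧ ∀ g : E n → ℂ, Measurable g → (∀ x, ‖g x‖ ≤ 1) →
          ∫⁻ ξ, ‖extn g ξ‖ₑ ^ p ≤ C := h2.out 2 1
    tfae_have 3 → 2 := fun h => h3.1 fun φ hφ => h φ fun x _ => hφ.contDiffAt
    tfae_have 2 → 3 := fun ⟨C, hC, h⟩ φ hφ => ⟨C, hC, fun c => by
      obtain ⟨F, hF, _, hFe⟩ := extend φ hφ
      have h4 := h (fun x => Complex.exp (((c * F x : ℝ) : ℂ) * Complex.I))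
        (by have := hF.continuous.measurable; fun_prop)
        (fun x => by rw [Complex.norm_exp_ofReal_mul_I])
      rwa [Pool.Agent.VAN.j_congr (h := fun x => Complex.exp (((c * φ x : ℝ) : ℂ) * Complex.I))
        fun x hx => by rw [hFe x hx]] at h4⟩
    tfae_have 2 → 4 := fun ⟨C, hC, h⟩ => ⟨C, hC, fun c => h _
      (by have := hsm.continuous.measurable; fun_prop)
      (fun x => by rw [Complex.norm_exp_ofReal_mul_I])⟩
    tfae_have 4 → 2 := fun h => H w hwc.continuous.measurable hwb p hp h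
    tfae_finish

/-- The short form. -/
theorem one_flat_iff (hn : 2 ≤ n) (e : E n) (he : ‖e‖ = 1) : ∃ φ₀ : E n → ℝ,
    ContDiff ℝ ((⊤ : ℕ∞) : WithTop ℕ∞) φ₀ ∧ Flat φ₀ e ∧
    (∀ (a : ℝ) (ζ x : E n), ‖x‖ = 1 → x ≠ e → Flat (fun y => a * φ₀ y + inner ℝ y ζ) x →
      a = 0 ∧ ζ = 0) ∧
    ∀ p : ℝ, 1 ≤ p → ((∀ g : E n → ℂ, Measurable g → (∀ x, ‖g x‖ ≤ 1) →
      ∫⁻ ξ, ‖extn g ξ‖ₑ ^ p < ⊤) ↔ ∃ C : ℝ≥0∞, C ≠ ⊤ ∧ ∀ l : ℕ,
        ∫⁻ ξ, ‖extn (fun x => Complex.exp (((l * φ₀ x : ℝ) : ℂ) * Complex.I)) ξ‖ₑ ^ p ≤ C) := by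
  obtain ⟨φ₀, h1, h2, h3, h4⟩ := one_flat hn e he
  exact ⟨φ₀, h1, h2, h3, fun p hp => (h4 p hp).out 0 3⟩

end Pool.Agent.VANn
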