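import Mathlib
import Pool.Agent.MP_6cbfb8_an.Sphere

/-!
Rotations of the unit sphere of `R^n` in the plane of two orthonormal vectors.
-/

namespace Pool.Agent.VANn

open MeasureTheory Set Pool.Agent.MP_6cbfb8_an
open scoped ENNReal Real

variable {n : ℕ}

/-- Orthonormal pairs. -/
def ON (q : E n × E n) : Prop := ‖q.1‖ = 1 ∧ ‖q.2‖ = 1 ∧ inner ℝ q.1 q.2 = 0

/-- The rotation by the angle `t` in the plane of `q.1, q.2`. -/
noncomputable def rot (q : E n × E n) (t : ℝ) (x : E n) : E n :=
  x + ((Real.cos t - 1) * inner ℝ q.1 x - Real.sin t * inner ℝ q.2 x) • q.1 +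
    (Real.sin t * inner ℝ q.1 x + (Real.cos t - 1) * inner ℝ q.2 x) • q.2

/-- The generator. -/
noncomputable def gen (q : E n × E n) (x : E n) : E n :=
  (inner ℝ q.1 x : ℝ) • q.2 - (inner ℝ q.2 x : ℝ) • q.1

lemma rot_zero (q : E n × E n) (x : E n) : rot q 0 x = x := by
  simp [rot]

lemma inner1 {q : E n × E n} (hq : ON q) (t : ℝ) (x : E n) :
    inner ℝ q.1 (rot q t x) = Real.cos t * inner ℝ q.1 x - Real.sin t * inner ℝ q.2 x := by
  obtain ⟨h1, h2, h3⟩ := hq
  unfold rot
  rw [inner_add_right, inner_add_right, real_inner_smul_right, real_inner_smul_right,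
    real_inner_self_eq_norm_sq, h1, h3]
  ring

lemma inner2 {q : E n × E n} (hq : ON q) (t : ℝ) (x : E n) :
    inner ℝ q.2 (rot q t x) = Real.sin t * inner ℝ q.1 x + Real.cos t * inner ℝ q.2 x := by
  obtain ⟨h1, h2, h3⟩ := hq
  unfold rot
  rw [inner_add_right, inner_add_right, real_inner_smul_right, real_inner_smul_right,
    real_inner_self_eq_norm_sq, h2, real_inner_comm q.1 q.2, h3]
  ring

lemma rot_norm {q : E n × E n} (hq : ON q) (t : ℝ) (x : E n) : ‖rot q t x‖ = ‖x‖ := by
  have hq' := hq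
  obtain ⟨h1, h2, h3⟩ := hq
  have h3' : inner ℝ q.2 q.1 = 0 := by rw [real_inner_comm, h3]
  have e : inner ℝ (rot q t x) (rot q t x) = inner ℝ x x := by
    unfold rot
    simp only [inner_add_left, inner_add_right, real_inner_smul_left, real_inner_smul_right,
      real_inner_self_eq_norm_sq q.1, real_inner_self_eq_norm_sq q.2, h1, h2, h3, h3',
      real_inner_comm x q.1, real_inner_comm x q.2]
    have hs := Real.sin_sq_add_cos_sq t
    have hs' : Real.sin t ^ 2 = 1 - Real.cos t ^ 2 := by linarith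
    ring_nf
    rw [hs']
    ring
  rw [real_inner_self_eq_norm_sq, real_inner_self_eq_norm_sq] at e
  nlinarith [norm_nonneg (rot q t x), norm_nonneg x, sq_nonneg (‖rot q t x‖ - ‖x‖)]

lemma rot_add {q : E n × E n} (hq : ON q) (s t : ℝ) (x : E n) :
    rot q s (rot q t x) = rot q (s + t) x := by
  have e : rot q s (rot q t x) = rot q t x +
      ((Real.cos s - 1) * inner ℝ q.1 (rot q t x) - Real.sin s * inner ℝ q.2 (rot q t x)) • q.1 +
      (Real.sin s * inner ℝ q.1 (rot q t x) + (Real.cos s - 1) * inner ℝ q.2 (rot q t x)) • q.2 :=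
    rfl
  rw [e, inner1 hq, inner2 hq]
  unfold rot
  rw [Real.cos_add, Real.sin_add]
  module

/-- the rotation as a linear isometry -/
noncomputable def rotL {q : E n × E n} (hq : ON q) (t : ℝ) : E n ≃ₗᵢ[ℝ] E n where
  toFun := rot q t
  invFun := rot q (-t)
  map_add' x y := by
    unfold rot
    rw [inner_add_right, inner_add_right]
    module
  map_smul' c x := by
    unfold rot
    rw [real_inner_smul_right, real_inner_smul_right, RingHom.id_apply]
    module
  left_inv x := by
    show rot q (-t) (rot q t x) = x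
    rw [rot_add hq, neg_add_cancel, rot_zero]
  right_inv x := by
    show rot q t (rot q (-t) x) = x
    rw [rot_add hq, add_neg_cancel, rot_zero]
  norm_map' x := rot_norm hq t x

@[simp] lemma rotL_apply {q : E n × E n} (hq : ON q) (t : ℝ) (x : E n) :
    rotL hq t x = rot q t x := rfl

lemma rot_mem {q : E n × E n} (hq : ON q) (t : ℝ) {x : E n} (hx : x ∈ S n) : rot q t x ∈ S n := by
  rw [mem_sphere_zero_iff_norm] at hx ⊢
  rw [rot_norm hq, hx]

lemma hasDerivAt_rot {q : E n × E n} (hq : ON q) (t : ℝ) (x : E n) :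
    HasDerivAt (fun t => rot q t x) (gen q (rot q t x)) t := by
  have hc := Real.hasDerivAt_cos t
  have hs := Real.hasDerivAt_sin t
  have h1 : HasDerivAt (fun t => (Real.cos t - 1) * inner ℝ q.1 x - Real.sin t * inner ℝ q.2 x)
      (-Real.sin t * inner ℝ q.1 x - Real.cos t * inner ℝ q.2 x) t :=
    ((hc.sub_const 1).mul_const _).sub (hs.mul_const _)
  have h2 : HasDerivAt (fun t => Real.sin t * inner ℝ q.1 x + (Real.cos t - 1) * inner ℝ q.2 x)
      (Real.cos t * inner ℝ q.1 x + -Real.sin t * inner ℝ q.2 x) t :=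
    (hs.mul_const _).add ((hc.sub_const 1).mul_const _)
  have h3 := (((hasDerivAt_const t x).add (h1.smul_const q.1)).add (h2.smul_const q.2))
  refine h3.congr_deriv ?_
  unfold gen
  rw [inner1 hq, inner2 hq]
  module

lemma continuous_rot (q : E n × E n) : Continuous fun p : ℝ × E n => rot q p.1 p.2 := by
  unfold rot
  fun_prop

lemma contDiff_rot (q : E n × E n) (x : E n) (n : WithTop ℕ∞) : ContDiff ℝ n fun t => rot q t x := by
  unfold rot
  exact ((contDiff_const.add ((((Real.contDiff_cos.sub contDiff_const).mul contDiff_const).sub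
    (Real.contDiff_sin.mul contDiff_const)).smul contDiff_const)).add
    (((Real.contDiff_sin.mul contDiff_const).add
      ((Real.contDiff_cos.sub contDiff_const).mul contDiff_const)).smul contDiff_const))

lemma norm_gen_le {q : E n × E n} (hq : ON q) (x : E n) : ‖gen q x‖ ≤ 2 * ‖x‖ := by
  obtain ⟨h1, h2, h3⟩ := hq
  unfold gen
  have e1 : ‖(inner ℝ q.1 x : ℝ) • q.2‖ ≤ ‖x‖ := by
    rw [norm_smul, h2, mul_one, Real.norm_eq_abs]
    have := abs_real_inner_le_norm q.1 x
    rwa [h1, one_mul] at this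
  have e2 : ‖(inner ℝ q.2 x : ℝ) • q.1‖ ≤ ‖x‖ := by
    rw [norm_smul, h1, mul_one, Real.norm_eq_abs]
    have := abs_real_inner_le_norm q.2 x
    rwa [h2, one_mul] at this
  have e3 := norm_sub_le ((inner ℝ q.1 x : ℝ) • q.2) ((inner ℝ q.2 x : ℝ) • q.1)
  linarith

/-- two points on a rotation orbit starting at a point of the sphere are close -/
lemma dist_rot_le {q : E n × E n} (hq : ON q) {x : E n} (hx : x ∈ S n) (s t : ℝ) :
    dist (rot q s x) (rot q t x) ≤ 2 * |s - t| := by
  rw [dist_eq_norm]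
  have h := Convex.norm_image_sub_le_of_norm_hasDerivWithin_le (𝕜 := ℝ)
    (f := fun t => rot q t x) (f' := fun t => gen q (rot q t x)) (s := univ) (x := t) (y := s)
    (C := 2) (fun r _ => (hasDerivAt_rot hq r x).hasDerivWithinAt) (fun r _ => by
      refine (norm_gen_le hq _).trans ?_
      rw [rot_norm hq]
      have : ‖x‖ = 1 := by simpa using hx
      rw [this, mul_one]) convex_univ (mem_univ _) (mem_univ _)
  simpa using h

/-- any two points of the sphere lie on a common orbit starting at the first -/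
lemma exists_rot (hn : 2 ≤ n) {x y : E n} (hx : x ∈ S n) (hy : y ∈ S n) :
    ∃ q : E n × E n, ON q ∧ ∃ s : ℝ, rot q s x = y := by
  have hx1 : ‖x‖ = 1 := by simpa using hx
  have hy1 : ‖y‖ = 1 := by simpa using hy
  -- the component of `y` orthogonal to `x`
  set c : ℝ := inner ℝ x y with hc
  set z : E n := y - c • x with hz
  have hzx : inner ℝ x z = 0 := by
    rw [hz, inner_sub_right, real_inner_smul_right, real_inner_self_eq_norm_sq, hx1]
    ring
  have hzz : ‖z‖ ^ 2 = 1 - c ^ 2 := by
    rw [← real_inner_self_eq_norm_sq, hz]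
    simp only [inner_sub_left, inner_sub_right, real_inner_smul_left, real_inner_smul_right]
    rw [real_inner_self_eq_norm_sq, real_inner_self_eq_norm_sq, hx1, hy1, real_inner_comm x y, ← hc]
    ring
  have hformula : ∀ f : E n, inner ℝ x f = 0 → ‖f‖ = 1 → ∀ s : ℝ,
      rot (x, f) s x = Real.cos s • x + Real.sin s • f := by
    intro f hf _ s
    unfold rot
    simp only
    rw [real_inner_self_eq_norm_sq, hx1, real_inner_comm, hf]
    module
  by_cases h0 : z = 0
  · -- `y = ± x`
    have hyc : y = c • x := by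
      have : y - c • x = 0 := h0
      exact sub_eq_zero.1 this
    have hc2 : c ^ 2 = 1 := by
      rw [h0, norm_zero] at hzz
      linarith
    -- some vector orthogonal to `x`
    obtain ⟨f, hf1, hf2⟩ : ∃ f : E n, ‖f‖ = 1 ∧ inner ℝ x f = 0 := by
      have hfin : 0 < Module.finrank ℝ (ℝ ∙ x)ᗮ := by
        have h1 := Submodule.finrank_add_finrank_orthogonal (ℝ ∙ x : Submodule ℝ (E n))
        have h2 : Module.finrank ℝ (ℝ ∙ x : Submodule ℝ (E n)) = 1 :=
          finrank_span_singleton (by
            rintro rfl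
            simp at hx1)
        have h3 : Module.finrank ℝ (E n) = n := by simp
        omega
      have : Nontrivial (ℝ ∙ x : Submodule ℝ (E n))ᗮ :=
        Module.nontrivial_of_finrank_pos (R := ℝ) hfin
      obtain ⟨g, hg⟩ := exists_ne (0 : (ℝ ∙ x : Submodule ℝ (E n))ᗮ)
      have hg0 : (g : E n) ≠ 0 := by
        intro h
        exact hg (Subtype.ext h)
      refine ⟨‖(g : E n)‖⁻¹ • (g : E n), norm_smul_inv_norm hg0, ?_⟩
      rw [real_inner_smul_right, Submodule.mem_orthogonal_singleton_iff_inner_right.1 g.2, mul_zero]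
    refine ⟨(x, f), ⟨hx1, hf1, hf2⟩, ?_⟩
    rcases sq_eq_one_iff.1 hc2 with h | h
    · refine ⟨0, ?_⟩
      rw [rot_zero, hyc, h, one_smul]
    · refine ⟨π, ?_⟩
      rw [hformula f hf2 hf1, Real.cos_pi, Real.sin_pi, hyc, h]
      module
  · have hn' : 0 < ‖z‖ := norm_pos_iff.2 h0
    set f : E n := ‖z‖⁻¹ • z with hf
    have hf1 : ‖f‖ = 1 := norm_smul_inv_norm h0
    have hf2 : inner ℝ x f = 0 := by rw [hf, real_inner_smul_right, hzx, mul_zero]
    refine ⟨(x, f), ⟨hx1, hf1, hf2⟩, ?_⟩
    have hc1 : -1 ≤ c ∧ c ≤ 1 := by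
      have : c ^ 2 ≤ 1 := by nlinarith [sq_nonneg ‖z‖]
      exact abs_le.1 (by nlinarith [abs_nonneg c, sq_abs c])
    refine ⟨Real.arccos c, ?_⟩
    rw [hformula f hf2 hf1, Real.cos_arccos hc1.1 hc1.2, Real.sin_arccos, ← hzz,
      Real.sqrt_sq hn'.le, hf, smul_smul, mul_inv_cancel₀ hn'.ne', one_smul, hz]
    module

/-- the rotation as a map of the sphere -/
noncomputable def rotS {q : E n × E n} (hq : ON q) (t : ℝ) (x : S n) : S n :=
  ⟨rot q t x, rot_mem hq t x.2⟩

lemma rotS_coe {q : E n × E n} (hq : ON q) (t : ℝ) (x : S n) : (rotS hq t x : E n) = rot q t x := rfl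

lemma rotS_mp {q : E n × E n} (hq : ON q) (t : ℝ) : MeasurePreserving (rotS hq t) (sm n) (sm n) :=
  measurePreserving_isometry (rotL hq t)

lemma continuous_rotS {q : E n × E n} (hq : ON q) :
    Continuous fun p : ℝ × S n => rotS hq p.1 p.2 := by
  refine Continuous.subtype_mk ?_ _
  exact (continuous_rot q).comp (continuous_fst.prodMk (continuous_subtype_val.comp continuous_snd))

/-- invariance of the surface measure, averaged over the angle -/
lemma lintegral_avg {q : E n × E n} (hq : ON q) (T : ℝ) (F : S n → ℝ≥0∞)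
    (hF : Measurable F) :
    ENNReal.ofReal T * ∫⁻ x, F x ∂(sm n) =
      ∫⁻ x : S n, (∫⁻ t in Icc 0 T, F (rotS hq t x)) ∂(sm n) := by
  have h1 : ∀ t : ℝ, ∫⁻ x, F (rotS hq t x) ∂(sm n) = ∫⁻ x, F x ∂(sm n) := fun t =>
    (rotS_mp hq t).lintegral_comp hF
  have hm : Measurable (fun p : S n × ℝ => F (rotS hq p.2 p.1)) :=
    hF.comp ((continuous_rotS hq).measurable.comp (measurable_snd.prodMk measurable_fst))
  rw [lintegral_lintegral_swap hm.aemeasurable]
  simp_rw [h1]
  rw [setLIntegral_const, Real.volume_Icc, sub_zero, mul_comm]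

lemma integral_avg {q : E n × E n} (hq : ON q) {T : ℝ} (hT : 0 < T) (F : S n → ℂ)
    (hF : Measurable F) (B : ℝ) (hB : ∀ x, ‖F x‖ ≤ B) :
    (T : ℂ) * ∫ x, F x ∂(sm n) = ∫ x : S n, (∫ t in (0:ℝ)..T, F (rotS hq t x)) ∂(sm n) := by
  have h1 : ∀ t : ℝ, ∫ x, F (rotS hq t x) ∂(sm n) = ∫ x, F x ∂(sm n) := fun t => by
    have h2 := integral_map (μ := sm n) (φ := rotS hq t) (rotS_mp hq t).measurable.aemeasurable
      (f := F) hF.aestronglyMeasurable
    rw [(rotS_mp hq t).map_eq] at h2
    exact h2.symm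
  have hm : Measurable (fun p : S n × ℝ => F (rotS hq p.2 p.1)) :=
    hF.comp ((continuous_rotS hq).measurable.comp (measurable_snd.prodMk measurable_fst))
  have hi : Integrable (Function.uncurry fun (x : S n) (t : ℝ) => F (rotS hq t x))
      ((sm n).prod (volume.restrict (Ioc 0 T))) :=
    Integrable.of_bound hm.aestronglyMeasurable B (Filter.Eventually.of_forall fun p => hB _)
  simp_rw [intervalIntegral.integral_of_le hT.le]
  rw [integral_integral_swap hi]
  simp_rw [h1]
  rw [setIntegral_const, Real.volume_real_Ioc_of_le hT.le, sub_zero]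
  simp

end Pool.Agent.VANn
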