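import Pool.Agent.VANn.LSA
import Pool.Agent.VANn.GA
import Pool.Agent.VANn.NG4

/-!
Nonflat families with amplitudes of bounded variation, in `R^(m+1)` and in higher dimensions, over the
estimate in the chart, in the full conjectured range of exponents.
-/

namespace Pool.Agent.VANn

open MeasureTheory Set Pool.Agent.MP_6cbfb8_an Pool.Agent.VAN Pool.Agent.GNP
open scoped ENNReal Real

/-- Superpositions in `R^(m+1)`. -/
theorem res_mixA {m : ℕ} (hm : 2 ≤ m) (H : CoreA m) {d : ℕ} {φ : Fin d → E (m + 1) → ℝ}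
    (hφ : Nonflat φ) (N : ℕ) (V : ℝ) (p : ℝ) (hp : 2 * ((m : ℝ) + 1) / m < p) :
    ∃ C : ℝ≥0∞, C ≠ ∞ ∧
      ∀ (W : Type) (_ : MeasurableSpace W) (ν : Measure W) (_ : IsFiniteMeasure ν)
        (R : W → (E (m + 1) ≃ₗᵢ[ℝ] E (m + 1))) (η : W → E (m + 1)) (w : W → E (m + 1) → ℂ)
        (a : W → Fin d → ℝ) (b : W → Fin N → Fin d → ℝ),
        (Measurable fun q : W × E (m + 1) => R q.1 q.2) → Measurable η →
        (Measurable fun q : W × E (m + 1) => w q.1 q.2) → (∀ t x, ‖w t x‖ ≤ 1) →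
        (∀ t, BVn (m + 1) 1 V (w t)) → Measurable a → Measurable b →
        ∫⁻ ξ, ‖extn (mix ν R η fun t x => w t x * famc φ (a t) (b t) x) ξ‖ₑ ^ p ≤
          C * ν univ ^ p := by
  obtain ⟨k, rfl⟩ : ∃ k, m = k + 1 := ⟨m - 1, by omega⟩
  have hk : (0:ℝ) ≤ k := Nat.cast_nonneg k
  have h1 : 1 ≤ 2 * (((k + 1 : ℕ) : ℝ) + 1) / ((k + 1 : ℕ) : ℝ) := by
    push_cast
    rw [le_div_iff₀ (by positivity)]
    linarith
  obtain ⟨C, hC, h⟩ := main_nfA (j := k) (V := max V 1) one_pos le_rfl (le_max_right _ _) h1 φ hφ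
    (lossA_of (by omega) H φ hφ.1) N p hp
  refine ⟨C, hC, fun W mW ν hν R η w a b hR hη hw hw1 hwV ha hb => ?_⟩
  exact mix_amp (fun i x hx => (hφ.1 i x hx).continuousAt.continuousWithinAt) (h1.trans hp.le)
    (BVn (k + 1 + 1) 1 V) (fun g hg hg1 hgV a b => h g ⟨hg, hg1, fun r hr => (hgV r hr).trans
      (ENNReal.ofReal_le_ofReal (mul_le_mul_of_nonneg_right (le_max_left _ _) (by positivity)))⟩
      a b) W mW ν hν R η w a b hR hη hw hw1 hwV ha hb

/-- Superpositions in `R^(m+l)`, `l ≥ 2`. -/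
theorem res_mixhighA {m : ℕ} (hm : 2 ≤ m) (H : CoreA m) {d : ℕ} {φ : Fin d → E (m + 1) → ℝ}
    (hφ : Nonflat φ) (N : ℕ) (V : ℝ) (M l : ℕ) (hl : 2 ≤ l) (p : ℝ)
    (hp : 2 * ((m : ℝ) + l) / (m + l - 1) < p) :
    ∃ C : ℝ≥0∞, C ≠ ∞ ∧
      ∀ (W : Type) (_ : MeasurableSpace W) (ν : Measure W) (_ : IsFiniteMeasure ν)
        (R : W → (E (m + l) ≃ₗᵢ[ℝ] E (m + l))) (η : W → E (m + l)) (w : W → E (m + 1) → ℂ)
        (a : W → Fin d → ℝ) (b : W → Fin N → Fin d → ℝ) (v : W → Fin M → E (m + l))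
        (c : W → Fin M → ℝ),
        (Measurable fun q : W × E (m + l) => R q.1 q.2) → Measurable η →
        (Measurable fun q : W × E (m + 1) => w q.1 q.2) → (∀ t x, ‖w t x‖ ≤ 1) →
        (∀ t, BVn (m + 1) 1 V (w t)) → Measurable a → Measurable b → Measurable v →
        Measurable c →
        ∫⁻ ξ, ‖extn (mix ν R η fun t x =>
          lift (fun y => w t y * famc φ (a t) (b t) y) x * ∏ i, hsn (c t i) (v t i) x) ξ‖ₑ ^ p ≤
            C * ν univ ^ p := by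
  obtain ⟨k, rfl⟩ : ∃ k, m = k + 1 := ⟨m - 1, by omega⟩
  have hk : (0:ℝ) ≤ k := Nat.cast_nonneg k
  have h1 : 1 ≤ 2 * (((k + 1 : ℕ) : ℝ) + 1) / ((k + 1 : ℕ) : ℝ) := by
    push_cast
    rw [le_div_iff₀ (by positivity)]
    linarith
  obtain ⟨C, hC, h⟩ := mixhigh_amp (κ := k) (by omega) N (f := φ)
    (fun i x hx => (hφ.1 i x hx).continuousAt.continuousWithinAt) (BVn (k + 1 + 1) 1 V)
    (fun p hp => by
      obtain ⟨C, hC, h⟩ := main_nfA (j := k) (V := max V 1) one_pos le_rfl (le_max_right _ _) h1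
        φ hφ (lossA_of (by omega) H φ hφ.1) N p (by
          refine lt_of_eq_of_lt ?_ hp
          push_cast
          congr 1
          ring)
      exact ⟨C, hC, fun g hg hg1 hgV a b => h g ⟨hg, hg1, fun r hr => (hgV r hr).trans
        (ENNReal.ofReal_le_ofReal (mul_le_mul_of_nonneg_right (le_max_left _ _)
          (by positivity)))⟩ a b⟩) M l hl p (by
      refine lt_of_eq_of_lt ?_ hp
      push_cast
      congr 1
      ring)
  exact ⟨C, hC, fun W mW ν hν R η w a b v c hR hη hw hw1 hwV ha hb hv hc =>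
    h W mW ν hν R η w a b v c hR hη hw hw1 hwV ha hb hv hc⟩

end Pool.Agent.VANn
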