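import Pool.Agent.VAN.A
import Pool.Agent.VANn.RB
import Pool.Agent.VAN.Defs

/-!
Decay of the Fourier transform: averaging over rotations and van der Corput's lemma.
-/

namespace Pool.Agent.VANn

open MeasureTheory Set Pool.Agent.MP_6cbfb8_an Filter Topology Pool.Agent.VAN
open scoped ENNReal Real

variable {n : ℕ}

/-- a smooth partition of unity on the sphere -/
theorem partition {δ : ℝ} (hδ : 0 < δ) : ∃ (N : ℕ) (x : Fin N → E n) (χ : Fin N → E n → ℝ),
    (∀ i, x i ∈ S n) ∧ (∀ i, Sm (χ i)) ∧ (∀ i, ∀ y, χ i y ≠ 0 → dist y (x i) < δ) ∧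
    ∀ y ∈ S n, ∑ i, χ i y = 1 := by
  classical
  obtain ⟨t, htS, ht⟩ := (isCompact_sphere (0 : E n) 1).elim_nhds_subcover
    (fun x => Metric.ball x δ) (fun x _ => Metric.ball_mem_nhds x hδ)
  let e := t.equivFin
  let x : Fin t.card → E n := fun i => (e.symm i : E n)
  let b : Fin t.card → E n → ℝ := fun i y => Real.smoothTransition (δ ^ 2 - ‖y - x i‖ ^ 2)
  let B : E n → ℝ := fun y => ∑ i, b i y
  have hb0 : ∀ i y, 0 ≤ b i y := fun i y => Real.smoothTransition.nonneg _
  have hbc : ∀ i, ContDiff ℝ ((⊤ : ℕ∞) : WithTop ℕ∞) (b i) := by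
    intro i
    have h1 : ContDiff ℝ ((⊤ : ℕ∞) : WithTop ℕ∞) fun y : E n => δ ^ 2 - ‖y - x i‖ ^ 2 :=
      contDiff_const.sub ((contDiff_id.sub contDiff_const).norm_sq ℝ)
    exact Real.smoothTransition.contDiff.comp h1
  have hBpos : ∀ y ∈ S n, 0 < B y := by
    intro y hy
    have h1 := ht hy
    simp only [mem_iUnion] at h1
    obtain ⟨z, hz, hyz⟩ := h1
    refine Finset.sum_pos' (fun i _ => hb0 i y) ⟨e ⟨z, hz⟩, Finset.mem_univ _, ?_⟩
    apply Real.smoothTransition.pos_of_pos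
    have h2 : x (e ⟨z, hz⟩) = z := by simp [x]
    rw [h2]
    have h3 : ‖y - z‖ < δ := by rwa [← dist_eq_norm]
    nlinarith [norm_nonneg (y - z)]
  refine ⟨t.card, x, fun i y => b i y / B y, fun i => htS _ (e.symm i).2, ?_, ?_, ?_⟩
  · intro i y hy
    have h1 : ContDiffAt ℝ ((⊤ : ℕ∞) : WithTop ℕ∞) B y :=
      (ContDiff.sum fun i _ => hbc i).contDiffAt
    exact (hbc i).contDiffAt.div h1 (hBpos y hy).ne'
  · intro i y hy
    by_contra hcon
    apply hy
    have h1 : δ ≤ ‖y - x i‖ := by rw [← dist_eq_norm]; exact not_lt.1 hcon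
    have h2 : b i y = 0 := Real.smoothTransition.zero_of_nonpos (by nlinarith)
    show b i y / B y = 0
    rw [h2, zero_div]
  · intro y hy
    show ∑ i, b i y / B y = 1
    rw [← Finset.sum_div]
    exact div_self (hBpos y hy).ne'

/-- a chain of derivatives along the rotation -/
def Chain (q : E n × E n) (H : ℕ → E n → ℝ) : Prop :=
  ∀ x ∈ S n, ∀ j t, HasDerivAt (fun t => H j (rot q t x)) (H (j + 1) (rot q t x)) t

lemma bdd_on {f : E n → ℝ} (hf : ContinuousOn f (S n)) : ∃ M, 0 ≤ M ∧ ∀ x ∈ S n, |f x| ≤ M := by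
  obtain ⟨M, hM⟩ := (isCompact_sphere (0 : E n) 1).exists_bound_of_continuousOn hf
  exact ⟨max M 0, le_max_right _ _, fun x hx => (hM x hx).trans (le_max_left _ _)⟩

lemma measurable_of_contOn {f : E n → ℝ} (hf : ContinuousOn f (S n)) :
    Continuous fun x : S n => f x :=
  continuousOn_iff_continuous_domRestrict.1 hf

theorem patch {q : E n × E n} (hq : ON q) {k : ℕ} (hk : 1 ≤ k) (x0 : E n) {δ : ℝ} (hδ : 0 < δ)
    {χ : E n → ℝ} (hχ : Sm χ) (hs : ∀ y, χ y ≠ 0 → dist y x0 < δ / 2) :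
    ∃ C : ℝ, 0 ≤ C ∧ ∀ (H : ℕ → E n → ℝ) (lam K2 : ℝ), Chain q H → ContinuousOn (H 0) (S n) →
      0 < lam → 0 ≤ K2 → (∀ y ∈ S n, dist y x0 < δ → lam ≤ |H k y|) →
      (∀ y ∈ S n, |H 2 y| ≤ K2 * lam) →
      ‖∫ x : S n, (χ x : ℂ) * Complex.exp (H 0 x * Complex.I) ∂(sm n)‖ ≤
        C * (1 + K2) * lam ^ (-(1 / (k:ℝ))) := by
  obtain ⟨K, hK, hv⟩ := vdc k hk
  obtain ⟨M1, hM1, hM1'⟩ := bdd_on hχ.continuousOn
  obtain ⟨M2, hM2, hM2'⟩ := bdd_on (hχ.dR q).continuousOn
  set T : ℝ := δ / 4 with hT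
  have hT0 : 0 < T := by positivity
  refine ⟨K * (1 + T) ^ 2 * (M1 + M2) * (sm n).real univ / T, by positivity, ?_⟩
  intro H lam K2 hH hH0 hlam hK2 h1 h2
  set F : S n → ℂ := fun x => (χ x : ℂ) * Complex.exp (H 0 x * Complex.I) with hF
  have hFc : Continuous F := by
    have h3 := measurable_of_contOn hχ.continuousOn
    have h4 := measurable_of_contOn hH0
    exact (Complex.continuous_ofReal.comp h3).mul
      (Complex.continuous_exp.comp ((Complex.continuous_ofReal.comp h4).mul continuous_const))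
  have hFb : ∀ x, ‖F x‖ ≤ M1 := by
    intro x
    rw [hF]
    simp only
    rw [norm_mul, Complex.norm_exp_ofReal_mul_I, mul_one, Complex.norm_real]
    exact hM1' x x.2
  set D : ℝ := K * (1 + T) ^ 2 * (1 + K2) * (M1 + M2) * lam ^ (-(1 / (k : ℝ))) with hD
  have hD0 : 0 ≤ D := by
    have := Real.rpow_nonneg hlam.le (-(1 / (k : ℝ)))
    positivity
  have key : ∀ x : S n, ‖∫ t in (0:ℝ)..T, F (rotS hq t x)‖ ≤ D := by
    intro x
    by_cases hex : ∃ t0 ∈ Icc 0 T, χ (rot q t0 x) ≠ 0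
    · obtain ⟨t0, ht0, hne⟩ := hex
      have hclose : ∀ t ∈ Icc 0 T, dist (rot q t x) x0 < δ := by
        intro t ht
        have h3 := dist_rot_le hq x.2 t t0
        have h4 := hs _ hne
        have h5 : |t - t0| ≤ T := by
          rw [abs_le]
          constructor
          · linarith [ht.1, ht0.2]
          · linarith [ht.2, ht0.1]
        calc dist (rot q t x) x0 ≤ dist (rot q t x) (rot q t0 x) + dist (rot q t0 x) x0 :=
              dist_triangle _ _ _
          _ < 2 * |t - t0| + δ / 2 := by linarith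
          _ ≤ δ := by rw [hT] at h5; linarith
      have h6 := hv T hT0.le (fun j t => H j (rot q t x)) (fun j t _ => hH x x.2 j t)
        (fun t => χ (rot q t x)) (fun t => dR q χ (rot q t x))
        (fun t _ => by simpa using hχ.hasDerivAt hq x.2 0 t)
        (by
          have h7 := (hχ.dR q).continuousOn
          refine h7.comp ?_ fun t _ => rot_mem hq t x.2
          exact ((continuous_rot q).comp (continuous_id.prodMk continuous_const)).continuousOn)
        (M1 + M2) lam K2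
        (fun t _ => ⟨(hM1' _ (rot_mem hq t x.2)).trans (by linarith),
          (hM2' _ (rot_mem hq t x.2)).trans (by linarith)⟩)
        hlam hK2 (fun t ht => h1 _ (rot_mem hq t x.2) (hclose t ht))
        (fun _ t _ => h2 _ (rot_mem hq t x.2))
      exact h6
    · push Not at hex
      have h3 : ∫ t in (0:ℝ)..T, F (rotS hq t x) = 0 := by
        rw [← intervalIntegral.integral_zero (μ := volume) (a := (0:ℝ)) (b := T) (E := ℂ)]
        refine intervalIntegral.integral_congr fun t ht => ?_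
        rw [uIcc_of_le hT0.le] at ht
        have h4 := hex t ht
        show F (rotS hq t x) = 0
        rw [hF]
        simp only
        rw [rotS_coe, h4]
        simp
      rw [h3, norm_zero]
      exact hD0
  have havg := integral_avg hq hT0 F hFc.measurable M1 hFb
  have h3 : ‖(T : ℂ) * ∫ x, F x ∂(sm n)‖ ≤ D * (sm n).real univ := by
    rw [havg]
    exact norm_integral_le_of_norm_le_const (Eventually.of_forall key)
  rw [norm_mul, Complex.norm_real, Real.norm_eq_abs, abs_of_pos hT0] at h3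
  have h4 : ‖∫ x, F x ∂(sm n)‖ ≤ D * (sm n).real univ / T := by
    rw [le_div_iff₀ hT0]
    linarith
  refine h4.trans (le_of_eq ?_)
  rw [hD]
  ring

lemma dR_zero (q : E n × E n) : dR q (fun _ => 0) = fun _ => 0 := by
  funext x
  unfold dR
  simp

lemma dR_smul (q : E n × E n) (l : ℝ) (f : E n → ℝ) :
    dR q (fun x => l * f x) = fun x => l * dR q f x := by
  funext x
  unfold dR
  have h1 : (fun x => l * f x) = l • f := rfl
  rw [h1, fderiv_const_smul_field]
  rfl

lemma iter_zero (q : E n × E n) (j : ℕ) : (dR q)^[j] (fun _ => 0) = fun _ => 0 := by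
  induction j with
  | zero => rfl
  | succ j ih => rw [Function.iterate_succ_apply', ih, dR_zero]

lemma iter_smul (q : E n × E n) (l : ℝ) (f : E n → ℝ) (j : ℕ) :
    (dR q)^[j] (fun x => l * f x) = fun x => l * (dR q)^[j] f x := by
  induction j with
  | zero => rfl
  | succ j ih => rw [Function.iterate_succ_apply', ih, dR_smul, Function.iterate_succ_apply']

variable {ι : Type} [Fintype ι]

lemma cmb_le {f : ι → E n → ℝ} (hf : ∀ i, Sm (f i)) (q : E n × E n) (j : ℕ) :
    ∃ M : ℝ, 0 ≤ M ∧ ∀ (a : ι → ℝ), ∀ x ∈ S n, |cmb f q j a x| ≤ M * ‖a‖ := by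
  have h1 : ∀ i, ∃ M, 0 ≤ M ∧ ∀ x ∈ S n, |(dR q)^[j] (f i) x| ≤ M :=
    fun i => bdd_on ((hf i).iter q j).continuousOn
  choose M hM hM' using h1
  refine ⟨∑ i, M i, Finset.sum_nonneg fun i _ => hM i, fun a x hx => ?_⟩
  unfold cmb
  rw [Finset.sum_mul]
  refine (Finset.abs_sum_le_sum_abs _ _).trans (Finset.sum_le_sum fun i _ => ?_)
  rw [abs_mul, mul_comm]
  have h2 : |a i| ≤ ‖a‖ := by
    have := norm_le_pi_norm a i
    rwa [Real.norm_eq_abs] at this
  exact mul_le_mul (hM' i x hx) h2 (abs_nonneg _) (hM i)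

end Pool.Agent.VANn
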