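import Pool.Agent.VANn.LS
import Pool.Agent.VANn.G

/-!
The restriction theorem in `R^(m+1)` and in higher dimensions for nonflat families, over the estimate
for one smooth phase in `R^(m+1)`, in the full conjectured range of exponents.
-/

namespace Pool.Agent.VANn

open MeasureTheory Set Pool.Agent.MP_6cbfb8_an Pool.Agent.VAN
open scoped ENNReal Real

/-- The conjectured threshold for the sphere of dimension `m`, that is, for `n = m + 1`. -/
lemma one_le_thr {m : ℕ} (hm : 1 ≤ m) : 1 ≤ 2 * ((m : ℝ) + 1) / m := by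
  have h0 : (1:ℝ) ≤ m := by exact_mod_cast hm
  rw [le_div_iff₀ (by positivity)]
  linarith

/-- Superpositions in `R^(m+1)`. -/
theorem res_mix {m : ℕ} (hm : 2 ≤ m) (H : OneLoss (m + 1) (2 * ((m : ℝ) + 1) / m)) {d : ℕ}
    {φ : Fin d → E (m + 1) → ℝ} (hφ : Nonflat φ) (N : ℕ) (p : ℝ)
    (hp : 2 * ((m : ℝ) + 1) / m < p) : ∃ C : ℝ≥0∞, C ≠ ∞ ∧
      ∀ (W : Type) (_ : MeasurableSpace W) (ν : Measure W) (_ : IsFiniteMeasure ν)
        (R : W → (E (m + 1) ≃ₗᵢ[ℝ] E (m + 1))) (η : W → E (m + 1)) (a : W → Fin d → ℝ)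
        (b : W → Fin N → Fin d → ℝ),
        (Measurable fun q : W × E (m + 1) => R q.1 q.2) → Measurable η → Measurable a →
        Measurable b →
        ∫⁻ ξ, ‖extn (mix ν R η fun t => famc φ (a t) (b t)) ξ‖ₑ ^ p ≤ C * ν univ ^ p := by
  have h1 := one_le_thr (m := m) (by omega)
  obtain ⟨C, hC, h⟩ := main_nf (by omega) h1 φ hφ (loss_of_one H φ hφ.1) N p hp
  exact ⟨C, hC, mix_of (fun i x hx => (hφ.1 i x hx).continuousAt.continuousWithinAt)
    (by linarith) h⟩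

/-- Superpositions in `R^(m+l)`, `l ≥ 2`. -/
theorem res_mixhigh {m : ℕ} (hm : 2 ≤ m) (H : OneLoss (m + 1) (2 * ((m : ℝ) + 1) / m)) {d : ℕ}
    {φ : Fin d → E (m + 1) → ℝ} (hφ : Nonflat φ) (N M l : ℕ) (hl : 2 ≤ l) (p : ℝ)
    (hp : 2 * ((m : ℝ) + l) / (m + l - 1) < p) :
    ∃ C : ℝ≥0∞, C ≠ ∞ ∧
      ∀ (W : Type) (_ : MeasurableSpace W) (ν : Measure W) (_ : IsFiniteMeasure ν)
        (R : W → (E (m + l) ≃ₗᵢ[ℝ] E (m + l))) (η : W → E (m + l)) (a : W → Fin d → ℝ)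
        (b : W → Fin N → Fin d → ℝ) (v : W → Fin M → E (m + l)) (c : W → Fin M → ℝ),
        (Measurable fun q : W × E (m + l) => R q.1 q.2) → Measurable η → Measurable a →
        Measurable b → Measurable v → Measurable c →
        ∫⁻ ξ, ‖extn (mix ν R η fun t x =>
          lift (famc φ (a t) (b t)) x * ∏ i, hsn (c t i) (v t i) x) ξ‖ₑ ^ p ≤
            C * ν univ ^ p := by
  have h1 := one_le_thr (m := m) (by omega)
  obtain ⟨κ, rfl⟩ : ∃ κ, m = κ + 1 := ⟨m - 1, by omega⟩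
  have hκ0 : (0:ℝ) ≤ κ := Nat.cast_nonneg κ
  refine mixhigh_of (κ := κ) (by omega) N (f := φ)
    (fun i x hx => (hφ.1 i x hx).continuousAt.continuousWithinAt)
    (fun p hp => main_nf (by omega) h1 φ hφ (loss_of_one H φ hφ.1) N p ?_) M l hl p ?_
  · refine lt_of_eq_of_lt ?_ hp
    push_cast
    congr 1
    ring
  · refine lt_of_eq_of_lt ?_ hp
    push_cast
    congr 1
    ring

end Pool.Agent.VANn
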