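import Pool.Agent.VANn.FTK
import Pool.Agent.GNP.M7

/-!
Phases on the unit sphere of `R^n` whose tangential Hessians are at no point near a multiple of the
metric on a large subspace: they are of type two, they satisfy `MopS`, and the class is stable.
-/

namespace Pool.Agent.VANn

open MeasureTheory Set Metric Module Pool.Agent.MP_6cbfb8_an Pool.Agent.VAN Pool.Agent.GNP
open scoped ENNReal Real ContDiff Topology

variable {n : ℕ}

/-- For every real `μ` and every subspace `W` of `x^⊥` of codimension less than `j` in `x^⊥`, the form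
`D²φ(x) - μ ⟨,⟩`, restricted to `W × x^⊥`, has norm at least `κ`: the eigenvalues of the tangential
Hessian at `x` do not concentrate, `n - j` of them never lie within `κ` of a point. -/
def MultQ (n j : ℕ) (κ : ℝ) (φ : E n → ℝ) (x : E n) : Prop :=
  ∀ (μ : ℝ) (W : Submodule ℝ (E n)), (∀ w ∈ W, inner ℝ x w = (0 : ℝ)) →
    n < finrank ℝ W + j + 1 → ∃ w ∈ W, ∃ u : E n, ‖w‖ ≤ 1 ∧ ‖u‖ ≤ 1 ∧ inner ℝ x u = (0 : ℝ) ∧
      κ ≤ |fderiv ℝ (fderiv ℝ φ) x w u - μ * inner ℝ w u|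

theorem MultQ.mono {j j' : ℕ} {κ κ' : ℝ} {φ : E n → ℝ} {x : E n} (h : MultQ n j' κ' φ x)
    (hj : j ≤ j') (hκ : κ ≤ κ') : MultQ n j κ φ x := by
  intro μ W hW hd
  obtain ⟨w, hw, u, h1, h2, h3, h4⟩ := h μ W hW (by omega)
  exact ⟨w, hw, u, h1, h2, h3, hκ.trans h4⟩

/-- The values of a bounded bilinear form on the unit ball. -/
theorem bil_le {T : E n →L[ℝ] E n →L[ℝ] ℝ} {b : ℝ} (hT : ‖T‖ ≤ b) {v v' : E n} (hv : ‖v‖ ≤ 1)
    (hv' : ‖v'‖ ≤ 1) : |T v v'| ≤ b := by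
  have hb : 0 ≤ b := (norm_nonneg T).trans hT
  rw [← Real.norm_eq_abs]
  calc ‖T v v'‖ ≤ ‖T v‖ * ‖v'‖ := (T v).le_opNorm v'
    _ ≤ (‖T‖ * ‖v‖) * ‖v'‖ := by
        gcongr
        exact T.le_opNorm v
    _ ≤ (b * 1) * 1 := by gcongr
    _ = b := by ring

/-- The class satisfies `MopS`. -/
theorem MultQ.mopS {j : ℕ} {κ B : ℝ} {φ : E n → ℝ} {x : E n} (h : MultQ n j κ φ x) (hκ : 0 < κ)
    (hB : ‖fderiv ℝ (fderiv ℝ φ) x‖ ≤ B) : MopS n j (κ / (B + 1)) φ x := by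
  have hB0 : 0 ≤ B := (norm_nonneg (fderiv ℝ (fderiv ℝ φ) x)).trans hB
  intro μ W hW hd
  obtain ⟨w, hw, u, h1, h2, h3, h4⟩ := h μ W hW hd
  refine ⟨w, hw, u, 0, h1, h2, h3, fun v v' hv hv' _ _ => ?_⟩
  rw [zero_mul, sub_zero]
  refine le_trans ?_ h4
  calc κ / (B + 1) * |fderiv ℝ (fderiv ℝ φ) x v v'| ≤ κ / (B + 1) * (B + 1) := by
        gcongr
        linarith [bil_le hB hv hv']
    _ = κ := by field_simp

/-- The class is stable. -/
theorem MultQ.stable {j : ℕ} {κ δ : ℝ} {φ ψ : E n → ℝ} {x : E n} (h : MultQ n j κ φ x)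
    (hδ : ‖fderiv ℝ (fderiv ℝ ψ) x - fderiv ℝ (fderiv ℝ φ) x‖ ≤ δ) : MultQ n j (κ - δ) ψ x := by
  intro μ W hW hd
  obtain ⟨w, hw, u, h1, h2, h3, h4⟩ := h μ W hW hd
  refine ⟨w, hw, u, h1, h2, h3, ?_⟩
  have h5 := bil_le hδ h1 h2
  have h6 : (fderiv ℝ (fderiv ℝ ψ) x - fderiv ℝ (fderiv ℝ φ) x) w u =
      fderiv ℝ (fderiv ℝ ψ) x w u - fderiv ℝ (fderiv ℝ φ) x w u := rfl
  rw [h6] at h5
  have h7 := abs_sub_abs_le_abs_sub (fderiv ℝ (fderiv ℝ φ) x w u - μ * inner ℝ w u)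
    (fderiv ℝ (fderiv ℝ ψ) x w u - μ * inner ℝ w u)
  have h8 : |fderiv ℝ (fderiv ℝ φ) x w u - μ * inner ℝ w u -
      (fderiv ℝ (fderiv ℝ ψ) x w u - μ * inner ℝ w u)| ≤ δ := by
    rw [abs_sub_comm]
    refine le_trans (le_of_eq ?_) h5
    congr 1
    ring
  linarith

/-- A phase without eigenvalues of high multiplicity belongs to one of the classes, with all phases
whose second derivatives on the sphere are near. -/
theorem multQ_of_mult {j : ℕ} {φ : E n → ℝ} (hφ : ∀ x, ‖x‖ = 1 → ContDiffAt ℝ 2 φ x)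
    (h : MultLt n j φ) : ∃ κ : ℝ, 0 < κ ∧ ∀ ψ : E n → ℝ, ∀ x : E n, ‖x‖ = 1 →
      ‖fderiv ℝ (fderiv ℝ ψ) x - fderiv ℝ (fderiv ℝ φ) x‖ ≤ κ → MultQ n j κ ψ x := by
  obtain ⟨c, B, hc, -, hcB⟩ := h.bound hφ
  refine ⟨c / 2, by positivity, fun ψ x hx hψ => ?_⟩
  have h1 : MultQ n j c φ x := by
    intro μ W hW hd
    obtain ⟨w, hw, u, h1, h2, h3, h4⟩ := (hcB x hx).2 μ W hW hd
    exact ⟨w, hw, u, h1.le, h2.le, h3, h4.trans (le_abs_self _)⟩
  have h2 := h1.stable hψ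
  rwa [sub_half] at h2

namespace FT

theorem gen_self {x v : E n} (h : OP x v) : gen x v x = v := by
  rw [gen_apply, h.aa, h.ba]
  simp

theorem gen_gen {x v : E n} (h : OP x v) : gen x v v = -x := by
  rw [gen_apply, h.bb, h.2.2]
  simp

theorem XX_one {f : E n → ℝ} {x v : E n} (h : OP x v) : XX x v f x = fderiv ℝ f x v := by
  unfold XX
  rw [gen_self h]

theorem XX_two {f : E n → ℝ} {x v : E n} (hf : ContDiffAt ℝ 2 f x) (h : OP x v) :
    (XX x v)^[2] f x = fderiv ℝ (fderiv ℝ f) x v v - fderiv ℝ f x x := by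
  have h0 : DifferentiableAt ℝ (fderiv ℝ f) x :=
    (hf.fderiv_right (m := 1) (by norm_num)).differentiableAt (by norm_num)
  have h1 : (XX x v)^[2] f x = XX x v (XX x v f) x := rfl
  rw [h1, XX_one h]
  have h2 : HasFDerivAt (XX x v f)
      ((fderiv ℝ f x).comp (gen x v) + (fderiv ℝ (fderiv ℝ f) x).flip (gen x v x)) x := by
    unfold XX
    exact h0.hasFDerivAt.clm_apply (gen x v).hasFDerivAt
  rw [h2.fderiv]
  simp only [add_apply, ContinuousLinearMap.comp_apply, ContinuousLinearMap.flip_apply]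
  rw [gen_self h, gen_gen h, map_neg]
  ring

/-- Polarisation: a symmetric form which is small on the diagonal of `x^⊥` is small. -/
theorem polar_le {T : E n →L[ℝ] E n →L[ℝ] ℝ} {x : E n} {μ b : ℝ}
    (hs : ∀ v w, T v w = T w v)
    (h : ∀ v : E n, ‖v‖ = 1 → inner ℝ x v = (0 : ℝ) → |T v v - μ| ≤ b) {w u : E n} (hw : ‖w‖ ≤ 1)
    (hu : ‖u‖ ≤ 1) (hxw : inner ℝ x w = (0 : ℝ)) (hxu : inner ℝ x u = (0 : ℝ)) (hb : 0 ≤ b) :
    |T w u - μ * inner ℝ w u| ≤ b := by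
  have hq : ∀ v : E n, inner ℝ x v = (0 : ℝ) → |T v v - μ * ‖v‖ ^ 2| ≤ b * ‖v‖ ^ 2 := by
    intro v hv
    rcases eq_or_ne v 0 with rfl | hne
    · simp
    · have hn : 0 < ‖v‖ := norm_pos_iff.2 hne
      have h1 := h (‖v‖⁻¹ • v) (by rw [norm_smul, norm_inv, norm_norm, inv_mul_cancel₀ hn.ne'])
        (by rw [inner_smul_right, hv, mul_zero])
      have h2 : T (‖v‖⁻¹ • v) (‖v‖⁻¹ • v) = (‖v‖ ^ 2)⁻¹ * T v v := by
        rw [map_smul, map_smul, smul_apply, smul_eq_mul, smul_eq_mul]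
        field_simp
      rw [h2] at h1
      have h3 : T v v - μ * ‖v‖ ^ 2 = ‖v‖ ^ 2 * ((‖v‖ ^ 2)⁻¹ * T v v - μ) := by
        field_simp
      rw [h3, abs_mul, abs_of_pos (by positivity), mul_comm b]
      exact mul_le_mul_of_nonneg_left h1 (by positivity)
  have h1 := hq (w + u) (by rw [inner_add_right, hxw, hxu, add_zero])
  have h2 := hq (w - u) (by rw [inner_sub_right, hxw, hxu, sub_zero])
  have e1 : T (w + u) (w + u) = T w w + 2 * T w u + T u u := by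
    simp only [map_add, add_apply]
    rw [hs u w]
    ring
  have e2 : T (w - u) (w - u) = T w w - 2 * T w u + T u u := by
    simp only [map_sub, sub_apply]
    rw [hs u w]
    ring
  have n1 : ‖w + u‖ ^ 2 = ‖w‖ ^ 2 + 2 * inner ℝ w u + ‖u‖ ^ 2 := norm_add_sq_real w u
  have n2 : ‖w - u‖ ^ 2 = ‖w‖ ^ 2 - 2 * inner ℝ w u + ‖u‖ ^ 2 := norm_sub_sq_real w u
  rw [e1, n1] at h1
  rw [e2, n2] at h2
  have hw2 : ‖w‖ ^ 2 ≤ 1 := pow_le_one₀ (norm_nonneg _) hw
  have hu2 : ‖u‖ ^ 2 ≤ 1 := pow_le_one₀ (norm_nonneg _) hu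
  rw [abs_le] at h1 h2 ⊢
  constructor <;> nlinarith [h1.1, h1.2, h2.1, h2.2, mul_le_mul_of_nonneg_left hw2 hb,
    mul_le_mul_of_nonneg_left hu2 hb]

/-- **The class is of type two**, with a constant which depends on `κ` and on the bounds of the
derivatives of order one and two only. -/
theorem typ_of_multQ (hn : 2 ≤ n) {κ B1 B2 : ℝ} (hκ : 0 < κ) (hB1 : 0 ≤ B1) (hB2 : 0 ≤ B2) :
    ∃ c : ℝ, 0 < c ∧ ∀ φ : E n → ℝ, (∀ x, ‖x‖ = 1 → ContDiffAt ℝ 2 φ x) →
      (∀ x, ‖x‖ = 1 → ‖fderiv ℝ φ x‖ ≤ B1) → (∀ x, ‖x‖ = 1 → ‖fderiv ℝ (fderiv ℝ φ) x‖ ≤ B2) →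
      (∀ x, ‖x‖ = 1 → MultQ n 1 κ φ x) → ∀ a : ℝ, Typ 2 c |a| (fun y => a * φ y) := by
  set D : ℝ := 2 * ((1 + 2 * B1 + B2) / κ + 2) with hD
  have hD0 : 0 < D := by positivity
  refine ⟨1 / D, by positivity, fun φ hφ h1 h2 hM a x ζ hx => ?_⟩
  by_contra hcon
  push Not at hcon
  set T : ℝ := |a| + ‖ζ‖ with hT
  have hT0 : 0 ≤ T := by positivity
  set b : ℝ := 1 / D * T with hb
  have hb0 : 0 ≤ b := by positivity
  have hφx := hφ x hx
  have hd1 : DifferentiableAt ℝ φ x := hφx.differentiableAt (by norm_num)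
  have hfs : ContDiffAt ℝ 2 (fun y => a * φ y + inner ℝ y ζ) x :=
    (contDiffAt_const.mul hφx).add (contDiffAt_id.inner ℝ contDiffAt_const)
  -- the derivatives
  have hev : ∀ᶠ y in 𝓝 x, DifferentiableAt ℝ φ y := by
    filter_upwards [(hφx.of_le (by norm_num : (1 : WithTop ℕ∞) ≤ 2)).eventually (by simp)] with y hy
    exact hy.differentiableAt (by norm_num)
  have hD1 : ∀ y, DifferentiableAt ℝ φ y →
      fderiv ℝ (fun y => a * φ y + inner ℝ y ζ) y = a • fderiv ℝ φ y + innerSL ℝ ζ := by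
    intro y hy
    have e1 : HasFDerivAt (fun y : E n => (inner ℝ y ζ : ℝ)) (innerSL ℝ ζ) y := by
      have e2 : (fun y : E n => (inner ℝ y ζ : ℝ)) = fun y => innerSL ℝ ζ y := by
        funext y
        rw [innerSL_apply_apply, real_inner_comm]
      rw [e2]
      exact (innerSL ℝ ζ).hasFDerivAt
    exact ((hy.hasFDerivAt.const_mul a).add e1).fderiv
  have hD2 : fderiv ℝ (fderiv ℝ fun y => a * φ y + inner ℝ y ζ) x = a • fderiv ℝ (fderiv ℝ φ) x := by
    have e1 : (fderiv ℝ fun y => a * φ y + inner ℝ y ζ) =ᶠ[𝓝 x]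
        fun y => a • fderiv ℝ φ y + innerSL ℝ ζ := by
      filter_upwards [hev] with y hy
      exact hD1 y hy
    rw [e1.fderiv_eq, fderiv_add_const]
    have e2 : DifferentiableAt ℝ (fderiv ℝ φ) x :=
      (hφx.fderiv_right (m := 1) (by norm_num)).differentiableAt (by norm_num)
    exact fderiv_const_smul e2 a
  set P := fderiv ℝ (fderiv ℝ φ) x with hP
  -- the assumptions for the unit vectors orthogonal to `x`
  have k1 : ∀ v : E n, ‖v‖ = 1 → inner ℝ x v = (0 : ℝ) →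
      |a * fderiv ℝ φ x v + inner ℝ ζ v| < b := by
    intro v hv hxv
    have h3 := hcon x v ⟨hx, hv, hxv⟩ 1 le_rfl (by norm_num)
    rw [Function.iterate_one, XX_one ⟨hx, hv, hxv⟩, hD1 x hd1] at h3
    exact h3
  have k2 : ∀ v : E n, ‖v‖ = 1 → inner ℝ x v = (0 : ℝ) →
      |a * P v v - (a * fderiv ℝ φ x x + inner ℝ ζ x)| < b := by
    intro v hv hxv
    have h3 := hcon x v ⟨hx, hv, hxv⟩ 2 (by norm_num) le_rfl
    rw [XX_two hfs ⟨hx, hv, hxv⟩, hD1 x hd1, hD2] at h3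
    exact h3
  obtain ⟨v0, hv0, hxv0⟩ := exists_unit_orth hn x
  have hbpos : 0 < b := (abs_nonneg _).trans_lt (k1 v0 hv0 hxv0)
  -- `|a|` is small
  set m : ℝ := a * fderiv ℝ φ x x + inner ℝ ζ x with hm
  have ka : |a| * κ ≤ b := by
    rcases eq_or_ne a 0 with rfl | ha
    · simpa using hb0
    · obtain ⟨w, hw, u, hw1, hu1, hxu, hwu⟩ := hM x hx (m / a) (ℝ ∙ x)ᗮ
        (fun w hw => Submodule.mem_orthogonal_singleton_iff_inner_right.1 hw) (by
          have h3 := Submodule.finrank_add_finrank_orthogonal (ℝ ∙ x)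
          rw [finrank_span_singleton (by rintro rfl; simp at hx), finrank_euclideanSpace_fin] at h3
          omega)
      have hxw : inner ℝ x w = (0 : ℝ) := Submodule.mem_orthogonal_singleton_iff_inner_right.1 hw
      have hsym : ∀ v w, (a • P) v w = (a • P) w v := by
        intro v w
        have h3 : IsSymmSndFDerivAt ℝ φ x := hφx.isSymmSndFDerivAt (by simp)
        rw [smul_apply, smul_apply, smul_apply, smul_apply, hP, h3 v w]
      have h4 := polar_le (T := a • P) (μ := m) hsym (fun v hv hxv => by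
        have := (k2 v hv hxv).le
        simpa only [smul_apply, smul_eq_mul] using this) hw1 hu1 hxw hxu hb0
      have h5 : (a • P) w u - m * inner ℝ w u = a * (P w u - m / a * inner ℝ w u) := by
        simp only [smul_apply, smul_eq_mul]
        field_simp
      rw [h5, abs_mul] at h4
      exact (mul_le_mul_of_nonneg_left hwu (abs_nonneg a)).trans h4
  -- the bounds of the derivatives
  have b1 : ∀ v : E n, ‖v‖ = 1 → |a * fderiv ℝ φ x v| ≤ |a| * B1 := by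
    intro v hv
    rw [abs_mul]
    refine mul_le_mul_of_nonneg_left ?_ (abs_nonneg a)
    rw [← Real.norm_eq_abs]
    refine ((fderiv ℝ φ x).le_opNorm v).trans ?_
    rw [hv, mul_one]
    exact h1 x hx
  have b2 : |a * P v0 v0| ≤ |a| * B2 := by
    rw [abs_mul]
    exact mul_le_mul_of_nonneg_left (bil_le (h2 x hx) hv0.le hv0.le) (abs_nonneg a)
  -- the radial part of `ζ`
  have r1 : |(inner ℝ ζ x : ℝ)| ≤ |a| * B1 + |a| * B2 + b := by
    have h3 := (k2 v0 hv0 hxv0).le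
    have h4 := b1 x hx
    rw [hm] at h3
    rw [abs_le] at h3 h4 b2 ⊢
    constructor <;> linarith [h3.1, h3.2, h4.1, h4.2, b2.1, b2.2]
  -- the tangential part
  have r2 : ‖ζ - (inner ℝ ζ x : ℝ) • x‖ ≤ |a| * B1 + b := by
    rcases eq_or_ne (ζ - (inner ℝ ζ x : ℝ) • x) 0 with h0 | h0
    · rw [h0, norm_zero]
      positivity
    · set z := ζ - (inner ℝ ζ x : ℝ) • x with hz
      have hz0 : 0 < ‖z‖ := norm_pos_iff.2 h0
      have hxz : inner ℝ x z = (0 : ℝ) := by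
        rw [hz, inner_sub_right, inner_smul_right, real_inner_self_eq_norm_sq, hx,
          real_inner_comm ζ x]
        ring
      have hzu : ‖‖z‖⁻¹ • z‖ = 1 := by rw [norm_smul, norm_inv, norm_norm, inv_mul_cancel₀ hz0.ne']
      have h3 := (k1 (‖z‖⁻¹ • z) hzu (by rw [inner_smul_right, hxz, mul_zero])).le
      have h4 := b1 _ hzu
      have h5 : (inner ℝ ζ (‖z‖⁻¹ • z) : ℝ) = ‖z‖ := by
        have h6 : (inner ℝ ζ z : ℝ) = ‖z‖ ^ 2 := by
          have h7 : ζ = z + (inner ℝ ζ x : ℝ) • x := by rw [hz]; abel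
          calc (inner ℝ ζ z : ℝ) = inner ℝ (z + (inner ℝ ζ x : ℝ) • x) z := by rw [← h7]
            _ = ‖z‖ ^ 2 := by
                rw [inner_add_left, inner_smul_left, hxz, real_inner_self_eq_norm_sq]
                simp
        rw [inner_smul_right, h6]
        field_simp
      rw [h5] at h3
      rw [abs_le] at h3 h4
      linarith [h3.1, h3.2, h4.1, h4.2]
  have r3 : ‖ζ‖ ≤ |a| * (2 * B1 + B2) + 2 * b := by
    have h3 : ζ = (ζ - (inner ℝ ζ x : ℝ) • x) + (inner ℝ ζ x : ℝ) • x := by abel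
    calc ‖ζ‖ = ‖(ζ - (inner ℝ ζ x : ℝ) • x) + (inner ℝ ζ x : ℝ) • x‖ := by rw [← h3]
      _ ≤ ‖ζ - (inner ℝ ζ x : ℝ) • x‖ + ‖(inner ℝ ζ x : ℝ) • x‖ := norm_add_le _ _
      _ ≤ (|a| * B1 + b) + (|a| * B1 + |a| * B2 + b) := by
          refine add_le_add r2 ?_
          rw [norm_smul, hx, mul_one, Real.norm_eq_abs]
          exact r1
      _ = _ := by ring
  have r4 : |a| ≤ b / κ := by rw [le_div_iff₀ hκ]; exact ka
  have r5 : T ≤ D / 2 * b := by
    have h3 : |a| * (1 + 2 * B1 + B2) ≤ b / κ * (1 + 2 * B1 + B2) :=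
      mul_le_mul_of_nonneg_right r4 (by positivity)
    calc T = |a| + ‖ζ‖ := rfl
      _ ≤ |a| * (1 + 2 * B1 + B2) + 2 * b := by linarith
      _ ≤ b / κ * (1 + 2 * B1 + B2) + 2 * b := by linarith
      _ = D / 2 * b := by rw [hD]; ring
  have r6 : D / 2 * b = T / 2 := by
    rw [hb]
    field_simp
  have r7 : 0 < T := by
    by_contra hneg
    have : T = 0 := le_antisymm (not_lt.1 hneg) hT0
    rw [hb, this, mul_zero] at hbpos
    exact lt_irrefl _ hbpos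
  linarith

end FT

end Pool.Agent.VANn
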