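import Pool.Agent.VANn.FTK

/-!
Families of finite type, over an estimate with a small loss which is uniform on a class of phases
only.
-/

set_option autoImplicit false

namespace Pool.Agent.VANn

open MeasureTheory Set Metric Pool.Agent.MP_6cbfb8_an Pool.Agent.VAN
open scoped ENNReal Real

variable {n : ℕ}

/-- The estimate with a small loss for the phases `c φ`, `φ` in the class `PS`, on the unit sphere of
`R^n`, in the range `p > p0`: the constant depends on `φ` only through the bounds `B k` for its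
derivatives. -/
def LossC (n : ℕ) (p0 : ℝ) (PS : (E n → ℝ) → Prop) : Prop :=
  ∀ p : ℝ, p0 < p → ∀ ε : ℝ, 0 < ε → ∀ B : ℕ → ℝ, ∃ K : ℝ, 0 < K ∧ ∀ φ : E n → ℝ,
    (∀ x, ‖x‖ = 1 → ContDiffAt ℝ ((⊤ : ℕ∞) : WithTop ℕ∞) φ x) →
    (∀ k x, ‖x‖ = 1 → ‖iteratedFDeriv ℝ k φ x‖ ≤ B k) → PS φ → ∀ c : ℝ,
    ∫⁻ ξ, ‖extn (fun x => Complex.exp (((c * φ x : ℝ) : ℂ) * Complex.I)) ξ‖ₑ ^ p ≤
      ENNReal.ofReal (K * (1 + |c|) ^ ε)

namespace FT

/-- The estimate with a small loss for phases of the class with derivatives at most `B k * L`. -/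
theorem loss_sizeC {p0 : ℝ} {PS : (E n → ℝ) → Prop} (H : LossC n p0 PS)
    (hPS : ∀ φ, PS φ → ∀ r : ℝ, PS fun x => r * φ x) (p : ℝ) (hp : p0 < p) (ε : ℝ) (hε : 0 < ε)
    (B : ℕ → ℝ) :
    ∃ K : ℝ, 0 < K ∧ ∀ (L : ℝ) (ψ : E n → ℝ), 0 ≤ L →
      (∀ x, ‖x‖ = 1 → ContDiffAt ℝ ((⊤ : ℕ∞) : WithTop ℕ∞) ψ x) →
      (∀ k (x : E n), ‖x‖ = 1 → ‖iteratedFDeriv ℝ k ψ x‖ ≤ B k * L) → PS ψ →
      ∫⁻ ξ, ‖extn (fun x => Complex.exp (((ψ x : ℝ) : ℂ) * Complex.I)) ξ‖ₑ ^ p ≤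
        ENNReal.ofReal (K * (1 + L) ^ ε) := by
  obtain ⟨K, hK, h⟩ := H p hp ε hε fun k => |B k|
  refine ⟨K * 2 ^ ε, by positivity, fun L ψ hL hψ hB hP => ?_⟩
  have h1L : (0:ℝ) < 1 + L := by linarith
  have h1 := h (fun x => (1 + L)⁻¹ • ψ x) (fun x hx => (hψ x hx).const_smul _) (by
    intro k x hx
    have h2 : ContDiffAt ℝ k ψ x := (hψ x hx).of_le (by exact_mod_cast le_top)
    rw [iteratedFDeriv_const_smul_apply' h2, norm_smul, Real.norm_eq_abs, abs_inv,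
      abs_of_pos h1L]
    have h3 := hB k x hx
    have h4 : B k * L ≤ |B k| * (1 + L) :=
      mul_le_mul (le_abs_self _) (by linarith) hL (abs_nonneg _)
    calc (1 + L)⁻¹ * ‖iteratedFDeriv ℝ k ψ x‖ ≤ (1 + L)⁻¹ * (|B k| * (1 + L)) :=
          mul_le_mul_of_nonneg_left (h3.trans h4) (by positivity)
      _ = |B k| := by field_simp) (hPS ψ hP (1 + L)⁻¹) (1 + L)
  have e : (fun x : E n => Complex.exp ((((1 + L) * ((1 + L)⁻¹ • ψ x) : ℝ) : ℂ) * Complex.I)) =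
      fun x => Complex.exp (((ψ x : ℝ) : ℂ) * Complex.I) := by
    funext x
    rw [smul_eq_mul, ← mul_assoc, mul_inv_cancel₀ h1L.ne', one_mul]
  rw [e] at h1
  refine h1.trans (ENNReal.ofReal_le_ofReal ?_)
  rw [abs_of_pos h1L, mul_assoc, ← Real.mul_rpow (by norm_num) h1L.le]
  refine mul_le_mul_of_nonneg_left ?_ hK.le
  exact Real.rpow_le_rpow (by positivity) (by linarith) hε.le

/-- **The restriction estimate for smooth phases of type `m` in the class**, uniform in the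
phase. -/
theorem typ_boundC (hn : 2 ≤ n) {p0 : ℝ} (hp0 : 0 ≤ p0) {PS : (E n → ℝ) → Prop}
    (H : LossC n p0 PS) (hPS : ∀ φ, PS φ → ∀ r : ℝ, PS fun x => r * φ x) (m : ℕ) (hm : 1 ≤ m)
    (p : ℝ) (hp : p0 < p) (c : ℝ) (hc : 0 < c) (B : ℕ → ℝ) :
    ∃ C : ℝ≥0∞, C ≠ ∞ ∧ ∀ (L : ℝ) (ψ : E n → ℝ), 0 ≤ L →
      ContDiff ℝ ((⊤ : ℕ∞) : WithTop ℕ∞) ψ →
      (∀ (j : ℕ) (y : E n), ‖y‖ ≤ 2 → ‖iteratedFDeriv ℝ j ψ y‖ ≤ B j * L) →
      Typ m c L ψ → PS ψ →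
      ∫⁻ ξ, ‖extn (fun x => Complex.exp (((ψ x : ℝ) : ℂ) * Complex.I)) ξ‖ₑ ^ p ≤ C := by
  have hm0 : (0 : ℝ) < m := by exact_mod_cast hm
  set p1 : ℝ := (p0 + p) / 2 with hp1
  have h01 : p0 < p1 := by rw [hp1]; linarith
  have h1p : p1 < p := by rw [hp1]; linarith
  set e : ℝ := 1 / (m : ℝ) * (p - p1) with he
  have he0 : 0 < e := mul_pos (by positivity) (by linarith)
  obtain ⟨K, hK, H1⟩ := loss_sizeC H hPS p1 h01 e he0 B
  set B0 : ℝ := ∑ i ∈ Finset.range (m + 2), |B (i + 1)| with hB0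
  have hB00 : 0 ≤ B0 := Finset.sum_nonneg fun i _ => abs_nonneg _
  obtain ⟨C2, hC2, H2⟩ := decay_typ hn m hm hc hB00
  refine ⟨ENNReal.ofReal (C2 ^ (p - p1) * K), ENNReal.ofReal_ne_top,
    fun L ψ hL hψ hB hT hP => ?_⟩
  have h1L : (0:ℝ) < 1 + L := by linarith
  have hdec := H2 ψ L hL (contDiff_infty.1 hψ (m + 2)) (by
    intro z hz
    unfold J
    rw [hB0, Finset.sum_mul]
    refine Finset.sum_le_sum fun i _ => ?_
    refine (hB (i + 1) z (by linarith)).trans ?_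
    exact mul_le_mul_of_nonneg_right (le_abs_self _) hL) hT
  have hloss := H1 L ψ hL (fun x _ => hψ.contDiffAt)
    (fun k x hx => hB k x (by rw [hx]; norm_num)) hP
  have h1 := interp_set (volume : Measure (E n)) (p1 := p1) (p := p)
    (M := C2 * (1 + L) ^ (-(1 / (m : ℝ)))) (by linarith) h1p.le
    (extn (fun x => Complex.exp (((ψ x : ℝ) : ℂ) * Complex.I))) univ MeasurableSet.univ
    (by positivity) (fun ξ _ => hdec ξ)
  rw [Measure.restrict_univ] at h1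
  refine h1.trans ((mul_le_mul' le_rfl hloss).trans ?_)
  rw [← ENNReal.ofReal_mul (by positivity)]
  refine ENNReal.ofReal_le_ofReal (le_of_eq ?_)
  rw [Real.mul_rpow hC2 (by positivity), ← Real.rpow_mul h1L.le]
  have e1 : -(1 / (m : ℝ)) * (p - p1) = -e := by rw [he]; ring
  rw [e1]
  have e2 : (1 + L) ^ (-e) * (1 + L) ^ e = 1 := by
    rw [← Real.rpow_add h1L, neg_add_cancel, Real.rpow_zero]
  calc C2 ^ (p - p1) * (1 + L) ^ (-e) * (K * (1 + L) ^ e) =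
        C2 ^ (p - p1) * K * ((1 + L) ^ (-e) * (1 + L) ^ e) := by ring
    _ = C2 ^ (p - p1) * K := by rw [e2, mul_one]

/-- no cuts -/
theorem fin_nocutC (hn : 2 ≤ n) {p0 : ℝ} (hp0 : 0 ≤ p0) {PS : (E n → ℝ) → Prop}
    (H : LossC n p0 PS) (hPS : ∀ φ, PS φ → ∀ r : ℝ, PS fun x => r * φ x) {d : ℕ} (m : ℕ) (c : ℝ)
    (hc : 0 < c) (B : ℕ → ℝ) (p : ℝ) (hp : p0 < p) :
    ∃ C : ℝ≥0∞, C ≠ ∞ ∧ ∀ φ : Fin d → E n → ℝ, FinType m c B φ → (∀ a, PS (fam φ a)) →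
      ∀ a : Fin d → ℝ,
      ∫⁻ ξ, ‖extn (fun x => Complex.exp (((fam φ a x : ℝ) : ℂ) * Complex.I)) ξ‖ₑ ^ p ≤ C := by
  rcases Nat.eq_zero_or_pos m with rfl | hm
  · exact ⟨0, by simp, fun φ hφ _ a => absurd ((hφ.2.2 a).pos hn) (by norm_num)⟩
  obtain ⟨C, hC, H⟩ := typ_boundC hn hp0 H hPS m hm p hp c hc fun k => d * |B k|
  refine ⟨C, hC, fun φ hφ hP a => ?_⟩
  exact H ‖a‖ (fam φ a) (norm_nonneg _) (fam_smooth hφ.1 a)
    (fun j y hy => fam_iter_le hφ.1 hφ.2.1 a j hy) (hφ.2.2 a) (hP a)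

/-- the class of the families extended by the affine functions -/
def clsC {d : ℕ} (PS : (E n → ℝ) → Prop) (m : ℕ) (c : ℝ) (B : ℕ → ℝ)
    (Φ : Fin (d + (n + 1)) → E n → ℝ) : Prop :=
  ∃ φ : Fin d → E n → ℝ, FinType m c B φ ∧ (∀ a, PS (fam φ a)) ∧ Φ = Fin.append φ aff

theorem clsC.cls {d m : ℕ} {PS : (E n → ℝ) → Prop} {c : ℝ} {B : ℕ → ℝ}
    {Φ : Fin (d + (n + 1)) → E n → ℝ} (h : clsC PS m c B Φ) : FT.cls m c B Φ := by
  obtain ⟨φ, h1, -, h2⟩ := h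
  exact ⟨φ, h1, h2⟩

/-- extended families, with cuts -/
theorem cls_cutsC (hn : 2 ≤ n) {p0 : ℝ} (hp0 : 1 ≤ p0) {PS : (E n → ℝ) → Prop}
    (HL : LossC n p0 PS) (hPS : ∀ φ, PS φ → ∀ r : ℝ, PS fun x => r * φ x) {d : ℕ} (m : ℕ) (c : ℝ)
    (hc : 0 < c) (B : ℕ → ℝ) (N : ℕ) (p : ℝ) (hp : p0 < p) :
    ∃ C : ℝ≥0∞, C ≠ ∞ ∧ ∀ Φ : Fin (d + (n + 1)) → E n → ℝ, clsC PS m c B Φ →
      ∀ (a : Fin (d + (n + 1)) → ℝ) (b : Fin N → Fin (d + (n + 1)) → ℝ),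
        ∫⁻ ξ, ‖extn (famc Φ a b) ξ‖ₑ ^ p ≤ C := by
  obtain ⟨Ks, κs, hKs, hκs, hsub⟩ := cls_sub hn (d := d) m c hc B
  refine VAN.FT.cuts p0 hp0 (cls := clsC PS m c B)
    (fun Φ hΦ j => (cls_meas hΦ.cls j).measurable) ?_
    ⟨Ks, κs, hKs, hκs, fun Φ hΦ => hsub Φ hΦ.cls⟩ ?_ N p hp
  · refine ⟨|B 0| + 1, ?_⟩
    rintro Φ ⟨φ, hφ, -, rfl⟩ j x hx
    refine Fin.addCases (fun i => ?_) (fun i => ?_) j
    · rw [Fin.append_left]
      have h2 := hφ.2.1 i 0 x (by rw [hx]; norm_num)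
      rw [norm_iteratedFDeriv_zero] at h2
      rw [Real.norm_eq_abs] at h2
      linarith [le_abs_self (B 0)]
    · rw [Fin.append_right]
      linarith [abs_aff_le hx i, abs_nonneg (B 0)]
  · intro q hq
    obtain ⟨C, hC, H⟩ := fin_nocutC hn (by linarith) HL hPS (d := d) m c hc B q hq
    refine ⟨C, hC, ?_⟩
    rintro Φ ⟨φ, hφ, hP, rfl⟩ C'
    obtain ⟨a, b, rfl⟩ := append_split' C'
    have h2 := lint_phase (fun _ => 1) (φ := fam (Fin.append φ aff) (Fin.append a b))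
      (φ' := fam φ a) (ζ := WithLp.toLp 2 (fun j : Fin n => b (Fin.castSucc j))) (c := b (Fin.last n))
      (fun x _ => by
        rw [fam_append, fam_aff]
        ring) q
    simp only [mul_one] at h2
    rw [h2]
    exact H φ hφ hP a

/-- **The uniform estimate for families of finite type in the class, with cuts.** -/
theorem fin_boundC (hn : 2 ≤ n) {p0 : ℝ} (hp0 : 1 ≤ p0) {PS : (E n → ℝ) → Prop}
    (HL : LossC n p0 PS) (hPS : ∀ φ, PS φ → ∀ r : ℝ, PS fun x => r * φ x) {d : ℕ} (N m : ℕ)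
    (c : ℝ) (hc : 0 < c) (B : ℕ → ℝ) (p : ℝ) (hp : p0 < p) :
    ∃ C : ℝ≥0∞, C ≠ ∞ ∧ ∀ φ : Fin d → E n → ℝ, FinType m c B φ → (∀ a, PS (fam φ a)) →
      ∀ (a : Fin d → ℝ) (b : Fin N → Fin d → ℝ) (ζ : Fin N → E n) (κ : Fin N → ℝ),
        ∫⁻ ξ, ‖extn (famA φ a b ζ κ) ξ‖ₑ ^ p ≤ C := by
  obtain ⟨C, hC, H⟩ := cls_cutsC hn hp0 HL hPS (d := d) m c hc B N p hp
  refine ⟨C, hC, fun φ hφ hP a b ζ κ => ?_⟩
  have h := H (Fin.append φ aff) ⟨φ, hφ, hP, rfl⟩ (Fin.append a 0)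
    (fun i => Fin.append (b i) (Fin.snoc (fun j : Fin n => ζ i j) (κ i)))
  refine le_trans (le_of_eq ?_) h
  refine lintegral_congr fun ξ => ?_
  congr 3
  funext x
  unfold famA famc
  have h0 : fam (Fin.append φ aff) (Fin.append a 0) x = fam φ a x := by
    rw [fam_append]
    have : fam aff (0 : Fin (n + 1) → ℝ) x = 0 := by
      unfold fam
      simp
    rw [this, add_zero]
  rw [h0]
  congr 1
  refine Finset.prod_congr rfl fun i _ => ?_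
  have h1 : fam (Fin.append φ aff) (Fin.append (b i) (Fin.snoc (fun j : Fin n => ζ i j) (κ i))) x =
      fam φ (b i) x + inner ℝ x (ζ i) + κ i := by
    rw [fam_append, fam_aff]
    have e1 : (WithLp.toLp 2 (fun j : Fin n =>
        (Fin.snoc (fun j : Fin n => ζ i j) (κ i) : Fin (n + 1) → ℝ) (Fin.castSucc j)) : E n) = ζ i := by
      ext j
      simp
    have e2 : (Fin.snoc (fun j : Fin n => ζ i j) (κ i) : Fin (n + 1) → ℝ) (Fin.last n) = κ i :=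
      Fin.snoc_last (α := fun _ => ℝ) (κ i) (fun j : Fin n => ζ i j)
    rw [e1, e2]
    ring
  rw [h1]

end FT

/-- The densities `e^{iu} ∏_{i<N} 1_{v_i > 0}` on the unit sphere of `R^n`, where `u` is a linear
combination, and `v_i` a linear combination plus an affine function, of the members of some family
`φ_1, …, φ_d` of finite type with the constants `m`, `c`, `B`, all of whose linear combinations
belong to the class `PS`. -/
def DensC (PS : (E n → ℝ) → Prop) (d N m : ℕ) (c : ℝ) (B : ℕ → ℝ) (g : E n → ℂ) : Prop :=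
  ∃ (φ : Fin d → E n → ℝ) (a : Fin d → ℝ) (b : Fin N → Fin d → ℝ) (ζ : Fin N → E n)
    (κ : Fin N → ℝ), FinType m c B φ ∧ (∀ a, PS (fam φ a)) ∧ g = famA φ a b ζ κ

theorem DensC.norm_le {PS : (E n → ℝ) → Prop} {d N m : ℕ} {c : ℝ} {B : ℕ → ℝ} {g : E n → ℂ}
    (h : DensC PS d N m c B g) (x : E n) : ‖g x‖ ≤ 1 := by
  obtain ⟨φ, a, b, ζ, κ, h1, -, h2⟩ := h
  exact Dens.norm_le ⟨φ, a, b, ζ, κ, h1, h2⟩ x

/-- The class has the uniform estimate. -/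
theorem ub_densC (hn : 2 ≤ n) {p0 : ℝ} (hp0 : 1 ≤ p0) {PS : (E n → ℝ) → Prop}
    (H : LossC n p0 PS) (hPS : ∀ φ, PS φ → ∀ r : ℝ, PS fun x => r * φ x) (d N m : ℕ) (c : ℝ)
    (hc : 0 < c) (B : ℕ → ℝ) : UB p0 (DensC (n := n) PS d N m c B) := by
  intro p hp
  obtain ⟨C, hC, h⟩ := FT.fin_boundC hn hp0 H hPS (d := d) N m c hc B p hp
  refine ⟨C, hC, ?_⟩
  rintro g _ _ ⟨φ, a, b, ζ, κ, hφ, hP, rfl⟩
  exact h φ hφ hP a b ζ κ

/-- The bounds for the classes of finite type. -/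
theorem bounds_densC {m : ℕ} (hm : 2 ≤ m) {PS : (E (m + 1) → ℝ) → Prop}
    (H : LossC (m + 1) (2 * ((m : ℝ) + 1) / m) PS)
    (hPS : ∀ φ, PS φ → ∀ r : ℝ, PS fun x => r * φ x) (d N k : ℕ) (c : ℝ) (hc : 0 < c)
    (B : ℕ → ℝ) :
    Bound (m := m) (DensC PS d N k c B) ∧ BoundHigh (m := m) (DensC PS d N k c B) := by
  have h0 : (2:ℝ) ≤ m := by exact_mod_cast hm
  have h1 : 1 ≤ 2 * ((m : ℝ) + 1) / m := by
    rw [le_div_iff₀ (by positivity)]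
    linarith
  exact bounds_of hm (fun g hg x => hg.norm_le x) (ub_densC (by omega) h1 H hPS d N k c hc B)

end Pool.Agent.VANn
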