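import Pool.Agent.VANn.RS1
import Pool.Agent.VANn.RSL

/-!
The restriction estimate without loss, uniform on the classes `MultQ`.
-/

namespace Pool.Agent.VANn

open MeasureTheory Set Metric Module Pool.Agent.MP_6cbfb8_an Pool.Agent.VAN Pool.Agent.GNP
open scoped ENNReal Real ContDiff Topology

variable {n : ℕ}

/-- The class of the phases with `MopS`. -/
def MS (n j : ℕ) (η : ℝ) (φ : E n → ℝ) : Prop := ∀ x, ‖x‖ = 1 → MopS n j η φ x

theorem MS.mul {j : ℕ} {η : ℝ} {φ : E n → ℝ} (h : MS n j η φ) (r : ℝ) :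
    MS n j η fun x => r * φ x := fun x hx => (h x hx).mul r

/-- The smooth functions on `R^n` with derivatives of order `k` at most `B k` on the ball of radius
two, and with the condition `MultQ n j κ` at the points of the unit sphere. -/
def ClsQ (n j : ℕ) (κ : ℝ) (B : ℕ → ℝ) (ψ : E n → ℝ) : Prop :=
  ContDiff ℝ ((⊤ : ℕ∞) : WithTop ℕ∞) ψ ∧
  (∀ k (y : E n), ‖y‖ ≤ 2 → ‖iteratedFDeriv ℝ k ψ y‖ ≤ B k) ∧
  ∀ x, ‖x‖ = 1 → MultQ n j κ ψ x

/-- The densities `e^{iaψ} ∏_{i<N} 1_{v_i > 0}` on the unit sphere of `R^n`, where `ψ` is a function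
of the class `ClsQ`, and the `v_i` are linear combinations of `ψ` and affine functions. -/
def DensQ (n j N : ℕ) (κ : ℝ) (B : ℕ → ℝ) (g : E n → ℂ) : Prop :=
  ∃ (ψ : E n → ℝ) (a : ℝ) (b : Fin N → ℝ) (ζ : Fin N → E n) (t : Fin N → ℝ), ClsQ n j κ B ψ ∧
    g = fun x => Complex.exp (((a * ψ x : ℝ) : ℂ) * Complex.I) *
      ∏ i, if 0 < b i * ψ x + inner ℝ x (ζ i) + t i then 1 else 0

theorem norm_fderiv2 {ψ : E n → ℝ} (x : E n) :
    ‖fderiv ℝ (fderiv ℝ ψ) x‖ = ‖iteratedFDeriv ℝ 2 ψ x‖ := by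
  rw [show (2 : ℕ) = 1 + 1 from rfl, ← norm_iteratedFDeriv_fderiv, ← zero_add 1,
    ← norm_iteratedFDeriv_fderiv, norm_iteratedFDeriv_zero]

theorem norm_fderiv1 {ψ : E n → ℝ} (x : E n) :
    ‖fderiv ℝ ψ x‖ = ‖iteratedFDeriv ℝ 1 ψ x‖ := by
  rw [← zero_add 1, ← norm_iteratedFDeriv_fderiv, norm_iteratedFDeriv_zero]

/-- The class is contained in a class of families of finite type. -/
theorem finType_of_clsQ (hn : 2 ≤ n) {j : ℕ} (hj : 1 ≤ j) {κ : ℝ} (hκ : 0 < κ) (B : ℕ → ℝ) :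
    ∃ c η : ℝ, 0 < c ∧ 0 < η ∧ ∀ ψ : E n → ℝ, ClsQ n j κ B ψ →
      FinType 2 c B (fun _ : Fin 1 => ψ) ∧ MS n j η ψ := by
  obtain ⟨c, hc, hT⟩ := FT.typ_of_multQ (n := n) hn hκ (abs_nonneg (B 1)) (abs_nonneg (B 2))
  refine ⟨c, κ / (|B 2| + 1), hc, by positivity, fun ψ hψ => ?_⟩
  obtain ⟨hs, hb, hM⟩ := hψ
  have hb2 : ∀ x : E n, ‖x‖ = 1 → ‖fderiv ℝ (fderiv ℝ ψ) x‖ ≤ |B 2| := fun x hx => by
    rw [norm_fderiv2]
    exact (hb 2 x (by rw [hx]; norm_num)).trans (le_abs_self _)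
  refine ⟨⟨fun _ => hs, fun _ => hb, fun a => ?_⟩, fun x hx => (hM x hx).mopS hκ (hb2 x hx)⟩
  have h1 := hT ψ (fun x _ => (hs.of_le (WithTop.coe_le_coe.2 (le_top : (2 : ℕ∞) ≤ ⊤))).contDiffAt)
    (fun x hx => by
      rw [norm_fderiv1]
      exact (hb 1 x (by rw [hx]; norm_num)).trans (le_abs_self _))
    hb2 (fun x hx => (hM x hx).mono hj le_rfl) (a 0)
  have e1 : ‖a‖ = |a 0| := by
    refine le_antisymm ?_ ?_
    · refine (pi_norm_le_iff_of_nonneg (abs_nonneg _)).2 fun i => ?_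
      rw [Subsingleton.elim i 0, Real.norm_eq_abs]
    · exact norm_le_pi_norm a 0
  have e2 : fam (fun _ : Fin 1 => ψ) a = fun y => a 0 * ψ y := by
    funext y
    simp [fam]
  rw [e1, e2]
  exact h1

/-- **The bounds for the classes `DensQ`.** -/
theorem bounds_densQ {m : ℕ} (hm : 2 ≤ m) {j : ℕ} (hj : 1 ≤ j)
    (H : ∀ η : ℝ, 0 < η → LossC (m + 1) (2 * ((m : ℝ) + 1) / m) (MS (m + 1) j η)) (N : ℕ) {κ : ℝ} (hκ : 0 < κ) (B : ℕ → ℝ) :
    Bound (m := m) (DensQ (m + 1) j N κ B) ∧ BoundHigh (m := m) (DensQ (m + 1) j N κ B) := by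
  obtain ⟨c, η, hc, hη, hF⟩ := finType_of_clsQ (n := m + 1) (by omega) hj hκ B
  have h1 := bounds_densC hm (H η hη) (fun φ h r => MS.mul h r) 1 N 2 c hc B
  have h2 : ∀ g, DensQ (m + 1) j N κ B g → DensC (MS (m + 1) j η) 1 N 2 c B g := by
    rintro g ⟨ψ, a, b, ζ, t, hψ, rfl⟩
    obtain ⟨h3, h4⟩ := hF ψ hψ
    refine ⟨fun _ => ψ, fun _ => a, fun i _ => b i, ζ, t, h3, fun a' => ?_, ?_⟩
    · have e2 : fam (fun _ : Fin 1 => ψ) a' = fun y => a' 0 * ψ y := by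
        funext y
        simp [fam]
      rw [e2]
      exact h4.mul _
    · funext x
      simp [famA, fam]
  refine ⟨fun p hp => ?_, fun M l hl p hp => ?_⟩
  · obtain ⟨C, hC, h⟩ := h1.1 p hp
    exact ⟨C, hC, fun W i1 ν i2 R η g hR hη hg hd => h W i1 ν i2 R η g hR hη hg fun t => h2 _ (hd t)⟩
  · obtain ⟨C, hC, h⟩ := h1.2 M l hl p hp
    exact ⟨C, hC, fun W i1 ν i2 R η g v s hR hη hg hd => h W i1 ν i2 R η g v s hR hη hg
      fun t => h2 _ (hd t)⟩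

end Pool.Agent.VANn
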