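import Pool.Agent.VANn.RSL
import Pool.Agent.VANn.FVD

/-!
Families of finite type with an amplitude of bounded variation, over an estimate with a small loss
which is uniform on a class of phases only.
-/

set_option autoImplicit false

namespace Pool.Agent.VANn

open MeasureTheory Set Metric Pool.Agent.MP_6cbfb8_an Pool.Agent.VAN Pool.Agent.VAN.FT Pool.Agent.GNP
open scoped ENNReal Real

variable {n : ℕ}

/-- The estimate with a small loss for the phases `c φ`, `φ` in the class `PS`, on the unit sphere of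
`R^n` and amplitudes of bounded variation, in the range `p > p0`: the constant depends on `φ` only
through the bounds `B k` for its derivatives. -/
def LossSAC (n : ℕ) (p0 s : ℝ) (PS : (E n → ℝ) → Prop) : Prop :=
  ∀ V : ℝ, 1 ≤ V → ∀ p : ℝ, p0 < p → ∀ ε : ℝ, 0 < ε → ∀ B : ℕ → ℝ, ∃ K : ℝ, 0 < K ∧
    ∀ (φ : E n → ℝ) (w : E n → ℂ),
    (∀ x, ‖x‖ = 1 → ContDiffAt ℝ ((⊤ : ℕ∞) : WithTop ℕ∞) φ x) →
    (∀ k x, ‖x‖ = 1 → ‖iteratedFDeriv ℝ k φ x‖ ≤ B k) → PS φ → AVn n s V w → ∀ c : ℝ,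
    ∫⁻ ξ, ‖extn (fun x => w x * Complex.exp (((c * φ x : ℝ) : ℂ) * Complex.I)) ξ‖ₑ ^ p ≤
      ENNReal.ofReal (K * (1 + |c|) ^ ε)

namespace FT

/-- The estimate with a small loss for phases with derivatives at most `B k * L`. -/
theorem loss_sizeAC {p0 s : ℝ} {PS : (E n → ℝ) → Prop} (H : LossSAC n p0 s PS)
    (hPS : ∀ φ, PS φ → ∀ r : ℝ, PS fun x => r * φ x) {V : ℝ} (hV : 1 ≤ V) (p : ℝ) (hp : p0 < p) (ε : ℝ)
    (hε : 0 < ε) (B : ℕ → ℝ) :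
    ∃ K : ℝ, 0 < K ∧ ∀ (L : ℝ) (ψ : E n → ℝ) (w : E n → ℂ), 0 ≤ L →
      (∀ x, ‖x‖ = 1 → ContDiffAt ℝ ((⊤ : ℕ∞) : WithTop ℕ∞) ψ x) →
      (∀ k (x : E n), ‖x‖ = 1 → ‖iteratedFDeriv ℝ k ψ x‖ ≤ B k * L) → PS ψ → AVn n s V w →
      ∫⁻ ξ, ‖extn (fun x => w x * Complex.exp (((ψ x : ℝ) : ℂ) * Complex.I)) ξ‖ₑ ^ p ≤
        ENNReal.ofReal (K * (1 + L) ^ ε) := by
  obtain ⟨K, hK, h⟩ := H V hV p hp ε hε fun k => |B k|
  refine ⟨K * 2 ^ ε, by positivity, fun L ψ w hL hψ hB hP hw => ?_⟩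
  have h1L : (0:ℝ) < 1 + L := by linarith
  have h1 := h (fun x => (1 + L)⁻¹ • ψ x) w (fun x hx => (hψ x hx).const_smul _) (by
    intro k x hx
    have h2 : ContDiffAt ℝ k ψ x := (hψ x hx).of_le (by exact_mod_cast le_top)
    rw [iteratedFDeriv_const_smul_apply' h2, norm_smul, Real.norm_eq_abs, abs_inv,
      abs_of_pos h1L]
    have h3 := hB k x hx
    have h4 : B k * L ≤ |B k| * (1 + L) :=
      mul_le_mul (le_abs_self _) (by linarith) hL (abs_nonneg _)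
    calc (1 + L)⁻¹ * ‖iteratedFDeriv ℝ k ψ x‖ ≤ (1 + L)⁻¹ * (|B k| * (1 + L)) :=
          mul_le_mul_of_nonneg_left (h3.trans h4) (by positivity)
      _ = |B k| := by field_simp) (hPS ψ hP (1 + L)⁻¹) hw (1 + L)
  have e : (fun x : E n => w x * Complex.exp ((((1 + L) * ((1 + L)⁻¹ • ψ x) : ℝ) : ℂ) * Complex.I)) =
      fun x => w x * Complex.exp (((ψ x : ℝ) : ℂ) * Complex.I) := by
    funext x
    rw [smul_eq_mul, ← mul_assoc, mul_inv_cancel₀ h1L.ne', one_mul]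
  rw [e] at h1
  refine h1.trans (ENNReal.ofReal_le_ofReal ?_)
  rw [abs_of_pos h1L, mul_assoc, ← Real.mul_rpow (by norm_num) h1L.le]
  refine mul_le_mul_of_nonneg_left ?_ hK.le
  exact Real.rpow_le_rpow (by positivity) (by linarith) hε.le

/-- **The restriction estimate for smooth phases of type `m` with an amplitude of bounded
variation**, uniform in the phase and the amplitude. -/
theorem typ_bound_bvC {j : ℕ} {p0 s : ℝ} {PS : (E (j + 2) → ℝ) → Prop} (hp0 : 0 ≤ p0) (hs : 0 < s) (hs1 : s ≤ 1)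
    (H : LossSAC (j + 2) p0 s PS) (hPS : ∀ φ, PS φ → ∀ r : ℝ, PS fun x => r * φ x) {V : ℝ} (hV : 1 ≤ V) (m : ℕ) (hm : 1 ≤ m) (p : ℝ)
    (hp : p0 < p) (c : ℝ) (hc : 0 < c) (B : ℕ → ℝ) :
    ∃ C : ℝ≥0∞, C ≠ ∞ ∧ ∀ (L : ℝ) (ψ : E (j + 2) → ℝ) (w : E (j + 2) → ℂ), 0 ≤ L →
      ContDiff ℝ ((⊤ : ℕ∞) : WithTop ℕ∞) ψ →
      (∀ (k : ℕ) (y : E (j + 2)), ‖y‖ ≤ 2 → ‖iteratedFDeriv ℝ k ψ y‖ ≤ B k * L) →
      Typ m c L ψ → PS ψ → AVn (j + 2) s V w →
      ∫⁻ ξ, ‖extn (fun x => w x * Complex.exp (((ψ x : ℝ) : ℂ) * Complex.I)) ξ‖ₑ ^ p ≤ C := by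
  have hm0 : (0 : ℝ) < m := by exact_mod_cast hm
  have hj2 : (0:ℝ) < (j : ℝ) + 2 := by positivity
  set p1 : ℝ := (p0 + p) / 2 with hp1
  have h01 : p0 < p1 := by rw [hp1]; linarith
  have h1p : p1 < p := by rw [hp1]; linarith
  set δ : ℝ := 1 / (m : ℝ) * s / (2 * ((j : ℝ) + 2)) with hδ
  have hδ0 : 0 < δ := by positivity
  set e : ℝ := δ * (p - p1) with he
  have he0 : 0 < e := mul_pos hδ0 (by linarith)
  obtain ⟨K, hK, H1⟩ := loss_sizeAC H hPS hV p1 h01 e he0 B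
  set B0 : ℝ := ∑ i ∈ Finset.range (m + 2), |B (i + 1)| with hB0
  have hB00 : 0 ≤ B0 := Finset.sum_nonneg fun i _ => abs_nonneg _
  obtain ⟨C2, hC2, H2⟩ := decay_typ2 (n := j + 2) (by omega) m hm hc hB00
  obtain ⟨C3, hC3, H3⟩ := bv_decay j
  set C4 : ℝ := C3 * (C2 + 1) * V with hC4
  have hC40 : 0 ≤ C4 := by positivity
  refine ⟨ENNReal.ofReal (C4 ^ (p - p1) * K), ENNReal.ofReal_ne_top,
    fun L ψ w hL hψ hB hT hP hw => ?_⟩
  have h1L : (0:ℝ) < 1 + L := by linarith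
  have hdec := H2 ψ L hL (contDiff_infty.1 hψ (m + 2)) (by
    intro z hz
    unfold J
    rw [hB0, Finset.sum_mul]
    refine Finset.sum_le_sum fun i _ => ?_
    refine (hB (i + 1) z (by linarith)).trans ?_
    exact mul_le_mul_of_nonneg_right (le_abs_self _) hL) hT
  have hem : Measurable fun x : E (j + 2) => Complex.exp (((ψ x : ℝ) : ℂ) * Complex.I) :=
    (Complex.continuous_exp.comp
      ((Complex.continuous_ofReal.comp hψ.continuous).mul continuous_const)).measurable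
  have hdec2 : ∀ ξ, ‖extn (fun x => w x * Complex.exp (((ψ x : ℝ) : ℂ) * Complex.I)) ξ‖ ≤
      C4 * (1 + L) ^ (-δ) := by
    intro ξ
    have h1 := H3 w (fun x => Complex.exp (((ψ x : ℝ) : ℂ) * Complex.I)) hw.1 hem hw.2.1
      (fun x => (Complex.norm_exp_ofReal_mul_I _).le) s V (C2 + 1) (1 / (m : ℝ)) (1 + L)
      hs.le hs1 hV hw.2.2 (by linarith) (by positivity) (by
        rw [div_le_one hm0]
        exact_mod_cast hm) (by linarith) (fun ξ => (hdec ξ).trans (by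
          refine mul_le_mul_of_nonneg_right (by linarith) ?_
          exact Real.rpow_nonneg (by linarith [norm_nonneg ξ]) _)) ξ
    refine h1.trans ?_
    refine mul_le_mul_of_nonneg_left ?_ hC40
    exact Real.rpow_le_rpow_of_nonpos (by linarith) (by linarith [norm_nonneg ξ]) (by linarith)
  have hloss := H1 L ψ w hL (fun x _ => hψ.contDiffAt)
    (fun k x hx => hB k x (by rw [hx]; norm_num)) hP hw
  have h1 := interp_set (volume : Measure (E (j + 2))) (p1 := p1) (p := p)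
    (M := C4 * (1 + L) ^ (-δ)) (by linarith) h1p.le
    (extn (fun x => w x * Complex.exp (((ψ x : ℝ) : ℂ) * Complex.I))) univ MeasurableSet.univ
    (by positivity) (fun ξ _ => hdec2 ξ)
  rw [Measure.restrict_univ] at h1
  refine h1.trans ((mul_le_mul' le_rfl hloss).trans ?_)
  rw [← ENNReal.ofReal_mul (by positivity)]
  refine ENNReal.ofReal_le_ofReal (le_of_eq ?_)
  rw [Real.mul_rpow hC40 (by positivity), ← Real.rpow_mul h1L.le]
  have e1 : -δ * (p - p1) = -e := by rw [he]; ring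
  rw [e1]
  have e2 : (1 + L) ^ (-e) * (1 + L) ^ e = 1 := by
    rw [← Real.rpow_add h1L, neg_add_cancel, Real.rpow_zero]
  calc C4 ^ (p - p1) * (1 + L) ^ (-e) * (K * (1 + L) ^ e) =
        C4 ^ (p - p1) * K * ((1 + L) ^ (-e) * (1 + L) ^ e) := by ring
    _ = C4 ^ (p - p1) * K := by rw [e2, mul_one]

/-- no cuts -/
theorem fin_nocut_bvC {j : ℕ} {p0 s : ℝ} {PS : (E (j + 2) → ℝ) → Prop} (hp0 : 0 ≤ p0) (hs : 0 < s) (hs1 : s ≤ 1)
    (HL : LossSAC (j + 2) p0 s PS) (hPS : ∀ φ, PS φ → ∀ r : ℝ, PS fun x => r * φ x) {V : ℝ} (hV : 1 ≤ V) {d : ℕ} (m : ℕ) (c : ℝ) (hc : 0 < c)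
    (B : ℕ → ℝ) (p : ℝ) (hp : p0 < p) :
    ∃ C : ℝ≥0∞, C ≠ ∞ ∧ ∀ (φ : Fin d → E (j + 2) → ℝ) (w : E (j + 2) → ℂ), FinType m c B φ →
      (∀ a, PS (fam φ a)) → AVn (j + 2) s V w → ∀ a : Fin d → ℝ,
        ∫⁻ ξ, ‖extn (fun x => w x * Complex.exp (((fam φ a x : ℝ) : ℂ) * Complex.I)) ξ‖ₑ ^ p
          ≤ C := by
  rcases Nat.eq_zero_or_pos m with rfl | hm
  · exact ⟨0, by simp, fun φ w hφ _ _ a =>
      absurd ((hφ.2.2 a).pos (n := j + 2) (by omega)) (by norm_num)⟩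
  obtain ⟨C, hC, H⟩ := typ_bound_bvC hp0 hs hs1 HL hPS hV m hm p hp c hc fun k => d * |B k|
  refine ⟨C, hC, fun φ w hφ hP hw a => ?_⟩
  exact H ‖a‖ (fam φ a) w (norm_nonneg _) (fam_smooth hφ.1 a)
    (fun k y hy => fam_iter_le hφ.1 hφ.2.1 a k hy) (hφ.2.2 a) (hP a) hw

/-- extended families, with cuts and an amplitude -/
theorem cls_cuts_bvC {j : ℕ} {p0 s : ℝ} {PS : (E (j + 2) → ℝ) → Prop} (hp0 : 1 ≤ p0) (hs : 0 < s) (hs1 : s ≤ 1)
    (HL : LossSAC (j + 2) p0 s PS) (hPS : ∀ φ, PS φ → ∀ r : ℝ, PS fun x => r * φ x) {V : ℝ} (hV : 1 ≤ V) {d : ℕ} (m : ℕ) (c : ℝ) (hc : 0 < c)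
    (B : ℕ → ℝ) (N : ℕ) (p : ℝ) (hp : p0 < p) :
    ∃ C : ℝ≥0∞, C ≠ ∞ ∧ ∀ (Φ : Fin (d + (j + 2 + 1)) → E (j + 2) → ℝ) (w : E (j + 2) → ℂ),
      (clsC PS m c B Φ ∧ AVn (j + 2) s V w) →
      ∀ (a : Fin (d + (j + 2 + 1)) → ℝ) (b : Fin N → Fin (d + (j + 2 + 1)) → ℝ),
        ∫⁻ ξ, ‖extn (fun x => famc Φ a b x * w x) ξ‖ₑ ^ p ≤ C := by
  refine VAN.FT.cuts_amp p0 hp0 (P := fun Φ w => clsC PS m c B Φ ∧ AVn (j + 2) s V w)
    (fun Φ w h => ⟨fun j => (cls_meas h.1.cls j).measurable, h.2.1, h.2.2.1⟩) ?_ ?_ ?_ N p hp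
  · refine ⟨|B 0| + 1, ?_⟩
    rintro Φ w ⟨⟨φ, hφ, -, rfl⟩, -⟩ i x hx
    refine Fin.addCases (fun i => ?_) (fun i => ?_) i
    · rw [Fin.append_left]
      have h2 := hφ.2.1 i 0 x (by rw [hx]; norm_num)
      rw [norm_iteratedFDeriv_zero] at h2
      rw [Real.norm_eq_abs] at h2
      linarith [le_abs_self (B 0)]
    · rw [Fin.append_right]
      linarith [abs_aff_le hx i, abs_nonneg (B 0)]
  · obtain ⟨K, κ, hK, hκ, H⟩ := cls_sub (n := j + 2) (by omega) (d := d) m c hc B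
    exact ⟨K, κ, hK, hκ, fun Φ w h => H Φ h.1.cls⟩
  · intro q hq
    obtain ⟨C, hC, H⟩ := fin_nocut_bvC (by linarith) hs hs1 HL hPS hV (d := d) m c hc B q hq
    refine ⟨C, hC, ?_⟩
    rintro Φ w ⟨⟨φ, hφ, hP, rfl⟩, hw⟩ C'
    obtain ⟨a, b, rfl⟩ := append_split' C'
    have h2 := lint_phase w (φ := fam (Fin.append φ aff) (Fin.append a b))
      (φ' := fam φ a) (ζ := WithLp.toLp 2 (fun i : Fin (j + 2) => b (Fin.castSucc i)))
      (c := b (Fin.last (j + 2)))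
      (fun x _ => by
        rw [fam_append, fam_aff]
        ring) q
    rw [h2]
    refine le_trans (le_of_eq ?_) (H φ w hφ hP hw a)
    refine lintegral_congr fun ξ => ?_
    congr 3
    funext x
    rw [mul_comm]

/-- **The uniform estimate for families of finite type, with cuts and an amplitude of bounded
variation.** -/
theorem fin_bound_bvC {j : ℕ} {p0 s : ℝ} {PS : (E (j + 2) → ℝ) → Prop} (hp0 : 1 ≤ p0) (hs : 0 < s) (hs1 : s ≤ 1)
    (HL : LossSAC (j + 2) p0 s PS) (hPS : ∀ φ, PS φ → ∀ r : ℝ, PS fun x => r * φ x) {V : ℝ} (hV : 1 ≤ V) {d : ℕ} (N m : ℕ) (c : ℝ) (hc : 0 < c)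
    (B : ℕ → ℝ) (p : ℝ) (hp : p0 < p) :
    ∃ C : ℝ≥0∞, C ≠ ∞ ∧ ∀ (φ : Fin d → E (j + 2) → ℝ) (w : E (j + 2) → ℂ), FinType m c B φ →
      (∀ a, PS (fam φ a)) → AVn (j + 2) s V w →
      ∀ (a : Fin d → ℝ) (b : Fin N → Fin d → ℝ) (ζ : Fin N → E (j + 2)) (κ : Fin N → ℝ),
        ∫⁻ ξ, ‖extn (fun x => w x * famA φ a b ζ κ x) ξ‖ₑ ^ p ≤ C := by
  obtain ⟨C, hC, H⟩ := cls_cuts_bvC hp0 hs hs1 HL hPS hV (d := d) m c hc B N p hp
  refine ⟨C, hC, fun φ w hφ hP hw a b ζ κ => ?_⟩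
  have h := H (Fin.append φ aff) w ⟨⟨φ, hφ, hP, rfl⟩, hw⟩ (Fin.append a 0)
    (fun i => Fin.append (b i) (Fin.snoc (fun k : Fin (j + 2) => ζ i k) (κ i)))
  refine le_trans (le_of_eq ?_) h
  refine lintegral_congr fun ξ => ?_
  congr 3
  funext x
  rw [mul_comm]
  congr 1
  unfold famA famc
  have h0 : fam (Fin.append φ aff) (Fin.append a 0) x = fam φ a x := by
    rw [fam_append]
    have : fam aff (0 : Fin (j + 2 + 1) → ℝ) x = 0 := by
      unfold fam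
      simp
    rw [this, add_zero]
  rw [h0]
  congr 1
  refine Finset.prod_congr rfl fun i _ => ?_
  have h1 : fam (Fin.append φ aff)
      (Fin.append (b i) (Fin.snoc (fun k : Fin (j + 2) => ζ i k) (κ i))) x =
      fam φ (b i) x + inner ℝ x (ζ i) + κ i := by
    rw [fam_append, fam_aff]
    have e1 : (WithLp.toLp 2 (fun k : Fin (j + 2) =>
        (Fin.snoc (fun k : Fin (j + 2) => ζ i k) (κ i) : Fin (j + 2 + 1) → ℝ)
          (Fin.castSucc k)) : E (j + 2)) = ζ i := by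
      ext k
      simp
    have e2 : (Fin.snoc (fun k : Fin (j + 2) => ζ i k) (κ i) : Fin (j + 2 + 1) → ℝ)
        (Fin.last (j + 2)) = κ i :=
      Fin.snoc_last (α := fun _ => ℝ) (κ i) (fun k : Fin (j + 2) => ζ i k)
    rw [e1, e2]
    ring
  rw [h1]

end FT

/-- The densities `w e^{iu} ∏_{i<N} 1_{v_i > 0}` on the unit sphere of `R^n`, where `|w| ≤ 1` is of
variation at most `V` (of order `s`), `u` is a linear combination, and `v_i` a linear combination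
plus an affine function, of the members of some family `φ_1, …, φ_d` of finite type with the
constants `m`, `c`, `B`, all of whose linear combinations belong to the class `PS`. -/
def DensAC (PS : (E n → ℝ) → Prop) (s : ℝ) (d N m : ℕ) (c : ℝ) (B : ℕ → ℝ) (V : ℝ) (g : E n → ℂ) : Prop :=
  ∃ (w : E n → ℂ) (φ : Fin d → E n → ℝ) (a : Fin d → ℝ) (b : Fin N → Fin d → ℝ)
    (ζ : Fin N → E n) (κ : Fin N → ℝ), AVn n s V w ∧ FinType m c B φ ∧
      (∀ a, PS (fam φ a)) ∧ g = fun x => w x * famA φ a b ζ κ x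

theorem DensAC.norm_le {PS : (E n → ℝ) → Prop} {s : ℝ} {d N m : ℕ} {c : ℝ} {B : ℕ → ℝ} {V : ℝ} {g : E n → ℂ}
    (h : DensAC PS s d N m c B V g) (x : E n) : ‖g x‖ ≤ 1 := by
  obtain ⟨w, φ, a, b, ζ, κ, hw, -, -, rfl⟩ := h
  rw [norm_mul]
  refine mul_le_one₀ (hw.2.1 x) (norm_nonneg _) ?_
  unfold famA
  rw [norm_mul, Complex.norm_exp_ofReal_mul_I, one_mul, norm_prod]
  refine Finset.prod_le_one (fun _ _ => norm_nonneg _) fun i _ => ?_
  split_ifs <;> simp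

/-- The class has the uniform estimate. -/
theorem ub_densAC (hn : 2 ≤ n) {PS : (E n → ℝ) → Prop} {p0 s : ℝ} (hp0 : 1 ≤ p0) (hs : 0 < s) (hs1 : s ≤ 1)
    (H : LossSAC n p0 s PS) (hPS : ∀ φ, PS φ → ∀ r : ℝ, PS fun x => r * φ x)
    (d N m : ℕ) (c : ℝ) (hc : 0 < c) (B : ℕ → ℝ) (V : ℝ) :
    UB p0 (DensAC (n := n) PS s d N m c B V) := by
  obtain ⟨j, rfl⟩ : ∃ j, n = j + 2 := ⟨n - 2, by omega⟩
  intro p hp
  obtain ⟨C, hC, h⟩ := FT.fin_bound_bvC hp0 hs hs1 H hPS (V := max V 1) (le_max_right _ _) (d := d) N m c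
    hc B p hp
  refine ⟨C, hC, ?_⟩
  rintro g _ _ ⟨w, φ, a, b, ζ, κ, ⟨hw, hw1, hwV⟩, hφ, hP, rfl⟩
  refine h φ w hφ hP ⟨hw, hw1, fun r hr => (hwV r hr).trans ?_⟩ a b ζ κ
  apply ENNReal.ofReal_le_ofReal
  exact mul_le_mul_of_nonneg_right (le_max_left _ _) (by positivity)

/-- The bounds for the classes of finite type with amplitudes of bounded variation. -/
theorem bounds_densAC {m : ℕ} (hm : 2 ≤ m) {PS : (E (m + 1) → ℝ) → Prop} {s : ℝ} (hs : 0 < s) (hs1 : s ≤ 1)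
    (H : LossSAC (m + 1) (2 * ((m : ℝ) + 1) / m) s PS)
    (hPS : ∀ φ, PS φ → ∀ r : ℝ, PS fun x => r * φ x)
    (d N k : ℕ) (c : ℝ) (hc : 0 < c) (B : ℕ → ℝ) (V : ℝ) :
    Bound (m := m) (DensAC PS s d N k c B V) ∧ BoundHigh (m := m) (DensAC PS s d N k c B V) := by
  have h0 : (2:ℝ) ≤ m := by exact_mod_cast hm
  have h1 : 1 ≤ 2 * ((m : ℝ) + 1) / m := by
    rw [le_div_iff₀ (by positivity)]
    linarith
  exact bounds_of hm (fun g hg x => hg.norm_le x)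
    (ub_densAC (by omega) h1 hs hs1 H hPS d N k c hc B V)

end Pool.Agent.VANn
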