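import Pool.Agent.VANn.RS2
import Pool.Agent.VANn.RSLA

/-!
The restriction estimate without loss, uniform on the classes `MultQ`, with amplitudes of bounded
variation.
-/

namespace Pool.Agent.VANn

open MeasureTheory Set Metric Module Pool.Agent.MP_6cbfb8_an Pool.Agent.VAN Pool.Agent.GNP
open scoped ENNReal Real ContDiff Topology

variable {n : ℕ}

/-- The densities `w e^{iaψ} ∏_{i<N} 1_{v_i > 0}` on the unit sphere of `R^n`, where `|w| ≤ 1` is of
variation at most `V` (of order `s`), `ψ` is a function of the class `ClsQ`, and the `v_i` are linear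
combinations of `ψ` and affine functions. -/
def DensQA (n j N : ℕ) (κ s V : ℝ) (B : ℕ → ℝ) (g : E n → ℂ) : Prop :=
  ∃ (w : E n → ℂ) (ψ : E n → ℝ) (a : ℝ) (b : Fin N → ℝ) (ζ : Fin N → E n) (t : Fin N → ℝ),
    AVn n s V w ∧ ClsQ n j κ B ψ ∧
    g = fun x => w x * (Complex.exp (((a * ψ x : ℝ) : ℂ) * Complex.I) *
      ∏ i, if 0 < b i * ψ x + inner ℝ x (ζ i) + t i then 1 else 0)

/-- **The bounds for the classes `DensQA`.** -/
theorem bounds_densQA {m : ℕ} (hm : 2 ≤ m) {j : ℕ} (hj : 1 ≤ j) {s : ℝ} (hs : 0 < s) (hs1 : s ≤ 1)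
    (H : ∀ η : ℝ, 0 < η → LossSAC (m + 1) (2 * ((m : ℝ) + 1) / m) s (MS (m + 1) j η)) (N : ℕ)
    {κ : ℝ} (hκ : 0 < κ) (V : ℝ)
    (B : ℕ → ℝ) :
    Bound (m := m) (DensQA (m + 1) j N κ s V B) ∧
      BoundHigh (m := m) (DensQA (m + 1) j N κ s V B) := by
  obtain ⟨c, η, hc, hη, hF⟩ := finType_of_clsQ (n := m + 1) (by omega) hj hκ B
  have h1 := bounds_densAC hm hs hs1 (H η hη) (fun φ h r => MS.mul h r) 1 N 2 c hc
    B V
  have h2 : ∀ g, DensQA (m + 1) j N κ s V B g → DensAC (MS (m + 1) j η) s 1 N 2 c B V g := by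
    rintro g ⟨w, ψ, a, b, ζ, t, hw, hψ, rfl⟩
    obtain ⟨h3, h4⟩ := hF ψ hψ
    refine ⟨w, fun _ => ψ, fun _ => a, fun i _ => b i, ζ, t, hw, h3, fun a' => ?_, ?_⟩
    · have e2 : fam (fun _ : Fin 1 => ψ) a' = fun y => a' 0 * ψ y := by
        funext y
        simp [fam]
      rw [e2]
      exact h4.mul _
    · funext x
      simp [famA, fam]
  refine ⟨fun p hp => ?_, fun M l hl p hp => ?_⟩
  · obtain ⟨C, hC, h⟩ := h1.1 p hp
    exact ⟨C, hC, fun W i1 ν i2 R η g hR hη hg hd => h W i1 ν i2 R η g hR hη hg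
      fun t => h2 _ (hd t)⟩
  · obtain ⟨C, hC, h⟩ := h1.2 M l hl p hp
    exact ⟨C, hC, fun W i1 ν i2 R η g v s hR hη hg hd => h W i1 ν i2 R η g v s hR hη hg
      fun t => h2 _ (hd t)⟩

end Pool.Agent.VANn
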