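import Pool.Agent.GNP.M7

/-!
Quadratic forms with distinct coefficients have no tangential eigenvalues of multiplicity larger
than two on the unit sphere.
-/

namespace Pool.Agent.VANn

open MeasureTheory Set Metric Module Pool.Agent.MP_6cbfb8_an Pool.Agent.GNP
open scoped ENNReal Real ContDiff Topology

variable {n : ℕ}

/-- The second derivative of `∑ a_j x_j²`. -/
theorem fderiv2_diag (a : Fin n → ℝ) (x w u : E n) :
    fderiv ℝ (fderiv ℝ fun y : E n => ∑ i, a i * y i ^ 2) x w u = ∑ i, 2 * a i * w i * u i := by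
  set L : E n →L[ℝ] (E n →L[ℝ] ℝ) := ∑ i, (2 * a i) •
    ((EuclideanSpace.proj i : E n →L[ℝ] ℝ).smulRight (EuclideanSpace.proj i : E n →L[ℝ] ℝ)) with hL
  have h1 : (fderiv ℝ fun y : E n => ∑ i, a i * y i ^ 2) = L := by
    funext y
    have h2 : HasFDerivAt (fun y : E n => ∑ i, a i * y i ^ 2) (L y) y := by
      have h3 : ∀ i ∈ (Finset.univ : Finset (Fin n)), HasFDerivAt (fun y : E n => a i * y i ^ 2)
          (a i • ((2 * y i) • (EuclideanSpace.proj i : E n →L[ℝ] ℝ))) y := by
        intro i _
        have h4 : HasFDerivAt (fun y : E n => y i) (EuclideanSpace.proj i : E n →L[ℝ] ℝ) y :=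
          (EuclideanSpace.proj i : E n →L[ℝ] ℝ).hasFDerivAt
        have h5 := (h4.pow 2).const_mul (a i)
        simpa using h5
      have h6 := HasFDerivAt.fun_sum h3
      refine h6.congr_fderiv ?_
      rw [hL]
      ext v
      simp only [sum_apply, smul_apply, smul_eq_mul, ContinuousLinearMap.smulRight_apply]
      refine Finset.sum_congr rfl fun i _ => ?_
      show a i * (2 * y i * v i) = 2 * a i * (y i * v i)
      ring
    exact h2.fderiv
  rw [h1, L.fderiv, hL]
  simp only [sum_apply, smul_apply, smul_eq_mul, ContinuousLinearMap.smulRight_apply]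
  refine Finset.sum_congr rfl fun i _ => ?_
  show 2 * a i * (w i * u i) = 2 * a i * w i * u i
  ring

theorem inner_coord (v w : E n) : (inner ℝ v w : ℝ) = ∑ i, v i * w i := by
  rw [PiLp.inner_apply]
  exact Finset.sum_congr rfl fun i _ => by simp [mul_comm]

/-- **Quadratic forms with distinct coefficients.** -/
theorem mult_diag {j : ℕ} (hj : 3 + j ≤ n) (a : Fin n → ℝ) (ha : Function.Injective a) :
    MultLt n j fun y : E n => ∑ i, a i * y i ^ 2 := by
  intro x hx μ W hW hd
  by_contra hcon
  push Not at hcon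
  have hn : 0 < n := by omega
  obtain ⟨i0, hi0⟩ : ∃ i0 : Fin n, ∀ i, i ≠ i0 → 2 * a i ≠ μ := by
    by_cases h : ∃ i0 : Fin n, 2 * a i0 = μ
    · obtain ⟨i0, h0⟩ := h
      refine ⟨i0, fun i hi h1 => hi (ha ?_)⟩
      linarith
    · push Not at h
      exact ⟨⟨0, hn⟩, fun i _ => h i⟩
  -- the vector `(2A - μ) w`
  set F : W →ₗ[ℝ] (Fin 2 → ℝ) :=
    { toFun := fun w => ![∑ i, (2 * a i - μ) * (w : E n) i * x i, (w : E n) i0]
      map_add' := by
        intro v w
        ext k
        fin_cases k
        · simp only [Submodule.coe_add, PiLp.add_apply, Fin.zero_eta, Matrix.cons_val_zero,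
            Pi.add_apply]
          rw [← Finset.sum_add_distrib]
          exact Finset.sum_congr rfl fun i _ => by ring
        · simp
      map_smul' := by
        intro r w
        ext k
        fin_cases k
        · simp only [Submodule.coe_smul, PiLp.smul_apply, Fin.zero_eta, Matrix.cons_val_zero,
            Pi.smul_apply, smul_eq_mul, RingHom.id_apply]
          rw [Finset.mul_sum]
          exact Finset.sum_congr rfl fun i _ => by ring
        · simp } with hF
  have hker : LinearMap.ker F ≠ ⊥ := by
    refine LinearMap.ker_ne_bot_of_finrank_lt ?_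
    rw [Module.finrank_fin_fun]
    omega
  obtain ⟨w, hw, hw0⟩ := (Submodule.ne_bot_iff _).1 hker
  have hFw : F w = 0 := hw
  have e0 : ∑ i, (2 * a i - μ) * (w : E n) i * x i = 0 := congrFun hFw 0
  have e1 : (w : E n) i0 = 0 := congrFun hFw 1
  -- it vanishes
  set z : E n := WithLp.toLp 2 fun i => (2 * a i - μ) * (w : E n) i with hz
  have hzu : ∀ u : E n, inner ℝ x u = (0 : ℝ) → inner ℝ z u = (0 : ℝ) := by
    intro u hu
    have h1 := hcon w w.2 u hu
    rw [fderiv2_diag, inner_coord, Finset.mul_sum] at h1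
    rw [inner_coord]
    have h2 : ∑ i, (2 * a i * (w : E n) i * u i - μ * ((w : E n) i * u i)) = 0 := by
      rw [Finset.sum_sub_distrib, h1, sub_self]
    rw [← h2]
    exact Finset.sum_congr rfl fun i _ => by
      show (2 * a i - μ) * (w : E n) i * u i = _
      ring
  have hzx : inner ℝ z x = (0 : ℝ) := by
    rw [inner_coord]
    exact e0
  have hz0 : z = 0 := by
    have h1 : inner ℝ x (z - (inner ℝ x z : ℝ) • x) = (0 : ℝ) := by
      rw [inner_sub_right, inner_smul_right, real_inner_self_eq_norm_sq, hx]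
      ring
    have h2 := hzu _ h1
    rw [inner_sub_right, inner_smul_right, hzx, mul_zero, sub_zero] at h2
    exact inner_self_eq_zero.1 h2
  apply hw0
  apply Subtype.ext
  ext i
  rw [Submodule.coe_zero, PiLp.zero_apply]
  by_cases hi : i = i0
  · rw [hi]
    exact e1
  · have h1 : z i = 0 := by rw [hz0]; rfl
    have h2 : (2 * a i - μ) * (w : E n) i = 0 := h1
    rcases mul_eq_zero.1 h2 with h3 | h3
    · exact absurd (by linarith : 2 * a i = μ) (hi0 i hi)
    · exact h3

end Pool.Agent.VANn
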