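import Pool.Agent.VANn.RS3
import Pool.Agent.VANn.RS4
import Pool.Agent.GNP.WA3

/-!
Phases on the unit sphere of `R^n` without tangential eigenvalues of high multiplicity: the
restriction estimate without loss, for superpositions of rotated and modulated densities with
amplitudes of bounded variation.
-/

namespace Pool.Agent.VANn

open MeasureTheory Set Metric Module Pool.Agent.MP_6cbfb8_an Pool.Agent.VAN Pool.Agent.GNP
open scoped ENNReal Real ContDiff Topology

variable {n : ℕ}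

namespace FT

/-- The derivative along a rotation depends on the values on the sphere only. -/
theorem XX_congr_sphere {f g : E n → ℝ} {x a b : E n} (hf : DifferentiableAt ℝ f x)
    (hg : DifferentiableAt ℝ g x) (h : OP a b) (hx : ‖x‖ = 1)
    (hfg : ∀ y : E n, ‖y‖ = 1 → f y = g y) : XX a b f x = XX a b g x := by
  have key : ∀ f : E n → ℝ, DifferentiableAt ℝ f x →
      HasDerivAt (fun t : ℝ => f (rot a b t x)) (XX a b f x) 0 := by
    intro f hf
    have h1 := hasDerivAt_rot h 0 x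
    have h2 : HasFDerivAt f (fderiv ℝ f (rot a b 0 x)) (rot a b 0 x) := by
      rw [rot_zero]
      exact hf.hasFDerivAt
    have h3 := h2.comp_hasDerivAt (0 : ℝ) h1
    rw [rot_zero] at h3
    exact h3
  have h1 := key f hf
  have h2 := key g hg
  have h3 : (fun t : ℝ => f (rot a b t x)) = fun t : ℝ => g (rot a b t x) := by
    funext t
    exact hfg _ (by rw [norm_rot h, hx])
  rw [h3] at h1
  exact h1.unique h2

end FT

/-- Two functions which agree on the sphere: the second derivatives along the sphere differ by a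
multiple of the metric. -/
theorem fderiv2_sphere {φ F : E n → ℝ} (hφ : ∀ x, ‖x‖ = 1 → ContDiffAt ℝ 2 φ x)
    (hF : ∀ x, ‖x‖ = 1 → ContDiffAt ℝ 2 F x) (h : ∀ x, ‖x‖ = 1 → F x = φ x) {x : E n}
    (hx : ‖x‖ = 1) {w u : E n} (hw : inner ℝ x w = (0 : ℝ)) (hu : inner ℝ x u = (0 : ℝ)) :
    fderiv ℝ (fderiv ℝ F) x w u = fderiv ℝ (fderiv ℝ φ) x w u +
      (fderiv ℝ F x x - fderiv ℝ φ x x) * inner ℝ w u := by
  have hd : ∀ f : E n → ℝ, (∀ x, ‖x‖ = 1 → ContDiffAt ℝ 2 f x) → ∀ y, ‖y‖ = 1 →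
      DifferentiableAt ℝ f y := fun f hf y hy => (hf y hy).differentiableAt (by norm_num)
  have hd2 : ∀ f : E n → ℝ, (∀ x, ‖x‖ = 1 → ContDiffAt ℝ 2 f x) → ∀ a b : E n,
      DifferentiableAt ℝ (FT.XX a b f) x := by
    intro f hf a b
    have h0 : DifferentiableAt ℝ (fderiv ℝ f) x :=
      ((hf x hx).fderiv_right (m := 1) (by norm_num)).differentiableAt (by norm_num)
    unfold FT.XX
    exact h0.clm_apply (FT.gen a b).differentiableAt
  have hq : ∀ v : E n, ‖v‖ = 1 → inner ℝ x v = (0 : ℝ) →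
      fderiv ℝ (fderiv ℝ F) x v v - fderiv ℝ F x x =
        fderiv ℝ (fderiv ℝ φ) x v v - fderiv ℝ φ x x := by
    intro v hv hxv
    have hop : FT.OP x v := ⟨hx, hv, hxv⟩
    rw [← FT.XX_two (hF x hx) hop, ← FT.XX_two (hφ x hx) hop]
    exact FT.XX_congr_sphere (hd2 F hF x v) (hd2 φ hφ x v) hop hx fun y hy =>
      FT.XX_congr_sphere (hd F hF y hy) (hd φ hφ y hy) hop hy h
  have hs : ∀ f : E n → ℝ, (∀ x, ‖x‖ = 1 → ContDiffAt ℝ 2 f x) → ∀ v w,
      fderiv ℝ (fderiv ℝ f) x v w = fderiv ℝ (fderiv ℝ f) x w v := by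
    intro f hf v w
    have h3 : IsSymmSndFDerivAt ℝ f x := (hf x hx).isSymmSndFDerivAt (by simp)
    exact h3 v w
  -- polarisation
  have key : ∀ w u : E n, ‖w‖ ≤ 1 → ‖u‖ ≤ 1 → inner ℝ x w = (0 : ℝ) → inner ℝ x u = (0 : ℝ) →
      fderiv ℝ (fderiv ℝ F) x w u = fderiv ℝ (fderiv ℝ φ) x w u +
        (fderiv ℝ F x x - fderiv ℝ φ x x) * inner ℝ w u := by
    intro w u hw1 hu1 hxw hxu
    have h1 := FT.polar_le (T := fderiv ℝ (fderiv ℝ F) x - fderiv ℝ (fderiv ℝ φ) x) (x := x)
      (μ := fderiv ℝ F x x - fderiv ℝ φ x x) (b := 0) (fun v w => by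
        simp only [sub_apply]
        rw [hs F hF v w, hs φ hφ v w]) (fun v hv hxv => by
        have h2 := hq v hv hxv
        simp only [sub_apply]
        have h3 : fderiv ℝ (fderiv ℝ F) x v v - fderiv ℝ (fderiv ℝ φ) x v v -
            (fderiv ℝ F x x - fderiv ℝ φ x x) = 0 := by linarith
        rw [h3, abs_zero]) hw1 hu1 hxw hxu le_rfl
    have h2 := abs_nonpos_iff.1 h1
    simp only [sub_apply] at h2
    linarith
  -- scaling
  set r : ℝ := (1 + ‖w‖)⁻¹ with hr
  set t : ℝ := (1 + ‖u‖)⁻¹ with ht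
  have hr0 : 0 < r := by positivity
  have ht0 : 0 < t := by positivity
  have h1 := key (r • w) (t • u) (by
      rw [norm_smul, Real.norm_eq_abs, abs_of_pos hr0, hr, inv_mul_le_one₀ (by positivity)]
      linarith) (by
      rw [norm_smul, Real.norm_eq_abs, abs_of_pos ht0, ht, inv_mul_le_one₀ (by positivity)]
      linarith) (by rw [inner_smul_right, hw, mul_zero]) (by rw [inner_smul_right, hu, mul_zero])
  simp only [map_smul, smul_apply, smul_eq_mul, real_inner_smul_left, real_inner_smul_right] at h1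
  have h2 : r * t * (fderiv ℝ (fderiv ℝ F) x w u - (fderiv ℝ (fderiv ℝ φ) x w u +
      (fderiv ℝ F x x - fderiv ℝ φ x x) * inner ℝ w u)) = 0 := by linarith
  rcases mul_eq_zero.1 h2 with h3 | h3
  · exact absurd h3 (by positivity)
  · linarith

/-- The condition on the multiplicities depends on the values on the sphere only. -/
theorem mult_of_sphere {j : ℕ} {φ F : E n → ℝ} (hφ : ∀ x, ‖x‖ = 1 → ContDiffAt ℝ 2 φ x)
    (hF : ∀ x, ‖x‖ = 1 → ContDiffAt ℝ 2 F x) (h : ∀ x, ‖x‖ = 1 → F x = φ x)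
    (hM : MultLt n j φ) : MultLt n j F := by
  intro x hx μ W hW hd
  obtain ⟨w, hw, u, hu, hne⟩ := hM x hx (μ - (fderiv ℝ F x x - fderiv ℝ φ x x)) W hW hd
  refine ⟨w, hw, u, hu, fun hcon => hne ?_⟩
  rw [fderiv2_sphere hφ hF h hx (hW w hw) hu] at hcon
  linarith

/-- `BdA` depends on the values of the phase on the sphere only. -/
theorem bdA_congr_sphere {s V : ℝ} {φ ψ : E n → ℝ} {p : ℝ} (h : ∀ x : E n, ‖x‖ = 1 → φ x = ψ x)
    (H : BdA n s V φ p) : BdA n s V ψ p := by
  obtain ⟨C, hC, H⟩ := H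
  refine ⟨C, hC, fun W _ ν hν R η l B a hR hη hl hBm ham hB hv ha1 hbv => ?_⟩
  refine le_trans (le_of_eq ?_) (H W _ ν hν R η l B a hR hη hl hBm ham hB hv ha1 hbv)
  refine lintegral_congr fun ξ => ?_
  have h3 : extn (mix ν R η fun w x => a w x *
        (Complex.exp (((l w * ψ x : ℝ) : ℂ) * Complex.I) * B w (ψ x))) ξ =
      extn (mix ν R η fun w x => a w x *
        (Complex.exp (((l w * φ x : ℝ) : ℂ) * Complex.I) * B w (φ x))) ξ := by
    refine congrFun (Pool.Agent.MP_6cbfb8_an.extn_congr_sphere fun x hx => ?_) ξ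
    unfold mix
    refine integral_congr_ae (ae_of_all _ fun w => ?_)
    simp only
    rw [h (R w x) (by rw [(R w).norm_map]; exact hx)]
  rw [h3]

/-- **Phases without tangential eigenvalues of high multiplicity**, over the estimate with a small
loss on the classes `MopS`: no loss, superpositions, amplitudes of bounded variation. -/
theorem bdA_of_mult (hn : 2 ≤ n) {j : ℕ} (hj : 1 ≤ j) {p0 s : ℝ} (hp0 : 1 ≤ p0) (hs : 0 < s)
    (hs1 : s ≤ 1) (H : ∀ η : ℝ, 0 < η → LossSAC n p0 s (MS n j η)) (φ : E n → ℝ)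
    (hφ : ∀ x ∈ sphere (0 : E n) 1, ContDiffAt ℝ ((⊤ : ℕ∞) : WithTop ℕ∞) φ x) (hM : MultLt n j φ) (V p : ℝ)
    (hp : p0 < p) : BdA n s V φ p := by
  obtain ⟨F, hF, -, hFφ⟩ := extend φ hφ
  have hFφ' : ∀ x, ‖x‖ = 1 → F x = φ x := fun x hx => hFφ x (by simpa using hx)
  have h2 : (2 : WithTop ℕ∞) ≤ ((⊤ : ℕ∞) : WithTop ℕ∞) := WithTop.coe_le_coe.2 (le_top : (2 : ℕ∞) ≤ ⊤)
  have hMF : MultLt n j F := mult_of_sphere
    (fun x hx => (hφ x (by simpa using hx)).of_le h2) (fun x _ => hF.contDiffAt.of_le h2) hFφ' hM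
  obtain ⟨κ, hκ, hQ⟩ := multQ_of_mult (fun x _ => hF.contDiffAt.of_le h2) hMF
  have hB : ∀ k : ℕ, ∃ B : ℝ, ∀ y ∈ closedBall (0 : E n) 2, ‖iteratedFDeriv ℝ k F y‖ ≤ B := by
    intro k
    exact (isCompact_closedBall (0 : E n) 2).exists_bound_of_continuousOn
      ((hF.continuous_iteratedFDeriv (m := k) (by exact_mod_cast le_top)).continuousOn)
  choose B hB using hB
  have hcls : ClsQ n j κ B F := ⟨hF, fun k y hy => hB k y (by simpa using hy),
    fun x hx => hQ F x hx (by rw [sub_self, ContinuousLinearMap.opNorm_zero]; exact hκ.le)⟩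
  obtain ⟨c, η, hc, hη, hfin⟩ := finType_of_clsQ hn hj hκ B
  obtain ⟨hft, hms⟩ := hfin F hcls
  have hfa : ∀ a : Fin 1 → ℝ, fam (fun _ : Fin 1 => F) a = fun y => a 0 * F y := by
    intro a
    funext y
    simp [fam]
  have hub := ub_densAC hn hp0 hs hs1 (H η hη) (fun φ h r => MS.mul h r) 1 1 2 c hc B V p hp
  obtain ⟨C, hC, hub⟩ := hub
  have hFm : Measurable F := hF.continuous.measurable
  have hem : ∀ l : ℝ, Measurable fun x : E n => Complex.exp (((l * F x : ℝ) : ℂ) * Complex.I) := by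
    intro l
    exact (Complex.continuous_exp.comp ((Complex.continuous_ofReal.comp
      (continuous_const.mul hF.continuous)).mul continuous_const)).measurable
  -- one cut
  have key : ∀ w : E n → ℂ, Measurable w → (∀ x, ‖w x‖ ≤ 1) → BVn n s V w → ∀ l b t : ℝ,
      ∫⁻ ξ, ‖extn (fun x => w x * (Complex.exp (((l * F x : ℝ) : ℂ) * Complex.I) *
        if 0 < b * F x + t then 1 else 0)) ξ‖ₑ ^ p ≤ C := by
    intro w hw hw1 hwV l b t
    refine hub _ ?_ ?_ ⟨w, fun _ => F, fun _ => l, fun _ _ => b, fun _ => 0, fun _ => t,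
      ⟨hw, hw1, hwV⟩, hft, fun a => ?_, ?_⟩
    · refine hw.mul ((hem l).mul ?_)
      exact Measurable.ite (measurableSet_lt measurable_const
        ((measurable_const.mul hFm).add measurable_const)) measurable_const measurable_const
    · intro x
      rw [norm_mul, norm_mul, Complex.norm_exp_ofReal_mul_I, one_mul]
      refine mul_le_one₀ (hw1 x) (norm_nonneg _) ?_
      split_ifs <;> simp
    · rw [hfa]
      exact hms.mul _
    · funext x
      unfold famA
      rw [hfa]
      simp only [Finset.univ_unique, Finset.prod_const, Finset.card_singleton, pow_one, hfa,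
        inner_zero_right, add_zero]
  refine bdA_congr_sphere hFφ' (bdA_of_cuts s V F hFm (by linarith) hC fun a ha ha1 haV l t =>
    ⟨?_, ?_, ?_⟩)
  · have h1 := key a ha ha1 haV l 0 1
    simpa using h1
  · have h1 := key a ha ha1 haV l 1 (-t)
    have e : ∀ x : E n, (0 < 1 * F x + -t) = (t < F x) := fun x => by
      rw [one_mul]
      exact propext ⟨fun h => by linarith, fun h => by linarith⟩
    simpa only [e] using h1
  · have h1 := key a ha ha1 haV l (-1) t
    have e : ∀ x : E n, (0 < -1 * F x + t) = (F x < t) := fun x =>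
      propext ⟨fun h => by linarith, fun h => by linarith⟩
    simpa only [e] using h1

end Pool.Agent.VANn
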