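import Pool.Agent.VANn.RS6
import Pool.Agent.GNP.M8
import Pool.Agent.GNP.AB8

/-!
All dimensions `n ≥ 3`: phases on the unit sphere of `R^n` without tangential eigenvalues of
multiplicity larger than `2(n-1)/3`.
-/

namespace Pool.Agent.VANn

open MeasureTheory Set Metric Module Pool.Agent.MP_6cbfb8_an Pool.Agent.VAN Pool.Agent.GNP
open scoped ENNReal Real ContDiff Topology

variable {n : ℕ}

/-- The estimate with a small loss on the class. -/
theorem lossC_of_oneM {j : ℕ} {p0 η : ℝ} (H : OneLossM n j p0) (hη : 0 < η) :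
    LossC n p0 (MS n j η) := by
  intro p hp ε hε B
  obtain ⟨K, hK, h⟩ := H p ε η hp hε hη fun k => |B k| + 1
  refine ⟨K, hK, fun φ hφ hB hM c => ?_⟩
  have h1 := h φ (fun _ => 1) hφ (fun x _ => contDiffAt_const)
    (fun k x hx => (hB k x hx).trans (by linarith [le_abs_self (B k)]))
    (fun k x _ => by
      rcases Nat.eq_zero_or_pos k with rfl | hk
      · rw [norm_iteratedFDeriv_zero]
        simp
      · rw [iteratedFDeriv_const_of_ne hk.ne']
        simp only [Pi.zero_apply, norm_zero]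
        positivity) hM c
  simpa only [one_mul] using h1

/-- The estimate with a small loss on the class, amplitudes of bounded variation. -/
theorem lossSAC_of_oneMA {j : ℕ} {p0 s η : ℝ} (H : OneLossMA n j p0 s) (hη : 0 < η) :
    LossSAC n p0 s (MS n j η) := by
  intro V hV p hp ε hε B
  obtain ⟨K, hK, h⟩ := H V hV p hp ε hε η hη B
  exact ⟨K, hK, fun φ w hφ hB hM hw c => h φ w hφ hB hM hw c⟩

/-- **Every phase without tangential eigenvalues of multiplicity larger than `2(n-1)/3`.** -/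
theorem bdA_mult (n : ℕ) (hn : 3 ≤ n) (φ : E n → ℝ)
    (hφ : ∀ x ∈ sphere (0 : E n) 1, ContDiffAt ℝ ((⊤ : ℕ∞) : WithTop ℕ∞) φ x)
    (hM : MultLt n ((n + 1) / 3) φ) (p V : ℝ) (hp : 2 * (n : ℝ) / (n - 1) < p) :
    BdA n 1 V φ p := by
  have hn0 : (3 : ℝ) ≤ n := by exact_mod_cast hn
  refine bdA_of_mult (by omega) (by omega) ?_ one_pos le_rfl
    (fun η hη => lossSAC_of_oneMA (oneLossMA n hn) hη) φ hφ hM V p hp
  rw [le_div_iff₀ (by linarith)]
  linarith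

/-- Quadratic forms with distinct coefficients. -/
theorem mult_diag_third (n : ℕ) (hn : 4 ≤ n) (a : Fin n → ℝ) (ha : Function.Injective a) :
    MultLt n ((n + 1) / 3) fun y : E n => ∑ i, a i * y i ^ 2 :=
  mult_diag (by omega) a ha

theorem multLt_of_multQ {j : ℕ} {κ : ℝ} (hκ : 0 < κ) {φ : E n → ℝ}
    (h : ∀ x, ‖x‖ = 1 → MultQ n j κ φ x) : MultLt n j φ := by
  intro x hx μ W hW hd
  obtain ⟨w, hw, u, -, -, h3, h4⟩ := h x hx μ W hW hd
  refine ⟨w, hw, u, h3, fun hcon => ?_⟩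
  rw [hcon, sub_self, abs_zero] at h4
  exact absurd h4 (not_le.2 hκ)

/-- **An open set of phases.** -/
theorem bdA_near (n : ℕ) (hn : 3 ≤ n) (φ : E n → ℝ)
    (hφ : ∀ x ∈ sphere (0 : E n) 1, ContDiffAt ℝ ((⊤ : ℕ∞) : WithTop ℕ∞) φ x)
    (hM : MultLt n ((n + 1) / 3) φ) : ∃ κ : ℝ, 0 < κ ∧ ∀ ψ : E n → ℝ,
      (∀ x ∈ sphere (0 : E n) 1, ContDiffAt ℝ ((⊤ : ℕ∞) : WithTop ℕ∞) ψ x ∧
        ‖fderiv ℝ (fderiv ℝ ψ) x - fderiv ℝ (fderiv ℝ φ) x‖ ≤ κ) →
      ∀ p V : ℝ, 2 * (n : ℝ) / (n - 1) < p → BdA n 1 V ψ p := by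
  have h2 : (2 : WithTop ℕ∞) ≤ ((⊤ : ℕ∞) : WithTop ℕ∞) :=
    WithTop.coe_le_coe.2 (le_top : (2 : ℕ∞) ≤ ⊤)
  obtain ⟨κ, hκ, h⟩ := multQ_of_mult (fun x hx => (hφ x (by simpa using hx)).of_le h2) hM
  refine ⟨κ, hκ, fun ψ hψ p V hp => ?_⟩
  refine bdA_mult n hn ψ (fun x hx => (hψ x hx).1) (multLt_of_multQ hκ fun x hx => ?_) p V hp
  exact h ψ x hx (hψ x (by simpa using hx)).2

end Pool.Agent.VANn
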