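import Pool.Agent.VAN.A
import Pool.Agent.VANn.T1
import Pool.Agent.MP_6cbfb8_an.Sphere

/-!
Averaging over rotations and the decay of oscillatory integrals on the sphere.
-/

set_option autoImplicit false

namespace Pool.Agent.VANn.FT

open MeasureTheory Set Metric Pool.Agent.MP_6cbfb8_an Pool.Agent.VAN
open scoped ENNReal Real

variable {n : ℕ}

theorem rot_add (a b : E n) (t : ℝ) (x y : E n) :
    rot a b t (x + y) = rot a b t x + rot a b t y := by
  simp only [rot, inner_add_right]
  module

theorem rot_smul (a b : E n) (t r : ℝ) (x : E n) : rot a b t (r • x) = r • rot a b t x := by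
  simp only [rot, inner_smul_right]
  module

/-- the rotation as a linear isometry -/
noncomputable def rotI {a b : E n} (h : OP a b) (t : ℝ) : E n →ₗᵢ[ℝ] E n where
  toFun := rot a b t
  map_add' := rot_add a b t
  map_smul' := rot_smul a b t
  norm_map' := norm_rot h t

/-- the rotation as a linear isometry equivalence -/
noncomputable def rotE {a b : E n} (h : OP a b) (t : ℝ) : E n ≃ₗᵢ[ℝ] E n :=
  (rotI h t).toLinearIsometryEquiv rfl

theorem rotE_apply {a b : E n} (h : OP a b) (t : ℝ) (x : E n) : rotE h t x = rot a b t x := rfl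

theorem int_isometry (R : E n ≃ₗᵢ[ℝ] E n) (F : E n → ℂ) :
    ∫ x : S n, F (R x) ∂sm n = ∫ x : S n, F x ∂sm n := by
  have hme : MeasurableEmbedding (fun x : S n => (⟨R x, by simp⟩ : S n)) := by
    have h1 : Continuous (fun x : S n => (⟨R x, by simp⟩ : S n)) :=
      (R.continuous.comp continuous_subtype_val).subtype_mk _
    refine h1.measurableEmbedding ?_
    intro a b hab
    have : R (a : E n) = R (b : E n) := congrArg Subtype.val hab
    exact Subtype.ext (R.injective this)
  exact (measurePreserving_isometry R).integral_comp hme (fun x : S n => F x)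

theorem norm_gen_le {a b : E n} (h : OP a b) (y : E n) : ‖gen a b y‖ ≤ ‖y‖ := by
  rw [gen_apply]
  have h1 : ‖inner ℝ a y • b - inner ℝ b y • a‖ ^ 2 = inner ℝ a y ^ 2 + inner ℝ b y ^ 2 := by
    rw [← real_inner_self_eq_norm_sq]
    simp only [inner_sub_left, inner_sub_right, inner_smul_left, inner_smul_right,
      RCLike.conj_to_real, h.aa, h.bb, h.ba, h.2.2]
    ring
  have h2 : 0 ≤ ‖y - inner ℝ a y • a - inner ℝ b y • b‖ ^ 2 := by positivity
  have h3 : ‖y - inner ℝ a y • a - inner ℝ b y • b‖ ^ 2 =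
      ‖y‖ ^ 2 - inner ℝ a y ^ 2 - inner ℝ b y ^ 2 := by
    rw [← real_inner_self_eq_norm_sq, ← real_inner_self_eq_norm_sq]
    simp only [inner_sub_left, inner_sub_right, inner_smul_left, inner_smul_right,
      RCLike.conj_to_real, h.aa, h.bb, h.ba, h.2.2]
    rw [real_inner_comm a y, real_inner_comm b y]
    ring
  have h4 : ‖inner ℝ a y • b - inner ℝ b y • a‖ ^ 2 ≤ ‖y‖ ^ 2 := by
    rw [h1]
    rw [h3] at h2
    linarith
  exact (sq_le_sq₀ (norm_nonneg _) (norm_nonneg _)).1 h4

theorem norm_rot_sub_le {a b : E n} (h : OP a b) (t : ℝ) (y : E n) :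
    ‖rot a b t y - y‖ ≤ |t| * ‖y‖ := by
  have h1 := (convex_univ (𝕜 := ℝ) (E := ℝ)).norm_image_sub_le_of_norm_hasDerivWithin_le
    (f := fun t => rot a b t y) (f' := fun t => gen a b (rot a b t y)) (C := ‖y‖) (x := 0) (y := t)
    (fun s _ => (hasDerivAt_rot h s y).hasDerivWithinAt)
    (fun s _ => (norm_gen_le h _).trans (norm_rot h s y).le) (mem_univ _) (mem_univ _)
  simp only [rot_zero, sub_zero, Real.norm_eq_abs] at h1
  rw [mul_comm]
  exact h1

theorem continuous_rot (a b : E n) : Continuous fun q : ℝ × E n => rot a b q.1 q.2 := by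
  unfold rot
  fun_prop

theorem inner_unit {x z : E n} (hx : ‖x‖ = 1) (hz : ‖z‖ = 1) :
    dist x z ^ 2 = 2 - 2 * inner ℝ x z := by
  rw [dist_eq_norm, ← real_inner_self_eq_norm_sq]
  simp only [inner_sub_left, inner_sub_right, real_inner_self_eq_norm_sq, hx, hz]
  rw [real_inner_comm x z]
  ring

/-- averaging over the rotations by angles in `[0,T]` -/
theorem int_avg {a b : E n} (h : OP a b) {T : ℝ} (hT : 0 ≤ T) (F : E n → ℂ)
    (hF : ContinuousOn F (sphere (0 : E n) 1)) (hb : ∀ x ∈ sphere (0 : E n) 1, ‖F x‖ ≤ 1) :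
    (T : ℂ) * ∫ x : S n, F x ∂sm n =
      ∫ x : S n, (∫ t in (0 : ℝ)..T, F (rot a b t x)) ∂sm n := by
  have hcont : Continuous fun q : ℝ × S n => F (rot a b q.1 (q.2 : E n)) := by
    have h1 : Continuous fun q : ℝ × S n => (⟨rot a b q.1 (q.2 : E n), by
        rw [mem_sphere_zero_iff_norm, norm_rot h]; exact mem_sphere_zero_iff_norm.1 q.2.2⟩ :
          S n) := by
      refine Continuous.subtype_mk ?_ _
      exact (continuous_rot a b).comp (continuous_fst.prodMk
        (continuous_subtype_val.comp continuous_snd))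
    have h2 : Continuous fun x : S n => F x := continuousOn_iff_continuous_domRestrict.1 hF
    exact h2.comp h1
  have hint : Integrable (Function.uncurry fun (t : ℝ) (x : S n) => F (rot a b t (x : E n)))
      ((volume.restrict (Ioc 0 T)).prod (sm n)) := by
    refine Integrable.of_bound (C := 1) hcont.aestronglyMeasurable ?_
    refine Filter.Eventually.of_forall fun q => hb _ ?_
    rw [mem_sphere_zero_iff_norm, norm_rot h]
    exact mem_sphere_zero_iff_norm.1 q.2.2
  have hswap := integral_integral_swap hint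
  have e1 : ∀ x : S n, (∫ t in (0 : ℝ)..T, F (rot a b t x)) =
      ∫ t in Ioc 0 T, F (rot a b t (x : E n)) := fun x => intervalIntegral.integral_of_le hT
  simp_rw [e1]
  rw [← hswap]
  have e2 : ∀ t : ℝ, ∫ x : S n, F (rot a b t (x : E n)) ∂sm n = ∫ x : S n, F x ∂sm n := fun t =>
    int_isometry (rotE h t) F
  simp_rw [e2]
  rw [setIntegral_const, Measure.real, Real.volume_Ioc, sub_zero, ENNReal.toReal_ofReal hT]
  simp

/-- the bump around `z` -/
noncomputable def bk (s0 : ℝ) (z x : E n) : ℝ := Real.smoothTransition (inner ℝ x z - s0)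

theorem bk_nonneg (s0 : ℝ) (z x : E n) : 0 ≤ bk s0 z x := Real.smoothTransition.nonneg _

theorem bk_le_one (s0 : ℝ) (z x : E n) : bk s0 z x ≤ 1 := Real.smoothTransition.le_one _

theorem continuous_bk (s0 : ℝ) : Continuous fun q : E n × E n => bk s0 q.1 q.2 := by
  unfold bk
  exact Real.smoothTransition.continuous.comp (by fun_prop)

theorem deriv_st_bound : ∃ M1 : ℝ, 0 ≤ M1 ∧ ∀ s ∈ Icc (-3 : ℝ) 3,
    |deriv Real.smoothTransition s| ≤ M1 := by
  have hc : Continuous (deriv Real.smoothTransition) :=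
    (Real.smoothTransition.contDiff (n := 1)).continuous_deriv le_rfl
  obtain ⟨M, hM⟩ := isCompact_Icc.exists_bound_of_continuousOn (s := Icc (-3 : ℝ) 3)
    hc.continuousOn
  exact ⟨|M|, abs_nonneg _, fun s hs => (hM s hs).trans (le_abs_self _)⟩

/-- the data needed from one rotation: `f` has the chain of derivatives along all rotations -/
def Chain (f : E n → ℝ) : Prop := ∀ a b : E n, OP a b → ∀ k : ℕ, ∀ y : E n, ‖y‖ = 1 → ∀ t : ℝ,
  HasDerivAt (fun t => (XX a b)^[k] f (rot a b t y)) ((XX a b)^[k + 1] f (rot a b t y)) t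

theorem hasDerivAt_bk_rot {a b : E n} (h : OP a b) (s0 : ℝ) (z y : E n) (t : ℝ) :
    HasDerivAt (fun t => bk s0 z (rot a b t y))
      (deriv Real.smoothTransition (inner ℝ (rot a b t y) z - s0) *
        inner ℝ (gen a b (rot a b t y)) z) t := by
  unfold bk
  have h1 : HasDerivAt (fun t => inner ℝ (rot a b t y) z - s0)
      (inner ℝ (gen a b (rot a b t y)) z) t := by
    have h2 := (hasDerivAt_rot h t y).inner ℝ (hasDerivAt_const t z)
    simp only [inner_zero_right, zero_add] at h2
    exact h2.sub_const s0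
  have h3 : HasDerivAt Real.smoothTransition
      (deriv Real.smoothTransition (inner ℝ (rot a b t y) z - s0))
      (inner ℝ (rot a b t y) z - s0) :=
    ((Real.smoothTransition.contDiff (n := 1)).differentiable one_ne_zero _).hasDerivAt
  exact h3.comp t h1

theorem continuousOn_of_chain_ei {f : E n → ℝ} (hf : ContinuousOn f (sphere (0 : E n) 1)) (s0 : ℝ)
    (z : E n) : ContinuousOn (fun x : E n => ((bk s0 z x : ℝ) : ℂ) * ei (f x))
      (sphere (0 : E n) 1) := by
  refine ContinuousOn.mul ?_ (continuous_ei.comp_continuousOn hf)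
  refine (Complex.continuous_ofReal.comp ?_).continuousOn
  exact (continuous_bk s0).comp (continuous_const.prodMk continuous_id)

theorem norm_bk_ei (s0 : ℝ) (z x : E n) (r : ℝ) : ‖((bk s0 z x : ℝ) : ℂ) * ei r‖ ≤ 1 := by
  rw [norm_mul, norm_ei, mul_one, Complex.norm_real, Real.norm_eq_abs,
    abs_of_nonneg (bk_nonneg _ _ _)]
  exact bk_le_one _ _ _

theorem exists_isometry_map (hn : 2 ≤ n) {x x' : E n} (hx : ‖x‖ = 1) (hx' : ‖x'‖ = 1) :
    ∃ R : E n ≃ₗᵢ[ℝ] E n, R x = x' := by
  obtain ⟨b, hb, θ, hθ⟩ := exists_great_circle hn hx hx'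
  exact ⟨rotE hb θ, by rw [rotE_apply, hθ]⟩

theorem bump_mass (hn : 2 ≤ n) (s0 : ℝ) (hs0 : s0 < 1) : ∃ B0 : ℝ, 0 < B0 ∧ ∀ x : E n, ‖x‖ = 1 →
    ∫ z : S n, bk s0 z x ∂sm n = B0 := by
  have hinv : ∀ x x' : E n, ‖x‖ = 1 → ‖x'‖ = 1 →
      ∫ z : S n, bk s0 z x' ∂sm n = ∫ z : S n, bk s0 z x ∂sm n := by
    intro x x' hx hx'
    obtain ⟨R, hR⟩ := exists_isometry_map hn hx hx'
    have h1 := int_isometry R (fun z => ((bk s0 z x' : ℝ) : ℂ))
    have h2 : ∀ z : S n, bk s0 (R z) x' = bk s0 z x := fun z => by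
      unfold bk
      rw [← hR, R.inner_map_map]
    simp_rw [h2] at h1
    rw [integral_complex_ofReal, integral_complex_ofReal] at h1
    exact_mod_cast h1.symm
  have hint : ∀ x : E n, Integrable (fun z : S n => bk s0 z x) (sm n) := fun x => by
    refine Integrable.of_bound (C := 1) ?_ ?_
    · exact ((continuous_bk s0).comp
        (continuous_subtype_val.prodMk continuous_const)).aestronglyMeasurable
    · refine Filter.Eventually.of_forall fun z => ?_
      rw [Real.norm_eq_abs, abs_of_nonneg (bk_nonneg _ _ _)]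
      exact bk_le_one _ _ _
  obtain ⟨x0, hx0, -⟩ := exists_unit_orth hn (0 : E n)
  refine ⟨∫ z : S n, bk s0 z x0 ∂sm n, ?_, fun x hx => hinv x0 x hx0 hx⟩
  have hc : Continuous fun z : S n => bk s0 z x0 :=
    (continuous_bk s0).comp (continuous_subtype_val.prodMk continuous_const)
  refine hc.integral_pos_of_hasCompactSupport_nonneg_nonzero ?_ ?_ (x := ⟨x0, by simpa using hx0⟩) ?_
  · exact HasCompactSupport.of_compactSpace _
  · exact fun z => bk_nonneg _ _ _
  · unfold bk
    simp only
    apply ne_of_gt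
    apply Real.smoothTransition.pos_of_pos
    rw [real_inner_self_eq_norm_sq, hx0]
    linarith

end Pool.Agent.VANn.FT
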