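import Pool.Agent.VAN.CU

/-!
Tame functions on the sphere of `R^n`: approximation by polynomials on few basic semialgebraic cells;
and the restriction estimate with an arbitrarily small loss for tame phases, over the estimate for
polynomial phases and cuts.
-/

set_option autoImplicit false

namespace Pool.Agent.VANn.TM

open MeasureTheory Set MvPolynomial Pool.Agent.MP_6cbfb8_an Filter Topology
open Pool.Agent.VAN (measurable_extn' integrable_extn norm_exp_sub_le tele)
open scoped ENNReal Real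

variable {n : ℕ}

/-- The density `e^{iP}`, cut by the sets where the `Q i` are positive. -/
noncomputable def pol (P : MvPolynomial (Fin n) ℝ) {N : ℕ} (Q : Fin N → MvPolynomial (Fin n) ℝ)
    (x : E n) : ℂ :=
  Complex.exp (((eval (fun i => x i) P : ℝ) : ℂ) * Complex.I) *
    ∏ i, if 0 < eval (fun j => x j) (Q i) then 1 else 0

/-- The exponential of a polynomial phase. -/
noncomputable def pex (T : MvPolynomial (Fin n) ℝ) (x : E n) : ℂ :=
  Complex.exp (((eval (fun i => x i) T : ℝ) : ℂ) * Complex.I)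

lemma measurable_evn (T : MvPolynomial (Fin n) ℝ) : Measurable fun x : E n => eval (fun i => x i) T := by
  have h1 : Continuous fun x : E n => eval (fun i => x i) T := by
    apply MvPolynomial.continuous_eval T |>.comp
    exact continuous_pi fun i => by fun_prop
  exact h1.measurable

lemma measurable_pex (T : MvPolynomial (Fin n) ℝ) : Measurable (pex T) := by
  unfold pex
  have := measurable_evn T
  fun_prop

lemma norm_pex (T : MvPolynomial (Fin n) ℝ) (x : E n) : ‖pex T x‖ = 1 := by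
  unfold pex
  exact Complex.norm_exp_ofReal_mul_I _

lemma measurable_pol (P : MvPolynomial (Fin n) ℝ) {N : ℕ} (Q : Fin N → MvPolynomial (Fin n) ℝ) :
    Measurable (pol P Q) := by
  unfold pol
  refine (measurable_pex P).mul (Finset.measurable_prod _ fun i _ => ?_)
  exact Measurable.ite (measurableSet_lt measurable_const (measurable_evn (Q i))) measurable_const
    measurable_const

lemma norm_pol_le (P : MvPolynomial (Fin n) ℝ) {N : ℕ} (Q : Fin N → MvPolynomial (Fin n) ℝ)
    (x : E n) : ‖pol P Q x‖ ≤ 1 := by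
  unfold pol
  rw [norm_mul, Complex.norm_exp_ofReal_mul_I, one_mul, norm_prod]
  refine Finset.prod_le_one (fun i _ => norm_nonneg _) fun i _ => ?_
  split_ifs <;> simp

/-- The estimate for polynomial phases of bounded degree with boundedly many polynomial cuts, with
one constant, in the range `p > p0`. -/
def Base (n : ℕ) (p0 : ℝ) : Prop := ∀ (D N : ℕ) (p : ℝ), p0 < p → ∃ C : ℝ≥0∞, C ≠ ∞ ∧
  ∀ (P : MvPolynomial (Fin n) ℝ) (Q : Fin N → MvPolynomial (Fin n) ℝ), P.totalDegree ≤ D →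
    (∀ i, (Q i).totalDegree ≤ D) → ∫⁻ ξ, ‖extn (pol P Q) ξ‖ₑ ^ p ≤ C

/-- The value of a polynomial at a point. -/
noncomputable def ev (q : MvPolynomial (Fin n) ℝ) (x : E n) : ℝ := eval (fun i => x i) q

/-- The indicator of a basic semialgebraic set: the conditions are `q i > 0` if `b i` is true, and
`q i ≤ 0` otherwise. -/
noncomputable def bc {N : ℕ} (q : Fin N → MvPolynomial (Fin n) ℝ) (b : Fin N → Bool) (x : E n) : ℝ :=
  ∏ i, if b i then (if 0 < ev (q i) x then 1 else 0) else (if 0 < ev (q i) x then 0 else 1)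

lemma bc_cases {N : ℕ} (q : Fin N → MvPolynomial (Fin n) ℝ) (b : Fin N → Bool) (x : E n) :
    bc q b x = 0 ∨ bc q b x = 1 := by
  unfold bc
  by_cases h : ∀ i, (if b i then (if 0 < ev (q i) x then (1:ℝ) else 0) else
      (if 0 < ev (q i) x then 0 else 1)) = 1
  · exact Or.inr (Finset.prod_eq_one fun i _ => h i)
  · push Not at h
    obtain ⟨i, hi⟩ := h
    refine Or.inl (Finset.prod_eq_zero (Finset.mem_univ i) ?_)
    split_ifs at hi ⊢ <;> simp_all

lemma bc_nonneg {N : ℕ} (q : Fin N → MvPolynomial (Fin n) ℝ) (b : Fin N → Bool) (x : E n) :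
    0 ≤ bc q b x := by
  rcases bc_cases q b x with h | h <;> rw [h] <;> norm_num

lemma bc_le_one {N : ℕ} (q : Fin N → MvPolynomial (Fin n) ℝ) (b : Fin N → Bool) (x : E n) :
    bc q b x ≤ 1 := by
  rcases bc_cases q b x with h | h <;> rw [h] <;> norm_num

lemma measurable_ev (q : MvPolynomial (Fin n) ℝ) : Measurable (ev q) := measurable_evn q

lemma measurable_bc {N : ℕ} (q : Fin N → MvPolynomial (Fin n) ℝ) (b : Fin N → Bool) :
    Measurable (bc q b) := by
  unfold bc
  refine Finset.measurable_prod _ fun j _ => ?_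
  have h1 : MeasurableSet {x : E n | 0 < ev (q j) x} :=
    measurableSet_lt measurable_const (measurable_ev _)
  by_cases hb : b j
  · simp only [hb, if_true]
    exact Measurable.ite h1 measurable_const measurable_const
  · simp only [hb, Bool.false_eq_true, if_false]
    exact Measurable.ite h1 measurable_const measurable_const

lemma bc_append {N N' : ℕ} (q : Fin N → MvPolynomial (Fin n) ℝ) (b : Fin N → Bool)
    (q' : Fin N' → MvPolynomial (Fin n) ℝ) (b' : Fin N' → Bool) (x : E n) :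
    bc (Fin.append q q') (Fin.append b b') x = bc q b x * bc q' b' x := by
  unfold bc
  rw [Fin.prod_univ_add]
  simp only [Fin.append_left, Fin.append_right]

/-- the cuts which belong to a subset of the indices -/
noncomputable def qs {N : ℕ} (q : Fin N → MvPolynomial (Fin n) ℝ) (t : Finset (Fin N)) (j : Fin N) :
    MvPolynomial (Fin n) ℝ := if j ∈ t then 1 else q j

lemma qs_deg {N D : ℕ} {q : Fin N → MvPolynomial (Fin n) ℝ} (hq : ∀ i, (q i).totalDegree ≤ D)
    (t : Finset (Fin N)) (j : Fin N) : (qs q t j).totalDegree ≤ D := by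
  unfold qs
  split_ifs
  · simp
  · exact hq j

lemma pol_qs {N : ℕ} (T : MvPolynomial (Fin n) ℝ) (q : Fin N → MvPolynomial (Fin n) ℝ)
    (t : Finset (Fin N)) (x : E n) :
    pol T (qs q t) x = pex T x * ∏ j ∈ Finset.univ \ t, (if 0 < ev (q j) x then (1 : ℂ) else 0) := by
  unfold pol pex
  rw [← Finset.prod_sdiff (Finset.subset_univ t)]
  have h1 : ∏ j ∈ t, (if 0 < eval (fun j => x j) (qs q t j) then (1 : ℂ) else 0) = 1 := by
    refine Finset.prod_eq_one fun j hj => ?_
    have h2 : qs q t j = 1 := if_pos hj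
    rw [h2, map_one, if_pos one_pos]
  rw [h1, mul_one]
  congr 1
  refine Finset.prod_congr rfl fun j hj => ?_
  have h2 : qs q t j = q j := if_neg (Finset.mem_sdiff.1 hj).2
  rw [h2]
  rfl

/-- the sign which belongs to a subset of the indices -/
noncomputable def cs {M : ℕ} (b : Fin M → Bool) (t : Finset (Fin M)) : ℂ :=
  (∏ j ∈ t, if b j then 0 else 1) * ∏ j ∈ Finset.univ \ t, if b j then 1 else -1

lemma norm_cs_le {M : ℕ} (b : Fin M → Bool) (t : Finset (Fin M)) : ‖cs b t‖ ≤ 1 := by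
  unfold cs
  rw [norm_mul, norm_prod, norm_prod]
  refine mul_le_one₀ (Finset.prod_le_one (fun _ _ => norm_nonneg _) fun j _ => ?_)
    (Finset.prod_nonneg fun _ _ => norm_nonneg _)
    (Finset.prod_le_one (fun _ _ => norm_nonneg _) fun j _ => ?_)
  · split_ifs <;> simp
  · split_ifs <;> simp

lemma bc_eq {N : ℕ} (T : MvPolynomial (Fin n) ℝ) (q : Fin N → MvPolynomial (Fin n) ℝ)
    (b : Fin N → Bool) (x : E n) :
    ((bc q b x : ℝ) : ℂ) * pex T x = ∑ t : Finset (Fin N), cs b t * pol T (qs q t) x := by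
  have h1 : ((bc q b x : ℝ) : ℂ) = ∏ j, ((if b j then (0:ℂ) else 1) +
      (if b j then 1 else -1) * (if 0 < ev (q j) x then (1 : ℂ) else 0)) := by
    unfold bc
    push_cast
    refine Finset.prod_congr rfl fun j _ => ?_
    split_ifs <;> simp
  rw [h1, Finset.prod_add, ← Finset.powerset_univ, Finset.sum_mul]
  refine Finset.sum_congr rfl fun t _ => ?_
  rw [pol_qs, Finset.prod_mul_distrib]
  unfold cs
  ring

lemma measurable_bp {N : ℕ} (T : MvPolynomial (Fin n) ℝ) (q : Fin N → MvPolynomial (Fin n) ℝ)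
    (b : Fin N → Bool) : Measurable fun x => ((bc q b x : ℝ) : ℂ) * pex T x :=
  (Complex.measurable_ofReal.comp (measurable_bc q b)).mul (measurable_pex T)

lemma norm_bp_le {N : ℕ} (T : MvPolynomial (Fin n) ℝ) (q : Fin N → MvPolynomial (Fin n) ℝ)
    (b : Fin N → Bool) (x : E n) : ‖((bc q b x : ℝ) : ℂ) * pex T x‖ ≤ 1 := by
  rw [norm_mul, norm_pex, mul_one, Complex.norm_real, Real.norm_of_nonneg (bc_nonneg q b x)]
  exact bc_le_one q b x

/-- norms of finite sums -/
lemma eLp_fsum' {ι : Type*} (s : Finset ι) (c : ι → ℂ) (hc : ∀ i ∈ s, ‖c i‖ ≤ 1) (g : ι → E n → ℂ)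
    (hg : ∀ i, Measurable (g i)) (hb : ∀ i x, ‖g i x‖ ≤ 1) {p : ℝ} (hp : 1 ≤ p) {C : ℝ≥0∞}
    (H : ∀ i ∈ s, ∫⁻ ξ, ‖extn (g i) ξ‖ₑ ^ p ≤ C) :
    eLpNorm' (extn fun x => ∑ i ∈ s, c i * g i x) p volume ≤ (s.card : ℝ≥0∞) * C ^ (1 / p) := by
  classical
  have hme : ∀ i, Measurable (extn fun x => c i * g i x) := fun i =>
    measurable_extn' ((hg i).const_mul _)
  have h1 : (extn fun x => ∑ i ∈ s, c i * g i x) = ∑ i ∈ s, (extn fun x => c i * g i x) := by
    funext ξ
    rw [Finset.sum_apply]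
    unfold extn
    rw [← integral_finsetSum s fun i hi => integrable_extn ((hg i).const_mul _)
      (K := ‖c i‖) (fun x => by
        rw [norm_mul]
        exact mul_le_of_le_one_right (norm_nonneg _) (hb i x)) ξ]
    congr 1
    ext x
    rw [Finset.sum_mul]
  rw [h1]
  refine (eLpNorm'_sum_le (fun i _ => (hme i).aestronglyMeasurable) hp).trans ?_
  calc ∑ i ∈ s, eLpNorm' (extn fun x => c i * g i x) p volume ≤ ∑ _i ∈ s, C ^ (1 / p) := by
        refine Finset.sum_le_sum fun i hi => ?_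
        unfold eLpNorm'
        apply ENNReal.rpow_le_rpow _ (by positivity)
        refine le_trans (lintegral_mono fun ξ => ?_) (H i hi)
        have h3 : extn (fun x => c i * g i x) ξ = c i * extn (g i) ξ := by
          unfold extn
          rw [← integral_const_mul]
          congr 1
          ext x
          ring
        simp only
        rw [h3, enorm_mul]
        refine ENNReal.rpow_le_rpow ?_ (by linarith)
        have h4 : ‖c i‖ₑ ≤ 1 := by
          rw [← ofReal_norm]
          exact ENNReal.ofReal_le_one.2 (hc i hi)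
        calc ‖c i‖ₑ * ‖extn (g i) ξ‖ₑ ≤ 1 * ‖extn (g i) ξ‖ₑ := mul_le_mul_left h4 _
          _ = _ := one_mul _
    _ = _ := by rw [Finset.sum_const, nsmul_eq_mul]

/-- the uniform bound for one cell -/
lemma bc_bound {p0 : ℝ} (hp0' : 1 ≤ p0) (hB : Base n p0) (D N : ℕ) (p : ℝ) (hp : p0 < p) : ∃ C : ℝ≥0∞, C ≠ ∞ ∧
    ∀ (T : MvPolynomial (Fin n) ℝ) (q : Fin N → MvPolynomial (Fin n) ℝ) (b : Fin N → Bool),
      T.totalDegree ≤ D → (∀ i, (q i).totalDegree ≤ D) →
      ∫⁻ ξ, ‖extn (fun x => ((bc q b x : ℝ) : ℂ) * pex T x) ξ‖ₑ ^ p ≤ C := by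
  obtain ⟨C, hC, h⟩ := hB D N p hp
  have hp0 : 0 < p := by linarith
  refine ⟨(((Finset.univ : Finset (Finset (Fin N))).card : ℝ≥0∞) * C ^ (1 / p)) ^ p,
    ENNReal.rpow_ne_top_of_nonneg hp0.le (ENNReal.mul_ne_top (ENNReal.natCast_ne_top _)
      (ENNReal.rpow_ne_top_of_nonneg (by positivity) hC)), ?_⟩
  intro T q b hT hq
  have h1 := eLp_fsum' (Finset.univ : Finset (Finset (Fin N))) (cs b) (fun t _ => norm_cs_le b t)
    (fun t x => pol T (qs q t) x) (fun t => measurable_pol _ _) (fun t x => norm_pol_le _ _ x)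
    (p := p) (by linarith) (C := C) (fun t _ => h T _ hT fun j => qs_deg hq t j)
  have h2 : (fun x => ∑ t : Finset (Fin N), cs b t * pol T (qs q t) x) =
      fun x => ((bc q b x : ℝ) : ℂ) * pex T x := by
    funext x
    rw [bc_eq]
  rw [h2] at h1
  have h3 := ENNReal.rpow_le_rpow h1 hp0.le
  unfold eLpNorm' at h3
  rw [← ENNReal.rpow_mul, one_div_mul_cancel hp0.ne', ENNReal.rpow_one] at h3
  exact h3

/-- **Tame functions**: for every `η > 0` there are `D`, `N`, `C` such that for every `δ ∈ (0, 1]`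
there are at most `C δ^(-η)` disjoint cells, each given by `N` polynomial conditions of degree at
most `D`, which cover the sphere up to a set of measure `C δ`, such that on each cell the function is
at distance at most `δ` from a polynomial of degree at most `D`. -/
def Tame (φ : E n → ℝ) : Prop := ∀ η : ℝ, 0 < η → ∃ (D N : ℕ) (C : ℝ), 0 < C ∧
  ∀ δ : ℝ, 0 < δ → δ ≤ 1 → ∃ (ι : Type) (s : Finset ι) (T : ι → MvPolynomial (Fin n) ℝ)
    (q : ι → Fin N → MvPolynomial (Fin n) ℝ) (b : ι → Fin N → Bool),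
    (s.card : ℝ) ≤ C * δ ^ (-η) ∧ (∀ j ∈ s, (T j).totalDegree ≤ D) ∧
    (∀ j ∈ s, ∀ i, (q j i).totalDegree ≤ D) ∧
    (∀ x : E n, ‖x‖ = 1 → ∑ j ∈ s, bc (q j) (b j) x ≤ 1) ∧
    (∀ x : E n, ‖x‖ = 1 → ∀ j ∈ s, bc (q j) (b j) x ≠ 0 → |φ x - ev (T j) x| ≤ δ) ∧
    sm n {x : S n | ∑ j ∈ s, bc (q j) (b j) x ≠ 1} ≤ ENNReal.ofReal (C * δ)

lemma totalDegree_Cmul_le (c : ℝ) (T : MvPolynomial (Fin n) ℝ) :
    (C c * T).totalDegree ≤ T.totalDegree := by
  refine (totalDegree_mul _ _).trans ?_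
  rw [totalDegree_C, zero_add]

/-- the condition in the definition of tame functions, for fixed `η` and constants -/
def TameAt (η : ℝ) (D N : ℕ) (C : ℝ) (φ : E n → ℝ) : Prop :=
  ∀ δ : ℝ, 0 < δ → δ ≤ 1 → ∃ (ι : Type) (s : Finset ι) (T : ι → MvPolynomial (Fin n) ℝ)
    (q : ι → Fin N → MvPolynomial (Fin n) ℝ) (b : ι → Fin N → Bool),
    (s.card : ℝ) ≤ C * δ ^ (-η) ∧ (∀ j ∈ s, (T j).totalDegree ≤ D) ∧
    (∀ j ∈ s, ∀ i, (q j i).totalDegree ≤ D) ∧
    (∀ x : E n, ‖x‖ = 1 → ∑ j ∈ s, bc (q j) (b j) x ≤ 1) ∧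
    (∀ x : E n, ‖x‖ = 1 → ∀ j ∈ s, bc (q j) (b j) x ≠ 0 → |φ x - ev (T j) x| ≤ δ) ∧
    sm n {x : S n | ∑ j ∈ s, bc (q j) (b j) x ≠ 1} ≤ ENNReal.ofReal (C * δ)

/-- **The restriction estimate with an arbitrarily small loss for tame phases**, with a constant
which depends only on the constants of the phase. -/
theorem tame_loss_u {p0 : ℝ} (hp0' : 1 ≤ p0) (hB : Base n p0) (p ε : ℝ) (hp : p0 < p)
    (hε : 0 < ε) : ∃ η : ℝ, 0 < η ∧
    ∀ (D N : ℕ) (C0 : ℝ), 0 < C0 → ∃ C : ℝ≥0∞, C ≠ ∞ ∧ ∀ φ : E n → ℝ, Measurable φ →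
      TameAt η D N C0 φ → ∀ l : ℝ,
      ∫⁻ ξ, ‖extn (fun x => Complex.exp (((l * φ x : ℝ) : ℂ) * Complex.I)) ξ‖ₑ ^ p ≤
        C * ENNReal.ofReal ((1 + |l|) ^ ε) := by
  have hp0 : 0 < p := by linarith
  obtain ⟨p1, hp1⟩ : ∃ p1 : ℝ, p1 = (p0 + p) / 2 := ⟨_, rfl⟩
  have h31 : p0 < p1 := by rw [hp1]; linarith
  have h1p : p1 < p := by rw [hp1]; linarith
  have hp10 : 0 < p1 := by linarith
  obtain ⟨η, hη⟩ : ∃ η : ℝ, η = min (ε / p) ((p - p1) / (2 * p1)) := ⟨_, rfl⟩
  have hη0 : 0 < η := by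
    rw [hη]
    refine lt_min (by positivity) (div_pos (by linarith) (by positivity))
  have hηε : η * p ≤ ε := by
    have : η ≤ ε / p := by rw [hη]; exact min_le_left _ _
    rwa [le_div_iff₀ hp0] at this
  have hηp : η * p1 ≤ (p - p1) / 2 := by
    have : η ≤ (p - p1) / (2 * p1) := by rw [hη]; exact min_le_right _ _
    rw [le_div_iff₀ (by positivity)] at this
    linarith
  refine ⟨η, hη0, fun D N C0 hC0 => ?_⟩
  obtain ⟨Ba, hBa, Ha⟩ := bc_bound hp0' hB D N p1 h31
  obtain ⟨Bb, hBb, Hb⟩ := bc_bound hp0' hB D N p hp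
  obtain ⟨σ, hσ⟩ : ∃ σ : ℝ, σ = (sm n).real univ := ⟨_, rfl⟩
  have hσ0 : 0 ≤ σ := by rw [hσ]; exact measureReal_nonneg
  obtain ⟨M, hM⟩ : ∃ M : ℝ, M = σ + 2 * C0 := ⟨_, rfl⟩
  have hM0 : 0 < M := by rw [hM]; linarith
  -- the ratio of the geometric series
  obtain ⟨r, hr⟩ : ∃ r : ℝ, r = (2:ℝ) ^ (-((p - p1 - η * p1) / p)) := ⟨_, rfl⟩
  have hr0 : 0 ≤ r := by rw [hr]; positivity
  have hr1 : r < 1 := by
    rw [hr]
    refine Real.rpow_lt_one_of_one_lt_of_neg (by norm_num) ?_
    have : 0 < (p - p1 - η * p1) / p := div_pos (by linarith) hp0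
    linarith
  have h1r : 0 ≤ (1 - r)⁻¹ := inv_nonneg.2 (by linarith)
  obtain ⟨ca, hca⟩ : ∃ ca : ℝ, ca = C0 * (Ba ^ (1 / p1)).toReal := ⟨_, rfl⟩
  obtain ⟨cb, hcb⟩ : ∃ cb : ℝ, cb = C0 * (Bb ^ (1 / p)).toReal := ⟨_, rfl⟩
  have hca0 : 0 ≤ ca := by rw [hca]; positivity
  have hcb0 : 0 ≤ cb := by rw [hcb]; positivity
  obtain ⟨E0, hE0⟩ : ∃ E0 : ℝ, E0 = (2 * M) ^ ((p - p1) / p) * ((2 ^ η + 1) * ca) ^ (p1 / p) := ⟨_, rfl⟩
  have hE00 : 0 ≤ E0 := by rw [hE0]; positivity
  refine ⟨ENNReal.ofReal ((cb + E0 * (1 - r)⁻¹) ^ p), ENNReal.ofReal_ne_top,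
    fun φ hφm happ l => ?_⟩
  obtain ⟨Λ, hΛ⟩ : ∃ Λ : ℝ, Λ = 1 + |l| := ⟨_, rfl⟩
  have hΛ1 : 1 ≤ Λ := by rw [hΛ]; linarith [abs_nonneg l]
  have hΛ0 : 0 < Λ := by linarith
  have hlΛ : |l| ≤ Λ := by rw [hΛ]; linarith
  -- the levels
  obtain ⟨d, hd⟩ : ∃ d : ℕ → ℝ, ∀ k, d k = (1 / 2) ^ k / Λ := ⟨_, fun _ => rfl⟩
  have hd0 : ∀ k, 0 < d k := fun k => by rw [hd]; positivity
  have hd1 : ∀ k, d k ≤ 1 := fun k => by
    rw [hd, div_le_one hΛ0]
    have : ((1:ℝ) / 2) ^ k ≤ 1 := pow_le_one₀ (by norm_num) (by norm_num)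
    linarith
  have happ' := fun k => happ (d k) (hd0 k) (hd1 k)
  choose ι s T q b hcard hTd hqd hsum herr hmeas using happ'
  -- the approximations
  obtain ⟨G, hG⟩ : ∃ G : ℕ → E n → ℂ, ∀ k, G k = fun x =>
      ∑ j ∈ s k, (1 : ℂ) * (((bc (q k j) (b k j) x : ℝ) : ℂ) * pex (C l * T k j) x) :=
    ⟨_, fun _ => rfl⟩
  have hGm : ∀ k, Measurable (G k) := fun k => by
    rw [hG]
    exact Finset.measurable_sum _ fun j _ => (measurable_bp _ _ _).const_mul _
  have hGb : ∀ k x, ‖G k x‖ ≤ ((s k).card : ℝ) := fun k x => by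
    rw [hG]
    calc _ ≤ ∑ _j ∈ s k, (1:ℝ) := norm_sum_le_of_le _ fun j _ => by
          rw [one_mul]; exact norm_bp_le _ _ _ x
      _ = _ := by simp
  have hgm : Measurable fun x => Complex.exp (((l * φ x : ℝ) : ℂ) * Complex.I) := by fun_prop
  have hgb : ∀ x, ‖Complex.exp (((l * φ x : ℝ) : ℂ) * Complex.I)‖ ≤ 1 := fun x => by
    rw [Complex.norm_exp_ofReal_mul_I]
  -- sup norm errors
  have hsup : ∀ k ξ, ‖extn (G k) ξ - extn (fun x => Complex.exp (((l * φ x : ℝ) : ℂ) * Complex.I)) ξ‖ ≤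
      M * (1 / 2) ^ k := by
    intro k ξ
    obtain ⟨Bad, hBad⟩ : ∃ Bad : Set (S n), Bad = {x : S n | ∑ j ∈ s k, bc (q k j) (b k j) x ≠ 1} :=
      ⟨_, rfl⟩
    have hBm : MeasurableSet Bad := by
      rw [hBad]
      have h1 : Measurable fun x : S n => ∑ j ∈ s k, bc (q k j) (b k j) x :=
        (Finset.measurable_sum _ fun j _ => measurable_bc _ _).comp measurable_subtype_coe
      exact (h1 (measurableSet_singleton 1)).compl
    have h1 : ‖extn (G k) ξ - extn (fun x => Complex.exp (((l * φ x : ℝ) : ℂ) * Complex.I)) ξ‖ₑ ≤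
        ENNReal.ofReal (M * (1 / 2) ^ k) := by
      unfold extn
      rw [← integral_sub (integrable_extn (hGm k) (hGb k) ξ) (integrable_extn hgm hgb ξ)]
      refine (enorm_integral_le_lintegral_enorm _).trans ?_
      calc ∫⁻ x : S n, ‖_‖ₑ ∂(sm n)
          ≤ ∫⁻ x : S n, (ENNReal.ofReal ((1 / 2) ^ k) + Bad.indicator (fun _ => (2:ℝ≥0∞)) x) ∂(sm n) := by
            refine lintegral_mono fun x => ?_
            simp only
            have hx : ‖(x : E n)‖ = 1 := mem_sphere_zero_iff_norm.1 x.2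
            rw [← sub_mul, ← ofReal_norm, norm_mul, Complex.norm_exp_ofReal_mul_I, mul_one]
            by_cases hxB : x ∈ Bad
            · rw [indicator_of_mem hxB]
              refine le_trans ?_ le_add_self
              have h3 : ‖G k x‖ ≤ 1 := by
                rw [hG]
                calc _ ≤ ∑ j ∈ s k, bc (q k j) (b k j) x := norm_sum_le_of_le _ fun j _ => by
                      rw [one_mul, norm_mul, norm_pex, mul_one, Complex.norm_real,
                        Real.norm_of_nonneg (bc_nonneg _ _ _)]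
                  _ ≤ 1 := hsum k x hx
              calc ENNReal.ofReal ‖G k x - Complex.exp (((l * φ x : ℝ) : ℂ) * Complex.I)‖
                  ≤ ENNReal.ofReal 2 := by
                    refine ENNReal.ofReal_le_ofReal ((norm_sub_le _ _).trans ?_)
                    rw [Complex.norm_exp_ofReal_mul_I]
                    linarith
                _ = 2 := by norm_num
            · rw [indicator_of_notMem hxB, add_zero]
              refine ENNReal.ofReal_le_ofReal ?_
              have h3 : ∑ j ∈ s k, bc (q k j) (b k j) x = 1 := by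
                by_contra h4
                exact hxB (by rw [hBad]; exact h4)
              have h4 : G k x - Complex.exp (((l * φ x : ℝ) : ℂ) * Complex.I) =
                  ∑ j ∈ s k, ((bc (q k j) (b k j) x : ℝ) : ℂ) *
                    (pex (C l * T k j) x - Complex.exp (((l * φ x : ℝ) : ℂ) * Complex.I)) := by
                have h5 : ((∑ j ∈ s k, bc (q k j) (b k j) x : ℝ) : ℂ) = 1 := by
                  rw [h3]; simp
                push_cast at h5
                simp only [mul_sub, Finset.sum_sub_distrib]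
                rw [← Finset.sum_mul, h5, one_mul, hG]
                simp only [one_mul]
              rw [h4]
              calc _ ≤ ∑ j ∈ s k, bc (q k j) (b k j) x * (1 / 2) ^ k := by
                    refine norm_sum_le_of_le _ fun j hj => ?_
                    rw [norm_mul, Complex.norm_real, Real.norm_of_nonneg (bc_nonneg _ _ _)]
                    by_cases h0 : bc (q k j) (b k j) x = 0
                    · rw [h0]; simp
                    refine mul_le_mul_of_nonneg_left ?_ (bc_nonneg _ _ _)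
                    unfold pex
                    refine (norm_exp_sub_le _ _).trans ?_
                    have h6 := herr k x hx j hj h0
                    rw [map_mul, eval_C]
                    have h7 : l * eval (fun i => (x : E n) i) (T k j) - l * φ x =
                        -(l * (φ x - ev (T k j) x)) := by
                      unfold ev
                      ring
                    rw [h7, abs_neg, abs_mul]
                    calc |l| * |φ x - ev (T k j) x| ≤ Λ * d k :=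
                          mul_le_mul hlΛ h6 (abs_nonneg _) hΛ0.le
                      _ = (1 / 2) ^ k := by rw [hd]; field_simp
                _ = (1 / 2) ^ k := by rw [← Finset.sum_mul, h3, one_mul]
        _ = ENNReal.ofReal ((1 / 2) ^ k) * sm n univ + 2 * sm n Bad := by
            rw [lintegral_add_left measurable_const, lintegral_const, lintegral_indicator hBm,
              setLIntegral_const]
        _ ≤ ENNReal.ofReal ((1 / 2) ^ k * σ) + ENNReal.ofReal (2 * (C0 * (1 / 2) ^ k)) := by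
            refine add_le_add (le_of_eq ?_) ?_
            · rw [ENNReal.ofReal_mul (by positivity), hσ, ofReal_measureReal]
            · rw [ENNReal.ofReal_mul (by norm_num)]
              have h2 := hmeas k
              rw [← hBad] at h2
              refine mul_le_mul' (by norm_num) (h2.trans (ENNReal.ofReal_le_ofReal ?_))
              refine mul_le_mul_of_nonneg_left ?_ hC0.le
              rw [hd]
              exact div_le_self (by positivity) hΛ1
        _ = ENNReal.ofReal (M * (1 / 2) ^ k) := by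
            rw [← ENNReal.ofReal_add (by positivity) (by positivity)]
            congr 1
            rw [hM]
            ring
    rw [← ofReal_norm] at h1
    exact (ENNReal.ofReal_le_ofReal_iff (by positivity)).1 h1
  -- norms
  have hnorm : ∀ (p' : ℝ), p0 < p' → ∀ (B : ℝ≥0∞), B ≠ ∞ →
      (∀ (T : MvPolynomial (Fin n) ℝ) (q : Fin N → MvPolynomial (Fin n) ℝ) (b : Fin N → Bool),
        T.totalDegree ≤ D → (∀ i, (q i).totalDegree ≤ D) →
        ∫⁻ ξ, ‖extn (fun x => ((bc q b x : ℝ) : ℂ) * pex T x) ξ‖ₑ ^ p' ≤ B) → ∀ k,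
      eLpNorm' (extn (G k)) p' volume ≤
        ENNReal.ofReal (C0 * (B ^ (1 / p')).toReal * (Λ ^ η * (2 ^ η) ^ k)) := by
    intro p' hp' B hB HB k
    have hp'0 : 0 < p' := by linarith
    have h1 := eLp_fsum' (s k) (fun _ => (1:ℂ)) (fun _ _ => by simp)
      (fun j x => ((bc (q k j) (b k j) x : ℝ) : ℂ) * pex (C l * T k j) x)
      (fun j => measurable_bp _ _ _) (fun j x => norm_bp_le _ _ _ x) (p := p') (by linarith) (C := B)
      (fun j hj => HB _ _ _ ((totalDegree_Cmul_le _ _).trans (hTd k j hj)) (hqd k j hj))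
    have h2 : (extn fun x => ∑ i ∈ s k, (fun _ => (1:ℂ)) i *
        (((bc (q k i) (b k i) x : ℝ) : ℂ) * pex (C l * T k i) x)) = extn (G k) := by rw [hG]
    rw [h2] at h1
    refine h1.trans ?_
    have hB' : B ^ (1 / p') ≠ ∞ := ENNReal.rpow_ne_top_of_nonneg (by positivity) hB
    have h3 : ((s k).card : ℝ) ≤ C0 * (Λ ^ η * (2 ^ η) ^ k) := by
      refine (hcard k).trans (le_of_eq ?_)
      congr 1
      rw [hd, div_eq_mul_inv, Real.mul_rpow (by positivity) (by positivity), Real.inv_rpow hΛ0.le,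
        Real.rpow_neg hΛ0.le, inv_inv, mul_comm]
      congr 1
      rw [← Real.rpow_natCast, ← Real.rpow_natCast, ← Real.rpow_mul (by norm_num),
        ← Real.rpow_mul (by norm_num), one_div, Real.inv_rpow (by norm_num), ← Real.rpow_neg (by norm_num)]
      congr 1
      ring
    calc ((s k).card : ℝ≥0∞) * B ^ (1 / p')
        = ENNReal.ofReal ((s k).card : ℝ) * ENNReal.ofReal (B ^ (1 / p')).toReal := by
          rw [ENNReal.ofReal_toReal hB', ENNReal.ofReal_natCast]
      _ = ENNReal.ofReal (((s k).card : ℝ) * (B ^ (1 / p')).toReal) := by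
          rw [ENNReal.ofReal_mul (by positivity)]
      _ ≤ _ := by
          refine ENNReal.ofReal_le_ofReal ?_
          calc ((s k).card : ℝ) * (B ^ (1 / p')).toReal
              ≤ C0 * (Λ ^ η * (2 ^ η) ^ k) * (B ^ (1 / p')).toReal := by gcongr
            _ = _ := by ring
  have hna := hnorm p1 h31 Ba hBa Ha
  have hnb := hnorm p hp Bb hBb Hb
  rw [← hca] at hna
  rw [← hcb] at hnb
  have hΛη : 1 ≤ Λ ^ η := Real.one_le_rpow hΛ1 hη0.le
  have h2η : (1:ℝ) ≤ 2 ^ η := Real.one_le_rpow (by norm_num) hη0.le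
  have key := tele (μ := (volume : Measure (E n))) (p1 := p1) (p := p) (by linarith) h1p.le
    (fun k => extn (G k)) (extn fun x => Complex.exp (((l * φ x : ℝ) : ℂ) * Complex.I))
    (fun k => measurable_extn' (hGm k)) (fun ξ => by
      rw [tendsto_iff_norm_sub_tendsto_zero]
      refine squeeze_zero (fun _ => norm_nonneg _) (fun k => hsup k ξ) ?_
      have h1 := (tendsto_pow_atTop_nhds_zero_of_lt_one (r := (1:ℝ) / 2) (by norm_num)
        (by norm_num)).const_mul M
      rwa [mul_zero] at h1)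
    (fun k => 2 * M * (1 / 2) ^ k) (fun k => ENNReal.ofReal (ca * (Λ ^ η * (2 ^ η) ^ k)))
    (fun k => by positivity) 0 (fun k _ ξ => by
      have h1 := hsup k ξ
      have h2 := hsup (k + 1) ξ
      have h3 : M * (1 / 2) ^ (k + 1) ≤ M * (1 / 2) ^ k :=
        mul_le_mul_of_nonneg_left (pow_le_pow_of_le_one (by norm_num) (by norm_num) (Nat.le_succ k))
          hM0.le
      calc ‖extn (G (k + 1)) ξ - extn (G k) ξ‖
          = ‖(extn (G (k + 1)) ξ - extn (fun x => Complex.exp (((l * φ x : ℝ) : ℂ) * Complex.I)) ξ) -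
            (extn (G k) ξ - extn (fun x => Complex.exp (((l * φ x : ℝ) : ℂ) * Complex.I)) ξ)‖ := by
              congr 1; ring
        _ ≤ M * (1 / 2) ^ (k + 1) + M * (1 / 2) ^ k := (norm_sub_le _ _).trans (add_le_add h2 h1)
        _ ≤ _ := by linarith)
    (fun k _ => hna k)
  -- the terms of the series
  have hterm : ∀ j : ℕ, ENNReal.ofReal ((2 * M * (1 / 2) ^ (0 + j)) ^ ((p - p1) / p)) *
      (ENNReal.ofReal (ca * (Λ ^ η * (2 ^ η) ^ (0 + j + 1))) +
        ENNReal.ofReal (ca * (Λ ^ η * (2 ^ η) ^ (0 + j)))) ^ (p1 / p) ≤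
      ENNReal.ofReal (E0 * Λ ^ η * r ^ j) := by
    intro j
    rw [zero_add, ← ENNReal.ofReal_add (by positivity) (by positivity),
      ENNReal.ofReal_rpow_of_nonneg (by positivity) (by positivity),
      ← ENNReal.ofReal_mul (by positivity)]
    refine ENNReal.ofReal_le_ofReal ?_
    have e1 : ca * (Λ ^ η * (2 ^ η) ^ (j + 1)) + ca * (Λ ^ η * (2 ^ η) ^ j) =
        ((2 ^ η + 1) * ca) * (Λ ^ η * (2 ^ η) ^ j) := by
      rw [pow_succ]; ring
    rw [e1, Real.mul_rpow (by positivity) (by positivity),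
      Real.mul_rpow (x := (2 ^ η + 1) * ca) (by positivity) (by positivity),
      Real.mul_rpow (x := Λ ^ η) (by positivity) (by positivity)]
    have e2 : (Λ ^ η) ^ (p1 / p) ≤ Λ ^ η := by
      calc (Λ ^ η) ^ (p1 / p) ≤ (Λ ^ η) ^ (1:ℝ) :=
            Real.rpow_le_rpow_of_exponent_le hΛη ((div_le_one hp0).2 h1p.le)
        _ = _ := Real.rpow_one _
    have e3 : ((1 / 2 : ℝ) ^ j) ^ ((p - p1) / p) * ((2 ^ η) ^ j) ^ (p1 / p) = r ^ j := by
      have h2 : (0:ℝ) < 2 := by norm_num
      have h3 : ((1:ℝ) / 2) ^ j = 2 ^ (-(j:ℝ)) := by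
        rw [Real.rpow_neg h2.le, Real.rpow_natCast, one_div, inv_pow]
      have h4 : ((2:ℝ) ^ η) ^ j = 2 ^ (η * j) := by
        rw [← Real.rpow_natCast, ← Real.rpow_mul h2.le]
      rw [h3, h4, ← Real.rpow_mul h2.le, ← Real.rpow_mul h2.le, ← Real.rpow_add h2, hr,
        ← Real.rpow_natCast, ← Real.rpow_mul h2.le]
      congr 1
      field_simp
      ring
    calc (2 * M) ^ ((p - p1) / p) * ((1 / 2 : ℝ) ^ j) ^ ((p - p1) / p) *
          (((2 ^ η + 1) * ca) ^ (p1 / p) * ((Λ ^ η) ^ (p1 / p) * ((2 ^ η) ^ j) ^ (p1 / p)))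
        = E0 * (Λ ^ η) ^ (p1 / p) * (((1 / 2 : ℝ) ^ j) ^ ((p - p1) / p) *
            ((2 ^ η) ^ j) ^ (p1 / p)) := by rw [hE0]; ring
      _ = E0 * (Λ ^ η) ^ (p1 / p) * r ^ j := by rw [e3]
      _ ≤ E0 * Λ ^ η * r ^ j := by gcongr
  have hfinal : eLpNorm' (extn fun x => Complex.exp (((l * φ x : ℝ) : ℂ) * Complex.I)) p volume ≤
      ENNReal.ofReal ((cb + E0 * (1 - r)⁻¹) * Λ ^ η) := by
    refine key.trans ?_
    have h1 : eLpNorm' (extn (G 0)) p volume ≤ ENNReal.ofReal (cb * Λ ^ η) := by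
      refine (hnb 0).trans (le_of_eq ?_)
      rw [pow_zero, mul_one]
    have h2 : ∑' j : ℕ, ENNReal.ofReal ((2 * M * (1 / 2) ^ (0 + j)) ^ ((p - p1) / p)) *
        (ENNReal.ofReal (ca * (Λ ^ η * (2 ^ η) ^ (0 + j + 1))) +
        ENNReal.ofReal (ca * (Λ ^ η * (2 ^ η) ^ (0 + j)))) ^ (p1 / p) ≤
        ENNReal.ofReal (E0 * Λ ^ η * (1 - r)⁻¹) := by
      refine (ENNReal.tsum_le_tsum hterm).trans (le_of_eq ?_)
      rw [← ENNReal.ofReal_tsum_of_nonneg (fun j => by positivity)
        ((summable_geometric_of_lt_one hr0 hr1).mul_left _), tsum_mul_left,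
        tsum_geometric_of_lt_one hr0 hr1]
    refine (add_le_add h1 h2).trans (le_of_eq ?_)
    rw [← ENNReal.ofReal_add (by positivity) (by positivity)]
    congr 1
    ring
  have h3 := ENNReal.rpow_le_rpow hfinal hp0.le
  unfold eLpNorm' at h3
  rw [← ENNReal.rpow_mul, one_div_mul_cancel hp0.ne', ENNReal.rpow_one] at h3
  refine h3.trans ?_
  rw [ENNReal.ofReal_rpow_of_nonneg (by positivity) hp0.le, ← ENNReal.ofReal_mul (by positivity)]
  refine ENNReal.ofReal_le_ofReal ?_
  rw [Real.mul_rpow (by positivity) (by positivity), ← hΛ]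
  refine mul_le_mul_of_nonneg_left ?_ (by positivity)
  rw [← Real.rpow_mul hΛ0.le]
  exact Real.rpow_le_rpow_of_exponent_le hΛ1 hηε

/-- **The restriction estimate with an arbitrarily small loss for tame phases.** -/
theorem tame_loss {p0 : ℝ} (hp0' : 1 ≤ p0) (hB : Base n p0) {φ : E n → ℝ} (hφm : Measurable φ)
    (hφ : Tame φ) (p ε : ℝ) (hp : p0 < p) (hε : 0 < ε) : ∃ C : ℝ≥0∞, C ≠ ∞ ∧ ∀ l : ℝ,
      ∫⁻ ξ, ‖extn (fun x => Complex.exp (((l * φ x : ℝ) : ℂ) * Complex.I)) ξ‖ₑ ^ p ≤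
        C * ENNReal.ofReal ((1 + |l|) ^ ε) := by
  obtain ⟨η, hη, H⟩ := tame_loss_u hp0' hB p ε hp hε
  obtain ⟨D, N, C0, hC0, happ⟩ := hφ η hη
  obtain ⟨C, hC, H'⟩ := H D N C0 hC0
  exact ⟨C, hC, fun l => H' φ hφm happ l⟩

end Pool.Agent.VANn.TM
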