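import Pool.Agent.VANn.TA7

/-!
The algebra which is generated by the compositions of functions with one singular point of power type
with polynomial maps: its elements are tame, and the restriction estimate with an arbitrarily small
loss holds for its finite-dimensional subspaces.
-/

set_option autoImplicit false

namespace Pool.Agent.VANn.TM

open MeasureTheory Set MvPolynomial Pool.Agent.MP_6cbfb8_an Filter Topology
open scoped ENNReal Real ContDiff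

variable {n : ℕ}

/-- `f` is smooth off the point `z`, and there is an `a` such that for every `K` there is an `L` with
`‖D^K f(y)‖ ≤ L ‖y - z‖^(-(K + a))` for `0 < ‖y - z‖ ≤ 1`. -/
def PowerType {k : ℕ} (f : E k → ℝ) (z : E k) : Prop :=
  ContDiffOn ℝ ∞ f {z}ᶜ ∧ ∃ a : ℝ, ∀ K : ℕ, ∃ L : ℝ, ∀ y : E k, 0 < ‖y - z‖ → ‖y - z‖ ≤ 1 →
    ‖iteratedFDeriv ℝ K f y‖ ≤ L * ‖y - z‖ ^ (-((K : ℝ) + a))

/-- The algebra of functions on `R^n` which is generated by all `x ↦ f(Q(x))`, where `Q` is a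
polynomial map from `R^n` to some `R^k` and `f` is smooth off one point of `R^k`, with a singularity
of power type. -/
noncomputable def Alg (n : ℕ) : Subalgebra ℝ (E n → ℝ) :=
  Algebra.adjoin ℝ {φ | ∃ (k : ℕ) (Q : Fin k → MvPolynomial (Fin n) ℝ) (f : E k → ℝ) (z : E k),
    PowerType f z ∧ φ = fun x => f (WithLp.toLp 2 fun i => eval (fun j => x j) (Q i))}

lemma PowerType.nonneg {k : ℕ} {f : E k → ℝ} {z : E k} (h : PowerType f z) :
    ContDiffOn ℝ ∞ f {z}ᶜ ∧ ∃ a : ℝ, 0 ≤ a ∧ ∀ K : ℕ, ∃ L : ℝ, ∀ y : E k, 0 < ‖y - z‖ →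
      ‖y - z‖ ≤ 1 → ‖iteratedFDeriv ℝ K f y‖ ≤ L * ‖y - z‖ ^ (-((K : ℝ) + a)) := by
  obtain ⟨h1, a, h2⟩ := h
  refine ⟨h1, |a|, abs_nonneg a, fun K => ?_⟩
  obtain ⟨L, hL⟩ := h2 K
  refine ⟨|L|, fun y hy hy1 => (hL y hy hy1).trans ?_⟩
  have e1 : 0 ≤ ‖y - z‖ ^ (-((K : ℝ) + a)) := by positivity
  calc L * ‖y - z‖ ^ (-((K : ℝ) + a)) ≤ |L| * ‖y - z‖ ^ (-((K : ℝ) + a)) := by
        gcongr
        exact le_abs_self L
    _ ≤ _ := by
        refine mul_le_mul_of_nonneg_left ?_ (abs_nonneg L)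
        exact Real.rpow_le_rpow_of_exponent_ge hy hy1 (by linarith [le_abs_self a])

theorem grow_comp (hd : 2 ≤ n) {k : ℕ} (Q : Fin k → MvPolynomial (Fin n) ℝ) (z : E k) (f : E k → ℝ)
    (hf : ContDiffOn ℝ ∞ f {z}ᶜ) (a : ℝ) (ha : 0 ≤ a)
    (hD : ∀ K : ℕ, ∃ L : ℝ, ∀ y, 0 < ‖y - z‖ → ‖y - z‖ ≤ 1 →
      ‖iteratedFDeriv ℝ K f y‖ ≤ L * ‖y - z‖ ^ (-((K : ℝ) + a))) :
    Grow fun x => f (qm Q x) := by
  classical
  by_cases hcon : ∀ x : E n, ‖x‖ = 1 → qm Q x = z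
  · obtain ⟨q, a', L, h1, h2, h3, h4⟩ := grow_const hd (f z)
    refine ⟨q, a', L, h1, h2, h3, fun x hx => ?_⟩
    simp only
    rw [hcon x hx]
    exact h4 x hx
  push Not at hcon
  obtain ⟨x1, hx1, hne⟩ := hcon
  obtain ⟨i0, hi0⟩ : ∃ i, ev (Q i) x1 ≠ z i := by
    by_contra h
    push Not at h
    exact hne (by ext i; exact h i)
  obtain ⟨H, hH0, hH⟩ : ∃ H : ℝ, 0 ≤ H ∧ ∀ x : E n, ‖x‖ = 1 → ∀ i, |ev (Q i) x - z i| ≤ H := by
    choose B hB1 hB using fun i => exists_bound (Q i - C (z i))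
    refine ⟨∑ i, B i, Finset.sum_nonneg fun i _ => by linarith [hB1 i], fun x hx i => ?_⟩
    have h1 := hB i x hx
    have h2 : ev (Q i - C (z i)) x = ev (Q i) x - z i := by unfold ev; rw [map_sub, eval_C]
    rw [h2] at h1
    have h3 : B i ≤ ∑ i, B i :=
      Finset.single_le_sum (f := B) (fun i _ => by linarith [hB1 i]) (Finset.mem_univ i)
    linarith
  obtain ⟨L1, hL1⟩ := hD 0
  obtain ⟨L, hL0, hL⟩ := punctured hf ha hL1 ((k + 1) * H)
  have hev : ∀ x, ev (Q i0 - C (z i0)) x = ev (Q i0) x - z i0 := fun x => by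
    unfold ev; rw [map_sub, eval_C]
  refine ⟨Q i0 - C (z i0), a + 1, L * (H + 1), by positivity, by positivity,
    ⟨x1, hx1, by rw [hev]; exact sub_ne_zero.2 hi0⟩, fun x hx => ?_⟩
  rw [hev]
  simp only
  by_cases hq : qm Q x = z
  · have h1 : ev (Q i0) x - z i0 = 0 := by
      rw [← hq]
      exact sub_self _
    rw [h1, abs_zero, Real.zero_rpow (by positivity), mul_zero]
    positivity
  · have h1 : 0 < ‖qm Q x - z‖ := norm_pos_iff.2 (sub_ne_zero.2 hq)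
    have h2 : ‖qm Q x - z‖ ≤ (k + 1) * H := norm_le_coord hH0 fun i => by
      rw [PiLp.sub_apply, qm_apply]
      exact hH x hx i
    have h3 := (hL _ h1 h2).2
    rw [norm_iteratedFDeriv_zero, Real.norm_eq_abs, Nat.cast_zero, zero_add] at h3
    have h4 : |ev (Q i0) x - z i0| ≤ ‖qm Q x - z‖ := by
      have := coord_le (qm Q x - z) i0
      rwa [PiLp.sub_apply, qm_apply] at this
    have h5 : |ev (Q i0) x - z i0| ≤ H + 1 := by linarith [hH x hx i0]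
    rw [Real.rpow_add_of_nonneg (abs_nonneg _) ha zero_le_one, Real.rpow_one]
    calc |f (qm Q x)| * (|ev (Q i0) x - z i0| ^ a * |ev (Q i0) x - z i0|)
        ≤ L * ‖qm Q x - z‖ ^ (-a) * (‖qm Q x - z‖ ^ a * (H + 1)) := by
          gcongr
      _ = L * (H + 1) * (‖qm Q x - z‖ ^ (-a) * ‖qm Q x - z‖ ^ a) := by ring
      _ = L * (H + 1) := by
          rw [← Real.rpow_add h1, neg_add_cancel, Real.rpow_zero, mul_one]

/-- the elements of the algebra are measurable, tame and of polynomial growth -/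
theorem alg_tame (hd : 2 ≤ n) {φ : E n → ℝ} (h : φ ∈ Alg n) : Measurable φ ∧ Tame φ ∧ Grow φ := by
  unfold Alg at h
  induction h using Algebra.adjoin_induction with
  | mem φ hφ =>
    obtain ⟨k, Q, f, z, hf, rfl⟩ := hφ
    obtain ⟨h1, a, ha, h2⟩ := hf.nonneg
    exact ⟨measurable_comp Q h1, tame_comp hd Q z f h1 a ha h2, grow_comp hd Q z f h1 a ha h2⟩
  | algebraMap r =>
    refine ⟨measurable_const, (tame_poly (C r)).congr fun x _ => ?_, grow_const hd r⟩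
    unfold ev
    rw [eval_C]
    rfl
  | add φ ψ _ _ hφ hψ => exact ⟨hφ.1.add hψ.1, hφ.2.1.add hψ.2.1, hφ.2.2.add hd hψ.2.2⟩
  | mul φ ψ _ _ hφ hψ => exact ⟨hφ.1.mul hψ.1, hφ.2.1.mul hd hψ.2.1 hφ.2.2 hψ.2.2, hφ.2.2.mul hd hψ.2.2⟩

/-- **The restriction estimate with an arbitrarily small loss in the algebra.** -/
theorem alg_loss (hd : 2 ≤ n) {p0 : ℝ} (hp0' : 1 ≤ p0) (hB : Base n p0) {m : ℕ}
    (φ : Fin m → E n → ℝ) (hφ : ∀ k, φ k ∈ Alg n) (p ε : ℝ) (hp : p0 < p)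
    (hε : 0 < ε) : ∃ C : ℝ≥0∞, C ≠ ⊤ ∧ ∀ l : Fin m → ℝ,
      ∫⁻ ξ, ‖extn (fun x => Complex.exp (((∑ k, l k * φ k x : ℝ) : ℂ) * Complex.I)) ξ‖ₑ ^ p ≤
        C * ENNReal.ofReal ((1 + ‖l‖) ^ ε) :=
  tame_loss_vec hp0' hB φ (fun k => (alg_tame hd (hφ k)).1) (fun k => (alg_tame hd (hφ k)).2.1) p ε hp hε

/-- the algebra contains all smooth functions -/
theorem smooth_mem {φ : E n → ℝ} (hφ : ContDiff ℝ ∞ φ) : φ ∈ Alg n := by
  refine Algebra.subset_adjoin ⟨n, fun i => X i, φ, 0, ⟨hφ.contDiffOn, 0, fun K => ?_⟩, ?_⟩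
  · obtain ⟨M, hM⟩ := (isCompact_closedBall (0 : E n) 1).exists_bound_of_continuousOn
      ((hφ.continuous_iteratedFDeriv (m := K) (by exact_mod_cast le_top)).continuousOn)
    refine ⟨|M|, fun y hy hy1 => ?_⟩
    rw [sub_zero] at hy hy1 ⊢
    have h1 : 1 ≤ ‖y‖ ^ (-((K : ℝ) + 0)) :=
      Real.one_le_rpow_of_pos_of_le_one_of_nonpos hy hy1 (by
        have : (0:ℝ) ≤ K := Nat.cast_nonneg K
        linarith)
    have h2 := (hM y (mem_closedBall_zero_iff.2 hy1)).trans (le_abs_self M)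
    calc _ ≤ |M| := h2
      _ = |M| * 1 := (mul_one _).symm
      _ ≤ _ := by gcongr
  · funext x
    congr 1
    ext i
    simp

end Pool.Agent.VANn.TM
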