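import Pool.Agent.VANn.TA4

/-!
The restriction estimate with an arbitrarily small loss for sums of compositions of functions with
one singular point of power type with polynomial maps.
-/

set_option autoImplicit false

namespace Pool.Agent.VANn.TM

open MeasureTheory Set MvPolynomial Pool.Agent.MP_6cbfb8_an Filter Topology
open scoped ENNReal Real ContDiff

variable {n : ℕ}

lemma measurable_sing {k : ℕ} {f : E k → ℝ} {z : E k} (hf : ContDiffOn ℝ ∞ f {z}ᶜ) : Measurable f :=
  measurable_of_continuousOn_compl_singleton z hf.continuousOn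

lemma measurable_qm {k : ℕ} (Q : Fin k → MvPolynomial (Fin n) ℝ) : Measurable (qm Q) := by
  unfold qm
  exact (PiLp.continuous_toLp 2 _).measurable.comp (measurable_pi_lambda _ fun i => measurable_ev (Q i))

lemma measurable_comp {k : ℕ} (Q : Fin k → MvPolynomial (Fin n) ℝ) {f : E k → ℝ} {z : E k}
    (hf : ContDiffOn ℝ ∞ f {z}ᶜ) : Measurable fun x => f (qm Q x) :=
  (measurable_sing hf).comp (measurable_qm Q)

end Pool.Agent.VANn.TM
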