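import Pool.Agent.VANn.LS
import Pool.Agent.VANn.TA9

/-!
Polynomial phases of bounded degree with boundedly many polynomial cuts, with one constant, over the
estimate for one smooth phase.
-/

set_option autoImplicit false

namespace Pool.Agent.VANn.TM

open MeasureTheory Set MvPolynomial Pool.Agent.MP_6cbfb8_an Filter Topology
open Pool.Agent.VAN (fam famc)
open scoped ENNReal Real

variable {n : ℕ}

theorem exists_family (n D : ℕ) : ∃ (d : ℕ) (φ : Fin d → MvPolynomial (Fin n) ℝ),
    ∀ P : MvPolynomial (Fin n) ℝ, P.totalDegree ≤ D → ∃ c : Fin d → ℝ, P = ∑ j, c j • φ j := by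
  have hfin : Module.Finite ℝ (restrictTotalDegree (Fin n) ℝ D) := inferInstance
  let b := Module.finBasis ℝ (restrictTotalDegree (Fin n) ℝ D)
  refine ⟨_, fun j => (b j : MvPolynomial (Fin n) ℝ), fun P hP => ?_⟩
  have hmem : P ∈ restrictTotalDegree (Fin n) ℝ D := (mem_restrictTotalDegree (Fin n) D P).2 hP
  refine ⟨fun j => b.repr ⟨P, hmem⟩ j, ?_⟩
  have h1 := b.sum_repr ⟨P, hmem⟩
  have h2 := congrArg (fun v : restrictTotalDegree (Fin n) ℝ D => (v : MvPolynomial (Fin n) ℝ)) h1
  simp only [Submodule.coe_sum, Submodule.coe_smul] at h2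
  exact h2.symm

/-- **Polynomial phases and cuts** of bounded degree, over the estimate for one smooth phase. -/
theorem base_of_one (hd : 2 ≤ n) {p0 : ℝ} (hp0 : 1 ≤ p0) (H : OneLoss n p0) : Base n p0 := by
  intro D N p hp
  obtain ⟨d, φ, hφ⟩ := exists_family n D
  have han : ∀ j, AnalyticOnNhd ℝ ((fun j => ev (φ j)) j) (Metric.sphere (0 : E n) 1) := fun j =>
    analytic_ev (φ j)
  have hnf : Nonflat fun j => ev (φ j) := nonflat_of_analytic hd _ han
  obtain ⟨C, hC, h⟩ := main_nf hd hp0 (fun j => ev (φ j)) hnf (loss_of_one H _ hnf.1) N p hp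
  refine ⟨C, hC, fun P Q hP hQ => ?_⟩
  obtain ⟨c, hc⟩ := hφ P hP
  choose cs hcs using fun i => hφ (Q i) (hQ i)
  have hev : ∀ (a : Fin d → ℝ) (x : E n), eval (fun i => x i) (∑ j, a j • φ j) =
      fam (fun j => ev (φ j)) a x := by
    intro a x
    unfold fam ev
    rw [map_sum]
    refine Finset.sum_congr rfl fun j _ => ?_
    rw [smul_eval]
  have h1 : pol P Q = famc (fun j => ev (φ j)) c cs := by
    funext x
    unfold pol Pool.Agent.VAN.famc
    rw [hc, hev]
    congr 1
    refine Finset.prod_congr rfl fun i _ => ?_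
    rw [← hev, ← hcs i]
  rw [h1]
  exact h c cs

end Pool.Agent.VANn.TM
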