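import Pool.Agent.VANn.TA4

/-!
Compositions of functions with a power type singularity at one point with polynomial maps are tame,
uniformly for all functions with the same bounds.
-/

set_option autoImplicit false

namespace Pool.Agent.VANn.TM

open MeasureTheory Set MvPolynomial Pool.Agent.MP_6cbfb8_an Filter Topology
open Pool.Agent.VAN (fam)
open scoped ENNReal Real ContDiff

variable {n : ℕ}

variable {k : ℕ}

/-- **Compositions with polynomial maps are tame**, with constants which depend on the bounds of the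
function only. -/
theorem tame_comp_unif (hn : 2 ≤ n) (Q : Fin k → MvPolynomial (Fin n) ℝ) (z : E k) (a : ℝ)
    (ha : 0 ≤ a) (hne : ∃ x : E n, ‖x‖ = 1 ∧ qm Q x ≠ z) (Lf : ℕ → ℝ) (η : ℝ) (hη : 0 < η) :
    ∃ (D N : ℕ) (C : ℝ), 0 < C ∧ ∀ f : E k → ℝ, ContDiffOn ℝ ∞ f {z}ᶜ →
      (∀ K y, y ≠ z → ‖iteratedFDeriv ℝ K f y‖ ≤ Lf K * ‖y - z‖ ^ (-((K : ℝ) + a))) →
      TameAt η D N C fun x => f (qm Q x) := by
  classical
  obtain ⟨x1, hx1, hne⟩ := hne
  obtain ⟨i0, hi0⟩ : ∃ i, ev (Q i) x1 ≠ z i := by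
    by_contra h
    push Not at h
    exact hne (by ext i; exact h i)
  obtain ⟨M, κ, hM, hκ, hsub⟩ := poly_sublevel hn (Q i0 - C (z i0)) hx1 (by
    unfold ev
    rw [map_sub, eval_C]
    exact sub_ne_zero.2 hi0)
  -- the size
  obtain ⟨H, hH1, hH⟩ : ∃ H : ℝ, 1 ≤ H ∧ ∀ x : E n, ‖x‖ = 1 → ∀ i, |ev (Q i) x - z i| ≤ H := by
    choose B hB1 hB using fun i => exists_bound (Q i - C (z i))
    refine ⟨1 + ∑ i, B i, ?_, fun x hx i => ?_⟩
    · have : 0 ≤ ∑ i, B i := Finset.sum_nonneg fun i _ => by linarith [hB1 i]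
      linarith
    · have h1 := hB i x hx
      have h2 : ev (Q i - C (z i)) x = ev (Q i) x - z i := by unfold ev; rw [map_sub, eval_C]
      rw [h2] at h1
      have h3 : B i ≤ ∑ i, B i :=
        Finset.single_le_sum (f := B) (fun i _ => by linarith [hB1 i]) (Finset.mem_univ i)
      linarith
  have hH0 : 0 < H := by linarith
  obtain ⟨D0, hD0⟩ : ∃ D0 : ℕ, ∀ i, (Q i).totalDegree ≤ D0 :=
    ⟨Finset.univ.sup fun i => (Q i).totalDegree, fun i =>
      Finset.le_sup (f := fun i => (Q i).totalDegree) (Finset.mem_univ i)⟩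
  obtain ⟨A, hA⟩ := exists_nat_ge (2 * k * (1 + a / κ) / η)
  obtain ⟨K, hK⟩ : ∃ K : ℝ, K = ((A + 1 : ℕ) : ℝ) := ⟨_, rfl⟩
  have hAK : (A : ℝ) ≤ K := by rw [hK]; push_cast; linarith
  have hK0 : 0 < K := by rw [hK]; positivity
  have hKη : k * (1 + a / κ) / K ≤ η / 2 := by
    rw [div_le_iff₀ hη] at hA
    rw [div_le_iff₀ hK0]
    nlinarith
  obtain ⟨L, hLdef⟩ : ∃ L : ℝ, L = |Lf (A + 1)| := ⟨_, rfl⟩
  have hL0 : 0 ≤ L := by rw [hLdef]; exact abs_nonneg _
  obtain ⟨W, hW⟩ : ∃ W : ℝ, W = L * (k + 1) ^ (A + 1) * 4 ^ a + 1 := ⟨_, rfl⟩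
  have hW1 : 1 ≤ W := by
    have : 0 ≤ L * (k + 1) ^ (A + 1) * 4 ^ a := by positivity
    rw [hW]; linarith
  have hW0 : 0 < W := by linarith
  obtain ⟨θ, hθ⟩ : ∃ θ : ℝ, θ = κ * η / 2 := ⟨_, rfl⟩
  have hθ0 : 0 < θ := by rw [hθ]; positivity
  have hl2 : 0 < Real.log 2 := Real.log_pos (by norm_num)
  obtain ⟨C1, hC1⟩ : ∃ C1 : ℝ, C1 = ((θ * Real.log 2)⁻¹ * (4 * H) ^ θ) * (4 ^ k * (2 ^ k * W ^ (k / K))) :=
    ⟨_, rfl⟩
  have hC10 : 0 < C1 := by rw [hC1]; positivity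
  refine ⟨max (A * D0) D0, k + k, max C1 M, lt_of_lt_of_le hC10 (le_max_left _ _),
    fun f hf hfD δ hδ hδ1 => ?_⟩
  have hL : ∀ y, 0 < ‖y - z‖ → ‖y - z‖ ≤ (k + 1) * (2 * H) → ContDiffAt ℝ (A + 1 : ℕ) f y ∧
      ‖iteratedFDeriv ℝ (A + 1) f y‖ ≤ L * ‖y - z‖ ^ (-(((A + 1 : ℕ) : ℝ) + a)) := by
    intro y hy _
    have hyz : y ≠ z := fun h => by
      rw [h, sub_self, norm_zero] at hy
      exact lt_irrefl _ hy
    refine ⟨((hf y hyz).contDiffAt (isOpen_compl_singleton.mem_nhds hyz)).of_le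
      (by exact_mod_cast le_top), (hfD (A + 1) y hyz).trans ?_⟩
    refine mul_le_mul_of_nonneg_right ?_ (by positivity)
    rw [hLdef]
    exact le_abs_self _
  -- the cut-off
  obtain ⟨τ, hτ⟩ : ∃ τ : ℝ, τ = δ ^ (1 / κ) := ⟨_, rfl⟩
  have hτ0 : 0 < τ := by rw [hτ]; positivity
  have hτ1 : τ ≤ 1 := by rw [hτ]; exact Real.rpow_le_one hδ.le hδ1 (by positivity)
  obtain ⟨N, hN1, hN2⟩ := ceil_log (Y := 2 * H / τ) (by
    rw [le_div_iff₀ hτ0]; linarith)
  have hN3 : 2 * hs H N ≤ τ := by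
    unfold hs
    rw [div_le_iff₀ hτ0] at hN1
    rw [one_div, inv_pow, ← mul_assoc, ← div_eq_mul_inv, div_le_iff₀ (by positivity)]
    linarith
  have hN4 : τ / 4 ≤ hs H N := by
    unfold hs
    have h1 : (2:ℝ) ^ N * τ ≤ 4 * H := by
      have h2 : (2:ℝ) ^ N * τ ≤ 2 * (2 * H / τ) * τ := mul_le_mul_of_nonneg_right hN2 hτ0.le
      have h3 : 2 * (2 * H / τ) * τ = 4 * H := by field_simp; ring
      linarith
    rw [one_div, inv_pow, ← div_eq_mul_inv, le_div_iff₀ (by positivity)]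
    linarith
  -- the level of the cells
  obtain ⟨Y, hY⟩ : ∃ Y : ℝ, Y = (W * δ ^ (-(1 + a / κ))) ^ (1 / K) := ⟨_, rfl⟩
  have hδa : 1 ≤ δ ^ (-(1 + a / κ)) :=
    Real.one_le_rpow_of_pos_of_le_one_of_nonpos hδ hδ1 (by
      have : 0 ≤ a / κ := by positivity
      linarith)
  have hY1 : 1 ≤ Y := by
    rw [hY]
    exact Real.one_le_rpow (by nlinarith) (by positivity)
  obtain ⟨m, hm1, hm2⟩ := ceil_log hY1
  have hmK : W * δ ^ (-(1 + a / κ)) ≤ (2:ℝ) ^ (m * (A + 1)) := by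
    have h1 : Y ^ (A + 1) ≤ (2 ^ m) ^ (A + 1) := pow_le_pow_left₀ (by linarith) hm1 _
    rw [← pow_mul] at h1
    have h2 : Y ^ (A + 1) = W * δ ^ (-(1 + a / κ)) := by
      rw [hY, ← Real.rpow_natCast, ← Real.rpow_mul (by positivity), ← hK, one_div,
        inv_mul_cancel₀ hK0.ne', Real.rpow_one]
    rwa [h2] at h1
  -- the Taylor polynomials
  have hT : ∀ i : ℕ × (Fin k → ℕ) × (Fin k → ℕ), i ∈ Finset.range N ×ˢ (gd k ×ˢ cls k m) →
      ∃ T : MvPolynomial (Fin n) ℝ, T.totalDegree ≤ A * D0 ∧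
        ∀ x : E n, bx (ck (wk z H i.1 i.2.1) (hs H i.1) m i.2.2) (hs H i.1 / 2 ^ m) (qm Q x) ≠ 0 →
          |f (qm Q x) - ev T x| ≤ δ := by
    rintro ⟨j, al, c⟩ hi
    rw [Finset.mem_product, Finset.mem_product, Finset.mem_range] at hi
    obtain ⟨hj, hal, hc⟩ := hi
    obtain ⟨T, hT1, hT2⟩ := cell_tk hD0 (f := f) (z := z) (A := A) ha hL0 hH0 hL j m al hal c hc
    refine ⟨T, hT1, fun x hx => (hT2 x hx).trans ?_⟩
    have h1 : hs H j ^ (-a) ≤ 4 ^ a * δ ^ (-(a / κ)) := by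
      have h2 : τ / 4 ≤ hs H j := hN4.trans (hs_anti hH0 (le_of_lt hj))
      calc hs H j ^ (-a) ≤ (τ / 4) ^ (-a) :=
            Real.rpow_le_rpow_of_nonpos (by positivity) h2 (by linarith)
        _ = 4 ^ a * δ ^ (-(a / κ)) := by
            rw [Real.div_rpow hτ0.le (by norm_num), Real.rpow_neg (by norm_num : (0:ℝ) ≤ 4), hτ,
              ← Real.rpow_mul hδ.le, div_inv_eq_mul, mul_comm]
            congr 2
            ring
    have h3 : δ ^ (-(a / κ)) = δ ^ (-(1 + a / κ)) * δ := by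
      rw [← Real.rpow_add_one hδ.ne']
      congr 1
      ring
    have h4 : L * (k + 1) ^ (A + 1) * 4 ^ a ≤ W := by rw [hW]; linarith
    have hpos : (0:ℝ) < 2 ^ (m * (A + 1)) := by positivity
    calc L * (k + 1) ^ (A + 1) * hs H j ^ (-a) * ((2:ℝ) ^ (m * (A + 1)))⁻¹
        ≤ L * (k + 1) ^ (A + 1) * (4 ^ a * δ ^ (-(a / κ))) * ((2:ℝ) ^ (m * (A + 1)))⁻¹ := by gcongr
      _ = (L * (k + 1) ^ (A + 1) * 4 ^ a) * (δ ^ (-(1 + a / κ)) * δ) * ((2:ℝ) ^ (m * (A + 1)))⁻¹ := by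
          rw [h3]; ring
      _ ≤ W * (δ ^ (-(1 + a / κ)) * δ) * ((2:ℝ) ^ (m * (A + 1)))⁻¹ := by gcongr
      _ = (W * δ ^ (-(1 + a / κ)) * ((2:ℝ) ^ (m * (A + 1)))⁻¹) * δ := by ring
      _ ≤ 1 * δ := by
          refine mul_le_mul_of_nonneg_right ?_ hδ.le
          rw [mul_inv_le_iff₀ hpos, one_mul]
          exact hmK
      _ = δ := one_mul δ
  choose! T hT1 hT2 using hT
  -- the sum of the indicators
  have hsum : ∀ x : E n, ‖x‖ = 1 → ∑ i ∈ Finset.range N ×ˢ (gd k ×ˢ cls k m),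
      bc (bq Q (ck (wk z H i.1 i.2.1) (hs H i.1) m i.2.2) (hs H i.1 / 2 ^ m))
        (Fin.append (fun _ => true) (fun _ => false)) x =
      1 - bx (fun i => z i - 2 * hs H N) (4 * hs H N) (qm Q x) := by
    intro x hx
    have h1 : ∀ j, 0 ≤ hs H j / 2 ^ m := fun j => by
      have := hs_pos hH0 j
      positivity
    have h2 : bx (fun i => z i - 2 * hs H 0) (4 * hs H 0) (qm Q x) = 1 := by
      have h3 : hs H 0 = H := by unfold hs; simp
      rw [h3, bx_eq _ (by positivity)]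
      refine if_pos fun i => ?_
      have h4 := abs_le.1 (hH x hx i)
      rw [qm_apply]
      constructor <;> linarith [h4.1, h4.2]
    rw [← h2, ← sum_wh, Finset.sum_product]
    refine Finset.sum_congr rfl fun j _ => ?_
    rw [Finset.sum_product]
    refine Finset.sum_congr rfl fun al _ => ?_
    rw [bx_cells _ _ m]
    refine Finset.sum_congr rfl fun c _ => ?_
    exact bc_bq Q _ (h1 j) x
  refine ⟨ℕ × (Fin k → ℕ) × (Fin k → ℕ), Finset.range N ×ˢ (gd k ×ˢ cls k m), T,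
    fun i => bq Q (ck (wk z H i.1 i.2.1) (hs H i.1) m i.2.2) (hs H i.1 / 2 ^ m),
    fun _ => Fin.append (fun _ => true) (fun _ => false), ?_, fun i hi => (hT1 i hi).trans (le_max_left _ _),
    fun i _ l => (bq_deg hD0 _ _ l).trans (le_max_right _ _), fun x hx => ?_, fun x hx i hi h0 => ?_, ?_⟩
  · -- the number of cells
    rw [Finset.card_product, Finset.card_product, Finset.card_range, card_cls]
    push_cast
    have h1 : (N : ℝ) ≤ (θ * Real.log 2)⁻¹ * (4 * H) ^ θ * δ ^ (-(η / 2)) := by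
      refine (nat_le_pow hθ0 N).trans ?_
      rw [mul_assoc]
      refine mul_le_mul_of_nonneg_left ?_ (by positivity)
      calc ((2:ℝ) ^ N) ^ θ ≤ (2 * (2 * H / τ)) ^ θ := Real.rpow_le_rpow (by positivity) hN2 hθ0.le
        _ = (4 * H) ^ θ * δ ^ (-(η / 2)) := by
            have e1 : 2 * (2 * H / τ) = (4 * H) / τ := by ring
            rw [e1, Real.div_rpow (by positivity) hτ0.le, hτ, ← Real.rpow_mul hδ.le, div_eq_mul_inv,
              ← Real.rpow_neg hδ.le]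
            congr 2
            rw [hθ]
            field_simp
    have h2 : ((gd k).card : ℝ) ≤ 4 ^ k := by exact_mod_cast card_gd_le
    have h3 : ((2:ℝ) ^ m) ^ k ≤ 2 ^ k * W ^ (k / K) * δ ^ (-(η / 2)) := by
      have e1 : Y ^ k = W ^ (k / K) * δ ^ (-(k * (1 + a / κ) / K)) := by
        rw [hY, ← Real.rpow_natCast, ← Real.rpow_mul (by positivity),
          Real.mul_rpow hW0.le (by positivity), ← Real.rpow_mul hδ.le]
        congr 2
        · ring
        · ring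
      calc ((2:ℝ) ^ m) ^ k ≤ (2 * Y) ^ k := pow_le_pow_left₀ (by positivity) hm2 k
        _ = 2 ^ k * W ^ (k / K) * δ ^ (-(k * (1 + a / κ) / K)) := by rw [mul_pow, e1]; ring
        _ ≤ _ := by
          refine mul_le_mul_of_nonneg_left ?_ (by positivity)
          exact Real.rpow_le_rpow_of_exponent_ge hδ hδ1 (by linarith)
    have e2 : δ ^ (-(η / 2)) * δ ^ (-(η / 2)) = δ ^ (-η) := by
      rw [← Real.rpow_add hδ]
      congr 1
      ring
    calc (N : ℝ) * ((gd k).card * ((2:ℝ) ^ m) ^ k)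
        ≤ ((θ * Real.log 2)⁻¹ * (4 * H) ^ θ * δ ^ (-(η / 2))) *
          (4 ^ k * (2 ^ k * W ^ (k / K) * δ ^ (-(η / 2)))) := by gcongr
      _ = C1 * (δ ^ (-(η / 2)) * δ ^ (-(η / 2))) := by rw [hC1]; ring
      _ = C1 * δ ^ (-η) := by rw [e2]
      _ ≤ _ := by gcongr; exact le_max_left _ _
  · rw [hsum x hx]
    have := bx_nonneg (fun i => z i - 2 * hs H N) (h := 4 * hs H N)
      (by have := hs_pos hH0 N; positivity) (qm Q x)
    linarith
  · refine hT2 i hi x ?_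
    rw [bc_bq Q _ (by have := hs_pos hH0 i.1; positivity)] at h0
    exact h0
  · have hsub2 : {x : S n | ∑ i ∈ Finset.range N ×ˢ (gd k ×ˢ cls k m),
        bc (bq Q (ck (wk z H i.1 i.2.1) (hs H i.1) m i.2.2) (hs H i.1 / 2 ^ m))
          (Fin.append (fun _ => true) (fun _ => false)) (x : E n) ≠ 1} ⊆
        {x : S n | |ev (Q i0 - C (z i0)) (x : E n)| ≤ τ} := by
      intro x hx
      have hx' : ‖(x : E n)‖ = 1 := mem_sphere_zero_iff_norm.1 x.2
      have h1 : bx (fun i => z i - 2 * hs H N) (4 * hs H N) (qm Q (x : E n)) ≠ 0 := by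
        intro h2
        refine hx ?_
        rw [hsum x hx', h2, sub_zero]
      have h2 := bx_mem (by have := hs_pos hH0 N; positivity) h1 i0
      rw [qm_apply] at h2
      show |ev (Q i0 - C (z i0)) (x : E n)| ≤ τ
      have h3 : ev (Q i0 - C (z i0)) (x : E n) = ev (Q i0) x - z i0 := by
        unfold ev; rw [map_sub, eval_C]
      rw [h3, abs_le]
      constructor <;> linarith [h2.1, h2.2]
    refine (measure_mono hsub2).trans ((hsub τ hτ0.le).trans (ENNReal.ofReal_le_ofReal ?_))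
    have e1 : τ ^ κ = δ := by
      rw [hτ, ← Real.rpow_mul hδ.le, one_div_mul_cancel hκ.ne', Real.rpow_one]
    rw [e1]
    gcongr
    exact le_max_right _ _

end Pool.Agent.VANn.TM
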