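import Pool.Agent.VANn.TA9
import Pool.Agent.VANn.TU1

/-!
The smooth functions on the sphere with bounded derivatives are uniformly tame.
-/

set_option autoImplicit false

namespace Pool.Agent.VANn.TM

open MeasureTheory Set MvPolynomial Pool.Agent.MP_6cbfb8_an Filter Topology
open scoped ENNReal Real ContDiff

variable {n : ℕ}

/-- the projection to the sphere -/
noncomputable def nu (x : E n) : E n := ‖x‖⁻¹ • x

lemma nu_contDiffAt {x : E n} (hx : x ≠ 0) : ContDiffAt ℝ ∞ (nu : E n → E n) x :=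
  ((contDiffAt_norm ℝ hx).inv (norm_ne_zero_iff.2 hx)).smul contDiffAt_id

lemma nu_contDiffOn : ContDiffOn ℝ ∞ (nu : E n → E n) {0}ᶜ := fun _ hx =>
  (nu_contDiffAt hx).contDiffWithinAt

lemma norm_nu {x : E n} (hx : x ≠ 0) : ‖nu x‖ = 1 := by
  unfold nu
  rw [norm_smul, norm_inv, norm_norm, inv_mul_cancel₀ (norm_ne_zero_iff.2 hx)]

lemma nu_of_norm {x : E n} (hx : ‖x‖ = 1) : nu x = x := by
  unfold nu
  rw [hx, inv_one, one_smul]

lemma nu_smul {t : ℝ} (ht : 0 < t) (x : E n) : nu (t • x) = nu x := by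
  unfold nu
  rw [norm_smul, Real.norm_eq_abs, abs_of_pos ht, smul_smul, mul_inv, mul_comm t⁻¹, mul_assoc,
    inv_mul_cancel₀ ht.ne', mul_one]

lemma hx_smooth {φ : E n → ℝ} (hφ : ∀ x, ‖x‖ = 1 → ContDiffAt ℝ ∞ φ x) :
    ContDiffOn ℝ ∞ (φ ∘ nu) {0}ᶜ := fun x hx =>
  ((hφ _ (norm_nu hx)).comp x (nu_contDiffAt hx)).contDiffWithinAt

lemma nu_bound (i : ℕ) : ∃ M : ℝ, ∀ x : E n, ‖x‖ = 1 → ‖iteratedFDeriv ℝ i (nu : E n → E n) x‖ ≤ M := by
  obtain ⟨M, hM⟩ := (isCompact_sphere (0 : E n) 1).exists_bound_of_continuousOn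
    (f := fun y => iteratedFDeriv ℝ i (nu : E n → E n) y) (by
    intro y hy
    have hyz : y ≠ 0 := by
      rintro rfl
      simp at hy
    have h1 : ContDiffAt ℝ 0 (iteratedFDeriv ℝ i (nu : E n → E n)) y :=
      (nu_contDiffAt hyz).iteratedFDeriv_right (by rw [zero_add]; exact_mod_cast le_top)
    exact h1.continuousAt.continuousWithinAt)
  exact ⟨M, fun x hx => hM x (mem_sphere_zero_iff_norm.2 hx)⟩

/-- bounds for the homogeneous extension on the sphere -/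
lemma hx_bound (B : ℕ → ℝ) (K : ℕ) : ∃ L : ℝ, ∀ φ : E n → ℝ,
    (∀ x, ‖x‖ = 1 → ContDiffAt ℝ ∞ φ x) → (∀ k x, ‖x‖ = 1 → ‖iteratedFDeriv ℝ k φ x‖ ≤ B k) →
    ∀ x, ‖x‖ = 1 → ‖iteratedFDeriv ℝ K (φ ∘ nu) x‖ ≤ L := by
  choose M hM using nu_bound (n := n)
  refine ⟨K.factorial * (∑ i ∈ Finset.range (K + 1), |B i|) *
    (1 + ∑ i ∈ Finset.range (K + 1), |M i|) ^ K, fun φ hφ hB x hx => ?_⟩
  have hx0 : x ≠ 0 := by
    rintro rfl
    simp at hx
  have hev := ((hφ x hx).of_le (by exact_mod_cast le_top : ((K : ℕ) : WithTop ℕ∞) ≤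
    ((⊤ : ℕ∞) : WithTop ℕ∞))).eventually (by exact_mod_cast ENat.natCast_ne_top K)
  obtain ⟨t, htu, hto, hxt⟩ := eventually_nhds_iff.1 hev
  have hus : ContDiffOn ℝ K φ t := fun y hy => (htu y hy).contDiffWithinAt
  have hso : IsOpen ({0}ᶜ ∩ nu ⁻¹' t : Set (E n)) :=
    nu_contDiffOn.continuousOn.isOpen_inter_preimage isOpen_compl_singleton hto
  have hxs : x ∈ ({0}ᶜ ∩ nu ⁻¹' t : Set (E n)) := ⟨hx0, by
    rw [mem_preimage, nu_of_norm hx]
    exact hxt⟩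
  have h1 := norm_iteratedFDerivWithin_comp_le (g := φ) (f := nu) (n := K) (N := K)
    (s := {0}ᶜ ∩ nu ⁻¹' t) (t := t) (x := x) hus
    ((nu_contDiffOn.mono inter_subset_left).of_le (by exact_mod_cast le_top)) le_rfl
    hto.uniqueDiffOn hso.uniqueDiffOn (fun y hy => hy.2) hxs
    (C := ∑ i ∈ Finset.range (K + 1), |B i|) (D := 1 + ∑ i ∈ Finset.range (K + 1), |M i|)
    (fun i hi => ?_) (fun i hi1 hi => ?_)
  · rwa [iteratedFDerivWithin_of_isOpen K hso hxs] at h1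
  · rw [nu_of_norm hx, iteratedFDerivWithin_of_isOpen i hto hxt]
    refine (hB i x hx).trans ((le_abs_self _).trans ?_)
    exact Finset.single_le_sum (f := fun i => |B i|) (fun _ _ => abs_nonneg _)
      (Finset.mem_range.2 (by omega))
  · rw [iteratedFDerivWithin_of_isOpen i hso hxs]
    have h2 : |M i| ≤ ∑ i ∈ Finset.range (K + 1), |M i| :=
      Finset.single_le_sum (f := fun i => |M i|) (fun _ _ => abs_nonneg _)
        (Finset.mem_range.2 (by omega))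
    have h3 : (1 : ℝ) ≤ 1 + ∑ i ∈ Finset.range (K + 1), |M i| := by
      have : 0 ≤ ∑ i ∈ Finset.range (K + 1), |M i| := Finset.sum_nonneg fun _ _ => abs_nonneg _
      linarith
    calc ‖iteratedFDeriv ℝ i nu x‖ ≤ M i := hM i x hx
      _ ≤ |M i| := le_abs_self _
      _ ≤ 1 + ∑ i ∈ Finset.range (K + 1), |M i| := by linarith
      _ = (1 + ∑ i ∈ Finset.range (K + 1), |M i|) ^ 1 := (pow_one _).symm
      _ ≤ _ := pow_le_pow_right₀ h3 hi1

/-- bounds off the origin for functions which are homogeneous of degree zero -/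
lemma hom_bound {f : E n → ℝ} (hf : ContDiffOn ℝ ∞ f {0}ᶜ)
    (hh : ∀ (t : ℝ) (y : E n), 0 < t → f (t • y) = f y) {K : ℕ} {L : ℝ}
    (hL : ∀ x, ‖x‖ = 1 → ‖iteratedFDeriv ℝ K f x‖ ≤ L) (y : E n) (hy0 : y ≠ 0) :
    ‖iteratedFDeriv ℝ K f y‖ ≤ L * ‖y‖ ^ (-(K : ℝ)) := by
  have hat : ∀ y : E n, y ≠ 0 → ContDiffAt ℝ ∞ f y := fun y hy =>
    (hf y hy).contDiffAt (isOpen_compl_singleton.mem_nhds hy)
  have hy : 0 < ‖y‖ := norm_pos_iff.2 hy0
  obtain ⟨r, hr⟩ : ∃ r : ℝ, r = ‖y‖ := ⟨_, rfl⟩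
  rw [← hr] at hy ⊢
  have hrne : r ≠ 0 := hy.ne'
  obtain ⟨g, hg⟩ : ∃ g : E n ≃L[ℝ] E n, g = ContinuousLinearEquiv.smulLeft (Units.mk0 r hrne) := ⟨_, rfl⟩
  have hgx : ∀ x, g x = r • x := fun x => by rw [hg]; rfl
  obtain ⟨u, hu⟩ : ∃ u : E n, u = r⁻¹ • y := ⟨_, rfl⟩
  have hgu : g u = y := by rw [hgx, hu, smul_smul, mul_inv_cancel₀ hrne, one_smul]
  have hu1 : ‖u‖ = 1 := by
    rw [hu, norm_smul, ← hr, Real.norm_of_nonneg (by positivity), inv_mul_cancel₀ hrne]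
  have e1 : f ∘ g = f := by
    funext x
    rw [Function.comp_apply, hgx, hh r x hy]
  have e2 : iteratedFDeriv ℝ K (f ∘ g) u =
      (iteratedFDeriv ℝ K f (g u)).compContinuousLinearMap fun _ => (g : E n →L[ℝ] E n) := by
    have := g.iteratedFDerivWithin_comp_right f uniqueDiffOn_univ (mem_univ (g u)) K
    simpa only [preimage_univ, iteratedFDerivWithin_univ] using this
  rw [e1, hgu] at e2
  have e3 : iteratedFDeriv ℝ K f y = (r⁻¹) ^ K • iteratedFDeriv ℝ K f u := by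
    rw [e2]
    ext v
    simp only [_root_.smul_apply,
      ContinuousMultilinearMap.compContinuousLinearMap_apply, ContinuousLinearEquiv.coe_coe]
    have : (fun i => g (v i)) = fun i => r • v i := funext fun i => hgx _
    rw [this, ContinuousMultilinearMap.map_smul_univ, Finset.prod_const, Finset.card_univ,
      Fintype.card_fin, smul_smul, ← mul_pow, inv_mul_cancel₀ hrne, one_pow, one_smul]
  rw [e3, norm_smul, Real.norm_of_nonneg (by positivity)]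
  have e4 : r⁻¹ ^ K = r ^ (-(K : ℝ)) := by
    rw [Real.rpow_neg hy.le, Real.rpow_natCast, inv_pow]
  rw [e4, mul_comm]
  have := hL u hu1
  gcongr

lemma qm_X (x : E n) : qm (fun i : Fin n => (X i : MvPolynomial (Fin n) ℝ)) x = x := by
  ext i
  rw [qm_apply]
  unfold ev
  rw [eval_X]

/-- **Smooth functions with bounded derivatives on the sphere are uniformly tame.** -/
theorem tame_smooth_unif (hn : 2 ≤ n) (B : ℕ → ℝ) (η : ℝ) (hη : 0 < η) :
    ∃ (D N : ℕ) (C : ℝ), 0 < C ∧ ∀ φ : E n → ℝ, (∀ x, ‖x‖ = 1 → ContDiffAt ℝ ∞ φ x) →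
      (∀ k x, ‖x‖ = 1 → ‖iteratedFDeriv ℝ k φ x‖ ≤ B k) → TameAt η D N C (φ ∘ nu) := by
  choose L hL using fun K => hx_bound (n := n) B K
  have hex : ∃ x : E n, ‖x‖ = 1 ∧ qm (fun i : Fin n => (X i : MvPolynomial (Fin n) ℝ)) x ≠ 0 := by
    obtain ⟨m, rfl⟩ : ∃ m, n = m + 1 := ⟨n - 1, by omega⟩
    refine ⟨EuclideanSpace.single 0 1, by simp, ?_⟩
    rw [qm_X]
    intro h
    have h1 := congrArg norm h
    simp at h1
  obtain ⟨D, N, C, hC, H⟩ := tame_comp_unif hn (fun i : Fin n => (X i : MvPolynomial (Fin n) ℝ)) 0 0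
    le_rfl hex (fun K => L K) η hη
  refine ⟨D, N, C, hC, fun φ hφ hB => ?_⟩
  have h1 := H (φ ∘ nu) (hx_smooth hφ) (fun K y hy => by
    have h2 := hom_bound (hx_smooth hφ) (fun t y ht => by
      rw [Function.comp_apply, nu_smul ht, Function.comp_apply]) (hL K φ hφ hB) y hy
    rwa [sub_zero, add_zero])
  have e1 : (fun x => (φ ∘ nu) (qm (fun i : Fin n => (X i : MvPolynomial (Fin n) ℝ)) x)) = φ ∘ nu := by
    funext x
    rw [qm_X]
  rwa [e1] at h1

end Pool.Agent.VANn.TM
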