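import Pool.Agent.VANn.TU2
import Pool.Agent.VANn.TA1A

/-!
The restriction estimate with an arbitrarily small loss for sums of elements of the algebra and of
arbitrary smooth functions, with a constant which depends on the bounds of the smooth functions only.
-/

set_option autoImplicit false

namespace Pool.Agent.VANn.TM

open MeasureTheory Set MvPolynomial Pool.Agent.MP_6cbfb8_an Filter Topology
open scoped ENNReal Real ContDiff

variable {n : ℕ}

theorem TameAt.add {φ ψ : E n → ℝ} {η : ℝ} {D N D' N' : ℕ} {C C' : ℝ} (hC : 0 < C)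
    (hC' : 0 < C') (H : TameAt (η / 2) D N C φ) (H' : TameAt (η / 2) D' N' C' ψ) :
    TameAt η (max D D') (N + N') (max (C * C' * 2 ^ η) (C / 2 + C' / 2)) fun x => φ x + ψ x := by
  intro δ hδ hδ1
  have hδ2 : 0 < δ / 2 := by positivity
  obtain ⟨ι, s, T, q, b, h1, h2, h3, h4, h5, h6⟩ := H (δ / 2) hδ2 (by linarith)
  obtain ⟨ι', s', T', q', b', h1', h2', h3', h4', h5', h6'⟩ := H' (δ / 2) hδ2 (by linarith)
  have hsum : ∀ x : E n, ∑ j ∈ s ×ˢ s', bc (Fin.append (q j.1) (q' j.2)) (Fin.append (b j.1) (b' j.2)) x =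
      (∑ j ∈ s, bc (q j) (b j) x) * ∑ j ∈ s', bc (q' j) (b' j) x := by
    intro x
    rw [Finset.sum_mul_sum, ← Finset.sum_product']
    exact Finset.sum_congr rfl fun j _ => bc_append _ _ _ _ x
  have hs0 : ∀ x : E n, 0 ≤ ∑ j ∈ s, bc (q j) (b j) x := fun x =>
    Finset.sum_nonneg fun j _ => bc_nonneg _ _ x
  have hs0' : ∀ x : E n, 0 ≤ ∑ j ∈ s', bc (q' j) (b' j) x := fun x =>
    Finset.sum_nonneg fun j _ => bc_nonneg _ _ x
  refine ⟨ι × ι', s ×ˢ s', fun j => T j.1 + T' j.2, fun j => Fin.append (q j.1) (q' j.2),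
    fun j => Fin.append (b j.1) (b' j.2), ?_, ?_, ?_, ?_, ?_, ?_⟩
  · rw [Finset.card_product]
    push_cast
    have e : (δ / 2) ^ (-(η / 2)) * (δ / 2) ^ (-(η / 2)) = 2 ^ η * δ ^ (-η) := by
      rw [← Real.rpow_add hδ2, div_eq_mul_inv, Real.mul_rpow hδ.le (by norm_num),
        Real.inv_rpow (by norm_num), ← Real.rpow_neg (by norm_num)]
      rw [show -(η / 2) + -(η / 2) = -η by ring, neg_neg]
      ring
    calc (s.card : ℝ) * s'.card ≤ (C * (δ / 2) ^ (-(η / 2))) * (C' * (δ / 2) ^ (-(η / 2))) := by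
          gcongr
      _ = C * C' * ((δ / 2) ^ (-(η / 2)) * (δ / 2) ^ (-(η / 2))) := by ring
      _ = C * C' * 2 ^ η * δ ^ (-η) := by rw [e]; ring
      _ ≤ _ := by gcongr; exact le_max_left _ _
  · intro j hj
    rw [Finset.mem_product] at hj
    exact (totalDegree_add _ _).trans (max_le_max (h2 _ hj.1) (h2' _ hj.2))
  · intro j hj i
    rw [Finset.mem_product] at hj
    refine Fin.addCases (fun k => ?_) (fun k => ?_) i
    · simp only [Fin.append_left]
      exact (h3 _ hj.1 k).trans (le_max_left _ _)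
    · simp only [Fin.append_right]
      exact (h3' _ hj.2 k).trans (le_max_right _ _)
  · intro x hx
    rw [hsum]
    exact mul_le_one₀ (h4 x hx) (hs0' x) (h4' x hx)
  · intro x hx j hj h0
    rw [Finset.mem_product] at hj
    rw [bc_append] at h0
    have e1 := h5 x hx _ hj.1 (left_ne_zero_of_mul h0)
    have e2 := h5' x hx _ hj.2 (right_ne_zero_of_mul h0)
    have e3 : φ x + ψ x - ev (T j.1 + T' j.2) x =
        (φ x - ev (T j.1) x) + (ψ x - ev (T' j.2) x) := by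
      unfold ev
      rw [map_add]
      ring
    rw [e3]
    calc _ ≤ |φ x - ev (T j.1) x| + |ψ x - ev (T' j.2) x| := abs_add_le _ _
      _ ≤ δ := by linarith
  · have hsub : {x : S n | ∑ j ∈ s ×ˢ s', bc (Fin.append (q j.1) (q' j.2))
        (Fin.append (b j.1) (b' j.2)) (x : E n) ≠ 1} ⊆
        {x : S n | ∑ j ∈ s, bc (q j) (b j) (x : E n) ≠ 1} ∪
          {x : S n | ∑ j ∈ s', bc (q' j) (b' j) (x : E n) ≠ 1} := by
      intro x hx
      by_contra h
      rw [mem_union, not_or] at h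
      have e1 : ∑ j ∈ s, bc (q j) (b j) (x : E n) = 1 := not_not.1 h.1
      have e2 : ∑ j ∈ s', bc (q' j) (b' j) (x : E n) = 1 := not_not.1 h.2
      refine hx ?_
      rw [hsum, e1, e2, mul_one]
    refine (measure_mono hsub).trans ((measure_union_le _ _).trans ((add_le_add h6 h6').trans ?_))
    rw [← ENNReal.ofReal_add (by positivity) (by positivity)]
    refine ENNReal.ofReal_le_ofReal ?_
    calc C * (δ / 2) + C' * (δ / 2) = (C / 2 + C' / 2) * δ := by ring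
      _ ≤ _ := by gcongr; exact le_max_right _ _

/-- sums of smooth functions with bounded derivatives and of combinations of tame functions -/
theorem tameAt_mixed (hn : 2 ≤ n) (B : ℕ → ℝ) {m : ℕ} (φ : Fin m → E n → ℝ) (h : ∀ k, Tame (φ k))
    (η : ℝ) (hη : 0 < η) : ∃ (D N : ℕ) (C : ℝ), 0 < C ∧ ∀ (u : E n → ℝ) (c : Fin m → ℝ),
      (∀ x, ‖x‖ = 1 → ContDiffAt ℝ ∞ u x) → (∀ k x, ‖x‖ = 1 → ‖iteratedFDeriv ℝ k u x‖ ≤ B k) →
      (∀ k, |c k| ≤ 1) → TameAt η D N C fun x => (u ∘ nu) x + ∑ k, c k * φ k x := by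
  obtain ⟨D, N, C, hC, H⟩ := tame_smooth_unif hn B (η / 2) (by positivity)
  obtain ⟨D', N', C', hC', H'⟩ := tameAt_comb φ h (η / 2) (by positivity)
  exact ⟨_, _, _, lt_of_lt_of_le (by positivity) (le_max_right _ _), fun u c hu hB hc =>
    TameAt.add hC hC' (H u hu hB) (H' c hc)⟩

lemma measurable_comp_nu {u : E n → ℝ} (hu : ∀ x, ‖x‖ = 1 → ContDiffAt ℝ ∞ u x) :
    Measurable (u ∘ nu) := measurable_sing (hx_smooth hu)

/-- the passage to coefficients of size one -/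
lemma mixed_scale {B : ℕ → ℝ} {u : E n → ℝ} {t : ℝ} (ht : 0 ≤ t) {r : ℝ} (hr : 0 ≤ r)
    (hu : ∀ x, ‖x‖ = 1 → ContDiffAt ℝ ∞ u x)
    (hB : ∀ k x, ‖x‖ = 1 → ‖iteratedFDeriv ℝ k u x‖ ≤ t * B k) :
    (∀ x, ‖x‖ = 1 → ContDiffAt ℝ ∞ (fun x => (1 + t + r)⁻¹ * u x) x) ∧
      ∀ k x, ‖x‖ = 1 → ‖iteratedFDeriv ℝ k (fun x => (1 + t + r)⁻¹ * u x) x‖ ≤ |B k| := by
  refine ⟨fun x hx => contDiffAt_const.mul (hu x hx), fun k x hx => ?_⟩
  have h1 : iteratedFDeriv ℝ k (fun x => (1 + t + r)⁻¹ * u x) x =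
      (1 + t + r)⁻¹ • iteratedFDeriv ℝ k u x := by
    have := iteratedFDeriv_const_smul_apply' (a := (1 + t + r)⁻¹) (x := x) (i := k)
      ((hu x hx).of_le (by exact_mod_cast le_top) : ContDiffAt ℝ k u x)
    simpa only [smul_eq_mul] using this
  have hp : 0 < 1 + t + r := by positivity
  rw [h1, norm_smul, Real.norm_of_nonneg (by positivity), inv_mul_le_iff₀ hp]
  refine (hB k x hx).trans ?_
  calc t * B k ≤ t * |B k| := mul_le_mul_of_nonneg_left (le_abs_self _) ht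
    _ ≤ (1 + t + r) * |B k| := mul_le_mul_of_nonneg_right (by linarith) (abs_nonneg _)

lemma extn_congr' {g h : E n → ℂ} (H : ∀ x, ‖x‖ = 1 → g x = h x) : extn g = extn h := by
  funext ξ
  unfold extn
  refine integral_congr_ae (Eventually.of_forall fun x => ?_)
  have hx : ‖(x : E n)‖ = 1 := mem_sphere_zero_iff_norm.1 x.2
  simp only [H _ hx]

/-- **The estimate with a loss for sums of smooth functions and elements of the algebra**, uniform in
the smooth functions, with a class of amplitudes. -/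
theorem mixed_loss_cls (hn : 2 ≤ n) {p0 : ℝ} (hp0' : 1 ≤ p0) {cls : (E n → ℂ) → Prop}
    (hcls : ∀ a, cls a → Measurable a ∧ ∀ x, ‖a x‖ ≤ 1) (hB : BaseA n p0 cls) {m : ℕ}
    (φ : Fin m → E n → ℝ) (hφ : ∀ k, φ k ∈ Alg n) (B : ℕ → ℝ) (p ε : ℝ) (hp : p0 < p)
    (hε : 0 < ε) : ∃ C : ℝ≥0∞, C ≠ ⊤ ∧ ∀ a : E n → ℂ, cls a → ∀ (l : Fin m → ℝ) (t : ℝ)
      (u : E n → ℝ), 0 ≤ t → (∀ x, ‖x‖ = 1 → ContDiffAt ℝ ∞ u x) →
      (∀ k x, ‖x‖ = 1 → ‖iteratedFDeriv ℝ k u x‖ ≤ t * B k) →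
      ∫⁻ ξ, ‖extn (fun x => a x *
        Complex.exp (((u x + ∑ k, l k * φ k x : ℝ) : ℂ) * Complex.I)) ξ‖ₑ ^ p ≤
        C * ENNReal.ofReal ((1 + t + ‖l‖) ^ ε) := by
  obtain ⟨η, hη, H⟩ := tame_loss_u_cls hp0' hcls hB p ε hp hε
  obtain ⟨D, N, C0, hC0, H1⟩ := tameAt_mixed hn (fun k => |B k|) φ
    (fun k => (alg_tame hn (hφ k)).2.1) η hη
  obtain ⟨C, hC, H2⟩ := H D N C0 hC0
  refine ⟨C * ENNReal.ofReal (2 ^ ε), ENNReal.mul_ne_top hC ENNReal.ofReal_ne_top,
    fun a ha l t u ht hu hBu => ?_⟩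
  have hl : 0 < 1 + t + ‖l‖ := by positivity
  obtain ⟨hv, hvB⟩ := mixed_scale ht (norm_nonneg l) hu hBu
  have h1 := H2 (fun x => ((fun x => (1 + t + ‖l‖)⁻¹ * u x) ∘ nu) x +
      ∑ k, l k / (1 + t + ‖l‖) * φ k x)
    ((measurable_comp_nu hv).add
      (Finset.measurable_sum _ fun k _ => ((alg_tame hn (hφ k)).1).const_mul _))
    (H1 _ (fun k => l k / (1 + t + ‖l‖)) hv hvB fun k => by
      rw [abs_div, abs_of_pos hl, div_le_one hl]
      have := norm_le_pi_norm l k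
      rw [Real.norm_eq_abs] at this
      linarith) a ha (1 + t + ‖l‖)
  have e1 : extn (fun x => a x * Complex.exp (((u x + ∑ k, l k * φ k x : ℝ) : ℂ) * Complex.I)) =
      extn (fun x => a x * Complex.exp ((((1 + t + ‖l‖) *
        (((fun x => (1 + t + ‖l‖)⁻¹ * u x) ∘ nu) x + ∑ k, l k / (1 + t + ‖l‖) * φ k x) : ℝ) : ℂ) *
          Complex.I)) := by
    refine extn_congr' fun x hx => ?_
    have e2 : (1 + t + ‖l‖) * (((fun x => (1 + t + ‖l‖)⁻¹ * u x) ∘ nu) x +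
        ∑ k, l k / (1 + t + ‖l‖) * φ k x) = u x + ∑ k, l k * φ k x := by
      rw [Function.comp_apply, nu_of_norm hx, mul_add, ← mul_assoc, mul_inv_cancel₀ hl.ne', one_mul,
        Finset.mul_sum]
      congr 1
      refine Finset.sum_congr rfl fun k _ => ?_
      field_simp
    rw [e2]
  rw [e1]
  refine h1.trans ?_
  rw [mul_assoc, ← ENNReal.ofReal_mul (by positivity)]
  gcongr
  rw [← Real.mul_rpow (by norm_num) (by positivity), abs_of_pos hl]
  refine Real.rpow_le_rpow (by positivity) ?_ hε.le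
  linarith [norm_nonneg l]

end Pool.Agent.VANn.TM
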