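import Pool.Agent.VANn.TU3
import Pool.Agent.VANn.TB
import Pool.Agent.VAN.TM6A

/-!
The estimate with a loss in the algebra: assembly for the unit amplitude and, in `R^3`, for the
amplitudes of bounded variation.
-/

set_option autoImplicit false

namespace Pool.Agent.VANn.TM

open MeasureTheory Set MvPolynomial Pool.Agent.MP_6cbfb8_an Filter Topology
open scoped ENNReal Real ContDiff

/-- the amplitudes: one, and in `R^3` all amplitudes of variation at most `V` -/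
def ac (n : ℕ) (V : ℝ) (a : E n → ℂ) : Prop :=
  a = 1 ∨ n = 3 ∧ Measurable a ∧ (∀ x, ‖a x‖ ≤ 1) ∧ ∀ r : ℝ, 0 < r →
    ∫⁻ x : S n, (∫⁻ y in Metric.closedBall x r, ‖a x - a y‖ₑ ∂(sm n)) ∂(sm n) ≤
      ENNReal.ofReal (V * r ^ n)

lemma ac_ok (n : ℕ) (V : ℝ) (a : E n → ℂ) (h : ac n V a) : Measurable a ∧ ∀ x, ‖a x‖ ≤ 1 := by
  rcases h with rfl | ⟨_, h1, h2, _⟩
  · exact ⟨measurable_const, fun x => by simp⟩
  · exact ⟨h1, h2⟩

/-- The polynomial estimate for these amplitudes. -/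
theorem baseA_ac {n : ℕ} {p0 : ℝ} (hB : Base n p0) (h3 : n = 3 → 3 ≤ p0) (V : ℝ) :
    BaseA n p0 (ac n V) := by
  intro D N p hp
  obtain ⟨C, hC, H⟩ := hB D N p hp
  obtain ⟨C', hC', H'⟩ : ∃ C' : ℝ≥0∞, C' ≠ ⊤ ∧ ∀ a : E n → ℂ, n = 3 → ac n V a → a ≠ 1 →
      ∀ (P : MvPolynomial (Fin n) ℝ) (Q : Fin N → MvPolynomial (Fin n) ℝ), P.totalDegree ≤ D →
      (∀ i, (Q i).totalDegree ≤ D) → ∫⁻ ξ, ‖extn (fun x => a x * pol P Q x) ξ‖ₑ ^ p ≤ C' := by
    by_cases hn : n = 3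
    · subst hn
      have h3p : 3 < p := lt_of_le_of_lt (h3 rfl) hp
      obtain ⟨K, hK, HK⟩ := Pool.Agent.BVA.main3_bv D N 1 p one_pos h3p (by norm_num; exact h3p)
      refine ⟨K * ENNReal.ofReal (max V 1) ^ (p - 1), ENNReal.mul_ne_top hK
        (ENNReal.rpow_ne_top_of_nonneg (by linarith) ENNReal.ofReal_ne_top),
        fun a _ ha hne P Q hP hQ => ?_⟩
      rcases ha with rfl | ⟨_, h1, h2, h4⟩
      · exact absurd rfl hne
      refine HK (max V 1) a (le_max_right _ _) h1 h2 (fun r hr => ?_) P Q hP hQ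
      refine (h4 r hr).trans (ENNReal.ofReal_le_ofReal ?_)
      rw [← Real.rpow_natCast r 3, show (((3 : ℕ) : ℝ)) = 2 + 1 by norm_num]
      exact mul_le_mul_of_nonneg_right (le_max_left _ _) (by positivity)
    · exact ⟨0, ENNReal.zero_ne_top, fun a h => absurd h hn⟩
  refine ⟨C + C', ENNReal.add_ne_top.2 ⟨hC, hC'⟩, fun a ha P Q hP hQ => ?_⟩
  by_cases h1 : a = 1
  · subst h1
    have e1 : (fun x : E n => (1 : E n → ℂ) x * pol P Q x) = pol P Q := by
      funext x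
      rw [Pi.one_apply, one_mul]
    rw [e1]
    exact (H P Q hP hQ).trans le_self_add
  · have hn : n = 3 := by
      rcases ha with h | h
      · exact absurd h h1
      · exact h.1
    exact (H' a hn ha h1 P Q hP hQ).trans le_add_self

end Pool.Agent.VANn.TM
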