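import Pool.Agent.VANn.TU4
import Pool.Agent.VAN.AN7

/-!
Smooth amplitudes: they are combinations of four unimodular functions with smooth phases.
-/

set_option autoImplicit false

namespace Pool.Agent.VANn.TM

open MeasureTheory Set MvPolynomial Pool.Agent.MP_6cbfb8_an Filter Topology
open Pool.Agent.VAN (FF j_congr j_smul)
open scoped ENNReal Real ContDiff

variable {n : ℕ}

/-- bounds for the derivatives of the arc sine of a smooth function -/
lemma arcsin_bound (B : ℕ → ℝ) (K : ℕ) : ∃ T : ℝ, ∀ b : E n → ℝ,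
    (∀ x, ‖x‖ = 1 → ContDiffAt ℝ ∞ b x) → (∀ k x, ‖x‖ = 1 → ‖iteratedFDeriv ℝ k b x‖ ≤ B k) →
    (∀ x, ‖x‖ = 1 → |b x| ≤ 1 / 2) →
    ∀ x, ‖x‖ = 1 → ‖iteratedFDeriv ℝ K (Real.arcsin ∘ b) x‖ ≤ T := by
  have hat : ∀ y : ℝ, |y| < 1 → ContDiffAt ℝ ∞ Real.arcsin y := fun y hy => by
    rw [abs_lt] at hy
    exact Real.contDiffAt_arcsin (by linarith [hy.1]) (by linarith [hy.2])
  have hM : ∀ i : ℕ, ∃ M : ℝ, ∀ y : ℝ, |y| ≤ 1 / 2 → ‖iteratedFDeriv ℝ i Real.arcsin y‖ ≤ M := by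
    intro i
    obtain ⟨M, hM⟩ := (isCompact_Icc (a := (-1 / 2 : ℝ)) (b := 1 / 2)).exists_bound_of_continuousOn
      (f := fun y => iteratedFDeriv ℝ i Real.arcsin y) (by
      intro y hy
      have h0 : |y| < 1 := by
        rw [abs_lt]
        constructor <;> linarith [hy.1, hy.2]
      have h1 : ContDiffAt ℝ 0 (iteratedFDeriv ℝ i Real.arcsin) y :=
        (hat y h0).iteratedFDeriv_right (by rw [zero_add]; exact_mod_cast le_top)
      exact h1.continuousAt.continuousWithinAt)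
    refine ⟨M, fun y hy => hM y ?_⟩
    rw [abs_le] at hy
    exact ⟨by linarith [hy.1], hy.2⟩
  choose M hM using hM
  refine ⟨K.factorial * (∑ i ∈ Finset.range (K + 1), |M i|) *
    (1 + ∑ i ∈ Finset.range (K + 1), |B i|) ^ K, fun b hb hB hb1 x hx => ?_⟩
  have hev := ((hb x hx).of_le (by exact_mod_cast le_top : ((K : ℕ) : WithTop ℕ∞) ≤
    ((⊤ : ℕ∞) : WithTop ℕ∞))).eventually (by exact_mod_cast ENat.natCast_ne_top K)
  obtain ⟨s', hs', hso', hxs'⟩ := eventually_nhds_iff.1 hev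
  have hbc : ContDiffOn ℝ K b s' := fun y hy => (hs' y hy).contDiffWithinAt
  have hto : IsOpen (Ioo (-1 : ℝ) 1) := isOpen_Ioo
  have hso : IsOpen (s' ∩ b ⁻¹' Ioo (-1 : ℝ) 1) :=
    hbc.continuousOn.isOpen_inter_preimage hso' hto
  have hbx : b x ∈ Ioo (-1 : ℝ) 1 := by
    have := abs_le.1 (hb1 x hx)
    exact ⟨by linarith [this.1], by linarith [this.2]⟩
  have hxs : x ∈ s' ∩ b ⁻¹' Ioo (-1 : ℝ) 1 := ⟨hxs', hbx⟩
  have h1 := norm_iteratedFDerivWithin_comp_le (g := Real.arcsin) (f := b) (n := K) (N := K)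
    (s := s' ∩ b ⁻¹' Ioo (-1 : ℝ) 1) (t := Ioo (-1 : ℝ) 1) (x := x)
    (fun y hy => ((hat y (abs_lt.2 hy)).of_le (by exact_mod_cast le_top)).contDiffWithinAt)
    (hbc.mono inter_subset_left) le_rfl
    hto.uniqueDiffOn hso.uniqueDiffOn (fun y hy => hy.2) hxs
    (C := ∑ i ∈ Finset.range (K + 1), |M i|) (D := 1 + ∑ i ∈ Finset.range (K + 1), |B i|)
    (fun i hi => ?_) (fun i hi1 hi => ?_)
  · rwa [iteratedFDerivWithin_of_isOpen K hso hxs] at h1
  · rw [iteratedFDerivWithin_of_isOpen i hto hbx]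
    refine (hM i _ (hb1 x hx)).trans ((le_abs_self _).trans ?_)
    exact Finset.single_le_sum (f := fun i => |M i|) (fun _ _ => abs_nonneg _)
      (Finset.mem_range.2 (by omega))
  · rw [iteratedFDerivWithin_of_isOpen i hso hxs]
    have h2 : |B i| ≤ ∑ i ∈ Finset.range (K + 1), |B i| :=
      Finset.single_le_sum (f := fun i => |B i|) (fun _ _ => abs_nonneg _)
        (Finset.mem_range.2 (by omega))
    have h3 : (1 : ℝ) ≤ 1 + ∑ i ∈ Finset.range (K + 1), |B i| := by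
      have : 0 ≤ ∑ i ∈ Finset.range (K + 1), |B i| := Finset.sum_nonneg fun _ _ => abs_nonneg _
      linarith
    calc ‖iteratedFDeriv ℝ i b x‖ ≤ B i := hB i x hx
      _ ≤ |B i| := le_abs_self _
      _ ≤ 1 + ∑ i ∈ Finset.range (K + 1), |B i| := by linarith
      _ = (1 + ∑ i ∈ Finset.range (K + 1), |B i|) ^ 1 := (pow_one _).symm
      _ ≤ _ := pow_le_pow_right₀ h3 hi1

lemma arcsin_smooth {b : E n → ℝ} (hb : ∀ x, ‖x‖ = 1 → ContDiffAt ℝ ∞ b x)
    (hb1 : ∀ x, ‖x‖ = 1 → |b x| ≤ 1 / 2) (x : E n) (hx : ‖x‖ = 1) :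
    ContDiffAt ℝ ∞ (Real.arcsin ∘ b) x := by
  have := abs_le.1 (hb1 x hx)
  exact (Real.contDiffAt_arcsin (by linarith [this.1]) (by linarith [this.2])).comp x (hb x hx)

/-- composition with a linear functional of norm at most one, and a small factor -/
lemma lin_bound {a : E n → ℂ} {B : ℕ → ℝ} (ha : ∀ x, ‖x‖ = 1 → ContDiffAt ℝ ∞ a x)
    (hB : ∀ k x, ‖x‖ = 1 → ‖iteratedFDeriv ℝ k a x‖ ≤ B k) (L : ℂ →L[ℝ] ℝ) (hL : ‖L‖ ≤ 1) :
    (∀ x, ‖x‖ = 1 → ContDiffAt ℝ ∞ (L ∘ a) x) ∧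
      ∀ k x, ‖x‖ = 1 → ‖iteratedFDeriv ℝ k (L ∘ a) x‖ ≤ B k := by
  refine ⟨fun x hx => L.contDiff.contDiffAt.comp x (ha x hx), fun k x hx => ?_⟩
  rw [L.iteratedFDeriv_comp_left (ha x hx) (by exact_mod_cast le_top)]
  refine (ContinuousLinearMap.norm_compContinuousMultilinearMap_le _ _).trans ?_
  calc ‖L‖ * ‖iteratedFDeriv ℝ k a x‖ ≤ 1 * ‖iteratedFDeriv ℝ k a x‖ :=
        mul_le_mul_of_nonneg_right hL (norm_nonneg _)
    _ ≤ B k := by rw [one_mul]; exact hB k x hx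

lemma four_exp {s : ℝ} (hs1 : |s| ≤ 1 / 2) : ((s : ℝ) : ℂ) =
    (Complex.exp ((Real.arcsin s : ℂ) * Complex.I) -
      Complex.exp (-((Real.arcsin s : ℂ) * Complex.I))) * (-Complex.I / 2) := by
  have h1 : Real.sin (Real.arcsin s) = s := by
    have := abs_le.1 hs1
    exact Real.sin_arcsin (by linarith [this.1]) (by linarith [this.2])
  have h2 : Complex.sin (Real.arcsin s : ℂ) = ((s : ℝ) : ℂ) := by
    rw [← Complex.ofReal_sin, h1]
  rw [← h2, Complex.sin]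
  ring_nf

/-- **The estimate with a loss for sums of smooth functions and elements of the algebra, and smooth
amplitudes**, uniform in the smooth functions. -/
theorem mixed_loss_smooth (hn : 2 ≤ n) {p0 : ℝ} (hp0' : 1 ≤ p0) (hB : Base n p0) {m : ℕ}
    (φ : Fin m → E n → ℝ) (hφ : ∀ k, φ k ∈ Alg n) (B : ℕ → ℝ) (p ε : ℝ) (hp : p0 < p)
    (hε : 0 < ε) : ∃ C : ℝ≥0∞, C ≠ ⊤ ∧ ∀ (a : E n → ℂ) (l : Fin m → ℝ) (t : ℝ)
      (u : E n → ℝ), 0 ≤ t →
      (∀ x, ‖x‖ = 1 → ContDiffAt ℝ ∞ a x ∧ ∀ k, ‖iteratedFDeriv ℝ k a x‖ ≤ B k) →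
      (∀ x, ‖x‖ = 1 → ContDiffAt ℝ ∞ u x ∧ ∀ k, ‖iteratedFDeriv ℝ k u x‖ ≤ t * B k) →
      ∫⁻ ξ, ‖extn (fun x => a x *
        Complex.exp (((u x + ∑ k, l k * φ k x : ℝ) : ℂ) * Complex.I)) ξ‖ₑ ^ p ≤
        C * ENNReal.ofReal ((1 + t + ‖l‖) ^ ε) := by
  have hp1 : 1 ≤ p := by linarith
  -- the size of the amplitude
  obtain ⟨M, hMdef⟩ : ∃ M : ℝ, M = |B 0| + 1 := ⟨_, rfl⟩
  have hM1 : 1 ≤ M := by rw [hMdef]; linarith [abs_nonneg (B 0)]
  have hM0 : 0 < M := by linarith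
  choose T hT using fun K => arcsin_bound (n := n) (fun k => |B k|) K
  -- the unimodular densities
  obtain ⟨C, hC, H⟩ := mixed_loss_cls hn hp0' (cls := fun a : E n → ℂ => a = 1)
    (fun a ha => by subst ha; exact ⟨measurable_const, fun x => by simp⟩)
    (fun D N p hp => by
      obtain ⟨C, hC, H⟩ := hB D N p hp
      refine ⟨C, hC, fun a ha P Q hP hQ => ?_⟩
      subst ha
      have e1 : (fun x : E n => (1 : E n → ℂ) x * pol P Q x) = pol P Q := by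
        funext x
        rw [Pi.one_apply, one_mul]
      rw [e1]
      exact H P Q hP hQ) φ hφ (fun k => |B k| + |T k|) p ε hp hε
  refine ⟨ENNReal.ofReal (4 * M) ^ p * (C * ENNReal.ofReal (2 ^ ε)),
    ENNReal.mul_ne_top (ENNReal.rpow_ne_top_of_nonneg (by linarith) ENNReal.ofReal_ne_top)
      (ENNReal.mul_ne_top hC ENNReal.ofReal_ne_top), fun a l t u ht ha hu => ?_⟩
  -- the two angles
  have hang : ∀ L : ℂ →L[ℝ] ℝ, ‖L‖ ≤ 1 → ∃ θ : E n → ℝ, (∀ x, ‖x‖ = 1 → ContDiffAt ℝ ∞ θ x) ∧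
      (∀ k x, ‖x‖ = 1 → ‖iteratedFDeriv ℝ k θ x‖ ≤ |T k|) ∧
      ∀ x, ‖x‖ = 1 → ((L (a x) : ℝ) : ℂ) = 2 * M * ((Complex.exp ((θ x : ℂ) * Complex.I) -
        Complex.exp (-((θ x : ℂ) * Complex.I))) * (-Complex.I / 2)) := by
    intro L hL
    have hL2 : ‖(2 * M)⁻¹ • L‖ ≤ 1 := by
      rw [norm_smul, Real.norm_of_nonneg (by positivity)]
      have h1 : (2 * M)⁻¹ ≤ 1 := inv_le_one_of_one_le₀ (by linarith)
      calc (2 * M)⁻¹ * ‖L‖ ≤ 1 * 1 := mul_le_mul h1 hL (norm_nonneg _) zero_le_one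
        _ = 1 := one_mul 1
    obtain ⟨h1, h2⟩ := lin_bound (fun x hx => (ha x hx).1) (B := fun k => |B k|)
      (fun k x hx => ((ha x hx).2 k).trans (le_abs_self _)) ((2 * M)⁻¹ • L) hL2
    have h3 : ∀ x, ‖x‖ = 1 → |(((2 * M)⁻¹ • L) ∘ a) x| ≤ 1 / 2 := by
      intro x hx
      have h4 : ‖a x‖ ≤ M := by
        have := (ha x hx).2 0
        rw [norm_iteratedFDeriv_zero] at this
        rw [hMdef]
        linarith [le_abs_self (B 0)]
      have h5 : |L (a x)| ≤ M := by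
        have := L.le_opNorm (a x)
        rw [Real.norm_eq_abs] at this
        calc |L (a x)| ≤ ‖L‖ * ‖a x‖ := this
          _ ≤ 1 * M := mul_le_mul hL h4 (norm_nonneg _) zero_le_one
          _ = M := one_mul M
      show |(2 * M)⁻¹ * L (a x)| ≤ 1 / 2
      rw [abs_mul, abs_of_pos (by positivity), inv_mul_le_iff₀ (by positivity)]
      linarith
    refine ⟨Real.arcsin ∘ (((2 * M)⁻¹ • L) ∘ a), arcsin_smooth h1 h3,
      fun k x hx => (hT k _ h1 h2 h3 x hx).trans (le_abs_self _), fun x hx => ?_⟩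
    rw [Function.comp_apply, ← four_exp (h3 x hx)]
    show ((L (a x) : ℝ) : ℂ) = 2 * M * (((2 * M)⁻¹ * L (a x) : ℝ) : ℂ)
    push_cast
    have : (M : ℂ) ≠ 0 := by exact_mod_cast hM0.ne'
    field_simp
  obtain ⟨θ₁, h11, h12, h13⟩ := hang Complex.reCLM (by
    rw [Complex.reCLM_norm])
  obtain ⟨θ₂, h21, h22, h23⟩ := hang Complex.imCLM (by
    rw [Complex.imCLM_norm])
  -- the four phases
  have key : ∀ (θ : E n → ℝ) (s : ℝ) (c : ℂ), |s| = 1 → ‖c‖ = 1 →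
      (∀ x, ‖x‖ = 1 → ContDiffAt ℝ ∞ θ x) →
      (∀ k x, ‖x‖ = 1 → ‖iteratedFDeriv ℝ k θ x‖ ≤ |T k|) →
      FF p (fun x => c * Complex.exp ((((((fun x => u x + s * θ x) ∘ nu) x +
        ∑ k, l k * φ k x : ℝ) : ℂ)) * Complex.I)) ≤
        C * ENNReal.ofReal (2 ^ ε) * ENNReal.ofReal ((1 + t + ‖l‖) ^ ε) := by
    intro θ s c hs hc h1 h2
    refine (Pool.Agent.VAN.j_FF_smul (by linarith) _ hc.le).trans ?_
    have h3 : ∀ x, ‖x‖ = 1 → ContDiffAt ℝ ∞ (fun x => u x + s * θ x) x := fun x hx =>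
      (hu x hx).1.add (contDiffAt_const.mul (h1 x hx))
    have h4 : ∀ k x, ‖x‖ = 1 → ‖iteratedFDeriv ℝ k (fun x => u x + s * θ x) x‖ ≤
        (t + 1) * (|B k| + |T k|) := by
      intro k x hx
      have hk : (k : WithTop ℕ∞) ≤ ((⊤ : ℕ∞) : WithTop ℕ∞) := by exact_mod_cast le_top
      have e1 : iteratedFDeriv ℝ k (fun x => u x + s * θ x) x =
          iteratedFDeriv ℝ k u x + s • iteratedFDeriv ℝ k θ x := by
        have e2 : iteratedFDeriv ℝ k (fun x => s * θ x) x = s • iteratedFDeriv ℝ k θ x := by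
          have := iteratedFDeriv_const_smul_apply' (a := s) (x := x) (i := k)
            ((h1 x hx).of_le hk : ContDiffAt ℝ k θ x)
          simpa only [smul_eq_mul] using this
        have e3 := fun_iteratedFDeriv_add_apply (i := k) (x := x) ((hu x hx).1.of_le hk)
          ((contDiffAt_const.mul (h1 x hx)).of_le hk : ContDiffAt ℝ k (fun x => s * θ x) x)
        rw [← e2]
        exact e3
      rw [e1]
      refine (norm_add_le _ _).trans ?_
      rw [norm_smul, Real.norm_eq_abs, hs, one_mul]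
      have h5 := (hu x hx).2 k
      have h6 := h2 k x hx
      have h7 : t * B k ≤ t * |B k| := mul_le_mul_of_nonneg_left (le_abs_self _) ht
      have h8 : 0 ≤ |B k| := abs_nonneg _
      have h9 : 0 ≤ t * |T k| := by positivity
      nlinarith
    have h5 := H 1 rfl l (t + 1) (fun x => u x + s * θ x) (by linarith) h3 h4
    have e4 : FF p (fun x => Complex.exp ((((((fun x => u x + s * θ x) ∘ nu) x +
        ∑ k, l k * φ k x : ℝ) : ℂ)) * Complex.I)) =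
        ∫⁻ ξ, ‖extn (fun x => (1 : E n → ℂ) x *
          Complex.exp ((((fun x => u x + s * θ x) x + ∑ k, l k * φ k x : ℝ) : ℂ) *
            Complex.I)) ξ‖ₑ ^ p := by
      unfold FF
      rw [extn_congr' (g := fun x => Complex.exp ((((((fun x => u x + s * θ x) ∘ nu) x +
        ∑ k, l k * φ k x : ℝ) : ℂ)) * Complex.I)) (h := fun x => (1 : E n → ℂ) x *
          Complex.exp ((((fun x => u x + s * θ x) x + ∑ k, l k * φ k x : ℝ) : ℂ) *
            Complex.I)) fun x hx => by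
          rw [Pi.one_apply, one_mul, Function.comp_apply, nu_of_norm hx]]
    rw [e4]
    refine h5.trans ?_
    rw [mul_assoc, ← ENNReal.ofReal_mul (by positivity)]
    gcongr
    rw [← Real.mul_rpow (by norm_num) (by positivity)]
    refine Real.rpow_le_rpow (by positivity) ?_ hε.le
    linarith [norm_nonneg l]
  -- the average
  obtain ⟨g, hg⟩ : ∃ g : Fin 4 → E n → ℂ, g = ![
      fun x => (-Complex.I) * Complex.exp ((((((fun x => u x + 1 * θ₁ x) ∘ nu) x +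
        ∑ k, l k * φ k x : ℝ) : ℂ)) * Complex.I),
      fun x => Complex.I * Complex.exp ((((((fun x => u x + (-1) * θ₁ x) ∘ nu) x +
        ∑ k, l k * φ k x : ℝ) : ℂ)) * Complex.I),
      fun x => 1 * Complex.exp ((((((fun x => u x + 1 * θ₂ x) ∘ nu) x +
        ∑ k, l k * φ k x : ℝ) : ℂ)) * Complex.I),
      fun x => (-1) * Complex.exp ((((((fun x => u x + (-1) * θ₂ x) ∘ nu) x +
        ∑ k, l k * φ k x : ℝ) : ℂ)) * Complex.I)] := ⟨_, rfl⟩
  have hgF : ∀ i, FF p (g i) ≤ C * ENNReal.ofReal (2 ^ ε) * ENNReal.ofReal ((1 + t + ‖l‖) ^ ε) := by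
    intro i
    rw [hg]
    fin_cases i
    · exact key θ₁ 1 (-Complex.I) (by simp) (by simp) h11 h12
    · exact key θ₁ (-1) Complex.I (by simp) (by simp) h11 h12
    · exact key θ₂ 1 1 (by simp) (by simp) h21 h22
    · exact key θ₂ (-1) (-1) (by simp) (by simp) h21 h22
  have hmeas : ∀ (θ : E n → ℝ) (s : ℝ) (c : ℂ), (∀ x, ‖x‖ = 1 → ContDiffAt ℝ ∞ θ x) →
      Measurable (fun x => c * Complex.exp ((((((fun x => u x + s * θ x) ∘ nu) x +
        ∑ k, l k * φ k x : ℝ) : ℂ)) * Complex.I)) := by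
    intro θ s c h1
    have h2 : Measurable ((fun x => u x + s * θ x) ∘ nu) :=
      measurable_comp_nu fun x hx => (hu x hx).1.add (contDiffAt_const.mul (h1 x hx))
    have h3 : Measurable fun x => ∑ k, l k * φ k x :=
      Finset.measurable_sum _ fun k _ => ((alg_tame hn (hφ k)).1).const_mul _
    exact ((((Complex.measurable_ofReal.comp (h2.add h3)).mul_const _).cexp)).const_mul _
  have hgm : ∀ i, Measurable (g i) := by
    intro i
    rw [hg]
    fin_cases i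
    · exact hmeas θ₁ 1 (-Complex.I) h11
    · exact hmeas θ₁ (-1) Complex.I h11
    · exact hmeas θ₂ 1 1 h21
    · exact hmeas θ₂ (-1) (-1) h21
  have hgb : ∀ i x, ‖g i x‖ ≤ 1 := by
    intro i x
    rw [hg]
    fin_cases i
    · show ‖(-Complex.I) * Complex.exp (_ * Complex.I)‖ ≤ 1
      rw [norm_mul, Complex.norm_exp_ofReal_mul_I]; simp
    · show ‖Complex.I * Complex.exp (_ * Complex.I)‖ ≤ 1
      rw [norm_mul, Complex.norm_exp_ofReal_mul_I]; simp
    · show ‖1 * Complex.exp (_ * Complex.I)‖ ≤ 1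
      rw [norm_mul, Complex.norm_exp_ofReal_mul_I]; simp
    · show ‖(-1) * Complex.exp (_ * Complex.I)‖ ≤ 1
      rw [norm_mul, Complex.norm_exp_ofReal_mul_I]; simp
  have hav := Pool.Agent.VAN.AN.FF_average hp1 (N := 4) (by norm_num) hgm hgb hgF
  have e5 : extn (fun x => a x * Complex.exp (((u x + ∑ k, l k * φ k x : ℝ) : ℂ) * Complex.I)) =
      extn (fun x => (4 * M : ℂ) * (((4 : ℕ) : ℂ)⁻¹ * ∑ i, g i x)) := by
    refine extn_congr' fun x hx => ?_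
    have e6 : a x = ((Complex.reCLM (a x) : ℝ) : ℂ) + ((Complex.imCLM (a x) : ℝ) : ℂ) * Complex.I := by
      simp
    have e7 : ∀ (s : ℝ) (θ : E n → ℝ), Complex.exp ((((((fun x => u x + s * θ x) ∘ nu) x +
        ∑ k, l k * φ k x : ℝ) : ℂ)) * Complex.I) =
        Complex.exp (((u x + ∑ k, l k * φ k x : ℝ) : ℂ) * Complex.I) *
          Complex.exp ((s * θ x : ℂ) * Complex.I) := by
      intro s θ
      rw [← Complex.exp_add, Function.comp_apply, nu_of_norm hx]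
      congr 1
      push_cast
      ring
    rw [e6, h13 x hx, h23 x hx, hg, Fin.sum_univ_four]
    simp only [Matrix.cons_val_zero, Matrix.cons_val_one, Matrix.cons_val, e7]
    have e8 : ∀ θ : E n → ℝ, Complex.exp ((((-1 : ℝ) : ℂ) * θ x) * Complex.I) =
        Complex.exp (-((θ x : ℂ) * Complex.I)) := by
      intro θ
      congr 1
      push_cast
      ring
    have e9 : ∀ θ : E n → ℝ, Complex.exp ((((1 : ℝ) : ℂ) * θ x) * Complex.I) =
        Complex.exp ((θ x : ℂ) * Complex.I) := by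
      intro θ
      congr 1
      push_cast
      ring
    rw [e8, e8, e9, e9]
    have hI : Complex.I * Complex.I = -1 := Complex.I_mul_I
    push_cast
    linear_combination (M : ℂ) *
      Complex.exp ((((u x : ℝ) : ℂ) + ∑ k, (((l k : ℝ) : ℂ) * ((φ k x : ℝ) : ℂ))) * Complex.I) *
      (Complex.exp (-((θ₂ x : ℂ) * Complex.I)) - Complex.exp ((θ₂ x : ℂ) * Complex.I)) * hI
  rw [e5]
  have e10 : ∀ ξ, ‖extn (fun x => (4 * M : ℂ) * (((4 : ℕ) : ℂ)⁻¹ * ∑ i, g i x)) ξ‖ₑ ^ p =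
      ENNReal.ofReal (4 * M) ^ p * ‖extn (fun x => (((4 : ℕ) : ℂ)⁻¹ * ∑ i, g i x)) ξ‖ₑ ^ p := by
    intro ξ
    rw [j_smul, enorm_mul, ENNReal.mul_rpow_of_nonneg _ _ (by linarith)]
    congr 2
    rw [← ofReal_norm]
    congr 1
    rw [norm_mul, Complex.norm_real, Real.norm_of_nonneg hM0.le]
    simp
  simp only [e10]
  have e11 : Measurable fun ξ => ‖extn (fun x => (((4 : ℕ) : ℂ)⁻¹ * ∑ i, g i x)) ξ‖ₑ ^ p :=
    Pool.Agent.VAN.AN.measurable_norm_extn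
      ((Finset.measurable_sum _ fun i _ => hgm i).const_mul _)
  rw [lintegral_const_mul _ e11, mul_assoc, mul_assoc]
  refine mul_le_mul_right ?_ _
  rw [← mul_assoc]
  exact hav

/-- **The estimate with a loss in the algebra**, uniform in the smooth part of the phase and in the
amplitude, from the estimate for one smooth phase. -/
theorem mixed_loss_of_one {d : ℕ} (hd : 2 ≤ d) (H : OneLoss (d + 1) (2 * ((d : ℝ) + 1) / d)) {m : ℕ}
    (φ : Fin m → E (d + 1) → ℝ) (hφ : ∀ k, φ k ∈ Alg (d + 1)) (B : ℕ → ℝ) (V p ε : ℝ)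
    (hp : 2 * ((d + 1 : ℕ) : ℝ) / (((d + 1 : ℕ) : ℝ) - 1) < p) (hε : 0 < ε) :
    ∃ C : ℝ≥0∞, C ≠ ⊤ ∧ ∀ a : E (d + 1) → ℂ,
      ((∀ x, ‖x‖ = 1 → ContDiffAt ℝ ∞ a x ∧ ∀ k, ‖iteratedFDeriv ℝ k a x‖ ≤ B k) ∨
        d + 1 = 3 ∧ Measurable a ∧ (∀ x, ‖a x‖ ≤ 1) ∧ ∀ r : ℝ, 0 < r →
        ∫⁻ x : S (d + 1), (∫⁻ y in Metric.closedBall x r, ‖a x - a y‖ₑ ∂(sm (d + 1)))
          ∂(sm (d + 1)) ≤ ENNReal.ofReal (V * r ^ (d + 1))) →
      ∀ (l : Fin m → ℝ) (t : ℝ) (u : E (d + 1) → ℝ), 0 ≤ t →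
      (∀ x, ‖x‖ = 1 → ContDiffAt ℝ ∞ u x ∧ ∀ k, ‖iteratedFDeriv ℝ k u x‖ ≤ t * B k) →
      ∫⁻ ξ, ‖extn (fun x => a x *
        Complex.exp (((u x + ∑ k, l k * φ k x : ℝ) : ℂ) * Complex.I)) ξ‖ₑ ^ p ≤
        C * ENNReal.ofReal ((1 + t + ‖l‖) ^ ε) := by
  have hp' : 2 * ((d : ℝ) + 1) / d < p := by
    refine lt_of_eq_of_lt ?_ hp
    push_cast
    congr 1
    ring
  have hd0 : (0 : ℝ) < d := by exact_mod_cast (by omega : 0 < d)
  have h1 : (1 : ℝ) ≤ 2 * ((d : ℝ) + 1) / d := by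
    rw [le_div_iff₀ hd0]
    linarith
  have hb := base_of_one (by omega) h1 H
  obtain ⟨C, hC, h⟩ := mixed_loss_cls (by omega) h1 (ac_ok (d + 1) V)
    (baseA_ac hb (fun h3 => by
      obtain rfl : d = 2 := by omega
      norm_num) V) φ hφ B p ε hp' hε
  obtain ⟨C', hC', h'⟩ := mixed_loss_smooth (by omega) h1 hb φ hφ B p ε hp' hε
  refine ⟨C + C', ENNReal.add_ne_top.2 ⟨hC, hC'⟩, fun a ha l t u ht hu => ?_⟩
  rcases ha with ha | ha
  · exact (h' a l t u ht ha hu).trans (mul_le_mul_left le_add_self _)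
  · exact (h a (Or.inr ha) l t u ht (fun x hx => (hu x hx).1) fun k x hx => (hu x hx).2 k).trans
      (mul_le_mul_left le_self_add _)

end Pool.Agent.VANn.TM
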