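import Pool.Agent.VANn.TU5
import Pool.Agent.VANn.RA2

/-!
The estimate with a loss in the algebra, with smooth amplitudes and with amplitudes of bounded
variation, over the estimate in the chart for amplitudes of bounded variation.
-/

set_option autoImplicit false

namespace Pool.Agent.VANn.TM

open MeasureTheory Set MvPolynomial Pool.Agent.MP_6cbfb8_an Filter Topology
open Pool.Agent.VAN (fam famc)
open Pool.Agent.GNP (BVn)
open scoped ENNReal Real ContDiff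

/-- Polynomial phases and cuts of bounded degree, with amplitudes of bounded variation. -/
theorem baseA_bv {m : ℕ} (hm : 2 ≤ m) (H : CoreA m) (V : ℝ) :
    BaseA (m + 1) (2 * ((m : ℝ) + 1) / m)
      (fun a => Measurable a ∧ (∀ x, ‖a x‖ ≤ 1) ∧ BVn (m + 1) 1 V a) := by
  obtain ⟨k, rfl⟩ : ∃ k, m = k + 1 := ⟨m - 1, by omega⟩
  have h1 : 1 ≤ 2 * (((k + 1 : ℕ) : ℝ) + 1) / ((k + 1 : ℕ) : ℝ) := by
    have hk : (0:ℝ) ≤ k := Nat.cast_nonneg k
    push_cast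
    rw [le_div_iff₀ (by positivity)]
    linarith
  intro D N p hp
  obtain ⟨d, φ, hφ⟩ := exists_family (k + 1 + 1) D
  have han : ∀ j, AnalyticOnNhd ℝ ((fun j => ev (φ j)) j) (Metric.sphere (0 : E (k + 1 + 1)) 1) :=
    fun j => analytic_ev (φ j)
  have hnf : Nonflat fun j => ev (φ j) := nonflat_of_analytic (by omega) _ han
  obtain ⟨C, hC, h⟩ := main_nfA (j := k) (V := max V 1) one_pos le_rfl (le_max_right _ _) h1
    (fun j => ev (φ j)) hnf (lossA_of (by omega) H _ hnf.1) N p hp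
  refine ⟨C, hC, fun a ha P Q hP hQ => ?_⟩
  obtain ⟨c, hc⟩ := hφ P hP
  choose cs hcs using fun i => hφ (Q i) (hQ i)
  have hev : ∀ (a : Fin d → ℝ) (x : E (k + 1 + 1)), eval (fun i => x i) (∑ j, a j • φ j) =
      fam (fun j => ev (φ j)) a x := by
    intro a x
    unfold fam ev
    rw [map_sum]
    refine Finset.sum_congr rfl fun j _ => ?_
    rw [smul_eval]
  have h2 : pol P Q = famc (fun j => ev (φ j)) c cs := by
    funext x
    unfold pol Pool.Agent.VAN.famc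
    rw [hc, hev]
    congr 1
    refine Finset.prod_congr rfl fun i _ => ?_
    rw [← hev, ← hcs i]
  rw [h2]
  exact h a ⟨ha.1, ha.2.1, fun r hr => (ha.2.2 r hr).trans
    (ENNReal.ofReal_le_ofReal (mul_le_mul_of_nonneg_right (le_max_left _ _) (by positivity)))⟩ c cs

theorem base_bv {m : ℕ} (hm : 2 ≤ m) (H : CoreA m) : Base (m + 1) (2 * ((m : ℝ) + 1) / m) := by
  intro D N p hp
  obtain ⟨C, hC, h⟩ := baseA_bv hm H 0 D N p hp
  refine ⟨C, hC, fun P Q hP hQ => ?_⟩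
  have h1 := h 1 ⟨measurable_const, fun x => by simp, fun r _ => by simp⟩ P Q hP hQ
  have e1 : (fun x : E (m + 1) => (1 : E (m + 1) → ℂ) x * pol P Q x) = pol P Q := by
    funext x
    rw [Pi.one_apply, one_mul]
  rwa [e1] at h1

/-- **The estimate with a loss in the algebra**, uniform in the smooth part of the phase and in the
amplitude. -/
theorem mixed_loss_bv {d : ℕ} (hd : 2 ≤ d) (H : CoreA d) {m : ℕ}
    (φ : Fin m → E (d + 1) → ℝ) (hφ : ∀ k, φ k ∈ Alg (d + 1)) (B : ℕ → ℝ) (V p ε : ℝ)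
    (hp : 2 * ((d + 1 : ℕ) : ℝ) / (((d + 1 : ℕ) : ℝ) - 1) < p) (hε : 0 < ε) :
    ∃ C : ℝ≥0∞, C ≠ ⊤ ∧ ∀ a : E (d + 1) → ℂ,
      ((∀ x, ‖x‖ = 1 → ContDiffAt ℝ ∞ a x ∧ ∀ k, ‖iteratedFDeriv ℝ k a x‖ ≤ B k) ∨
        Measurable a ∧ (∀ x, ‖a x‖ ≤ 1) ∧ ∀ r : ℝ, 0 < r →
        ∫⁻ x : S (d + 1), (∫⁻ y in Metric.closedBall x r, ‖a x - a y‖ₑ ∂(sm (d + 1)))
          ∂(sm (d + 1)) ≤ ENNReal.ofReal (V * r ^ (d + 1))) →
      ∀ (l : Fin m → ℝ) (t : ℝ) (u : E (d + 1) → ℝ), 0 ≤ t →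
      (∀ x, ‖x‖ = 1 → ContDiffAt ℝ ∞ u x ∧ ∀ k, ‖iteratedFDeriv ℝ k u x‖ ≤ t * B k) →
      ∫⁻ ξ, ‖extn (fun x => a x *
        Complex.exp (((u x + ∑ k, l k * φ k x : ℝ) : ℂ) * Complex.I)) ξ‖ₑ ^ p ≤
        C * ENNReal.ofReal ((1 + t + ‖l‖) ^ ε) := by
  have hp' : 2 * ((d : ℝ) + 1) / d < p := by
    refine lt_of_eq_of_lt ?_ hp
    push_cast
    congr 1
    ring
  have hd0 : (0 : ℝ) < d := by exact_mod_cast (by omega : 0 < d)
  have h1 : (1 : ℝ) ≤ 2 * ((d : ℝ) + 1) / d := by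
    rw [le_div_iff₀ hd0]
    linarith
  obtain ⟨C, hC, h⟩ := mixed_loss_cls (by omega) h1 (fun a ha => ⟨ha.1, ha.2.1⟩)
    (baseA_bv hd H V) φ hφ B p ε hp' hε
  obtain ⟨C', hC', h'⟩ := mixed_loss_smooth (by omega) h1 (base_bv hd H) φ hφ B p ε hp' hε
  refine ⟨C + C', ENNReal.add_ne_top.2 ⟨hC, hC'⟩, fun a ha l t u ht hu => ?_⟩
  rcases ha with ha | ha
  · exact (h' a l t u ht ha hu).trans (mul_le_mul_left le_add_self _)
  · refine (h a ⟨ha.1, ha.2.1, fun r hr => ?_⟩ l t u ht (fun x hx => (hu x hx).1)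
      fun k x hx => (hu x hx).2 k).trans (mul_le_mul_left le_self_add _)
    refine (ha.2.2 r hr).trans (le_of_eq ?_)
    rw [← Real.rpow_natCast r (d + 1)]
    congr 3
    push_cast
    ring

end Pool.Agent.VANn.TM
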